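import Pool.Agent.Lib.MP_bfaad3_co.Perm

set_option autoImplicit false

namespace Pool.Agent.Lib.MP_bfaad3_co

open Equiv

section MinAux
variable {D : Type*} [Finite D]

/-- a relation closed under one step of `s` contains the cycles of `s` -/
theorem min_sc_of_step (s t : Perm D) (ρ : D → D)
    (h : ∀ z, t.SameCycle (ρ z) (ρ (s z))) {u v : D} (huv : s.SameCycle u v) :
    t.SameCycle (ρ u) (ρ v) := by
  obtain ⟨n, rfl⟩ := huv.exists_nat_pow_eq
  induction n with
  | zero => simpa using Perm.SameCycle.refl t (ρ u)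
  | succ n ih =>
    have e : (s ^ (n + 1)) u = s ((s ^ n) u) := by rw [pow_succ']; rfl
    rw [e]
    exact (ih ⟨(n : ℤ), by simp⟩).trans (h _)

omit [Finite D] in
/-- labels are constant on cycles -/
theorem min_lab {W : Type*} (s : Perm D) (β : D → W) (hβ : ∀ d, β (s d) = β d) (n : ℕ) (d : D) :
    β ((s ^ n) d) = β d := by
  induction n with
  | zero => rfl
  | succ n ih =>
    have e : (s ^ (n + 1)) d = s ((s ^ n) d) := by rw [pow_succ']; rfl
    rw [e, hβ, ih]

theorem min_lab' {W : Type*} (s : Perm D) (β : D → W) (hβ : ∀ d, β (s d) = β d) {d e : D}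
    (h : s.SameCycle d e) : β e = β d := by
  obtain ⟨n, rfl⟩ := h.exists_nat_pow_eq
  exact min_lab s β hβ n d

variable [DecidableEq D]

/-- multiplying by a transposition of two different cycles joins them -/
theorem min_join (s : Perm D) {x y : D} (h : ¬ s.SameCycle x y) :
    (swap x y * s).SameCycle x y := by
  by_contra hn
  have key : ∀ n : ℕ, s.SameCycle x (((swap x y * s) ^ n) x) := by
    intro n
    induction n with
    | zero => simpa using Perm.SameCycle.refl s x
    | succ n ih =>
      have e : ((swap x y * s) ^ (n + 1)) x = swap x y (s (((swap x y * s) ^ n) x)) := by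
        rw [pow_succ']; rfl
      set z := ((swap x y * s) ^ n) x with hz
      by_cases h1 : s z = x
      · exfalso
        apply hn
        refine ⟨((n + 1 : ℕ) : ℤ), ?_⟩
        rw [zpow_natCast, e, h1, swap_apply_left]
      · by_cases h2 : s z = y
        · exact absurd (h2 ▸ ih.apply_right) h
        · rw [e, swap_apply_of_ne_of_ne h1 h2]
          exact ih.apply_right
  have h1 : (swap x y * s).SameCycle x ((swap x y * s)⁻¹ x) := ⟨-1, by simp⟩
  obtain ⟨n, hn'⟩ := h1.exists_nat_pow_eq
  have h2 := key n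
  rw [hn'] at h2
  have h3 : s ((swap x y * s)⁻¹ x) = y := by
    simp [mul_inv_rev]
  exact h (h3 ▸ h2.apply_right)

theorem min_join_le (s : Perm D) {x y : D} (h : ¬ s.SameCycle x y) {u v : D}
    (huv : s.SameCycle u v) : (swap x y * s).SameCycle u v := by
  have hj := min_join s h
  refine min_sc_of_step s (swap x y * s) id (fun z => ?_) huv
  have h1 : (swap x y * s).SameCycle z (swap x y (s z)) := ⟨1, by simp⟩
  refine h1.trans ?_
  by_cases h2 : s z = x
  · simp only [id, h2, swap_apply_left]; exact hj.symm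
  · by_cases h3 : s z = y
    · simp only [id, h3, swap_apply_right]; exact hj
    · rw [swap_apply_of_ne_of_ne h2 h3]
      exact Perm.SameCycle.refl _ _

omit [Finite D] in
theorem min_swap_lab {W : Type*} (β : D → W) {x y : D} (h : β x = β y) (z : D) :
    β (swap x y z) = β z := by
  by_cases h1 : z = x
  · rw [h1, swap_apply_left, h]
  · by_cases h2 : z = y
    · rw [h2, swap_apply_right, h]
    · rw [swap_apply_of_ne_of_ne h1 h2]

omit [DecidableEq D] in
/-- step (1): contract the edges inside each label class -/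
theorem min_step1 {W : Type*} (a : Perm D) (β : D → Option W) (n : ℕ) :
    ∀ s : Perm D, cyc s = n → Gen0 s a → (∀ d, β (s d) = β d) →
      (∀ d e v, β d = some v → β e = some v →
        Relation.EqvGen (fun x y => β x = some v ∧ β y = some v ∧ (s.SameCycle x y ∨ y = a x))
          d e) →
      ∃ t : Perm D, Gen0 t a ∧ (∀ d, β (t d) = β d) ∧
        ∀ d e v, β d = some v → β e = some v → t.SameCycle d e := by
  classical
  induction n using Nat.strong_induction_on with
  | _ n ih =>
    intro s hs h0 hβ hconn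
    by_cases hx : ∃ x v, β x = some v ∧ β (a x) = some v ∧ ¬ s.SameCycle x (a x)
    · obtain ⟨x, v, hx1, hx2, hx3⟩ := hx
      have hxy : ¬ s.SameCycle x (s (a x)) := fun h => hx3 h.of_apply_right
      have hl : β x = β (s (a x)) := by rw [hβ, hx1, hx2]
      have hc : cyc (swap x (s (a x)) * s) < n := by
        rw [cyc_mul_comm]
        have := cyc_swap_diff s x (s (a x)) hxy
        omega
      refine ih _ hc (swap x (s (a x)) * s) rfl (gen0_face s a h0 _ _ ⟨1, by simp⟩) ?_ ?_
      · intro d
        rw [Perm.mul_apply, min_swap_lab β hl, hβ]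
      · intro d e w hd he
        refine Relation.EqvGen.mono ?_ _ _ (hconn d e w hd he)
        rintro p q ⟨h1, h2, h3⟩
        exact ⟨h1, h2, h3.imp (min_join_le s hxy) id⟩
    · refine ⟨s, h0, hβ, fun d e v hd he => ?_⟩
      have h := hconn d e v hd he
      clear hd he
      induction h with
      | rel p q hpq =>
        obtain ⟨h1, h2, h3 | h3⟩ := hpq
        · exact h3
        · subst h3
          by_contra hc
          exact hx ⟨p, v, h1, h2, hc⟩
      | refl p => exact Perm.SameCycle.refl _ _
      | symm p q _ h => exact h.symm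
      | trans p q r _ _ h1 h2 => exact h1.trans h2

omit [DecidableEq D] in
/-- step (3): detach the darts outside `P` -/
theorem min_step3 {W : Type*} (a : Perm D) (β : D → W) (P : Set D) (n : ℕ) :
    ∀ s : Perm D, {x | x ∉ P ∧ s x ≠ x}.ncard = n → Gen0 s a → (∀ d, β (s d) = β d) →
      ∃ t : Perm D, Gen0 t a ∧ (∀ d, β (t d) = β d) ∧ (∀ x, x ∉ P → t x = x) ∧
        ∀ d e, d ∈ P → e ∈ P → s.SameCycle d e → t.SameCycle d e := by
  classical
  induction n using Nat.strong_induction_on with
  | _ n ih =>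
    intro s hs h0 hβ
    by_cases hx : ∃ x, x ∉ P ∧ s x ≠ x
    · obtain ⟨x, hxP, hx⟩ := hx
      have ht : s⁻¹ x ≠ x := fun h => hx (by conv_lhs => rw [← h]; simp)
      have hst : s (s⁻¹ x) = x := by simp
      have hl : β x = β (s⁻¹ x) := by rw [← hβ (s⁻¹ x), hst]
      have hlt : {z | z ∉ P ∧ (s * swap x (s⁻¹ x)) z ≠ z}.ncard < n := by
        rw [← hs]
        refine Set.ncard_lt_ncard ⟨?_, ?_⟩ (Set.toFinite _)
        · rintro z ⟨hz1, hz2⟩
          refine ⟨hz1, fun h => hz2 ?_⟩
          have h1 : z ≠ x := fun e => hx (e ▸ h)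
          have h2 : z ≠ s⁻¹ x := fun e => by
            rw [e, hst] at h
            exact ht h.symm
          rw [Perm.mul_apply, swap_apply_of_ne_of_ne h1 h2, h]
        · intro h
          exact (h ⟨hxP, hx⟩).2 (by simp)
      obtain ⟨t, t0, tβ, tP, tc⟩ := ih _ hlt (s * swap x (s⁻¹ x)) rfl
        (gen0_split s a h0 _ _ ⟨-1, by simp⟩)
        (fun d => by rw [Perm.mul_apply, hβ, min_swap_lab β hl])
      refine ⟨t, t0, tβ, tP, fun d e hd he h => tc d e hd he ?_⟩
      have key := min_sc_of_step s (s * swap x (s⁻¹ x)) (fun z => if z = x then s⁻¹ x else z)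
        (fun z => ?_) h
      · have h1 : d ≠ x := fun e => hxP (e ▸ hd)
        have h2 : e ≠ x := fun e' => hxP (e' ▸ he)
        simpa only [if_neg h1, if_neg h2] using key
      · by_cases h1 : z = x
        · subst h1
          simp only [if_true, if_neg hx]
          exact ⟨1, by simp⟩
        · by_cases h2 : z = s⁻¹ x
          · rw [if_neg h1, if_pos (by rw [h2, hst]), h2]
          · have h3 : s z ≠ x := fun e => h2 (by rw [← e]; simp)
            rw [if_neg h1, if_neg h3]
            exact ⟨1, by rw [zpow_one, Perm.mul_apply, swap_apply_of_ne_of_ne h1 h2]⟩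
    · refine ⟨s, h0, hβ, fun x hxP => ?_, fun d e _ _ h => h⟩
      by_contra hc
      exact hx ⟨x, hxP, hc⟩

end MinAux

variable {V : Type*} [Fintype V]

omit [Fintype V] in
theorem min_alpha_apply {G : SimpleGraph V} (d : G.Dart) : alpha G d = d.symm := rfl

instance min_finite_dart {G : SimpleGraph V} : Finite G.Dart := by
  classical
  exact Finite.of_fintype _

/-- step (2): a symmetric choice of representatives -/
theorem min_step2 {D : Type*} (a : Perm D) (ha : ∀ d, a (a d) = d) (β : D → Option V)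
    (H : SimpleGraph V) (hH : ∀ u v, H.Adj u v → ∃ d, β d = some u ∧ β (a d) = some v) :
    ∃ f : H.Dart → D, (∀ e, β (f e) = some e.fst) ∧ ∀ e, f e.symm = a (f e) := by
  classical
  choose g hg1 hg2 using fun e : H.Dart => hH e.fst e.snd e.adj
  let ι := Fintype.equivFin V
  refine ⟨fun e => if ι e.fst < ι e.snd then g e else a (g e.symm), fun e => ?_, fun e => ?_⟩
  · by_cases h : ι e.fst < ι e.snd
    · simp only [if_pos h, hg1]
    · simp only [if_neg h]
      exact hg2 e.symm
  · have hne : ι e.fst ≠ ι e.snd := fun h => e.adj.ne (ι.injective h)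
    have e1 : e.symm.fst = e.snd := rfl
    have e2 : e.symm.snd = e.fst := rfl
    by_cases h : ι e.fst < ι e.snd
    · simp only [e1, e2, if_pos h, if_neg (not_lt.2 h.le), SimpleGraph.Dart.symm_symm]
    · have h' : ι e.snd < ι e.fst := lt_of_le_of_ne (not_lt.1 h) hne.symm
      simp only [e1, e2, if_neg h, if_pos h', ha]

theorem minor {D : Type*} [Finite D] (s a : Perm D) (ha : ∀ d, a (a d) = d) (h0 : Gen0 s a)
    (β : D → Option V) (hβ : ∀ d, β (s d) = β d)
    (hconn : ∀ d e v, β d = some v → β e = some v →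
      Relation.EqvGen (fun x y => β x = some v ∧ β y = some v ∧ (y = s x ∨ y = a x)) d e)
    (H : SimpleGraph V)
    (hH : ∀ u v, H.Adj u v → ∃ d, β d = some u ∧ β (a d) = some v) : Pl H := by
  obtain ⟨s1, g1, b1, c1⟩ := min_step1 a β _ s rfl h0 hβ (fun d e v hd he => by
    refine Relation.EqvGen.mono ?_ _ _ (hconn d e v hd he)
    rintro p q ⟨h1, h2, h3⟩
    exact ⟨h1, h2, h3.imp (fun h => ⟨1, by simp [h]⟩) id⟩)
  obtain ⟨f, hf1, hf2⟩ := min_step2 a ha β H hH
  have hinj : Function.Injective f := by
    intro d e h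
    have h1 := hf1 d
    have h2 := hf1 d.symm
    rw [hf2, h, ← hf2, hf1] at h2
    rw [h, hf1] at h1
    ext
    · exact (Option.some.inj h1).symm
    · exact (Option.some.inj h2).symm
  obtain ⟨t, g2, b2, tP, c2⟩ := min_step3 a β (Set.range f) _ s1 rfl g1 b1
  have ht : ∀ d, t d ∈ Set.range f ↔ d ∈ Set.range f := by
    intro d
    constructor
    · intro h
      by_contra hc
      exact hc (tP d hc ▸ h)
    · intro h
      by_contra hc
      have := t.injective (tP _ hc)
      exact hc (this.symm ▸ h)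
  have ha' : ∀ d, a d ∈ Set.range f ↔ d ∈ Set.range f := by
    intro d
    constructor
    · rintro ⟨e, he⟩
      exact ⟨e.symm, by rw [hf2, he, ha]⟩
    · rintro ⟨e, rfl⟩
      exact ⟨e.symm, hf2 e⟩
  have g3 := gen0_equiv (Equiv.ofInjective f hinj).symm _ _
    (gen0_sub t a g2 (fun d => d ∈ Set.range f) ht ha')
  have hperm : ∀ (u : Perm D) (hu : ∀ d, u d ∈ Set.range f ↔ d ∈ Set.range f) (e : H.Dart),
      f ((Equiv.ofInjective f hinj).symm.permCongr
        (u.subtypePerm (p := fun d => d ∈ Set.range f) hu) e) = u (f e) := by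
    intro u hu e
    rw [Equiv.permCongr_apply, Equiv.apply_ofInjective_symm hinj]
    rfl
  have hal : (Equiv.ofInjective f hinj).symm.permCongr
      (a.subtypePerm (p := fun d => d ∈ Set.range f) ha') = alpha H := by
    ext1 e
    apply hinj
    rw [hperm a ha' e, min_alpha_apply, hf2]
  rw [hal] at g3
  refine ⟨_, ⟨fun d => ?_, fun d e hde => ?_⟩, g3⟩
  · have h1 := hf1 ((Equiv.ofInjective f hinj).symm.permCongr
      (t.subtypePerm (p := fun d => d ∈ Set.range f) ht) d)
    rw [hperm t ht d, b2, hf1] at h1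
    exact (Option.some.inj h1).symm
  · have h1 : t.SameCycle (f d) (f e) :=
      c2 _ _ ⟨d, rfl⟩ ⟨e, rfl⟩ (c1 _ _ d.fst (hf1 d) (by rw [hf1, hde]))
    obtain ⟨n, hn⟩ := h1.exists_nat_pow_eq
    have key : ∀ m : ℕ, f ((((Equiv.ofInjective f hinj).symm.permCongr
        (t.subtypePerm (p := fun d => d ∈ Set.range f) ht)) ^ m) d) = (t ^ m) (f d) := by
      intro m
      induction m with
      | zero => rfl
      | succ m ih =>
        rw [pow_succ', pow_succ', Perm.mul_apply, Perm.mul_apply, hperm t ht, ih]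
    refine ⟨(n : ℤ), hinj ?_⟩
    rw [zpow_natCast, key, hn]

omit [Fintype V] in
/-- a cycle with a constant label is connected through steps of the permutation -/
theorem min_eqv {D : Type*} [Finite D] (s a : Perm D) (β : D → Option V)
    (hβ : ∀ d, β (s d) = β d) {d e : D} {v : V} (hd : β d = some v) (h : s.SameCycle d e) :
    Relation.EqvGen (fun x y => β x = some v ∧ β y = some v ∧ (y = s x ∨ y = a x)) d e := by
  obtain ⟨n, rfl⟩ := h.exists_nat_pow_eq
  clear h
  induction n with
  | zero => exact Relation.EqvGen.refl _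
  | succ n ih =>
    refine ih.trans _ _ _ (Relation.EqvGen.rel _ _ ⟨?_, ?_, Or.inl ?_⟩)
    · rw [min_lab s β hβ, hd]
    · rw [min_lab s β hβ, hd]
    · rw [pow_succ']; rfl

theorem pl_mono {G H : SimpleGraph V} (h : Pl G) (hle : H ≤ G) : Pl H := by
  obtain ⟨σ, hr, h0⟩ := h
  have hβ : ∀ d : G.Dart, (some (σ d).fst : Option V) = some d.fst := fun d => by rw [hr.1]
  refine minor σ (alpha G) (fun d => SimpleGraph.Dart.symm_symm d) h0 (fun d => some d.fst) hβ
    (fun d e v hd he => min_eqv σ _ _ hβ hd (hr.2 d e ?_)) H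
    (fun u v huv => ⟨⟨(u, v), hle huv⟩, rfl, rfl⟩)
  exact Option.some.inj (hd.trans he.symm)

theorem pl_merge {G : SimpleGraph V} {σ : Perm G.Dart} (hr : IsRot G σ)
    (h0 : Gen0 σ (alpha G)) (d e : G.Dart) (hde : (phi σ).SameCycle d e) (π : V → V)
    (hπ : π e.fst = d.fst) (hπ' : ∀ v, v ≠ e.fst → π v = v) (H : SimpleGraph V)
    (hH : ∀ u v, H.Adj u v → ∃ a b, G.Adj a b ∧ π a = u ∧ π b = v) : Pl H := by
  classical
  by_cases hfst : d.fst = e.fst
  · refine pl_mono ⟨σ, hr, h0⟩ (fun u v huv => ?_)
    have hid : ∀ w, π w = w := fun w => by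
      by_cases hw : w = e.fst
      · rw [hw, hπ, hfst]
      · exact hπ' w hw
    obtain ⟨a, b, hab, rfl, rfl⟩ := hH u v huv
    rwa [hid, hid]
  · have hns : ¬ σ.SameCycle d e := fun h =>
      hfst (min_lab' σ (fun x : G.Dart => x.fst) hr.1 h).symm
    have hl : (some (π d.fst) : Option V) = some (π e.fst) := by rw [hπ, hπ' _ hfst]
    have hβ : ∀ x : G.Dart, (some (π ((swap d e * σ) x).fst) : Option V) = some (π x.fst) := by
      intro x
      rw [Perm.mul_apply, min_swap_lab (fun x : G.Dart => (some (π x.fst) : Option V)) hl, hr.1]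
    have hj := min_join σ hns
    have hle : ∀ x y : G.Dart, x.fst = y.fst → (swap d e * σ).SameCycle x y :=
      fun x y h => min_join_le σ hns (hr.2 x y h)
    refine minor (swap d e * σ) (alpha G) (fun d => SimpleGraph.Dart.symm_symm d)
      (gen0_face σ _ h0 d e hde) (fun x => some (π x.fst)) hβ
      (fun x y v hx hy => min_eqv _ _ _ hβ hx ?_) H (fun u v huv => ?_)
    · have hxy : π x.fst = π y.fst := Option.some.inj (hx.trans hy.symm)
      by_cases h1 : x.fst = e.fst
      · by_cases h2 : y.fst = e.fst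
        · exact hle _ _ (h1.trans h2.symm)
        · rw [h1, hπ, hπ' _ h2] at hxy
          exact ((hle _ _ h1).trans hj.symm).trans (hle _ _ hxy)
      · by_cases h2 : y.fst = e.fst
        · rw [h2, hπ, hπ' _ h1] at hxy
          exact ((hle _ _ hxy).trans hj).trans (hle _ _ h2.symm)
        · rw [hπ' _ h1, hπ' _ h2] at hxy
          exact hle _ _ hxy
    · obtain ⟨a, b, hab, rfl, rfl⟩ := hH u v huv
      exact ⟨⟨(a, b), hab⟩, rfl, rfl⟩

theorem min_edges_le (G : SimpleGraph V) : Nat.card G.edgeSet ≤ cyc (alpha G) := by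
  have hl : ∀ d : G.Dart, (alpha G d).edge = d.edge := fun d => SimpleGraph.Dart.edge_symm d
  let F : Quotient (Perm.SameCycle.setoid (alpha G)) → G.edgeSet :=
    Quotient.lift (fun d => ⟨d.edge, d.edge_mem⟩)
      (fun d e h => Subtype.ext (min_lab' (alpha G) (fun d => d.edge) hl h).symm)
  refine Nat.card_le_card_of_surjective F ?_
  rintro ⟨x, hx⟩
  induction x using Sym2.ind with
  | _ u v => exact ⟨Quotient.mk _ ⟨(u, v), hx⟩, rfl⟩

theorem min_verts_le {G : SimpleGraph V} {σ : Perm G.Dart} (hr : IsRot G σ) :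
    Nat.card V ≤ cyc σ + Nat.card {v : V // ∀ w, ¬ G.Adj v w} := by
  let F : Quotient (Perm.SameCycle.setoid σ) → V :=
    Quotient.lift (fun d => d.fst)
      (fun d e h => (min_lab' σ (fun d : G.Dart => d.fst) hr.1 h).symm)
  rw [cyc, ← Nat.card_sum]
  refine Nat.card_le_card_of_surjective (Sum.elim F Subtype.val) (fun v => ?_)
  by_cases h : ∀ w, ¬ G.Adj v w
  · exact ⟨Sum.inr ⟨v, h⟩, rfl⟩
  · push Not at h
    obtain ⟨w, hw⟩ := h
    exact ⟨Sum.inl (Quotient.mk _ ⟨(v, w), hw⟩), rfl⟩

theorem min_conn_fst {G : SimpleGraph V} {σ : Perm G.Dart} (hr : IsRot G σ) (d e : G.Dart)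
    (h : d.fst = e.fst) : (conn σ (alpha G)).r d e := by
  obtain ⟨n, rfl⟩ := (hr.2 d e h).exists_nat_pow_eq
  clear h
  induction n with
  | zero => exact Relation.EqvGen.refl _
  | succ n ih =>
    refine Relation.EqvGen.trans _ _ _ ih (Relation.EqvGen.rel _ _ (Or.inl ?_))
    rw [pow_succ']; rfl

theorem min_conn_walk {G : SimpleGraph V} {σ : Perm G.Dart} (hr : IsRot G σ) {u v : V}
    (p : G.Walk u v) : ∀ d e : G.Dart, d.fst = u → e.fst = v → (conn σ (alpha G)).r d e := by
  induction p with
  | nil => exact fun d e hd he => min_conn_fst hr d e (hd.trans he.symm)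
  | @cons x y z hxy p ih =>
    intro d e hd he
    have h1 := min_conn_fst hr d ⟨(x, y), hxy⟩ hd
    have h2 : (conn σ (alpha G)).r ⟨(x, y), hxy⟩ (alpha G ⟨(x, y), hxy⟩) :=
      Relation.EqvGen.rel _ _ (Or.inr rfl)
    exact Relation.EqvGen.trans _ _ _ h1 (Relation.EqvGen.trans _ _ _ h2 (ih _ e rfl he))

theorem min_comp_le {G : SimpleGraph V} {σ : Perm G.Dart} (hr : IsRot G σ) :
    comp σ (alpha G) + Nat.card {v : V // ∀ w, ¬ G.Adj v w} ≤ Nat.card G.ConnectedComponent := by
  have hF : ∀ d e : G.Dart, (conn σ (alpha G)).r d e →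
      G.connectedComponentMk d.fst = G.connectedComponentMk e.fst := by
    intro d e h
    induction h with
    | rel p q hpq =>
      rcases hpq with rfl | rfl
      · rw [hr.1]
      · exact SimpleGraph.ConnectedComponent.connectedComponentMk_eq_of_adj p.adj
    | refl p => rfl
    | symm p q _ h => exact h.symm
    | trans p q r _ _ h1 h2 => exact h1.trans h2
  have hiso : ∀ v w : V, (∀ x, ¬ G.Adj v x) →
      G.connectedComponentMk v = G.connectedComponentMk w → v = w := by
    intro v w hv h
    obtain ⟨p⟩ := SimpleGraph.ConnectedComponent.exact h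
    cases p with
    | nil => rfl
    | cons h' _ => exact absurd h' (hv _)
  let F : Quotient (conn σ (alpha G)) → G.ConnectedComponent :=
    Quotient.lift (fun d => G.connectedComponentMk d.fst) hF
  rw [comp, ← Nat.card_sum]
  refine Nat.card_le_card_of_injective
    (Sum.elim F (fun v => G.connectedComponentMk v.1)) ?_
  rintro (x | x) (y | y) h
  · induction x using Quotient.ind with
    | _ d =>
      induction y using Quotient.ind with
      | _ e =>
        obtain ⟨p⟩ := SimpleGraph.ConnectedComponent.exact h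
        exact congrArg Sum.inl (Quotient.sound (min_conn_walk hr p d e rfl rfl))
  · induction x using Quotient.ind with
    | _ d =>
      have := hiso y.1 d.fst y.2 h.symm
      exact absurd (this ▸ d.adj) (y.2 d.snd)
  · induction y using Quotient.ind with
    | _ d =>
      have := hiso x.1 d.fst x.2 h
      exact absurd (this ▸ d.adj) (x.2 d.snd)
  · exact congrArg Sum.inr (Subtype.ext (hiso x.1 y.1 x.2 h))

theorem min_card_dart (G : SimpleGraph V) : Nat.card G.Dart = 2 * Nat.card G.edgeSet := by
  classical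
  rw [Nat.card_eq_fintype_card, G.dart_card_eq_twice_card_edges, Nat.card_eq_fintype_card,
    SimpleGraph.edgeFinset_card]

theorem pl_of_isPlanar {G : SimpleGraph V} (h : IsPlanar G) : Pl G := by
  obtain ⟨σ, hr, h⟩ := h
  refine ⟨σ, hr, ?_⟩
  have h1 := min_edges_le G
  have h2 := min_verts_le hr
  have h3 := min_comp_le hr
  have h4 := min_card_dart G
  unfold Gen0
  omega

end Pool.Agent.Lib.MP_bfaad3_co
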