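import Pool.Agent.Lib.MP_bfaad3_co.Perm

set_option autoImplicit false

namespace Pool.Agent.Lib.MP_bfaad3_co

open Equiv

section aux

variable {D : Type*} [Finite D]

omit [Finite D] in
lemma jor_cyc_le {ι : Type*} [Finite ι] (a : Perm D) (f : ι → D)
    (h : ∀ d, ∃ i, a.SameCycle (f i) d) : cyc a ≤ Nat.card ι := by
  refine Nat.card_le_card_of_surjective
    (fun i => Quotient.mk (Perm.SameCycle.setoid a) (f i)) fun q => ?_
  obtain ⟨d, rfl⟩ := Quotient.exists_rep q
  obtain ⟨i, hi⟩ := h d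
  exact ⟨i, Quotient.sound hi⟩

lemma jor_le_cyc {ι : Type*} (a : Perm D) (f : ι → D)
    (h : ∀ i j, a.SameCycle (f i) (f j) → i = j) : Nat.card ι ≤ cyc a :=
  Nat.card_le_card_of_injective (fun i => Quotient.mk (Perm.SameCycle.setoid a) (f i))
    fun i j e => h i j (Quotient.exact e)

lemma jor_card_le {r s : Setoid D} (h : ∀ x y, r x y → s x y) :
    Nat.card (Quotient s) ≤ Nat.card (Quotient r) := by
  refine Nat.card_le_card_of_surjective (Quotient.map (sa := r) (sb := s) id h) fun q => ?_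
  obtain ⟨d, rfl⟩ := Quotient.exists_rep q
  exact ⟨Quotient.mk r d, rfl⟩

/-- walking along a cycle from `a` to `b` -/
lemma jor_walk (σ : Perm D) (P : D → Prop) {a b : D} (hab : σ.SameCycle a b) (hne : a ≠ b)
    (h1 : P (σ a)) (h2 : ∀ y, σ.SameCycle a y → y ≠ a → y ≠ b → P y → P (σ y)) : P b := by
  classical
  have hex : ∃ m : ℕ, (σ ^ m) a = b := let ⟨m, _, hm⟩ := hab.exists_pow_eq'; ⟨m, hm⟩
  have hm := Nat.find_spec hex
  have h0 : Nat.find hex ≠ 0 := fun h => by rw [h] at hm; exact hne hm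
  have key : ∀ t, t < Nat.find hex → P ((σ ^ (t + 1)) a) := by
    intro t
    induction t with
    | zero => intro _; simpa using h1
    | succ t ih =>
      intro ht
      rw [pow_succ', Perm.mul_apply]
      refine h2 _ ⟨((t + 1 : ℕ) : ℤ), by rw [zpow_natCast]⟩ (fun e => ?_) (Nat.find_min hex ht)
        (ih (by omega))
      refine Nat.find_min hex (m := Nat.find hex - (t + 1)) (by omega) ?_
      refine (congrArg _ e.symm).trans ?_
      rw [← Perm.mul_apply, ← pow_add, Nat.sub_add_cancel ht.le, hm]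
  have := key (Nat.find hex - 1) (by omega)
  rwa [Nat.sub_add_cancel (by omega), hm] at this

omit [Finite D] in
lemma jor_restr_mem {a : Perm D} {ha : ∀ d, a (a d) = d} {I : Set D} {hI : ∀ d, d ∈ I ↔ a d ∈ I}
    {d : D} (h : d ∈ I) : restr a ha I hI d = a d := if_pos h

omit [Finite D] in
lemma jor_restr_not {a : Perm D} {ha : ∀ d, a (a d) = d} {I : Set D} {hI : ∀ d, d ∈ I ↔ a d ∈ I}
    {d : D} (h : d ∉ I) : restr a ha I hI d = d := if_neg h

end aux

section walks

variable {V : Type*} {G : SimpleGraph V} {σ : Perm G.Dart} {c : ℕ → G.Dart} {n : ℕ}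

lemma jor_tri (ht : G.CliqueFree 3) (h1 : ∀ i, (c i).snd = (c (i + 1)).fst) (i : ℕ) :
    (c i).fst ≠ (c (i + 3)).fst := by
  classical
  intro h
  refine ht {(c i).fst, (c (i + 1)).fst, (c (i + 2)).fst}
    (SimpleGraph.is3Clique_triple_iff.2 ⟨?_, ?_, ?_⟩)
  · rw [← h1]; exact (c i).adj
  · rw [h, ← h1 (i + 2)]; exact (c (i + 2)).adj.symm
  · rw [← h1 (i + 1)]; exact (c (i + 1)).adj

lemma jor_short (ht : G.CliqueFree 3) (hc : CW c n) {i m : ℕ} (hm : 0 < m)
    (h : (c i).fst = (c (i + m)).fst) : 4 ≤ m := by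
  by_contra h4
  obtain rfl | rfl | rfl : m = 1 ∨ m = 2 ∨ m = 3 := by omega
  · exact (c i).adj.ne (h.trans (hc.chain i).symm)
  · exact hc.nb i (SimpleGraph.Dart.ext _ _
      (Prod.ext (hc.chain i).symm ((hc.chain (i + 1)).trans h.symm)))
  · exact jor_tri ht hc.chain i h

lemma jor_eq (hc : CW c n) {i j : ℕ} (h : i ≡ j [MOD n]) : c i = c j := by
  have hp : Function.Periodic c n := hc.per
  rw [← hp.map_mod_nat i, ← hp.map_mod_nat j, h]

lemma jor_mod (hn : 0 < n) (hc : CW c n)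
    (hinj : ∀ i j, i < n → j < n → (c i).fst = (c j).fst → i = j) {i j : ℕ}
    (h : (c i).fst = (c j).fst) : i ≡ j [MOD n] :=
  hinj _ _ (Nat.mod_lt _ hn) (Nat.mod_lt _ hn)
    (by rw [jor_eq hc (Nat.mod_modEq i n), jor_eq hc (Nat.mod_modEq j n), h])

lemma jor_pow_fst (hr : IsRot G σ) (d : G.Dart) (t : ℕ) : ((σ ^ t) d).fst = d.fst := by
  induction t with
  | zero => rfl
  | succ t ih => rw [pow_succ', Perm.mul_apply, hr.1, ih]

lemma jor_phi (d : G.Dart) : phi σ d = σ d.symm := rfl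

lemma jor_phi' (d : G.Dart) : phi σ d.symm = σ d := rfl

end walks

variable {V : Type*} [Fintype V] {G : SimpleGraph V} {σ : Perm G.Dart}

omit [Fintype V] in
theorem CW.four_le (ht : G.CliqueFree 3) {c : ℕ → G.Dart} {n : ℕ} (hc : CW c n) (hn : 0 < n) :
    4 ≤ n := jor_short ht hc (i := 0) hn (by rw [hc.per])

omit [Fintype V] in
theorem CW.inj (ht : G.CliqueFree 3) {c : ℕ → G.Dart} {n : ℕ} (hc : CW c n) (hn : n ≤ 6)
    {i j : ℕ} (hi : i < n) (hj : j < n) (h : (c i).fst = (c j).fst) : i = j := by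
  have key : ∀ i j, i < j → j < n → (c i).fst ≠ (c j).fst := by
    intro i j hij hj h
    have h1 := jor_short ht hc (i := i) (m := j - i) (by omega)
      (by rw [Nat.add_sub_cancel' hij.le, h])
    have h2 := jor_short ht hc (i := j) (m := i + n - j) (by omega)
      (by rw [Nat.add_sub_cancel' (by omega), hc.per, h])
    omega
  rcases lt_trichotomy i j with h1 | h1 | h1
  · exact absurd h (key i j h1 hj)
  · exact h1
  · exact absurd h.symm (key j i h1 hi)

omit [Fintype V] in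
theorem cw_five (ht : G.CliqueFree 3) {c : ℕ → G.Dart}
    (h1 : ∀ i, (c i).snd = (c (i + 1)).fst) (h2 : ∀ i, c (i + 5) = c i) : CW c 5 := by
  refine ⟨h1, h2, fun i h => jor_tri ht h1 (i + 2) ?_⟩
  rw [← h1 (i + 1), h, show i + 2 + 3 = i + 5 from rfl, h2]
  rfl

theorem jordan (hr : IsRot G σ) (h0 : Gen0 σ (alpha G)) {c : ℕ → G.Dart} {n : ℕ} (hn : 0 < n)
    (hc : CW c n) (hinj : ∀ i j, i < n → j < n → (c i).fst = (c j).fst → i = j) :
    ∃ S : Set G.Dart, FInv σ S ∧ ∀ d, (d ∈ S ∧ d.symm ∉ S) ↔ ∃ i, d = c i := by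
  classical
  have hα : ∀ d, alpha G (alpha G d) = d := fun _ => rfl
  let I : Set G.Dart := {d | ∃ i, d = c i ∨ d = (c i).symm}
  have hI0 : ∀ d, d ∈ I → d.symm ∈ I := by
    rintro _ ⟨i, rfl | rfl⟩
    · exact ⟨i, Or.inr rfl⟩
    · exact ⟨i, Or.inl rfl⟩
  have hI : ∀ d, d ∈ I ↔ alpha G d ∈ I := fun d => ⟨hI0 d, hI0 d.symm⟩
  have hI' : ∀ d, d ∈ Iᶜ ↔ alpha G d ∈ Iᶜ := fun d => not_congr (hI d)
  let s := σ * restr (alpha G) hα I hI
  let a := restr (alpha G) hα Iᶜ hI'
  have s1 : ∀ d, d ∈ I → s d = σ d.symm := fun d h => congrArg σ (jor_restr_mem h)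
  have s2 : ∀ d, d ∉ I → s d = σ d := fun d h => congrArg σ (jor_restr_not h)
  have a1 : ∀ d, d ∈ I → a d = d := fun d h => jor_restr_not (not_not.2 h)
  have a2 : ∀ d, d ∉ I → a d = d.symm := fun d h => jor_restr_mem h
  have sa : s * a = σ * alpha G := by
    ext1 d
    by_cases h : d ∈ I
    · rw [Perm.mul_apply, a1 d h, s1 d h]; rfl
    · rw [Perm.mul_apply, a2 d h, s2 d.symm (mt (hI d).2 h)]; rfl
  have hcs : ∀ i j, c i ≠ (c j).symm := fun i j h =>
    hc.nb j ((jor_eq hc (jor_mod hn hc hinj (by rw [h, ← hc.chain]; rfl))).trans h)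
  -- the edge count
  have cA : cyc (alpha G) + n ≤ cyc a := by
    have p1 : ∀ d, alpha G d ∈ I ↔ d ∈ I := fun d => (hI d).symm
    have p2 : ∀ d, a d ∈ I ↔ d ∈ I := fun d => by
      by_cases h : d ∈ I
      · rw [a1 d h]
      · rw [a2 d h]; exact p1 d
    rw [cyc_add (alpha G) (· ∈ I) p1, cyc_add a (· ∈ I) p2]
    have e1 : a.subtypePerm (p := fun d => ¬ d ∈ I) (fun d => not_congr (p2 d)) =
        (alpha G).subtypePerm (p := fun d => ¬ d ∈ I) fun d => not_congr (p1 d) :=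
      Equiv.ext fun d => Subtype.ext (a2 d.1 d.2)
    have e2 : a.subtypePerm (p := (· ∈ I)) p2 = 1 := Equiv.ext fun d => Subtype.ext (a1 d.1 d.2)
    have e3 := jor_cyc_le ((alpha G).subtypePerm (p := (· ∈ I)) p1)
      (fun i : Fin n => ⟨c i, i, Or.inl rfl⟩) (by
        rintro ⟨_, i, rfl | rfl⟩
        · refine ⟨⟨i % n, Nat.mod_lt _ hn⟩, Perm.sameCycle_subtypePerm.2 ?_⟩
          exact (jor_eq hc (Nat.mod_modEq i n)).sameCycle _
        · refine ⟨⟨i % n, Nat.mod_lt _ hn⟩, Perm.sameCycle_subtypePerm.2 ?_⟩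
          exact ((jor_eq hc (Nat.mod_modEq i n)).sameCycle _).apply_right)
    have e4 := jor_le_cyc (1 : Perm {d // d ∈ I})
      (Sum.elim (fun i : Fin n => ⟨c i, i, Or.inl rfl⟩) fun i : Fin n => ⟨(c i).symm, i, Or.inr rfl⟩)
      (by
        rintro (i | i) (j | j) h <;> replace h := congrArg Subtype.val (Perm.sameCycle_one.1 h)
        · exact congrArg _ (Fin.ext (hinj _ _ i.2 j.2 (congrArg (·.fst) h)))
        · exact absurd h (hcs _ _)
        · exact absurd h.symm (hcs _ _)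
        · exact congrArg _ (Fin.ext (hinj _ _ i.2 j.2 (congrArg (·.snd) h))))
    rw [e1, e2]
    simp only [Nat.card_eq_fintype_card, Fintype.card_fin, Fintype.card_sum] at e3 e4
    omega
  -- the vertex count
  have cS : cyc σ + 1 ≤ cyc s + n := by
    have p1 : ∀ d, (∃ i, (σ d).fst = (c i).fst) ↔ ∃ i, d.fst = (c i).fst := fun d => by rw [hr.1]
    have p0 : ∀ d, d ∈ I → ∃ i, d.fst = (c i).fst := by
      rintro _ ⟨i, rfl | rfl⟩
      · exact ⟨i, rfl⟩
      · exact ⟨i + 1, hc.chain i⟩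
    have p2 : ∀ d, (∃ i, (s d).fst = (c i).fst) ↔ ∃ i, d.fst = (c i).fst := fun d => by
      by_cases h : d ∈ I
      · rw [s1 d h, p1]; exact iff_of_true (p0 _ (hI0 d h)) (p0 d h)
      · rw [s2 d h, p1]
    rw [cyc_add σ (fun d => ∃ i, d.fst = (c i).fst) p1,
      cyc_add s (fun d => ∃ i, d.fst = (c i).fst) p2]
    have e1 : s.subtypePerm (p := fun d => ¬ ∃ i, d.fst = (c i).fst) (fun d => not_congr (p2 d)) =
        σ.subtypePerm (p := fun d => ¬ ∃ i, d.fst = (c i).fst) fun d => not_congr (p1 d) :=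
      Equiv.ext fun d => Subtype.ext (s2 d.1 (mt (p0 d.1) d.2))
    have e3 := jor_cyc_le (σ.subtypePerm (p := fun d => ∃ i, d.fst = (c i).fst) p1)
      (fun i : Fin n => ⟨c i, i, rfl⟩) (by
        rintro ⟨d, i, h⟩
        refine ⟨⟨i % n, Nat.mod_lt _ hn⟩, Perm.sameCycle_subtypePerm.2 (hr.2 _ _ ?_)⟩
        exact (congrArg (·.fst) (jor_eq hc (Nat.mod_modEq i n))).trans h.symm)
    have e4 := jor_le_cyc (s.subtypePerm (p := fun d => ∃ i, d.fst = (c i).fst) p2)
      (fun _ : Unit => ⟨c 0, 0, rfl⟩) fun _ _ _ => rfl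
    rw [e1]
    simp only [Nat.card_eq_fintype_card, Fintype.card_fin, Fintype.card_unique] at e3 e4
    omega
  have hlt : comp σ (alpha G) < comp s a := by
    have h1 := euler_le s a
    rw [sa] at h1
    unfold Gen0 at h0
    omega
  let r := conn s a
  have rs : ∀ d, r d (s d) := fun d => Relation.EqvGen.rel _ _ (Or.inl rfl)
  have ra : ∀ d, r d (a d) := fun d => Relation.EqvGen.rel _ _ (Or.inr rfl)
  have step : ∀ i x y, y.fst = (c (i + 1)).fst → y ≠ c (i + 1) → y ≠ (c i).symm → r x y →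
      r x (σ y) := by
    intro i x y h1 h2 h3 h4
    rw [← s2 y]
    · exact r.trans h4 (rs y)
    · rintro ⟨j, rfl | rfl⟩
      · exact h2 (jor_eq hc (jor_mod hn hc hinj h1))
      · exact h3 (congrArg _ (jor_eq hc (Nat.ModEq.add_right_cancel' 1
          (jor_mod hn hc hinj ((hc.chain j).symm.trans h1)))))
  have fs : ∀ {x y : G.Dart}, σ.SameCycle x y → y.fst = x.fst := fun h => by
    obtain ⟨m, -, rfl⟩ := h.exists_pow_eq'
    exact jor_pow_fst hr _ m
  have r1 : ∀ i, r (c 0) (c i) := by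
    intro i
    induction i with
    | zero => exact r.refl _
    | succ i ih =>
      refine jor_walk σ (r (c 0)) (hr.2 (c i).symm _ (hc.chain i)) (hc.nb i).symm ?_
        fun y h1 h2 h3 => step i _ y ((fs h1).trans (hc.chain i)) h3 h2
      rw [← s1 _ ⟨i, Or.inl rfl⟩]
      exact r.trans ih (rs _)
  have r2 : ∀ i, r (c 0).symm (c i).symm := by
    intro i
    induction i with
    | zero => exact r.refl _
    | succ i ih =>
      refine r.trans ih (r.symm ?_)
      refine jor_walk σ (r (c (i + 1)).symm) (hr.2 _ (c i).symm (hc.chain i).symm) (hc.nb i) ?_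
        fun y h1 h2 h3 => step i _ y (fs h1) h2 h3
      have := rs (c (i + 1)).symm
      rwa [s1 _ ⟨i + 1, Or.inr rfl⟩] at this
  have hsep : ¬ r (c 0) (c 0).symm := by
    intro h
    have hall : ∀ d, d ∈ I → r (c 0) d := by
      rintro _ ⟨i, rfl | rfl⟩
      · exact r1 i
      · exact r.trans h (r2 i)
    have hsy : ∀ d, r d d.symm := fun d => by
      by_cases hd : d ∈ I
      · exact r.trans (r.symm (hall d hd)) (hall _ (hI0 d hd))
      · rw [← a2 d hd]; exact ra d
    refine absurd (jor_card_le (r := conn σ (alpha G)) (s := r) fun x y hxy => ?_) (not_le.2 hlt)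
    induction hxy with
    | rel x y h =>
      rcases h with rfl | rfl
      · by_cases hd : x ∈ I
        · have := rs x.symm
          rw [s1 _ (hI0 x hd)] at this
          exact r.trans (hsy x) this
        · rw [← s2 x hd]; exact rs x
      · exact hsy x
    | refl x => exact r.refl x
    | symm x y _ ih => exact r.symm ih
    | trans x y z _ _ ih ih' => exact r.trans ih ih'
  refine ⟨{d | r (c 0) d}, fun d => ?_, fun d => ⟨fun ⟨h1, h2⟩ => ?_, ?_⟩⟩
  · have h1 : r d (phi σ d) := by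
      rw [phi, ← sa]; exact r.trans (ra d) (rs _)
    exact ⟨fun h => r.trans h h1, fun h => r.trans h (r.symm h1)⟩
  · by_cases hd : d ∈ I
    · obtain ⟨i, rfl | rfl⟩ := hd
      · exact ⟨i, rfl⟩
      · exact absurd (r1 i) h2
    · exact absurd (r.trans h1 (a2 d hd ▸ ra d)) h2
  · rintro ⟨i, rfl⟩
    exact ⟨r1 i, fun h => hsep (r.trans h (r.symm (r2 i)))⟩

omit [Fintype V] in
theorem jordan_arc {c : ℕ → G.Dart} {n : ℕ} (hr : IsRot G σ) (hn : 0 < n) (hc : CW c n)
    (hinj : ∀ i j, i < n → j < n → (c i).fst = (c j).fst → i = j) {S : Set G.Dart}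
    (hS : FInv σ S) (hb : ∀ d, (d ∈ S ∧ d.symm ∉ S) ↔ ∃ i, d = c i) (i : ℕ) (e : G.Dart) :
    (Arc σ (c i).symm (c (i + 1)) e → e ∈ S) ∧ (Arc σ (c (i + 1)) (c i).symm e → e ∉ S) := by
  constructor
  · rintro ⟨m, hm, rfl, h⟩
    induction m, hm using Nat.le_induction with
    | base => exact (hS _).1 ((hb _).2 ⟨i, rfl⟩).1
    | succ m hm ih =>
      have h1 := ih fun t h1 h2 => h t h1 (by omega)
      rw [pow_succ', Perm.mul_apply, ← jor_phi']
      refine (hS _).1 (by_contra fun h2 => ?_)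
      obtain ⟨j, hj⟩ := (hb _).1 ⟨h1, h2⟩
      refine h m hm (by omega) (hj.trans (jor_eq hc (jor_mod hn hc hinj ?_)))
      rw [← hj, jor_pow_fst hr]
      exact hc.chain i
  · rintro ⟨m, hm, rfl, h⟩
    induction m, hm using Nat.le_induction with
    | base => exact mt (hS (c (i + 1)).symm).2 ((hb _).2 ⟨i + 1, rfl⟩).2
    | succ m hm ih =>
      have h1 := ih fun t h1 h2 => h t h1 (by omega)
      rw [pow_succ', Perm.mul_apply, ← jor_phi']
      refine mt (hS _).2 fun h2 => ?_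
      obtain ⟨j, hj⟩ := (hb _).1 ⟨h2, h1⟩
      have h3 : (σ ^ m) (c (i + 1)) = (c j).symm := congrArg SimpleGraph.Dart.symm hj
      refine h m hm (by omega) (h3.trans (congrArg _ (jor_eq hc
        (Nat.ModEq.add_right_cancel' 1 (jor_mod hn hc hinj ?_)))))
      rw [← hc.chain j, ← jor_pow_fst hr (c (i + 1)) m, h3]
      rfl

end Pool.Agent.Lib.MP_bfaad3_co
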