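import Pool.Agent.Lib.MP_bfaad3_co.Minor
import Pool.Agent.Lib.MP_bfaad3_co.Jordan

set_option autoImplicit false

namespace Pool.Agent.Lib.MP_bfaad3_co

open Equiv

section orbit

variable {D : Type*}

theorem bas_pos [Finite D] (p : Perm D) (d : D) : 0 < Function.minimalPeriod p d :=
  Function.minimalPeriod_pos_of_mem_periodicPts (p.injective.mem_periodicPts d)

theorem bas_mod (p : Perm D) (d : D) (i : ℕ) :
    (p ^ (i % Function.minimalPeriod p d)) d = (p ^ i) d := by
  rw [Perm.coe_pow, Perm.coe_pow]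
  exact Function.iterate_mod_minimalPeriod_eq

theorem bas_per (p : Perm D) (d : D) (i : ℕ) :
    (p ^ (i + Function.minimalPeriod p d)) d = (p ^ i) d := by
  rw [Perm.coe_pow, Perm.coe_pow]
  exact Function.iterate_add_minimalPeriod_eq

theorem bas_inj (p : Perm D) (d : D) {i j : ℕ} (hi : i < Function.minimalPeriod p d)
    (hj : j < Function.minimalPeriod p d) (h : (p ^ i) d = (p ^ j) d) : i = j := by
  rw [Perm.coe_pow, Perm.coe_pow] at h
  exact Function.iterate_injOn_Iio_minimalPeriod hi hj h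

theorem bas_succ (p : Perm D) (d : D) (i : ℕ) : (p ^ (i + 1)) d = p ((p ^ i) d) := by
  rw [pow_succ', Perm.mul_apply]

theorem bas_exists [Finite D] (p : Perm D) {d e : D} (h : p.SameCycle d e) :
    ∃ i, i < Function.minimalPeriod p d ∧ (p ^ i) d = e := by
  obtain ⟨i, -, hi⟩ := h.exists_pow_eq'
  exact ⟨_, Nat.mod_lt i (bas_pos p d), by rw [bas_mod, hi]⟩

theorem bas_orbit_ncard (p : Perm D) [Finite D] (d : D) :
    {e | ∃ i : ℕ, e = (p ^ i) d}.ncard = Function.minimalPeriod p d := by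
  have h1 : {e | ∃ i : ℕ, e = (p ^ i) d} =
      (fun i : ℕ => (p ^ i) d) '' (Finset.range (Function.minimalPeriod p d) : Set ℕ) := by
    ext e
    constructor
    · rintro ⟨i, rfl⟩
      exact ⟨_, by simpa using Nat.mod_lt i (bas_pos p d), bas_mod p d i⟩
    · rintro ⟨i, -, rfl⟩
      exact ⟨i, rfl⟩
  rw [h1, Set.InjOn.ncard_image, Set.ncard_coe_finset, Finset.card_range]
  intro i hi j hj h
  exact bas_inj p d (by simpa using hi) (by simpa using hj) h

end orbit

variable {V : Type*} [Fintype V]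
variable {G : SimpleGraph V} {L : V → Finset ℕ} {σ : Perm G.Dart} {A : Set G.Dart}

omit [Fintype V] in
theorem bas_phi (σ : Perm G.Dart) (d : G.Dart) : phi σ d = σ d.symm := rfl

omit [Fintype V] in
theorem bas_phi_fst (hr : IsRot G σ) (d : G.Dart) : (phi σ d).fst = d.snd := by
  rw [bas_phi, hr.1]; rfl

omit [Fintype V] in
theorem bas_pow_fst (hr : IsRot G σ) (d : G.Dart) (i : ℕ) : ((σ ^ i) d).fst = d.fst := by
  induction i with
  | zero => rfl
  | succ i ih => rw [bas_succ, hr.1, ih]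

omit [Fintype V] in
theorem bas_finv_pow {B : Set G.Dart} (hB : FInv σ B) (d : G.Dart) (i : ℕ) :
    d ∈ B ↔ (phi σ ^ i) d ∈ B := by
  induction i with
  | zero => rfl
  | succ i ih => rw [bas_succ, ← hB, ih]

theorem bas_nbr (hr : IsRot G σ) (d : G.Dart) {w : V} (h : G.Adj d.fst w) :
    ∃ i, i < Function.minimalPeriod σ d ∧ ((σ ^ i) d).snd = w := by
  classical
  obtain ⟨i, hi, he⟩ := bas_exists σ (hr.2 d ⟨(d.fst, w), h⟩ rfl)
  exact ⟨i, hi, by rw [he]⟩

theorem period_eq_dg (hr : IsRot G σ) (d : G.Dart) :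
    Function.minimalPeriod σ d = dg G d.fst := by
  have h1 : G.neighborSet d.fst = (fun i : ℕ => ((σ ^ i) d).snd) ''
      (Finset.range (Function.minimalPeriod σ d) : Set ℕ) := by
    ext w
    constructor
    · intro hw
      obtain ⟨i, hi, he⟩ := bas_nbr hr d hw
      exact ⟨i, by simpa using hi, he⟩
    · rintro ⟨i, -, rfl⟩
      have := ((σ ^ i) d).adj
      rwa [bas_pow_fst hr] at this
  unfold dg
  rw [h1, Set.InjOn.ncard_image, Set.ncard_coe_finset, Finset.card_range]
  intro i hi j hj h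
  refine bas_inj σ d (by simpa using hi) (by simpa using hj) ?_
  exact SimpleGraph.Dart.ext _ _ (Prod.ext (by rw [bas_pow_fst hr, bas_pow_fst hr]) h)

theorem nbr_eq_pow (hr : IsRot G σ) (d : G.Dart) {w : V} (h : G.Adj d.fst w) :
    ∃ i, i < dg G d.fst ∧ ((σ ^ i) d).snd = w := by
  rw [← period_eq_dg hr]
  exact bas_nbr hr d h

omit [Fintype V] in
/-- the subgraph of the edges with both ends in a set -/
def basSub (G : SimpleGraph V) (P : V → Prop) : SimpleGraph V where
  Adj a b := G.Adj a b ∧ P a ∧ P b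
  symm := ⟨fun _ _ h => ⟨h.1.symm, h.2.2, h.2.1⟩⟩
  loopless := ⟨fun a h => G.loopless.1 a h.1⟩

theorem MinCE.bas_sub (h : MinCE G L σ) (P : V → Prop) (d : G.Dart) (hd : ¬ P d.fst) :
    Col (basSub G P) L := by
  have hle : basSub G P ≤ G := fun _ _ hab => hab.1
  refine h.min1 _ L (pl_mono ⟨σ, h.rot, h.gen⟩ hle) (h.tri.anti hle)
    ⟨h.cls.1, fun u v huv => h.cls.2 u v huv.1⟩ (Set.ncard_lt_ncard ⟨?_, fun hs => ?_⟩)
  · exact SimpleGraph.support_mono hle
  · obtain ⟨w, hw⟩ := hs (show d.fst ∈ G.support from ⟨d.snd, d.adj⟩)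
    exact hd hw.2.1

theorem MinCE.card_le_dg (h : MinCE G L σ) (d : G.Dart) : (L d.fst).card ≤ dg G d.fst := by
  classical
  by_contra hlt
  push Not at hlt
  obtain ⟨c, hc1, hc2⟩ := h.bas_sub (fun v => v ≠ d.fst) d (by simp)
  have h1 : ((G.neighborFinset d.fst).image c).card < (L d.fst).card := by
    refine lt_of_le_of_lt Finset.card_image_le (lt_of_le_of_lt (le_of_eq ?_) hlt)
    unfold dg
    rw [← Set.ncard_coe_finset, SimpleGraph.coe_neighborFinset]
  obtain ⟨x, hx1, hx2⟩ := Finset.exists_mem_notMem_of_card_lt_card h1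
  have hx3 : ∀ w, G.Adj d.fst w → x ≠ c w := fun w hw hx =>
    hx2 (Finset.mem_image.2 ⟨w, (G.mem_neighborFinset _ _).2 hw, hx.symm⟩)
  refine h.ncol ⟨Function.update c d.fst x, fun v => ?_, fun u v huv => ?_⟩
  · by_cases hv : v = d.fst
    · subst hv; simpa using hx1
    · rw [Function.update_of_ne hv]; exact hc1 v
  · by_cases hu : u = d.fst
    · subst hu
      rw [Function.update_self, Function.update_of_ne huv.ne']
      exact hx3 v huv
    · by_cases hv : v = d.fst
      · subst hv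
        rw [Function.update_self, Function.update_of_ne hu]
        exact (hx3 u huv.symm).symm
      · rw [Function.update_of_ne hu, Function.update_of_ne hv]
        exact hc2 u v ⟨huv, hu, hv⟩

theorem MinCE.nonempty (h : MinCE G L σ) : Nonempty G.Dart := by
  by_contra hne
  have h1 : ∀ v, ∃ x, x ∈ L v := fun v =>
    Finset.card_pos.1 (lt_of_lt_of_le (by norm_num) (h.cls.1 v))
  choose c hc using h1
  exact h.ncol ⟨c, hc, fun u v huv => absurd ⟨⟨(u, v), huv⟩⟩ hne⟩

theorem MinCE.bas_three (h : MinCE G L σ) (d : G.Dart) : 3 ≤ dg G d.fst :=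
  (h.cls.1 _).trans (h.card_le_dg d)

theorem MinCE.bas_ne (h : MinCE G L σ) (d : G.Dart) : σ d ≠ d := by
  intro hd
  have h1 := h.bas_three d
  rw [← period_eq_dg h.rot, Function.minimalPeriod_eq_one_iff_isFixedPt.2 hd] at h1
  omega

theorem MinCE.bas_cw (h : MinCE G L σ) (d : G.Dart) :
    CW (fun i => (phi σ ^ i) d) (flen σ d) where
  chain i := by rw [bas_succ, bas_phi_fst h.rot]
  per i := bas_per _ d i
  nb i := by
    rw [bas_succ, bas_phi]
    exact h.bas_ne _

theorem bas_flen_pos (σ : Perm G.Dart) (d : G.Dart) : 0 < flen σ d := by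
  classical
  exact bas_pos _ d

theorem MinCE.four_le_flen (h : MinCE G L σ) (d : G.Dart) : 4 ≤ flen σ d :=
  (h.bas_cw d).four_le h.tri (bas_flen_pos σ d)

theorem MinCE.face_inj (h : MinCE G L σ) {d : G.Dart} (h7 : flen σ d ≤ 6) {i j : ℕ}
    (hij : ((phi σ ^ i) d).fst = ((phi σ ^ j) d).fst) : (phi σ ^ i) d = (phi σ ^ j) d := by
  have hp := bas_flen_pos σ d
  rw [← bas_mod _ d i, ← bas_mod _ d j] at hij ⊢
  have := (h.bas_cw d).inj h.tri h7 (Nat.mod_lt i hp) (Nat.mod_lt j hp) hij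
  unfold flen at this
  rw [this]

theorem MinCE.bd_zero (h : MinCE G L σ) {B : Set G.Dart} (hB : FInv σ B) (h0 : bd B = 0) :
    B = ∅ ∨ B = Set.univ := by
  classical
  have h1 : ∀ d ∈ B, d.symm ∈ B := by
    intro d hd
    by_contra hs
    unfold bd at h0
    rw [Set.ncard_eq_zero] at h0
    exact (Set.eq_empty_iff_forall_notMem.1 h0) d ⟨hd, hs⟩
  have h2 : ∀ d ∈ B, ∀ i : ℕ, (σ ^ i) d ∈ B := by
    intro d hd i
    induction i with
    | zero => exact hd
    | succ i ih =>
      rw [bas_succ]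
      have := (hB _).1 (h1 _ ih)
      rwa [bas_phi, SimpleGraph.Dart.symm_symm] at this
  have h3 : ∀ d ∈ B, ∀ e : G.Dart, d.fst = e.fst → e ∈ B := by
    intro d hd e he
    obtain ⟨i, -, rfl⟩ := bas_exists σ (h.rot.2 d e he)
    exact h2 d hd i
  have h4 : ∀ u v, G.Adj u v → (∃ d ∈ B, d.fst = u) → ∃ d ∈ B, d.fst = v := by
    rintro u v huv ⟨d, hd, he⟩
    exact ⟨_, h1 _ (h3 d hd ⟨(u, v), huv⟩ he), rfl⟩
  by_contra hcon
  push Not at hcon
  obtain ⟨⟨d1, hd1⟩, hcon2⟩ := hcon
  obtain ⟨d2, hd2⟩ := (Set.ne_univ_iff_exists_notMem B).1 hcon2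
  obtain ⟨c1, hc1, hc1'⟩ := h.bas_sub (fun v => ∃ d ∈ B, d.fst = v) d2
    (fun ⟨d, hd, he⟩ => hd2 (h3 d hd d2 he))
  obtain ⟨c2, hc2, hc2'⟩ := h.bas_sub (fun v => ¬ ∃ d ∈ B, d.fst = v) d1
    (fun hn => hn ⟨d1, hd1, rfl⟩)
  refine h.ncol ⟨fun v => if ∃ d ∈ B, d.fst = v then c1 v else c2 v, fun v => ?_,
    fun u v huv => ?_⟩
  · dsimp only
    split_ifs
    exacts [hc1 v, hc2 v]
  · dsimp only
    by_cases hu : ∃ d ∈ B, d.fst = u
    · have hv := h4 u v huv hu
      rw [if_pos hu, if_pos hv]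
      exact hc1' u v ⟨huv, hu, hv⟩
    · have hv : ¬ ∃ d ∈ B, d.fst = v := fun hv => hu (h4 v u huv.symm hv)
      rw [if_neg hu, if_neg hv]
      exact hc2' u v ⟨huv, hu, hv⟩

theorem MinCE.four_le_bd (h : MinCE G L σ) {B : Set G.Dart} (hB : FInv σ B) (h1 : B.Nonempty)
    (h2 : Bᶜ.Nonempty) : 4 ≤ bd B := by
  classical
  set S : Set G.Dart := {d | d ∈ B ∧ d.symm ∉ B} with hS
  have hne : S.Nonempty := by
    rw [← Set.ncard_pos]
    by_contra h0
    rcases h.bd_zero hB (by unfold bd; rw [← hS]; omega) with h3 | h3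
    · exact h1.ne_empty h3
    · exact h2.ne_empty (by rw [h3, Set.compl_univ])
  have hnext : ∀ d : S, ∃ e : S, e.1.fst = d.1.snd := by
    rintro ⟨d, hd1, hd2⟩
    by_contra hcon
    push Not at hcon
    have h3 : ∀ m : ℕ, (σ ^ (m + 1)) d.symm ∈ B := by
      intro m
      induction m with
      | zero => exact (hB d).1 hd1
      | succ m ih =>
        have h4 : ((σ ^ (m + 1)) d.symm).symm ∈ B := by
          by_contra h5
          exact hcon ⟨_, ih, h5⟩ (bas_pow_fst h.rot _ _)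
        have := (hB _).1 h4
        rwa [bas_phi, SimpleGraph.Dart.symm_symm, ← bas_succ] at this
    have h5 := h3 (Function.minimalPeriod σ d.symm - 1)
    have h6 := bas_pos σ d.symm
    rw [Nat.sub_add_cancel h6, ← zero_add (Function.minimalPeriod σ d.symm), bas_per] at h5
    exact hd2 h5
  choose f hf using hnext
  obtain ⟨x0, hx0⟩ := hne
  have hcard : Fintype.card S = bd B := by
    unfold bd
    rw [← hS, ← Nat.card_coe_set_eq, Nat.card_eq_fintype_card]
  have key : ∀ i j : ℕ, i < j → j ≤ bd B → f^[i] ⟨x0, hx0⟩ = f^[j] ⟨x0, hx0⟩ → 4 ≤ bd B := by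
    intro i j hij hj he
    have hcw : CW (fun t => (f^[t + i] ⟨x0, hx0⟩).1) (j - i) := by
      refine ⟨fun t => ?_, fun t => ?_, fun t ht => ?_⟩
      · rw [show t + 1 + i = (t + i) + 1 by ring, Function.iterate_succ_apply', hf]
      · rw [show t + (j - i) + i = t + j by omega, Function.iterate_add_apply,
          Function.iterate_add_apply, he]
      · have e1 := (f^[t + 1 + i] ⟨x0, hx0⟩).2.1
        rw [ht] at e1
        exact (f^[t + i] ⟨x0, hx0⟩).2.2 e1
    have := hcw.four_le h.tri (by omega)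
    omega
  obtain ⟨i, j, hij, he⟩ := Fintype.exists_ne_map_eq_of_card_lt
    (fun i : Fin (bd B + 1) => f^[i] ⟨x0, hx0⟩) (by rw [hcard, Fintype.card_fin]; omega)
  have hi := i.2
  have hj := j.2
  rcases lt_or_gt_of_ne (Fin.val_ne_of_ne hij) with h3 | h3
  · exact key i j h3 (by omega) he
  · exact key j i h3 (by omega) he.symm

omit [Fintype V] in
theorem bas_orbit_sub {B : Set G.Dart} (hB : FInv σ B) {d : G.Dart} (hd : d ∈ B) :
    {e | ∃ i : ℕ, e = (phi σ ^ i) d} ⊆ B := by
  rintro e ⟨i, rfl⟩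
  exact (bas_finv_pow hB d i).1 hd

theorem bas_orbit_finv (σ : Perm G.Dart) (d : G.Dart) :
    FInv σ {e | ∃ i : ℕ, e = (phi σ ^ i) d} := by
  classical
  intro e
  constructor
  · rintro ⟨i, rfl⟩
    exact ⟨i + 1, (bas_succ _ _ _).symm⟩
  · rintro ⟨i, hi⟩
    have hp := bas_pos (phi σ) d
    refine ⟨i + (Function.minimalPeriod (phi σ) d - 1), (phi σ).injective ?_⟩
    rw [← bas_succ, add_assoc, Nat.sub_add_cancel hp, bas_per, hi]

theorem bas_flen_le {B : Set G.Dart} (hB : FInv σ B) {d : G.Dart} (hd : d ∈ B) :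
    flen σ d ≤ B.ncard := by
  classical
  unfold flen
  rw [← bas_orbit_ncard]
  exact Set.ncard_le_ncard (bas_orbit_sub hB hd)

theorem MinCE.four_le_ncard (h : MinCE G L σ) {B : Set G.Dart} (hB : FInv σ B)
    (h1 : B.Nonempty) : 4 ≤ B.ncard := by
  obtain ⟨d, hd⟩ := h1
  exact (h.four_le_flen d).trans (bas_flen_le hB hd)

theorem MinCE.flen_eq_ncard (h : MinCE G L σ) {B : Set G.Dart} (hB : FInv σ B)
    (h7 : B.ncard ≤ 7) {d : G.Dart} (hd : d ∈ B) :
    flen σ d = B.ncard ∧ ∀ e ∈ B, ∃ i, i < flen σ d ∧ e = (phi σ ^ i) d := by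
  classical
  set O : Set G.Dart := {e | ∃ i : ℕ, e = (phi σ ^ i) d} with hO
  have hOB : O ⊆ B := bas_orbit_sub hB hd
  have hOc : O.ncard = flen σ d := bas_orbit_ncard _ d
  have hBO : B ⊆ O := by
    by_contra hcon
    have h1 : (B \ O).Nonempty := Set.sdiff_nonempty.2 hcon
    have h2 : FInv σ (B \ O) := fun e => by
      rw [Set.mem_sdiff, Set.mem_sdiff, ← hB e, ← bas_orbit_finv σ d e]
    have h3 := h.four_le_ncard h2 h1
    have h4 := h.four_le_flen d
    have h5 := Set.ncard_sdiff_add_ncard_of_subset hOB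
    omega
  refine ⟨by rw [← hOc, Set.Subset.antisymm hOB hBO], fun e he => ?_⟩
  obtain ⟨i, rfl⟩ := hBO he
  exact ⟨_, Nat.mod_lt i (bas_flen_pos σ d), (bas_mod _ d i).symm⟩

open Classical in
theorem bas_ncard (p : G.Dart → Prop) :
    {d | p d}.ncard = ∑ d : G.Dart, if p d then 1 else 0 := by
  rw [← Finset.card_filter, ← Set.ncard_coe_finset]
  congr 1
  ext d
  simp

open Classical in
theorem bas_sym (g h : G.Dart → ℕ) (H : ∀ d, g d + g d.symm = h d + h d.symm) :
    ∑ d, g d = ∑ d, h d := by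
  have h1 : ∀ u : G.Dart → ℕ, ∑ d : G.Dart, u d.symm = ∑ d, u d := fun u =>
    Equiv.sum_comp (alpha G) u
  have h2 : ∑ d : G.Dart, (g d + g d.symm) = ∑ d : G.Dart, (h d + h d.symm) :=
    Finset.sum_congr rfl fun d _ => H d
  rw [Finset.sum_add_distrib, Finset.sum_add_distrib, h1, h1] at h2
  omega

theorem bd_compl (B : Set G.Dart) : bd Bᶜ = bd B := by
  classical
  unfold bd
  rw [bas_ncard, bas_ncard]
  refine bas_sym _ _ fun d => ?_
  by_cases h1 : d ∈ B <;> by_cases h2 : d.symm ∈ B <;> simp [h1, h2]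

theorem bd_le_ncard (B : Set G.Dart) : bd B ≤ B.ncard := by
  classical
  exact Set.ncard_le_ncard fun d hd => hd.1

theorem bd_submod (B C : Set G.Dart) :
    bd (B ∩ C) + bd (Bᶜ ∩ Cᶜ) + 2 * {d | d ∈ B \ C ∧ d.symm ∈ C \ B}.ncard = bd B + bd C := by
  classical
  unfold bd
  simp only [bas_ncard]
  rw [Finset.mul_sum, ← Finset.sum_add_distrib, ← Finset.sum_add_distrib,
    ← Finset.sum_add_distrib]
  refine bas_sym _ _ fun d => ?_
  by_cases h1 : d ∈ B <;> by_cases h2 : d.symm ∈ B <;> by_cases h3 : d ∈ C <;>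
    by_cases h4 : d.symm ∈ C <;> simp [h1, h2, h3, h4]

theorem bd_split (B C : Set G.Dart) :
    bd (B ∩ C) + bd (B ∩ Cᶜ) = bd B + 2 * {d | d ∈ B ∩ C ∧ d.symm ∈ B ∩ Cᶜ}.ncard := by
  classical
  unfold bd
  simp only [bas_ncard]
  rw [Finset.mul_sum, ← Finset.sum_add_distrib, ← Finset.sum_add_distrib]
  refine bas_sym _ _ fun d => ?_
  by_cases h1 : d ∈ B <;> by_cases h2 : d.symm ∈ B <;> by_cases h3 : d ∈ C <;>
    by_cases h4 : d.symm ∈ C <;> simp [h1, h2, h3, h4]

open Classical in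
theorem MinCE.bas_shrink (h : MinCE G L σ) (v : V) (T : Finset ℕ) (hT : T ⊆ L v)
    (hlt : T.card < (L v).card) (hC : InC G (Function.update L v T)) : False := by
  obtain ⟨c, hc1, hc2⟩ := h.min2 _ hC (by
    refine Finset.sum_lt_sum (fun u _ => ?_) ⟨v, Finset.mem_univ v, by simpa using hlt⟩
    by_cases hu : u = v
    · subst hu; simpa using hlt.le
    · rw [Function.update_of_ne hu])
  refine h.ncol ⟨c, fun u => ?_, hc2⟩
  have := hc1 u
  by_cases hu : u = v
  · subst hu
    rw [Function.update_self] at this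
    exact hT this
  · rwa [Function.update_of_ne hu] at this

theorem MinCE.min5 (h : MinCE G L σ) {v : V} (h5 : 5 ≤ (L v).card) {x : ℕ} (hx : x ∈ L v) :
    ∃ w, G.Adj v w ∧ (L w).card = 3 ∧ x ∈ L w := by
  classical
  by_contra hcon
  push Not at hcon
  have hc := Finset.card_erase_of_mem hx
  refine h.bas_shrink v ((L v).erase x) (Finset.erase_subset _ _) (by omega)
    ⟨fun u => ?_, fun u w huw h3 => ?_⟩
  · by_cases hu : u = v
    · subst hu; rw [Function.update_self]; omega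
    · rw [Function.update_of_ne hu]; exact h.cls.1 u
  · by_cases hu : u = v
    · subst hu
      rw [Function.update_self] at h3
      omega
    · rw [Function.update_of_ne hu] at h3 ⊢
      by_cases hw : w = v
      · subst hw
        rw [Function.update_self]
        exact Finset.subset_erase.2 ⟨h.cls.2 u w huw h3, hcon u huw.symm h3⟩
      · rw [Function.update_of_ne hw]
        exact h.cls.2 u w huw h3

theorem MinCE.min3 (h : MinCE G L σ) {v : V} (h4 : 4 ≤ (L v).card) {T : Finset ℕ}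
    (hT : T.card = 3) (hv : T ⊆ L v) : ∃ w, G.Adj v w ∧ ¬ T ⊆ L w := by
  classical
  by_contra hcon
  push Not at hcon
  refine h.bas_shrink v T hv (by omega) ⟨fun u => ?_, fun u w huw h3 => ?_⟩
  · by_cases hu : u = v
    · subst hu; rw [Function.update_self]; omega
    · rw [Function.update_of_ne hu]; exact h.cls.1 u
  · by_cases hu : u = v
    · subst hu
      rw [Function.update_self, Function.update_of_ne huw.ne']
      exact hcon w huw
    · rw [Function.update_of_ne hu] at h3 ⊢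
      by_cases hw : w = v
      · subst hw
        rw [Function.update_self]
        exact (Finset.eq_of_subset_of_card_le (hcon u huw.symm) (by omega)).ge
      · rw [Function.update_of_ne hw]
        exact h.cls.2 u w huw h3

end Pool.Agent.Lib.MP_bfaad3_co
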