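import Pool.Agent.Lib.MP_bfaad3_co.Defs

set_option autoImplicit false

namespace Pool.Agent.Lib.MP_bfaad3_co

open Equiv

variable {V : Type*}

section Mirror

variable {G : SimpleGraph V} {σ : Perm G.Dart}

theorem wr_alpha_apply (d : G.Dart) : alpha G d = d.symm := rfl

theorem wr_phi_apply (σ : Perm G.Dart) (d : G.Dart) : phi σ d = σ d.symm := rfl

theorem wr_alpha_mul : alpha G * alpha G = 1 := by
  ext1 d
  simp [wr_alpha_apply]

theorem wr_alpha_inv : (alpha G)⁻¹ = alpha G :=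
  inv_eq_of_mul_eq_one_right wr_alpha_mul

theorem wr_phi_inv (σ : Perm G.Dart) : phi σ⁻¹ = alpha G * (phi σ)⁻¹ * (alpha G)⁻¹ := by
  unfold phi
  rw [mul_inv_rev, wr_alpha_inv, ← mul_assoc, wr_alpha_mul, one_mul]

theorem wr_phi_inv_pow (σ : Perm G.Dart) (n : ℕ) (d : G.Dart) :
    ((phi σ⁻¹) ^ n) d = (((phi σ) ^ n)⁻¹ d.symm).symm := by
  rw [wr_phi_inv, conj_pow, inv_pow, wr_alpha_inv]
  rfl

theorem wr_flen_inv (σ : Perm G.Dart) (d : G.Dart) : flen σ⁻¹ d = flen σ d.symm := by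
  unfold flen
  rw [Function.minimalPeriod_eq_minimalPeriod_iff]
  intro n
  unfold Function.IsPeriodicPt Function.IsFixedPt
  rw [← Perm.coe_pow, ← Perm.coe_pow, wr_phi_inv_pow]
  constructor
  · intro h
    have h2 : ((phi σ) ^ n)⁻¹ d.symm = d.symm := by
      have := congrArg SimpleGraph.Dart.symm h
      simpa using this
    rw [Perm.inv_eq_iff_eq] at h2
    exact h2.symm
  · intro h
    have h2 : ((phi σ) ^ n)⁻¹ d.symm = d.symm := by
      rw [Perm.inv_eq_iff_eq]
      exact h.symm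
    rw [h2]
    simp

/-- mirror image of a set of darts -/
def wrMir (B : Set G.Dart) : Set G.Dart := {d | d.symm ∈ B}

theorem wr_mem (B : Set G.Dart) (d : G.Dart) : d ∈ wrMir B ↔ d.symm ∈ B := Iff.rfl

theorem wr_mir_mir (B : Set G.Dart) : wrMir (wrMir B) = B := by
  ext d
  simp [wr_mem]

theorem wr_mir_compl (B : Set G.Dart) : (wrMir B)ᶜ = wrMir Bᶜ := rfl

theorem wr_mir_mono {B C : Set G.Dart} (h : B ⊆ C) : wrMir B ⊆ wrMir C := fun _ hd => h hd

theorem wr_mir_ncard (B : Set G.Dart) : (wrMir B).ncard = B.ncard := by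
  have : wrMir B = SimpleGraph.Dart.symm '' B := by
    ext d
    constructor
    · intro h
      exact ⟨d.symm, h, by simp⟩
    · rintro ⟨e, he, rfl⟩
      simpa [wr_mem] using he
  rw [this, Set.ncard_image_of_injective _ SimpleGraph.Dart.symm_involutive.injective]

theorem wr_mir_bd (B : Set G.Dart) : bd (wrMir B) = bd B := by
  unfold bd
  rw [← wr_mir_ncard {d | d ∈ B ∧ d.symm ∉ B}]
  rfl

theorem wr_mir_finv {B : Set G.Dart} (h : FInv σ B) : FInv σ⁻¹ (wrMir B) := by
  intro d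
  have h1 := wr_phi_inv_pow σ 1 d
  rw [pow_one, pow_one] at h1
  rw [wr_mem, wr_mem, h1, SimpleGraph.Dart.symm_symm, h ((phi σ)⁻¹ d.symm)]
  simp

theorem wr_mir_finv' {B : Set G.Dart} (h : FInv σ⁻¹ B) : FInv σ (wrMir B) := by
  have := wr_mir_finv h
  rwa [inv_inv] at this

theorem wr_mir_quiet {B : Set G.Dart} (h : Quiet σ B) : Quiet σ⁻¹ (wrMir B) := by
  rcases h with h | h
  · left
    rw [wr_mir_ncard, h]
  · right
    intro d hd
    rw [wr_flen_inv]
    exact h _ hd

theorem wr_mir_quiet' {B : Set G.Dart} (h : Quiet σ (wrMir B)) : Quiet σ⁻¹ B := by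
  have := wr_mir_quiet h
  rwa [wr_mir_mir] at this

theorem wr_mir_sub {B C : Set G.Dart} (h : B ⊆ wrMir C) : wrMir B ⊆ C := by
  have := wr_mir_mono h
  rwa [wr_mir_mir] at this

theorem wr_reg_mirror {A1 A : Set G.Dart} (h : Reg σ A1 A) :
    Reg σ⁻¹ (wrMir A1) (wrMir A) where
  inv1 := wr_mir_finv h.inv1
  inv := wr_mir_finv h.inv
  sub := wr_mir_mono h.sub
  lvl1 := by
    rcases h.lvl1 with h1 | h1
    · left
      rw [h1]
      rfl
    · right
      rw [wr_mir_compl, wr_mir_bd, wr_mir_ncard, wr_mir_ncard]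
      exact h1
  min1 := by
    intro B hB hsub hne hbd
    have h1 := h.min1 (wrMir B) (wr_mir_finv' hB) (wr_mir_sub hsub)
      (by
        intro he
        apply hne
        rw [← he, wr_mir_mir])
      (by rwa [wr_mir_bd])
    rwa [wr_mir_compl, wr_mir_bd, wr_mir_ncard, wr_mir_ncard] at h1
  lvl2 := by
    rcases h.lvl2 with ⟨h1, h2⟩ | ⟨h1, h2, h3⟩
    · left
      refine ⟨by rw [h1], fun W hW hsub hbd => ?_⟩
      exact wr_mir_quiet' (h2 (wrMir W) (wr_mir_finv' hW) (wr_mir_sub hsub) (by rwa [wr_mir_bd]))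
    · right
      refine ⟨by rwa [wr_mir_bd], fun hq => h2 ?_, fun W hW hsub hbd hlt => ?_⟩
      · have := wr_mir_quiet hq
        rwa [wr_mir_mir, inv_inv] at this
      · refine wr_mir_quiet' (h3 (wrMir W) (wr_mir_finv' hW) (wr_mir_sub hsub)
          (by rwa [wr_mir_bd]) ?_)
        rwa [wr_mir_ncard] at hlt ⊢

theorem wr_app_inv (σ : Perm G.Dart) (d : G.Dart) : σ (σ⁻¹ d) = d := by simp

theorem wr_rot_inv (h : IsRot G σ) : IsRot G σ⁻¹ := by
  refine ⟨fun d => ?_, fun d e hde => ?_⟩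
  · have := h.1 (σ⁻¹ d)
    rw [wr_app_inv] at this
    exact this.symm
  · exact Perm.sameCycle_inv.2 (h.2 d e hde)

theorem wr_intr_mirror {A : Set G.Dart} (hr : IsRot G σ) (hA : FInv σ A) (v : V) :
    Intr {d : G.Dart | d.symm ∈ A} v ↔ Intr A v := by
  have key : ∀ d : G.Dart, d.symm ∈ A ↔ σ d ∈ A := by
    intro d
    rw [hA d.symm, wr_phi_apply, SimpleGraph.Dart.symm_symm]
  constructor
  · intro h d hd
    have h1 : (σ⁻¹ d).fst = v := by rw [(wr_rot_inv hr).1 d, hd]
    have h2 : (σ⁻¹ d).symm ∈ A := h _ h1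
    rwa [key, wr_app_inv] at h2
  · intro h d hd
    show d.symm ∈ A
    rw [key]
    exact h _ (by rw [hr.1 d, hd])

end Mirror

variable [Fintype V]

theorem wr_ctx_mirror {G : SimpleGraph V} {L : V → Finset ℕ} {σ : Perm G.Dart}
    {A : Set G.Dart} (h : Ctx G L σ A) (hg : Gen0 σ⁻¹ (alpha G)) :
    Ctx G L σ⁻¹ {d | d.symm ∈ A} := by
  obtain ⟨A1, hA1⟩ := h.reg
  exact ⟨⟨wr_rot_inv h.ce.rot, hg, h.ce.tri, h.ce.cls, h.ce.ncol, h.ce.min1, h.ce.min2⟩,
    ⟨wrMir A1, wr_reg_mirror hA1⟩⟩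

theorem wr_col_of
    (H : ∀ (G : SimpleGraph V) (L : V → Finset ℕ) (σ : Perm G.Dart), MinCE G L σ → False)
    (G : SimpleGraph V) (L : V → Finset ℕ) (hp : Pl G) (ht : G.CliqueFree 3) (hc : InC G L) :
    Col G L := by
  have key : ∀ n : ℕ, ∀ G : SimpleGraph V, G.support.ncard = n → Pl G → G.CliqueFree 3 →
      ∀ s : ℕ, ∀ L : V → Finset ℕ, ∑ v, (L v).card = s → InC G L → Col G L := by
    intro n
    induction n using Nat.strong_induction_on with
    | _ n ih =>
      intro G hn hp ht s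
      induction s using Nat.strong_induction_on with
      | _ s ih2 =>
        intro L hs hc
        by_contra hcol
        obtain ⟨σ, hr, hg⟩ := hp
        refine H G L σ ⟨hr, hg, ht, hc, hcol, ?_, ?_⟩
        · intro K M hK hKt hKc hlt
          exact ih _ (hn ▸ hlt) K rfl hK hKt _ M rfl hKc
        · intro M hM hlt
          exact ih2 _ (hs ▸ hlt) M rfl hM
  exact key _ G rfl hp ht _ L rfl hc

theorem wr_final_of
    (H : ∀ (G : SimpleGraph V) (L : V → Finset ℕ) (σ : Perm G.Dart), MinCE G L σ → False)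
    (G : SimpleGraph V) (hp : Pl G) (ht : G.CliqueFree 3) {κ : Type*} [DecidableEq κ]
    (L : V → Finset κ) (hne : ∀ v, (L v).Nonempty)
    (h3 : ∀ u v, G.Adj u v → 3 ≤ (L u ∩ L v).card) :
    ∃ c : V → κ, (∀ v, c v ∈ L v) ∧ ∀ u v, G.Adj u v → c u ≠ c v := by
  classical
  set U : Finset κ := Finset.univ.biUnion L with hU
  have hLU : ∀ v, L v ⊆ U := fun v => Finset.subset_biUnion_of_mem L (Finset.mem_univ v)
  let f : κ → ℕ := fun k => if h : k ∈ U then ((U.equivFin ⟨k, h⟩ : Fin U.card) : ℕ) else 0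
  have hf : Set.InjOn f U := by
    intro a ha b hb hab
    have ha' : a ∈ U := ha
    have hb' : b ∈ U := hb
    simp only [f, dif_pos ha', dif_pos hb'] at hab
    have := U.equivFin.injective (Fin.ext hab)
    exact congrArg Subtype.val this
  have hcard : ∀ v, ((L v).image f).card = (L v).card := fun v =>
    Finset.card_image_of_injOn (hf.mono (by exact_mod_cast hLU v))
  let M : V → Finset ℕ := fun v => if ∃ w, G.Adj v w then (L v).image f else {0, 1, 2}
  have hM : ∀ u v, G.Adj u v → M u = (L u).image f := fun u v huv => if_pos ⟨v, huv⟩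
  have hc : InC G M := by
    refine ⟨fun v => ?_, fun u v huv h => ?_⟩
    · by_cases hv : ∃ w, G.Adj v w
      · obtain ⟨w, hw⟩ := hv
        rw [hM v w hw, hcard]
        exact (h3 v w hw).trans (Finset.card_le_card Finset.inter_subset_left)
      · have : M v = {0, 1, 2} := if_neg hv
        rw [this]
        decide
    · rw [hM u v huv, hcard] at h
      rw [hM u v huv, hM v u huv.symm]
      apply Finset.image_subset_image
      have h1 : L u ∩ L v = L u :=
        Finset.eq_of_subset_of_card_le Finset.inter_subset_left (h ▸ h3 u v huv)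
      rw [← h1]
      exact Finset.inter_subset_right
  obtain ⟨c, hc1, hc2⟩ := wr_col_of H G M hp ht hc
  have hex : ∀ v, ∃ k, k ∈ L v ∧ ((∃ w, G.Adj v w) → f k = c v) := by
    intro v
    by_cases hv : ∃ w, G.Adj v w
    · obtain ⟨w, hw⟩ := hv
      have h1 := hc1 v
      rw [hM v w hw, Finset.mem_image] at h1
      obtain ⟨k, hk, hk2⟩ := h1
      exact ⟨k, hk, fun _ => hk2⟩
    · obtain ⟨k, hk⟩ := hne v
      exact ⟨k, hk, fun h => absurd h hv⟩
  choose e he1 he2 using hex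
  refine ⟨e, he1, fun u v huv heq => hc2 u v huv ?_⟩
  rw [← he2 u ⟨v, huv⟩, ← he2 v ⟨u, huv.symm⟩, heq]

end Pool.Agent.Lib.MP_bfaad3_co
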