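import Pool.Agent.Lib.MP_bfaad3_co.Region
import Pool.Agent.Lib.MP_bfaad3_co.WrapA

set_option autoImplicit false

namespace Pool.Agent.Lib.MP_bfaad3_co

open Equiv

variable {V : Type*} [Fintype V]

variable {G : SimpleGraph V} {L : V → Finset ℕ} {σ : Perm G.Dart} {A : Set G.Dart}

set_option linter.unusedSectionVars false in
theorem flen_inv (σ : Perm G.Dart) (d : G.Dart) : flen σ⁻¹ d = flen σ d.symm :=
  wr_flen_inv σ d

theorem Ctx.mirror (h : Ctx G L σ A) : Ctx G L σ⁻¹ {d | d.symm ∈ A} := by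
  classical
  exact wr_ctx_mirror h (gen0_inv σ (alpha G) (fun d => SimpleGraph.Dart.symm_symm d) h.ce.gen)

theorem Ctx.intr_mirror (h : Ctx G L σ A) (v : V) :
    Intr {d : G.Dart | d.symm ∈ A} v ↔ Intr A v := by
  obtain ⟨A1, hA1⟩ := h.reg
  exact wr_intr_mirror h.ce.rot hA1.inv v

theorem final_of
    (H : ∀ (G : SimpleGraph V) (L : V → Finset ℕ) (σ : Perm G.Dart) (A : Set G.Dart),
      Ctx G L σ A → False)
    (G : SimpleGraph V) (hp : IsPlanar G) (ht : G.CliqueFree 3) {κ : Type*} [DecidableEq κ]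
    (L : V → Finset κ) (hne : ∀ v, (L v).Nonempty)
    (h3 : ∀ u v, G.Adj u v → 3 ≤ (L u ∩ L v).card) :
    ∃ c : V → κ, (∀ v, c v ∈ L v) ∧ ∀ u v, G.Adj u v → c u ≠ c v := by
  refine wr_final_of (fun G L σ hce => ?_) G (pl_of_isPlanar hp) ht L hne h3
  obtain ⟨A1, A, hA⟩ := exists_reg σ
  exact H G L σ A ⟨hce, A1, hA⟩

end Pool.Agent.Lib.MP_bfaad3_co
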