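import Pool.Agent.Lib.MP_bfaad3_co.PMDef
import Pool.Agent.Lib.MP_bfaad3_co.Wrap
import Pool.Agent.Lib.MP_bfaad3_co.Basic

set_option autoImplicit false

/-! Bit basics, evaluation of rule programs, mirror images. -/

namespace Pool.Agent.Lib.MP_bfaad3_co

open Equiv

universe u

theorem frc_eq {α : Type} (e : ℕ) (k : ℕ → α) : frc e k = k e := by cases e <;> rfl

theorem sel_eq {α : Type} (c : Bool) (t f : α) : sel c t f = if c = true then t else f := by
  cases c <;> rfl

theorem cj_iff (a b : Bool) : cj a b = true ↔ a = true ∧ b = true := by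
  cases a <;> cases b <;> simp [cj]

theorem dj_iff (a b : Bool) : dj a b = true ↔ a = true ∨ b = true := by
  cases a <;> cases b <;> simp [dj]

theorem tb_eq (m i : ℕ) : tb m i = m.testBit i := by
  change Nat.beq (m >>> i &&& 1) 1 = _
  rw [Nat.testBit, Nat.and_one_is_mod, Nat.one_and_eq_mod_two]
  rcases Nat.mod_two_eq_zero_or_one (m >>> i) with h | h <;> rw [h] <;> rfl

theorem sb_iff (a t : ℕ) : sb a t = true ↔ ∀ i, a.testBit i = true → t.testBit i = true := by
  change Nat.beq (t &&& a) a = true ↔ _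
  rw [Nat.beq_eq]
  refine ⟨fun h i hi => ?_, fun h => Nat.eq_of_testBit_eq fun i => ?_⟩
  · rw [← h, Nat.testBit_and, Bool.and_eq_true] at hi
    exact hi.1
  · rw [Nat.testBit_and]
    cases ha : a.testBit i
    · simp
    · simp [h i ha]

theorem BT.All.get {α : Type} {P : α → Prop} {t : BT α} (h : t.All P) (j : ℕ) : P (t.get j) := by
  induction t with
  | lf a => exact h
  | nd k l r ihl ihr =>
    change P (sel (Nat.ble j k) (l.get j) (r.get j))
    cases Nat.ble j k
    exacts [ihr h.2, ihl h.1]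

theorem BT.all_iff {α : Type} (p : α → Bool) (t : BT α) :
    t.all p = true ↔ t.All fun a => p a = true := by
  induction t with
  | lf a => exact Iff.rfl
  | nd k l r ihl ihr =>
    change cj (l.all p) (r.all p) = true ↔ _
    rw [cj_iff, ihl, ihr]
    exact Iff.rfl

theorem BT.All.imp {α : Type} {P Q : α → Prop} {t : BT α} (h : t.All P) (hpq : ∀ a, P a → Q a) :
    t.All Q := by
  induction t with
  | lf a => exact hpq a h
  | nd k l r ihl ihr => exact ⟨ihl h.1, ihr h.2⟩

theorem pm1_low {m d : ℕ} (h : ∀ i, i < 15 → m.testBit (d + i) = false) :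
    Nat.land (Nat.shiftRight m d) 32767 = 0 := by
  change m >>> d &&& (2 ^ 15 - 1) = 0
  refine Nat.eq_of_testBit_eq fun i => ?_
  rw [Nat.testBit_and, Nat.testBit_shiftRight, Nat.testBit_two_pow_sub_one, Nat.zero_testBit]
  by_cases hi : i < 15
  · rw [h i hi, Bool.false_and]
  · simp [hi]

theorem pm1_TM {i : ℕ} (hi : i < 12) : TM.testBit (30 + i) = true := by
  interval_cases i <;> decide

theorem pm1_FM {i : ℕ} (hi : i < 3) : FM.testBit (42 + i) = true := by
  interval_cases i <;> decide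

/-- the three outcomes of a question -/
theorem pm1_ask {t a msk i : ℕ} (ht : t.testBit i = false) (hm : msk.testBit i = true)
    (y n u : ℕ) : (a.testBit i = false ∧ ask t a msk y n u = y) ∨
      (a.testBit i = true ∧ ask t a msk y n u = n) ∨ ask t a msk y n u = u := by
  rw [ask, sel_eq, sel_eq]
  split_ifs with h1 h2
  · refine Or.inl ⟨?_, rfl⟩
    cases ha : a.testBit i
    · rfl
    · rw [(sb_iff _ _).1 h1 i ha] at ht
      exact absurd ht (by simp)
  · refine Or.inr (Or.inl ⟨?_, rfl⟩)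
    cases ha : a.testBit i
    · have : (a ^^^ msk).testBit i = true := by rw [Nat.testBit_xor, ha, hm]; rfl
      rw [(sb_iff _ _).1 h2 i this] at ht
      exact absurd ht (by simp)
    · rfl
  · exact Or.inr (Or.inr rfl)

theorem pm1_tri (x y n u : ℕ) :
    (x = 0 ∧ (Nat.rec n (fun r _ => Nat.rec y (fun _ _ => u) r) x : ℕ) = n) ∨
    (x = 1 ∧ (Nat.rec n (fun r _ => Nat.rec y (fun _ _ => u) r) x : ℕ) = y) ∨
    (Nat.rec n (fun r _ => Nat.rec y (fun _ _ => u) r) x : ℕ) = u := by
  rcases x with _ | _ | x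
  exacts [Or.inl ⟨rfl, rfl⟩, Or.inr (Or.inl ⟨rfl, rfl⟩), Or.inr (Or.inr rfl)]

theorem pm1_up (a b : ℕ) : comb true a b = max a b := by
  rw [comb, frc_eq, frc_eq, sel_eq]
  change (if _ then b else a) = _
  simp only [Nat.ble_eq]
  split_ifs <;> omega

theorem pm1_dn (a b : ℕ) : comb false a b = min a b := by
  rw [comb, frc_eq, frc_eq, sel_eq]
  change (if _ then a else b) = _
  simp only [Nat.ble_eq]
  split_ifs <;> omega

section
variable {V : Type u} [Fintype V] {G : SimpleGraph V} {L : V → Finset ℕ} {σ : Perm G.Dart}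
  {A : Set G.Dart} {m nd : ℕ} {h : ℕ → G.Dart}

/-- `d` is null or stands for `e` -/
def Rp (nd : ℕ) (h : ℕ → G.Dart) (d : ℕ) (e : G.Dart) : Prop :=
  d = 0 ∨ d = 64 ∨ (Val nd d ∧ h d = e)

omit [Fintype V] in
theorem ty_lt (v : V) : ty L A v < 12 := by
  unfold ty
  split_ifs <;> norm_num

omit [Fintype V] in
theorem fc_lt (d : G.Dart) : fc σ d < 3 := by
  unfold fc
  split_ifs <;> norm_num

omit [Fintype V] in
theorem Hom.val_sy (hh : Hom L σ A m nd h) {d : ℕ} (hd : Val nd d) : Val nd (sy d) := by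
  obtain ⟨h1, h2, k, rfl⟩ := hd
  obtain ⟨l, rfl⟩ := hh.nd1
  have h3 : sy (64 * k) = 64 * (k ^^^ 1) := by
    have := Nat.shiftLeft_xor_distrib (i := 6) (a := k) (b := 1)
    simp only [Nat.shiftLeft_eq] at this
    change 64 * k ^^^ 64 = _
    rw [mul_comm 64, mul_comm 64]
    exact this.symm
  rw [h3]
  rcases Nat.even_or_odd k with hk | hk
  · rw [Nat.xor_one_of_even hk]
    obtain ⟨j, rfl⟩ := hk
    exact ⟨by omega, by omega, Dvd.intro _ rfl⟩
  · rw [Nat.xor_one_of_odd hk]
    obtain ⟨j, rfl⟩ := hk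
    exact ⟨by omega, by omega, Dvd.intro _ rfl⟩

omit [Fintype V] in
theorem Rp.sy (hh : Hom L σ A m nd h) {d : ℕ} {e : G.Dart} (r : Rp nd h d e) :
    Rp nd h (sy d) e.symm := by
  rcases r with rfl | rfl | ⟨h1, rfl⟩
  exacts [Or.inr (Or.inl rfl), Or.inl rfl, Or.inr (Or.inr ⟨hh.val_sy h1, hh.sym d h1⟩)]

omit [Fintype V] in
theorem Rp.nx (hh : Hom L σ A m nd h) {d : ℕ} {e : G.Dart} (r : Rp nd h d e) :
    Rp nd h (nx m d) (σ e) := by
  rcases r with rfl | rfl | ⟨h1, rfl⟩
  · exact Or.inl (pm1_low fun i hi => by rw [zero_add]; exact (hh.nul i (by omega)).1)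
  · exact Or.inl (pm1_low fun i hi => (hh.nul i (by omega)).2)
  · exact (hh.hn d h1).imp id Or.inr

omit [Fintype V] in
theorem Rp.pv (hh : Hom L σ A m nd h) {d : ℕ} {e : G.Dart} (r : Rp nd h d e) :
    Rp nd h (pv m d) (σ⁻¹ e) := by
  rcases r with rfl | rfl | ⟨h1, rfl⟩
  · exact Or.inl (pm1_low (d := 15) fun i hi => (hh.nul (15 + i) (by omega)).1)
  · exact Or.inl (pm1_low (d := 64 + 15) fun i hi => by
      rw [add_assoc]; exact (hh.nul (15 + i) (by omega)).2)
  · exact (hh.hp d h1).imp id fun h2 => Or.inr ⟨h2.1, by rw [← h2.2]; simp⟩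

omit [Fintype V] in
theorem Rp.walk (hh : Hom L σ A m nd h) (w : W) {d : ℕ} {e : G.Dart} (r : Rp nd h d e) :
    Rp nd h (walk m w d) (wr σ w e) := by
  induction w generalizing d e with
  | e => exact r
  | s w ih => exact ih (r.sy hh)
  | n w ih => exact ih (r.nx hh)
  | p w ih => exact ih (r.pv hh)

omit [Fintype V] in
theorem Rp.stepV (hh : Hom L σ A m nd h) (k : ℕ) {d : ℕ} {e : G.Dart} (r : Rp nd h d e) :
    Rp nd h (stepV m k d) ((σ ^ k) e) := by
  induction k generalizing d e with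
  | zero => exact r
  | succ k ih =>
    change Rp nd h (frc (MP_bfaad3_co.nx m d) (MP_bfaad3_co.stepV m k)) _
    rw [frc_eq, pow_succ, Perm.mul_apply]
    exact ih (r.nx hh)

omit [Fintype V] in
theorem Rp.stepF (hh : Hom L σ A m nd h) (k : ℕ) {d : ℕ} {e : G.Dart} (r : Rp nd h d e) :
    Rp nd h (stepF m k d) ((phi σ ^ k) e) := by
  induction k generalizing d e with
  | zero => exact r
  | succ k ih =>
    change Rp nd h (frc (MP_bfaad3_co.nx m (MP_bfaad3_co.sy d)) (MP_bfaad3_co.stepF m k)) _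
    rw [frc_eq, pow_succ, Perm.mul_apply]
    exact ih ((r.sy hh).nx hh)

omit [Fintype V] in
/-- a set bit in the type field excludes the type -/
theorem Rp.bitT (hh : Hom L σ A m nd h) {d : ℕ} {e : G.Dart} (r : Rp nd h d e) :
    (Nat.shiftRight m d).testBit (30 + ty L A e.fst) = false := by
  change (m >>> d).testBit _ = false
  have := ty_lt (L := L) (A := A) e.fst
  rw [Nat.testBit_shiftRight]
  rcases r with rfl | rfl | ⟨h1, rfl⟩
  · rw [zero_add]; exact (hh.nul _ (by omega)).1
  · exact (hh.nul _ (by omega)).2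
  · exact hh.ht d h1

omit [Fintype V] in
theorem Rp.bitF (hh : Hom L σ A m nd h) {d : ℕ} {e : G.Dart} (r : Rp nd h d e) :
    (Nat.shiftRight m d).testBit (42 + fc σ e) = false := by
  change (m >>> d).testBit _ = false
  have := fc_lt (σ := σ) e
  rw [Nat.testBit_shiftRight]
  rcases r with rfl | rfl | ⟨h1, rfl⟩
  · rw [zero_add]; exact (hh.nul _ (by omega)).1
  · exact (hh.nul _ (by omega)).2
  · exact hh.hf d h1

omit [Fintype V] in
theorem pm1_evB (hh : Hom L σ A m nd h) (P : Prog) {d : ℕ} {e : G.Dart} (r : Rp nd h d e) :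
    (evB m P d = 0 → run L σ A P e = 0) ∧ (evB m P d = 1 → run L σ A P e ≠ 0) := by
  induction P generalizing d e with
  | ret v =>
    change (sel (Nat.beq v 0) 0 1 = 0 → v = 0) ∧ (sel (Nat.beq v 0) 0 1 = 1 → v ≠ 0)
    rcases v with _ | v
    · exact ⟨fun _ => rfl, fun h => absurd h (by decide)⟩
    · exact ⟨fun h => absurd h one_ne_zero, fun _ => Nat.succ_ne_zero v⟩
  | askT w a y n ihy ihn =>
    have e1 : evB m (.askT w a y n) d =
        ask (Nat.shiftRight m (walk m w d)) a TM (evB m y d) (evB m n d) 2 := rfl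
    rw [e1, run]
    rcases pm1_ask (a := a) ((r.walk hh w).bitT hh) (pm1_TM (ty_lt _)) (evB m y d) (evB m n d) 2
      with ⟨h1, h2⟩ | ⟨h1, h2⟩ | h2 <;> rw [h2]
    · rw [h1]; exact ihy r
    · rw [h1]; exact ihn r
    · exact ⟨fun h => absurd h (by decide), fun h => absurd h (by decide)⟩
  | askF w a y n ihy ihn =>
    have e1 : evB m (.askF w a y n) d =
        ask (Nat.shiftRight m (walk m w d)) a FM (evB m y d) (evB m n d) 2 := rfl
    rw [e1, run]
    rcases pm1_ask (a := a) ((r.walk hh w).bitF hh) (pm1_FM (fc_lt _)) (evB m y d) (evB m n d) 2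
      with ⟨h1, h2⟩ | ⟨h1, h2⟩ | h2 <;> rw [h2]
    · rw [h1]; exact ihy r
    · rw [h1]; exact ihn r
    · exact ⟨fun h => absurd h (by decide), fun h => absurd h (by decide)⟩
  | cnd p w y n ihp ihy ihn =>
    have e1 : evB m (.cnd p w y n) d = frc (walk m w d) fun x => Nat.rec (evB m n d)
        (fun r _ => Nat.rec (evB m y d) (fun _ _ => 2) r) (evB m p x) := rfl
    rw [e1, frc_eq, run]
    rcases pm1_tri (evB m p (walk m w d)) (evB m y d) (evB m n d) 2
      with ⟨h1, h2⟩ | ⟨h1, h2⟩ | h2 <;> rw [h2]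
    · rw [if_pos ((ihp (r.walk hh w)).1 h1)]; exact ihn r
    · rw [if_neg ((ihp (r.walk hh w)).2 h1)]; exact ihy r
    · exact ⟨fun h => absurd h (by decide), fun h => absurd h (by decide)⟩
  | mv w k ih =>
    have e1 : evB m (.mv w k) d = frc (walk m w d) (evB m k) := rfl
    rw [e1, frc_eq, run]
    exact ih (r.walk hh w)
  | add p w k _ _ =>
    exact ⟨fun h => absurd (show 2 = 0 from h) (by decide),
      fun h => absurd (show 2 = 1 from h) (by decide)⟩
  | sub c p w k _ _ =>
    exact ⟨fun h => absurd (show 2 = 0 from h) (by decide),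
      fun h => absurd (show 2 = 1 from h) (by decide)⟩

omit [Fintype V] in
theorem evB_zero (hh : Hom L σ A m nd h) (P : Prog) {d : ℕ} {e : G.Dart} (r : Rp nd h d e)
    (h0 : evB m P d = 0) : run L σ A P e = 0 := (pm1_evB hh P r).1 h0

omit [Fintype V] in
theorem evB_one (hh : Hom L σ A m nd h) (P : Prog) {d : ℕ} {e : G.Dart} (r : Rp nd h d e)
    (h1 : evB m P d = 1) : run L σ A P e ≠ 0 := (pm1_evB hh P r).2 h1

omit [Fintype V] in
theorem pm1_ev (hh : Hom L σ A m nd h) (P : Prog) {d : ℕ} {e : G.Dart} (r : Rp nd h d e) :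
    ev m P false d ≤ run L σ A P e ∧ run L σ A P e ≤ ev m P true d := by
  induction P generalizing d e with
  | ret v => exact ⟨le_rfl, le_rfl⟩
  | askT w a y n ihy ihn =>
    have e1 : ∀ up, ev m (.askT w a y n) up d = ask (Nat.shiftRight m (walk m w d)) a TM
        (ev m y up d) (ev m n up d) (comb up (ev m y up d) (ev m n up d)) := fun _ => rfl
    have k := fun y n u => pm1_ask (a := a) ((r.walk hh w).bitT hh) (pm1_TM (ty_lt _)) y n u
    have h3 := ihy r
    have h4 := ihn r
    rw [e1, e1, run, pm1_up, pm1_dn]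
    constructor
    · rcases k (ev m y false d) (ev m n false d) (min (ev m y false d) (ev m n false d))
        with ⟨h1, h2⟩ | ⟨h1, h2⟩ | h2 <;> rw [h2]
      · rw [h1]; exact h3.1
      · rw [h1]; exact h4.1
      · split_ifs <;> omega
    · rcases k (ev m y true d) (ev m n true d) (max (ev m y true d) (ev m n true d))
        with ⟨h1, h2⟩ | ⟨h1, h2⟩ | h2 <;> rw [h2]
      · rw [h1]; exact h3.2
      · rw [h1]; exact h4.2
      · split_ifs <;> omega
  | askF w a y n ihy ihn =>
    have e1 : ∀ up, ev m (.askF w a y n) up d = ask (Nat.shiftRight m (walk m w d)) a FM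
        (ev m y up d) (ev m n up d) (comb up (ev m y up d) (ev m n up d)) := fun _ => rfl
    have k := fun y n u => pm1_ask (a := a) ((r.walk hh w).bitF hh) (pm1_FM (fc_lt _)) y n u
    have h3 := ihy r
    have h4 := ihn r
    rw [e1, e1, run, pm1_up, pm1_dn]
    constructor
    · rcases k (ev m y false d) (ev m n false d) (min (ev m y false d) (ev m n false d))
        with ⟨h1, h2⟩ | ⟨h1, h2⟩ | h2 <;> rw [h2]
      · rw [h1]; exact h3.1
      · rw [h1]; exact h4.1
      · split_ifs <;> omega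
    · rcases k (ev m y true d) (ev m n true d) (max (ev m y true d) (ev m n true d))
        with ⟨h1, h2⟩ | ⟨h1, h2⟩ | h2 <;> rw [h2]
      · rw [h1]; exact h3.2
      · rw [h1]; exact h4.2
      · split_ifs <;> omega
  | cnd p w y n _ ihy ihn =>
    have e1 : ∀ up, ev m (.cnd p w y n) up d = frc (walk m w d) fun x => Nat.rec (ev m n up d)
        (fun r _ => Nat.rec (ev m y up d) (fun _ _ => comb up (ev m y up d) (ev m n up d)) r)
        (evB m p x) := fun _ => rfl
    have h3 := ihy r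
    have h4 := ihn r
    have h5 := pm1_evB hh p (r.walk hh w)
    rw [e1, e1, frc_eq, frc_eq, run, pm1_up, pm1_dn]
    constructor
    · rcases pm1_tri (evB m p (walk m w d)) (ev m y false d) (ev m n false d)
        (min (ev m y false d) (ev m n false d)) with ⟨h1, h2⟩ | ⟨h1, h2⟩ | h2 <;> rw [h2]
      · rw [if_pos (h5.1 h1)]; exact h4.1
      · rw [if_neg (h5.2 h1)]; exact h3.1
      · split_ifs <;> omega
    · rcases pm1_tri (evB m p (walk m w d)) (ev m y true d) (ev m n true d)
        (max (ev m y true d) (ev m n true d)) with ⟨h1, h2⟩ | ⟨h1, h2⟩ | h2 <;> rw [h2]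
      · rw [if_pos (h5.1 h1)]; exact h4.2
      · rw [if_neg (h5.2 h1)]; exact h3.2
      · split_ifs <;> omega
  | mv w k ih =>
    have e1 : ∀ up, ev m (.mv w k) up d = frc (walk m w d) (ev m k up) := fun _ => rfl
    rw [e1, e1, frc_eq, frc_eq, run]
    exact ih (r.walk hh w)
  | add p w k ihp ihk =>
    have e1 : ∀ up, ev m (.add p w k) up d = frc (walk m w d) (ev m p up) + ev m k up d :=
      fun _ => rfl
    have h3 := ihp (r.walk hh w)
    have h4 := ihk r
    rw [e1, e1, frc_eq, frc_eq, run]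
    omega
  | sub c p w k ihp ihk =>
    have e1 : ev m (.sub c p w k) true d =
        c - frc (walk m w d) (ev m p false) + ev m k true d := rfl
    have e2 : ev m (.sub c p w k) false d =
        c - frc (walk m w d) (ev m p true) + ev m k false d := rfl
    have h3 := ihp (r.walk hh w)
    have h4 := ihk r
    rw [e1, e2, frc_eq, frc_eq, run]
    omega

omit [Fintype V] in
theorem ev_up (hh : Hom L σ A m nd h) (P : Prog) {d : ℕ} {e : G.Dart} (r : Rp nd h d e) :
    run L σ A P e ≤ ev m P true d := (pm1_ev hh P r).2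

omit [Fintype V] in
theorem ev_dn (hh : Hom L σ A m nd h) (P : Prog) {d : ℕ} {e : G.Dart} (r : Rp nd h d e) :
    ev m P false d ≤ run L σ A P e := (pm1_ev hh P r).1

theorem hom_start (e : G.Dart) : ∃ h : ℕ → G.Dart, Hom L σ A 0 256 h ∧ h 128 = e := by
  refine ⟨fun d => if d = 128 then e else e.symm, ⟨by norm_num, le_rfl, by norm_num,
    fun i _ => Nat.zero_testBit i, fun i _ => ⟨Nat.zero_testBit _, Nat.zero_testBit _⟩,
    fun d hd => ?_, fun d _ => Or.inl (pm1_low fun i _ => Nat.zero_testBit _),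
    fun d _ => Or.inl (pm1_low fun i _ => Nat.zero_testBit _), fun d _ => Nat.zero_testBit _,
    fun d _ => Nat.zero_testBit _⟩, if_pos rfl⟩
  obtain ⟨h1, h2, k, rfl⟩ := hd
  obtain rfl | rfl : k = 2 ∨ k = 3 := by omega
  · rw [if_neg (by decide), if_pos rfl]
  · rw [if_pos (by decide), if_neg (by decide), SimpleGraph.Dart.symm_symm]

omit [Fintype V] in
theorem pm1_mirW (w t : W) (e : G.Dart) : wr σ (mirW w t) e = wr σ t (wr σ⁻¹ w e) := by
  induction w generalizing e with
  | e => rfl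
  | s w ih => exact ih e.symm
  | n w ih => exact ih (σ⁻¹ e)
  | p w ih => exact ih (σ e)

theorem run_mir (hc : Ctx G L σ A) (P : Prog) (e : G.Dart) :
    run L σ A (mir P) e = run L σ⁻¹ {d | d.symm ∈ A} P e := by
  have h1 : ∀ v, ty L {d : G.Dart | d.symm ∈ A} v = ty L A v := fun v => by
    unfold ty
    rw [propext (hc.intr_mirror v)]
  have h2 : ∀ d, fc σ⁻¹ d = fc σ d.symm := fun d => by
    unfold fc
    rw [flen_inv]
  have h3 : ∀ w e, wr σ (mirW w .e) e = wr σ⁻¹ w e := fun w e => pm1_mirW w .e e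
  have h4 : ∀ w e, wr σ (mirW w (.s .e)) e = (wr σ⁻¹ w e).symm := fun w e => pm1_mirW w _ e
  induction P generalizing e with
  | ret v => rfl
  | askT w a y n ihy ihn =>
    change run L σ A (.askT (mirW w .e) a (mir y) (mir n)) e = _
    rw [run, run, h1, h3, ihy, ihn]
  | askF w a y n ihy ihn =>
    change run L σ A (.askF (mirW w (.s .e)) a (mir y) (mir n)) e = _
    rw [run, run, h2, h4, ihy, ihn]
  | cnd p w y n ihp ihy ihn =>
    change run L σ A (.cnd (mir p) (mirW w .e) (mir y) (mir n)) e = _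
    rw [run, run, h3, ihp, ihy, ihn]
  | mv w k ih =>
    change run L σ A (.mv (mirW w .e) (mir k)) e = _
    rw [run, run, h3, ih]
  | add p w k ihp ihk =>
    change run L σ A (.add (mir p) (mirW w .e) (mir k)) e = _
    rw [run, run, h3, ihp, ihk]
  | sub c p w k ihp ihk =>
    change run L σ A (.sub c (mir p) (mirW w .e) (mir k)) e = _
    rw [run, run, h3, ihp, ihk]

end

theorem patOK_mir {P : Prog} (hp : PatOK.{u} P) : PatOK.{u} (mir P) :=
  fun V _ G L σ A hc e => (run_mir hc P e).trans (hp V G L σ⁻¹ _ hc.mirror e)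

theorem patOK_T : PatOK.{u} (.askT .e TM (.ret 1) (.ret 0)) := fun V _ G L σ A _ e => by
  rw [run, if_pos (pm1_TM (ty_lt _))]
  rfl

theorem patOK_F : PatOK.{u} (.askF .e FM (.ret 1) (.ret 0)) := fun V _ G L σ A _ e => by
  rw [run, if_pos (pm1_FM (fc_lt _))]
  rfl

theorem Snd.start {T : Tgt} {regs : ℕ} (hs : Snd.{u} T (0, 256, regs)) {V : Type u} [Fintype V]
    {G : SimpleGraph V} {L : V → Finset ℕ} {σ : Perm G.Dart} {A : Set G.Dart} (hc : Ctx G L σ A)
    (e : G.Dart) (Q : ℕ → ℕ) (goal : Prop) (ht : TOK L σ A T e Q goal) (hi : RInv Q regs) :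
    goal := by
  obtain ⟨h, h1, rfl⟩ := hom_start (L := L) (σ := σ) (A := A) e
  exact hs V G L σ A hc h h1 Q goal ht hi

theorem patOK_of {P : Prog} (hs : Snd.{u} (patT P) (0, 256, 1023)) : PatOK.{u} P := by
  intro V _ G L σ A hc e
  refine hs.start hc e (fun r => if r = 0 then run L σ A P e else 0) _
    ⟨(if_pos rfl).le, fun regs c h1 h2 => ?_⟩ fun r hr => ?_
  · have h3 : rg regs 0 = 0 := Nat.eq_of_beq_eq_true h2
    have h4 := h1 0 (by omega)
    rw [h3] at h4
    exact Nat.le_zero.1 h4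
  · rcases r with _ | r
    · exact absurd hr (by decide)
    · exact Nat.zero_le _

theorem snd_triv (T : Tgt) : Snd.{u} T (0, 0, 0) :=
  fun _ _ _ _ _ _ _ _ hh => absurd hh.nd2 (by decide)

end Pool.Agent.Lib.MP_bfaad3_co
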