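import Pool.Agent.Lib.MP_bfaad3_co.Defs

set_option autoImplicit false

/-! Incomplete plane maps packed in one natural number, rule programs, and the tree checker. -/

namespace Pool.Agent.Lib.MP_bfaad3_co

open Equiv

noncomputable section

/-- evaluate `e`, then continue -/
def frc {α : Type} (e : ℕ) (k : ℕ → α) : α := Nat.rec (k 0) (fun n _ => k n.succ) e

/-- if-then-else -/
def sel {α : Type} (c : Bool) (t f : α) : α := Bool.rec f t c

/-- conjunction, second argument lazily -/
def cj (a b : Bool) : Bool := Bool.rec false b a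

/-- disjunction, second argument lazily -/
def dj (a b : Bool) : Bool := Bool.rec b true a

/-- bit test -/
def tb (m i : ℕ) : Bool := Nat.beq (Nat.land (Nat.shiftRight m i) 1) 1

/-- all bits of `a` are set in `t` -/
def sb (a t : ℕ) : Bool := Nat.beq (Nat.land t a) a

/-- search trees -/
inductive BT (α : Type) : Type
  | lf (a : α) : BT α
  | nd (k : ℕ) (l r : BT α) : BT α

def BT.get {α : Type} (t : BT α) (j : ℕ) : α :=
  BT.rec (fun a => a) (fun k _ _ l r => sel (Nat.ble j k) l r) t

def BT.All {α : Type} (P : α → Prop) (t : BT α) : Prop :=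
  BT.rec (fun a => P a) (fun _ _ _ l r => l ∧ r) t

def BT.all {α : Type} (p : α → Bool) (t : BT α) : Bool :=
  BT.rec (fun a => p a) (fun _ _ _ l r => cj l r) t

/-! A dart is a multiple of 64, its cell starts at that bit: 15 bits next dart, 15 bits previous
dart, 12 bits excluded vertex types, 3 bits excluded face classes.  Darts 0 and 64 are null. -/

def nx (m d : ℕ) : ℕ := Nat.land (Nat.shiftRight m d) 32767
def pv (m d : ℕ) : ℕ := Nat.land (Nat.shiftRight m (Nat.add d 15)) 32767
def sy (d : ℕ) : ℕ := Nat.xor d 64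
/-- `4095 <<< 30` -/
def TM : ℕ := 4396972769280
/-- `7 <<< 42` -/
def FM : ℕ := 30786325577728

/-- words: reverse, next, previous -/
inductive W : Type
  | e : W
  | s (w : W) : W
  | n (w : W) : W
  | p (w : W) : W

def walk (m : ℕ) (w : W) : ℕ → ℕ :=
  W.rec (fun d => d) (fun _ ih d => ih (sy d)) (fun _ ih d => ih (nx m d))
    (fun _ ih d => ih (pv m d)) w

/-- rule programs; `a` is the set of excluded types or classes, in cell position -/
inductive Prog : Type
  | ret (v : ℕ) : Prog
  | askT (w : W) (a : ℕ) (y n : Prog) : Prog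
  | askF (w : W) (a : ℕ) (y n : Prog) : Prog
  | cnd (p : Prog) (w : W) (y n : Prog) : Prog
  | mv (w : W) (k : Prog) : Prog
  | add (p : Prog) (w : W) (k : Prog) : Prog
  | sub (c : ℕ) (p : Prog) (w : W) (k : Prog) : Prog

def ask (t a msk y n u : ℕ) : ℕ := sel (sb a t) y (sel (sb (Nat.xor a msk) t) n u)

/-- three-valued evaluation: 0 zero, 1 nonzero, 2 unknown -/
def evB (m : ℕ) (P : Prog) : ℕ → ℕ :=
  Prog.rec (fun v _ => sel (Nat.beq v 0) 0 1)
    (fun w a _ _ y n d => ask (Nat.shiftRight m (walk m w d)) a TM (y d) (n d) 2)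
    (fun w a _ _ y n d => ask (Nat.shiftRight m (walk m w d)) a FM (y d) (n d) 2)
    (fun _ w _ _ p y n d => frc (walk m w d) fun x =>
      Nat.rec (n d) (fun r _ => Nat.rec (y d) (fun _ _ => 2) r) (p x))
    (fun w _ k d => frc (walk m w d) k)
    (fun _ _ _ _ _ _ => 2) (fun _ _ _ _ _ _ _ => 2) P

def comb (up : Bool) (a b : ℕ) : ℕ :=
  frc a fun a => frc b fun b => sel (Nat.ble a b) (sel up b a) (sel up a b)

/-- upper (`up = true`) or lower bound of the value -/
def ev (m : ℕ) (P : Prog) : Bool → ℕ → ℕ :=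
  Prog.rec (fun v _ _ => v)
    (fun w a _ _ y n up d => ask (Nat.shiftRight m (walk m w d)) a TM (y up d) (n up d)
      (comb up (y up d) (n up d)))
    (fun w a _ _ y n up d => ask (Nat.shiftRight m (walk m w d)) a FM (y up d) (n up d)
      (comb up (y up d) (n up d)))
    (fun p w _ _ _ y n up d => frc (walk m w d) fun x =>
      Nat.rec (n up d) (fun r _ => Nat.rec (y up d) (fun _ _ => comb up (y up d) (n up d)) r)
        (evB m p x))
    (fun w _ k up d => frc (walk m w d) (k up))
    (fun _ w _ p k up d => Nat.add (frc (walk m w d) (p up)) (k up d))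
    (fun c _ w _ p k up d =>
      Nat.add (Nat.sub c (frc (walk m w d) (p (sel up false true)))) (k up d)) P

/-! Operations on maps -/

def cmVP (m : ℕ) : ℕ → ℕ → ℕ → ℕ := fun fuel =>
  Nat.rec (fun _ acc => acc) (fun _ ih cur acc => frc (pv m cur) fun x =>
    sel (Nat.beq x 0) acc (ih x (Nat.lor acc (Nat.shiftLeft 1 x)))) fuel

/-- bit mask of darts known to share the tail of `d` -/
def cmV (m d : ℕ) : ℕ :=
  Nat.rec (motive := fun _ => ℕ → ℕ → ℕ) (fun _ acc => acc) (fun _ ih cur acc =>
    frc (nx m cur) fun x => sel (Nat.beq x 0) (cmVP m 12 d acc)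
      (sel (Nat.beq x d) acc (ih x (Nat.lor acc (Nat.shiftLeft 1 x))))) 12 d (Nat.shiftLeft 1 d)

def cmFP (m : ℕ) : ℕ → ℕ → ℕ → ℕ := fun fuel =>
  Nat.rec (fun _ acc => acc) (fun _ ih cur acc => frc (pv m cur) fun x =>
    sel (Nat.beq x 0) acc (ih (sy x) (Nat.lor acc (Nat.shiftLeft 1 (sy x))))) fuel

/-- bit mask of darts known to share the face of `d` -/
def cmF (m d : ℕ) : ℕ :=
  Nat.rec (motive := fun _ => ℕ → ℕ → ℕ) (fun _ acc => acc) (fun _ ih cur acc =>
    frc (nx m (sy cur)) fun x => sel (Nat.beq x 0) (cmFP m 20 d acc)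
      (sel (Nat.beq x d) acc (ih x (Nat.lor acc (Nat.shiftLeft 1 x))))) 20 d (Nat.shiftLeft 1 d)

/-- new edge whose dart `nd` follows `a` -/
def newA (m nd a : ℕ) : ℕ :=
  Nat.lor m (Nat.lor (Nat.shiftLeft nd a) (Nat.shiftLeft (Nat.lor (Nat.shiftLeft a 15)
    (Nat.lor (Nat.land (Nat.shiftRight m a) TM) (Nat.land (Nat.shiftRight m (sy a)) FM))) nd))

def link' (m a b t f : ℕ) : ℕ :=
  Nat.lor m (Nat.lor (Nat.shiftLeft (Nat.lor b t) a) (Nat.lor
    (Nat.shiftLeft (Nat.lor (Nat.shiftLeft a 15) (Nat.lor t f)) b) (Nat.shiftLeft f (sy a))))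

/-- record that `b` follows `a` -/
def link (m a b : ℕ) : ℕ :=
  link' m a b (Nat.land (Nat.lor (Nat.shiftRight m a) (Nat.shiftRight m b)) TM)
    (Nat.land (Nat.lor (Nat.shiftRight m (sy a)) (Nat.shiftRight m b)) FM)

/-- walk `k` steps from `s` (around a vertex if `x = 0`, along a face if `x = 64`), creating
missing edges, and close up -/
def grow (x s : ℕ) (K : ℕ → ℕ → Bool) (k : ℕ) : ℕ → ℕ → ℕ → Bool :=
  Nat.rec
    (fun m nd cur => frc (Nat.xor cur x) fun a =>
      cj (Nat.beq (Nat.lor (nx m a) (pv m s)) 0) (frc (link m a s) fun m' => K m' nd))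
    (fun _ ih m nd cur => frc (Nat.xor cur x) fun a => frc (nx m a) fun y =>
      sel (Nat.beq y 0) (frc (newA m nd a) fun m' => frc (Nat.add nd 128) fun nd' => ih m' nd' nd)
        (ih m nd y)) k

/-- excluded types that force degree `j + 3` -/
def degM (j : ℕ) : ℕ :=
  sel (Nat.beq j 0) 4395899027456 (sel (Nat.beq j 1) 4386235351040
    (sel (Nat.beq j 2) 4341138194432 2197949513728))

/-- excluded classes that force length `j + 4` -/
def lenM (j : ℕ) : ℕ := sel (Nat.beq j 0) 26388279066624 21990232555520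

def setN (m a b : ℕ) : ℕ := Nat.xor m (Nat.shiftLeft (Nat.xor (nx m a) b) a)
def setP (m a b : ℕ) : ℕ := Nat.xor m (Nat.shiftLeft (Nat.xor (pv m a) b) (Nat.add a 15))
/-- record that `b` follows `a`, overwriting -/
def setL (m a b : ℕ) : ℕ := frc (setN m a b) fun m => setP m b a
def cpM (m s y : ℕ) : ℕ :=
  Nat.lor m (Nat.shiftLeft (Nat.land (Nat.shiftRight m y) (Nat.lor TM FM)) s)

/-- `k` steps along the face -/
def stepF (m k : ℕ) : ℕ → ℕ := Nat.rec (fun d => d) (fun _ ih d => frc (nx m (sy d)) ih) k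

/-- `k` steps around the vertex -/
def stepV (m k : ℕ) : ℕ → ℕ := Nat.rec (fun d => d) (fun _ ih d => frc (nx m d) ih) k

/-- types excluded when `j + 1` steps around the vertex close up -/
def rotM (j : ℕ) : ℕ :=
  sel (Nat.ble j 1) TM (sel (Nat.beq j 2) 2746631585792 (sel (Nat.beq j 3) 2736967909376
    (sel (Nat.beq j 4) 2691870752768 0)))

/-- classes excluded when `j + 1` steps along the face close up -/
def fclM (j : ℕ) : ℕ :=
  sel (Nat.ble j 2) FM (sel (Nat.beq j 3) 26388279066624 (sel (Nat.beq j 4) 21990232555520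
    (sel (Nat.ble j 6) 13194139533312 0)))

/-- `y` and `s` are the same dart, `y` follows `a` -/
def zip (m s a y : ℕ) : ℕ :=
  frc (setL m a s) fun m => frc (cpM m s y) fun m => frc (cpM m (sy s) (sy y)) fun m =>
  frc (sel (cj (Nat.beq (nx m s) 0) (Nat.ble 128 (nx m y))) (setL m s (nx m y)) m) fun m =>
  sel (cj (Nat.beq (pv m (sy s)) 0) (Nat.ble 128 (pv m (sy y)))) (setL m (pv m (sy y)) (sy s)) m

/-- a target: steps (register, program) and a final test -/
structure Tgt : Type where
  st : BT (ℕ × Prog)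
  fin : ℕ → ℕ → Bool

def rg (regs r : ℕ) : ℕ := Nat.land (Nat.shiftRight regs (Nat.mul r 10)) 1023

def setR (regs o v : ℕ) : ℕ :=
  Nat.xor regs (Nat.shiftLeft (Nat.xor (Nat.land (Nat.shiftRight regs o) 1023) v) o)

/-- the dart named by the low 9 bits -/
def dart (c : ℕ) : ℕ := Nat.add (Nat.shiftLeft (Nat.land c 511) 6) 128

/-- bits 45 to 62 -/
def SALT : ℕ := 9223336852482686976

def split (ih : ℕ → ℕ → ℕ → ℕ → Bool) (m nd regs cm a msk c len : ℕ) : Bool :=
  cj (frc (Nat.land c (Nat.pred (Nat.shiftLeft 1 len))) fun l =>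
      frc (Nat.xor (Nat.lor m (Nat.mul cm a)) (Nat.land l SALT)) fun m' => ih m' nd regs l)
    (frc (Nat.shiftRight c len) fun r =>
      frc (Nat.xor (Nat.lor m (Nat.mul cm (Nat.xor a msk))) (Nat.land r SALT)) fun m' =>
        ih m' nd regs r)

def evs (T : Tgt) (m regs j : ℕ) (K : ℕ → Bool) : Bool :=
  Prod.rec (motive := fun _ => Bool) (fun r P => frc (ev m P true 128) fun v =>
    cj (Nat.ble v 1022) (frc (setR regs (Nat.mul r 10) v) K)) (T.st.get j)

def step (T : Tgt) (pats : BT Prog) (cuts : BT (ℕ × ℕ × ℕ)) (red : ℕ → ℕ → ℕ → Bool)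
    (ih : ℕ → ℕ → ℕ → ℕ → Bool) (m nd regs op c : ℕ) : Bool :=
  sel (Nat.ble op 3)
    (sel (Nat.ble op 1)
      (sel (Nat.beq op 0)
        (frc (dart c) fun d => cj (Nat.blt d nd) (frc (cmV m d) fun cm =>
          split ih m nd regs cm (Nat.shiftLeft (Nat.land (Nat.shiftRight c 9) 4095) 30) TM
            (Nat.shiftRight c 39) (Nat.land (Nat.shiftRight c 21) 262143)))
        (frc (dart c) fun d => cj (Nat.blt d nd) (frc (cmF m d) fun cm =>
          split ih m nd regs cm (Nat.shiftLeft (Nat.land (Nat.shiftRight c 9) 7) 42) FM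
            (Nat.shiftRight c 30) (Nat.land (Nat.shiftRight c 12) 262143))))
      (sel (Nat.beq op 2)
        (evs T m regs (Nat.land c 31) fun regs' => T.fin regs' (Nat.shiftRight c 5))
        (evs T m regs (Nat.land c 31) fun regs' => ih m nd regs' (Nat.shiftRight c 5))))
    (sel (Nat.ble op 7)
      (sel (Nat.ble op 5)
        (frc (dart c) fun s => cj (Nat.blt s nd) (cj (Nat.ble nd 32000)
          (sel (Nat.beq op 4)
            (frc (Nat.land (Nat.shiftRight c 9) 3) fun j =>
              cj (sb (degM j) (Nat.shiftRight m s))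
                (grow 0 s (fun m' nd' => ih m' nd' regs (Nat.shiftRight c 11)) (Nat.add j 2) m nd s))
            (frc (Nat.land (Nat.shiftRight c 9) 1) fun j =>
              cj (sb (lenM j) (Nat.shiftRight m s))
                (grow 64 s (fun m' nd' => ih m' nd' regs (Nat.shiftRight c 10)) (Nat.add j 3)
                  m nd s)))))
        (sel (Nat.beq op 6)
          (frc (dart c) fun d => cj (Nat.blt d nd)
            (Nat.beq (evB m (pats.get (Nat.shiftRight c 9)) d) 1))
          (T.fin regs c)))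
      (sel (Nat.ble op 11)
        (frc (dart c) fun d => cj (Nat.blt d nd)
          (sel (Nat.ble op 9)
            (sel (Nat.beq op 8)
              (frc (Nat.lor m (Nat.mul (cmV m d) (Nat.land (Nat.shiftRight m d) TM))) fun m' =>
                ih m' nd regs (Nat.shiftRight c 9))
              (frc (Nat.lor m (Nat.mul (cmF m d) (Nat.land (Nat.shiftRight m d) FM))) fun m' =>
                ih m' nd regs (Nat.shiftRight c 9)))
            (sel (Nat.beq op 10)
              (cj (Nat.ble nd 32000) (cj (Nat.beq (nx m d) 0) (frc (newA m nd d) fun m' =>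
                frc (Nat.add nd 128) fun nd' => ih m' nd' regs (Nat.shiftRight c 9))))
              (frc (Nat.land (Nat.shiftRight c 9) 1) fun j =>
                cj (sb (lenM j) (Nat.shiftRight m d))
                  (frc (sy (stepF m (Nat.add j 3) d)) fun a => frc (nx m a) fun y =>
                    cj (Nat.ble 128 y) (frc (zip m d a y) fun m' =>
                      ih m' nd regs (Nat.shiftRight c 10)))))))
        (sel (Nat.beq op 12)
          (Prod.rec (motive := fun _ => Bool) (fun a b => Prod.rec (motive := fun _ => Bool)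
            (fun b1 b2 => cj (Nat.beq a m) (cj (Nat.beq b1 nd) (Nat.beq b2 regs))) b) (cuts.get c))
          (sel (Nat.beq op 13) (red m nd c)
            (frc (dart c) fun d => cj (Nat.blt d nd) (frc (Nat.land (Nat.shiftRight c 9) 7) fun j =>
              sel (Nat.beq op 14)
                (cj (Nat.beq (stepV m (Nat.succ j) d) d)
                  (frc (Nat.lor m (Nat.mul (cmV m d) (rotM j))) fun m' =>
                    ih m' nd regs (Nat.shiftRight c 12)))
                (cj (Nat.beq (stepF m (Nat.succ j) d) d)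
                  (frc (Nat.lor m (Nat.mul (cmF m d) (fclM j))) fun m' =>
                    ih m' nd regs (Nat.shiftRight c 12)))))))))

/-- the tree checker -/
def chk (T : Tgt) (pats : BT Prog) (cuts : BT (ℕ × ℕ × ℕ)) (red : ℕ → ℕ → ℕ → Bool)
    (fuel : ℕ) : ℕ → ℕ → ℕ → ℕ → Bool :=
  Nat.rec (fun _ _ _ _ => false) (fun _ ih m nd regs c => frc (Nat.land c 15) fun op =>
    step T pats cuts red ih m nd regs op (Nat.shiftRight c 4)) fuel

/-- mirror image of a word, followed by `t` -/
def mirW (w : W) : W → W :=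
  W.rec (fun t => t) (fun _ ih t => W.s (ih t)) (fun _ ih t => W.p (ih t))
    (fun _ ih t => W.n (ih t)) w

/-- mirror image of a program -/
def mir (P : Prog) : Prog :=
  Prog.rec (fun v => .ret v) (fun w a _ _ y n => .askT (mirW w .e) a y n)
    (fun w a _ _ y n => .askF (mirW w (.s .e)) a y n)
    (fun _ w _ _ p y n => .cnd p (mirW w .e) y n) (fun w _ k => .mv (mirW w .e) k)
    (fun _ w _ p k => .add p (mirW w .e) k) (fun c _ w _ p k => .sub c p (mirW w .e) k) P

/-- the target that says that a pattern does not occur -/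
def patT (P : Prog) : Tgt := ⟨.lf (0, P), fun regs _ => Nat.beq (rg regs 0) 0⟩

/-! Semantics -/

variable {V : Type*} {G : SimpleGraph V}

open Classical in
/-- vertex types s3 s4 s5 b4 b5 c5 RS R4 R5 KS KB R6 -/
def ty (L : V → Finset ℕ) (A : Set G.Dart) (v : V) : ℕ :=
  if Intr A v then
    if dg G v = 3 then 0
    else if dg G v = 4 then (if (L v).card = 3 then 1 else 3)
    else if dg G v = 5 then (if (L v).card = 3 then 2 else if (L v).card = 4 then 4 else 5)
    else if (L v).card = 3 then 6 else if (L v).card = 4 then 7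
    else if dg G v = 6 ∧ (L v).card = 5 then 11 else 8
  else if (L v).card = 3 then 9 else 10

/-- face classes: length 4, length 5, longer -/
def fc (σ : Perm G.Dart) (d : G.Dart) : ℕ :=
  if flen σ d = 4 then 0 else if flen σ d = 5 then 1 else 2

def wr (σ : Perm G.Dart) : W → G.Dart → G.Dart
  | .e, d => d
  | .s w, d => wr σ w d.symm
  | .n w, d => wr σ w (σ d)
  | .p w, d => wr σ w (σ⁻¹ d)

/-- the value of a program at a dart -/
def run (L : V → Finset ℕ) (σ : Perm G.Dart) (A : Set G.Dart) : Prog → G.Dart → ℕ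
  | .ret v, _ => v
  | .askT w a y n, d =>
      if a.testBit (30 + ty L A (wr σ w d).fst) then run L σ A n d else run L σ A y d
  | .askF w a y n, d =>
      if a.testBit (42 + fc σ (wr σ w d)) then run L σ A n d else run L σ A y d
  | .cnd p w y n, d => if run L σ A p (wr σ w d) = 0 then run L σ A n d else run L σ A y d
  | .mv w k, d => run L σ A k (wr σ w d)
  | .add p w k, d => run L σ A p (wr σ w d) + run L σ A k d
  | .sub c p w k, d => (c - run L σ A p (wr σ w d)) + run L σ A k d

/-- a dart of the map -/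
def Val (nd d : ℕ) : Prop := 128 ≤ d ∧ d < nd ∧ 64 ∣ d

/-- `h` maps the packed map into the plane graph -/
structure Hom (L : V → Finset ℕ) (σ : Perm G.Dart) (A : Set G.Dart) (m nd : ℕ)
    (h : ℕ → G.Dart) : Prop where
  nd1 : 128 ∣ nd
  nd2 : 256 ≤ nd
  nd3 : nd ≤ 32768
  top : ∀ i, nd ≤ i → m.testBit i = false
  nul : ∀ i, i < 45 → m.testBit i = false ∧ m.testBit (64 + i) = false
  sym : ∀ d, Val nd d → h (sy d) = (h d).symm
  hn : ∀ d, Val nd d → nx m d = 0 ∨ (Val nd (nx m d) ∧ h (nx m d) = σ (h d))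
  hp : ∀ d, Val nd d → pv m d = 0 ∨ (Val nd (pv m d) ∧ σ (h (pv m d)) = h d)
  ht : ∀ d, Val nd d → m.testBit (d + (30 + ty L A (h d).fst)) = false
  hf : ∀ d, Val nd d → m.testBit (d + (42 + fc σ (h d))) = false

/-- the registers bound the quantities -/
def RInv (Q : ℕ → ℕ) (regs : ℕ) : Prop := ∀ r, rg regs r < 1023 → Q r ≤ rg regs r

/-- the steps and the final test of a target are correct for the quantities `Q` at `e` -/
def TOK (L : V → Finset ℕ) (σ : Perm G.Dart) (A : Set G.Dart) (T : Tgt) (e : G.Dart)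
    (Q : ℕ → ℕ) (goal : Prop) : Prop :=
  T.st.All (fun x => Q x.1 ≤ run L σ A x.2 e) ∧
    ∀ regs c, RInv Q regs → T.fin regs c = true → goal

end

universe u

/-- the state `x` of the tree checker leads to the goal -/
def Snd (T : Tgt) (x : ℕ × ℕ × ℕ) : Prop :=
  ∀ (V : Type u) [Fintype V] (G : SimpleGraph V) (L : V → Finset ℕ) (σ : Perm G.Dart)
    (A : Set G.Dart), Ctx G L σ A → ∀ h, Hom L σ A x.1 x.2.1 h → ∀ Q goal,
      TOK L σ A T (h 128) Q goal → RInv Q x.2.2 → goal

/-- the pattern does not occur -/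
def PatOK (P : Prog) : Prop :=
  ∀ (V : Type u) [Fintype V] (G : SimpleGraph V) (L : V → Finset ℕ) (σ : Perm G.Dart)
    (A : Set G.Dart), Ctx G L σ A → ∀ e, run L σ A P e = 0

/-- the leaf test is correct -/
def RedOK (red : ℕ → ℕ → ℕ → Bool) : Prop :=
  ∀ (V : Type u) [Fintype V] (G : SimpleGraph V) (L : V → Finset ℕ) (σ : Perm G.Dart)
    (A : Set G.Dart), Ctx G L σ A → ∀ m nd c h, red m nd c = true → Hom L σ A m nd h → False

end Pool.Agent.Lib.MP_bfaad3_co
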