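import Pool.Agent.Lib.MP_bfaad3_co.Basic
import Pool.Agent.Lib.MP_bfaad3_co.Jordan

set_option autoImplicit false

namespace Pool.Agent.Lib.MP_bfaad3_co

open Equiv

variable {V : Type*} [Fintype V]

variable {G : SimpleGraph V} {L : V → Finset ℕ} {σ : Perm G.Dart} {A : Set G.Dart}

theorem b2_fin : Finite G.Dart := by
  classical
  infer_instance

attribute [local instance] b2_fin

/-- number of darts in `X` whose reverse is in `Y` -/
noncomputable def b2_nn (X Y : Set G.Dart) : ℕ := {d | d ∈ X ∧ d.symm ∈ Y}.ncard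

omit [Fintype V] in
theorem b2_nn_symm (X Y : Set G.Dart) : b2_nn X Y = b2_nn Y X := by
  unfold b2_nn
  have hinj : Function.Injective (SimpleGraph.Dart.symm : G.Dart → G.Dart) :=
    SimpleGraph.Dart.symm_involutive.injective
  rw [← Set.ncard_image_of_injective _ hinj]
  congr 1
  ext d
  constructor
  · rintro ⟨e, ⟨h1, h2⟩, rfl⟩
    exact ⟨h2, by simpa using h1⟩
  · rintro ⟨h1, h2⟩
    exact ⟨d.symm, ⟨h2, by simpa using h1⟩, by simp⟩

theorem b2_nn_left (X Y C : Set G.Dart) :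
    b2_nn X Y = b2_nn (X ∩ C) Y + b2_nn (X ∩ Cᶜ) Y := by
  unfold b2_nn
  rw [← Set.ncard_union_eq (by
    rw [Set.disjoint_left]
    rintro d ⟨⟨_, h1⟩, _⟩ ⟨⟨_, h2⟩, _⟩
    exact h2 h1)]
  congr 1
  ext d
  constructor
  · rintro ⟨h1, h2⟩
    by_cases hC : d ∈ C
    · exact Or.inl ⟨⟨h1, hC⟩, h2⟩
    · exact Or.inr ⟨⟨h1, hC⟩, h2⟩
  · rintro (⟨⟨h1, _⟩, h2⟩ | ⟨⟨h1, _⟩, h2⟩) <;> exact ⟨h1, h2⟩

theorem b2_nn_right (X Y C : Set G.Dart) :
    b2_nn X Y = b2_nn X (Y ∩ C) + b2_nn X (Y ∩ Cᶜ) := by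
  rw [b2_nn_symm X Y, b2_nn_left Y X C, b2_nn_symm (Y ∩ C), b2_nn_symm (Y ∩ Cᶜ)]

omit [Fintype V] in
theorem b2_bd_eq (X : Set G.Dart) : bd X = b2_nn X Xᶜ := rfl

/-- boundary of an intersection, split in three -/
theorem b2_bd_inter (X C : Set G.Dart) :
    bd (X ∩ C) = b2_nn (X ∩ C) (Xᶜ ∩ C) + b2_nn (X ∩ C) (X ∩ Cᶜ) +
      b2_nn (X ∩ C) (Xᶜ ∩ Cᶜ) := by
  rw [b2_bd_eq, b2_nn_right (X ∩ C) (X ∩ C)ᶜ C, b2_nn_right (X ∩ C) ((X ∩ C)ᶜ ∩ Cᶜ) X]
  have e1 : (X ∩ C)ᶜ ∩ C = Xᶜ ∩ C := by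
    ext d; simp only [Set.mem_inter_iff, Set.mem_compl_iff]; tauto
  have e2 : (X ∩ C)ᶜ ∩ Cᶜ ∩ X = X ∩ Cᶜ := by
    ext d; simp only [Set.mem_inter_iff, Set.mem_compl_iff]; tauto
  have e3 : (X ∩ C)ᶜ ∩ Cᶜ ∩ Xᶜ = Xᶜ ∩ Cᶜ := by
    ext d; simp only [Set.mem_inter_iff, Set.mem_compl_iff]; tauto
  rw [e1, e2, e3, add_assoc]

theorem b2_bd_four (X C : Set G.Dart) :
    bd X = b2_nn (X ∩ C) (Xᶜ ∩ C) + b2_nn (X ∩ C) (Xᶜ ∩ Cᶜ) + b2_nn (X ∩ Cᶜ) (Xᶜ ∩ C) +
      b2_nn (X ∩ Cᶜ) (Xᶜ ∩ Cᶜ) := by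
  rw [b2_bd_eq, b2_nn_left X Xᶜ C, b2_nn_right (X ∩ C) Xᶜ C, b2_nn_right (X ∩ Cᶜ) Xᶜ C]
  omega

theorem b2_nn_pos {X Y : Set G.Dart} {d : G.Dart} (h1 : d ∈ X) (h2 : d.symm ∈ Y) :
    1 ≤ b2_nn X Y := by
  unfold b2_nn
  exact (Set.ncard_pos (Set.toFinite _)).2 ⟨d, h1, h2⟩

theorem b2_nn_two {X Y : Set G.Dart} {d e : G.Dart} (hde : d ≠ e) (h1 : d ∈ X) (h2 : d.symm ∈ Y)
    (h3 : e ∈ X) (h4 : e.symm ∈ Y) : 2 ≤ b2_nn X Y := by
  unfold b2_nn
  exact (Set.one_lt_ncard (Set.toFinite _)).2 ⟨d, ⟨h1, h2⟩, e, ⟨h3, h4⟩, hde⟩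

omit [Fintype V] in
theorem b2_phi_apply (σ : Perm G.Dart) (d : G.Dart) : phi σ d = σ d.symm := rfl

omit [Fintype V] in
theorem b2_phi_fst (hr : IsRot G σ) (d : G.Dart) : (phi σ d).fst = d.snd := by
  rw [b2_phi_apply, hr.1]; rfl

omit [Fintype V] in
theorem b2_finv_compl {B : Set G.Dart} (hB : FInv σ B) : FInv σ Bᶜ :=
  fun d => not_congr (hB d)

omit [Fintype V] in
theorem b2_finv_inter {B C : Set G.Dart} (hB : FInv σ B) (hC : FInv σ C) : FInv σ (B ∩ C) :=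
  fun d => and_congr (hB d) (hC d)

omit [Fintype V] in
theorem b2_finv_pow {B : Set G.Dart} (hB : FInv σ B) (d : G.Dart) (m : ℕ) :
    d ∈ B ↔ (phi σ ^ m) d ∈ B := by
  induction m with
  | zero => simp
  | succ m ih => rw [pow_succ', Perm.mul_apply, ← hB]; exact ih

omit [Fintype V] in
theorem b2_intr_symm (hr : IsRot G σ) (hA : FInv σ A) {d : G.Dart} (hd : Intr A d.fst) :
    d.symm ∈ A := by
  rw [hA, b2_phi_apply]
  apply hd
  rw [hr.1]; simp

theorem b2_flen_pow (σ : Perm G.Dart) (d : G.Dart) (m : ℕ) :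
    flen σ ((phi σ ^ m) d) = flen σ d := by
  unfold flen
  have : (phi σ ^ m) d = (phi σ)^[m] d := by rw [Perm.iterate_eq_pow]
  rw [this]
  exact Function.minimalPeriod_apply_iterate
    (Function.Injective.mem_periodicPts (phi σ).injective d) m

theorem b2_deg (h : MinCE G L σ) {e : G.Dart} (h2 : σ (σ e) = e) : False := by
  have h1 := h.card_le_dg e
  have h3 := h.cls.1 e.fst
  have h4 := period_eq_dg h.rot e
  have h5 : Function.IsPeriodicPt σ 2 e := h2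
  have h6 := h5.minimalPeriod_le (by norm_num)
  omega

theorem b2_same (h : MinCE G L σ) {B : Set G.Dart} (hB : FInv σ B) (h6 : B.ncard ≤ 6)
    {d e : G.Dart} (hd : d ∈ B) (he : e ∈ B) (hde : d.fst = e.fst) : d = e := by
  obtain ⟨h1, h2⟩ := h.flen_eq_ncard hB (by omega) hd
  obtain ⟨i, _, rfl⟩ := h2 e he
  have := h.face_inj (d := d) (by omega) (i := 0) (j := i) (by simpa using hde)
  simpa using this

omit [Fintype V] in
theorem b2_bd_cycle {c : ℕ → G.Dart} {n : ℕ} (hn0 : 0 < n) (hc : CW c n)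
    (hinj : ∀ i j, i < n → j < n → (c i).fst = (c j).fst → i = j) {S : Set G.Dart}
    (hb : ∀ d, (d ∈ S ∧ d.symm ∉ S) ↔ ∃ i, d = c i) : bd S = n := by
  have hper : ∀ k i, c (i + n * k) = c i := by
    intro k
    induction k with
    | zero => simp
    | succ k ih => intro i; rw [Nat.mul_succ, ← add_assoc, hc.per, ih]
  have : {d | d ∈ S ∧ d.symm ∉ S} = c '' (Finset.range n : Set ℕ) := by
    ext d
    rw [Set.mem_ofPred_eq, hb]
    constructor
    · rintro ⟨i, rfl⟩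
      refine ⟨i % n, by simpa using Nat.mod_lt i hn0, ?_⟩
      conv_rhs => rw [← Nat.mod_add_div i n]
      rw [hper]
    · rintro ⟨i, _, rfl⟩
      exact ⟨i, rfl⟩
  unfold bd
  rw [this, Set.InjOn.ncard_image, Set.ncard_coe_finset, Finset.card_range]
  intro i hi j hj hij
  exact hinj i j (by simpa using hi) (by simpa using hj) (by rw [hij])

theorem b2_small {A1 : Set G.Dart} (h : MinCE G L σ) (hr : Reg σ A1 A) {P Q R : Set G.Dart}
    (hP : FInv σ P) (hQ : FInv σ Q) (hR : FInv σ R) (hPA : P ⊆ A1) (hQA : Q ⊆ A1)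
    (hQn : Q.Nonempty) (hRn : R.Nonempty) (hPQ : Disjoint P Q) (hRA : Disjoint A1 R)
    (h5 : bd P ≤ 5) : P.ncard = bd P := by
  have hne : P ≠ A1 := by
    rintro rfl
    obtain ⟨q, hq⟩ := hQn
    exact Set.disjoint_left.1 hPQ (hQA hq) hq
  rcases hr.min1 P hP hPA hne h5 with h1 | h1
  · exact le_antisymm h1 (bd_le_ncard P)
  · exfalso
    have h2 := h.four_le_ncard hQ hQn
    have h3 := h.four_le_ncard hR hRn
    have h4 : (Q ∪ R).ncard = Q.ncard + R.ncard :=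
      Set.ncard_union_eq (Set.disjoint_of_subset_left hQA hRA)
    have h6 : (Q ∪ R).ncard ≤ Pᶜ.ncard := by
      apply Set.ncard_le_ncard _ (Set.toFinite _)
      rintro d (hd | hd) hp
      · exact Set.disjoint_left.1 hPQ hp hd
      · exact Set.disjoint_left.1 hRA (hPA hp) hd
    omega

theorem b2_strong {A1 : Set G.Dart} (h : MinCE G L σ) (hr : Reg σ A1 A) {c : ℕ → G.Dart} {n : ℕ}
    (hn : n ≤ 5) (hn0 : 0 < n) (hc : CW c n) (hi : ∃ i, Intr A (c i).fst) :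
    ∃ f : G.Dart, flen σ f = n ∧
      ((∀ i, (c i ∈ A1 ∨ (c i).symm ∈ A1) → ∃ m : ℕ, c i = (phi σ ^ m) f) ∨
       (∀ i, (c i ∈ A1 ∨ (c i).symm ∈ A1) → ∃ m : ℕ, (c i).symm = (phi σ ^ m) f)) := by
  have hinj : ∀ i j, i < n → j < n → (c i).fst = (c j).fst → i = j :=
    fun i j hi hj hij => CW.inj h.tri hc (by omega) hi hj hij
  obtain ⟨S, hS, hb⟩ := jordan h.rot h.gen hn0 hc hinj
  have hbd : bd S = n := b2_bd_cycle hn0 hc hinj hb
  have hbdc : bd Sᶜ = n := by rw [bd_compl, hbd]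
  have hcS : ∀ i, c i ∈ S := fun i => ((hb _).2 ⟨i, rfl⟩).1
  have hcS' : ∀ i, (c i).symm ∈ Sᶜ := fun i => ((hb _).2 ⟨i, rfl⟩).2
  have hSc := b2_finv_compl hS
  obtain ⟨i, hi⟩ : ∃ i, Intr A (c (i + 1)).fst := by
    obtain ⟨i, hi⟩ := hi
    refine ⟨i + n - 1, ?_⟩
    rw [show i + n - 1 + 1 = i + n by omega, hc.per]
    exact hi
  have hi' : Intr A (c i).symm.fst := by
    have : (c i).symm.fst = (c (i + 1)).fst := hc.chain i
    rw [this]; exact hi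
  have a1 : c (i + 1) ∈ A1 := hr.sub (hi _ rfl)
  have a2 : (c (i + 1)).symm ∈ A1 := hr.sub (b2_intr_symm h.rot hr.inv hi)
  have a3 : (c i).symm ∈ A1 := hr.sub (hi' _ rfl)
  have a4 : c i ∈ A1 := by
    have := hr.sub (b2_intr_symm h.rot hr.inv hi')
    simpa using this
  -- the easy alternative
  have easy : S.ncard ≤ n ∨ Sᶜ.ncard ≤ n → ∃ f : G.Dart, flen σ f = n ∧
      ((∀ i, (c i ∈ A1 ∨ (c i).symm ∈ A1) → ∃ m : ℕ, c i = (phi σ ^ m) f) ∨
       (∀ i, (c i ∈ A1 ∨ (c i).symm ∈ A1) → ∃ m : ℕ, (c i).symm = (phi σ ^ m) f)) := by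
    rintro (h1 | h1)
    · obtain ⟨h2, h3⟩ := h.flen_eq_ncard hS (by omega) (hcS 0)
      have h4 := bd_le_ncard S
      refine ⟨c 0, by omega, Or.inl fun j _ => ?_⟩
      obtain ⟨m, _, hm⟩ := h3 _ (hcS j)
      exact ⟨m, hm⟩
    · obtain ⟨h2, h3⟩ := h.flen_eq_ncard hSc (by omega) (hcS' 0)
      have h4 := bd_le_ncard Sᶜ
      refine ⟨(c 0).symm, by omega, Or.inr fun j _ => ?_⟩
      obtain ⟨m, _, hm⟩ := h3 _ (hcS' j)
      exact ⟨m, hm⟩
  by_cases hR : (S ∩ A1ᶜ).Nonempty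
  swap
  · have hsub : S ⊆ A1 := fun d hd => by
      by_contra hd'
      exact hR ⟨d, hd, hd'⟩
    have hne : S ≠ A1 := by
      intro he
      exact hcS' i (he ▸ a3)
    have := hr.min1 S hS hsub hne (by omega)
    rw [hbd] at this
    exact easy this
  by_cases hT : (Sᶜ ∩ A1ᶜ).Nonempty
  swap
  · have hsub : Sᶜ ⊆ A1 := fun d hd => by
      by_contra hd'
      exact hT ⟨d, hd, hd'⟩
    have hne : Sᶜ ≠ A1 := by
      intro he
      have : c i ∈ Sᶜ := he ▸ a4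
      exact this (hcS i)
    have := hr.min1 Sᶜ hSc hsub hne (by omega)
    rw [hbdc, compl_compl] at this
    exact easy this.symm
  have hl1 : bd A1 ≤ 5 := by
    rcases hr.lvl1 with h1 | h1
    · obtain ⟨d, _, hd⟩ := hR
      exact absurd (h1 ▸ Set.mem_univ d) hd
    · exact h1.1
  have hA1c := b2_finv_compl hr.inv1
  have fP := b2_finv_inter hS hr.inv1
  have fQ := b2_finv_inter hSc hr.inv1
  have fR := b2_finv_inter hS hA1c
  have fT := b2_finv_inter hSc hA1c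
  have pP : c i ∈ S ∩ A1 := ⟨hcS i, a4⟩
  have pP' : c (i + 1) ∈ S ∩ A1 := ⟨hcS _, a1⟩
  have pQ : (c i).symm ∈ Sᶜ ∩ A1 := ⟨hcS' i, a3⟩
  have pQ' : (c (i + 1)).symm ∈ Sᶜ ∩ A1 := ⟨hcS' _, a2⟩
  have bP := h.four_le_bd fP ⟨_, pP⟩ ⟨(c i).symm, fun hh => hcS' i hh.1⟩
  have bQ := h.four_le_bd fQ ⟨_, pQ⟩ ⟨c i, fun hh => hh.1 (hcS i)⟩
  have bR := h.four_le_bd fR hR ⟨c i, fun hh => hh.2 a4⟩
  have bT := h.four_le_bd fT hT ⟨c i, fun hh => hh.2 a4⟩
  have eS := b2_bd_four S A1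
  have eA := b2_bd_four A1 S
  have eP := b2_bd_inter S A1
  have eQ := b2_bd_inter Sᶜ A1
  have eR := b2_bd_inter S A1ᶜ
  have eT := b2_bd_inter Sᶜ A1ᶜ
  simp only [compl_compl] at eQ eR eT
  rw [Set.inter_comm A1 S, Set.inter_comm A1 Sᶜ, Set.inter_comm A1ᶜ S,
    Set.inter_comm A1ᶜ Sᶜ] at eA
  have s1 := b2_nn_symm (S ∩ A1) (Sᶜ ∩ A1)
  have s2 := b2_nn_symm (S ∩ A1) (S ∩ A1ᶜ)
  have s3 := b2_nn_symm (S ∩ A1) (Sᶜ ∩ A1ᶜ)
  have s4 := b2_nn_symm (Sᶜ ∩ A1) (S ∩ A1ᶜ)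
  have s5 := b2_nn_symm (Sᶜ ∩ A1) (Sᶜ ∩ A1ᶜ)
  have s6 := b2_nn_symm (S ∩ A1ᶜ) (Sᶜ ∩ A1ᶜ)
  have hne : c i ≠ c (i + 1) := by
    intro he
    have h1 := hc.chain i
    rw [← he] at h1
    exact (c i).adj.ne h1.symm
  have hj := b2_nn_two hne pP pQ pP' pQ'
  have dPQ : Disjoint (S ∩ A1) (Sᶜ ∩ A1) :=
    Set.disjoint_left.2 fun d h1 h2 => h2.1 h1.1
  have dR : Disjoint A1 (S ∩ A1ᶜ) := Set.disjoint_left.2 fun d h1 h2 => h2.2 h1
  have smP : bd (S ∩ A1) ≤ 5 → (S ∩ A1).ncard = bd (S ∩ A1) :=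
    b2_small h hr fP fQ fR Set.inter_subset_right Set.inter_subset_right ⟨_, pQ⟩ hR dPQ dR
  have smQ : bd (Sᶜ ∩ A1) ≤ 5 → (Sᶜ ∩ A1).ncard = bd (Sᶜ ∩ A1) :=
    b2_small h hr fQ fP fR Set.inter_subset_right Set.inter_subset_right ⟨_, pP⟩ hR dPQ.symm dR
  by_cases hj2 : b2_nn (S ∩ A1) (Sᶜ ∩ A1) = 2
  · exfalso
    have k1 := smP (by omega)
    have k2 := smQ (by omega)
    have e1 : phi σ (c i) = c (i + 1) :=
      b2_same h fP (by omega) ((fP _).1 pP) pP' (by rw [b2_phi_fst h.rot, hc.chain])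
    have e2 : phi σ (c (i + 1)).symm = (c i).symm :=
      b2_same h fQ (by omega) ((fQ _).1 pQ') pQ (by
        rw [b2_phi_fst h.rot]; exact (hc.chain i).symm)
    rw [b2_phi_apply] at e1 e2
    rw [SimpleGraph.Dart.symm_symm] at e2
    exact b2_deg h (e := c (i + 1)) (by rw [e2, e1])
  have hPT : b2_nn (S ∩ A1) (Sᶜ ∩ A1ᶜ) = 0 := by omega
  have hRQ : b2_nn (S ∩ A1ᶜ) (Sᶜ ∩ A1) = 0 := by omega
  have both : ∀ k, (c k ∈ A1 ∨ (c k).symm ∈ A1) → c k ∈ A1 ∧ (c k).symm ∈ A1 := by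
    intro k hk
    by_cases k1 : c k ∈ A1
    · refine ⟨k1, ?_⟩
      by_contra k2
      have := b2_nn_pos (X := S ∩ A1) (Y := Sᶜ ∩ A1ᶜ) ⟨hcS k, k1⟩ ⟨hcS' k, k2⟩
      omega
    · exfalso
      have := b2_nn_pos (X := S ∩ A1ᶜ) (Y := Sᶜ ∩ A1) ⟨hcS k, k1⟩ ⟨hcS' k, hk.resolve_left k1⟩
      omega
  by_cases h5 : bd (S ∩ A1) = 5
  · have k1 := smP (by omega)
    obtain ⟨h2, h3⟩ := h.flen_eq_ncard fP (by omega) pP
    refine ⟨c i, by omega, Or.inl fun k hk => ?_⟩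
    obtain ⟨m, _, hm⟩ := h3 _ ⟨hcS k, (both k hk).1⟩
    exact ⟨m, hm⟩
  · have h5' : bd (Sᶜ ∩ A1) = 5 := by omega
    have k1 := smQ (by omega)
    obtain ⟨h2, h3⟩ := h.flen_eq_ncard fQ (by omega) pQ
    refine ⟨(c i).symm, by omega, Or.inr fun k hk => ?_⟩
    obtain ⟨m, _, hm⟩ := h3 _ ⟨hcS' k, (both k hk).2⟩
    exact ⟨m, hm⟩

theorem b2 (h : Ctx G L σ A) {c : ℕ → G.Dart} {n : ℕ} (hn : n ≤ 5) (hn0 : 0 < n)
    (hc : CW c n) :
    (∀ i, Intr A (c (i + 1)).fst → phi σ (c i) = c (i + 1) ∧ flen σ (c (i + 1)) = n) ∨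
    (∀ i, Intr A (c (i + 1)).fst →
      phi σ (c (i + 1)).symm = (c i).symm ∧ flen σ (c i).symm = n) := by
  by_cases hi : ∃ i, Intr A (c i).fst
  swap
  · exact Or.inl fun i hi' => absurd ⟨i + 1, hi'⟩ hi
  obtain ⟨A1, hr⟩ := h.reg
  obtain ⟨f, hf, halt⟩ := b2_strong h.ce hr hn hn0 hc hi
  have mem : ∀ i, Intr A (c (i + 1)).fst → c (i + 1) ∈ A1 ∧ (c i).symm ∈ A1 := fun i hi =>
    ⟨hr.sub (hi _ rfl), hr.sub (hi _ (hc.chain i))⟩
  rcases halt with halt | halt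
  · refine Or.inl fun i hi => ?_
    obtain ⟨m, hm⟩ := halt i (Or.inr (mem i hi).2)
    obtain ⟨m', hm'⟩ := halt (i + 1) (Or.inl (mem i hi).1)
    have e1 : phi σ (c i) = (phi σ ^ (m + 1)) f := by rw [pow_succ', Perm.mul_apply, hm]
    refine ⟨?_, by rw [hm', b2_flen_pow, hf]⟩
    have e2 : (phi σ (c i)).fst = (c (i + 1)).fst := by rw [b2_phi_fst h.ce.rot, hc.chain]
    rw [e1, hm'] at e2 ⊢
    exact h.ce.face_inj (by omega) e2
  · refine Or.inr fun i hi => ?_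
    obtain ⟨m, hm⟩ := halt i (Or.inr (mem i hi).2)
    obtain ⟨m', hm'⟩ := halt (i + 1) (Or.inl (mem i hi).1)
    have e1 : phi σ (c (i + 1)).symm = (phi σ ^ (m' + 1)) f := by
      rw [pow_succ', Perm.mul_apply, hm']
    refine ⟨?_, by rw [hm, b2_flen_pow, hf]⟩
    have e2 : (phi σ (c (i + 1)).symm).fst = (c i).symm.fst := by
      rw [b2_phi_fst h.ce.rot]; exact (hc.chain i).symm
    rw [e1, hm] at e2 ⊢
    exact h.ce.face_inj (by omega) e2

omit [Fintype V] in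
theorem b2_tri (ht : G.CliqueFree 3) {a b c : V} (h1 : G.Adj a b) (h2 : G.Adj b c)
    (h3 : G.Adj a c) : False := by
  classical
  exact ht {a, b, c} (SimpleGraph.is3Clique_triple_iff.2 ⟨h1, h3, h2⟩)

theorem b2_five (h : Ctx G L σ A) (d : G.Dart) (h4 : flen σ d = 4)
    (hi : Intr A d.fst ∨ Intr A (phi σ d).fst ∨ Intr A (phi σ (phi σ d)).fst) {a b : V}
    (hxa : G.Adj d.fst a) (hab : G.Adj a b) (hby : G.Adj b (phi σ (phi σ d)).fst) : False := by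
  obtain ⟨A1, hr⟩ := h.reg
  have hrot := h.ce.rot
  let c2 : G.Dart := ⟨((phi σ (phi σ d)).fst, b), hby.symm⟩
  let c3 : G.Dart := ⟨(b, a), hab.symm⟩
  let c4 : G.Dart := ⟨(a, d.fst), hxa.symm⟩
  let c : ℕ → G.Dart := fun i =>
    if i % 5 = 0 then d else if i % 5 = 1 then phi σ d else if i % 5 = 2 then c2 else
      if i % 5 = 3 then c3 else c4
  have hc : CW c 5 := by
    apply cw_five h.ce.tri
    · intro i
      have h5 : i % 5 < 5 := Nat.mod_lt _ (by norm_num)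
      have h6 : (i + 1) % 5 = (i % 5 + 1) % 5 := by omega
      simp only [c, h6]
      generalize i % 5 = r at h5
      interval_cases r
      · simp [b2_phi_fst hrot]
      · simp [c2, b2_phi_fst hrot]
      · simp [c2, c3]
      · simp [c3, c4]
      · simp [c4]
    · intro i
      simp only [c, Nat.add_mod_right]
  have c0 : c 0 = d := by simp [c]
  have c1 : c 1 = phi σ d := by simp [c]
  have c2' : (c 2).fst = (phi σ (phi σ d)).fst := by simp [c, c2]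
  have hint : ∃ i, Intr A (c i).fst := by
    rcases hi with hi | hi | hi
    · exact ⟨0, by rw [c0]; exact hi⟩
    · exact ⟨1, by rw [c1]; exact hi⟩
    · exact ⟨2, by rw [c2']; exact hi⟩
  have hdA : d ∈ A := by
    rcases hi with hi | hi | hi
    · exact hi _ rfl
    · exact (hr.inv d).2 (hi _ rfl)
    · exact (hr.inv d).2 ((hr.inv _).2 (hi _ rfl))
  have hd1 : c 0 ∈ A1 := by rw [c0]; exact hr.sub hdA
  have hd2 : c 1 ∈ A1 := by rw [c1]; exact hr.sub ((hr.inv d).1 hdA)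
  obtain ⟨f, hf, halt⟩ := b2_strong h.ce hr le_rfl (by norm_num) hc hint
  rcases halt with halt | halt
  · obtain ⟨m, hm⟩ := halt 0 (Or.inl hd1)
    rw [c0] at hm
    rw [hm, b2_flen_pow, hf] at h4
    omega
  · obtain ⟨m, hm⟩ := halt 0 (Or.inl hd1)
    obtain ⟨m', hm'⟩ := halt 1 (Or.inl hd2)
    rw [c0] at hm
    rw [c1] at hm'
    have e1 : phi σ (phi σ d).symm = (phi σ ^ (m' + 1)) f := by
      rw [pow_succ', Perm.mul_apply, hm']
    have e2 : (phi σ (phi σ d).symm).fst = d.symm.fst := by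
      rw [b2_phi_fst hrot]
      exact b2_phi_fst hrot d
    have e3 : phi σ (phi σ d).symm = d.symm := by
      rw [e1, hm] at e2 ⊢
      exact h.ce.face_inj (by omega) e2
    rw [b2_phi_apply, SimpleGraph.Dart.symm_symm, b2_phi_apply] at e3
    exact b2_deg h.ce e3

theorem b2_dlem (h : Ctx G L σ A) (d : G.Dart) (h4 : flen σ d = 4)
    (hi : Intr A d.fst ∨ Intr A (phi σ d).fst ∨ Intr A (phi σ (phi σ d)).fst) :
    L d.fst ≠ L (phi σ (phi σ d)).fst := by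
  classical
  intro hL
  have hrot := h.ce.rot
  set x := d.fst with hx
  set y := (phi σ (phi σ d)).fst with hy
  have hxn : G.Adj x d.snd := d.adj
  have hny : G.Adj d.snd y := by
    have := (phi σ d).adj
    rwa [b2_phi_fst hrot, ← b2_phi_fst hrot (phi σ d)] at this
  have hxy : x ≠ y := by
    intro he
    have e1 := h.ce.face_inj (d := d) (by omega) (i := 0) (j := 2) (by
      simpa [pow_succ] using he)
    have e2 : Function.IsPeriodicPt (phi σ) 2 d := by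
      have : (phi σ ^ 2) d = phi σ (phi σ d) := by simp [pow_succ]
      rw [this] at e1
      exact e1.symm
    have e3 := e2.minimalPeriod_le (by norm_num)
    unfold flen at h4
    omega
  have hnadj : ¬ G.Adj x y := fun ha => b2_tri h.ce.tri hxn hny ha
  let π : V → V := fun v => if v = y then x else v
  have hπy : π y = x := by simp [π]
  have hπ : ∀ v, v ≠ y → π v = v := fun v hv => by simp [π, hv]
  have hπL : ∀ v, L (π v) = L v := by
    intro v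
    by_cases hv : v = y
    · rw [hv, hπy, hL]
    · rw [hπ v hv]
  have hπne : ∀ a b, G.Adj a b → π a ≠ π b := by
    intro a b hab
    by_cases ha : a = y
    · have hb : b ≠ y := fun hb => hab.ne (ha.trans hb.symm)
      rw [ha, hπy, hπ b hb]
      intro he
      exact hnadj (by rw [he, ← ha]; exact hab.symm)
    · by_cases hb : b = y
      · rw [hb, hπy, hπ a ha]
        intro he
        exact hnadj (by rw [← he, ← hb]; exact hab)
      · rw [hπ a ha, hπ b hb]; exact hab.ne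
  let H : SimpleGraph V :=
    { Adj := fun u v => ∃ a b, G.Adj a b ∧ π a = u ∧ π b = v
      symm := ⟨fun u v ⟨a, b, hab, ha, hb⟩ => ⟨b, a, hab.symm, hb, ha⟩⟩
      loopless := ⟨fun u ⟨a, b, hab, ha, hb⟩ => hπne a b hab (ha.trans hb.symm)⟩ }
  have hH : ∀ u v, H.Adj u v ↔ ∃ a b, G.Adj a b ∧ π a = u ∧ π b = v := fun u v => Iff.rfl
  have hpl : Pl H := pl_merge hrot h.ce.gen d (phi σ (phi σ d))
    ⟨2, by simp [zpow_ofNat, pow_succ]⟩ π hπy hπ H fun u v huv => (hH u v).1 huv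
  have hInC : InC H L := by
    refine ⟨h.ce.cls.1, ?_⟩
    rintro u v ⟨a, b, hab, rfl, rfl⟩ h3
    rw [hπL] at h3 ⊢
    rw [hπL]
    exact h.ce.cls.2 a b hab h3
  have hsupp : H.support.ncard < G.support.ncard := by
    apply Set.ncard_lt_ncard _ (Set.toFinite _)
    have hsub : H.support ⊆ G.support := by
      rintro u ⟨v, a, b, hab, rfl, -⟩
      by_cases ha : a = y
      · rw [ha, hπy]; exact ⟨_, hxn⟩
      · rw [hπ a ha]; exact ⟨_, hab⟩
    refine (Set.ssubset_iff_of_subset hsub).2 ⟨y, ⟨_, hny.symm⟩, ?_⟩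
    rintro ⟨v, a, b, hab, ha', -⟩
    by_cases ha : a = y
    · rw [ha, hπy] at ha'; exact hxy ha'
    · rw [hπ a ha] at ha'; exact ha ha'
  have hlift : ∀ a u, π a = u → u ≠ x → a = u := by
    intro a u ha hu
    by_cases hay : a = y
    · rw [hay, hπy] at ha; exact absurd ha.symm hu
    · rw [hπ a hay] at ha; exact ha
  have hliftx : ∀ a, π a = x → a = x ∨ a = y := by
    intro a ha
    by_cases hay : a = y
    · exact Or.inr hay
    · rw [hπ a hay] at ha; exact Or.inl ha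
  have key : ∀ u v, H.Adj x u → H.Adj x v → H.Adj u v → False := by
    intro u v h1 h2 h3
    have hu : u ≠ x := h1.ne.symm
    have hv : v ≠ x := h2.ne.symm
    obtain ⟨a1, b1, g1, p1, q1⟩ := h1
    obtain ⟨a2, b2, g2, p2, q2⟩ := h2
    obtain ⟨a3, b3, g3, p3, q3⟩ := h3
    rw [hlift _ _ q1 hu] at g1
    rw [hlift _ _ q2 hv] at g2
    rw [hlift _ _ p3 hu, hlift _ _ q3 hv] at g3
    rcases hliftx _ p1 with r1 | r1 <;> rcases hliftx _ p2 with r2 | r2 <;>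
      rw [r1] at g1 <;> rw [r2] at g2
    · exact b2_tri h.ce.tri g1 g3 g2
    · exact b2_five h d h4 hi g1 g3 g2.symm
    · exact b2_five h d h4 hi g2 g3.symm g1.symm
    · exact b2_tri h.ce.tri g1 g3 g2
  have htri : H.CliqueFree 3 := by
    intro s hs
    obtain ⟨u, v, w, huv, huw, hvw, -⟩ := SimpleGraph.is3Clique_iff.1 hs
    by_cases hu : u = x
    · rw [hu] at huv huw; exact key v w huv huw hvw
    by_cases hv : v = x
    · rw [hv] at huv hvw; exact key u w huv.symm hvw huw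
    by_cases hw : w = x
    · rw [hw] at huw hvw; exact key u v huw.symm hvw.symm huv
    obtain ⟨a1, b1, g1, p1, q1⟩ := huv
    obtain ⟨a2, b2, g2, p2, q2⟩ := huw
    obtain ⟨a3, b3, g3, p3, q3⟩ := hvw
    rw [hlift _ _ p1 hu, hlift _ _ q1 hv] at g1
    rw [hlift _ _ p2 hu, hlift _ _ q2 hw] at g2
    rw [hlift _ _ p3 hv, hlift _ _ q3 hw] at g3
    exact b2_tri h.ce.tri g1 g3 g2
  obtain ⟨col, hc1, hc2⟩ := h.ce.min1 H L hpl htri hInC hsupp
  refine h.ce.ncol ⟨fun v => col (π v), fun v => ?_, fun u v huv => ?_⟩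
  · rw [← hπL v]; exact hc1 _
  · exact hc2 _ _ ⟨u, v, huv, rfl, rfl⟩

theorem dlem (h : Ctx G L σ A) (d : G.Dart) (h4 : flen σ d = 4)
    (hi : ∃ i : ℕ, Intr A ((phi σ ^ i) d).fst) : L d.fst ≠ L (phi σ (phi σ d)).fst := by
  have hper : (phi σ ^ 4) d = d := by
    have := Function.iterate_minimalPeriod (f := phi σ) (x := d)
    unfold flen at h4
    rw [h4, Perm.iterate_eq_pow] at this
    exact this
  have hper' : phi σ (phi σ (phi σ (phi σ d))) = d := by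
    simpa [pow_succ] using hper
  have hmod : ∀ k r, (phi σ ^ (r + 4 * k)) d = (phi σ ^ r) d := by
    intro k r
    induction k with
    | zero => simp
    | succ k ih =>
      rw [Nat.mul_succ, ← add_assoc, pow_add, Perm.mul_apply, hper, ih]
  obtain ⟨i, hi⟩ := hi
  rw [← Nat.mod_add_div i 4, hmod] at hi
  have h5 : i % 4 < 4 := Nat.mod_lt _ (by norm_num)
  generalize i % 4 = r at h5 hi
  interval_cases r
  · exact b2_dlem h d h4 (Or.inl (by simpa using hi))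
  · exact b2_dlem h d h4 (Or.inr (Or.inl (by simpa using hi)))
  · exact b2_dlem h d h4 (Or.inr (Or.inr (by simpa [pow_succ] using hi)))
  · have h6 : flen σ (phi σ (phi σ d)) = 4 := by
      have := b2_flen_pow σ d 2
      rw [h4] at this
      simpa [pow_succ] using this
    have := b2_dlem h (phi σ (phi σ d)) h6 (Or.inr (Or.inl (by simpa [pow_succ] using hi)))
    rw [hper'] at this
    exact this.symm

end Pool.Agent.Lib.MP_bfaad3_co
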