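import Mathlib

set_option autoImplicit false

namespace Pool.Agent.Lib.MP_bfaad3_co

open Equiv

/-- number of cycles of a permutation, fixed points included -/
noncomputable def cyc {D : Type*} (π : Perm D) : ℕ :=
  Nat.card (Quotient (Perm.SameCycle.setoid π))

/-- the equivalence relation generated by two permutations -/
def conn {D : Type*} (a b : Perm D) : Setoid D :=
  Relation.EqvGen.setoid fun x y => y = a x ∨ y = b x

/-- number of orbits of the group generated by two permutations -/
noncomputable def comp {D : Type*} (a b : Perm D) : ℕ := Nat.card (Quotient (conn a b))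

/-- the hypermap `(a, b, a * b)` has genus zero -/
def Gen0 {D : Type*} (a b : Perm D) : Prop :=
  Nat.card D + 2 * comp a b ≤ cyc a + cyc b + cyc (a * b)

/-- reversal of darts -/
def alpha {V : Type*} (G : SimpleGraph V) : Perm G.Dart :=
  Function.Involutive.toPerm SimpleGraph.Dart.symm SimpleGraph.Dart.symm_involutive

/-- a rotation system: a cyclic order of the darts leaving each vertex -/
def IsRot {V : Type*} (G : SimpleGraph V) (σ : Perm G.Dart) : Prop :=
  (∀ d : G.Dart, (σ d).fst = d.fst) ∧ ∀ d e : G.Dart, d.fst = e.fst → σ.SameCycle d e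

/-- planarity: some rotation system satisfies Euler's formula on every component
(an isolated vertex has no dart, and its single face is counted separately) -/
def IsPlanar {V : Type*} (G : SimpleGraph V) : Prop :=
  ∃ σ : Perm G.Dart, IsRot G σ ∧
    Nat.card V + cyc (σ * alpha G) + Nat.card {v : V // ∀ w, ¬ G.Adj v w} =
      Nat.card G.edgeSet + 2 * Nat.card G.ConnectedComponent

/-- working form of planarity -/
def Pl {V : Type*} (G : SimpleGraph V) : Prop :=
  ∃ σ : Perm G.Dart, IsRot G σ ∧ Gen0 σ (alpha G)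

/-- the class of list assignments used in the induction -/
def InC {V : Type*} (G : SimpleGraph V) (L : V → Finset ℕ) : Prop :=
  (∀ v, 3 ≤ (L v).card) ∧ ∀ u v, G.Adj u v → (L u).card = 3 → L u ⊆ L v

/-- `G` has an `L`-colouring -/
def Col {V : Type*} (G : SimpleGraph V) (L : V → Finset ℕ) : Prop :=
  ∃ c : V → ℕ, (∀ v, c v ∈ L v) ∧ ∀ u v, G.Adj u v → c u ≠ c v

/-- a minimal counterexample -/
structure MinCE {V : Type*} [Fintype V] (G : SimpleGraph V) (L : V → Finset ℕ)
    (σ : Perm G.Dart) : Prop where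
  rot : IsRot G σ
  gen : Gen0 σ (alpha G)
  tri : G.CliqueFree 3
  cls : InC G L
  ncol : ¬ Col G L
  min1 : ∀ (H : SimpleGraph V) (M : V → Finset ℕ), Pl H → H.CliqueFree 3 → InC H M →
    H.support.ncard < G.support.ncard → Col H M
  min2 : ∀ M : V → Finset ℕ, InC G M → ∑ v, (M v).card < ∑ v, (L v).card → Col G M

/-- face successor -/
def phi {V : Type*} {G : SimpleGraph V} (σ : Perm G.Dart) : Perm G.Dart := σ * alpha G

/-- length of the face of a dart -/
noncomputable def flen {V : Type*} {G : SimpleGraph V} (σ : Perm G.Dart) (d : G.Dart) : ℕ :=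
  Function.minimalPeriod (phi σ) d

/-- degree -/
noncomputable def dg {V : Type*} (G : SimpleGraph V) (v : V) : ℕ := (G.neighborSet v).ncard

/-- a union of faces -/
def FInv {V : Type*} {G : SimpleGraph V} (σ : Perm G.Dart) (A : Set G.Dart) : Prop :=
  ∀ d, d ∈ A ↔ phi σ d ∈ A

/-- boundary length of a set of darts -/
noncomputable def bd {V : Type*} {G : SimpleGraph V} (A : Set G.Dart) : ℕ :=
  {d | d ∈ A ∧ d.symm ∉ A}.ncard

/-- a single 6-face, or a union of 4-faces -/
def Quiet {V : Type*} {G : SimpleGraph V} (σ : Perm G.Dart) (W : Set G.Dart) : Prop :=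
  W.ncard = 6 ∨ ∀ d ∈ W, flen σ d = 4

/-- `A` is the region in which the discharging takes place -/
structure Reg {V : Type*} {G : SimpleGraph V} (σ : Perm G.Dart) (A1 A : Set G.Dart) : Prop where
  inv1 : FInv σ A1
  inv : FInv σ A
  sub : A ⊆ A1
  lvl1 : A1 = Set.univ ∨ (bd A1 ≤ 5 ∧ bd A1 < A1.ncard ∧ bd A1 < A1ᶜ.ncard)
  min1 : ∀ B, FInv σ B → B ⊆ A1 → B ≠ A1 → bd B ≤ 5 → B.ncard ≤ bd B ∨ Bᶜ.ncard ≤ bd B
  lvl2 : (A = A1 ∧ ∀ W, FInv σ W → W ⊆ A1 → bd W = 6 → Quiet σ W) ∨
    (bd A = 6 ∧ ¬ Quiet σ A ∧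
      ∀ W, FInv σ W → W ⊆ A1 → bd W = 6 → W.ncard < A.ncard → Quiet σ W)

/-- interior vertices of a region -/
def Intr {V : Type*} {G : SimpleGraph V} (A : Set G.Dart) (v : V) : Prop :=
  ∀ d : G.Dart, d.fst = v → d ∈ A

/-- minimal counterexample together with a region -/
structure Ctx {V : Type*} [Fintype V] (G : SimpleGraph V) (L : V → Finset ℕ)
    (σ : Perm G.Dart) (A : Set G.Dart) : Prop where
  ce : MinCE G L σ
  reg : ∃ A1, Reg σ A1 A

/-- a closed walk of length `n` without backtracking, as a periodic sequence of darts -/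
structure CW {V : Type*} {G : SimpleGraph V} (c : ℕ → G.Dart) (n : ℕ) : Prop where
  chain : ∀ i, (c i).snd = (c (i + 1)).fst
  per : ∀ i, c (i + n) = c i
  nb : ∀ i, c (i + 1) ≠ (c i).symm

/-- `e` lies in the half-open arc `(a, b]` of the rotation -/
def Arc {D : Type*} (σ : Perm D) (a b e : D) : Prop :=
  ∃ m, 1 ≤ m ∧ (σ ^ m) a = e ∧ ∀ t, 1 ≤ t → t < m → (σ ^ t) a ≠ b

open Classical in
/-- the involution `a` restricted to a set and the identity elsewhere -/
noncomputable def restr {D : Type*} (a : Perm D) (ha : ∀ d, a (a d) = d) (I : Set D)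
    (hI : ∀ d, d ∈ I ↔ a d ∈ I) : Perm D :=
  Function.Involutive.toPerm (fun d => if d ∈ I then a d else d) (by
    intro d
    by_cases h : d ∈ I
    · have := (hI d).1 h
      simp [h, this, ha]
    · simp [h])

end Pool.Agent.Lib.MP_bfaad3_co
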