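import Pool.Agent.Lib.MP_bfaad3_co.Region

set_option autoImplicit false

namespace Pool.Agent.Lib.MP_bfaad3_co

open Equiv

section orbit

variable {D : Type*}

/-- sum of `u` along the orbit of `d` -/
noncomputable def disOS (p : Perm D) (u : D → ℤ) (d : D) : ℤ :=
  ∑ i ∈ Finset.range (Function.minimalPeriod p d), u ((p ^ i) d)

theorem dis_pos [Finite D] (p : Perm D) (d : D) : 0 < Function.minimalPeriod p d :=
  Function.minimalPeriod_pos_of_mem_periodicPts (p.injective.mem_periodicPts d)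

theorem dis_mod (p : Perm D) (d : D) (i : ℕ) :
    (p ^ (i % Function.minimalPeriod p d)) d = (p ^ i) d := by
  rw [Perm.coe_pow, Perm.coe_pow]
  exact Function.iterate_mod_minimalPeriod_eq

theorem dis_succ (p : Perm D) (d : D) (i : ℕ) : (p ^ (i + 1)) d = p ((p ^ i) d) := by
  rw [pow_succ', Perm.mul_apply]

theorem dis_succ' (p : Perm D) (d : D) (i : ℕ) : (p ^ (i + 1)) d = (p ^ i) (p d) := by
  rw [pow_succ, Perm.mul_apply]

theorem dis_add (p : Perm D) (d : D) (i j : ℕ) : (p ^ (i + j)) d = (p ^ i) ((p ^ j) d) := by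
  rw [pow_add, Perm.mul_apply]

theorem dis_self (p : Perm D) (d : D) : (p ^ Function.minimalPeriod p d) d = d := by
  rw [← dis_mod, Nat.mod_self, pow_zero, Perm.one_apply]

theorem dis_per_apply [Finite D] (p : Perm D) (d : D) :
    Function.minimalPeriod p (p d) = Function.minimalPeriod p d :=
  Function.minimalPeriod_apply (p.injective.mem_periodicPts d)

theorem dis_per_pow [Finite D] (p : Perm D) (d : D) (i : ℕ) :
    Function.minimalPeriod p ((p ^ i) d) = Function.minimalPeriod p d := by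
  induction i with
  | zero => rfl
  | succ i ih => rw [dis_succ, dis_per_apply, ih]

theorem disOS_apply [Finite D] (p : Perm D) (u : D → ℤ) (d : D) :
    disOS p u (p d) = disOS p u d := by
  unfold disOS
  rw [dis_per_apply]
  have h1 := Finset.sum_range_succ (fun i => u ((p ^ i) d)) (Function.minimalPeriod p d)
  have h2 := Finset.sum_range_succ' (fun i => u ((p ^ i) d)) (Function.minimalPeriod p d)
  simp only [dis_succ', dis_self, pow_zero, Perm.one_apply] at h1 h2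
  linarith

theorem disOS_pow [Finite D] (p : Perm D) (u : D → ℤ) (d : D) (i : ℕ) :
    disOS p u ((p ^ i) d) = disOS p u d := by
  induction i with
  | zero => rfl
  | succ i ih => rw [dis_succ, disOS_apply, ih]

theorem dis_mem_pow (p : Perm D) (S : Finset D) (hS : ∀ d, d ∈ S ↔ p d ∈ S) (d : D) (i : ℕ) :
    d ∈ S ↔ (p ^ i) d ∈ S := by
  induction i with
  | zero => rfl
  | succ i ih => rw [dis_succ, ← hS, ih]

/-- averaging over orbits -/
theorem dis_avg [Finite D] (p : Perm D) (u : D → ℤ) (S : Finset D)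
    (hS : ∀ d, d ∈ S ↔ p d ∈ S) :
    ∑ d ∈ S, (disOS p u d : ℚ) / (Function.minimalPeriod p d : ℚ) = ∑ d ∈ S, (u d : ℚ) := by
  classical
  set N := S.sup (Function.minimalPeriod p) with hN
  set F : ℕ → D → ℚ := fun i d =>
    if i < Function.minimalPeriod p d then (u d : ℚ) / (Function.minimalPeriod p d : ℚ) else 0
    with hF
  have hfil : ∀ d ∈ S, (Finset.range N).filter (fun i => i < Function.minimalPeriod p d) =
      Finset.range (Function.minimalPeriod p d) := by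
    intro d hd
    have := Finset.le_sup (f := Function.minimalPeriod p) hd
    ext i
    simp only [Finset.mem_filter, Finset.mem_range]
    omega
  have h1 : ∀ d ∈ S, (disOS p u d : ℚ) / (Function.minimalPeriod p d : ℚ) =
      ∑ i ∈ Finset.range N, F i ((p ^ i) d) := by
    intro d hd
    simp only [hF, dis_per_pow]
    rw [← Finset.sum_filter, hfil d hd, ← Finset.sum_div]
    unfold disOS
    push_cast
    rfl
  have h2 : ∀ d ∈ S, (u d : ℚ) = ∑ i ∈ Finset.range N, F i d := by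
    intro d hd
    simp only [hF]
    rw [← Finset.sum_filter, hfil d hd, Finset.sum_const, Finset.card_range, nsmul_eq_mul]
    have : (Function.minimalPeriod p d : ℚ) ≠ 0 := by exact_mod_cast (dis_pos p d).ne'
    field_simp
  rw [Finset.sum_congr rfl h1, Finset.sum_congr rfl h2, Finset.sum_comm,
    Finset.sum_comm (s := S)]
  refine Finset.sum_congr rfl fun i _ => ?_
  exact Finset.sum_equiv (p ^ i) (fun d => dis_mem_pow p S hS d i) fun d _ => rfl

theorem dis_trans (P : ℕ → Prop) {i j : ℕ} (hij : i ≤ j) (hi : P i) (hj : ¬ P j) :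
    ∃ k, P k ∧ ¬ P (k + 1) := by
  by_contra hc
  push Not at hc
  exact hj (Nat.le_induction hi (fun k _ hk => hc k hk) j hij)

end orbit

variable {V : Type*} [Fintype V]
variable {G : SimpleGraph V} {L : V → Finset ℕ} {σ : Perm G.Dart} {A : Set G.Dart}

/-- final charge of the face of `d` -/
noncomputable def FF (σ : Perm G.Dart) (pv x : G.Dart → ℤ) (d : G.Dart) : ℤ :=
  216 * ((flen σ d : ℤ) - 4) + ∑ i ∈ Finset.range (flen σ d),
    (pv ((phi σ ^ i) d) - x ((phi σ ^ i) d) + x ((phi σ ^ i) d).symm)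

open Classical in
/-- contribution of the non-interior corners of the face of `d` -/
noncomputable def KK (σ : Perm G.Dart) (A : Set G.Dart) (pv q : G.Dart → ℤ) (d : G.Dart) : ℤ :=
  ∑ i ∈ Finset.range (flen σ d),
    if Intr A ((phi σ ^ i) d).fst then 0 else 216 - pv ((phi σ ^ i) d) - q ((phi σ ^ i) d)

open Classical in
/-- number of darts of the face of `d` with two non-interior ends -/
noncomputable def kk (σ : Perm G.Dart) (A : Set G.Dart) (d : G.Dart) : ℤ :=
  ∑ i ∈ Finset.range (flen σ d),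
    if Intr A ((phi σ ^ i) d).fst ∨ Intr A ((phi σ ^ i) d).snd then 0 else 1

open Classical in
/-- number of boundary darts of the face of `d` -/
noncomputable def disG (σ : Perm G.Dart) (A : Set G.Dart) (d : G.Dart) : ℤ :=
  disOS (phi σ) (fun e => if e ∈ A ∧ e.symm ∉ A then 1 else 0) d

omit [Fintype V] in
theorem dis_FF (pv x : G.Dart → ℤ) (d : G.Dart) : FF σ pv x d =
    216 * ((flen σ d : ℤ) - 4) + disOS (phi σ) (fun e => pv e - x e + x e.symm) d := rfl

omit [Fintype V] in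
open Classical in
theorem dis_KK (pv q : G.Dart → ℤ) (d : G.Dart) : KK σ A pv q d =
    disOS (phi σ) (fun e => if Intr A e.fst then 0 else 216 - pv e - q e) d := rfl

omit [Fintype V] in
open Classical in
theorem dis_kk (d : G.Dart) : kk σ A d =
    disOS (phi σ) (fun e => if Intr A e.fst ∨ Intr A e.snd then 0 else 1) d := rfl

theorem dis_flen_pow (d : G.Dart) (i : ℕ) : flen σ ((phi σ ^ i) d) = flen σ d := by
  classical
  exact dis_per_pow _ d i

theorem dis_FF_pow (pv x : G.Dart → ℤ) (d : G.Dart) (i : ℕ) :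
    FF σ pv x ((phi σ ^ i) d) = FF σ pv x d := by
  classical
  rw [dis_FF, dis_FF, dis_flen_pow, disOS_pow]

theorem dis_KK_pow (pv q : G.Dart → ℤ) (d : G.Dart) (i : ℕ) :
    KK σ A pv q ((phi σ ^ i) d) = KK σ A pv q d := by
  classical
  rw [dis_KK, dis_KK, disOS_pow]

theorem dis_kk_pow (d : G.Dart) (i : ℕ) : kk σ A ((phi σ ^ i) d) = kk σ A d := by
  classical
  rw [dis_kk, dis_kk, disOS_pow]

omit [Fintype V] in
theorem dis_phi_fst (hr : IsRot G σ) (d : G.Dart) : (phi σ d).fst = d.snd := hr.1 d.symm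

omit [Fintype V] in
theorem dis_finv_pow {B : Set G.Dart} (hB : FInv σ B) (d : G.Dart) (i : ℕ) :
    d ∈ B ↔ (phi σ ^ i) d ∈ B := by
  induction i with
  | zero => rfl
  | succ i ih => rw [dis_succ, ← hB, ih]

omit [Fintype V] in
/-- both ends of a dart whose reverse is outside `A` are non-interior -/
theorem dis_bd_ends (hr : IsRot G σ) (hA : FInv σ A) {d : G.Dart} (hd : d.symm ∉ A) :
    ¬ Intr A d.fst ∧ ¬ Intr A d.snd := by
  refine ⟨fun h => hd ?_, fun h => hd (h _ rfl)⟩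
  rw [hA]
  exact h _ (dis_phi_fst hr d.symm)

omit [Fintype V] in
theorem dis_G_le_kk (hr : IsRot G σ) (hA : FInv σ A) (d : G.Dart) : disG σ A d ≤ kk σ A d := by
  rw [dis_kk]
  unfold disG disOS
  refine Finset.sum_le_sum fun i _ => ?_
  by_cases hb : (phi σ ^ i) d ∈ A ∧ ((phi σ ^ i) d).symm ∉ A
  · have := dis_bd_ends hr hA hb.2
    simp only [hb, this.1, this.2, not_false_eq_true, and_self, or_self, if_true, if_false, le_refl]
  · simp only [hb, if_false]
    split_ifs <;> norm_num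

theorem dis_ctx_inv (h : Ctx G L σ A) : FInv σ A := by
  obtain ⟨A1, hr⟩ := h.reg
  exact hr.inv

theorem dis_ctx_bd (h : Ctx G L σ A) : bd A ≤ 5 ∨ (bd A = 6 ∧ ¬ Quiet σ A) := by
  obtain ⟨A1, hr⟩ := h.reg
  rcases hr.lvl2 with ⟨rfl, -⟩ | ⟨h6, hq, -⟩
  · rcases hr.lvl1 with rfl | h5
    · left; simp [bd]
    · exact Or.inl h5.1
  · exact Or.inr ⟨h6, hq⟩

/-- a face of the region has a dart that is not a boundary dart -/
theorem dis_notall (h : Ctx G L σ A) {d : G.Dart} (hd : d ∈ A) :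
    ∃ i, i < flen σ d ∧ ((phi σ ^ i) d).symm ∈ A := by
  classical
  by_contra hc
  push Not at hc
  have hA := dis_ctx_inv h
  have hpos : 0 < flen σ d := dis_pos _ d
  have hall : ∀ i : ℕ, ((phi σ ^ i) d).symm ∉ A := fun i => by
    rw [← dis_mod]
    exact hc _ (Nat.mod_lt _ hpos)
  set O : Set G.Dart := {e | ∃ i : ℕ, e = (phi σ ^ i) d} with hO
  have hOinv : FInv σ O := by
    intro e
    constructor
    · rintro ⟨i, rfl⟩
      exact ⟨i + 1, (dis_succ _ _ _).symm⟩
    · rintro ⟨i, hi⟩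
      refine ⟨i + (flen σ d - 1), (phi σ).injective ?_⟩
      rw [← dis_succ, add_assoc, Nat.sub_add_cancel hpos, dis_add, hi]
      unfold flen
      rw [dis_self]
  have hdO : d ∈ O := ⟨0, rfl⟩
  have hO4 : 4 ≤ O.ncard := h.ce.four_le_ncard hOinv ⟨d, hdO⟩
  have hOb : O ⊆ {e | e ∈ A ∧ e.symm ∉ A} := by
    rintro e ⟨i, rfl⟩
    exact ⟨(dis_finv_pow hA d i).1 hd, hall i⟩
  have hB : FInv σ (A \ O) := fun e => by
    rw [Set.mem_sdiff, Set.mem_sdiff, ← hA e, ← hOinv e]
  have hsub : {e | e ∈ A \ O ∧ e.symm ∉ A \ O} ⊆ {e | e ∈ A ∧ e.symm ∉ A} \ O := by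
    rintro e ⟨⟨h1, h2⟩, h3⟩
    refine ⟨⟨h1, fun h4 => h3 ⟨h4, fun h5 => ?_⟩⟩, h2⟩
    have := (hOb h5).2
    rw [SimpleGraph.Dart.symm_symm] at this
    exact this h1
  have h1 : bd (A \ O) ≤ ({e | e ∈ A ∧ e.symm ∉ A} \ O).ncard := Set.ncard_le_ncard hsub
  have h2 := Set.ncard_sdiff_add_ncard_of_subset hOb
  have h6 : bd A ≤ 6 := by
    rcases dis_ctx_bd h with h5 | h6 <;> omega
  have h3 : {e : G.Dart | e ∈ A ∧ e.symm ∉ A}.ncard = bd A := rfl
  have hAO : A ⊆ O := by
    by_contra hcon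
    have := h.ce.four_le_bd hB (Set.sdiff_nonempty.2 hcon) ⟨d, fun hh => hh.2 hdO⟩
    omega
  have h4 : A.ncard ≤ bd A := Set.ncard_le_ncard (hAO.trans hOb)
  have h5 := bd_le_ncard A
  obtain ⟨A1, hr⟩ := h.reg
  rcases hr.lvl2 with ⟨rfl, -⟩ | ⟨h6, hq, -⟩
  · rcases hr.lvl1 with rfl | h5
    · exact hall 0 (Set.mem_univ _)
    · omega
  · exact hq (Or.inl (by omega))

theorem dis_G_lt (h : Ctx G L σ A) {d : G.Dart} (hd : d ∈ A) :
    disG σ A d + 1 ≤ (flen σ d : ℤ) := by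
  classical
  obtain ⟨i, hi, hs⟩ := dis_notall h hd
  have h1 : (flen σ d : ℤ) - disG σ A d = ∑ j ∈ Finset.range (flen σ d),
      (1 - if (phi σ ^ j) d ∈ A ∧ ((phi σ ^ j) d).symm ∉ A then (1 : ℤ) else 0) := by
    rw [Finset.sum_sub_distrib, Finset.sum_const, Finset.card_range, nsmul_eq_mul, mul_one]
    unfold disG disOS flen
    congr!
  have h2 := Finset.single_le_sum (f := fun j : ℕ =>
      (1 - if (phi σ ^ j) d ∈ A ∧ ((phi σ ^ j) d).symm ∉ A then (1 : ℤ) else 0))
    (fun j _ => by split_ifs <;> norm_num) (Finset.mem_range.2 hi)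
  simp only [hs, not_true_eq_false, and_false, if_false] at h2
  linarith

/-- the face inequality and its equality case -/
theorem dis_face (h : Ctx G L σ A) (pv x q : G.Dart → ℤ)
    (hx : ∀ d : G.Dart, ¬ Intr A d.fst → ¬ Intr A d.snd → x d = 0)
    (hf0 : ∀ d : G.Dart, (∀ i : ℕ, Intr A ((phi σ ^ i) d).fst) →
      ∃ i : ℕ, 0 ≤ FF σ pv x ((phi σ ^ i) d))
    (hf1 : ∀ d : G.Dart, Intr A d.fst → ¬ Intr A d.snd →
      288 * kk σ A (phi σ d) < FF σ pv x (phi σ d) + KK σ A pv q (phi σ d) ∨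
      (288 * kk σ A (phi σ d) ≤ FF σ pv x (phi σ d) + KK σ A pv q (phi σ d) ∧
        flen σ d = 4 ∧ kk σ A (phi σ d) = 2))
    (hf2 : ∀ d : G.Dart, (∀ i : ℕ, ¬ Intr A ((phi σ ^ i) d).fst) → pv d = 0 ∧ q d = 0)
    {d : G.Dart} (hd : d ∈ A) :
    288 * disG σ A d ≤ FF σ pv x d + KK σ A pv q d ∧
      (FF σ pv x d + KK σ A pv q d ≤ 288 * disG σ A d →
        (∃ i : ℕ, ¬ Intr A ((phi σ ^ i) d).fst) →
        flen σ d = 4 ∧ (¬ Intr A d.fst ∨ ¬ Intr A d.snd)) := by
  classical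
  have hA := dis_ctx_inv h
  have hr := h.ce.rot
  have hpos : 0 < flen σ d := dis_pos _ d
  have hsnd : ∀ (e : G.Dart) (i : ℕ), ((phi σ ^ i) e).snd = ((phi σ ^ (i + 1)) e).fst :=
    fun e i => by rw [dis_succ, dis_phi_fst hr]
  by_cases h0 : ∀ i : ℕ, Intr A ((phi σ ^ i) d).fst
  · obtain ⟨i, hi⟩ := hf0 d h0
    rw [dis_FF_pow] at hi
    have hK : KK σ A pv q d = 0 := by
      unfold KK
      exact Finset.sum_eq_zero fun j _ => by rw [if_pos (h0 j)]
    have hk : kk σ A d = 0 := by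
      unfold kk
      exact Finset.sum_eq_zero fun j _ => by rw [if_pos (Or.inl (h0 j))]
    have := dis_G_le_kk hr hA d
    refine ⟨by linarith, fun _ hh => ?_⟩
    obtain ⟨j, hj⟩ := hh
    exact (hj (h0 j)).elim
  by_cases h2 : ∀ i : ℕ, ¬ Intr A ((phi σ ^ i) d).fst
  · have hpq : ∀ j : ℕ, pv ((phi σ ^ j) d) = 0 ∧ q ((phi σ ^ j) d) = 0 := fun j =>
      hf2 _ fun i => by rw [← dis_add]; exact h2 _
    have hx1 : ∀ j : ℕ, x ((phi σ ^ j) d) = 0 := fun j =>
      hx _ (h2 j) (by rw [hsnd]; exact h2 _)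
    have hx2 : ∀ j : ℕ, x ((phi σ ^ j) d).symm = 0 := fun j =>
      hx _ (by
        have : ((phi σ ^ j) d).symm.fst = ((phi σ ^ j) d).snd := rfl
        rw [this, hsnd]; exact h2 _) (h2 j)
    have hF : FF σ pv x d = 216 * ((flen σ d : ℤ) - 4) := by
      unfold FF
      rw [Finset.sum_eq_zero fun j _ => by rw [(hpq j).1, hx1, hx2]; norm_num, add_zero]
    have hK : KK σ A pv q d = 216 * (flen σ d : ℤ) := by
      unfold KK
      rw [Finset.sum_congr rfl (g := fun _ => (216 : ℤ)) fun j _ => by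
        rw [if_neg (h2 j), (hpq j).1, (hpq j).2]; norm_num]
      rw [Finset.sum_const, Finset.card_range, nsmul_eq_mul, mul_comm]
    have hG := dis_G_lt h hd
    have h4 : (4 : ℤ) ≤ (flen σ d : ℤ) := by exact_mod_cast h.ce.four_le_flen d
    refine ⟨by linarith, fun hh _ => ⟨?_, Or.inl (h2 0)⟩⟩
    have : (flen σ d : ℤ) = 4 := by linarith
    exact_mod_cast this
  push Not at h0 h2
  obtain ⟨i, hi⟩ := h2
  obtain ⟨j, hj⟩ := h0
  have hj' : ¬ Intr A ((phi σ ^ (j + flen σ d * i)) d).fst := by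
    rw [← dis_mod]
    unfold flen
    rw [Nat.add_mul_mod_self_left, dis_mod]
    exact hj
  obtain ⟨k, hk1, hk2⟩ := dis_trans (fun m => Intr A ((phi σ ^ m) d).fst)
    (i := i) (j := j + flen σ d * i) (by nlinarith) hi hj'
  have hG := dis_G_le_kk hr hA d
  have key := hf1 ((phi σ ^ k) d) hk1 (by rw [hsnd]; exact hk2)
  have hkk := dis_kk_pow (σ := σ) (A := A) d (k + 1)
  have hFF := dis_FF_pow (σ := σ) pv x d (k + 1)
  have hKK := dis_KK_pow (σ := σ) (A := A) pv q d (k + 1)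
  rw [dis_succ] at hkk hFF hKK
  rcases key with key | ⟨key, hf4, hk⟩
  · rw [hkk, hFF, hKK] at key
    exact ⟨by linarith, fun hh _ => by linarith⟩
  rw [hkk, hFF, hKK] at key
  refine ⟨by linarith, fun _ _ => ⟨by rw [← hf4, dis_flen_pow], ?_⟩⟩
  set e := (phi σ ^ k) d with he
  have hk0 : kk σ A e = 2 := by rw [he, dis_kk_pow, ← hkk, hk]
  have h4 : (phi σ ^ 4) e = e := by
    rw [← hf4]
    exact dis_self _ e
  unfold kk at hk0
  rw [hf4] at hk0
  simp only [Finset.sum_range_succ, Finset.sum_range_zero] at hk0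
  have e0 : Intr A ((phi σ ^ 0) e).fst := hk1
  have e3 : Intr A ((phi σ ^ 3) e).snd := by
    rw [hsnd]
    show Intr A ((phi σ ^ 4) e).fst
    rw [h4]
    exact hk1
  rw [if_pos (Or.inl e0), if_pos (Or.inr e3)] at hk0
  have e1 : ¬ (Intr A ((phi σ ^ 1) e).fst ∨ Intr A ((phi σ ^ 1) e).snd) := by
    intro hh
    rw [if_pos hh] at hk0
    split_ifs at hk0 <;> omega
  have e2 : ¬ (Intr A ((phi σ ^ 2) e).fst ∨ Intr A ((phi σ ^ 2) e).snd) := by
    intro hh
    rw [if_pos hh] at hk0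
    split_ifs at hk0 <;> omega
  push Not at e1 e2
  have hall : ∀ m, m < 4 → ¬ Intr A ((phi σ ^ m) e).fst ∨ ¬ Intr A ((phi σ ^ m) e).snd := by
    intro m hm
    interval_cases m
    · right; rw [hsnd]; exact e1.1
    · exact Or.inl e1.1
    · exact Or.inl e2.1
    · left; rw [← hsnd e 2]; exact e2.2
  have hde : (phi σ ^ (3 * k % 4)) e = d := by
    have hf4' : Function.minimalPeriod (phi σ) e = 4 := hf4
    have hf4'' : Function.minimalPeriod (phi σ) d = 4 := by
      rw [← hf4', he, dis_per_pow]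
    rw [← hf4', dis_mod, he, ← dis_add, ← dis_mod, hf4'']
    have : (3 * k + k) % 4 = 0 := by omega
    rw [this, pow_zero, Perm.one_apply]
  have := hall _ (Nat.mod_lt (3 * k) (by norm_num : 0 < 4))
  rwa [hde] at this

open Classical in
/-- the vertex part of the sum -/
theorem dis_vert (hr : IsRot G σ) (u : G.Dart → ℤ)
    (hv : ∀ d : G.Dart, Intr A d.fst → ∃ e : G.Dart, e.fst = d.fst ∧
      0 ≤ 216 * ((dg G e.fst : ℤ) - 4) + ∑ i ∈ Finset.range (dg G e.fst), u ((σ ^ i) e)) :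
    0 ≤ 216 * ∑ d ∈ Finset.univ.filter (fun d : G.Dart => Intr A d.fst),
        (1 - 4 / (dg G d.fst : ℚ)) +
      ∑ d ∈ Finset.univ.filter (fun d : G.Dart => Intr A d.fst), (u d : ℚ) := by
  rw [← dis_avg σ u _ fun d => by simp only [Finset.mem_filter, Finset.mem_univ, true_and, hr.1],
    Finset.mul_sum, ← Finset.sum_add_distrib]
  refine Finset.sum_nonneg fun d hd => ?_
  obtain ⟨e, he, h0⟩ := hv d (Finset.mem_filter.1 hd).2
  obtain ⟨i, -, hi⟩ := (hr.2 e d he).exists_pow_eq'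
  have h1 : disOS σ u d = ∑ i ∈ Finset.range (dg G e.fst), u ((σ ^ i) e) := by
    rw [← hi, disOS_pow, ← period_eq_dg hr]
    rfl
  rw [← h1, he] at h0
  have hp := dis_pos σ d
  rw [period_eq_dg hr] at hp ⊢
  have hp' : (0 : ℚ) < (dg G d.fst : ℚ) := by exact_mod_cast hp
  have h0' : (0 : ℚ) ≤ 216 * ((dg G d.fst : ℚ) - 4) + (disOS σ u d : ℚ) := by exact_mod_cast h0
  have : 216 * (1 - 4 / (dg G d.fst : ℚ)) + (disOS σ u d : ℚ) / (dg G d.fst : ℚ) =
      (216 * ((dg G d.fst : ℚ) - 4) + (disOS σ u d : ℚ)) / (dg G d.fst : ℚ) := by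
    field_simp
  rw [this]
  positivity

open Classical in
/-- the edge flow cancels inside the region -/
theorem dis_flow (hr : IsRot G σ) (hA : FInv σ A) (x : G.Dart → ℤ)
    (hx : ∀ d : G.Dart, ¬ Intr A d.fst → ¬ Intr A d.snd → x d = 0) :
    ∑ d ∈ Finset.univ.filter (fun d : G.Dart => d ∈ A), (x d.symm : ℚ) =
      ∑ d ∈ Finset.univ.filter (fun d : G.Dart => d ∈ A), (x d : ℚ) := by
  rw [Finset.sum_filter, Finset.sum_filter]
  refine Finset.sum_equiv (alpha G) (by simp) fun d _ => ?_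
  have ha : alpha G d = d.symm := rfl
  rw [ha]
  by_cases h1 : d ∈ A <;> by_cases h2 : d.symm ∈ A
  · rw [if_pos h1, if_pos h2]
  · have := dis_bd_ends hr hA h2
    rw [if_pos h1, if_neg h2, hx d.symm this.2 this.1, Int.cast_zero]
  · have := dis_bd_ends (d := d.symm) hr hA (by rwa [SimpleGraph.Dart.symm_symm])
    rw [if_neg h1, if_pos h2, hx d.symm this.1 this.2, Int.cast_zero]
  · rw [if_neg h1, if_neg h2]

theorem discharge (h : Ctx G L σ A) (pv x q : G.Dart → ℤ) (hq : ∀ d, 0 ≤ q d)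
    (hx : ∀ d : G.Dart, ¬ Intr A d.fst → ¬ Intr A d.snd → x d = 0)
    (hv : ∀ d : G.Dart, Intr A d.fst → ∃ e : G.Dart, e.fst = d.fst ∧
      0 ≤ 216 * ((dg G e.fst : ℤ) - 4) + ∑ i ∈ Finset.range (dg G e.fst),
        (q (phi σ (phi σ ((σ ^ i) e))) - pv ((σ ^ i) e) - q ((σ ^ i) e)))
    (hf0 : ∀ d : G.Dart, (∀ i : ℕ, Intr A ((phi σ ^ i) d).fst) →
      ∃ i : ℕ, 0 ≤ FF σ pv x ((phi σ ^ i) d))
    (hf1 : ∀ d : G.Dart, Intr A d.fst → ¬ Intr A d.snd →
      288 * kk σ A (phi σ d) < FF σ pv x (phi σ d) + KK σ A pv q (phi σ d) ∨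
      (288 * kk σ A (phi σ d) ≤ FF σ pv x (phi σ d) + KK σ A pv q (phi σ d) ∧
        flen σ d = 4 ∧ kk σ A (phi σ d) = 2))
    (hf2 : ∀ d : G.Dart, (∀ i : ℕ, ¬ Intr A ((phi σ ^ i) d).fst) → pv d = 0 ∧ q d = 0) :
    False := by
  classical
  have hA := dis_ctx_inv h
  have hr := h.ce.rot
  have hch := charge h
  have hV := dis_vert hr (fun e => q (phi σ (phi σ e)) - pv e - q e) hv
  have hX := dis_flow hr hA x hx
  set I := Finset.univ.filter (fun d : G.Dart => Intr A d.fst) with hI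
  set S := Finset.univ.filter (fun d : G.Dart => d ∈ A) with hS
  set T := Finset.univ.filter (fun d : G.Dart => d ∈ A ∧ ¬ Intr A d.fst) with hT
  have hSinv : ∀ d, d ∈ S ↔ phi σ d ∈ S := fun d => by
    simp only [hS, Finset.mem_filter, Finset.mem_univ, true_and]
    exact hA d
  have hsplit : ∀ f : G.Dart → ℚ, ∑ d ∈ S, f d = ∑ d ∈ I, f d + ∑ d ∈ T, f d := by
    intro f
    rw [← Finset.sum_filter_add_sum_filter_not S (fun d => Intr A d.fst)]
    congr 2
    · ext d
      simp only [hS, hI, Finset.mem_filter, Finset.mem_univ, true_and]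
      exact ⟨fun hh => hh.2, fun hh => ⟨hh d rfl, hh⟩⟩
    · ext d
      simp only [hS, hT, Finset.mem_filter, Finset.mem_univ, true_and]
  have a1 := dis_avg (phi σ) (fun e => pv e - x e + x e.symm) S hSinv
  have a2 := dis_avg (phi σ) (fun e => if Intr A e.fst then 0 else 216 - pv e - q e) S hSinv
  have a3 := dis_avg (phi σ) (fun e => if e ∈ A ∧ e.symm ∉ A then 1 else 0) S hSinv
  have b1 : ∑ d ∈ S, ((pv d - x d + x d.symm : ℤ) : ℚ) =
      ∑ d ∈ I, (pv d : ℚ) + ∑ d ∈ T, (pv d : ℚ) := by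
    push_cast
    rw [Finset.sum_add_distrib, Finset.sum_sub_distrib, hX, hsplit fun d => (pv d : ℚ)]
    ring
  have b2 : ∑ d ∈ S, (((if Intr A d.fst then 0 else 216 - pv d - q d) : ℤ) : ℚ) =
      216 * (T.card : ℚ) - ∑ d ∈ T, (pv d : ℚ) - ∑ d ∈ T, (q d : ℚ) := by
    rw [hsplit, Finset.sum_eq_zero fun d hd => by
      rw [if_pos (Finset.mem_filter.1 hd).2, Int.cast_zero]]
    rw [Finset.sum_congr rfl (g := fun d => (216 : ℚ) - (pv d : ℚ) - (q d : ℚ)) fun d hd => by
      rw [if_neg (Finset.mem_filter.1 hd).2.2]; push_cast; ring]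
    rw [Finset.sum_sub_distrib, Finset.sum_sub_distrib, Finset.sum_const, nsmul_eq_mul]
    ring
  have b3 : ∑ d ∈ S, (((if d ∈ A ∧ d.symm ∉ A then 1 else 0) : ℤ) : ℚ) = (bd A : ℚ) := by
    have : bd A = (S.filter fun d => d ∈ A ∧ d.symm ∉ A).card := by
      unfold bd
      rw [← Set.ncard_coe_finset]
      congr 1
      ext d
      simp [hS]
    rw [this, Finset.card_filter]
    push_cast
    rfl
  have b4 : ∑ d ∈ I, ((q (phi σ (phi σ d)) - pv d - q d : ℤ) : ℚ) ≤
      ∑ d ∈ T, (q d : ℚ) - ∑ d ∈ I, (pv d : ℚ) := by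
    push_cast
    rw [Finset.sum_sub_distrib, Finset.sum_sub_distrib]
    have c1 : ∑ d ∈ S, (q (phi σ (phi σ d)) : ℚ) = ∑ d ∈ S, (q d : ℚ) :=
      Finset.sum_equiv (phi σ * phi σ) (fun d => (hSinv d).trans (hSinv _)) fun d _ => rfl
    have c2 := hsplit fun d => (q (phi σ (phi σ d)) : ℚ)
    have c3 := hsplit fun d => (q d : ℚ)
    have c4 : 0 ≤ ∑ d ∈ T, (q (phi σ (phi σ d)) : ℚ) :=
      Finset.sum_nonneg fun d _ => by exact_mod_cast hq _
    linarith
  have hface := fun d (hd : d ∈ A) => dis_face h pv x q hx hf0 hf1 hf2 hd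
  set W : G.Dart → ℚ := fun d =>
    ((FF σ pv x d + KK σ A pv q d - 288 * disG σ A d : ℤ) : ℚ) / (flen σ d : ℚ) with hW
  have hfl : ∀ d : G.Dart, (0 : ℚ) < (flen σ d : ℚ) := fun d => by
    have : 0 < flen σ d := dis_pos _ d
    exact_mod_cast this
  have hW0 : ∀ d ∈ S, 0 ≤ W d := by
    intro d hd
    have := (hface d (Finset.mem_filter.1 hd).2).1
    refine div_nonneg ?_ (hfl d).le
    exact_mod_cast sub_nonneg.2 this
  have hWsum : ∑ d ∈ S, W d = 216 * ∑ d ∈ S, (1 - 4 / (flen σ d : ℚ)) +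
      (∑ d ∈ I, (pv d : ℚ) + ∑ d ∈ T, (pv d : ℚ)) +
      (216 * (T.card : ℚ) - ∑ d ∈ T, (pv d : ℚ) - ∑ d ∈ T, (q d : ℚ)) - 288 * (bd A : ℚ) := by
    rw [← b1, ← b2, ← b3, ← a1, ← a2, ← a3, Finset.mul_sum, Finset.mul_sum,
      ← Finset.sum_add_distrib, ← Finset.sum_add_distrib, ← Finset.sum_sub_distrib]
    refine Finset.sum_congr rfl fun d _ => ?_
    have hf := (hfl d).ne'
    simp only [hW, dis_FF, dis_KK, disG]
    unfold flen at hf ⊢
    push_cast
    field_simp
  have hle : ∑ d ∈ S, W d ≤ 144 * (bd A : ℚ) - 864 := by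
    rw [hWsum]
    linarith
  have hge := Finset.sum_nonneg hW0
  rcases dis_ctx_bd h with h5 | ⟨h6, hnq⟩
  · have : (bd A : ℚ) ≤ 5 := by exact_mod_cast h5
    linarith
  have h6' : (bd A : ℚ) = 6 := by exact_mod_cast h6
  have hz := (Finset.sum_eq_zero_iff_of_nonneg hW0).1 (by linarith)
  have htight : ∀ d ∈ A, (∃ i : ℕ, ¬ Intr A ((phi σ ^ i) d).fst) →
      flen σ d = 4 ∧ (¬ Intr A d.fst ∨ ¬ Intr A d.snd) := by
    intro d hd
    refine (hface d hd).2 ?_
    have h1 := hz d (Finset.mem_filter.2 ⟨Finset.mem_univ _, hd⟩)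
    rcases div_eq_zero_iff.1 h1 with h2 | h2
    · have h3 : FF σ pv x d + KK σ A pv q d - 288 * disG σ A d = 0 := by exact_mod_cast h2
      linarith
    · exact ((hfl d).ne' h2).elim
  set B : Set G.Dart := {d | ∀ i : ℕ, Intr A ((phi σ ^ i) d).fst} with hB
  have hBA : B ⊆ A := fun d hd => hd 0 d rfl
  have hBinv : FInv σ B := by
    intro d
    constructor
    · intro hd i
      rw [← dis_succ']
      exact hd _
    · intro hd i
      have hp := dis_pos (phi σ) d
      have : (phi σ ^ i) d = (phi σ ^ (i + (Function.minimalPeriod (phi σ) d - 1))) (phi σ d) := by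
        rw [← dis_succ', add_assoc, Nat.sub_add_cancel hp, dis_add, dis_self]
      rw [this]
      exact hd _
  have hB0 : bd B = 0 := by
    unfold bd
    rw [Set.ncard_eq_zero, Set.eq_empty_iff_forall_notMem]
    rintro d ⟨h1, h2⟩
    have e1 : Intr A d.fst := h1 0
    have e2 : Intr A d.snd := by
      rw [← dis_phi_fst hr]
      exact h1 1
    have h3 : ∃ i : ℕ, ¬ Intr A ((phi σ ^ i) d.symm).fst := by
      by_contra hc
      push Not at hc
      exact h2 hc
    rcases (htight d.symm (e2 _ rfl) h3).2 with h4 | h4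
    · exact h4 e2
    · exact h4 e1
  rcases h.ce.bd_zero hBinv hB0 with hE | hU
  · refine hnq (Or.inr fun d hd => (htight d hd ?_).1)
    by_contra hc
    push Not at hc
    have : d ∈ B := hc
    rw [hE] at this
    exact this
  · have : A = Set.univ := Set.eq_univ_of_univ_subset (hU ▸ hBA)
    rw [this] at h6
    simp [bd] at h6

end Pool.Agent.Lib.MP_bfaad3_co
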