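import Pool.Agent.Lib.MP_bfaad3_co.B2

set_option autoImplicit false

namespace Pool.Agent.Lib.MP_bfaad3_co

open Equiv

variable {V : Type*} [Fintype V]

variable {G : SimpleGraph V} {L : V → Finset ℕ} {σ : Perm G.Dart} {A : Set G.Dart}

attribute [local instance] b2_fin

/-- a dart of `Z ∩ A` whose reverse lies in `A` but not in `Z` -/
def SixCut (A Z : Set G.Dart) (d : G.Dart) : Prop :=
  d ∈ Z ∧ d ∈ A ∧ d.symm ∉ Z ∧ d.symm ∈ A

/-- what is needed of one side of the six-cycle -/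
structure SixSide (σ : Perm G.Dart) (A Z : Set G.Dart) : Prop where
  long : ∃ e, e ∈ Z ∧ e ∈ A ∧ flen σ e ≠ 4
  nsix : ∃ d e : G.Dart, d ∈ Z ∧ d ∈ A ∧ e ∈ Z ∧ e ∈ A ∧ d.snd = e.fst ∧
    ¬ (phi σ d = e ∧ flen σ e = 6)
  ends : ∃ x0 x1 x2 : G.Dart, SixCut A Z x0 ∧ SixCut A Z x1 ∧ SixCut A Z x2 ∧
    x0.snd = x1.fst ∧ x1.snd = x2.fst ∧ x0 ≠ x1 ∧ x0 ≠ x2 ∧ x1 ≠ x2 ∧
    ((∃ x3, SixCut A Z x3 ∧ x0 ≠ x3 ∧ x1 ≠ x3 ∧ x2 ≠ x3) ∨
      (phi σ x0 = x1 → phi σ x1 = x2 → flen σ x1 = 5 →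
        Intr A x0.fst ∨ Intr A x2.snd ∨ Intr A (phi σ x2).snd))

omit [Fintype V] in
theorem SixCut.congr {Z W : Set G.Dart} (hZW : ∀ d ∈ A, d ∈ W ↔ d ∈ Z) {d : G.Dart}
    (h : SixCut A Z d) : SixCut A W d :=
  ⟨(hZW _ h.2.1).2 h.1, h.2.1, fun hh => h.2.2.1 ((hZW _ h.2.2.2).1 hh), h.2.2.2⟩

omit [Fintype V] in
theorem SixSide.congr {Z W : Set G.Dart} (hZW : ∀ d ∈ A, d ∈ W ↔ d ∈ Z)
    (h : SixSide σ A Z) : SixSide σ A W := by
  obtain ⟨e, e1, e2, e3⟩ := h.long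
  obtain ⟨d, d', d1, d2, d3, d4, d5, d6⟩ := h.nsix
  obtain ⟨x0, x1, x2, c0, c1, c2, k1, k2, k3, k4, k5, k6⟩ := h.ends
  refine ⟨⟨e, (hZW _ e2).2 e1, e2, e3⟩,
    ⟨d, d', (hZW _ d2).2 d1, d2, (hZW _ d4).2 d3, d4, d5, d6⟩,
    ⟨x0, x1, x2, c0.congr hZW, c1.congr hZW, c2.congr hZW, k1, k2, k3, k4, k5, ?_⟩⟩
  rcases k6 with ⟨x3, c3, k7⟩ | k6
  · exact Or.inl ⟨x3, c3.congr hZW, k7⟩
  · exact Or.inr k6

omit [Fintype V] in
theorem SixSide.cut {Z : Set G.Dart} (h : SixSide σ A Z) : ∃ d, SixCut A Z d := by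
  obtain ⟨x0, _, _, c0, _⟩ := h.ends
  exact ⟨x0, c0⟩

theorem SixSide.not_quiet (h : MinCE G L σ) {W : Set G.Dart} (hW : FInv σ W)
    (hs : SixSide σ A W) : ¬ Quiet σ W := by
  rintro (h6 | h4)
  · obtain ⟨d, e, d1, _, e1, _, hde, hn⟩ := hs.nsix
    refine hn ⟨b2_same h hW (by omega) ((hW _).1 d1) e1 (by rw [b2_phi_fst h.rot, hde]), ?_⟩
    rw [(h.flen_eq_ncard hW (by omega) e1).1, h6]
  · obtain ⟨e, e1, _, e3⟩ := hs.long
    exact e3 (h4 e e1)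

theorem six_nn_four {X Y : Set G.Dart} {a b c d : G.Dart} (hab : a ≠ b) (hac : a ≠ c)
    (had : a ≠ d) (hbc : b ≠ c) (hbd : b ≠ d) (hcd : c ≠ d)
    (ha : a ∈ X ∧ a.symm ∈ Y) (hb : b ∈ X ∧ b.symm ∈ Y) (hc : c ∈ X ∧ c.symm ∈ Y)
    (hd : d ∈ X ∧ d.symm ∈ Y) : 4 ≤ b2_nn X Y := by
  classical
  unfold b2_nn
  have h1 : ({a, b, c, d} : Set G.Dart).ncard = 4 := by
    rw [Set.ncard_insert_of_notMem (by simp [hab, hac, had]),
      Set.ncard_insert_of_notMem (by simp [hbc, hbd]), Set.ncard_pair hcd]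
  rw [← h1]
  apply Set.ncard_le_ncard _ (Set.toFinite _)
  rintro x (rfl | rfl | rfl | rfl) <;> assumption

omit [Fintype V] in
theorem six_pow_ne {d : G.Dart} {i j : ℕ} (hi : i < flen σ d) (hj : j < flen σ d) (hij : i ≠ j) :
    (phi σ ^ i) d ≠ (phi σ ^ j) d := by
  intro he
  rw [← Perm.iterate_eq_pow, ← Perm.iterate_eq_pow] at he
  exact hij ((Function.iterate_eq_iterate_iff_of_lt_minimalPeriod hi hj).1 he)

omit [Fintype V] in
theorem six_pow_flen (d : G.Dart) : (phi σ ^ flen σ d) d = d := by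
  have := Function.iterate_minimalPeriod (f := phi σ) (x := d)
  rw [Perm.iterate_eq_pow] at this
  exact this

/-- the corner lemma -/
theorem SixSide.corner {A1 : Set G.Dart} (h : MinCE G L σ) (hr : Reg σ A1 A)
    {W C : Set G.Dart} (hW : FInv σ W) (hC : FInv σ C) (hAC : A ⊆ C) (hCA : C ⊆ A1)
    (hs : SixSide σ A W) (h6 : bd W = 6) (hR : (W ∩ Cᶜ).Nonempty) : 6 ≤ bd (W ∩ C) := by
  by_contra hlt
  have hWc := b2_finv_compl hW
  have hCc := b2_finv_compl hC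
  have fP := b2_finv_inter hW hC
  have fQ := b2_finv_inter hWc hC
  have fR := b2_finv_inter hW hCc
  obtain ⟨x0, x1, x2, c0, c1, c2, k1, k2, k3, k4, k5, k6⟩ := hs.ends
  have cut : ∀ {x : G.Dart}, SixCut A W x → x ∈ W ∩ C ∧ x.symm ∈ Wᶜ ∩ C :=
    fun hx => ⟨⟨hx.1, hAC hx.2.1⟩, ⟨hx.2.2.1, hAC hx.2.2.2⟩⟩
  have hne : W ∩ C ≠ A1 := by
    intro he
    have : x0.symm ∈ W ∩ C := he ▸ hCA (cut c0).2.2
    exact (cut c0).2.1 this.1
  have hsm : (W ∩ C).ncard = bd (W ∩ C) := by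
    rcases hr.min1 _ fP (Set.inter_subset_right.trans hCA) hne (by omega) with h1 | h1
    · exact le_antisymm h1 (bd_le_ncard _)
    · exfalso
      have h2 := h.four_le_ncard fQ ⟨_, (cut c0).2⟩
      have h3 := h.four_le_ncard fR hR
      have h4 : ((Wᶜ ∩ C) ∪ (W ∩ Cᶜ)).ncard = (Wᶜ ∩ C).ncard + (W ∩ Cᶜ).ncard :=
        Set.ncard_union_eq (Set.disjoint_left.2 fun d h1 h2 => h1.1 h2.1)
      have h5 : ((Wᶜ ∩ C) ∪ (W ∩ Cᶜ)).ncard ≤ (W ∩ C)ᶜ.ncard := by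
        apply Set.ncard_le_ncard _ (Set.toFinite _)
        rintro d (hd | hd) hp
        · exact hd.1 hp.1
        · exact hd.2 hp.2
      omega
  have hall : ∀ d ∈ W ∩ C, d.symm ∉ W ∩ C := by
    have : {d | d ∈ W ∩ C ∧ d.symm ∉ W ∩ C} = W ∩ C :=
      Set.eq_of_subset_of_ncard_le (fun d hd => hd.1) (le_of_eq hsm) (Set.toFinite _)
    intro d hd
    rw [← this] at hd
    exact hd.2
  have hfl : ∀ d ∈ W ∩ C, flen σ d = (W ∩ C).ncard :=
    fun d hd => (h.flen_eq_ncard fP (by omega) hd).1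
  obtain ⟨e, e1, e2, e3⟩ := hs.long
  have e4 := hfl e ⟨e1, hAC e2⟩
  have e5 := h.four_le_flen e
  have h5 : (W ∩ C).ncard = 5 := by omega
  have bR := h.four_le_bd fR hR ⟨x0, fun hh => hh.2 (cut c0).1.2⟩
  have eW := b2_bd_four W C
  have eP := b2_bd_inter W C
  have eR := b2_bd_inter W Cᶜ
  simp only [compl_compl] at eR
  have s2 := b2_nn_symm (W ∩ C) (W ∩ Cᶜ)
  have no4 : ∀ x : G.Dart, x ∈ W ∩ C ∧ x.symm ∈ Wᶜ ∩ C → x0 ≠ x → x1 ≠ x → x2 ≠ x → False := by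
    intro x hx n0 n1 n2
    have := six_nn_four k3 k4 n0 k5 n1 n2 (cut c0) (cut c1) (cut c2) hx
    omega
  rcases k6 with ⟨x3, c3, n0, n1, n2⟩ | k6
  · exact no4 x3 (cut c3) n0 n1 n2
  have p1 : phi σ x0 = x1 :=
    b2_same h fP (by omega) ((fP _).1 (cut c0).1) (cut c1).1 (by rw [b2_phi_fst h.rot, k1])
  have p2 : phi σ x1 = x2 :=
    b2_same h fP (by omega) ((fP _).1 (cut c1).1) (cut c2).1 (by rw [b2_phi_fst h.rot, k2])
  have f0 : flen σ x0 = 5 := by rw [hfl _ (cut c0).1, h5]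
  have f1 : flen σ x1 = 5 := by rw [hfl _ (cut c1).1, h5]
  have q0 : (phi σ ^ 0) x0 = x0 := by simp
  have q1 : (phi σ ^ 1) x0 = x1 := by simpa using p1
  have q2 : (phi σ ^ 2) x0 = x2 := by rw [pow_succ', Perm.mul_apply, q1, p2]
  have q3 : (phi σ ^ 3) x0 = phi σ x2 := by rw [pow_succ', Perm.mul_apply, q2]
  have q4 : (phi σ ^ 4) x0 = phi σ (phi σ x2) := by rw [pow_succ', Perm.mul_apply, q3]
  have q5 : phi σ (phi σ (phi σ x2)) = x0 := by
    have := six_pow_flen (σ := σ) x0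
    rw [f0, pow_succ', Perm.mul_apply, q4] at this
    exact this
  have fin : ∀ m, 3 ≤ m → m < 5 → ((phi σ ^ m) x0).symm ∈ A → False := by
    intro m m3 m5 hm
    have hP : (phi σ ^ m) x0 ∈ W ∩ C := (b2_finv_pow fP x0 m).1 (cut c0).1
    refine no4 _ ⟨hP, fun hw => hall _ hP ⟨hw, hAC hm⟩, hAC hm⟩ ?_ ?_ ?_
    · conv_lhs => rw [← q0]
      exact six_pow_ne (by omega) (by omega) (by omega)
    · rw [← q1]
      exact six_pow_ne (by omega) (by omega) (by omega)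
    · rw [← q2]
      exact six_pow_ne (by omega) (by omega) (by omega)
  rcases k6 p1 p2 f1 with hi | hi | hi
  · refine fin 4 (by norm_num) (by norm_num) (hi _ ?_)
    rw [q4]
    have := b2_phi_fst h.rot (phi σ (phi σ x2))
    rw [q5] at this
    exact this.symm
  · refine fin 3 (by norm_num) (by norm_num) ?_
    rw [q3]
    apply b2_intr_symm h.rot hr.inv
    rw [b2_phi_fst h.rot]
    exact hi
  · refine fin 3 (by norm_num) (by norm_num) (hi _ ?_)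
    rw [q3]
    rfl

theorem six_inside {A1 : Set G.Dart} (h : MinCE G L σ) (hr : Reg σ A1 A) {W : Set G.Dart}
    (hW : FInv σ W) (h6 : bd W = 6) (hs : SixSide σ A W) (hs' : SixSide σ A Wᶜ)
    (hWA : W ⊆ A1) : False := by
  rcases hr.lvl2 with ⟨_, hq⟩ | ⟨hA6, _, hq⟩
  · exact hs.not_quiet h hW (hq W hW hWA h6)
  have hWc := b2_finv_compl hW
  have h6c : bd Wᶜ = 6 := by rw [bd_compl, h6]
  obtain ⟨x, hx⟩ := hs.cut
  have key : ∀ B : Set G.Dart, FInv σ B → B ⊆ A → bd B = 6 → SixSide σ A B → False := by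
    intro B hB hBA hB6 hsB
    obtain ⟨y, hy⟩ := hsB.cut
    refine hsB.not_quiet h hB (hq B hB (hBA.trans hr.sub) hB6 ?_)
    apply Set.ncard_lt_ncard _ (Set.toFinite _)
    exact (Set.ssubset_iff_of_subset hBA).2 ⟨y.symm, hy.2.2.2, hy.2.2.1⟩
  by_cases hR : (W ∩ Aᶜ).Nonempty
  swap
  · refine key W hW (fun d hd => ?_) h6 hs
    by_contra hd'
    exact hR ⟨d, hd, hd'⟩
  by_cases hT : (Wᶜ ∩ Aᶜ).Nonempty
  swap
  · refine key Wᶜ hWc (fun d hd => ?_) h6c hs'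
    by_contra hd'
    exact hT ⟨d, hd, hd'⟩
  have fP := b2_finv_inter hW hr.inv
  have fQ := b2_finv_inter hWc hr.inv
  have fR := b2_finv_inter hW (b2_finv_compl hr.inv)
  have bQ := hs'.corner h hr hWc hr.inv subset_rfl hr.sub h6c hT
  have nQ : bd (Wᶜ ∩ A) ≠ 6 := fun he =>
    key _ fQ Set.inter_subset_right he (hs'.congr fun d hd => by simp [hd])
  have eW := b2_bd_four W A
  have eA := b2_bd_four A W
  have eQ := b2_bd_inter Wᶜ A
  have eR := b2_bd_inter W Aᶜ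
  simp only [compl_compl] at eQ eR
  rw [Set.inter_comm A W, Set.inter_comm A Wᶜ, Set.inter_comm Aᶜ W,
    Set.inter_comm Aᶜ Wᶜ] at eA
  have s1 := b2_nn_symm (W ∩ A) (Wᶜ ∩ A)
  have s2 := b2_nn_symm (W ∩ A) (W ∩ Aᶜ)
  have s4 := b2_nn_symm (Wᶜ ∩ A) (W ∩ Aᶜ)
  have bR : bd (W ∩ Aᶜ) ≤ 5 := by omega
  have cQ := bd_le_ncard (Wᶜ ∩ A)
  have hne : W ∩ Aᶜ ≠ A1 := by
    intro he
    have : x ∈ W ∩ Aᶜ := he ▸ hr.sub hx.2.1
    exact this.2 hx.2.1
  have cR : (W ∩ Aᶜ).ncard ≤ 5 := by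
    rcases hr.min1 _ fR (Set.inter_subset_left.trans hWA) hne bR with h1 | h1
    · omega
    · exfalso
      have h5 : (Wᶜ ∩ A).ncard ≤ (W ∩ Aᶜ)ᶜ.ncard := by
        apply Set.ncard_le_ncard _ (Set.toFinite _)
        intro d hd hp
        exact hd.1 hp.1
      omega
  have n1 : W.ncard = (W ∩ A).ncard + (W ∩ Aᶜ).ncard := by
    rw [← Set.ncard_union_eq (Set.disjoint_left.2 fun d h1 h2 => h2.2 h1.2),
      Set.inter_union_compl]
  have n2 : A.ncard = (W ∩ A).ncard + (Wᶜ ∩ A).ncard := by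
    rw [← Set.ncard_union_eq (Set.disjoint_left.2 fun d h1 h2 => h2.1 h1.1),
      ← Set.union_inter_distrib_right, Set.union_compl_self, Set.univ_inter]
  exact hs.not_quiet h hW (hq W hW hWA h6 (by omega))

theorem six_main {A1 : Set G.Dart} (h : MinCE G L σ) (hr : Reg σ A1 A) {S : Set G.Dart}
    (hS : FInv σ S) (h6 : bd S = 6) (hs : SixSide σ A S) (hs' : SixSide σ A Sᶜ) : False := by
  have hSc := b2_finv_compl hS
  have h6c : bd Sᶜ = 6 := by rw [bd_compl, h6]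
  by_cases hR : (S ∩ A1ᶜ).Nonempty
  swap
  · refine six_inside h hr hS h6 hs hs' fun d hd => ?_
    by_contra hd'
    exact hR ⟨d, hd, hd'⟩
  by_cases hT : (Sᶜ ∩ A1ᶜ).Nonempty
  swap
  · refine six_inside h hr hSc h6c hs' (by rw [compl_compl]; exact hs) fun d hd => ?_
    by_contra hd'
    exact hT ⟨d, hd, hd'⟩
  have hl1 : bd A1 ≤ 5 := by
    rcases hr.lvl1 with h1 | h1
    · obtain ⟨d, _, hd⟩ := hR
      exact absurd (h1 ▸ Set.mem_univ d) hd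
    · exact h1.1
  obtain ⟨x, hx⟩ := hs.cut
  have hA1c := b2_finv_compl hr.inv1
  have fP := b2_finv_inter hS hr.inv1
  have fQ := b2_finv_inter hSc hr.inv1
  have fR := b2_finv_inter hS hA1c
  have fT := b2_finv_inter hSc hA1c
  have bP := hs.corner h hr hS hr.inv1 hr.sub subset_rfl h6 hR
  have bQ := hs'.corner h hr hSc hr.inv1 hr.sub subset_rfl h6c hT
  have bR := h.four_le_bd fR hR ⟨x, fun hh => hh.2 (hr.sub hx.2.1)⟩
  have bT := h.four_le_bd fT hT ⟨x, fun hh => hh.2 (hr.sub hx.2.1)⟩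
  have eS := b2_bd_four S A1
  have eA := b2_bd_four A1 S
  have eP := b2_bd_inter S A1
  have eQ := b2_bd_inter Sᶜ A1
  have eR := b2_bd_inter S A1ᶜ
  have eT := b2_bd_inter Sᶜ A1ᶜ
  simp only [compl_compl] at eQ eR eT
  rw [Set.inter_comm A1 S, Set.inter_comm A1 Sᶜ, Set.inter_comm A1ᶜ S,
    Set.inter_comm A1ᶜ Sᶜ] at eA
  have s1 := b2_nn_symm (S ∩ A1) (Sᶜ ∩ A1)
  have s2 := b2_nn_symm (S ∩ A1) (S ∩ A1ᶜ)
  have s3 := b2_nn_symm (S ∩ A1) (Sᶜ ∩ A1ᶜ)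
  have s4 := b2_nn_symm (Sᶜ ∩ A1) (S ∩ A1ᶜ)
  have s5 := b2_nn_symm (Sᶜ ∩ A1) (Sᶜ ∩ A1ᶜ)
  have s6 := b2_nn_symm (S ∩ A1ᶜ) (Sᶜ ∩ A1ᶜ)
  by_cases hP : bd (S ∩ A1) = 6
  · exact six_inside h hr fP hP (hs.congr fun d hd => by simp [hr.sub hd])
      (hs'.congr fun d hd => by simp [hr.sub hd]) Set.inter_subset_right
  · have hQ : bd (Sᶜ ∩ A1) = 6 := by omega
    exact six_inside h hr fQ hQ (hs'.congr fun d hd => by simp [hr.sub hd])
      (hs.congr fun d hd => by simp [hr.sub hd]) Set.inter_subset_right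

omit [Fintype V] in
theorem six_arc_fst (hr : IsRot G σ) {a b e : G.Dart} (h : Arc σ a b e) : e.fst = a.fst := by
  obtain ⟨m, _, rfl, _⟩ := h
  clear * - hr
  induction m with
  | zero => simp
  | succ m ih => rw [pow_succ', Perm.mul_apply, hr.1, ih]

theorem six (h : Ctx G L σ A) {c : ℕ → G.Dart} (hc : CW c 6) {j : ℕ} (h3 : 3 ≤ j) (h6 : j ≤ 6)
    (hint : ∀ i, i + 1 < j → Intr A (c (i + 1)).fst)
    (hLF : ∃ i e, i + 1 < j ∧ Arc σ (c i).symm (c (i + 1)) e ∧ flen σ e ≠ 4)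
    (hNF : ∃ i, i + 1 < j ∧ ¬ (phi σ (c i) = c (i + 1) ∧ flen σ (c (i + 1)) = 6))
    (hLB : ∃ i e, i + 1 < j ∧ Arc σ (c (i + 1)) (c i).symm e ∧ flen σ e ≠ 4)
    (hNB : ∃ i, i + 1 < j ∧ ¬ (phi σ (c (i + 1)).symm = (c i).symm ∧ flen σ (c i).symm = 6))
    (hEF : j = 3 → phi σ (c 0) = c 1 → phi σ (c 1) = c 2 → flen σ (c 1) = 5 →
      Intr A (c 0).fst ∨ Intr A (c 3).fst ∨ Intr A (phi σ (c 2)).snd)
    (hEB : j = 3 → phi σ (c 2).symm = (c 1).symm → phi σ (c 1).symm = (c 0).symm →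
      flen σ (c 1).symm = 5 →
      Intr A (c 0).fst ∨ Intr A (c 3).fst ∨ Intr A (phi σ (c 0).symm).snd) : False := by
  obtain ⟨A1, hr⟩ := h.reg
  have hrot := h.ce.rot
  have hinj : ∀ i j, i < 6 → j < 6 → (c i).fst = (c j).fst → i = j :=
    fun i j hi hj hij => CW.inj h.ce.tri hc le_rfl hi hj hij
  obtain ⟨S, hS, hb⟩ := jordan hrot h.ce.gen (by norm_num) hc hinj
  have hbd : bd S = 6 := b2_bd_cycle (by norm_num) hc hinj hb
  have hcS : ∀ i, c i ∈ S := fun i => ((hb _).2 ⟨i, rfl⟩).1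
  have hcS' : ∀ i, (c i).symm ∉ S := fun i => ((hb _).2 ⟨i, rfl⟩).2
  have harc := jordan_arc hrot (by norm_num) hc hinj hS hb
  have hsf : ∀ i, (c i).symm.fst = (c (i + 1)).fst := fun i => hc.chain i
  have hA : ∀ i, i < j → c i ∈ A ∧ (c i).symm ∈ A := by
    intro i hi
    rcases i with _ | i
    · have hi' : Intr A (c 0).symm.fst := by rw [hsf]; exact hint 0 (by omega)
      refine ⟨?_, hi' _ rfl⟩
      simpa using b2_intr_symm hrot hr.inv hi'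
    · exact ⟨hint i hi _ rfl, b2_intr_symm hrot hr.inv (hint i hi)⟩
  have cut : ∀ i, i < j → SixCut A S (c i) :=
    fun i hi => ⟨hcS i, (hA i hi).1, hcS' i, (hA i hi).2⟩
  have cut' : ∀ i, i < j → SixCut A Sᶜ (c i).symm := fun i hi =>
    ⟨hcS' i, (hA i hi).2, by simpa using hcS i, by simpa using (hA i hi).1⟩
  have hne : ∀ i k, i < 6 → k < 6 → i ≠ k → c i ≠ c k :=
    fun i k hi hk hik he => hik (hinj i k hi hk (by rw [he]))
  have hne' : ∀ i k, i < 6 → k < 6 → i ≠ k → (c i).symm ≠ (c k).symm :=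
    fun i k hi hk hik he => hne i k hi hk hik (SimpleGraph.Dart.symm_involutive.injective he)
  refine six_main h.ce hr hS hbd ⟨?_, ?_, ?_⟩ ⟨?_, ?_, ?_⟩
  · obtain ⟨i, e, hi, he, h4⟩ := hLF
    exact ⟨e, (harc i e).1 he, hint i hi _ (by rw [six_arc_fst hrot he, hsf]), h4⟩
  · obtain ⟨i, hi, hn⟩ := hNF
    exact ⟨c i, c (i + 1), hcS _, (hA i (by omega)).1, hcS _, (hA _ hi).1, hc.chain i, hn⟩
  · refine ⟨c 0, c 1, c 2, cut 0 (by omega), cut 1 (by omega), cut 2 (by omega), hc.chain 0,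
      hc.chain 1, hne _ _ (by norm_num) (by norm_num) (by norm_num),
      hne _ _ (by norm_num) (by norm_num) (by norm_num),
      hne _ _ (by norm_num) (by norm_num) (by norm_num), ?_⟩
    by_cases hj : j = 3
    · refine Or.inr fun p1 p2 p3 => ?_
      rw [hc.chain 2]
      exact hEF hj p1 p2 p3
    · exact Or.inl ⟨c 3, cut 3 (by omega), hne _ _ (by norm_num) (by norm_num) (by norm_num),
        hne _ _ (by norm_num) (by norm_num) (by norm_num),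
        hne _ _ (by norm_num) (by norm_num) (by norm_num)⟩
  · obtain ⟨i, e, hi, he, h4⟩ := hLB
    exact ⟨e, (harc i e).2 he, hint i hi _ (six_arc_fst hrot he), h4⟩
  · obtain ⟨i, hi, hn⟩ := hNB
    exact ⟨(c (i + 1)).symm, (c i).symm, hcS' _, (hA _ hi).2, hcS' _, (hA i (by omega)).2,
      (hsf i).symm, hn⟩
  · refine ⟨(c 2).symm, (c 1).symm, (c 0).symm, cut' 2 (by omega), cut' 1 (by omega),
      cut' 0 (by omega), (hsf 1).symm, (hsf 0).symm,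
      hne' _ _ (by norm_num) (by norm_num) (by norm_num),
      hne' _ _ (by norm_num) (by norm_num) (by norm_num),
      hne' _ _ (by norm_num) (by norm_num) (by norm_num), ?_⟩
    by_cases hj : j = 3
    · refine Or.inr fun p1 p2 p3 => ?_
      rw [hsf 2]
      rcases hEB hj p1 p2 p3 with k | k | k
      · exact Or.inr (Or.inl k)
      · exact Or.inl k
      · exact Or.inr (Or.inr k)
    · exact Or.inl ⟨(c 3).symm, cut' 3 (by omega),
        hne' _ _ (by norm_num) (by norm_num) (by norm_num),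
        hne' _ _ (by norm_num) (by norm_num) (by norm_num),
        hne' _ _ (by norm_num) (by norm_num) (by norm_num)⟩

end Pool.Agent.Lib.MP_bfaad3_co
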