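import Pool.Agent.Lib.MP_bfaad3_co.Names
import Pool.Agent.Lib.MP_bfaad3_co.Six

set_option autoImplicit false

namespace Pool.Agent.Lib.MP_bfaad3_co

open Equiv

universe u

theorem far_cyc {α : Type*} (R : α → α → Prop) (g : ℕ → α) {n : ℕ} (hn : 0 < n)
    (h1 : ∀ i, i + 1 < n → R (g i) (g (i + 1))) (h2 : R (g (n - 1)) (g 0)) (i : ℕ) :
    R (g (i % n)) (g ((i + 1) % n)) := by
  have := Nat.mod_lt i hn
  rw [← Nat.mod_add_mod]
  rcases Nat.lt_or_ge (i % n + 1) n with h | h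
  · rw [Nat.mod_eq_of_lt h]
    exact h1 _ h
  · have e : i % n + 1 = n := by omega
    rw [e, Nat.mod_self, show i % n = n - 1 by omega]
    exact h2

theorem far_junc (l : List ℕ) (d : ℕ) (x : ℕ × ℕ) : x ∈ junc l d ↔
    ∃ i, i < l.length ∧ x = (sy ((d :: l).getD i 0), (d :: l).getD (i + 1) 0) := by
  induction l generalizing d with
  | nil => simp [junc]
  | cons y l ih =>
    have e : junc (y :: l) d = (sy d, y) :: junc l y := rfl
    rw [e, List.mem_cons, ih]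
    constructor
    · rintro (rfl | ⟨i, hi, rfl⟩)
      · exact ⟨0, by simp, rfl⟩
      · exact ⟨i + 1, by simpa using hi, rfl⟩
    · rintro ⟨_ | i, hi, rfl⟩
      · exact Or.inl rfl
      · exact Or.inr ⟨i, by simpa using hi, rfl⟩

theorem far_last (l : List ℕ) (d : ℕ) : lastD l d = (d :: l).getD l.length 0 := by
  induction l generalizing d with
  | nil => rfl
  | cons y l ih => exact ih y

section
variable {V : Type u} {G : SimpleGraph V} {X : Set V}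

theorem far_symm {k : ℕ} {u v : V} (w : Wk G X k u v) : Wk G X k v u := by
  rcases k with _ | _ | _ | _ | k
  · exact Eq.symm w
  · exact ⟨w.1.symm, w.2.2, w.2.1⟩
  · obtain ⟨a, h1, h2, h3, h4, h5, h6⟩ := w
    exact ⟨a, h2.symm, h1.symm, h3.symm, h6, h5, h4⟩
  · obtain ⟨a, b, h1, h2, h3, h4, h5, h6, h7, h8, h9⟩ := w
    exact ⟨b, a, h3.symm, h2.symm, h1.symm, h5.symm, h4.symm, h9, h8, h7, h6⟩
  · exact w.elim

theorem far_not {k : ℕ} {u v : V} (hk : 1 ≤ k) (w : Wk G X k u v) : u ∉ X := by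
  rcases k with _ | _ | _ | _ | k
  · omega
  · exact w.2.1
  · obtain ⟨a, h1, h2, h3, h4, h5, h6⟩ := w
    exact h4
  · obtain ⟨a, b, h1, h2, h3, h4, h5, h6, h7, h8, h9⟩ := w
    exact h6
  · exact w.elim

theorem far_tri (ht : G.CliqueFree 3) {a b c : V} (h1 : G.Adj a b) (h2 : G.Adj b c)
    (h3 : G.Adj c a) : False := by
  classical
  exact ht {a, b, c} (SimpleGraph.is3Clique_triple_iff.2 ⟨h1, h3.symm, h2⟩)

theorem far_self (ht : G.CliqueFree 3) {k : ℕ} {u : V} (hk : 1 ≤ k) (w : Wk G X k u u) :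
    False := by
  rcases k with _ | _ | _ | _ | k
  · omega
  · exact w.1.ne rfl
  · obtain ⟨a, h1, h2, h3, h4, h5, h6⟩ := w
    exact h3 rfl
  · obtain ⟨a, b, h1, h2, h3, h4, h5, h6, h7, h8, h9⟩ := w
    exact far_tri ht h1 h2 h3
  · exact w.elim

theorem far_darts {k : ℕ} {u v : V} (hk : 1 ≤ k) (w : Wk G X k u v) :
    ∃ q : ℕ → G.Dart, (q 0).fst = u ∧ (q (k - 1)).snd = v ∧ (q 0).snd ∉ X ∧
      (q (k - 1)).fst ∉ X ∧
      ∀ i, i + 1 < k → (q i).snd = (q (i + 1)).fst ∧ q (i + 1) ≠ (q i).symm := by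
  rcases k with _ | _ | _ | _ | k
  · omega
  · exact ⟨fun _ => ⟨(u, v), w.1⟩, rfl, rfl, w.2.2, w.2.1, fun i hi => by omega⟩
  · obtain ⟨a, h1, h2, h3, h4, h5, h6⟩ := w
    refine ⟨fun i => if i = 0 then ⟨(u, a), h1⟩ else ⟨(a, v), h2⟩, rfl, rfl, h5, h5,
      fun i hi => ?_⟩
    obtain rfl : i = 0 := by omega
    exact ⟨rfl, fun e => h3 (congrArg (fun x : G.Dart => x.snd) e).symm⟩
  · obtain ⟨a, b, h1, h2, h3, h4, h5, h6, h7, h8, h9⟩ := w
    refine ⟨fun i => if i = 0 then ⟨(u, a), h1⟩ else if i = 1 then ⟨(a, b), h2⟩ else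
      ⟨(b, v), h3⟩, rfl, rfl, h7, h8, fun i hi => ?_⟩
    obtain rfl | rfl : i = 0 ∨ i = 1 := by omega
    · exact ⟨rfl, fun e => h4 (congrArg (fun x : G.Dart => x.snd) e).symm⟩
    · exact ⟨rfl, fun e => h5 (congrArg (fun x : G.Dart => x.snd) e).symm⟩
  · exact w.elim

/-- closing up a path by a walk -/
theorem far_close (P : ℕ → G.Dart) {r k : ℕ} (NB : Prop)
    (hP : ∀ i, i < r → (P i).snd = (P (i + 1)).fst ∧ (NB → P (i + 1) ≠ (P i).symm))
    (w : Wk G X k (P 0).fst (P r).snd)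
    (h0 : NB → k = 0 → (P 0).snd ≠ (P r).fst)
    (h1 : NB → k ≠ 0 → (P 0).snd ∈ X ∧ (P r).fst ∈ X) :
    ∃ c : ℕ → G.Dart, (∀ i, i ≤ r → c i = P i) ∧ (∀ i, (c i).snd = (c (i + 1)).fst) ∧
      (∀ i, c (i + (r + 1 + k)) = c i) ∧ (NB → ∀ i, c (i + 1) ≠ (c i).symm) := by
  suffices H : ∃ g : ℕ → G.Dart, (∀ i, i ≤ r → g i = P i) ∧
      (∀ i, i + 1 < r + 1 + k → (g i).snd = (g (i + 1)).fst ∧ (NB → g (i + 1) ≠ (g i).symm)) ∧
      (g (r + k)).snd = (g 0).fst ∧ (NB → g 0 ≠ (g (r + k)).symm) by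
    obtain ⟨g, g1, g2, g3⟩ := H
    have := far_cyc (fun a b : G.Dart => a.snd = b.fst ∧ (NB → b ≠ a.symm)) g
      (n := r + 1 + k) (by omega) g2 (by rwa [show r + 1 + k - 1 = r + k by omega])
    refine ⟨fun i => g (i % (r + 1 + k)), fun i hi => ?_, fun i => (this i).1, fun i => ?_,
      fun nb i => (this i).2 nb⟩
    · show g _ = _
      rw [Nat.mod_eq_of_lt (by omega), g1 i hi]
    · show g _ = g _
      rw [Nat.add_mod_right]
  rcases Nat.eq_zero_or_pos k with rfl | hk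
  · exact ⟨P, fun _ _ => rfl, fun i hi => hP i (by omega), Eq.symm w,
      fun nb e => h0 nb rfl (congrArg (fun x : G.Dart => x.snd) e)⟩
  obtain ⟨q, q1, q2, q3, q4, q5⟩ := far_darts hk (far_symm w)
  have a1 : ∀ i, i ≤ r → (if i ≤ r then P i else q (i - (r + 1))) = P i := fun i hi => if_pos hi
  have a2 : ∀ i, (if r + 1 + i ≤ r then P (r + 1 + i) else q (r + 1 + i - (r + 1))) = q i :=
    fun i => by rw [if_neg (by omega), Nat.add_sub_cancel_left]
  refine ⟨fun i => if i ≤ r then P i else q (i - (r + 1)), a1, fun i hi => ?_, ?_⟩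
  · beta_reduce
    rcases lt_trichotomy i r with e | rfl | e
    · rw [a1 i e.le, a1 (i + 1) e]
      exact hP i e
    · rw [a1 i le_rfl, a2 0]
      refine ⟨q1.symm, fun nb e => q3 ?_⟩
      rw [e]
      exact (h1 nb hk.ne').2
    · obtain ⟨t, rfl⟩ : ∃ t, i = r + 1 + t := ⟨i - (r + 1), by omega⟩
      rw [a2 t, show r + 1 + t + 1 = r + 1 + (t + 1) from rfl, a2 (t + 1)]
      exact ⟨(q5 t (by omega)).1, fun _ => (q5 t (by omega)).2⟩
  · beta_reduce
    rw [a1 0 (Nat.zero_le _), show r + k = r + 1 + (k - 1) by omega, a2]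
    refine ⟨q2, fun nb e => q4 ?_⟩
    have := (h1 nb hk.ne').1
    rwa [e] at this

end

section
variable {V : Type u} [Fintype V] {G : SimpleGraph V} {L : V → Finset ℕ} {σ : Perm G.Dart}
  {A : Set G.Dart} {m nd : ℕ} {h : ℕ → G.Dart}

theorem far_flen (σ : Perm G.Dart) (d : G.Dart) : flen σ (phi σ d) = flen σ d := by
  classical
  exact Function.minimalPeriod_apply ((phi σ).injective.mem_periodicPts d)

omit [Fintype V] in
theorem far_has (hh : Hom L σ A m nd h) {d j : ℕ} {e : G.Dart} (r : Rp nd h d e)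
    (hs : has m d (2 ^ (42 + j)) = true) : fc σ e ≠ j := by
  rintro rfl
  have := (sb_iff _ _).1 hs _ (Nat.testBit_two_pow_self)
  rw [r.bitF hh] at this
  exact Bool.false_ne_true this

theorem far_refute (hc : Ctx G L σ A) (hh : Hom L σ A m nd h) {p n j : ℕ} {a b : G.Dart}
    (ra : Rp nd h p a) (rb : Rp nd h n b) (hr : refute m (2 ^ (42 + j)) p n = true) :
    Intr A a.fst ∧ ¬ (σ a = b ∧ fc σ b = j) := by
  unfold refute at hr
  simp only [cj_iff, dj_iff] at hr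
  refine ⟨intr_ok hh ra hr.1, fun ⟨e1, e2⟩ => ?_⟩
  rcases hr.2 with e | e | e
  · exact far_has hh rb e e2
  · exact ds_ok hc hh (ra.nx hh) rb e e1
  · exact ds_ok hc hh (rb.pv hh) ra e (by rw [← e1]; simp)

theorem far_loud (hc : Ctx G L σ A) (hh : Hom L σ A m nd h) {n : ℕ} {b : G.Dart}
    (rb : Rp nd h n b) (fuel : ℕ) {p : ℕ} {a : G.Dart} (ra : Rp nd h p a)
    (hl : loud m n fuel p = true) : ∃ e, Arc σ a b e ∧ flen σ e ≠ 4 := by
  induction fuel generalizing p a with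
  | zero => exact absurd hl Bool.false_ne_true
  | succ t ih =>
    have e : loud m n (t + 1) p = frc (nx m p) fun x =>
      cj (Nat.ble 128 x) (dj (has m x C4) (cj (ds m x n) (loud m n t x))) := rfl
    rw [e, frc_eq] at hl
    simp only [cj_iff, dj_iff] at hl
    rcases hl.2 with e | ⟨e1, e2⟩
    · refine ⟨σ a, ⟨1, le_rfl, rfl, fun t h1 h2 => by omega⟩, fun h4 => ?_⟩
      exact far_has hh (ra.nx hh) (j := 0) e (if_pos h4)
    · obtain ⟨e, ⟨s, s1, s2, s3⟩, h4⟩ := ih (ra.nx hh) e2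
      refine ⟨e, ⟨s + 1, by omega, s2, fun t h1 h2 => ?_⟩, h4⟩
      obtain ⟨t, rfl⟩ : ∃ t', t = t' + 1 := ⟨t - 1, by omega⟩
      rcases Nat.eq_zero_or_pos t with rfl | ht
      · exact ds_ok hc hh (ra.nx hh) rb e1
      · exact s3 t ht (by omega)

/-- the corners `js` stand for the first `r` corners of `c` -/
def FarJ (nd : ℕ) (h : ℕ → G.Dart) (c : ℕ → G.Dart) (r : ℕ) (js : List (ℕ × ℕ)) : Prop :=
  (∀ x ∈ js, ∃ i, i < r ∧ Rp nd h x.1 (c i).symm ∧ Rp nd h x.2 (c (i + 1))) ∧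
    ∀ i, i < r → ∃ x ∈ js, Rp nd h x.1 (c i).symm

theorem far_refF (hc : Ctx G L σ A) (hh : Hom L σ A m nd h) {c : ℕ → G.Dart} {r j : ℕ}
    {js : List (ℕ × ℕ)} (hJ : FarJ nd h c r js) (ch : ∀ i, (c i).snd = (c (i + 1)).fst)
    (hb : (anyL js fun x => refute m (2 ^ (42 + j)) x.1 x.2) = true) :
    ∃ i, i < r ∧ Intr A (c (i + 1)).fst ∧ ¬ (phi σ (c i) = c (i + 1) ∧ fc σ (c (i + 1)) = j) := by
  obtain ⟨x, hx, e⟩ := (anyL_iff _ _).1 hb
  obtain ⟨i, hi, r1, r2⟩ := hJ.1 x hx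
  have := far_refute hc hh r1 r2 e
  exact ⟨i, hi, ch i ▸ this.1, this.2⟩

theorem far_refB (hc : Ctx G L σ A) (hh : Hom L σ A m nd h) {c : ℕ → G.Dart} {r j : ℕ}
    {js : List (ℕ × ℕ)} (hJ : FarJ nd h c r js)
    (hb : (anyL js fun x => refute m (2 ^ (42 + j)) x.2 x.1) = true) :
    ∃ i, i < r ∧ Intr A (c (i + 1)).fst ∧
      ¬ (phi σ (c (i + 1)).symm = (c i).symm ∧ fc σ (c i).symm = j) := by
  obtain ⟨x, hx, e⟩ := (anyL_iff _ _).1 hb
  obtain ⟨i, hi, r1, r2⟩ := hJ.1 x hx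
  exact ⟨i, hi, far_refute hc hh r2 r1 e⟩

theorem far_both (hc : Ctx G L σ A) (hh : Hom L σ A m nd h) {c : ℕ → G.Dart} {r j n : ℕ}
    {js : List (ℕ × ℕ)} (hJ : FarJ nd h c r js) (cw : CW c n) (h0 : 0 < n) (h5 : n ≤ 5)
    (hj : ∀ e : G.Dart, flen σ e = n → fc σ e = j)
    (hb : both m (2 ^ (42 + j)) js = true) : False := by
  obtain ⟨b1, b2'⟩ := (cj_iff _ _).1 hb
  obtain ⟨i, -, i1, i2⟩ := far_refF hc hh hJ cw.chain b1
  obtain ⟨t, -, t1, t2⟩ := far_refB hc hh hJ b2'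
  rcases b2 hc h5 h0 cw with H | H
  · exact i2 ⟨(H i i1).1, hj _ (H i i1).2⟩
  · exact t2 ⟨(H t t1).1, hj _ (H t t1).2⟩

omit [Fintype V] in
theorem far_fc4 (e : G.Dart) (he : flen σ e = 4) : fc σ e = 0 := by simp [fc, he]
omit [Fintype V] in
theorem far_fc5 (e : G.Dart) (he : flen σ e = 5) : fc σ e = 1 := by simp [fc, he]
omit [Fintype V] in
theorem far_fc6 (e : G.Dart) (he : flen σ e = 6) : fc σ e = 2 := by simp [fc, he]

theorem far_six (hc : Ctx G L σ A) (hh : Hom L σ A m nd h) {c : ℕ → G.Dart} {r d e : ℕ}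
    {js : List (ℕ × ℕ)} (hJ : FarJ nd h c r js) (cw : CW c 6) (h6 : r + 1 ≤ 6)
    (rd : Rp nd h d (c 0)) (re : Rp nd h e (c r))
    (hs : sixOK m d e (r + 1) js = true) : False := by
  unfold sixOK both at hs
  simp only [cj_iff, dj_iff, Nat.ble_eq] at hs
  obtain ⟨h3, hi, ⟨b1, b2'⟩, l1, l2, hE⟩ := hs
  have hI : intr m (sy e) = true → r = 2 → Intr A (c 3).fst := fun x hr => by
    subst hr
    exact cw.chain 2 ▸ intr_ok hh (re.sy hh) x
  refine six hc cw h3 h6 (fun i hi' => ?_) ?_ ?_ ?_ ?_ (fun j3 p1 p2 p3 => ?_)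
    (fun j3 p1 p2 p3 => ?_)
  · obtain ⟨x, hx, r1⟩ := hJ.2 i (by omega)
    exact cw.chain i ▸ intr_ok hh r1 ((allL_iff _ _).1 hi x hx)
  · obtain ⟨x, hx, e⟩ := (anyL_iff _ _).1 l1
    obtain ⟨i, hi, r1, r2⟩ := hJ.1 x hx
    obtain ⟨y, hy⟩ := far_loud hc hh r2 6 r1 e
    exact ⟨i, y, by omega, hy⟩
  · obtain ⟨i, i0, -, i2⟩ := far_refF hc hh hJ cw.chain (j := 2) b1
    exact ⟨i, by omega, fun x => i2 ⟨x.1, far_fc6 _ x.2⟩⟩
  · obtain ⟨x, hx, e⟩ := (anyL_iff _ _).1 l2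
    obtain ⟨i, hi, r1, r2⟩ := hJ.1 x hx
    obtain ⟨y, hy⟩ := far_loud hc hh r1 6 r2 e
    exact ⟨i, y, by omega, hy⟩
  · obtain ⟨i, i0, -, i2⟩ := far_refB hc hh hJ (j := 2) b2'
    exact ⟨i, by omega, fun x => i2 ⟨x.1, far_fc6 _ x.2⟩⟩
  · rcases hE with x | x | x | ⟨x | x, -⟩
    · omega
    · exact Or.inl (intr_ok hh rd x)
    · exact Or.inr (Or.inl (hI x (by omega)))
    · obtain ⟨i, i0, -, i2⟩ := far_refF hc hh hJ cw.chain (j := 1) x
      obtain rfl | rfl : i = 0 ∨ i = 1 := by omega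
      · exact (i2 ⟨p1, far_fc5 _ p3⟩).elim
      · exact (i2 ⟨p2, far_fc5 _ (by rw [← p3, ← far_flen σ (c 1), p2])⟩).elim
    · obtain rfl : r = 2 := by omega
      exact Or.inr (Or.inr (intr_ok hh (((re.sy hh).nx hh).sy hh) x.2))
  · rcases hE with x | x | x | ⟨-, x | x⟩
    · omega
    · exact Or.inl (intr_ok hh rd x)
    · exact Or.inr (Or.inl (hI x (by omega)))
    · obtain ⟨i, i0, -, i2⟩ := far_refB hc hh hJ (j := 1) x
      obtain rfl | rfl : i = 0 ∨ i = 1 := by omega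
      · exact (i2 ⟨p2, far_fc5 _ (by rw [← p3, ← far_flen σ (c 1).symm, p2])⟩).elim
      · exact (i2 ⟨p1, far_fc5 _ p3⟩).elim
    · exact Or.inr (Or.inr (intr_ok hh ((rd.nx hh).sy hh) x.2))

theorem far_pth (hc : Ctx G L σ A) (hh : Hom L σ A m nd h) {f : ℕ → V} {n tl : ℕ}
    (ht : TlOK nd h f n tl) {X : Set V} {xm : ℕ} (hx : ∀ v, tb xm v = true → f v ∈ X)
    {ft k d : ℕ} {l : List ℕ} (hf : FarOK G X f ft xm) (hp : pthOK m tl xm ft k d l = true) :
    k < 4 ∧ ¬ Wk G X k (f (gl tl d)) (f (gl tl (sy (lastD l d)))) := by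
  unfold pthOK at hp
  simp only [frc_eq, cj_iff, dj_iff, Nat.blt_eq, Nat.beq_eq, allL_iff, len_eq, far_last,
    Nat.add_eq, Nat.succ_eq_add_one] at hp
  rw [far_last]
  obtain ⟨k4, g0, g1, hj, H⟩ := hp
  refine ⟨k4, fun w => ?_⟩
  obtain ⟨p, hp⟩ : ∃ p : ℕ → ℕ, ∀ i, (d :: l).getD i 0 = p i := ⟨_, fun _ => rfl⟩
  have hJ := far_junc l d
  have p0 : d = p 0 := hp 0
  simp only [hp] at hJ g1 H w
  generalize junc l d = js at hJ hj H
  generalize l.length = r at hJ H g1 w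
  clear hp
  subst p0
  have mem : ∀ i, i < r → (sy (p i), p (i + 1)) ∈ js := fun i hi => (hJ _).2 ⟨i, hi, rfl⟩
  have gp : ∀ i, i ≤ r → gl tl (p i) ≠ 0 := by
    rintro (_ | i) hi
    · exact g0.ne'
    · exact (hj _ (mem i hi)).1.ne'
  have gs : ∀ i, i ≤ r → gl tl (sy (p i)) ≠ 0 := fun i hi => by
    rcases hi.eq_or_lt with rfl | hi
    · exact g1.ne'
    · have := hj _ (mem i hi)
      exact this.2 ▸ this.1.ne'
  have vp : ∀ i, i ≤ r → Val nd (p i) := fun i hi => (ht _ (gp i hi)).1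
  have fp : ∀ i, i ≤ r → f (gl tl (p i)) = (h (p i)).fst := fun i hi => (ht _ (gp i hi)).2.2.symm
  have fs : ∀ i, i ≤ r → f (gl tl (sy (p i))) = (h (p i)).snd := fun i hi => by
    rw [← (ht _ (gs i hi)).2.2, hh.sym _ (vp i hi)]
    rfl
  have rp : ∀ i, i ≤ r → Rp nd h (p i) (h (p i)) := fun i hi => Or.inr (Or.inr ⟨vp i hi, rfl⟩)
  rw [fp 0 (Nat.zero_le _), fs r le_rfl] at w
  have nb : (∀ x ∈ js, ds m x.1 x.2 = true) → ∀ i, i < r → h (p (i + 1)) ≠ (h (p i)).symm :=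
    fun H i hi => (ds_ok hc hh ((rp i hi.le).sy hh) (rp (i + 1) hi) (H _ (mem i hi))).symm
  obtain ⟨c, c1, c2, c3, c4⟩ := far_close (fun i => h (p i)) (r := r) (k := k)
    ((∀ x ∈ js, ds m x.1 x.2 = true) ∧ sel (Nat.beq k 0)
      (far ft xm (gl tl (sy (p 0))) (gl tl (p r)) 0)
      (cj (tb xm (gl tl (sy (p 0)))) (tb xm (gl tl (p r)))) = true)
    (fun i hi => ⟨by
      have := (hj _ (mem i hi)).2
      rw [← fs i hi.le, ← fp (i + 1) hi]
      exact congrArg f this, fun H => nb H.1 i hi⟩) w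
    (fun H k0 => by
      subst k0
      rw [← fs 0 (Nat.zero_le _), ← fp r le_rfl]
      exact hf _ _ 0 H.2)
    (fun H k0 => by
      have := H.2
      rw [sel_eq, if_neg (by simpa using k0), cj_iff] at this
      rw [← fs 0 (Nat.zero_le _), ← fp r le_rfl]
      exact ⟨hx _ this.1, hx _ this.2⟩)
  have J : FarJ nd h c r js := by
    refine ⟨fun x hx => ?_, fun i hi => ⟨_, mem i hi, ?_⟩⟩
    · obtain ⟨i, hi, rfl⟩ := (hJ x).1 hx
      exact ⟨i, hi, c1 i hi.le ▸ (rp i hi.le).sy hh, c1 (i + 1) hi ▸ rp (i + 1) hi⟩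
    · exact c1 i hi.le ▸ (rp i hi.le).sy hh
  have c0 := c3 0
  rw [Nat.zero_add] at c0
  rcases H with H | H | ⟨H, b⟩ | ⟨H, ⟨j2, k0⟩ | ⟨N, ⟨H', b⟩ | ⟨H', b⟩⟩⟩
  · rw [H] at c0
    have := c2 0
    rw [Nat.zero_add, c0] at this
    exact (c 0).adj.ne' this
  · rw [H] at c0
    refine far_tri hc.ce.tri (a := (c 0).fst) (b := (c 1).fst) (c := (c 2).fst) ?_ ?_ ?_
    · exact c2 0 ▸ (c 0).adj
    · exact c2 1 ▸ (c 1).adj
    · exact c0 ▸ c2 2 ▸ (c 2).adj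
  · rw [H] at c3
    exact far_both hc hh J (cw_five hc.ce.tri c2 c3) (by omega) le_rfl (j := 1) far_fc5 b
  · obtain rfl : r = 1 := by omega
    subst k0
    refine nb H 0 Nat.one_pos ?_
    rw [← c1 0 (Nat.zero_le _), ← c1 1 le_rfl]
    refine SimpleGraph.Dart.ext _ _ (Prod.ext (c2 0).symm ?_)
    exact (c2 1).trans (congrArg (fun x : G.Dart => x.fst) c0)
  · rw [H'] at c3
    exact far_both hc hh J ⟨c2, c3, c4 ⟨H, N⟩⟩ (by omega) (by omega) (j := 0) far_fc4 b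
  · rw [H'] at c3
    exact far_six hc hh J ⟨c2, c3, c4 ⟨H, N⟩⟩ (by omega) (c1 0 (Nat.zero_le _) ▸ rp 0 (Nat.zero_le _))
      (c1 r le_rfl ▸ rp r le_rfl) b

/-- the table is correct -/
def FarT (G : SimpleGraph V) (X : Set V) (f : ℕ → V) (ft : ℕ) : Prop :=
  ∀ u v k, v < 64 → k < 4 → ft.testBit (fidx u v k) = true → ¬ Wk G X k (f u) (f v)

theorem far_ok (hc : Ctx G L σ A) {f : ℕ → V} {X : Set V} {xm : ℕ}
    (hx : ∀ v, tb xm v = true → f v ∈ X) {ft : ℕ} (hT : FarT G X f ft) : FarOK G X f ft xm := by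
  intro u v k hf w
  unfold far at hf
  simp only [cj_iff, dj_iff, Nat.blt_eq, Nat.ble_eq, Nat.beq_eq] at hf
  obtain ⟨h1, h2, e | ⟨h3, rfl | e | e⟩⟩ := hf
  · exact hT u v k h1 h2 (tb_eq _ _ ▸ e) w
  · exact far_self hc.ce.tri h3 w
  · exact far_not h3 w (hx _ e)
  · exact far_not h3 (far_symm w) (hx _ e)

omit [Fintype V] in
theorem far_add {f : ℕ → V} {X : Set V} {ft u v k : ℕ} (hT : FarT G X f ft) (hu : u < 64)
    (hv : v < 64) (hk : k < 4) (hw : ¬ Wk G X k (f u) (f v)) : FarT G X f (addF ft u v k) := by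
  intro u' v' k' h1 h2 hb
  have e : addF ft u v k = ft ||| (1 <<< fidx u v k ||| 1 <<< fidx v u k) := rfl
  have e' : ∀ a b c, fidx a b c = (a * 64 + b) * 4 + c := fun _ _ _ => rfl
  simp only [e, Nat.testBit_or, Nat.one_shiftLeft, Nat.testBit_two_pow, Bool.or_eq_true,
    decide_eq_true_eq] at hb
  rcases hb with hb | hb | hb
  · exact hT u' v' k' h1 h2 hb
  · rw [e', e'] at hb
    obtain ⟨rfl, rfl, rfl⟩ : u = u' ∧ v = v' ∧ k = k' := by omega
    exact hw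
  · rw [e', e'] at hb
    obtain ⟨rfl, rfl, rfl⟩ : v = u' ∧ u = v' ∧ k = k' := by omega
    exact fun w => hw (far_symm w)

theorem far_step (hc : Ctx G L σ A) (hh : Hom L σ A m nd h) {f : ℕ → V} {n tl : ℕ}
    (ht : TlOK nd h f n tl) {X : Set V} {xm : ℕ} (hx : ∀ v, tb xm v = true → f v ∈ X)
    {ft : ℕ} (hT : FarT G X f ft) (c : FarC) : FarT G X f (farStep m tl xm ft c) := by
  cases c with
  | ty a b =>
    show FarT G X f (sel _ _ _)
    rw [sel_eq]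
    split_ifs with H
    · simp only [cj_iff, Nat.blt_eq] at H
      obtain ⟨va, -, fa⟩ := ht a H.1.ne'
      obtain ⟨vb, -, fb⟩ := ht b H.2.1.ne'
      refine far_add hT (gl_lt _ _) (gl_lt _ _) (by omega) fun w => ?_
      have w' : (h a).fst = (h b).fst := fa.trans (Eq.trans w fb.symm)
      have t1 := Rp.bitT hh (Or.inr (Or.inr ⟨va, rfl⟩) : Rp nd h a (h a))
      have t2 := Rp.bitT hh (Or.inr (Or.inr ⟨vb, rfl⟩) : Rp nd h b (h b))
      rw [w'] at t1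
      have t3 := ty_lt (L := L) (A := A) (h b).fst
      generalize ty L A (h b).fst = t at t1 t2 t3
      have t4 : TM.testBit (30 + t) = true :=
        (by decide : ∀ t, t < 12 → TM.testBit (30 + t) = true) t t3
      have := (sb_iff _ _).1 H.2.2 _ t4
      rw [show ∀ x y, Nat.lor x y = x ||| y from fun _ _ => rfl, Nat.testBit_or, t1, t2] at this
      exact Bool.false_ne_true this
    · exact hT
  | pth k d l =>
    show FarT G X f (sel _ _ _)
    rw [sel_eq]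
    split_ifs with H
    · have := far_pth hc hh ht hx (far_ok hc hx hT) H
      exact far_add hT (gl_lt _ _) (gl_lt _ _) this.1 this.2
    · exact hT

theorem mkFT_ok (hc : Ctx G L σ A) (hh : Hom L σ A m nd h) {f : ℕ → V} {n tl : ℕ}
    (ht : TlOK nd h f n tl) (X : Set V) {xm : ℕ} (hx : ∀ v, tb xm v = true → f v ∈ X)
    (cs : List FarC) : FarOK G X f (mkFT m tl xm cs) xm := by
  refine far_ok hc hx ?_
  unfold mkFT
  rw [foldL_eq]
  have h0 : FarT G X f 0 := fun u v k _ _ hb => by simp at hb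
  generalize 0 = ft at h0
  induction cs generalizing ft with
  | nil => exact h0
  | cons c cs ih => exact ih _ (far_step hc hh ht hx h0 c)

end

end Pool.Agent.Lib.MP_bfaad3_co
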