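import Pool.Agent.Lib.MP_bfaad3_co.RulV
import Pool.Agent.Lib.MP_bfaad3_co.Disch

set_option autoImplicit false

/-! The face inequalities and the final contradiction. -/

namespace Pool.Agent.Lib.MP_bfaad3_co

open Equiv

universe u

theorem rf_tS (s : ℕ) {t : ℕ} (ht : t < 12) : (tS s).testBit (30 + t) = !s.testBit t := by
  change ((4095 ^^^ s) <<< 30).testBit (30 + t) = _
  rw [Nat.testBit_shiftLeft, Nat.add_sub_cancel_left, Nat.testBit_xor,
    show (4095 : ℕ) = 2 ^ 12 - 1 from rfl, Nat.testBit_two_pow_sub_one]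
  simp [ht]

theorem rf_fS (s : ℕ) {t : ℕ} (ht : t < 3) : (fS s).testBit (42 + t) = !s.testBit t := by
  change ((7 ^^^ s) <<< 42).testBit (42 + t) = _
  rw [Nat.testBit_shiftLeft, Nat.add_sub_cancel_left, Nat.testBit_xor,
    show (7 : ℕ) = 2 ^ 3 - 1 from rfl, Nat.testBit_two_pow_sub_one]
  simp [ht]

theorem rf_le {Q : ℕ → ℕ} {g : ℕ} (hi : RInv Q g) (r : ℕ) (h : Q r ≤ 1023) : Q r ≤ rg g r := by
  by_cases h1 : rg g r < 1023
  exacts [hi r h1, by omega]

/-- the patterns of vertices of degree three on a 5-face -/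
def rfCan (a b c d e : Bool) : Bool :=
  if a then (if b then (if c then (d || !e) else !e) else (!d && !e)) else (!b && !c && !d && !e)

theorem rfCan_ex : ∀ a b c d e : Bool, rfCan a b c d e = true ∨ rfCan b c d e a = true ∨
    rfCan c d e a b = true ∨ rfCan d e a b c = true ∨ rfCan e a b c d = true := by decide

variable {V : Type u} [Fintype V] {G : SimpleGraph V} {L : V → Finset ℕ} {σ : Perm G.Dart}
  {A : Set G.Dart}

omit [Fintype V] in
open Classical in
theorem rf_askK (w : W) (y n : Prog) (d : G.Dart) : run L σ A (.askT w (tS 1536) y n) d =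
    if Intr A (wr σ w d).fst then run L σ A n d else run L σ A y d := by
  rw [run, rf_tS _ (ty_lt _)]
  unfold ty
  by_cases h : Intr A (wr σ w d).fst
  · rw [if_pos h, if_pos h, if_pos]
    split_ifs <;> rfl
  · rw [if_neg h, if_neg h, if_neg]
    split_ifs <;> decide

omit [Fintype V] in
theorem rf_ask0 (w : W) (y n : Prog) (d : G.Dart) : run L σ A (.askT w (tS 1) y n) d =
    if (1 : ℕ).testBit (ty L A (wr σ w d).fst) then run L σ A y d else run L σ A n d := by
  rw [run, rf_tS _ (ty_lt _)]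
  cases (1 : ℕ).testBit (ty L A (wr σ w d).fst) <;> rfl

omit [Fintype V] in
theorem rf_ask4 (y n : Prog) (d : G.Dart) : run L σ A (.askF .e (fS 1) y n) d =
    if flen σ d = 4 then run L σ A y d else run L σ A n d := by
  rw [run, rf_fS _ (fc_lt _), wr, fc]
  by_cases h : flen σ d = 4
  · rw [if_pos h, if_pos h, if_neg (by decide)]
  · rw [if_neg h, if_neg h, if_pos (by split_ifs <;> rfl)]

omit [Fintype V] in
theorem rf_ask5 (y n : Prog) (d : G.Dart) : run L σ A (.askF .e (fS 2) y n) d =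
    if flen σ d = 5 then run L σ A y d else run L σ A n d := by
  rw [run, rf_fS _ (fc_lt _), wr, fc]
  by_cases h : flen σ d = 5
  · rw [if_neg (c := flen σ d = 4) (by omega), if_pos h, if_pos h, if_neg (by decide)]
  · rw [if_neg h, if_neg h, if_pos (by split_ifs <;> rfl)]

omit [Fintype V] in
theorem rf_ask6 (y n : Prog) (d : G.Dart) : run L σ A (.askF .e (fS 4) y n) d =
    if flen σ d = 4 ∨ flen σ d = 5 then run L σ A n d else run L σ A y d := by
  rw [run, rf_fS _ (fc_lt _), wr, fc]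
  by_cases h : flen σ d = 4
  · rw [if_pos h, if_pos (Or.inl h), if_pos (by decide)]
  by_cases h' : flen σ d = 5
  · rw [if_neg h, if_pos h', if_pos (Or.inr h'), if_pos (by decide)]
  · rw [if_neg h, if_neg h', if_neg (not_or.2 ⟨h, h'⟩), if_neg (by decide)]

theorem rf_tgA {hyp p : Prog} {c : ℕ} (hs : Snd.{u} (tgA hyp p) (0, 256, iniA c))
    (h0 : rg (iniA c) 0 = 1023 ∧ rg (iniA c) 1 = c ∧ rg (iniA c) 2 = 1023) (hc : Ctx G L σ A)
    (e : G.Dart) (h1 : run L σ A hyp e = 1) : run L σ A p e + c ≤ 600 := by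
  refine hs.start hc e (fun r => if r = 0 then run L σ A p e else if r = 1 then c else
    if r = 2 then 1 else 0) _ ⟨⟨h1.ge, le_rfl⟩, fun g k hi hf => ?_⟩ fun r hr => ?_
  · have a0 := hi 0
    have a1 := hi 1
    have a2 := hi 2
    simp only [tgA, finA, sel_eq, Nat.beq_eq, Nat.add_eq] at hf
    simp only [if_true, OfNat.ofNat_ne_zero, OfNat.ofNat_ne_one, one_ne_zero, if_false] at a0 a1 a2
    split_ifs at hf
    · rw [Nat.beq_eq] at hf; omega
    · rw [Nat.ble_eq] at hf; omega
  · dsimp only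
    split_ifs with b0 b1 b2
    · rw [b0] at hr; omega
    · rw [b1, h0.2.1]
    · rw [b2] at hr; omega
    · exact Nat.zero_le _

theorem rf_six (hs : Snd.{u} tSix (0, 256, iniA 1023)) (hc : Ctx G L σ A) (e : G.Dart)
    (h6 : 6 ≤ flen σ e) : run L σ A NW e ≤ 360 ∧
      (¬ Intr A e.fst → Intr A e.snd → run L σ A NW e ≤ 72) := by
  have h1 : run L σ A ISF6 e = 1 := by rw [ISF6, rf_ask6, if_neg (by omega), run]
  have h2 : run L σ A NW e + run L σ A LIM6 e ≤ 600 := by
    refine hs.start hc e (fun r => if r = 0 then run L σ A NW e else if r = 1 then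
      run L σ A LIM6 e else if r = 2 then 1 else 0) _
      ⟨⟨h1.ge, le_rfl, le_rfl⟩, fun g k hi hf => ?_⟩ fun r hr => ?_
    · have a0 := hi 0
      have a1 := hi 1
      have a2 := hi 2
      simp only [tSix, tgB, finA, sel_eq, Nat.beq_eq, Nat.add_eq] at hf
      simp only [if_true, OfNat.ofNat_ne_zero, OfNat.ofNat_ne_one, one_ne_zero, if_false]
        at a0 a1 a2
      split_ifs at hf
      · rw [Nat.beq_eq] at hf; omega
      · rw [Nat.ble_eq] at hf; omega
    · dsimp only
      split_ifs with b0 b1 b2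
      · rw [b0] at hr; exact absurd hr (by decide)
      · rw [b1] at hr; exact absurd hr (by decide)
      · rw [b2] at hr; exact absurd hr (by decide)
      · exact Nat.zero_le _
  rw [LIM6, rf_askK, rf_askK] at h2
  simp only [run, wr, w1] at h2
  refine ⟨by split_ifs at h2 <;> omega, fun a b => ?_⟩
  rw [if_neg a, if_pos (by exact b)] at h2
  omega

theorem rf_NW (e : G.Dart) : run L σ A NW e ≤ 1023 := by
  obtain ⟨h, hh, he⟩ := hom_start (L := L) (σ := σ) (A := A) e
  exact (ev_up hh NW (Or.inr (Or.inr ⟨⟨le_rfl, by norm_num, by norm_num⟩, he⟩))).trans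
    (by decide +kernel)

theorem rf_four (hs : Snd.{u} tF4 (0, 256, 2 ^ 60 - 1)) (hc : Ctx G L σ A) (e : G.Dart) {c : ℕ}
    (h0 : 0 < c) (h1 : c ≤ 1023) (h : run L σ A LIM4 e = c) :
    c + ∑ i ∈ Finset.range 4, run L σ A NW ((phi σ ^ i) e) ≤ 2000 := by
  refine hs.start hc e (fun r => if r < 4 then run L σ A NW ((phi σ ^ r) e) else
    if r = 5 then c else 0) _ ⟨⟨⟨h.ge, le_rfl⟩, le_rfl, le_rfl, le_rfl⟩, fun g k hi hf => ?_⟩
    fun r hr => ?_
  · have a0 := rf_le hi 0 (rf_NW _)
    have a1 := rf_le hi 1 (rf_NW _)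
    have a2 := rf_le hi 2 (rf_NW _)
    have a3 := rf_le hi 3 (rf_NW _)
    have a5 : c ≤ _ := rf_le hi 5 h1
    simp only [tF4, finF4, sel_eq, Nat.beq_eq, Nat.add_eq] at hf
    rw [if_pos (by norm_num)] at a0 a1 a2 a3
    simp only [Finset.sum_range_succ, Finset.sum_range_zero]
    split_ifs at hf
    · rw [Nat.beq_eq] at hf; omega
    · rw [Nat.ble_eq] at hf; omega
  · dsimp only
    split_ifs with b0 b1
    · exact absurd hr (by interval_cases r <;> decide)
    · rw [b1] at hr; exact absurd hr (by decide)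
    · exact Nat.zero_le _

theorem rf_five (hs : Snd.{u} tF5 (0, 256, 2 ^ 60 - 1)) (hc : Ctx G L σ A) (e : G.Dart) {c : ℕ}
    (h0 : 0 < c) (h1 : c ≤ 1023) (h : run L σ A LIM5 e = c) :
    c + ∑ i ∈ Finset.range 5, run L σ A NW ((phi σ ^ i) e) ≤ 2000 := by
  refine hs.start hc e (fun r => if r < 5 then run L σ A NW ((phi σ ^ r) e) else
    if r = 5 then c else 0) _ ⟨⟨⟨h.ge, le_rfl, le_rfl⟩, le_rfl, le_rfl, le_rfl⟩,
      fun g k hi hf => ?_⟩ fun r hr => ?_
  · have a0 := rf_le hi 0 (rf_NW _)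
    have a1 := rf_le hi 1 (rf_NW _)
    have a2 := rf_le hi 2 (rf_NW _)
    have a3 := rf_le hi 3 (rf_NW _)
    have a4 := rf_le hi 4 (rf_NW _)
    have a5 : c ≤ _ := rf_le hi 5 h1
    simp only [tF5, finF5, sel_eq, Nat.beq_eq, Nat.add_eq] at hf
    rw [if_pos (by norm_num)] at a0 a1 a2 a3 a4
    simp only [Finset.sum_range_succ, Finset.sum_range_zero]
    split_ifs at hf
    · rw [Nat.beq_eq] at hf; omega
    · rw [Nat.ble_eq] at hf; omega
  · dsimp only
    split_ifs with b0 b1
    · exact absurd hr (by interval_cases r <;> decide)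
    · rw [b1] at hr; exact absurd hr (by decide)
    · exact Nat.zero_le _

omit [Fintype V] in
theorem rf_w (hr : IsRot G σ) (e : G.Dart) : (wr σ .e e).fst = ((phi σ ^ 0) e).fst ∧
    (wr σ w1 e).fst = ((phi σ ^ 1) e).fst ∧
    (wr σ w2 e).fst = ((phi σ ^ 2) e).fst ∧ (wr σ w3 e).fst = ((phi σ ^ 3) e).fst ∧
    (wr σ w4 e).fst = ((phi σ ^ 4) e).fst :=
  ⟨rfl, (dis_phi_fst hr e).symm, (dis_phi_fst hr (phi σ e)).symm,
    (dis_phi_fst hr (phi σ (phi σ e))).symm, (dis_phi_fst hr (phi σ (phi σ (phi σ e)))).symm⟩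

omit [Fintype V] in
theorem rf_can (hr : IsRot G σ) (e : G.Dart)
    (h : rfCan ((1 : ℕ).testBit (ty L A ((phi σ ^ 0) e).fst))
      ((1 : ℕ).testBit (ty L A ((phi σ ^ 1) e).fst)) ((1 : ℕ).testBit (ty L A ((phi σ ^ 2) e).fst))
      ((1 : ℕ).testBit (ty L A ((phi σ ^ 3) e).fst))
      ((1 : ℕ).testBit (ty L A ((phi σ ^ 4) e).fst)) = true) : run L σ A CAN5 e = 344 := by
  obtain ⟨e0, e1, e2, e3, e4⟩ := rf_w hr e
  simp only [CAN5, rf_ask0, e0, e1, e2, e3, e4]
  revert h
  generalize (1 : ℕ).testBit (ty L A ((phi σ ^ 0) e).fst) = a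
  generalize (1 : ℕ).testBit (ty L A ((phi σ ^ 1) e).fst) = b
  generalize (1 : ℕ).testBit (ty L A ((phi σ ^ 2) e).fst) = c
  generalize (1 : ℕ).testBit (ty L A ((phi σ ^ 3) e).fst) = d
  generalize (1 : ℕ).testBit (ty L A ((phi σ ^ 4) e).fst) = f
  cases a <;> cases b <;> cases c <;> cases d <;> cases f <;> simp [rfCan, run]

omit [Fintype V] in
theorem rf_key (d : G.Dart) : 216 * ((flen σ d : ℤ) - 4) + 288 * flen σ d -
      (∑ i ∈ Finset.range (flen σ d), run L σ A NW ((phi σ ^ i) d) : ℕ) + 288 * kk σ A d ≤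
    FF σ (fun e => (run L σ A PV e : ℤ) - 72) (fun e => run L σ A XP e) d +
      KK σ A (fun e => (run L σ A PV e : ℤ) - 72) (fun e => run L σ A QP e) d := by
  have : (288 : ℤ) * flen σ d = ∑ _i ∈ Finset.range (flen σ d), (288 : ℤ) := by simp [mul_comm]
  rw [FF, KK, kk, this, Nat.cast_sum, Finset.mul_sum, add_assoc, add_sub_assoc, add_assoc,
    ← Finset.sum_sub_distrib, ← Finset.sum_add_distrib, ← Finset.sum_add_distrib]
  refine add_le_add le_rfl (Finset.sum_le_sum fun i _ => ?_)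
  generalize (phi σ ^ i) d = e
  rw [NW, rf_askK]
  simp only [run.eq_6, run.eq_7, rf_askK, run.eq_1, wr, w1]
  by_cases h1 : Intr A e.fst <;> by_cases h2 : Intr A e.snd <;>
    simp only [h1, h2, SimpleGraph.Dart.symm_toProd, Prod.fst_swap, if_true, if_false, or_self,
      true_or, or_true] <;> omega

theorem rules_false (hc : Ctx G L σ A)
    (hLow : Snd.{u} tLow (0, 256, iniA 1023)) (hR : Snd.{u} tR (0, 256, iniA 456))
    (hTab : Snd.{u} tTab (0, 256, iniA 1023)) (hPair : Snd.{u} tPair (0, 256, 2 ^ 40 - 1))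
    (h15 : Snd.{u} tV15 (0, 256, 2 ^ 110 - 1 - 879 * 2 ^ 40))
    (h31 : Snd.{u} tV31 (0, 256, 2 ^ 110 - 1))
    (hSix : Snd.{u} tSix (0, 256, iniA 1023)) (hHx : Snd.{u} tHx (0, 256, iniA 600))
    (hK1 : Snd.{u} tK1 (0, 256, iniA 528)) (hK2 : Snd.{u} tK2 (0, 256, iniA 528))
    (hK3 : Snd.{u} tK3 (0, 256, iniA 600))
    (hF4 : Snd.{u} tF4 (0, 256, 2 ^ 60 - 1)) (hF5 : Snd.{u} tF5 (0, 256, 2 ^ 60 - 1)) : False := by
  classical
  have hr := hc.ce.rot
  have hsnd : ∀ (d : G.Dart) i, ((phi σ ^ i) d).snd = ((phi σ ^ (i + 1)) d).fst := fun d i => by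
    rw [dis_succ, dis_phi_fst hr]
  have hsix : ∀ d : G.Dart, 6 ≤ flen σ d → ∀ i, run L σ A NW ((phi σ ^ i) d) ≤ 360 :=
    fun d h i => (rf_six hSix hc _ (by rwa [dis_flen_pow])).1
  refine discharge hc (fun e => (run L σ A PV e : ℤ) - 72) (fun e => run L σ A XP e)
    (fun e => run L σ A QP e) (fun _ => Nat.cast_nonneg _) (fun d h1 h2 => ?_)
    (rul_v hc hLow hR hTab hPair h15 h31) (fun d h => ?_) (fun d h1 h2 => ?_) fun d h => ?_
  · have := rf_tgA hHx (by decide) hc d (by
      rw [BOTHK, rf_askK, rf_askK, if_neg (by exact h1), if_neg (by exact h2), run])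
    omega
  · have h' : ∀ j i, Intr A ((phi σ ^ i) ((phi σ ^ j) d)).fst := fun j i => by
      rw [← dis_add]; exact h _
    have key : ∀ j, 216 * ((flen σ d : ℤ) - 4) + 288 * flen σ d -
        (∑ i ∈ Finset.range (flen σ d), run L σ A NW ((phi σ ^ i) ((phi σ ^ j) d)) : ℕ) ≤
        FF σ (fun e => (run L σ A PV e : ℤ) - 72) (fun e => run L σ A XP e) ((phi σ ^ j) d) :=
      fun j => by
        have := rf_key (L := L) (σ := σ) (A := A) ((phi σ ^ j) d)
        rw [KK, kk, Finset.sum_eq_zero (s := Finset.range (flen σ _)) (f := fun i => ite _ 0 1)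
          fun i _ => if_pos (Or.inl (h' j i)), Finset.sum_eq_zero
          (s := Finset.range (flen σ _)) (f := fun i => ite _ 0 _) fun i _ => if_pos (h' j i),
          dis_flen_pow] at this
        omega
    obtain h4 | h5 | h6 : flen σ d = 4 ∨ flen σ d = 5 ∨ 6 ≤ flen σ d := by
      have := hc.ce.four_le_flen d
      omega
    · obtain ⟨e0, e1, e2, e3, -⟩ := rf_w hr d
      have := rf_four hF4 hc d (c := 848) (by norm_num) (by norm_num) (by
        simp only [LIM4, rf_ask4, rf_askK, e0, e1, e2, e3, h, h4, if_true, run.eq_1])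
      have h2 := key 0
      rw [h4] at h2
      exact ⟨0, le_trans (by simp only [pow_zero, Perm.one_apply]; omega) h2⟩
    · have h7 : ∀ i j, (phi σ ^ i) ((phi σ ^ j) d) = (phi σ ^ ((i + j) % 5)) d := fun i j => by
        rw [← dis_add, ← h5, flen, dis_mod]
      obtain ⟨j, hj⟩ : ∃ j, run L σ A CAN5 ((phi σ ^ j) d) = 344 := by
        rcases rfCan_ex ((1 : ℕ).testBit (ty L A ((phi σ ^ 0) d).fst))
          ((1 : ℕ).testBit (ty L A ((phi σ ^ 1) d).fst))
          ((1 : ℕ).testBit (ty L A ((phi σ ^ 2) d).fst))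
          ((1 : ℕ).testBit (ty L A ((phi σ ^ 3) d).fst))
          ((1 : ℕ).testBit (ty L A ((phi σ ^ 4) d).fst)) with a | a | a | a | a
        · exact ⟨0, rf_can hr _ (by simpa only [h7] using a)⟩
        · exact ⟨1, rf_can hr _ (by simpa only [h7] using a)⟩
        · exact ⟨2, rf_can hr _ (by simpa only [h7] using a)⟩
        · exact ⟨3, rf_can hr _ (by simpa only [h7] using a)⟩
        · exact ⟨4, rf_can hr _ (by simpa only [h7] using a)⟩
      obtain ⟨e0, e1, e2, e3, e4⟩ := rf_w hr ((phi σ ^ j) d)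
      have := rf_five hF5 hc ((phi σ ^ j) d) (c := 344) (by norm_num) (by norm_num) (by
        simp only [LIM5, rf_ask5, rf_askK, e0, e1, e2, e3, e4, h', dis_flen_pow, h5, if_true, hj])
      have h2 := key j
      rw [h5] at h2
      exact ⟨j, le_trans (by omega) h2⟩
    · have h2 := key 0
      have h3 := Finset.sum_le_card_nsmul (Finset.range (flen σ d)) _ 360
        fun i _ => hsix ((phi σ ^ 0) d) h6 i
      rw [Finset.card_range, smul_eq_mul] at h3
      exact ⟨0, le_trans (by omega) h2⟩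
  · have key := rf_key (L := L) (σ := σ) (A := A) (phi σ d)
    have hfl : flen σ (phi σ d) = flen σ d := dis_flen_pow d 1
    have h3 : ¬ Intr A ((phi σ ^ 0) (phi σ d)).fst := by
      rwa [pow_zero, Perm.one_apply, dis_phi_fst hr]
    have hlast : ∀ n, flen σ d = n + 1 → Intr A ((phi σ ^ n) (phi σ d)).fst := fun n hn => by
      rwa [← dis_succ', ← hn, flen, dis_self]
    rw [hfl] at key
    obtain ⟨e0, e1, e2, e3, e4⟩ := rf_w hr (phi σ d)
    obtain h4 | h5 | h6 : flen σ d = 4 ∨ flen σ d = 5 ∨ 6 ≤ flen σ d := by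
      have := hc.ce.four_le_flen d
      omega
    · have h7 := hlast 3 h4
      rw [h4] at key
      by_cases h8 : ¬ Intr A ((phi σ ^ 1) (phi σ d)).fst ∧ ¬ Intr A ((phi σ ^ 2) (phi σ d)).fst
      · have := rf_four hF4 hc (phi σ d) (c := 848) (by norm_num) (by norm_num) (by
          simp only [LIM4, rf_ask4, rf_askK, e0, e1, e2, e3, hfl, h4, h3, h7, h8.1, h8.2, if_true,
            if_false, run.eq_1])
        refine Or.inr ⟨by omega, h4, ?_⟩
        rw [kk, hfl, h4]
        simp only [Finset.sum_range_succ, Finset.sum_range_zero, hsnd, zero_add, Nat.reduceAdd, h3,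
          h7, h8.1, h8.2, or_self, or_true, true_or, if_true, if_false]
        norm_num
      · have := rf_four hF4 hc (phi σ d) (c := 849) (by norm_num) (by norm_num) (by
          simp only [LIM4, rf_ask4, rf_askK, e0, e1, e2, e3, hfl, h4, h3, h7, if_true,
            if_false, run.eq_1]
          split_ifs with a b
          exacts [rfl, rfl, absurd ⟨a, b⟩ h8])
        exact Or.inl (by omega)
    · have := rf_five hF5 hc (phi σ d) (c := 345) (by norm_num) (by norm_num) (by
        simp only [LIM5, rf_ask5, rf_askK, e0, e4, hfl, h5, h3, hlast 4 h5, if_true, if_false,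
          run.eq_1])
      rw [h5] at key
      exact Or.inl (by omega)
    · obtain ⟨k, k1, k2⟩ := dis_trans (fun i => ¬ Intr A ((phi σ ^ i) (phi σ d)).fst)
        (Nat.zero_le (flen σ d - 1)) h3 (not_not.2 (hlast _ (by omega)))
      have hk : k % flen σ d ∈ Finset.range (flen σ d) :=
        Finset.mem_range.2 (Nat.mod_lt _ (by omega))
      have h7 := (rf_six hSix hc ((phi σ ^ k) (phi σ d)) (by rwa [dis_flen_pow, hfl])).2 k1
        (by rw [hsnd]; exact not_not.1 k2)
      have h8 := Finset.sum_le_card_nsmul ((Finset.range (flen σ d)).erase (k % flen σ d)) _ 360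
        fun i _ => hsix (phi σ d) (by rwa [hfl]) i
      have h9 := Finset.add_sum_erase _ (fun i => run L σ A NW ((phi σ ^ i) (phi σ d))) hk
      rw [Finset.card_erase_of_mem hk, Finset.card_range, smul_eq_mul] at h8
      have h10 : (phi σ ^ (k % flen σ d)) (phi σ d) = (phi σ ^ k) (phi σ d) := by
        rw [← hfl, flen, dis_mod]
      simp only [h10] at h9
      exact Or.inl (by omega)
  · obtain ⟨e0, e1, e2, e3, e4⟩ := rf_w hr d
    have h1 : run L σ A HYPK d = 1 := by
      simp only [HYPK, rf_ask4, rf_ask6, rf_askK, e0, e1, e2, e3, e4, h, if_false, run.eq_1,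
        ite_self]
    have a1 := rf_tgA hK1 (by decide) hc d h1
    have a2 := rf_tgA hK2 (by decide) hc d h1
    have a3 := rf_tgA hK3 (by decide) hc d h1
    rw [run, run, wr] at a2
    exact ⟨by omega, by omega⟩

end Pool.Agent.Lib.MP_bfaad3_co
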