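import Pool.Agent.Lib.MP_bfaad3_co.PatAll
import Pool.Agent.Lib.MP_bfaad3_co.RulF
import Pool.Agent.Lib.MP_bfaad3_co.TC0
import Pool.Agent.Lib.MP_bfaad3_co.TC1
import Pool.Agent.Lib.MP_bfaad3_co.TC2
import Pool.Agent.Lib.MP_bfaad3_co.TC3
import Pool.Agent.Lib.MP_bfaad3_co.TC4
import Pool.Agent.Lib.MP_bfaad3_co.TC5
import Pool.Agent.Lib.MP_bfaad3_co.TC6
import Pool.Agent.Lib.MP_bfaad3_co.TC7

set_option autoImplicit false
set_option maxRecDepth 100000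

namespace Pool.Agent.Lib.MP_bfaad3_co

universe u

theorem snd_of {T : Tgt} {cuts : BT (ℕ × ℕ × ℕ)} {x : ℕ × ℕ × ℕ} {c : ℕ}
    (h : chk T pats cuts (fun _ _ _ => false) 400 x.1 x.2.1 x.2.2 c = true)
    (hc : cuts.All (Snd.{u} T)) : Snd.{u} T x :=
  chk_sound _ _ _ _ pats_ok hc redOK_false _ _ _ _ _ h

theorem stLow_0 : Snd.{u} tLow xtLow_0 := snd_of ctLow_0 (cut0_ok _)
theorem stR_0 : Snd.{u} tR xtR_0 := snd_of ctR_0 (cut0_ok _)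
theorem stSix_0 : Snd.{u} tSix xtSix_0 := snd_of ctSix_0 (cut0_ok _)
theorem stHx_0 : Snd.{u} tHx xtHx_0 := snd_of ctHx_0 (cut0_ok _)
theorem stK1_0 : Snd.{u} tK1 xtK1_0 := snd_of ctK1_0 (cut0_ok _)
theorem stK2_0 : Snd.{u} tK2 xtK2_0 := snd_of ctK2_0 (cut0_ok _)
theorem stK3_0 : Snd.{u} tK3 xtK3_0 := snd_of ctK3_0 (cut0_ok _)
theorem stF4_0 : Snd.{u} tF4 xtF4_0 := snd_of ctF4_0 (cut0_ok _)
theorem stTab_2 : Snd.{u} tTab xtTab_2 := snd_of ctTab_2 (cut0_ok _)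
theorem stTab_1 : Snd.{u} tTab xtTab_1 := snd_of ctTab_1 (cut0_ok _)
theorem stTab_0 : Snd.{u} tTab xtTab_0 := snd_of ctTab_0 (And.intro stTab_1 stTab_2)
theorem stPair_5 : Snd.{u} tPair xtPair_5 := snd_of ctPair_5 (cut0_ok _)
theorem stPair_4 : Snd.{u} tPair xtPair_4 := snd_of ctPair_4 (cut0_ok _)
theorem stPair_3 : Snd.{u} tPair xtPair_3 := snd_of ctPair_3 (cut0_ok _)
theorem stPair_2 : Snd.{u} tPair xtPair_2 := snd_of ctPair_2 (cut0_ok _)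
theorem stPair_1 : Snd.{u} tPair xtPair_1 := snd_of ctPair_1 (And.intro (And.intro stPair_3 stPair_4) stPair_5)
theorem stPair_0 : Snd.{u} tPair xtPair_0 := snd_of ctPair_0 (And.intro stPair_1 stPair_2)
theorem stV15_1 : Snd.{u} tV15 xtV15_1 := snd_of ctV15_1 (cut0_ok _)
theorem stV15_0 : Snd.{u} tV15 xtV15_0 := snd_of ctV15_0 stV15_1
theorem stF5_11 : Snd.{u} tF5 xtF5_11 := snd_of ctF5_11 (cut0_ok _)
theorem stF5_10 : Snd.{u} tF5 xtF5_10 := snd_of ctF5_10 (cut0_ok _)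
theorem stF5_9 : Snd.{u} tF5 xtF5_9 := snd_of ctF5_9 (cut0_ok _)
theorem stF5_8 : Snd.{u} tF5 xtF5_8 := snd_of ctF5_8 (cut0_ok _)
theorem stF5_7 : Snd.{u} tF5 xtF5_7 := snd_of ctF5_7 (cut0_ok _)
theorem stF5_6 : Snd.{u} tF5 xtF5_6 := snd_of ctF5_6 (cut0_ok _)
theorem stF5_5 : Snd.{u} tF5 xtF5_5 := snd_of ctF5_5 (And.intro stF5_7 stF5_8)
theorem stF5_4 : Snd.{u} tF5 xtF5_4 := snd_of ctF5_4 (cut0_ok _)
theorem stF5_3 : Snd.{u} tF5 xtF5_3 := snd_of ctF5_3 (cut0_ok _)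
theorem stF5_2 : Snd.{u} tF5 xtF5_2 := snd_of ctF5_2 (And.intro (And.intro stF5_9 stF5_10) stF5_11)
theorem stF5_1 : Snd.{u} tF5 xtF5_1 := snd_of ctF5_1 (And.intro (And.intro stF5_4 stF5_5) stF5_6)
theorem stF5_0 : Snd.{u} tF5 xtF5_0 := snd_of ctF5_0 (And.intro (And.intro stF5_1 stF5_2) stF5_3)
theorem stV31_13 : Snd.{u} tV31 xtV31_13 := snd_of ctV31_13 (cut0_ok _)
theorem stV31_12 : Snd.{u} tV31 xtV31_12 := snd_of ctV31_12 stV31_13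
theorem stV31_11 : Snd.{u} tV31 xtV31_11 := snd_of ctV31_11 stV31_12
theorem stV31_10 : Snd.{u} tV31 xtV31_10 := snd_of ctV31_10 (cut0_ok _)
theorem stV31_9 : Snd.{u} tV31 xtV31_9 := snd_of ctV31_9 (cut0_ok _)
theorem stV31_8 : Snd.{u} tV31 xtV31_8 := snd_of ctV31_8 (cut0_ok _)
theorem stV31_7 : Snd.{u} tV31 xtV31_7 := snd_of ctV31_7 (cut0_ok _)
theorem stV31_6 : Snd.{u} tV31 xtV31_6 := snd_of ctV31_6 (cut0_ok _)
theorem stV31_5 : Snd.{u} tV31 xtV31_5 := snd_of ctV31_5 (cut0_ok _)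
theorem stV31_4 : Snd.{u} tV31 xtV31_4 := snd_of ctV31_4 (cut0_ok _)
theorem stV31_3 : Snd.{u} tV31 xtV31_3 := snd_of ctV31_3 (cut0_ok _)
theorem stV31_2 : Snd.{u} tV31 xtV31_2 := snd_of ctV31_2 (cut0_ok _)
theorem stV31_1 : Snd.{u} tV31 xtV31_1 := snd_of ctV31_1 (And.intro (And.intro (And.intro stV31_4 stV31_5) (And.intro stV31_6 stV31_7)) (And.intro (And.intro stV31_8 stV31_9) (And.intro stV31_10 stV31_11)))
theorem stV31_0 : Snd.{u} tV31 xtV31_0 := snd_of ctV31_0 (And.intro (And.intro stV31_1 stV31_2) stV31_3)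

theorem no_ctx {V : Type u} [Fintype V] (G : SimpleGraph V) (L : V → Finset ℕ)
    (σ : Equiv.Perm G.Dart) (A : Set G.Dart) (hc : Ctx G L σ A) : False :=
  rules_false hc
    ((show xtLow_0 = (0, 256, iniA 1023) by decide +kernel) ▸ stLow_0)
    ((show xtR_0 = (0, 256, iniA 456) by decide +kernel) ▸ stR_0)
    ((show xtTab_0 = (0, 256, iniA 1023) by decide +kernel) ▸ stTab_0)
    ((show xtPair_0 = (0, 256, 2 ^ 40 - 1) by decide +kernel) ▸ stPair_0)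
    ((show xtV15_0 = (0, 256, 2 ^ 110 - 1 - 879 * 2 ^ 40) by decide +kernel) ▸ stV15_0)
    ((show xtV31_0 = (0, 256, 2 ^ 110 - 1) by decide +kernel) ▸ stV31_0)
    ((show xtSix_0 = (0, 256, iniA 1023) by decide +kernel) ▸ stSix_0)
    ((show xtHx_0 = (0, 256, iniA 600) by decide +kernel) ▸ stHx_0)
    ((show xtK1_0 = (0, 256, iniA 528) by decide +kernel) ▸ stK1_0)
    ((show xtK2_0 = (0, 256, iniA 528) by decide +kernel) ▸ stK2_0)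
    ((show xtK3_0 = (0, 256, iniA 600) by decide +kernel) ▸ stK3_0)
    ((show xtF4_0 = (0, 256, 2 ^ 60 - 1) by decide +kernel) ▸ stF4_0)
    ((show xtF5_0 = (0, 256, 2 ^ 60 - 1) by decide +kernel) ▸ stF5_0)

end Pool.Agent.Lib.MP_bfaad3_co
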