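import Pool.Agent.Lib.MP_bfaad3_co.GameDef

set_option autoImplicit false

/-! Single steps of the colouring game. -/

namespace Pool.Agent.Lib.MP_bfaad3_co

/-- naming of `p` colours -/
structure Nm (κ : ℕ → ℕ) (p P : ℕ) : Prop where
  le : p ≤ 13
  eq : P + 1 = 2 ^ p
  inj : ∀ x y, x < p → y < p → κ x = κ y → x = y

/-- the state is correct -/
def St (O : ℕ → Finset ℕ) (κ : ℕ → ℕ) (p st : ℕ) : Prop :=
  ∀ a, Ob a → (∀ x, x < 14 → (st.testBit (a + x) = true → x < p ∧ κ x ∈ O a) ∧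
      (st.testBit (a + 14 + x) = true →
        (x < p → κ x ∉ O a) ∧ (p ≤ x → ∀ t ∈ O a, ∃ y, y < p ∧ κ y = t))) ∧
    ∀ k, k < 8 → (st.testBit (a + (k + 42)) = true → k ≤ (O a).card) ∧
      (st.testBit (a + (k + 50)) = true → (O a).card ≤ k)

/-- the blocked fields agree -/
def SameC (s t : ℕ) : Prop := ∀ a, Ob a → cC s a = cC t a

namespace Game1

theorem frc_eq {α : Type} (e : ℕ) (k : ℕ → α) : frc e k = k e := by cases e <;> rfl
theorem sel_eq {α : Type} (c : Bool) (t f : α) : sel c t f = if c = true then t else f := by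
  cases c <;> rfl
theorem cj_iff (a b : Bool) : cj a b = true ↔ a = true ∧ b = true := by
  cases a <;> simp [cj]
theorem tb_eq (m i : ℕ) : tb m i = m.testBit i := by
  rw [Bool.eq_iff_iff, tb, Nat.beq_eq, Nat.testBit_eq_decide_div_mod_eq, decide_eq_true_iff,
    ← Nat.shiftRight_eq_div_pow, ← Nat.and_one_is_mod]
  rfl

theorem land_eq (a b : ℕ) : Nat.land a b = a &&& b := rfl
theorem lor_eq (a b : ℕ) : Nat.lor a b = a ||| b := rfl
theorem xor_eq (a b : ℕ) : Nat.xor a b = a ^^^ b := rfl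
theorem shl_eq (a b : ℕ) : Nat.shiftLeft a b = a <<< b := rfl
theorem shr_eq (a b : ℕ) : Nat.shiftRight a b = a >>> b := rfl

theorem full_bit (i : ℕ) : Nat.testBit 16383 i = true ↔ i < 14 := by
  rw [show 16383 = 2 ^ 14 - 1 by norm_num, Nat.testBit_two_pow_sub_one, decide_eq_true_iff]

theorem fld_bit (st b i : ℕ) : (Nat.land (Nat.shiftRight st b) 16383).testBit i = true ↔
    i < 14 ∧ st.testBit (b + i) = true := by
  rw [land_eq, shr_eq, Nat.testBit_and, Bool.and_eq_true, full_bit, Nat.testBit_shiftRight,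
    and_comm]

theorem cI_bit (st a i : ℕ) : (cI st a).testBit i = true ↔ i < 14 ∧ st.testBit (a + i) = true :=
  fld_bit st a i
theorem cO_bit (st a i : ℕ) :
    (cO st a).testBit i = true ↔ i < 14 ∧ st.testBit (a + 14 + i) = true := fld_bit st (a + 14) i
theorem cC_bit (st a i : ℕ) :
    (cC st a).testBit i = true ↔ i < 14 ∧ st.testBit (a + 28 + i) = true := fld_bit st (a + 28) i
theorem cL_eq (st a k : ℕ) : cL st a k = st.testBit (a + (k + 42)) := tb_eq _ _
theorem cU_eq (st a k : ℕ) : cU st a k = st.testBit (a + (k + 50)) := tb_eq _ _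

theorem lt_of_bits {x : ℕ} (h : ∀ i, x.testBit i = true → i < 14) : x < 16384 :=
  Nat.lt_pow_two_of_testBit (n := 14) x fun i hi => by
    rw [← Bool.not_eq_true]; exact fun h' => absurd (h i h') (by omega)

theorem compl_bit {x : ℕ} (hx : ∀ i, x.testBit i = true → i < 14) (i : ℕ) :
    (Nat.xor x 16383).testBit i = true ↔ i < 14 ∧ ¬x.testBit i = true := by
  have h1 := hx i
  have h2 := full_bit i
  rw [xor_eq, Nat.testBit_xor]
  cases h3 : x.testBit i <;> cases h4 : Nat.testBit 16383 i <;> simp_all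

theorem and_bit (x y i : ℕ) :
    (Nat.land x y).testBit i = true ↔ x.testBit i = true ∧ y.testBit i = true := by
  rw [land_eq, Nat.testBit_and, Bool.and_eq_true]

theorem or_bit (x y i : ℕ) :
    (Nat.lor x y).testBit i = true ↔ x.testBit i = true ∨ y.testBit i = true := by
  rw [lor_eq, Nat.testBit_or, Bool.or_eq_true]

theorem and7 (x : ℕ) : Nat.land x 7 < 8 := Nat.and_lt_two_pow x (n := 3) (by norm_num)

theorem pop_aux : ∀ a < 128, ∀ b < 128,
    pop (128 * a + b) = (List.range 14).countP fun i => (128 * a + b).testBit i := by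
  decide +kernel

/-- the colour is named and in the set -/
def InP (T : Finset ℕ) (κ : ℕ → ℕ) (p x : ℕ) : Prop := x < p ∧ κ x ∈ T

/-- the colour is not in the set -/
def OutP (T : Finset ℕ) (κ : ℕ → ℕ) (p x : ℕ) : Prop :=
  (x < p → κ x ∉ T) ∧ (p ≤ x → ∀ t ∈ T, ∃ y, y < p ∧ κ y = t)

/-- bit `j` of a cell may be set -/
def Good (T : Finset ℕ) (κ : ℕ → ℕ) (p j : ℕ) : Prop :=
  (j < 14 ∧ InP T κ p j) ∨ (14 ≤ j ∧ j < 28 ∧ OutP T κ p (j - 14)) ∨
    (42 ≤ j ∧ j < 50 ∧ j - 42 ≤ T.card) ∨ (50 ≤ j ∧ j < 58 ∧ T.card ≤ j - 50)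

variable {O : ℕ → Finset ℕ} {κ : ℕ → ℕ} {p P st : ℕ}

theorem bit_or {a b j z off : ℕ} (ha : Ob a) (hb : Ob b) (hj : j < 64)
    (hz : ∀ i, z.testBit i = true → off + i < 64)
    (h : (Nat.lor st (Nat.shiftLeft z (a + off))).testBit (b + j) = true) :
    st.testBit (b + j) = true ∨ (b = a ∧ ∃ i, off + i = j ∧ z.testBit i = true) := by
  rw [or_bit, shl_eq, Nat.testBit_shiftLeft, Bool.and_eq_true, decide_eq_true_iff] at h
  refine h.imp_right fun ⟨h1, h2⟩ => ?_
  have h3 := hz _ h2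
  obtain ⟨-, -, u, rfl⟩ := ha
  obtain ⟨-, -, v, rfl⟩ := hb
  exact ⟨by omega, _, by omega, h2⟩

theorem st_or (hs : St O κ p st) {a z off : ℕ} (ha : Ob a)
    (h : ∀ i, z.testBit i = true → Good (O a) κ p (off + i)) :
    St O κ p (Nat.lor st (Nat.shiftLeft z (a + off))) ∧
      SameC (Nat.lor st (Nat.shiftLeft z (a + off))) st := by
  have hz : ∀ i, z.testBit i = true → off + i < 64 := fun i hi => by
    rcases h i hi with h | h | h | h <;> omega
  have key : ∀ b, Ob b → ∀ j, j < 64 →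
      (Nat.lor st (Nat.shiftLeft z (a + off))).testBit (b + j) = true →
      st.testBit (b + j) = true ∨ Good (O b) κ p j := fun b hb j hj h' =>
    (bit_or ha hb hj hz h').imp_right fun ⟨e, i, e', hi⟩ => e ▸ e' ▸ h i hi
  refine ⟨fun b hb => ⟨fun x hx => ⟨fun h' => ?_, fun h' => ?_⟩,
    fun k hk => ⟨fun h' => ?_, fun h' => ?_⟩⟩, fun b hb => Nat.eq_of_testBit_eq fun i => ?_⟩
  · rcases key b hb x (by omega) h' with h1 | h1 | h1 | h1 | h1
    · exact ((hs b hb).1 x hx).1 h1
    · exact h1.2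
    all_goals omega
  · rw [Nat.add_assoc] at h'
    rcases key b hb (14 + x) (by omega) h' with h1 | h1 | h1 | h1 | h1
    · exact ((hs b hb).1 x hx).2 (by rwa [Nat.add_assoc])
    · omega
    · simpa [OutP] using h1.2.2
    all_goals omega
  · rcases key b hb (k + 42) (by omega) h' with h1 | h1 | h1 | h1 | h1
    · exact ((hs b hb).2 k hk).1 h1
    all_goals omega
  · rcases key b hb (k + 50) (by omega) h' with h1 | h1 | h1 | h1 | h1
    · exact ((hs b hb).2 k hk).2 h1
    all_goals omega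
  · rw [Bool.eq_iff_iff, cC_bit, cC_bit]
    refine and_congr_right fun hi => ⟨fun h' => ?_, fun h' => (or_bit _ _ _).mpr (Or.inl h')⟩
    rw [Nat.add_assoc] at h' ⊢
    rcases key b hb (28 + i) (by omega) h' with h1 | h1 | h1 | h1 | h1
    · exact h1
    all_goals omega

theorem inP (hs : St O κ p st) {a i : ℕ} (ha : Ob a) (h : (cI st a).testBit i = true) :
    InP (O a) κ p i := ((hs a ha).1 i ((cI_bit _ _ _).mp h).1).1 ((cI_bit _ _ _).mp h).2

theorem outP (hs : St O κ p st) {a i : ℕ} (ha : Ob a) (h : (cO st a).testBit i = true) :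
    OutP (O a) κ p i := ((hs a ha).1 i ((cO_bit _ _ _).mp h).1).2 ((cO_bit _ _ _).mp h).2

theorem lowP (hs : St O κ p st) {a k : ℕ} (ha : Ob a) (hk : k < 8) (h : cL st a k = true) :
    k ≤ (O a).card := ((hs a ha).2 k hk).1 (cL_eq st a k ▸ h)

theorem upP (hs : St O κ p st) {a k : ℕ} (ha : Ob a) (hk : k < 8) (h : cU st a k = true) :
    (O a).card ≤ k := ((hs a ha).2 k hk).2 (cU_eq st a k ▸ h)

theorem st_orO' (hs : St O κ p st) {a x : ℕ} (ha : Ob a)
    (hx : ∀ i, x.testBit i = true → i < 14 ∧ OutP (O a) κ p i) :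
    St O κ p (orO st a x) ∧ SameC (orO st a x) st :=
  st_or hs (off := 14) ha fun i hi => Or.inr (Or.inl ⟨by omega, by have := (hx i hi).1; omega,
    by simpa using (hx i hi).2⟩)

theorem OutP.mono {S T : Finset ℕ} {i : ℕ} (h : OutP T κ p i) (hs : S ⊆ T) : OutP S κ p i :=
  ⟨fun hi hm => h.1 hi (hs hm), fun hi t ht => h.2 hi t (hs ht)⟩

theorem OutP.cover {S : Finset ℕ} {i : ℕ} (h : ∀ t ∈ S, ∃ T, t ∈ T ∧ OutP T κ p i) :
    OutP S κ p i :=
  ⟨fun hi hm => have ⟨_, h1, h2⟩ := h _ hm; h2.1 hi h1,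
    fun hi t ht => have ⟨_, h1, h2⟩ := h _ ht; h2.2 hi t h1⟩

theorem P_bit (hn : Nm κ p P) {i : ℕ} (h : P.testBit i = true) : i < p := by
  rwa [show P = 2 ^ p - 1 by have := hn.eq; omega, Nat.testBit_two_pow_sub_one,
    decide_eq_true_iff] at h

end Game1

open Game1

theorem SameC.trans {s t u : ℕ} (h : SameC s t) (h' : SameC t u) : SameC s u :=
  fun a ha => (h a ha).trans (h' a ha)

theorem pop_eq {x : ℕ} (hx : x < 16384) :
    pop x = ((Finset.range 14).filter fun i => x.testBit i = true).card := by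
  have h := pop_aux (x / 128) (by omega) (x % 128) (by omega)
  rw [Nat.div_add_mod] at h
  rw [h, List.countP_eq_length_filter, ← List.toFinset_card_of_nodup (List.nodup_range.filter _)]
  congr 1
  ext i
  simp

section
variable {O : ℕ → Finset ℕ} {κ : ℕ → ℕ} {p P st : ℕ}

namespace Game1

/-- the colours named by the bits of `x` -/
def img (κ : ℕ → ℕ) (x : ℕ) : Finset ℕ :=
  ((Finset.range 14).filter fun i => x.testBit i = true).image κ

theorem mem_img {x t : ℕ} : t ∈ img κ x ↔ ∃ i, i < 14 ∧ x.testBit i = true ∧ κ i = t := by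
  simp [img, and_assoc]

theorem card_img_le {x : ℕ} (hx : ∀ i, x.testBit i = true → i < 14) : (img κ x).card ≤ pop x := by
  rw [pop_eq (lt_of_bits hx)]
  exact Finset.card_image_le

theorem card_img (hn : Nm κ p P) {x : ℕ} (hx : ∀ i, x.testBit i = true → i < p) :
    (img κ x).card = pop x := by
  rw [pop_eq (lt_of_bits fun i hi => by have := hx i hi; have := hn.le; omega)]
  exact Finset.card_image_of_injOn fun i hi j hj => hn.inj i j
    (hx i (Finset.mem_filter.mp hi).2) (hx j (Finset.mem_filter.mp hj).2)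

theorem img_cI (hs : St O κ p st) {a : ℕ} (ha : Ob a) : img κ (cI st a) ⊆ O a := fun t ht => by
  obtain ⟨i, -, h1, rfl⟩ := mem_img.mp ht
  exact (inP hs ha h1).2

theorem pop_cI (hn : Nm κ p P) (hs : St O κ p st) {a : ℕ} (ha : Ob a) :
    pop (cI st a) ≤ (O a).card := by
  rw [← card_img hn fun i hi => (inP hs ha hi).1]
  exact Finset.card_le_card (img_cI hs ha)

theorem cO_lt {a i : ℕ} (h : (cO st a).testBit i = true) : i < 14 := ((cO_bit _ _ _).mp h).1
theorem cI_lt {a i : ℕ} (h : (cI st a).testBit i = true) : i < 14 := ((cI_bit _ _ _).mp h).1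

theorem sub_img (hn : Nm κ p P) (hs : St O κ p st) {a : ℕ} (ha : Ob a)
    (h : Nat.xor (cO st a) 16383 < 8192) : O a ⊆ img κ (Nat.xor (cO st a) 16383) := fun t ht => by
  have h1 := Nat.testBit_lt_two_pow (i := 13) h
  have h2 : (cO st a).testBit 13 = true := by
    by_contra h2
    rw [(compl_bit (fun _ => cO_lt) 13).mpr ⟨by omega, h2⟩] at h1
    exact absurd h1 (by decide)
  obtain ⟨y, hy, rfl⟩ := (outP hs ha h2).2 hn.le t ht
  have := hn.le
  exact mem_img.mpr ⟨y, by omega, (compl_bit (fun _ => cO_lt) y).mpr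
    ⟨by omega, fun h3 => (outP hs ha h3).1 hy ht⟩, rfl⟩

theorem card_le_pop (hn : Nm κ p P) (hs : St O κ p st) {a : ℕ} (ha : Ob a)
    (h : Nat.xor (cO st a) 16383 < 8192) : (O a).card ≤ pop (Nat.xor (cO st a) 16383) :=
  (Finset.card_le_card (sub_img hn hs ha h)).trans
    (card_img_le fun i hi => ((compl_bit (fun _ => cO_lt) i).mp hi).1)

theorem andO_bit (hs : St O κ p st) {i : ℕ} : ∀ cs : List ℕ, (∀ c ∈ cs, Ob c) →
    (andO st cs).testBit i = true → i < 14 ∧ ∀ c ∈ cs, OutP (O c) κ p i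
  | [], _, h => ⟨(full_bit i).mp h, by simp⟩
  | c :: cs, hc, h => by
    have h1 := (and_bit (cO st c) (andO st cs) i).mp h
    have h2 := andO_bit hs cs (fun d hd => hc d (List.mem_cons_of_mem _ hd)) h1.2
    exact ⟨h2.1, List.forall_mem_cons.mpr ⟨outP hs (hc c List.mem_cons_self) h1.1, h2.2⟩⟩

theorem andI_bit (hs : St O κ p st) {i : ℕ} : ∀ cs : List ℕ, (∀ c ∈ cs, Ob c) →
    (andI st cs).testBit i = true → ∀ c ∈ cs, InP (O c) κ p i
  | [], _, _ => by simp
  | c :: cs, hc, h => by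
    have h1 := (and_bit (cI st c) (andI st cs) i).mp h
    exact List.forall_mem_cons.mpr ⟨inP hs (hc c List.mem_cons_self) h1.1,
      andI_bit hs cs (fun d hd => hc d (List.mem_cons_of_mem _ hd)) h1.2⟩

theorem andO4_bit (hs : St O κ p st) {i : ℕ} : ∀ cs : List ℕ, (∀ c ∈ cs, Ob c) →
    (andO4 st cs).testBit i = true → i < 14 ∧ ∀ c ∈ cs, 4 ≤ (O c).card ∨ OutP (O c) κ p i
  | [], _, h => ⟨(full_bit i).mp h, by simp⟩
  | c :: cs, hc, h => by
    have e : andO4 st (c :: cs) =
        sel (cL st c 4) (andO4 st cs) (Nat.land (cO st c) (andO4 st cs)) := rfl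
    have ih := andO4_bit hs (i := i) cs fun d hd => hc d (List.mem_cons_of_mem _ hd)
    rw [e, sel_eq] at h
    split_ifs at h with h0
    · exact ⟨(ih h).1, List.forall_mem_cons.mpr
        ⟨Or.inl (lowP hs (hc c List.mem_cons_self) (by norm_num) h0), (ih h).2⟩⟩
    · have h1 := (and_bit _ _ i).mp h
      exact ⟨(ih h1.2).1, List.forall_mem_cons.mpr
        ⟨Or.inr (outP hs (hc c List.mem_cons_self) h1.1), (ih h1.2).2⟩⟩

theorem cntU_ge (u : ℕ) : ∀ cs : List ℕ, (∀ c ∈ cs, (O c).card ≤ 1) → ∀ T : Finset ℕ,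
    (∀ t ∈ T, ∃ c ∈ cs, Nat.lor (cO st c) u ≠ 16383 ∧ t ∈ O c) → T.card ≤ cntU st u cs
  | [], _, T, h => by
    rw [Finset.eq_empty_of_forall_notMem (s := T) fun t ht => by simpa using h t ht]
    exact Nat.zero_le _
  | c :: cs, hc, T, h => by
    have e : cntU st u (c :: cs) = sel (Nat.beq (Nat.lor (cO st c) u) 16383) (cntU st u cs)
        (Nat.succ (cntU st u cs)) := rfl
    have ih := cntU_ge u cs fun d hd => hc d (List.mem_cons_of_mem _ hd)
    rw [e, sel_eq]
    split_ifs with h0 <;> rw [Nat.beq_eq] at h0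
    · refine ih T fun t ht => ?_
      obtain ⟨d, hd, h1, h2⟩ := h t ht
      rcases List.mem_cons.mp hd with rfl | hd
      · exact absurd h0 h1
      · exact ⟨d, hd, h1, h2⟩
    · have h1 := ih (T \ O c) fun t ht => by
        obtain ⟨d, hd, h1, h2⟩ := h t (Finset.mem_sdiff.mp ht).1
        rcases List.mem_cons.mp hd with rfl | hd
        · exact absurd h2 (Finset.mem_sdiff.mp ht).2
        · exact ⟨d, hd, h1, h2⟩
      have h2 := Finset.le_card_sdiff (O c) T
      have h3 := hc c List.mem_cons_self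
      simp only [Nat.succ_eq_add_one]
      omega

end Game1

theorem st_orI (hs : St O κ p st) {a x : ℕ} (ha : Ob a) (hp : p ≤ 13)
    (hx : ∀ i, x.testBit i = true → i < p ∧ κ i ∈ O a) :
    St O κ p (orI st a x) ∧ SameC (orI st a x) st :=
  st_or hs (off := 0) ha fun i hi => Or.inl ⟨by have := (hx i hi).1; omega, by
    rw [Nat.zero_add]; exact hx i hi⟩

theorem st_orO (hs : St O κ p st) {a x : ℕ} (ha : Ob a) (hp : p ≤ 13)
    (hx : ∀ i, x.testBit i = true → i < p ∧ κ i ∉ O a) :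
    St O κ p (orO st a x) ∧ SameC (orO st a x) st :=
  st_orO' hs ha fun i hi => ⟨by have := (hx i hi).1; omega, fun _ => (hx i hi).2,
    fun h => absurd (hx i hi).1 (not_lt.mpr h)⟩

theorem st_setL (hs : St O κ p st) {a k : ℕ} (ha : Ob a) (hk : k < 8) (h : k ≤ (O a).card) :
    St O κ p (setL' st a k) ∧ SameC (setL' st a k) st := by
  refine st_or hs (off := 42) ha fun i hi => ?_
  rw [shl_eq, Nat.shiftLeft_eq, Nat.pred_eq_sub_one, ← pow_succ', Nat.testBit_two_pow_sub_one,
    decide_eq_true_iff] at hi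
  exact Or.inr (Or.inr (Or.inl ⟨by omega, by omega, by omega⟩))

theorem st_setU (hs : St O κ p st) {a k : ℕ} (ha : Ob a) (h : (O a).card ≤ k) :
    St O κ p (setU st a k) ∧ SameC (setU st a k) st := by
  refine st_or hs (off := 50) ha fun i hi => ?_
  have e : Nat.sub 256 (Nat.shiftLeft 1 k) = 256 - 2 ^ k := by
    rw [shl_eq, Nat.shiftLeft_eq, one_mul]; rfl
  rw [e] at hi
  have h1 : i < 8 := by
    by_contra h1
    have h2 : 256 - 2 ^ k < 2 ^ i := by
      have := Nat.pow_le_pow_right (n := 2) (by norm_num) (not_lt.mp h1)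
      have := Nat.two_pow_pos k
      omega
    rw [Nat.testBit_lt_two_pow h2] at hi
    exact absurd hi (by decide)
  have h2 : k < 8 := by
    by_contra h2
    have := Nat.pow_le_pow_right (n := 2) (by norm_num) (not_lt.mp h2)
    rw [show 256 - 2 ^ k = 0 by omega, Nat.zero_testBit] at hi
    exact absurd hi (by decide)
  have h3 : ∀ k < 8, ∀ i < 8, (256 - 2 ^ k).testBit i = true → k ≤ i := by decide
  have := h3 k h2 i h1 hi
  exact Or.inr (Or.inr (Or.inr ⟨by omega, by omega, by omega⟩))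

theorem st_salt (hs : St O κ p st) (x : ℕ) :
    St O κ p (Nat.xor st (Nat.land x GSALT)) ∧ SameC (Nat.xor st (Nat.land x GSALT)) st := by
  have key : ∀ j, 64 ≤ j → (Nat.xor st (Nat.land x GSALT)).testBit j = st.testBit j := fun j hj => by
    rw [xor_eq, land_eq, Nat.testBit_xor, Nat.testBit_and,
      show GSALT = 2 ^ 63 - 1 by norm_num [GSALT], Nat.testBit_two_pow_sub_one,
      decide_eq_false (by omega), Bool.and_false, Bool.xor_false]
  refine ⟨fun a ha => ?_, fun a ha => Nat.eq_of_testBit_eq fun i => ?_⟩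
  · have := ha.1
    refine ⟨fun x hx => ?_, fun k hk => ?_⟩
    · rw [key _ (by omega), key _ (by omega)]
      exact (hs a ha).1 x hx
    · rw [key _ (by omega), key _ (by omega)]
      exact (hs a ha).2 k hk
  · have := ha.1
    rw [Bool.eq_iff_iff, cC_bit, cC_bit, key _ (by omega)]

theorem obj_ob (c : ℕ) : Ob (obj c) := by
  have h : Nat.land c 127 < 128 := Nat.and_lt_two_pow c (n := 7) (by norm_num)
  have e : obj c = Nat.land c 127 * 64 + 64 := by
    rw [obj, shl_eq, Nat.shiftLeft_eq]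
  rw [e]
  exact ⟨by omega, by omega, by omega⟩

theorem subK_ok (hn : Nm κ p P) (hs : St O κ p st) {a b : ℕ} (ha : Ob a) (hb : Ob b)
    (h : subK st a b = true) : O a ⊆ O b := fun t ht => by
  rw [subK, Nat.beq_eq] at h
  have := hn.le
  have h1 : ∀ i, i < 14 → InP (O b) κ p i ∨ OutP (O a) κ p i := fun i hi =>
    ((or_bit _ _ i).mp (h ▸ (full_bit i).mpr hi)).imp (inP hs hb) (outP hs ha)
  rcases h1 13 (by omega) with h2 | h2
  · exact absurd h2.1 (by omega)
  obtain ⟨y, hy, rfl⟩ := h2.2 hn.le t ht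
  rcases h1 y (by omega) with h3 | h3
  · exact h3.2
  · exact absurd ht (h3.1 hy)

theorem Game1.subS_ok (hn : Nm κ p P) (hs : St O κ p st) {a b : ℕ} (ha : Ob a) (hb : Ob b)
    (h : O a ⊆ O b) : St O κ p (subS st a b) ∧ SameC (subS st a b) st := by
  have h1 := st_orI hs (x := cI st a) hb hn.le fun i hi => ⟨(inP hs ha hi).1, h (inP hs ha hi).2⟩
  have h2 := st_orO' h1.1 (x := cO st b) ha fun i hi => ⟨cO_lt hi, (outP hs hb hi).mono h⟩
  exact ⟨h2.1, h2.2.trans h1.2⟩

theorem app_ok (hn : Nm κ p P) (hs : St O κ p st) {r : Rel} (hr : r.Holds O) {c : ℕ}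
    {K : ℕ → ℕ → Bool} (h : app r st P c K = true) :
    ∃ s c', K s c' = true ∧ St O κ p s ∧ SameC s st := by
  have hp := hn.le
  cases r with
  | sub a b =>
    obtain ⟨ha, hb, h1⟩ := hr
    simp only [app, frc_eq] at h
    exact ⟨_, _, h, subS_ok hn hs ha hb h1⟩
  | esub a b =>
    obtain ⟨ha, hb, h1⟩ := hr
    simp only [app, frc_eq, cj_iff] at h
    exact ⟨_, _, h.2, subS_ok hn hs ha hb (h1 (upP hs ha (by norm_num) h.1))⟩
  | dis a b =>
    obtain ⟨ha, hb, h1⟩ := hr
    simp only [app, frc_eq] at h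
    have h2 := st_orO hs (x := cI st a) hb hp fun i hi =>
      ⟨(inP hs ha hi).1, Finset.disjoint_left.mp h1 (inP hs ha hi).2⟩
    have h3 := st_orO h2.1 (x := cI st b) ha hp fun i hi =>
      ⟨(inP hs hb hi).1, Finset.disjoint_right.mp h1 (inP hs hb hi).2⟩
    exact ⟨_, _, h, h3.1, h3.2.trans h2.2⟩
  | cov a b cs =>
    obtain ⟨ha, hb, hc, h1⟩ := hr
    simp only [app, frc_eq] at h
    have h2 := st_orI hs (x := Nat.land (cI st a) (andO st cs)) hb hp fun i hi => by
      obtain ⟨h3, h4⟩ := (and_bit _ _ _).mp hi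
      have h5 := inP hs ha h3
      refine ⟨h5.1, (h1 _ h5.2).resolve_right fun ⟨d, hd, h6⟩ => ?_⟩
      exact ((andO_bit hs cs hc h4).2 d hd).1 h5.1 h6
    have h3 := st_orO' h2.1 (x := Nat.land (cO st b) (andO st cs)) ha fun i hi => by
      obtain ⟨h3, h4⟩ := (and_bit _ _ _).mp hi
      refine ⟨cO_lt h3, OutP.cover fun t ht => ?_⟩
      rcases h1 t ht with h5 | ⟨d, hd, h5⟩
      · exact ⟨_, h5, outP hs hb h3⟩
      · exact ⟨_, h5, (andO_bit hs cs hc h4).2 d hd⟩
    exact ⟨_, _, h, h3.1, h3.2.trans h2.2⟩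
  | avl a b cs =>
    obtain ⟨ha, hb, hc, h1⟩ := hr
    simp only [app, frc_eq, cj_iff, Nat.ble_eq, Nat.add_eq] at h
    obtain ⟨h2, h3, h4⟩ := h
    refine ⟨_, _, h4, st_setL hs hb (and7 _) ?_⟩
    have h5 := lowP hs ha (and7 _) h2
    generalize hx : Nat.land (Nat.land c 16383) P = n at h3
    have hn' : ∀ i, n.testBit i = true → i < p := fun i hi =>
      P_bit hn ((and_bit _ _ _).mp (hx ▸ hi)).2
    have h6 := cntU_ge (st := st) (Nat.lor n (cO st a)) cs (fun d hd => (hc d hd).2)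
      ((O a \ O b) \ img κ (Nat.land n (Nat.xor (cO st a) 16383))) fun t ht => by
        obtain ⟨h7, h8⟩ := Finset.mem_sdiff.mp ht
        obtain ⟨h9, h10⟩ := Finset.mem_sdiff.mp h7
        obtain ⟨d, hd, h11⟩ := (h1 t h9).resolve_left h10
        refine ⟨d, hd, fun e => h8 ?_, h11⟩
        have h12 : ∀ i, i < 14 → (cO st d).testBit i = true ∨ n.testBit i = true ∨
            (cO st a).testBit i = true := fun i hi =>
          ((or_bit _ _ i).mp (e ▸ (full_bit i).mpr hi)).imp_right (or_bit _ _ i).mp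
        obtain ⟨y, hy, rfl⟩ : ∃ y, y < p ∧ κ y = t := by
          rcases h12 13 (by omega) with h13 | h13 | h13
          · exact (outP hs (hc d hd).1 h13).2 hp t h11
          · exact absurd (hn' _ h13) (by omega)
          · exact (outP hs ha h13).2 hp t h9
        have h14 : ¬(cO st a).testBit y = true := fun h13 => (outP hs ha h13).1 hy h9
        refine mem_img.mpr ⟨y, by omega, (and_bit _ _ _).mpr ⟨?_,
          (compl_bit (fun _ => cO_lt) y).mpr ⟨by omega, h14⟩⟩, rfl⟩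
        rcases h12 y (by omega) with h13 | h13 | h13
        · exact absurd h11 ((outP hs (hc d hd).1 h13).1 hy)
        · exact h13
        · exact absurd h13 h14
    have h7 := Finset.le_card_sdiff (img κ (Nat.land n (Nat.xor (cO st a) 16383))) (O a \ O b)
    have h8 := Finset.le_card_sdiff (O b) (O a)
    have h9 := card_img_le (κ := κ) (x := Nat.land n (Nat.xor (cO st a) 16383)) fun i hi => by
      have := hn' i ((and_bit _ _ _).mp hi).1
      omega
    omega
  | neq a b w =>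
    obtain ⟨ha, hb, h1⟩ := hr
    simp only [app, cj_iff] at h
    exact absurd (Finset.Subset.antisymm (subK_ok hn hs ha hb h.1) (subK_ok hn hs hb ha h.2)) h1
  | min5 a cs =>
    obtain ⟨ha, hc, h1⟩ := hr
    simp only [app, frc_eq] at h
    refine ⟨_, _, h, st_orO' hs ha fun i hi => ?_⟩
    obtain ⟨h2, h3⟩ := andO4_bit hs cs hc hi
    refine ⟨h2, OutP.cover fun t ht => ?_⟩
    obtain ⟨d, hd, h4, h5⟩ := h1 t ht
    exact ⟨_, h5, (h3 d hd).resolve_left (by omega)⟩
  | min3 a cs =>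
    obtain ⟨ha, hc, h1⟩ := hr
    simp only [app, Nat.ble_eq] at h
    rw [← card_img hn fun i hi => (inP hs ha ((and_bit _ _ _).mp hi).1).1] at h
    obtain ⟨T, h2, h3⟩ := Finset.exists_subset_card_eq h
    refine absurd ⟨T, h3, fun t ht => ?_, fun d hd t ht => ?_⟩ h1
    · obtain ⟨i, -, h4, rfl⟩ := mem_img.mp (h2 ht)
      exact (inP hs ha ((and_bit _ _ _).mp h4).1).2
    · obtain ⟨i, -, h4, rfl⟩ := mem_img.mp (h2 ht)
      exact (andI_bit hs cs hc ((and_bit _ _ _).mp h4).2 d hd).2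

theorem card_ok (hn : Nm κ p P) (hs : St O κ p st) {a k mode : ℕ} (ha : Ob a) (hk : k < 8)
    {K : ℕ → Bool} (h : card st P a k mode K = true) :
    ∃ s, K s = true ∧ St O κ p s ∧ SameC s st := by
  have hp := hn.le
  have hI := pop_cI hn hs ha
  have hO := card_le_pop hn hs ha
  simp only [card, sel_eq] at h
  split_ifs at h <;> simp only [frc_eq, cj_iff, Nat.ble_eq, Nat.blt_eq] at h
  · obtain ⟨h1, h2, h3⟩ := h
    have h4 : img κ (cI st a) = O a := Finset.eq_of_subset_of_card_le (img_cI hs ha) (by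
      rw [card_img hn fun i hi => (inP hs ha hi).1]
      exact (upP hs ha hk h1).trans h2)
    refine ⟨_, h3, st_orO' hs ha fun i hi => ?_⟩
    obtain ⟨h5, h6⟩ := (compl_bit (fun _ => cI_lt) i).mp hi
    refine ⟨h5, fun hi' hm => ?_, fun _ t ht => ?_⟩
    · obtain ⟨y, -, h7, h8⟩ := mem_img.mp (h4 ▸ hm)
      exact h6 (hn.inj y i (inP hs ha h7).1 hi' h8 ▸ h7)
    · obtain ⟨y, -, h7, h8⟩ := mem_img.mp (h4 ▸ ht)
      exact ⟨y, (inP hs ha h7).1, h8⟩
  · obtain ⟨h1, h2, h3, h4⟩ := h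
    have h5 : O a = img κ (Nat.xor (cO st a) 16383) :=
      Finset.eq_of_subset_of_card_le (sub_img hn hs ha h2)
        ((card_img_le fun i hi => ((compl_bit (fun _ => cO_lt) i).mp hi).1).trans
          (h3.trans (lowP hs ha hk h1)))
    refine ⟨_, h4, st_orI hs ha hp fun i hi => ?_⟩
    obtain ⟨h6, h7⟩ := (and_bit _ _ _).mp hi
    have h8 := P_bit hn h7
    exact ⟨h8, h5 ▸ mem_img.mpr ⟨i, by omega, h6, rfl⟩⟩
  · have := upP hs ha hk h.1
    omega
  · have := lowP hs ha hk h.1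
    have := hO h.2.1
    omega
  · exact ⟨_, h.2, st_setL hs ha hk (h.1.trans hI)⟩
  · exact ⟨_, h.2.2, st_setU hs ha ((hO h.1).trans h.2.1)⟩
  · obtain ⟨i, hi⟩ := Nat.exists_testBit_of_ne_zero h.ne'
    obtain ⟨h1, h2⟩ := (and_bit _ _ _).mp hi
    exact absurd (inP hs ha h1).2 ((outP hs ha h2).1 (inP hs ha h1).1)
  · have := lowP hs ha (by have := h.1; omega) h.2.1
    have := upP hs ha hk h.2.2
    omega

end

end Pool.Agent.Lib.MP_bfaad3_co
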