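import Pool.Agent.Lib.MP_bfaad3_co.B2

set_option autoImplicit false

namespace Pool.Agent.Lib.MP_bfaad3_co

open Equiv Finset

variable {V : Type*} [Fintype V]
variable {G : SimpleGraph V} {L : V → Finset ℕ} {σ : Perm G.Dart} {A : Set G.Dart}

omit [Fintype V] in
theorem ker_exists (R : V → V → Prop) (b : V → Bool) (Y : Finset V) (hR : ∀ u v, R u v → G.Adj u v)
    (ho : ∀ u ∈ Y, ∀ v ∈ Y, G.Adj u v → R u v ∨ R v u)
    (hb : ∀ u ∈ Y, ∀ v ∈ Y, G.Adj u v → b u ≠ b v) :
    ∃ K ⊆ Y, (∀ u ∈ K, ∀ v ∈ K, ¬ G.Adj u v) ∧ ∀ v ∈ Y, v ∉ K → ∃ u ∈ K, R v u := by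
  classical
  induction Y using Finset.strongInduction with
  | H Y ih =>
    by_cases hs : ∃ v ∈ Y, ∀ u ∈ Y, ¬ R v u
    · obtain ⟨v, hv, hs⟩ := hs
      have hsub : (Y.filter fun u => u ≠ v ∧ ¬ G.Adj v u) ⊂ Y :=
        filter_ssubset.2 ⟨v, hv, fun h => h.1 rfl⟩
      obtain ⟨K, hK, h1, h2⟩ := ih _ hsub
        (fun a ha c hc => ho a (hsub.1 ha) c (hsub.1 hc))
        (fun a ha c hc => hb a (hsub.1 ha) c (hsub.1 hc))
      refine ⟨insert v K, insert_subset hv (hK.trans hsub.1), fun a ha c hc hac => ?_,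
        fun a ha hn => ?_⟩
      · rcases mem_insert.1 ha with rfl | ha' <;> rcases mem_insert.1 hc with rfl | hc'
        · exact hac.ne rfl
        · exact (mem_filter.1 (hK hc')).2.2 hac
        · exact (mem_filter.1 (hK ha')).2.2 hac.symm
        · exact h1 a ha' c hc' hac
      · rw [mem_insert, not_or] at hn
        by_cases hva : G.Adj v a
        · exact ⟨v, mem_insert_self _ _, (ho v hv a ha hva).resolve_left (hs a ha)⟩
        · obtain ⟨u, hu, hr⟩ := h2 a (mem_filter.2 ⟨ha, hn.1, hva⟩) hn.2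
          exact ⟨u, mem_insert_of_mem hu, hr⟩
    · push Not at hs
      refine ⟨Y.filter fun u => b u = true, filter_subset _ _, fun a ha c hc hac => ?_,
        fun a ha hn => ?_⟩
      · rw [mem_filter] at ha hc
        exact hb a ha.1 c hc.1 hac (ha.2.trans hc.2.symm)
      · obtain ⟨u, hu, hr⟩ := hs a ha
        refine ⟨u, mem_filter.2 ⟨hu, ?_⟩, hr⟩
        have h1 := hb a ha u hu (hR _ _ hr)
        have h2 : ¬ b a = true := fun h => hn (mem_filter.2 ⟨ha, h⟩)
        cases hu' : b u <;> cases ha' : b a <;> simp_all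

omit [Fintype V] in
open Classical in
theorem ker_colour (R : V → V → Prop) (b : V → Bool) (hR : ∀ u v, R u v → G.Adj u v)
    (Y : Finset V) (M : V → Finset ℕ)
    (ho : ∀ u ∈ Y, ∀ v ∈ Y, G.Adj u v → R u v ∨ R v u)
    (hb : ∀ u ∈ Y, ∀ v ∈ Y, G.Adj u v → b u ≠ b v)
    (hM : ∀ v ∈ Y, (Y.filter fun u => R v u).card < (M v).card) :
    ∃ c : V → ℕ, (∀ v ∈ Y, c v ∈ M v) ∧ ∀ u ∈ Y, ∀ v ∈ Y, G.Adj u v → c u ≠ c v := by
  induction Y using Finset.strongInduction generalizing M with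
  | H Y ih =>
    rcases Y.eq_empty_or_nonempty with rfl | ⟨v0, hv0⟩
    · exact ⟨fun _ => 0, by simp, by simp⟩
    obtain ⟨t, ht⟩ : (M v0).Nonempty := card_pos.1 (lt_of_le_of_lt (Nat.zero_le _) (hM v0 hv0))
    have hY : (Y.filter fun u => t ∈ M u) ⊆ Y := filter_subset _ _
    obtain ⟨K, hK, h1, h2⟩ := ker_exists R b (Y.filter fun u => t ∈ M u) hR
      (fun a ha c hc => ho a (hY ha) c (hY hc)) (fun a ha c hc => hb a (hY ha) c (hY hc))
    have hne : K.Nonempty := by
      by_cases h : v0 ∈ K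
      · exact ⟨v0, h⟩
      · obtain ⟨u, hu, -⟩ := h2 v0 (mem_filter.2 ⟨hv0, ht⟩) h
        exact ⟨u, hu⟩
    have hsub : Y \ K ⊂ Y := sdiff_ssubset (hK.trans hY) hne
    obtain ⟨c, hc1, hc2⟩ := ih _ hsub (fun v => (M v).erase t)
      (fun a ha c hc => ho a (hsub.1 ha) c (hsub.1 hc))
      (fun a ha c hc => hb a (hsub.1 ha) c (hsub.1 hc)) (fun v hv => by
        have hv' := mem_sdiff.1 hv
        have h3 := hM v hv'.1
        have h4 : ((Y \ K).filter fun u => R v u) ⊆ Y.filter fun u => R v u :=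
          filter_subset_filter _ hsub.1
        by_cases htv : t ∈ M v
        · obtain ⟨u, hu, hr⟩ := h2 v (mem_filter.2 ⟨hv'.1, htv⟩) hv'.2
          have h5 := card_lt_card (ssubset_iff_of_subset h4 |>.2 ⟨u,
            mem_filter.2 ⟨hY (hK hu), hr⟩, fun h => (mem_sdiff.1 (mem_filter.1 h).1).2 hu⟩)
          rw [card_erase_of_mem htv]
          omega
        · rw [erase_eq_of_notMem htv]
          exact (card_le_card h4).trans_lt h3)
    refine ⟨fun v => if v ∈ K then t else c v, fun v hv => ?_, fun u hu v hv huv => ?_⟩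
    · by_cases h : v ∈ K
      · simpa [h] using (mem_filter.1 (hK h)).2
      · simpa [h] using mem_of_mem_erase (hc1 v (mem_sdiff.2 ⟨hv, h⟩))
    · by_cases h : u ∈ K <;> by_cases h' : v ∈ K
      · exact absurd huv (h1 u h v h')
      · simpa [h, h'] using (ne_of_mem_erase (hc1 v (mem_sdiff.2 ⟨hv, h'⟩))).symm
      · simpa [h, h'] using ne_of_mem_erase (hc1 u (mem_sdiff.2 ⟨hu, h⟩))
      · simpa [h, h'] using hc2 u (mem_sdiff.2 ⟨hu, h⟩) v (mem_sdiff.2 ⟨hv, h'⟩) huv

theorem kernel_red (h : MinCE G L σ) (X : Finset V) (hX : ∃ v ∈ X, ∃ w, G.Adj v w)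
    (b : V → Bool) (I : V → Finset V)
    (hI : ∀ v ∈ X, ∀ u ∈ I v, u ∈ X ∧ G.Adj v u ∧ v ∉ I u)
    (hc : ∀ v ∈ X, dg G v + 1 ≤ (L v).card + (I v).card)
    (hb : ∀ u ∈ X, ∀ v ∈ X, G.Adj u v → b u ≠ b v) : False := by
  classical
  let H : SimpleGraph V :=
    { Adj := fun u v => G.Adj u v ∧ u ∉ X ∧ v ∉ X
      symm := ⟨fun _ _ h => ⟨h.1.symm, h.2.2, h.2.1⟩⟩
      loopless := ⟨fun _ h => h.1.ne rfl⟩ }
  have hle : H ≤ G := fun _ _ h => h.1
  obtain ⟨c, hc1, hc2⟩ := h.min1 H L (pl_mono ⟨σ, h.rot, h.gen⟩ hle) (h.tri.anti hle)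
    ⟨h.cls.1, fun u v huv => h.cls.2 u v huv.1⟩ (by
      obtain ⟨v, hv, w, hw⟩ := hX
      refine Set.ncard_lt_ncard ⟨SimpleGraph.support_mono hle, fun hs => ?_⟩ (Set.toFinite _)
      obtain ⟨u, hu⟩ := hs (show v ∈ G.support from ⟨w, hw⟩)
      exact hu.2.1 hv)
  let M : V → Finset ℕ := fun v => L v \ (univ.filter fun u => G.Adj v u ∧ u ∉ X).image c
  obtain ⟨c', h1, h2⟩ := ker_colour (G := G) (fun v u => G.Adj v u ∧ u ∉ I v) b
    (fun _ _ h => h.1) X M (fun u hu v _ huv => by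
      by_cases hm : v ∈ I u
      · exact Or.inr ⟨huv.symm, (hI u hu v hm).2.2⟩
      · exact Or.inl ⟨huv, hm⟩) hb (fun v hv => by
      have e1 : dg G v = (univ.filter fun u => G.Adj v u).card := by
        rw [dg, ← Set.ncard_coe_finset]
        congr 1
        ext u
        simp
      have e2 := card_filter_add_card_filter_not (s := univ.filter fun u => G.Adj v u)
        (fun u => u ∈ X)
      have e3 := card_filter_add_card_filter_not
        (s := (univ.filter fun u => G.Adj v u).filter fun u => u ∈ X) (fun u => u ∈ I v)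
      have e4 : (((univ.filter fun u => G.Adj v u).filter fun u => u ∈ X).filter
          fun u => u ∈ I v) = I v := by
        ext u
        simp only [mem_filter, mem_univ, true_and]
        exact ⟨fun h => h.2, fun h => ⟨⟨(hI v hv u h).2.1, (hI v hv u h).1⟩, h⟩⟩
      have e5 : (((univ.filter fun u => G.Adj v u).filter fun u => u ∈ X).filter
          fun u => u ∉ I v) = X.filter fun u => G.Adj v u ∧ u ∉ I v := by
        ext u
        simp only [mem_filter, mem_univ, true_and]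
        tauto
      have e6 : ((univ.filter fun u => G.Adj v u).filter fun u => u ∉ X) =
          univ.filter fun u => G.Adj v u ∧ u ∉ X := filter_filter _ _ _
      have e7 := le_card_sdiff ((univ.filter fun u => G.Adj v u ∧ u ∉ X).image c) (L v)
      have e8 := card_image_le (s := univ.filter fun u => G.Adj v u ∧ u ∉ X) (f := c)
      have e9 := hc v hv
      rw [e4, e5] at e3
      rw [e6] at e2
      have : (X.filter fun u => G.Adj v u ∧ u ∉ I v).card < (M v).card := by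
        simp only [M]
        omega
      refine lt_of_eq_of_lt ?_ this
      congr 1
      ext u
      simp)
  have key : ∀ u ∈ X, ∀ v, v ∉ X → G.Adj u v → c' u ≠ c v := fun u hu v hv huv e =>
    (mem_sdiff.1 (h1 u hu)).2 (mem_image.2 ⟨v, mem_filter.2 ⟨mem_univ _, huv, hv⟩, e.symm⟩)
  refine h.ncol ⟨fun v => if v ∈ X then c' v else c v, fun v => ?_, fun u v huv => ?_⟩
  · by_cases hv : v ∈ X
    · simpa [hv] using (mem_sdiff.1 (h1 v hv)).1
    · simpa [hv] using hc1 v
  · by_cases hu : u ∈ X <;> by_cases hv : v ∈ X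
    · simpa [hu, hv] using h2 u hu v hv huv
    · simpa [hu, hv] using key u hu v hv huv
    · simpa [hu, hv] using (key v hv u hu huv.symm).symm
    · simpa [hu, hv] using hc2 u v ⟨huv, hu, hv⟩

/-- a 4-face `y n x n'` starting at `y`, with `n, n'` interior of degree 3 and `x` low -/
def Fan (L : V → Finset ℕ) (σ : Perm G.Dart) (A : Set G.Dart) (d : G.Dart) : Prop :=
  flen σ d = 4 ∧ Intr A d.snd ∧ dg G d.snd = 3 ∧
    dg G (phi σ d).snd ≤ (L (phi σ d).snd).card ∧
    Intr A (phi σ (phi σ d)).snd ∧ dg G (phi σ (phi σ d)).snd = 3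

omit [Fintype V] in
theorem ker_phi (d : G.Dart) : phi σ d = σ d.symm := rfl

omit [Fintype V] in
theorem ker_fst (hr : IsRot G σ) (d : G.Dart) : (phi σ d).fst = d.snd := hr.1 d.symm

omit [Fintype V] in
theorem ker_ext {d e : G.Dart} (h1 : d.fst = e.fst) (h2 : d.snd = e.snd) : d = e :=
  SimpleGraph.Dart.ext _ _ (Prod.ext h1 h2)

omit [Fintype V] in
theorem ker_four {d : G.Dart} (h4 : flen σ d = 4) : phi σ (phi σ (phi σ (phi σ d))) = d := by
  have := Function.isPeriodicPt_minimalPeriod (phi σ) d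
  rw [show Function.minimalPeriod (phi σ) d = 4 from h4] at this
  exact this

theorem ker_deg (hr : IsRot G σ) {d : G.Dart} (h3 : dg G d.snd = 3) :
    σ (phi σ d) ≠ d.symm := fun h => by
  have h1 : Function.IsPeriodicPt σ 2 d.symm := h
  have h2 := h1.minimalPeriod_dvd
  rw [period_eq_dg hr, SimpleGraph.Dart.symm_toProd, Prod.fst_swap, h3] at h2
  omega

omit [Fintype V] in
theorem ker_tri (ht : G.CliqueFree 3) {a b c : V} (h1 : G.Adj a b) (h2 : G.Adj a c)
    (h3 : G.Adj b c) : False := by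
  classical
  exact ht {a, b, c} (SimpleGraph.is3Clique_triple_iff.2 ⟨h1, h2, h3⟩)

theorem ker_xy (h : MinCE G L σ) {d : G.Dart} (h4 : flen σ d = 4) : (phi σ d).snd ≠ d.fst := by
  intro e
  have h1 := h.face_inj (d := d) (by omega) (i := 2) (j := 0) (by
    rw [pow_two, Perm.mul_apply, ker_fst h.rot, e]; rfl)
  have h2 : Function.IsPeriodicPt (phi σ) 2 d := h1
  have h3 := h2.minimalPeriod_dvd
  rw [show Function.minimalPeriod (phi σ) d = 4 from h4] at h3
  omega

theorem ker_same (hr : IsRot G σ) {d e : G.Dart} (hd : Fan L σ A d) (he : Fan L σ A e)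
    (hde : d.fst = e.fst) (hn : (phi σ (phi σ e)).snd = d.snd)
    (hx : (phi σ d).snd = (phi σ e).snd) : False := by
  refine ker_deg hr hd.2.2.1 ?_
  have e1 : (phi σ (phi σ e)).symm = phi σ d :=
    ker_ext (hn.trans (ker_fst hr d).symm) ((ker_fst hr _).trans hx.symm)
  rw [← e1, ← ker_phi]
  refine ker_ext ((ker_fst hr _).trans hn) ?_
  rw [← ker_fst hr, ker_four he.1]
  exact hde.symm

theorem ker_xx (h : Ctx G L σ A) {d e : G.Dart} (hd : Fan L σ A d) (hde : d.fst = e.fst)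
    (hx : G.Adj (phi σ d).snd (phi σ e).snd) : False := by
  have hr := h.ce.rot
  let c : ℕ → G.Dart := fun i =>
    if i % 5 = 0 then d else if i % 5 = 1 then phi σ d else
      if i % 5 = 2 then ⟨(_, _), hx⟩ else if i % 5 = 3 then (phi σ e).symm else e.symm
  have hc : CW c 5 := by
    refine cw_five h.ce.tri (fun i => ?_) fun i => by simp only [c, Nat.add_mod_right]
    have h5 : i % 5 = 0 ∨ i % 5 = 1 ∨ i % 5 = 2 ∨ i % 5 = 3 ∨ i % 5 = 4 := by omega
    rcases h5 with h5 | h5 | h5 | h5 | h5 <;>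
      simp [c, Nat.add_mod, h5, ker_fst hr, hde]
  have hi : Intr A (c (0 + 1)).fst := by
    change Intr A (phi σ d).fst
    rw [ker_fst hr]
    exact hd.2.1
  rcases b2 h le_rfl (by norm_num) hc with h1 | h1
  · have h2 : flen σ (phi σ d) = 5 := (h1 0 hi).2
    have h3 : flen σ (phi σ d) = flen σ d :=
      Function.minimalPeriod_apply (Function.mk_mem_periodicPts (n := 4) (by norm_num)
        (ker_four hd.1))
    rw [h3, hd.1] at h2
    omega
  · exact ker_deg hr hd.2.2.1 (h1 0 hi).1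

theorem fan (h : Ctx G L σ A) (e : G.Dart) :
    {d : G.Dart | d.fst = e.fst ∧ Fan L σ A d}.ncard + (L e.fst).card ≤ dg G e.fst := by
  classical
  by_contra hlt
  have hr := h.ce.rot
  set y := e.fst with hy
  set D : Finset G.Dart := univ.filter fun d => d.fst = y ∧ Fan L σ A d with hD
  have hmem : ∀ d, d ∈ D ↔ d.fst = y ∧ Fan L σ A d := fun d => by simp [hD]
  have hcard : {d : G.Dart | d.fst = y ∧ Fan L σ A d}.ncard = D.card := by
    rw [← Set.ncard_coe_finset]
    congr 1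
    ext d
    simp [hD]
  let n : G.Dart → V := fun d => d.snd
  let x : G.Dart → V := fun d => (phi σ d).snd
  let m : G.Dart → V := fun d => (phi σ (phi σ d)).snd
  have hyn : ∀ d ∈ D, G.Adj y (n d) := fun d hd => ((hmem d).1 hd).1 ▸ d.adj
  have hnx : ∀ d, G.Adj (n d) (x d) := fun d => by
    have := (phi σ d).adj
    rwa [ker_fst hr] at this
  have hxm : ∀ d, G.Adj (x d) (m d) := fun d => by
    have := (phi σ (phi σ d)).adj
    rwa [ker_fst hr] at this
  have h3s : ∀ d ∈ D, (phi σ (phi σ (phi σ d))).snd = y := fun d hd => by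
    rw [← ker_fst hr, ker_four ((hmem d).1 hd).2.1, ((hmem d).1 hd).1]
  have hym : ∀ d ∈ D, G.Adj y (m d) := fun d hd => by
    have := (phi σ (phi σ (phi σ d))).adj
    rw [ker_fst hr, h3s d hd] at this
    exact this.symm
  have hxy : ∀ d ∈ D, x d ≠ y := fun d hd =>
    ((hmem d).1 hd).1 ▸ ker_xy h.ce ((hmem d).1 hd).2.1
  have hyx : ∀ d ∈ D, ¬ G.Adj y (x d) := fun d hd ha =>
    ker_tri h.ce.tri (hyn d hd) ha (hnx d)
  have hsame : ∀ d ∈ D, ∀ d' ∈ D, m d' = n d → x d = x d' → False := fun d hd d' hd' h1 h2 =>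
    ker_same hr ((hmem d).1 hd).2 ((hmem d').1 hd').2
      (((hmem d).1 hd).1.trans ((hmem d').1 hd').1.symm) h1 h2
  have hminj : Set.InjOn m D := fun d hd d' hd' hm => by
    have : phi σ (phi σ (phi σ d)) = phi σ (phi σ (phi σ d')) :=
      ker_ext ((ker_fst hr _).trans (hm.trans (ker_fst hr _).symm))
        ((h3s d hd).trans (h3s d' hd').symm)
    exact (phi σ).injective ((phi σ).injective ((phi σ).injective this))
  let X : Finset V := insert y (D.image x ∪ (D.image n ∪ D.image m))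
  have hX : ∀ v, v ∈ X ↔ v = y ∨ (∃ d ∈ D, x d = v) ∨ (∃ d ∈ D, n d = v) ∨ ∃ d ∈ D, m d = v :=
    fun v => by simp only [X, mem_insert, mem_union, mem_image]
  let I : V → Finset V := fun v =>
    if v = y then D.image m else if G.Adj y v then
      (if ∃ d ∈ D, m d = v then (D.filter fun d => m d = v).image x else {y})
    else (D.filter fun d => x d = v).image n
  have Iy : I y = D.image m := if_pos rfl
  have Ix : ∀ d ∈ D, I (x d) = (D.filter fun d' => x d' = x d).image n := fun d hd => by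
    simp only [I, if_neg (hxy d hd), if_neg (hyx d hd)]
  have Im : ∀ d ∈ D, I (m d) = (D.filter fun d' => m d' = m d).image x := fun d hd => by
    simp only [I, if_neg (hym d hd).ne', if_pos (hym d hd), if_pos (⟨d, hd, rfl⟩ :
      ∃ d' ∈ D, m d' = m d)]
  have In : ∀ v, G.Adj y v → (¬ ∃ d ∈ D, m d = v) → I v = {y} := fun v hv hn => by
    simp only [I, if_neg hv.ne', if_pos hv, if_neg hn]
  have hcase : ∀ v ∈ X, v = y ∨ (∃ d ∈ D, x d = v) ∨ (∃ d ∈ D, m d = v) ∨
      (G.Adj y v ∧ dg G v = 3 ∧ ¬ ∃ d ∈ D, m d = v) := fun v hv => by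
    by_cases hm : ∃ d ∈ D, m d = v
    · exact Or.inr (Or.inr (Or.inl hm))
    rcases (hX v).1 hv with h1 | h1 | ⟨d, hd, rfl⟩ | h1
    · exact Or.inl h1
    · exact Or.inr (Or.inl h1)
    · exact Or.inr (Or.inr (Or.inr ⟨hyn d hd, ((hmem d).1 hd).2.2.2.1, hm⟩))
    · exact absurd h1 hm
  refine kernel_red h.ce X ⟨y, mem_insert_self _ _, e.snd, e.adj⟩ (fun v => decide (G.Adj y v)) I
    (fun v hv u hu => ?_) (fun v hv => ?_) fun u hu v hv huv hb => ?_
  · rcases hcase v hv with rfl | ⟨d, hd, rfl⟩ | ⟨d, hd, rfl⟩ | ⟨h1, -, h2⟩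
    · rw [Iy] at hu
      obtain ⟨d, hd, rfl⟩ := mem_image.1 hu
      refine ⟨(hX _).2 (Or.inr (Or.inr (Or.inr ⟨d, hd, rfl⟩))), hym d hd, fun h1 => ?_⟩
      rw [Im d hd] at h1
      obtain ⟨d', hd', h2⟩ := mem_image.1 h1
      exact hxy d' (mem_filter.1 hd').1 h2
    · rw [Ix d hd] at hu
      obtain ⟨d', hd', rfl⟩ := mem_image.1 hu
      obtain ⟨hd', h2⟩ := mem_filter.1 hd'
      refine ⟨(hX _).2 (Or.inr (Or.inr (Or.inl ⟨d', hd', rfl⟩))), h2 ▸ (hnx d').symm,
        fun h1 => ?_⟩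
      by_cases hm : ∃ d ∈ D, m d = n d'
      · obtain ⟨f, hf, h3⟩ := hm
        rw [← h3, Im f hf] at h1
        obtain ⟨g, hg, h4⟩ := mem_image.1 h1
        obtain ⟨hg, h5⟩ := mem_filter.1 hg
        exact hsame d' hd' g hg (h5.trans h3) (h2.trans h4.symm)
      · rw [In _ (hyn d' hd') hm, mem_singleton] at h1
        exact hxy d hd h1
    · rw [Im d hd] at hu
      obtain ⟨d', hd', rfl⟩ := mem_image.1 hu
      obtain ⟨hd', h2⟩ := mem_filter.1 hd'
      refine ⟨(hX _).2 (Or.inr (Or.inl ⟨d', hd', rfl⟩)), h2 ▸ (hxm d').symm, fun h1 => ?_⟩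
      rw [Ix d' hd'] at h1
      obtain ⟨g, hg, h4⟩ := mem_image.1 h1
      obtain ⟨hg, h5⟩ := mem_filter.1 hg
      exact hsame g hg d' hd' (h2.trans h4.symm) h5
    · rw [In v h1 h2, mem_singleton] at hu
      subst hu
      refine ⟨mem_insert_self _ _, h1.symm, fun h3 => h2 ?_⟩
      rw [Iy] at h3
      exact mem_image.1 h3
  · have h3 := h.ce.cls.1 v
    rcases hcase v hv with rfl | ⟨d, hd, rfl⟩ | ⟨d, hd, rfl⟩ | ⟨h1, h4, h2⟩
    · rw [Iy, card_image_of_injOn hminj]
      omega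
    · have h1 : 0 < (I (x d)).card := by
        rw [Ix d hd]
        exact card_pos.2 ⟨_, mem_image_of_mem _ (mem_filter.2 ⟨hd, rfl⟩)⟩
      have h2 : dg G (x d) ≤ (L (x d)).card := ((hmem d).1 hd).2.2.2.2.1
      omega
    · have h1 : 0 < (I (m d)).card := by
        rw [Im d hd]
        exact card_pos.2 ⟨_, mem_image_of_mem _ (mem_filter.2 ⟨hd, rfl⟩)⟩
      have h2 : dg G (m d) = 3 := ((hmem d).1 hd).2.2.2.2.2.2
      omega
    · rw [In v h1 h2, card_singleton]
      omega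
  · have hb' : G.Adj y u ↔ G.Adj y v := by simpa using hb
    by_cases h1 : G.Adj y u
    · exact ker_tri h.ce.tri h1 (hb'.1 h1) huv
    have h2 : ¬ G.Adj y v := fun h => h1 (hb'.2 h)
    have key : ∀ w ∈ X, ¬ G.Adj y w → w = y ∨ ∃ d ∈ D, x d = w := fun w hw hn => by
      rcases hcase w hw with h | h | ⟨d, hd, rfl⟩ | h
      · exact Or.inl h
      · exact Or.inr h
      · exact absurd (hym d hd) hn
      · exact absurd h.1 hn
    rcases key u hu h1 with rfl | ⟨d, hd, rfl⟩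
    · exact h2 huv
    rcases key v hv h2 with rfl | ⟨d', hd', rfl⟩
    · exact h1 huv.symm
    · exact ker_xx h ((hmem d).1 hd).2 (((hmem d).1 hd).1.trans ((hmem d').1 hd').1.symm) huv

end Pool.Agent.Lib.MP_bfaad3_co
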