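import Pool.Agent.Lib.MP_bfaad3_co.Game1
import Pool.Agent.Lib.MP_bfaad3_co.PM1
import Pool.Agent.Lib.MP_bfaad3_co.Kernel

set_option autoImplicit false

namespace Pool.Agent.Lib.MP_bfaad3_co

/-! Bit lemmas -/

theorem g2_mul_aux (a : ℕ) (ha : a < 2 ^ 14) (h : ℕ) : ∀ cm : ℕ, cm < 2 ^ h →
    (∀ s t, cm.testBit s = true → cm.testBit t = true → s < t → s + 14 ≤ t) →
    ∀ q, (cm * a).testBit q = true ↔
      ∃ t z, q = t + z ∧ cm.testBit t = true ∧ a.testBit z = true := by
  have haz : ∀ z, a.testBit z = true → z < 14 := by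
    intro z hz
    by_contra hh
    have : a.testBit z = false :=
      Nat.testBit_lt_two_pow (lt_of_lt_of_le ha (Nat.pow_le_pow_right Nat.two_pos (by omega)))
    simp [this] at hz
  induction h with
  | zero =>
    intro cm hcm _ q
    have : cm = 0 := by simpa using hcm
    subst this
    simp
  | succ h ih =>
    intro cm hcm hsp q
    by_cases hb : cm.testBit h = true
    · have hlt : cm % 2 ^ h < 2 ^ h := Nat.mod_lt _ (by positivity)
      have hbit : ∀ t, (cm % 2 ^ h).testBit t = true ↔ t < h ∧ cm.testBit t = true := by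
        intro t
        rw [Nat.testBit_mod_two_pow]
        simp
      have hge : 2 ^ h ≤ cm := Nat.ge_two_pow_of_testBit hb
      have hdec : cm = 2 ^ h + cm % 2 ^ h := by
        have h1 : cm / 2 ^ h = 1 := by
          apply Nat.div_eq_of_lt_le
          · simpa using hge
          · rw [pow_succ] at hcm; omega
        have h2 := Nat.div_add_mod cm (2 ^ h)
        rw [h1] at h2
        omega
      have IH := ih (cm % 2 ^ h) hlt (fun s t hs ht hst =>
        hsp s t ((hbit s).1 hs).2 ((hbit t).1 ht).2 hst)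
      have hsm : cm % 2 ^ h * a < 2 ^ h := by
        apply Nat.lt_pow_two_of_testBit
        intro i hi
        by_contra hh
        obtain ⟨t, z, rfl, ht, hz⟩ := (IH i).1 (by simpa using hh)
        have h1 := (hbit t).1 ht
        have h2 := hsp t h h1.2 hb h1.1
        have h3 := haz z hz
        omega
      have hmul : cm * a = 2 ^ h * a + cm % 2 ^ h * a := by
        conv_lhs => rw [hdec]
        ring
      rw [hmul, Nat.testBit_two_pow_mul_add _ hsm]
      split_ifs with hq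
      · rw [IH q]
        constructor
        · rintro ⟨t, z, rfl, ht, hz⟩
          exact ⟨t, z, rfl, ((hbit t).1 ht).2, hz⟩
        · rintro ⟨t, z, rfl, ht, hz⟩
          exact ⟨t, z, rfl, (hbit t).2 ⟨by omega, ht⟩, hz⟩
      · constructor
        · intro hz
          exact ⟨h, q - h, by omega, hb, hz⟩
        · rintro ⟨t, z, rfl, ht, hz⟩
          have h3 := haz z hz
          have hth : t ≤ h := by
            by_contra hh
            have : cm.testBit t = false :=
              Nat.testBit_lt_two_pow (lt_of_lt_of_le hcm (Nat.pow_le_pow_right Nat.two_pos (by omega)))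
            simp [this] at ht
          rcases hth.lt_or_eq with h4 | h4
          · have := hsp t h ht hb h4
            omega
          · subst h4
            simpa using hz
    · apply ih cm _ hsp q
      apply Nat.lt_pow_two_of_testBit
      intro i hi
      rcases hi.lt_or_eq with h4 | h4
      · exact Nat.testBit_lt_two_pow
          (lt_of_lt_of_le hcm (Nat.pow_le_pow_right Nat.two_pos (by omega)))
      · subst h4
        simpa using hb

theorem g2_mul {cm a : ℕ} (ha : a < 2 ^ 14)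
    (hsp : ∀ s t, cm.testBit s = true → cm.testBit t = true → s < t → s + 14 ≤ t) (q : ℕ) :
    (cm * a).testBit q = true ↔ ∃ t z, q = t + z ∧ cm.testBit t = true ∧ a.testBit z = true :=
  g2_mul_aux a ha cm cm Nat.lt_two_pow_self hsp q

theorem g2_ones_fin : ∀ c, c < 129 → ∀ r, r < 64 →
    ONES.testBit (64 * c + r) = decide (r = 0 ∨ r = 14 ∨ r = 28) := by
  decide +kernel

theorem g2_ones_lt : ONES < 2 ^ 8256 := by
  decide +kernel

theorem g2_xc_fin : ∀ c, c < 129 → ∀ r, r < 64 →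
    XC.testBit (64 * c + r) = decide (28 ≤ r ∧ r < 42) := by
  decide +kernel

theorem g2_ones (t : ℕ) : ONES.testBit t = true ↔
    t < 8256 ∧ (t % 64 = 0 ∨ t % 64 = 14 ∨ t % 64 = 28) := by
  by_cases ht : t < 8256
  · have h := g2_ones_fin (t / 64) (by omega) (t % 64) (by omega)
    rw [Nat.div_add_mod] at h
    rw [h]
    simp [ht]
  · have : ONES.testBit t = false :=
      Nat.testBit_lt_two_pow (lt_of_lt_of_le g2_ones_lt
        (Nat.pow_le_pow_right Nat.two_pos (by omega)))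
    rw [this]
    simp [ht]

theorem g2_xc {a r : ℕ} (ha : Ob a) (hr : r < 64) :
    XC.testBit (a + r) = decide (28 ≤ r ∧ r < 42) := by
  obtain ⟨h1, h2, c, rfl⟩ := ha
  exact g2_xc_fin c (by omega) r hr

theorem g2_andSh (y : ℕ) (fuel : ℕ) : ∀ i t q, (andSh y fuel i t).testBit q = true →
    t.testBit q = true ∧ ∀ z, i.testBit z = true → y.testBit (q + z) = true := by
  induction fuel with
  | zero =>
    intro i t q h
    have : andSh y 0 i t = 0 := rfl
    rw [this] at h
    simp at h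
  | succ f ih =>
    intro i t q h
    have e : andSh y (f + 1) i t = sel (Nat.beq i 0) t (frc (Nat.log2 i) fun x =>
      frc (Nat.land t (Nat.shiftRight y x)) fun t' =>
        frc (Nat.xor i (Nat.shiftLeft 1 x)) fun i' => andSh y f i' t') := rfl
    rw [e, sel_eq] at h
    split_ifs at h with h0
    · have : i = 0 := Nat.eq_of_beq_eq_true h0
      subst this
      exact ⟨h, by simp⟩
    · rw [frc_eq, frc_eq, frc_eq] at h
      obtain ⟨h1, h2⟩ := ih _ _ _ h
      change (t &&& (y >>> i.log2)).testBit q = true at h1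
      rw [Nat.testBit_and, Nat.testBit_shiftRight, Bool.and_eq_true] at h1
      refine ⟨h1.1, fun z hz => ?_⟩
      by_cases hzz : z = i.log2
      · subst hzz
        rw [add_comm]
        exact h1.2
      · apply h2
        change (i ^^^ (1 <<< i.log2)).testBit z = true
        rw [Nat.testBit_xor, Nat.one_shiftLeft, Nat.testBit_two_pow, hz]
        simp [Ne.symm hzz]

theorem g2_cC (st a z : ℕ) : (cC st a).testBit z = true ↔ z < 14 ∧ st.testBit (a + 28 + z) = true := by
  change ((st >>> (a + 28)) &&& (2 ^ 14 - 1)).testBit z = true ↔ _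
  rw [Nat.testBit_and, Nat.testBit_shiftRight, Nat.testBit_two_pow_sub_one]
  simp [and_comm]

theorem g2_cI (st a z : ℕ) : (cI st a).testBit z = true ↔ z < 14 ∧ st.testBit (a + z) = true := by
  change ((st >>> a) &&& (2 ^ 14 - 1)).testBit z = true ↔ _
  rw [Nat.testBit_and, Nat.testBit_shiftRight, Nat.testBit_two_pow_sub_one]
  simp [and_comm]

theorem g2_cO (st a z : ℕ) : (cO st a).testBit z = true ↔ z < 14 ∧ st.testBit (a + 14 + z) = true := by
  change ((st >>> (a + 14)) &&& (2 ^ 14 - 1)).testBit z = true ↔ _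
  rw [Nat.testBit_and, Nat.testBit_shiftRight, Nat.testBit_two_pow_sub_one]
  simp [and_comm]

/-- the bits of `symm st i` in a colour field -/
theorem g2_symm_bit {st i a f z : ℕ} (hi : i < 2 ^ 14) (ha : Ob a)
    (hf : f = 0 ∨ f = 14 ∨ f = 28) (hz : z < 14)
    (h : (symm st i ^^^ XC).testBit (a + f + z) = true) :
    (i.testBit z = false ∧ (st ^^^ XC).testBit (a + f + z) = true) ∨
      (i.testBit z = true ∧ ∀ w, i.testBit w = true → (st ^^^ XC).testBit (a + f + w) = true) := by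
  have e : symm st i ^^^ XC = ((st ^^^ XC) ^^^ ((st ^^^ XC) &&& (ONES * i))) |||
      (andSh (st ^^^ XC) 15 i ONES * i) := by
    unfold symm
    rw [frc_eq]
    change (_ ^^^ XC) ^^^ XC = _
    rw [Nat.xor_xor_cancel_right]
    rfl
  rw [e] at h
  generalize st ^^^ XC = y at h ⊢
  obtain ⟨h1, h2, c, rfl⟩ := ha
  have hsp : ∀ s t, ONES.testBit s = true → ONES.testBit t = true → s < t → s + 14 ≤ t := by
    intro s t hs ht hst
    rw [g2_ones] at hs ht
    omega
  have hiz : ∀ w, i.testBit w = true → w < 14 := by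
    intro w hw
    by_contra hh
    have : i.testBit w = false :=
      Nat.testBit_lt_two_pow (lt_of_lt_of_le hi (Nat.pow_le_pow_right Nat.two_pos (by omega)))
    simp [this] at hw
  rw [Nat.testBit_or, Bool.or_eq_true] at h
  rcases h with h | h
  · rw [Nat.testBit_xor, Nat.testBit_and] at h
    left
    by_cases hy : y.testBit (64 * c + f + z) = true
    · refine ⟨?_, hy⟩
      by_contra hh
      have hm : (ONES * i).testBit (64 * c + f + z) = true :=
        (g2_mul hi hsp _).2 ⟨64 * c + f, z, rfl, (g2_ones _).2 (by omega), by simpa using hh⟩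
      simp [hy, hm] at h
    · simp [hy] at h
  · right
    obtain ⟨t, w, hq, ht, hw⟩ := (g2_mul hi (fun s t hs ht hst =>
      hsp s t (g2_andSh _ _ _ _ _ hs).1 (g2_andSh _ _ _ _ _ ht).1 hst) _).1 h
    obtain ⟨h3, h4⟩ := g2_andSh _ _ _ _ _ ht
    have h5 := (g2_ones _).1 h3
    have h6 := hiz w hw
    have h7 : t = 64 * c + f := by omega
    have h8 : w = z := by omega
    subst h7 h8
    exact ⟨hw, h4⟩

/-- the bits of `symm st i` in a size field -/
theorem g2_symm_hi {st i a r : ℕ} (hi : i < 2 ^ 14) (ha : Ob a) (hr : 42 ≤ r) (hr' : r < 64)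
    (h : (symm st i).testBit (a + r) = true) : st.testBit (a + r) = true := by
  have e : symm st i = (((st ^^^ XC) ^^^ ((st ^^^ XC) &&& (ONES * i))) |||
      (andSh (st ^^^ XC) 15 i ONES * i)) ^^^ XC := by
    unfold symm
    rw [frc_eq]
    rfl
  have hx : XC.testBit (a + r) = false := by
    rw [g2_xc ha hr']
    simp
    omega
  obtain ⟨h1, h2, c, rfl⟩ := ha
  have hsp : ∀ s t, ONES.testBit s = true → ONES.testBit t = true → s < t → s + 14 ≤ t := by
    intro s t hs ht hst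
    rw [g2_ones] at hs ht
    omega
  rw [e, Nat.testBit_xor, hx, Bool.xor_false, Nat.testBit_or, Bool.or_eq_true] at h
  rcases h with h | h
  · rw [Nat.testBit_xor, Nat.testBit_and, Nat.testBit_xor, hx, Bool.xor_false] at h
    by_cases hy : st.testBit (64 * c + r) = true
    · exact hy
    · simp [hy] at h
  · exfalso
    obtain ⟨t, w, hq, ht, hw⟩ := (g2_mul hi (fun s t hs ht hst =>
      hsp s t (g2_andSh _ _ _ _ _ hs).1 (g2_andSh _ _ _ _ _ ht).1 hst) _).1 h
    have h5 := (g2_ones _).1 (g2_andSh _ _ _ _ _ ht).1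
    have h6 : w < 14 := by
      by_contra hh
      have : i.testBit w = false :=
        Nat.testBit_lt_two_pow (lt_of_lt_of_le hi (Nat.pow_le_pow_right Nat.two_pos (by omega)))
      simp [this] at hw
    omega

theorem symm_ok {O : ℕ → Finset ℕ} {κ : ℕ → ℕ} {p P st i x y : ℕ} (hn : Nm κ p P)
    (hs : St O κ p st) (hi : ∀ z, i.testBit z = true → z < p) (hx : i.testBit x = true)
    (hy : i.testBit y = true) :
    Nm (κ ∘ Equiv.swap x y) p P ∧ St O (κ ∘ Equiv.swap x y) p (symm st i) ∧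
      ∀ a z, Ob a → z < 14 → (cC st a).testBit z = true →
        (cC (symm st i) a).testBit (Equiv.swap x y z) = true := by
  have hp := hn.le
  have hi14 : i < 2 ^ 14 := by
    apply Nat.lt_pow_two_of_testBit
    intro w hw
    by_contra hh
    have := hi w (by simpa using hh)
    omega
  have hxp := hi x hx
  have hyp := hi y hy
  have hlt : ∀ z, z < p → Equiv.swap x y z < p := by
    intro z hz
    rw [Equiv.swap_apply_def]
    split_ifs <;> assumption
  have hin : ∀ z, i.testBit z = true → i.testBit (Equiv.swap x y z) = true := by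
    intro z hz
    rw [Equiv.swap_apply_def]
    split_ifs <;> assumption
  have hout : ∀ z, i.testBit z = false → Equiv.swap x y z = z := by
    intro z hz
    apply Equiv.swap_apply_of_ne_of_ne
    · rintro rfl
      simp [hz] at hx
    · rintro rfl
      simp [hz] at hy
  have hlow : ∀ s a r, Ob a → r < 28 → (s ^^^ XC).testBit (a + r) = s.testBit (a + r) := by
    intro s a r ha hr
    rw [Nat.testBit_xor, g2_xc ha (by omega)]
    have : ¬ (28 ≤ r ∧ r < 42) := by omega
    simp [this]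
  have hmid : ∀ s a r, Ob a → r < 14 →
      (s ^^^ XC).testBit (a + 28 + r) = !s.testBit (a + 28 + r) := by
    intro s a r ha hr
    rw [Nat.testBit_xor, add_assoc, g2_xc ha (by omega)]
    have : 28 ≤ 28 + r ∧ 28 + r < 42 := by omega
    simp [this]
  refine ⟨⟨hp, hn.eq, fun u v hu hv h => ?_⟩, fun a ha => ⟨fun z hz => ⟨fun h => ?_, fun h => ?_⟩,
    fun k hk => ⟨fun h => ?_, fun h => ?_⟩⟩, fun a z ha hz h => ?_⟩
  · exact (Equiv.swap x y).injective (hn.inj _ _ (hlt u hu) (hlt v hv) h)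
  · rw [← hlow _ a z ha (by omega)] at h
    rcases g2_symm_bit (f := 0) hi14 ha (by simp) hz h with ⟨h1, h2⟩ | ⟨h1, h2⟩
    · rw [add_zero, hlow _ a z ha (by omega)] at h2
      have := ((hs a ha).1 z hz).1 h2
      rw [Function.comp_apply, hout z h1]
      exact this
    · have h3 := h2 _ (hin z h1)
      have h4 : Equiv.swap x y z < p := hi _ (hin z h1)
      rw [add_zero, hlow _ a _ ha (by omega)] at h3
      exact ⟨hi z h1, (((hs a ha).1 _ (by omega)).1 h3).2⟩
  · rw [add_assoc, ← hlow _ a _ ha (by omega), ← add_assoc] at h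
    rcases g2_symm_bit (f := 14) hi14 ha (by simp) hz h with ⟨h1, h2⟩ | ⟨h1, h2⟩
    · rw [add_assoc, hlow _ a _ ha (by omega), ← add_assoc] at h2
      have := ((hs a ha).1 z hz).2 h2
      refine ⟨fun h3 => ?_, fun h3 t ht => ?_⟩
      · rw [Function.comp_apply, hout z h1]
        exact this.1 h3
      · obtain ⟨w, hw, rfl⟩ := this.2 h3 t ht
        exact ⟨Equiv.swap x y w, hlt w hw, by simp⟩
    · have h3 := h2 _ (hin z h1)
      have h4 : Equiv.swap x y z < p := hi _ (hin z h1)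
      rw [add_assoc, hlow _ a _ ha (by omega), ← add_assoc] at h3
      have h5 := hi z h1
      exact ⟨fun _ => (((hs a ha).1 _ (by omega)).2 h3).1 h4, fun h6 => by omega⟩
  · exact ((hs a ha).2 k hk).1 (g2_symm_hi hi14 ha (by omega) (by omega) h)
  · exact ((hs a ha).2 k hk).2 (g2_symm_hi hi14 ha (by omega) (by omega) h)
  · have h1 := ((g2_cC _ _ _).1 h).2
    have hz' : Equiv.swap x y z < 14 := by
      rw [Equiv.swap_apply_def]
      split_ifs <;> omega
    refine (g2_cC _ _ _).2 ⟨hz', ?_⟩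
    by_contra hh
    have h2 : (symm st i ^^^ XC).testBit (a + 28 + Equiv.swap x y z) = true := by
      rw [hmid _ a _ ha hz']
      simpa using hh
    rcases g2_symm_bit (f := 28) hi14 ha (by simp) hz' h2 with ⟨h3, h4⟩ | ⟨h3, h4⟩
    · have h5 : Equiv.swap x y z = z := by
        have := hout _ h3
        rw [Equiv.swap_apply_self] at this
        exact this.symm
      rw [h5, hmid _ a _ ha hz, h1] at h4
      simp at h4
    · have h5 := hin _ h3
      rw [Equiv.swap_apply_self] at h5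
      have h6 := h4 z h5
      rw [hmid _ a _ ha hz, h1] at h6
      simp at h6

/-! The colouring condition -/

/-- `c` colours the remaining cells -/
structure G2Col (S : GSol) (O : ℕ → Finset ℕ) (κ : ℕ → ℕ) (p rem st : ℕ) (c : ℕ → ℕ) : Prop where
  mem : ∀ j, rem.testBit j = true → c j ∈ O (S.base + 64 * j)
  blk : ∀ j z, rem.testBit j = true → (cC st (S.base + 64 * j)).testBit z = true → z < p →
    c j ≠ κ z
  prp : ∀ i j, rem.testBit i = true → rem.testBit j = true →
    S.xa.testBit (i * 14 + j) = true → c i ≠ c j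

/-- the colouring part of the invariant -/
def G2R (n : ℕ) (S : GSol) (O : ℕ → Finset ℕ) (κ : ℕ → ℕ) (p rem st : ℕ) : Prop :=
  rem = 16384 ∨ (S.WF n ∧ rem < 2 ^ S.nx ∧ ¬ ∃ c, G2Col S O κ p rem st c)

theorem g2_bit_lt {x k i : ℕ} (h : x < 2 ^ k) (hi : x.testBit i = true) : i < k := by
  by_contra hh
  have : x.testBit i = false :=
    Nat.testBit_lt_two_pow (lt_of_lt_of_le h (Nat.pow_le_pow_right Nat.two_pos (by omega)))
  simp [this] at hi

theorem g2_ob {n : ℕ} {S : GSol} (hw : S.WF n) {j : ℕ} (hj : j < 14) : Ob (S.base + 64 * j) := by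
  have h1 := hw.base1
  have h3 := hw.base3
  obtain ⟨b, hb⟩ := hw.base2
  refine ⟨by omega, by omega, b + j, by omega⟩

theorem G2R.tr {n : ℕ} {S : GSol} {O : ℕ → Finset ℕ} {κ κ' : ℕ → ℕ} {p p' rem st s : ℕ}
    (h : G2R n S O κ p rem st)
    (hb : ∀ a z, Ob a → (cC st a).testBit z = true → z < p →
      ∃ w, (cC s a).testBit w = true ∧ w < p' ∧ κ' w = κ z) : G2R n S O κ' p' rem s := by
  rcases h with h | ⟨hw, hr, hc⟩
  · exact Or.inl h
  · refine Or.inr ⟨hw, hr, fun ⟨c, hc'⟩ => hc ⟨c, hc'.mem, fun j z hj hz hzp => ?_, hc'.prp⟩⟩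
    have hj' : j < 14 := lt_of_lt_of_le (g2_bit_lt hr hj) hw.nx
    obtain ⟨w, h1, h2, h3⟩ := hb _ z (g2_ob hw hj') hz hzp
    rw [← h3]
    exact hc'.blk j w hj h1 h2

theorem G2R.same {n : ℕ} {S : GSol} {O : ℕ → Finset ℕ} {κ : ℕ → ℕ} {p rem st s : ℕ}
    (h : G2R n S O κ p rem st) (hs : SameC s st) : G2R n S O κ p rem s :=
  h.tr fun a z ha hz hp => ⟨z, by rw [hs a ha]; exact hz, hp, rfl⟩

theorem g2_rem_bit (rem j i : ℕ) (hj : rem.testBit j = true) :
    (Nat.xor rem (Nat.shiftLeft 1 j)).testBit i = true ↔ i ≠ j ∧ rem.testBit i = true := by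
  change (rem ^^^ (1 <<< j)).testBit i = true ↔ _
  rw [Nat.testBit_xor, Nat.one_shiftLeft, Nat.testBit_two_pow]
  by_cases h : j = i
  · subst h
    simp [hj]
  · simp [h, Ne.symm h]

/-- removing a cell -/
theorem G2R.step {n : ℕ} {S : GSol} {O : ℕ → Finset ℕ} {κ : ℕ → ℕ} {p rem st s j : ℕ}
    (h : G2R n S O κ p rem st) (hj : rem.testBit j = true) (hj' : j < 14)
    (hb : ∀ a z, Ob a → (cC st a).testBit z = true → (cC s a).testBit z = true)
    (ht : S.WF n → rem < 2 ^ 14 → ∀ c, G2Col S O κ p (Nat.xor rem (Nat.shiftLeft 1 j)) s c →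
      ∃ t ∈ O (S.base + 64 * j),
        (∀ z, (cC st (S.base + 64 * j)).testBit z = true → z < p → t ≠ κ z) ∧
        ∀ i, i ≠ j → rem.testBit i = true → S.xa.testBit (j * 14 + i) = true → c i ≠ t) :
    G2R n S O κ p (Nat.xor rem (Nat.shiftLeft 1 j)) s := by
  rcases h with h | ⟨hw, hr, hc⟩
  · exfalso
    subst h
    change (2 ^ 14).testBit j = true at hj
    rw [Nat.testBit_two_pow] at hj
    simp at hj
    omega
  have hlt : ∀ i, rem.testBit i = true → i < 14 := fun i hi =>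
    lt_of_lt_of_le (g2_bit_lt hr hi) hw.nx
  refine Or.inr ⟨hw, ?_, fun ⟨c, hc'⟩ => hc ?_⟩
  · apply Nat.lt_pow_two_of_testBit
    intro i hi
    by_contra hh
    have := g2_bit_lt hr ((g2_rem_bit rem j i hj).1 (by simpa using hh)).2
    omega
  · obtain ⟨t, ht1, ht2, ht3⟩ := ht hw
      (lt_of_lt_of_le hr (Nat.pow_le_pow_right Nat.two_pos hw.nx)) c hc'
    refine ⟨Function.update c j t, fun i hi => ?_, fun i z hi hz hzp => ?_, fun i k hi hk hx => ?_⟩
    · by_cases hij : i = j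
      · subst hij
        rw [Function.update_self]
        exact ht1
      · rw [Function.update_of_ne hij]
        exact hc'.mem i ((g2_rem_bit rem j i hj).2 ⟨hij, hi⟩)
    · by_cases hij : i = j
      · subst hij
        rw [Function.update_self]
        exact ht2 z hz hzp
      · rw [Function.update_of_ne hij]
        exact hc'.blk i z ((g2_rem_bit rem j i hj).2 ⟨hij, hi⟩)
          (hb _ z (g2_ob hw (hlt i hi)) hz) hzp
    · by_cases hij : i = j
      · subst hij
        by_cases hkj : k = i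
        · subst hkj
          rw [hw.irr k hj'] at hx
          simp at hx
        · rw [Function.update_self, Function.update_of_ne hkj]
          exact (ht3 k hkj hk hx).symm
      · by_cases hkj : k = j
        · subst hkj
          rw [Function.update_self, Function.update_of_ne hij]
          exact ht3 i hij hi (by rw [hw.symm k i hj' (hlt i hi)]; exact hx)
        · rw [Function.update_of_ne hij, Function.update_of_ne hkj]
          exact hc'.prp i k ((g2_rem_bit rem j i hj).2 ⟨hij, hi⟩)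
            ((g2_rem_bit rem j k hj).2 ⟨hkj, hk⟩) hx

/-- the set of ones of a 14-bit number -/
def g2B (x : ℕ) : Finset ℕ := (Finset.range 14).filter fun i => x.testBit i = true

theorem g2_mem_B {x i : ℕ} : i ∈ g2B x ↔ i < 14 ∧ x.testBit i = true := by
  simp [g2B]

theorem g2_pop {x : ℕ} (hx : ∀ i, x.testBit i = true → i < 14) : pop x = (g2B x).card := by
  apply pop_eq
  change x < 2 ^ 14
  apply Nat.lt_pow_two_of_testBit
  intro i hi
  by_contra hh
  have := hx i (by simpa using hh)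
  omega

theorem g2_land (x y i : ℕ) :
    (Nat.land x y).testBit i = true ↔ x.testBit i = true ∧ y.testBit i = true := by
  change (x &&& y).testBit i = true ↔ _
  rw [Nat.testBit_and, Bool.and_eq_true]

theorem g2_lor (x y i : ℕ) :
    (Nat.lor x y).testBit i = true ↔ x.testBit i = true ∨ y.testBit i = true := by
  change (x ||| y).testBit i = true ↔ _
  rw [Nat.testBit_or, Bool.or_eq_true]

theorem g2_cpl (x i : ℕ) (hi : i < 14) :
    (Nat.xor x 16383).testBit i = true ↔ x.testBit i = false := by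
  change (x ^^^ (2 ^ 14 - 1)).testBit i = true ↔ _
  rw [Nat.testBit_xor, Nat.testBit_two_pow_sub_one]
  simp [hi]

theorem g2_row (xa j i : ℕ) :
    (Nat.land (Nat.shiftRight xa (Nat.mul j 14)) 16383).testBit i = true ↔
      i < 14 ∧ xa.testBit (j * 14 + i) = true := by
  change ((xa >>> (j * 14)) &&& (2 ^ 14 - 1)).testBit i = true ↔ _
  rw [Nat.testBit_and, Nat.testBit_shiftRight, Nat.testBit_two_pow_sub_one]
  simp [and_comm]

theorem g2_P {κ : ℕ → ℕ} {p P : ℕ} (hn : Nm κ p P) (i : ℕ) : P.testBit i = true ↔ i < p := by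
  have : P = 2 ^ p - 1 := by
    have := hn.eq
    omega
  rw [this, Nat.testBit_two_pow_sub_one]
  simp

/-- a colour outside two small sets -/
theorem g2_pick {A B C : Finset ℕ} (f g : ℕ → ℕ) (h : B.card + C.card < A.card) :
    ∃ t ∈ A, (∀ i ∈ B, f i ≠ t) ∧ ∀ i ∈ C, g i ≠ t := by
  have h1 : (B.image f ∪ C.image g).card < A.card :=
    lt_of_le_of_lt (Finset.card_union_le _ _) (lt_of_le_of_lt
      (add_le_add Finset.card_image_le Finset.card_image_le) h)
  obtain ⟨t, ht, hn⟩ := Finset.exists_mem_notMem_of_card_lt_card h1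
  refine ⟨t, ht, fun i hi he => hn ?_, fun i hi he => hn ?_⟩
  · exact Finset.mem_union_left _ (Finset.mem_image.2 ⟨i, hi, he⟩)
  · exact Finset.mem_union_right _ (Finset.mem_image.2 ⟨i, hi, he⟩)

section
variable {n : ℕ} {S : GSol} {O : ℕ → Finset ℕ} {κ : ℕ → ℕ} {p P rem st j : ℕ}

theorem g2_remL (hs : St O κ p st) (h : G2R n S O κ p rem st) (hj : rem.testBit j = true)
    (hj' : j < 14) {k : ℕ} (hk : k < 8) (hl : cL st (S.base + 64 * j) k = true)
    (hd : pop (Nat.land rem (Nat.land (Nat.shiftRight S.xa (Nat.mul j 14)) 16383)) +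
      pop (Nat.land (cC st (S.base + 64 * j)) (Nat.xor (cO st (S.base + 64 * j)) 16383)) < k) :
    G2R n S O κ p (Nat.xor rem (Nat.shiftLeft 1 j)) st := by
  refine h.step hj hj' (fun _ _ _ h => h) fun hw hr c _ => ?_
  have ha := g2_ob hw hj'
  rw [g2_pop (fun i hi => ((g2_row _ _ _).1 ((g2_land _ _ _).1 hi).2).1),
    g2_pop (fun i hi => ((g2_cC _ _ _).1 ((g2_land _ _ _).1 hi).1).1)] at hd
  have hc : k ≤ (O (S.base + 64 * j)).card := by
    unfold cL at hl
    rw [tb_eq] at hl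
    exact ((hs _ ha).2 k hk).1 hl
  obtain ⟨t, ht, h1, h2⟩ := g2_pick c κ (lt_of_lt_of_le hd hc)
  refine ⟨t, ht, fun z hz hzp he => ?_, fun i _ hi hx => ?_⟩
  · have hz14 := ((g2_cC _ _ _).1 hz).1
    refine h2 z (g2_mem_B.2 ⟨hz14, (g2_land _ _ _).2 ⟨hz, (g2_cpl _ _ hz14).2 ?_⟩⟩) he.symm
    by_contra hh
    have h3 := ((g2_cO _ _ _).1 (by simpa using hh)).2
    exact (((hs _ ha).1 z hz14).2 h3).1 hzp (he ▸ ht)
  · have hi14 := g2_bit_lt hr hi
    exact h1 i (g2_mem_B.2 ⟨hi14, (g2_land _ _ _).2 ⟨hi, (g2_row _ _ _).2 ⟨hi14, hx⟩⟩⟩)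

theorem g2_remI (hn : Nm κ p P) (hs : St O κ p st) (h : G2R n S O κ p rem st)
    (hj : rem.testBit j = true) (hj' : j < 14)
    (hd : pop (Nat.land rem (Nat.land (Nat.shiftRight S.xa (Nat.mul j 14)) 16383)) <
      pop (Nat.land (cI st (S.base + 64 * j)) (Nat.xor (cC st (S.base + 64 * j)) 16383))) :
    G2R n S O κ p (Nat.xor rem (Nat.shiftLeft 1 j)) st := by
  refine h.step hj hj' (fun _ _ _ h => h) fun hw hr c _ => ?_
  have ha := g2_ob hw hj'
  rw [g2_pop (fun i hi => ((g2_row _ _ _).1 ((g2_land _ _ _).1 hi).2).1),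
    g2_pop (fun i hi => ((g2_cI _ _ _).1 ((g2_land _ _ _).1 hi).1).1)] at hd
  have hF : ∀ y ∈ g2B (Nat.land (cI st (S.base + 64 * j)) (Nat.xor (cC st (S.base + 64 * j)) 16383)),
      y < p ∧ κ y ∈ O (S.base + 64 * j) ∧ (cC st (S.base + 64 * j)).testBit y = false := by
    intro y hy
    obtain ⟨h1, h2⟩ := g2_mem_B.1 hy
    obtain ⟨h3, h4⟩ := (g2_land _ _ _).1 h2
    have h5 := ((hs _ ha).1 y h1).1 ((g2_cI _ _ _).1 h3).2
    exact ⟨h5.1, h5.2, (g2_cpl _ _ h1).1 h4⟩
  rw [← Finset.card_image_of_injOn (f := κ) (fun u hu v hv he =>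
    hn.inj u v (hF u hu).1 (hF v hv).1 he)] at hd
  obtain ⟨t, ht, h1, -⟩ := g2_pick (C := ∅) c κ (by simpa using hd)
  obtain ⟨y, hy, rfl⟩ := Finset.mem_image.1 ht
  obtain ⟨h2, h3, h4⟩ := hF y hy
  refine ⟨κ y, h3, fun z hz hzp he => ?_, fun i _ hi hx => ?_⟩
  · have := hn.inj y z h2 hzp he
    subst this
    simp [h4] at hz
  · have hi14 := g2_bit_lt hr hi
    exact h1 i (g2_mem_B.2 ⟨hi14, (g2_land _ _ _).2 ⟨hi, (g2_row _ _ _).2 ⟨hi14, hx⟩⟩⟩)

theorem g2_blk_bit (xs base j x q : ℕ) :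
    (Nat.shiftLeft (Nat.land (Nat.shiftRight xs (Nat.mul j 896)) (Nat.pred (Nat.shiftLeft 1 896)))
      (Nat.add base (Nat.add x 28))).testBit q = true ↔
      ∃ t, t < 896 ∧ q = base + (x + 28) + t ∧ xs.testBit (j * 896 + t) = true := by
  have e : Nat.pred (Nat.shiftLeft 1 896) = 2 ^ 896 - 1 := by
    change (1 <<< 896) - 1 = _
    rw [Nat.one_shiftLeft]
  rw [e]
  change (((xs >>> (j * 896)) &&& (2 ^ 896 - 1)) <<< (base + (x + 28))).testBit q = true ↔ _
  rw [Nat.testBit_shiftLeft, Nat.testBit_and, Nat.testBit_shiftRight, Nat.testBit_two_pow_sub_one]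
  simp only [Bool.and_eq_true, decide_eq_true_eq, ge_iff_le]
  constructor
  · rintro ⟨h1, h2, h3⟩
    exact ⟨_, h3, by omega, h2⟩
  · rintro ⟨t, h1, rfl, h2⟩
    rw [Nat.add_sub_cancel_left]
    exact ⟨by omega, h2, h1⟩

theorem g2_commit (hn : Nm κ p P) (hs : St O κ p st) (h : G2R n S O κ p rem st)
    (hj : rem.testBit j = true) (hj' : j < 14) {x s : ℕ}
    (hx : (cI st (S.base + 64 * j)).testBit x = true)
    (hc : (cC st (S.base + 64 * j)).testBit x = false)
    (he : s = Nat.lor st (Nat.shiftLeft (Nat.land (Nat.shiftRight S.xs (Nat.mul j 896))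
      (Nat.pred (Nat.shiftLeft 1 896))) (Nat.add S.base (Nat.add x 28)))) :
    St O κ p s ∧ G2R n S O κ p (Nat.xor rem (Nat.shiftLeft 1 j)) s := by
  have hw : S.WF n := by
    rcases h with h | h
    · exfalso
      subst h
      change (2 ^ 14).testBit j = true at hj
      rw [Nat.testBit_two_pow] at hj
      simp at hj
      omega
    · exact h.1
  obtain ⟨hx14, hx1⟩ := (g2_cI _ _ _).1 hx
  have ha := g2_ob hw hj'
  have hbit : ∀ q, s.testBit q = true ↔ st.testBit q = true ∨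
      ∃ t, t < 896 ∧ q = S.base + (x + 28) + t ∧ S.xs.testBit (j * 896 + t) = true := by
    intro q
    rw [he, g2_lor, g2_blk_bit]
  have hout : ∀ a r, Ob a → r < 64 → (r < 28 ∨ 42 ≤ r) → s.testBit (a + r) = true →
      st.testBit (a + r) = true := by
    intro a r ha' hr hr' hb
    rcases (hbit _).1 hb with h1 | ⟨t, h1, h2, h3⟩
    · exact h1
    · exfalso
      obtain ⟨u, hu⟩ := hw.xs2 j t hj' h1 h3
      obtain ⟨v, hv⟩ := hw.base2
      obtain ⟨-, -, w, hw'⟩ := ha'
      omega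
  refine ⟨fun a ha' => ⟨fun z hz => ⟨fun hb => ?_, fun hb => ?_⟩,
    fun k hk => ⟨fun hb => ?_, fun hb => ?_⟩⟩, ?_⟩
  · exact ((hs a ha').1 z hz).1 (hout a z ha' (by omega) (by omega) hb)
  · rw [add_assoc] at hb
    have := hout a _ ha' (by omega) (by omega) hb
    rw [← add_assoc] at this
    exact ((hs a ha').1 z hz).2 this
  · exact ((hs a ha').2 k hk).1 (hout a _ ha' (by omega) (by omega) hb)
  · exact ((hs a ha').2 k hk).2 (hout a _ ha' (by omega) (by omega) hb)
  · obtain ⟨hxp, hxO⟩ := ((hs _ ha).1 x hx14).1 hx1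
    refine h.step hj hj' (fun a z _ hz => ?_) fun _ hr c hc' => ⟨κ x, hxO, fun z hz hzp he => ?_,
      fun i hij hi hxa => ?_⟩
    · obtain ⟨h1, h2⟩ := (g2_cC _ _ _).1 hz
      exact (g2_cC _ _ _).2 ⟨h1, (hbit _).2 (Or.inl h2)⟩
    · have := hn.inj x z hxp hzp he
      subst this
      simp [hc] at hz
    · have hi14 := g2_bit_lt hr hi
      refine hc'.blk i x ((g2_rem_bit rem j i hj).2 ⟨hij, hi⟩) ?_ hxp
      exact (g2_cC _ _ _).2 ⟨hx14, (hbit _).2 (Or.inr ⟨64 * i, by omega, by omega,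
        hw.xs1 j i hj' hi14 hxa⟩)⟩

theorem g2_fresh (hn : Nm κ p P) (hs : St O κ p st) {a k : ℕ} (ha : Ob a) (hk : k < 8)
    (hl : cL st a k = true) (hP : P < 4096)
    (hd : pop (Nat.land (Nat.xor (cO st a) 16383) P) < k) :
    ∃ κ' : ℕ → ℕ, Nm κ' (p + 1) (P + P + 1) ∧ St O κ' (p + 1) st ∧ κ' p ∈ O a ∧
      ∀ z, z < p → κ' z = κ z := by
  have hp := hn.le
  have hp12 : p ≤ 12 := by
    by_contra hh
    have h1 : p = 13 := by omega
    have h2 := hn.eq
    rw [h1] at h2
    omega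
  rw [g2_pop (fun i hi => by
    have := (g2_P hn i).1 ((g2_land _ _ _).1 hi).2
    omega)] at hd
  have hc : k ≤ (O a).card := by
    unfold cL at hl
    rw [tb_eq] at hl
    exact ((hs _ ha).2 k hk).1 hl
  obtain ⟨t, ht, h1, -⟩ := g2_pick (C := ∅) κ κ (by simpa using lt_of_lt_of_le hd hc)
  have hnew : ∀ y, y < p → κ y ≠ t := by
    intro y hy he
    refine h1 y (g2_mem_B.2 ⟨by omega, (g2_land _ _ _).2 ⟨(g2_cpl _ _ (by omega)).2 ?_,
      (g2_P hn y).2 hy⟩⟩) he
    by_contra hh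
    have h3 := ((g2_cO _ _ _).1 (by simpa using hh)).2
    exact (((hs _ ha).1 y (by omega)).2 h3).1 hy (he ▸ ht)
  have hlow : ∀ z, z < p → Function.update κ p t z = κ z := fun z hz =>
    Function.update_of_ne (by omega) _ _
  refine ⟨Function.update κ p t, ⟨by omega, ?_, fun u v hu hv he => ?_⟩,
    fun b hb => ⟨fun z hz => ⟨fun h => ?_, fun h => ⟨fun h2 => ?_, fun h2 w hw => ?_⟩⟩,
      (hs b hb).2⟩, by simpa using ht, hlow⟩
  · have := hn.eq
    rw [pow_succ]
    omega
  · rcases (Nat.lt_succ_iff.1 hu).lt_or_eq with h1 | h1 <;>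
      rcases (Nat.lt_succ_iff.1 hv).lt_or_eq with h2 | h2
    · rw [hlow u h1, hlow v h2] at he
      exact hn.inj u v h1 h2 he
    · subst h2
      rw [hlow u h1, Function.update_self] at he
      exact absurd he (hnew u h1)
    · subst h1
      rw [hlow v h2, Function.update_self] at he
      exact absurd he.symm (hnew v h2)
    · omega
  · obtain ⟨h2, h3⟩ := ((hs b hb).1 z hz).1 h
    rw [hlow z h2]
    exact ⟨by omega, h3⟩
  · have h3 := ((hs b hb).1 z hz).2 h
    rcases (Nat.lt_succ_iff.1 h2).lt_or_eq with h4 | h4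
    · rw [hlow z h4]
      exact h3.1 h4
    · subst h4
      rw [Function.update_self]
      intro h5
      obtain ⟨y, hy, he⟩ := h3.2 le_rfl t h5
      exact hnew y hy he
  · obtain ⟨y, hy, he⟩ := (((hs b hb).1 z hz).2 h).2 (by omega) w hw
    exact ⟨y, by omega, by rw [hlow y hy, he]⟩

end

theorem g2_allB (q : ℕ → Bool) (fuel : ℕ) : ∀ y, allB q fuel y = true →
    ∀ j, y.testBit j = true → q j = true := by
  induction fuel with
  | zero =>
    intro y h
    exact absurd h Bool.false_ne_true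
  | succ f ih =>
    intro y h j hj
    have e : allB q (f + 1) y = dj (Nat.beq y 0) (frc (Nat.log2 y) fun j =>
      cj (q j) (frc (Nat.xor y (Nat.shiftLeft 1 j)) (allB q f))) := rfl
    rw [e, dj_iff, frc_eq, cj_iff, frc_eq] at h
    rcases h with h | ⟨h1, h2⟩
    · have : y = 0 := Nat.eq_of_beq_eq_true h
      subst this
      simp at hj
    · by_cases hjj : j = y.log2
      · rw [hjj]
        exact h1
      · apply ih _ h2
        change (y ^^^ (1 <<< y.log2)).testBit j = true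
        rw [Nat.testBit_xor, Nat.one_shiftLeft, Nat.testBit_two_pow, hj]
        simp [Ne.symm hjj]

/-- many colours outside two small sets -/
theorem g2_big {A B C M : Finset ℕ} (f g : ℕ → ℕ) {m : ℕ} (h : B.card + m + C.card < A.card)
    (hM : ∀ t ∈ A, (∀ i ∈ B, f i ≠ t) → (∀ i ∈ C, g i ≠ t) → t ∈ M) : m < M.card := by
  have h1 : A ⊆ M ∪ (B.image f ∪ C.image g) := by
    intro t ht
    by_cases hb : t ∈ B.image f ∪ C.image g
    · exact Finset.mem_union_right _ hb
    · refine Finset.mem_union_left _ (hM t ht (fun i hi he => hb ?_) fun i hi he => hb ?_)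
      · exact Finset.mem_union_left _ (Finset.mem_image.2 ⟨i, hi, he⟩)
      · exact Finset.mem_union_right _ (Finset.mem_image.2 ⟨i, hi, he⟩)
  have h2 := Finset.card_le_card h1
  have h3 := Finset.card_union_le M (B.image f ∪ C.image g)
  have h4 := Finset.card_union_le (B.image f) (C.image g)
  have h5 : (B.image f).card ≤ B.card := Finset.card_image_le
  have h6 : (C.image g).card ≤ C.card := Finset.card_image_le
  omega

theorem g2_xorY {rem Y : ℕ} (hY : ∀ i, Y.testBit i = true → rem.testBit i = true) (i : ℕ) :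
    (Nat.xor rem Y).testBit i = true ↔ rem.testBit i = true ∧ Y.testBit i = false := by
  change (rem ^^^ Y).testBit i = true ↔ _
  rw [Nat.testBit_xor]
  have := hY i
  cases h1 : rem.testBit i <;> cases h2 : Y.testBit i <;> simp_all

/-- what `kerS` checks at one cell -/
theorem g2_kerS {S : GSol} {st rem Y bm ks om j : ℕ} (h : kerS S st rem Y bm ks om = true)
    (hj : Y.testBit j = true) :
    (pop (Nat.land (Nat.land rem (Nat.land (Nat.shiftRight S.xa (Nat.mul j 14)) 16383))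
          (Nat.xor Y 16383)) + pop (Nat.land (Nat.shiftRight om (Nat.mul j 14)) 16383) <
        pop (Nat.land (cI st (S.base + 64 * j)) (Nat.xor (cC st (S.base + 64 * j)) 16383)) ∨
      ∃ k, k < 8 ∧ cL st (S.base + 64 * j) k = true ∧
        pop (Nat.land (Nat.land rem (Nat.land (Nat.shiftRight S.xa (Nat.mul j 14)) 16383))
          (Nat.xor Y 16383)) + pop (Nat.land (Nat.shiftRight om (Nat.mul j 14)) 16383) +
          pop (Nat.land (cC st (S.base + 64 * j)) (Nat.xor (cO st (S.base + 64 * j)) 16383)) < k) ∧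
    ∀ i, i < 14 → S.xa.testBit (j * 14 + i) = true → Y.testBit i = true →
      bm.testBit j ≠ bm.testBit i ∧
        (om.testBit (j * 14 + i) = true ∨ om.testBit (i * 14 + j) = true) := by
  unfold kerS at h
  have h1 := g2_allB _ _ _ h j hj
  have ea : Nat.add S.base (Nat.shiftLeft j 6) = S.base + 64 * j := by
    change S.base + j <<< 6 = _
    rw [Nat.shiftLeft_eq]
    omega
  beta_reduce at h1
  rw [frc_eq, frc_eq, frc_eq, frc_eq, frc_eq, cj_iff, frc_eq, cj_iff, frc_eq, ea] at h1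
  obtain ⟨h2, h3, h4⟩ := h1
  refine ⟨?_, fun i hi hx hy => ⟨?_, ?_⟩⟩
  · rw [sel_eq] at h2
    split_ifs at h2
    · exact Or.inl (Nat.blt_eq.mp h2)
    · rw [cj_iff] at h2
      exact Or.inr ⟨_, lt_of_le_of_lt (Nat.and_le_right (n := ks >>> (j * 3)) (m := 7))
        (by norm_num), h2.1, Nat.blt_eq.mp h2.2⟩
  · have h5 := Nat.eq_of_beq_eq_true h3
    have h6 : (Nat.land (Nat.land (Nat.shiftRight S.xa (Nat.mul j 14)) 16383) Y).testBit i = true :=
      (g2_land _ _ _).2 ⟨(g2_row _ _ _).2 ⟨hi, hx⟩, hy⟩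
    intro he
    have h7 : (sel (tb bm j) bm (Nat.xor bm 16383)).testBit i = true := by
      rw [sel_eq, tb_eq]
      split_ifs with h8
      · rw [← he]
        exact h8
      · rw [g2_cpl _ _ hi, ← he]
        simpa using h8
    have h8 := (g2_land _ _ _).2 ⟨h6, h7⟩
    rw [h5] at h8
    simp at h8
  · by_cases ho : om.testBit (j * 14 + i) = true
    · exact Or.inl ho
    · right
      have h5 := g2_allB _ _ _ h4 i ((g2_land _ _ _).2 ⟨(g2_land _ _ _).2
        ⟨(g2_row _ _ _).2 ⟨hi, hx⟩, hy⟩, (g2_cpl _ _ hi).2 (by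
          rw [← Bool.not_eq_true]
          exact fun hh => ho ((g2_row _ _ _).1 hh).2)⟩)
      beta_reduce at h5
      rw [tb_eq] at h5
      exact h5

/-- removing a set of cells with a kernel-perfect orientation -/
theorem g2_ker {n : ℕ} {S : GSol} {O : ℕ → Finset ℕ} {κ : ℕ → ℕ} {p P rem st Y bm ks om : ℕ}
    (hn : Nm κ p P) (hs : St O κ p st) (h : G2R n S O κ p rem st)
    (hY14 : ∀ i, Y.testBit i = true → i < 14) (hsb : sb Y rem = true)
    (hk : kerS S st rem Y bm ks om = true) : G2R n S O κ p (Nat.xor rem Y) st := by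
  classical
  have hY := (sb_iff _ _).1 hsb
  rcases h with h | ⟨hw, hr, hc⟩
  · left
    subst h
    have : Y = 0 := by
      apply Nat.eq_of_testBit_eq
      intro i
      rw [Nat.zero_testBit, ← Bool.not_eq_true]
      intro hi
      have h1 := hY i hi
      have h2 := hY14 i hi
      change (2 ^ 14).testBit i = true at h1
      rw [Nat.testBit_two_pow] at h1
      simp at h1
      omega
    subst this
    rfl
  have hlt : ∀ i, rem.testBit i = true → i < 14 := fun i hi =>
    lt_of_lt_of_le (g2_bit_lt hr hi) hw.nx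
  refine Or.inr ⟨hw, ?_, fun ⟨c, hc'⟩ => hc ?_⟩
  · apply Nat.lt_pow_two_of_testBit
    intro i hi
    by_contra hh
    have := g2_bit_lt hr ((g2_xorY hY i).1 (by simpa using hh)).1
    omega
  let G : SimpleGraph ℕ :=
    { Adj := fun i j => i < 14 ∧ j < 14 ∧ S.xa.testBit (i * 14 + j) = true
      symm := ⟨fun i j hij => ⟨hij.2.1, hij.1, by rw [hw.symm j i hij.2.1 hij.1]; exact hij.2.2⟩⟩
      loopless := ⟨fun i hi => by
        have := hw.irr i hi.1
        rw [hi.2.2] at this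
        simp at this⟩ }
  let M : ℕ → Finset ℕ := fun j => (O (S.base + 64 * j)).filter fun t =>
    (∀ z, (cC st (S.base + 64 * j)).testBit z = true → z < p → t ≠ κ z) ∧
      ∀ i, (Nat.xor rem Y).testBit i = true → S.xa.testBit (j * 14 + i) = true → c i ≠ t
  obtain ⟨d, hd1, hd2⟩ := ker_colour (G := G)
    (fun j u => G.Adj j u ∧ om.testBit (j * 14 + u) = true) (fun j => bm.testBit j)
    (fun _ _ h => h.1) (g2B Y) M
    (fun u hu v hv huv => by
      rcases ((g2_kerS hk (g2_mem_B.1 hu).2).2 v huv.2.1 huv.2.2 (g2_mem_B.1 hv).2).2 with h1 | h1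
      · exact Or.inl ⟨huv, h1⟩
      · exact Or.inr ⟨huv.symm, h1⟩)
    (fun u hu v hv huv =>
      ((g2_kerS hk (g2_mem_B.1 hu).2).2 v huv.2.1 huv.2.2 (g2_mem_B.1 hv).2).1)
    (fun j hj => by
      obtain ⟨hj', hjY⟩ := g2_mem_B.1 hj
      have ha := g2_ob hw hj'
      refine lt_of_le_of_lt (Finset.card_le_card (t := g2B (Nat.land
        (Nat.shiftRight om (Nat.mul j 14)) 16383)) fun u hu => ?_) ?_
      · simp only [Finset.mem_filter] at hu
        obtain ⟨h1, h2, h3⟩ := hu
        exact g2_mem_B.2 ⟨h2.2.1, (g2_row _ _ _).2 ⟨h2.2.1, h3⟩⟩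
      have hB : ∀ i, (Nat.xor rem Y).testBit i = true → S.xa.testBit (j * 14 + i) = true →
          i ∈ g2B (Nat.land (Nat.land rem (Nat.land (Nat.shiftRight S.xa (Nat.mul j 14)) 16383))
            (Nat.xor Y 16383)) := by
        intro i hi hx
        obtain ⟨h1, h2⟩ := (g2_xorY hY i).1 hi
        have h3 := hlt i h1
        exact g2_mem_B.2 ⟨h3, (g2_land _ _ _).2 ⟨(g2_land _ _ _).2 ⟨h1, (g2_row _ _ _).2 ⟨h3, hx⟩⟩,
          (g2_cpl _ _ h3).2 h2⟩⟩
      rcases (g2_kerS hk hjY).1 with hd | ⟨k, hk8, hl, hd⟩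
      · rw [g2_pop (fun i hi => hlt i ((g2_land _ _ _).1 ((g2_land _ _ _).1 hi).1).1),
          g2_pop (fun i hi => ((g2_row _ _ _).1 hi).1),
          g2_pop (fun i hi => ((g2_cI _ _ _).1 ((g2_land _ _ _).1 hi).1).1)] at hd
        have hF : ∀ y ∈ g2B (Nat.land (cI st (S.base + 64 * j))
            (Nat.xor (cC st (S.base + 64 * j)) 16383)),
            y < p ∧ κ y ∈ O (S.base + 64 * j) ∧ (cC st (S.base + 64 * j)).testBit y = false := by
          intro y hy
          obtain ⟨h1, h2⟩ := g2_mem_B.1 hy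
          obtain ⟨h3, h4⟩ := (g2_land _ _ _).1 h2
          have h5 := ((hs _ ha).1 y h1).1 ((g2_cI _ _ _).1 h3).2
          exact ⟨h5.1, h5.2, (g2_cpl _ _ h1).1 h4⟩
        rw [← Finset.card_image_of_injOn (f := κ) (fun u hu v hv he =>
          hn.inj u v (hF u hu).1 (hF v hv).1 he)] at hd
        refine g2_big (C := ∅) c κ (by simpa using hd) fun t ht h1 _ => ?_
        obtain ⟨y, hy, rfl⟩ := Finset.mem_image.1 ht
        obtain ⟨h2, h3, h4⟩ := hF y hy
        refine Finset.mem_filter.2 ⟨h3, fun z hz hzp he => ?_, fun i hi hx => h1 i (hB i hi hx)⟩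
        have := hn.inj y z h2 hzp he
        subst this
        simp [h4] at hz
      · rw [g2_pop (fun i hi => hlt i ((g2_land _ _ _).1 ((g2_land _ _ _).1 hi).1).1),
          g2_pop (fun i hi => ((g2_row _ _ _).1 hi).1),
          g2_pop (fun i hi => ((g2_cC _ _ _).1 ((g2_land _ _ _).1 hi).1).1)] at hd
        have hc4 : k ≤ (O (S.base + 64 * j)).card := by
          unfold cL at hl
          rw [tb_eq] at hl
          exact ((hs _ ha).2 k hk8).1 hl
        refine g2_big c κ (lt_of_lt_of_le hd hc4) fun t ht h1 h2 => ?_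
        refine Finset.mem_filter.2 ⟨ht, fun z hz hzp he => ?_, fun i hi hx => h1 i (hB i hi hx)⟩
        have hz14 := ((g2_cC _ _ _).1 hz).1
        refine h2 z (g2_mem_B.2 ⟨hz14, (g2_land _ _ _).2 ⟨hz, (g2_cpl _ _ hz14).2 ?_⟩⟩) he.symm
        by_contra hh
        have h3 := ((g2_cO _ _ _).1 (by simpa using hh)).2
        exact (((hs _ ha).1 z hz14).2 h3).1 hzp (he ▸ ht))
  have hM : ∀ j, Y.testBit j = true → d j ∈ O (S.base + 64 * j) ∧
      (∀ z, (cC st (S.base + 64 * j)).testBit z = true → z < p → d j ≠ κ z) ∧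
      ∀ i, (Nat.xor rem Y).testBit i = true → S.xa.testBit (j * 14 + i) = true → c i ≠ d j :=
    fun j hj => Finset.mem_filter.1 (hd1 j (g2_mem_B.2 ⟨hY14 j hj, hj⟩))
  have hN : ∀ j, rem.testBit j = true → ¬ Y.testBit j = true →
      (Nat.xor rem Y).testBit j = true := fun j h1 h2 => (g2_xorY hY j).2 ⟨h1, by simpa using h2⟩
  refine ⟨fun j => if Y.testBit j = true then d j else c j, fun i hi => ?_,
    fun i z hi hz hzp => ?_, fun i k hi hk' hx => ?_⟩
  · split_ifs with h1
    · exact (hM i h1).1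
    · exact hc'.mem i (hN i hi h1)
  · split_ifs with h1
    · exact (hM i h1).2.1 z hz hzp
    · exact hc'.blk i z (hN i hi h1) hz hzp
  · split_ifs with h1 h2 h2
    · exact hd2 i (g2_mem_B.2 ⟨hY14 i h1, h1⟩) k (g2_mem_B.2 ⟨hY14 k h2, h2⟩)
        ⟨hlt i hi, hlt k hk', hx⟩
    · exact ((hM i h1).2.2 k (hN k hk' h2) hx).symm
    · exact (hM k h2).2.2 i (hN i hi h1) (by rw [hw.symm k i (hlt k hk') (hlt i hi)]; exact hx)
    · exact hc'.prp i k (hN i hi h1) (hN k hk' h2) hx

theorem g2_keep (n q : ℕ) :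
    (Nat.pred (Nat.shiftLeft 1 (Nat.shiftLeft (Nat.succ n) 6))).testBit q = true ↔
      q < 64 * n + 64 := by
  change ((1 <<< ((n + 1) <<< 6)) - 1).testBit q = true ↔ _
  rw [Nat.one_shiftLeft, Nat.testBit_two_pow_sub_one, Nat.shiftLeft_eq]
  simp only [decide_eq_true_eq]
  omega

/-- the invariant of the game -/
def G2Inv (n : ℕ) (O0 : ℕ → Finset ℕ) (S : GSol) (P rem st : ℕ) : Prop :=
  ∃ (O : ℕ → Finset ℕ) (κ : ℕ → ℕ) (p : ℕ), (∀ a, a ≤ 64 * n → O a = O0 a) ∧ Nm κ p P ∧
    St O κ p st ∧ S.rels.All (Rel.Holds O) ∧ G2R n S O κ p rem st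

theorem g2_switch {n : ℕ} {O0 : ℕ → Finset ℕ} {S S' : GSol} {P rem st : ℕ}
    (h : G2Inv n O0 S P rem st) (hS : S'.OK n O0)
    (hc : ∀ x ∈ S'.conds, O0 x.1 ⊆ O0 x.2.1 ∨ (x.2.2 = true ∧ 4 ≤ (O0 x.1).card)) :
    G2Inv n O0 S' P (Nat.pred (Nat.shiftLeft 1 S'.nx))
      (Nat.lor (Nat.land st (Nat.pred (Nat.shiftLeft 1 (Nat.shiftLeft (Nat.succ n) 6)))) S'.init) := by
  obtain ⟨O, κ, p, hO, hn, hs, -, -⟩ := h
  obtain ⟨hw, hS⟩ := hS
  obtain ⟨O', h1, h2, h3, h4⟩ := hS hc
  have hbit : ∀ a r, Ob a → r < 64 → (Nat.lor (Nat.land st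
      (Nat.pred (Nat.shiftLeft 1 (Nat.shiftLeft (Nat.succ n) 6)))) S'.init).testBit (a + r) = true →
      (st.testBit (a + r) = true ∧ O' a = O a) ∨ S'.init.testBit (a + r) = true := by
    intro a r ha hr hb
    rcases (g2_lor _ _ _).1 hb with h | h
    · obtain ⟨h5, h6⟩ := (g2_land _ _ _).1 h
      rw [g2_keep] at h6
      obtain ⟨-, -, c, hc⟩ := ha
      have : a ≤ 64 * n := by omega
      exact Or.inl ⟨h5, by rw [h1 a this, hO a this]⟩
    · exact Or.inr h
  have hrem : Nat.pred (Nat.shiftLeft 1 S'.nx) = 2 ^ S'.nx - 1 := by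
    change (1 <<< S'.nx) - 1 = _
    rw [Nat.one_shiftLeft]
  refine ⟨O', κ, p, h1, hn, fun a ha => ⟨fun z hz => ⟨fun hb => ?_, fun hb => ?_⟩,
    fun k hk => ⟨fun hb => ?_, fun hb => ?_⟩⟩, h2, Or.inr ⟨hw, ?_, fun ⟨c, hc'⟩ => h4 ⟨c, ?_, ?_⟩⟩⟩
  · rcases hbit a z ha (by omega) hb with ⟨h5, h6⟩ | h5
    · rw [h6]
      exact ((hs a ha).1 z hz).1 h5
    · rw [(h3 a ha).1 z (by omega)] at h5
      simp at h5
  · rw [add_assoc] at hb
    rcases hbit a _ ha (by omega) hb with ⟨h5, h6⟩ | h5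
    · rw [h6]
      rw [← add_assoc] at h5
      exact ((hs a ha).1 z hz).2 h5
    · rw [(h3 a ha).1 _ (by omega)] at h5
      simp at h5
  · rcases hbit a _ ha (by omega) hb with ⟨h5, h6⟩ | h5
    · rw [h6]
      exact ((hs a ha).2 k hk).1 h5
    · exact ((h3 a ha).2 k hk).1 h5
  · rcases hbit a _ ha (by omega) hb with ⟨h5, h6⟩ | h5
    · rw [h6]
      exact ((hs a ha).2 k hk).2 h5
    · exact ((h3 a ha).2 k hk).2 h5
  · rw [hrem]
    have : 0 < 2 ^ S'.nx := by positivity
    omega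
  · intro j hj
    apply hc'.mem
    rw [hrem, Nat.testBit_two_pow_sub_one]
    simpa using hj
  · intro i j hi hj
    apply hc'.prp
    · rw [hrem, Nat.testBit_two_pow_sub_one]
      simpa using hi
    · rw [hrem, Nat.testBit_two_pow_sub_one]
      simpa using hj

theorem g2_salt {n : ℕ} {O0 : ℕ → Finset ℕ} {S : GSol} {P rem st : ℕ}
    (h : G2Inv n O0 S P rem st) (x : ℕ) : G2Inv n O0 S P rem (Nat.xor st (Nat.land x GSALT)) := by
  obtain ⟨O, κ, p, hO, hn, hs, hr, hc⟩ := h
  obtain ⟨h1, h2⟩ := st_salt hs x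
  exact ⟨O, κ, p, hO, hn, h1, hr, hc.same h2⟩

/-- cutting the state to the lists -/
theorem g2_cut {n : ℕ} {O O' : ℕ → Finset ℕ} {κ : ℕ → ℕ} {p st : ℕ} (hs : St O κ p st)
    (hO : ∀ a, a ≤ 64 * n → O' a = O a) :
    St O' κ p (Nat.land st (Nat.pred (Nat.shiftLeft 1 (Nat.shiftLeft (Nat.succ n) 6)))) := by
  have hbit : ∀ a r, Ob a → (Nat.land st
      (Nat.pred (Nat.shiftLeft 1 (Nat.shiftLeft (Nat.succ n) 6)))).testBit (a + r) = true →
      st.testBit (a + r) = true ∧ O' a = O a := by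
    intro a r ha hb
    obtain ⟨h5, h6⟩ := (g2_land _ _ _).1 hb
    rw [g2_keep] at h6
    obtain ⟨-, -, c, hc⟩ := ha
    exact ⟨h5, hO a (by omega)⟩
  refine fun a ha => ⟨fun z hz => ⟨fun hb => ?_, fun hb => ?_⟩,
    fun k hk => ⟨fun hb => ?_, fun hb => ?_⟩⟩
  · obtain ⟨h5, h6⟩ := hbit a z ha hb
    rw [h6]
    exact ((hs a ha).1 z hz).1 h5
  · rw [add_assoc] at hb
    obtain ⟨h5, h6⟩ := hbit a _ ha hb
    rw [h6]
    rw [← add_assoc] at h5
    exact ((hs a ha).1 z hz).2 h5
  · obtain ⟨h5, h6⟩ := hbit a _ ha hb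
    rw [h6]
    exact ((hs a ha).2 k hk).1 h5
  · obtain ⟨h5, h6⟩ := hbit a _ ha hb
    rw [h6]
    exact ((hs a ha).2 k hk).2 h5

/-- the conditions of a reduction hold -/
theorem g2_swc {n : ℕ} {O0 O : ℕ → Finset ℕ} {κ : ℕ → ℕ} {p P st T : ℕ}
    {K : GSol → ℕ → ℕ → ℕ → ℕ → Bool}
    (hK : ∀ S P rem st c, G2Inv n O0 S P rem st → K S P rem st c = true → False)
    (hO : ∀ a, a ≤ 64 * n → O a = O0 a) (hn : Nm κ p P) (hs : St O κ p st) (hT : Ob T)
    (hT' : 64 * n < T) {K' : ℕ → Bool} (cs : List (ℕ × ℕ × Bool)) :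
    (∀ x ∈ cs, Ob x.1 ∧ Ob x.2.1 ∧ x.1 ≤ 64 * n ∧ x.2.1 ≤ 64 * n) → ∀ c,
      swc K T P st (Nat.land st (Nat.pred (Nat.shiftLeft 1 (Nat.shiftLeft (Nat.succ n) 6))))
        K' cs c = true →
      (∀ x ∈ cs, O0 x.1 ⊆ O0 x.2.1 ∨ (x.2.2 = true ∧ 4 ≤ (O0 x.1).card)) ∧ ∃ c', K' c' = true := by
  have hcut := fun O' : ℕ → Finset ℕ => g2_cut (n := n) (O' := O') hs
  generalize Nat.land st (Nat.pred (Nat.shiftLeft 1 (Nat.shiftLeft (Nat.succ n) 6))) = st0 at hcut
  induction cs with
  | nil =>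
    intro _ c h
    exact ⟨by simp, c, h⟩
  | cons x xs ih =>
    intro hx c h
    have e : swc K T P st st0 K' (x :: xs) c = sel (Nat.beq (Nat.land c 1) 0)
      (cj (dj (subK st x.1 x.2.1) (cj x.2.2 (cL st x.1 4)))
        (frc (Nat.shiftRight c 1) (swc K T P st st0 K' xs)))
      (frc (Nat.land (Nat.shiftRight c 1) 262143) fun len => frc (Nat.shiftRight c 19) fun c2 =>
        cj (frc (Nat.land c2 (Nat.pred (Nat.shiftLeft 1 len))) fun l =>
            frc (Nat.xor (setU (setL' (sel x.2.2 (setU st0 x.1 3) st0) T 1) T 1)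
              (Nat.land l GSALT)) fun s => K (pseudo T x.1 x.2.1) P 16384 s l)
          (frc (Nat.shiftRight c2 len) (swc K T P st st0 K' xs))) := rfl
    obtain ⟨a1, a2, a3, a4⟩ := hx x List.mem_cons_self
    have ih' := ih fun y hy => hx y (List.mem_cons_of_mem _ hy)
    suffices hh : (O0 x.1 ⊆ O0 x.2.1 ∨ (x.2.2 = true ∧ 4 ≤ (O0 x.1).card)) ∧
        ∃ c', swc K T P st st0 K' xs c' = true by
      obtain ⟨h1, c', h2⟩ := hh
      obtain ⟨h3, h4⟩ := ih' c' h2
      refine ⟨fun y hy => ?_, h4⟩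
      rcases List.mem_cons.1 hy with rfl | hy
      · exact h1
      · exact h3 y hy
    rw [e, sel_eq] at h
    split_ifs at h
    · rw [cj_iff, dj_iff, cj_iff, frc_eq] at h
      refine ⟨?_, _, h.2⟩
      rw [← hO _ a3, ← hO _ a4]
      rcases h.1 with h1 | ⟨h1, h2⟩
      · exact Or.inl (subK_ok hn hs a1 a2 h1)
      · unfold cL at h2
        rw [tb_eq] at h2
        exact Or.inr ⟨h1, ((hs _ a1).2 4 (by omega)).1 h2⟩
    · rw [frc_eq, frc_eq, cj_iff, frc_eq, frc_eq, frc_eq] at h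
      refine ⟨?_, _, h.2⟩
      by_contra hh
      rw [not_or, Finset.not_subset, not_and] at hh
      obtain ⟨⟨t, ht1, ht2⟩, hh⟩ := hh
      have e1 : ∀ a, a ≤ 64 * n → (fun a => if a ≤ 64 * n then O a else {t}) a = O a :=
        fun a ha => if_pos ha
      have e2 : (fun a => if a ≤ 64 * n then O a else ({t} : Finset ℕ)) T = {t} :=
        if_neg (by omega)
      generalize (fun a => if a ≤ 64 * n then O a else ({t} : Finset ℕ)) = O' at e1 e2
      have s0 := hcut O' e1
      have s1 : St O' κ p (sel x.2.2 (setU st0 x.1 3) st0) := by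
        rw [sel_eq]
        split_ifs with h1
        · refine (st_setU s0 a1 ?_).1
          have := hh h1
          rw [e1 _ a3, hO _ a3]
          omega
        · exact s0
      have s2 := (st_setL s1 hT (k := 1) (by omega) (by rw [e2]; simp)).1
      have s3 := (st_setU s2 hT (k := 1) (by rw [e2]; simp)).1
      refine hK _ _ _ _ _ (g2_salt ⟨O', κ, p, fun a ha => by rw [e1 a ha, hO a ha], hn, s3,
        ?_, Or.inl rfl⟩ _) h.1
      refine ⟨⟨hT, a1, ?_⟩, hT, a2, ?_⟩
      · rw [e2, e1 _ a3, hO _ a3]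
        simpa using ht1
      · rw [e2, e1 _ a4, hO _ a4]
        simpa using ht2

theorem g2_split {n : ℕ} {O0 : ℕ → Finset ℕ} {S : GSol} {P rem : ℕ} {K : ℕ → ℕ → Bool}
    (hK : ∀ s c, G2Inv n O0 S P rem s → K s c = true → False) {s1 s2 c len : ℕ}
    (h : gsplit K s1 s2 c len = true) (hi : G2Inv n O0 S P rem s1 ∨ G2Inv n O0 S P rem s2) :
    False := by
  unfold gsplit at h
  rw [cj_iff, frc_eq, frc_eq, frc_eq, frc_eq] at h
  rcases hi with hi | hi
  · exact hK _ _ (g2_salt hi _) h.1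
  · exact hK _ _ (g2_salt hi _) h.2

theorem g2_one (x i : ℕ) : (Nat.shiftLeft 1 x).testBit i = true ↔ i = x := by
  change (1 <<< x).testBit i = true ↔ _
  rw [Nat.one_shiftLeft, Nat.testBit_two_pow]
  simp [eq_comm]

theorem g2_lt8 (c : ℕ) : Nat.land c 7 < 8 := by
  change c &&& 7 < 8
  exact lt_of_le_of_lt Nat.and_le_right (by norm_num)

theorem g2_split3 {n : ℕ} {O0 : ℕ → Finset ℕ} {S : GSol} {P rem st a x : ℕ}
    (h : G2Inv n O0 S P rem st) (ha : Ob a) (hx : Nat.shiftLeft 1 x ≤ P) :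
    G2Inv n O0 S P rem (orI st a (Nat.shiftLeft 1 x)) ∨
      G2Inv n O0 S P rem (orO st a (Nat.shiftLeft 1 x)) := by
  obtain ⟨O, κ, p, hO, hn, hs, hr, hc⟩ := h
  have hxp : x < p := by
    change 1 <<< x ≤ P at hx
    rw [Nat.one_shiftLeft] at hx
    have h1 := hn.eq
    exact (Nat.pow_lt_pow_iff_right (by norm_num : 1 < 2)).1 (by omega)
  by_cases hk : κ x ∈ O a
  · obtain ⟨h1, h2⟩ := st_orI hs ha hn.le (x := Nat.shiftLeft 1 x) fun i hi => by
      rw [(g2_one x i).1 hi]
      exact ⟨hxp, hk⟩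
    exact Or.inl ⟨O, κ, p, hO, hn, h1, hr, hc.same h2⟩
  · obtain ⟨h1, h2⟩ := st_orO hs ha hn.le (x := Nat.shiftLeft 1 x) fun i hi => by
      rw [(g2_one x i).1 hi]
      exact ⟨hxp, hk⟩
    exact Or.inr ⟨O, κ, p, hO, hn, h1, hr, hc.same h2⟩

theorem g2_split10 {n : ℕ} {O0 : ℕ → Finset ℕ} {S : GSol} {P rem st a : ℕ}
    (h : G2Inv n O0 S P rem st) (ha : Ob a) :
    G2Inv n O0 S P rem (setU st a 3) ∨ G2Inv n O0 S P rem (setL' st a 4) := by
  obtain ⟨O, κ, p, hO, hn, hs, hr, hc⟩ := h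
  by_cases hk : (O a).card ≤ 3
  · obtain ⟨h1, h2⟩ := st_setU hs ha hk
    exact Or.inl ⟨O, κ, p, hO, hn, h1, hr, hc.same h2⟩
  · obtain ⟨h1, h2⟩ := st_setL hs ha (k := 4) (by omega) (by omega)
    exact Or.inr ⟨O, κ, p, hO, hn, h1, hr, hc.same h2⟩

theorem g2_sym_r {n : ℕ} {S : GSol} {O : ℕ → Finset ℕ} {κ : ℕ → ℕ} {p P rem st i x y : ℕ}
    (hn : Nm κ p P) (hs : St O κ p st) (hi : ∀ z, i.testBit z = true → z < p)
    (hx : i.testBit x = true) (hy : i.testBit y = true) (hc : G2R n S O κ p rem st) :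
    G2R n S O (κ ∘ Equiv.swap x y) p rem (symm st i) := by
  refine hc.tr fun a z ha hz hzp => ⟨Equiv.swap x y z,
    (symm_ok hn hs hi hx hy).2.2 a z ha ((g2_cC _ _ _).1 hz).1 hz, ?_, by simp⟩
  have h1 := hi x hx
  have h2 := hi y hy
  rw [Equiv.swap_apply_def]
  split_ifs <;> assumption

theorem g2_split11 {n : ℕ} {O0 : ℕ → Finset ℕ} {S : GSol} {P rem st a x w : ℕ}
    (h : G2Inv n O0 S P rem st) (ha : Ob a)
    (hx : sb (Nat.shiftLeft 1 x) (Nat.land w P) = true) :
    (G2Inv n O0 S P rem (orI (symm st (Nat.land w P)) a (Nat.shiftLeft 1 x)) ∨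
      G2Inv n O0 S P rem (orO st a (Nat.land w P))) ∧
    (G2Inv n O0 S P rem (orO (symm st (Nat.land w P)) a (Nat.shiftLeft 1 x)) ∨
      G2Inv n O0 S P rem (orI st a (Nat.land w P))) := by
  obtain ⟨O, κ, p, hO, hn, hs, hr, hc⟩ := h
  have hi : ∀ z, (Nat.land w P).testBit z = true → z < p := fun z hz =>
    (g2_P hn z).1 ((g2_land _ _ _).1 hz).2
  generalize Nat.land w P = i at hx hi
  have hxi : i.testBit x = true := (sb_iff _ _).1 hx x ((g2_one x x).2 rfl)
  constructor
  · by_cases hk : ∃ y, i.testBit y = true ∧ κ y ∈ O a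
    · obtain ⟨y, hy, hk⟩ := hk
      obtain ⟨h3, h4, -⟩ := symm_ok hn hs hi hxi hy
      obtain ⟨h1, h2⟩ := st_orI h4 ha hn.le (x := Nat.shiftLeft 1 x) fun j hj => by
        rw [(g2_one x j).1 hj]
        exact ⟨hi x hxi, by simpa using hk⟩
      exact Or.inl ⟨O, _, p, hO, h3, h1, hr, (g2_sym_r hn hs hi hxi hy hc).same h2⟩
    · obtain ⟨h1, h2⟩ := st_orO hs ha hn.le (x := i) fun j hj =>
        ⟨hi j hj, fun h => hk ⟨j, hj, h⟩⟩
      exact Or.inr ⟨O, κ, p, hO, hn, h1, hr, hc.same h2⟩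
  · by_cases hk : ∃ y, i.testBit y = true ∧ κ y ∉ O a
    · obtain ⟨y, hy, hk⟩ := hk
      obtain ⟨h3, h4, -⟩ := symm_ok hn hs hi hxi hy
      obtain ⟨h1, h2⟩ := st_orO h4 ha hn.le (x := Nat.shiftLeft 1 x) fun j hj => by
        rw [(g2_one x j).1 hj]
        exact ⟨hi x hxi, by simpa using hk⟩
      exact Or.inl ⟨O, _, p, hO, h3, h1, hr, (g2_sym_r hn hs hi hxi hy hc).same h2⟩
    · obtain ⟨h1, h2⟩ := st_orI hs ha hn.le (x := i) fun j hj =>
        ⟨hi j hj, by_contra fun h => hk ⟨j, hj, h⟩⟩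
      exact Or.inr ⟨O, κ, p, hO, hn, h1, hr, hc.same h2⟩

theorem g2_step {srel : BT Rel} {sols : BT GSol} {n : ℕ} {O0 : ℕ → Finset ℕ}
    (hs0 : ∀ O' : ℕ → Finset ℕ, (∀ a, a ≤ 64 * n → O' a = O0 a) → srel.All (Rel.Holds O'))
    (hS : sols.All fun S => S.OK n O0) {K : GSol → ℕ → ℕ → ℕ → ℕ → Bool}
    (hK : ∀ S P rem st c, G2Inv n O0 S P rem st → K S P rem st c = true → False)
    {S : GSol} {P rem st op c : ℕ} (hi : G2Inv n O0 S P rem st)
    (h : gstep srel sols (Nat.pred (Nat.shiftLeft 1 (Nat.shiftLeft (Nat.succ n) 6))) K S P rem st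
      op c = true) : False := by
  have hi' := hi
  obtain ⟨O, κ, p, hO, hn, hs, hr, hc⟩ := hi'
  unfold gstep at h
  rw [sel_eq] at h
  split_ifs at h
  · rw [sel_eq] at h
    split_ifs at h
    · rw [sel_eq] at h
      split_ifs at h
      · obtain ⟨s, c', h1, h2, h3⟩ := app_ok hn hs (hr.get _) h
        exact hK _ _ _ _ _ ⟨O, κ, p, hO, hn, h2, hr, hc.same h3⟩ h1
      · obtain ⟨s, c', h1, h2, h3⟩ := app_ok hn hs ((hs0 O hO).get _) h
        exact hK _ _ _ _ _ ⟨O, κ, p, hO, hn, h2, hr, hc.same h3⟩ h1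
    · rw [frc_eq, sel_eq] at h
      split_ifs at h
      · obtain ⟨s, h1, h2, h3⟩ := card_ok hn hs (obj_ob c) (g2_lt8 _) h
        exact hK _ _ _ _ _ ⟨O, κ, p, hO, hn, h2, hr, hc.same h3⟩ h1
      · rw [frc_eq, cj_iff] at h
        exact g2_split (hK S P rem) h.2 (g2_split3 hi (obj_ob c) (Nat.le_of_ble_eq_true h.1))
  · rw [sel_eq] at h
    split_ifs at h
    · rw [frc_eq, cj_iff, cj_iff, frc_eq, tb_eq] at h
      obtain ⟨hj, hj', h⟩ := h
      have hj14 : Nat.land c 15 < 14 := Nat.blt_eq.mp hj'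
      generalize Nat.land c 15 = j at h hj hj14
      have ea : Nat.add S.base (Nat.shiftLeft j 6) = S.base + 64 * j := by
        change S.base + j <<< 6 = _
        rw [Nat.shiftLeft_eq]
        omega
      rw [ea, sel_eq] at h
      split_ifs at h
      · rw [frc_eq, cj_iff, cj_iff, frc_eq, frc_eq, tb_eq] at h
        obtain ⟨h1, h2, h3⟩ := h
        have h4 := Nat.eq_of_beq_eq_true h2
        obtain ⟨h5, h6⟩ := g2_commit hn hs hc hj hj14 h1 (by
          rw [← tb_eq]
          unfold tb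
          rw [h4]
          rfl) rfl
        exact hK _ _ _ _ _ ⟨O, κ, p, hO, hn, h5, hr, h6⟩ h3
      · rw [frc_eq, sel_eq] at h
        split_ifs at h
        · rw [cj_iff, frc_eq] at h
          exact hK _ _ _ _ _ ⟨O, κ, p, hO, hn, hs, hr,
            g2_remI hn hs hc hj hj14 (Nat.blt_eq.mp h.1)⟩ h.2
        · rw [frc_eq, cj_iff, cj_iff, frc_eq] at h
          exact hK _ _ _ _ _ ⟨O, κ, p, hO, hn, hs, hr,
            g2_remL hs hc hj hj14 (g2_lt8 _) h.1 (Nat.blt_eq.mp h.2.1)⟩ h.2.2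
    · rw [sel_eq] at h
      split_ifs at h
      · rw [sel_eq] at h
        split_ifs at h
        · have h0 : rem = 0 := Nat.eq_of_beq_eq_true h
          subst h0
          rcases hc with hc | ⟨-, -, hc⟩
          · omega
          · exact hc ⟨fun _ => 0, by simp, by simp, by simp⟩
        · beta_reduce at h
          rw [frc_eq, frc_eq] at h
          have hw := (hS.get (Nat.land c 31)).1
          obtain ⟨h1, c', h2⟩ := g2_swc hK hO hn hs (by simpa using g2_ob hw (j := 0) (by omega))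
            hw.base1 _ hw.cnd _ h
          rw [frc_eq, frc_eq] at h2
          exact hK _ _ _ _ _ (g2_switch hi (hS.get _) h1) h2
      · rw [sel_eq] at h
        split_ifs at h
        · rw [frc_eq, cj_iff, frc_eq, frc_eq, frc_eq, cj_iff, frc_eq] at h
          exact hK _ _ _ _ _ ⟨O, κ, p, hO, hn, hs, hr, g2_ker hn hs hc
            (fun i hi => (Game1.full_bit i).1 ((g2_land _ _ _).1 hi).2) h.1 h.2.1⟩ h.2.2
        rw [frc_eq, sel_eq] at h
        split_ifs at h
        · rw [frc_eq, cj_iff, cj_iff, cj_iff, frc_eq, frc_eq] at h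
          obtain ⟨h1, h2, h3, h4⟩ := h
          obtain ⟨κ', h5, h6, h7, h8⟩ := g2_fresh hn hs (obj_ob c) (g2_lt8 _) h1
            (Nat.blt_eq.mp h2) (Nat.blt_eq.mp h3)
          obtain ⟨h9, h10⟩ := st_orI h6 (obj_ob c) h5.le (x := Nat.succ P) fun i hi => by
            have e : Nat.succ P = 2 ^ p := hn.eq
            rw [e, Nat.testBit_two_pow] at hi
            have : p = i := by simpa using hi
            subst this
            exact ⟨by omega, h7⟩
          refine hK _ _ _ _ _ ⟨O, κ', p + 1, hO, h5, h9, hr, G2R.same ?_ h10⟩ h4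
          exact hc.tr fun a z _ hz hzp => ⟨z, hz, by omega, h8 z hzp⟩
        · rw [sel_eq] at h
          split_ifs at h
          · exact g2_split (hK S P rem) h (g2_split10 hi (obj_ob c))
          · rw [frc_eq, frc_eq, cj_iff, sel_eq] at h
            obtain ⟨h1, h2⟩ := h
            have h3 := g2_split11 hi (obj_ob c) h1
            split_ifs at h2
            · exact g2_split (hK S P rem) h2 h3.1
            · exact g2_split (hK S P rem) h2 h3.2

theorem g2_chk {srel : BT Rel} {sols : BT GSol} {n : ℕ} {O0 : ℕ → Finset ℕ}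
    (hs0 : ∀ O' : ℕ → Finset ℕ, (∀ a, a ≤ 64 * n → O' a = O0 a) → srel.All (Rel.Holds O'))
    (hS : sols.All fun S => S.OK n O0) (fuel : ℕ) : ∀ S P rem st c, G2Inv n O0 S P rem st →
      gchk srel sols (Nat.pred (Nat.shiftLeft 1 (Nat.shiftLeft (Nat.succ n) 6))) fuel
        S P rem st c = true → False := by
  induction fuel with
  | zero =>
    intro S P rem st c _ h
    exact Bool.false_ne_true h
  | succ f ih =>
    intro S P rem st c hi h
    have e : ∀ keep, gchk srel sols keep (f + 1) S P rem st c = frc (Nat.land c 15) fun op =>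
      gstep srel sols keep (gchk srel sols keep f) S P rem st op (Nat.shiftRight c 4) :=
      fun _ => rfl
    rw [e, frc_eq] at h
    exact g2_step hs0 hS ih hi h

theorem game_sound (srel : BT Rel) (sols : BT GSol) (n init c : ℕ) (O : ℕ → Finset ℕ)
    (hs : ∀ O' : ℕ → Finset ℕ, (∀ a, a ≤ 64 * n → O' a = O a) → srel.All (Rel.Holds O'))
    (hS : sols.All fun S => S.OK n O) (hi : InitOK O init)
    (h : game srel sols n init c = true) : False := by
  unfold game at h
  rw [frc_eq] at h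
  refine g2_chk hs hS 1000 _ _ _ _ _ ⟨O, id, 0, fun _ _ => rfl,
    ⟨by omega, by simp, fun _ _ h => by omega⟩, fun a ha => ⟨fun x hx => ⟨fun hb => ?_, fun hb => ?_⟩,
      (hi a ha).2⟩, hs O fun _ _ => rfl, Or.inl rfl⟩ h
  · rw [(hi a ha).1 x (by omega)] at hb
    simp at hb
  · rw [add_assoc, (hi a ha).1 _ (by omega)] at hb
    simp at hb

end Pool.Agent.Lib.MP_bfaad3_co
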