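import Pool.Agent.Lib.MP_bfaad3_co.PMDef

set_option autoImplicit false

/-! The colouring game.  An object is a finite set of colours, named by a multiple `a` of 64 with
`64 ≤ a ≤ 8192`.  Its cell in the state starts at bit `a`: 14 bits named colours in the set,
14 bits named colours not in the set, 14 bits blocked colours, 8 bits lower bounds and 8 bits upper
bounds for the size.  `P = 2 ^ p - 1` where `p ≤ 13` colours are named. -/

namespace Pool.Agent.Lib.MP_bfaad3_co

noncomputable section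

/-- number of ones of a 14-bit number -/
def pop (x : ℕ) : ℕ := Nat.mod (Nat.land (Nat.mul x 35185445863425) 76861433640456465) 15

def cI (st a : ℕ) : ℕ := Nat.land (Nat.shiftRight st a) 16383
def cO (st a : ℕ) : ℕ := Nat.land (Nat.shiftRight st (Nat.add a 14)) 16383
def cC (st a : ℕ) : ℕ := Nat.land (Nat.shiftRight st (Nat.add a 28)) 16383
/-- size at least `k` -/
def cL (st a k : ℕ) : Bool := tb st (Nat.add a (Nat.add k 42))
/-- size at most `k` -/
def cU (st a k : ℕ) : Bool := tb st (Nat.add a (Nat.add k 50))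
def orI (st a x : ℕ) : ℕ := Nat.lor st (Nat.shiftLeft x a)
def orO (st a x : ℕ) : ℕ := Nat.lor st (Nat.shiftLeft x (Nat.add a 14))
def setL' (st a k : ℕ) : ℕ :=
  Nat.lor st (Nat.shiftLeft (Nat.pred (Nat.shiftLeft 2 k)) (Nat.add a 42))
def setU (st a k : ℕ) : ℕ :=
  Nat.lor st (Nat.shiftLeft (Nat.sub 256 (Nat.shiftLeft 1 k)) (Nat.add a 50))
/-- `a` is known to be a subset of `b` -/
def subK (st a b : ℕ) : Bool := Nat.beq (Nat.lor (cI st b) (cO st a)) 16383

inductive Rel : Type
  | sub (a b : ℕ) : Rel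
  | esub (a b : ℕ) : Rel
  | dis (a b : ℕ) : Rel
  | cov (a b : ℕ) (cs : List ℕ) : Rel
  | avl (a b : ℕ) (cs : List ℕ) : Rel
  | neq (a b w : ℕ) : Rel
  | min5 (a : ℕ) (cs : List ℕ) : Rel
  | min3 (a : ℕ) (cs : List ℕ) : Rel

def andO (st : ℕ) (cs : List ℕ) : ℕ :=
  List.rec 16383 (fun c _ ih => Nat.land (cO st c) ih) cs
def andI (st : ℕ) (cs : List ℕ) : ℕ :=
  List.rec 16383 (fun c _ ih => Nat.land (cI st c) ih) cs
def andO4 (st : ℕ) (cs : List ℕ) : ℕ :=
  List.rec 16383 (fun c _ ih => sel (cL st c 4) ih (Nat.land (cO st c) ih)) cs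
def cntU (st u : ℕ) (cs : List ℕ) : ℕ :=
  List.rec 0 (fun c _ ih => sel (Nat.beq (Nat.lor (cO st c) u) 16383) ih (Nat.succ ih)) cs

def subS (st a b : ℕ) : ℕ := orO (orI st b (cI st a)) a (cO st b)

/-- use a relation; `c` is the rest of the certificate -/
def app (r : Rel) (st P c : ℕ) (K : ℕ → ℕ → Bool) : Bool :=
  Rel.rec (motive := fun _ => Bool)
    (fun a b => frc (subS st a b) fun s => K s c)
    (fun a b => cj (cU st a 3) (frc (subS st a b) fun s => K s c))
    (fun a b => frc (orO (orO st b (cI st a)) a (cI st b)) fun s => K s c)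
    (fun a b cs => frc (andO st cs) fun u =>
      frc (orO (orI st b (Nat.land (cI st a) u)) a (Nat.land (cO st b) u)) fun s => K s c)
    (fun a b cs => frc (Nat.land (Nat.land c 16383) P) fun n =>
      frc (Nat.land (Nat.shiftRight c 14) 7) fun k => frc (Nat.land (Nat.shiftRight c 17) 7) fun kk =>
      frc (cO st a) fun oa => cj (cL st a k)
        (cj (Nat.ble (Nat.add kk (Nat.add (pop (Nat.land n (Nat.xor oa 16383)))
            (cntU st (Nat.lor n oa) cs))) k)
          (frc (setL' st b kk) fun s => K s (Nat.shiftRight c 20))))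
    (fun a b _ => cj (subK st a b) (subK st b a))
    (fun a cs => frc (orO st a (andO4 st cs)) fun s => K s c)
    (fun a cs => Nat.ble 3 (pop (Nat.land (cI st a) (andI st cs)))) r

/-- counting rules -/
def card (st P a k mode : ℕ) (K : ℕ → Bool) : Bool :=
  sel (Nat.ble mode 3)
    (sel (Nat.ble mode 1)
      (sel (Nat.beq mode 0)
        (frc (cI st a) fun i => cj (cU st a k) (cj (Nat.ble k (pop i))
          (frc (orO st a (Nat.xor i 16383)) K)))
        (frc (Nat.xor (cO st a) 16383) fun x => cj (cL st a k) (cj (Nat.blt x 8192)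
          (cj (Nat.ble (pop x) k) (frc (orI st a (Nat.land x P)) K)))))
      (sel (Nat.beq mode 2)
        (cj (cU st a k) (Nat.blt k (pop (cI st a))))
        (frc (Nat.xor (cO st a) 16383) fun x => cj (cL st a k) (cj (Nat.blt x 8192)
          (Nat.blt (pop x) k)))))
    (sel (Nat.ble mode 5)
      (sel (Nat.beq mode 4)
        (cj (Nat.ble k (pop (cI st a))) (frc (setL' st a k) K))
        (frc (Nat.xor (cO st a) 16383) fun x => cj (Nat.blt x 8192)
          (cj (Nat.ble (pop x) k) (frc (setU st a k) K))))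
      (sel (Nat.beq mode 6)
        (Nat.blt 0 (Nat.land (cI st a) (cO st a)))
        (cj (Nat.blt k 7) (cj (cL st a (Nat.succ k)) (cU st a k)))))

/-- `∑ c < 129, 2 ^ (64 * c)` -/
def ONE0 : ℕ := Nat.div (Nat.pred (Nat.shiftLeft 1 8256)) 18446744073709551615
/-- bit 0 of the three colour fields of every cell -/
def ONES : ℕ := Nat.mul ONE0 268451841
/-- the blocked fields of all cells -/
def XC : ℕ := Nat.mul ONE0 4397778075648

def andSh (y : ℕ) : ℕ → ℕ → ℕ → ℕ := fun fuel =>
  Nat.rec (fun _ _ => 0) (fun _ ih i t => sel (Nat.beq i 0) t (frc (Nat.log2 i) fun x =>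
    frc (Nat.land t (Nat.shiftRight y x)) fun t' => frc (Nat.xor i (Nat.shiftLeft 1 x)) fun i' =>
      ih i' t')) fuel

/-- forget what distinguishes the colours in `i` -/
def symm (st i : ℕ) : ℕ :=
  frc (Nat.xor st XC) fun y =>
    Nat.xor (Nat.lor (Nat.xor y (Nat.land y (Nat.mul ONES i))) (Nat.mul (andSh y 15 i ONES) i)) XC

/-- a reduction as seen by the game -/
structure GSol : Type where
  conds : List (ℕ × ℕ × Bool)
  rels : BT Rel
  init : ℕ
  nx : ℕ
  base : ℕ
  xa : ℕ
  xs : ℕ

def obj (c : ℕ) : ℕ := Nat.add (Nat.shiftLeft (Nat.land c 127) 6) 64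

/-- bits 0 to 62 -/
def GSALT : ℕ := 9223372036854775807

def gsplit (ih : ℕ → ℕ → Bool) (s1 s2 c len : ℕ) : Bool :=
  cj (frc (Nat.land c (Nat.pred (Nat.shiftLeft 1 len))) fun l =>
      frc (Nat.xor s1 (Nat.land l GSALT)) fun s => ih s l)
    (frc (Nat.shiftRight c len) fun r => frc (Nat.xor s2 (Nat.land r GSALT)) fun s => ih s r)

/-- the object `T` is a colour of `a` that is not in `b` -/
def pseudo (T a b : ℕ) : GSol := ⟨[], .nd 0 (.lf (.sub T a)) (.lf (.dis T b)), 0, 0, T, 0, 0⟩

/-- the conditions of a reduction: each is known, or its failure is refuted by a subtree -/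
def swc (ih : GSol → ℕ → ℕ → ℕ → ℕ → Bool) (T P st st0 : ℕ) (K : ℕ → Bool)
    (cs : List (ℕ × ℕ × Bool)) : ℕ → Bool :=
  List.rec K (fun x _ r c => sel (Nat.beq (Nat.land c 1) 0)
    (cj (dj (subK st x.1 x.2.1) (cj x.2.2 (cL st x.1 4))) (frc (Nat.shiftRight c 1) r))
    (frc (Nat.land (Nat.shiftRight c 1) 262143) fun len => frc (Nat.shiftRight c 19) fun c2 =>
      cj (frc (Nat.land c2 (Nat.pred (Nat.shiftLeft 1 len))) fun l =>
          frc (Nat.xor (setU (setL' (sel x.2.2 (setU st0 x.1 3) st0) T 1) T 1)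
            (Nat.land l GSALT)) fun s => ih (pseudo T x.1 x.2.1) P 16384 s l)
        (frc (Nat.shiftRight c2 len) r))) cs

/-- `p` holds for all ones of a number -/
def allB (p : ℕ → Bool) : ℕ → ℕ → Bool := fun fuel =>
  Nat.rec (fun _ => false) (fun _ ih y => dj (Nat.beq y 0) (frc (Nat.log2 y) fun j =>
    cj (p j) (frc (Nat.xor y (Nat.shiftLeft 1 j)) ih))) fuel

/-- the cells in `Y` form a bipartite graph with sides `bm` and an orientation `om` in which every
cell has more free colours than outgoing arcs -/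
def kerS (S : GSol) (st rem Y bm ks om : ℕ) : Bool :=
  allB (fun j => frc (Nat.add S.base (Nat.shiftLeft j 6)) fun a =>
    frc (Nat.land (Nat.shiftRight S.xa (Nat.mul j 14)) 16383) fun row =>
    frc (Nat.land (Nat.shiftRight om (Nat.mul j 14)) 16383) fun o =>
    frc (Nat.add (pop (Nat.land (Nat.land rem row) (Nat.xor Y 16383))) (pop o)) fun dg =>
    frc (Nat.land (Nat.shiftRight ks (Nat.mul j 3)) 7) fun k =>
    cj (sel (Nat.beq k 0) (Nat.blt dg (pop (Nat.land (cI st a) (Nat.xor (cC st a) 16383))))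
        (cj (cL st a k)
          (Nat.blt (Nat.add dg (pop (Nat.land (cC st a) (Nat.xor (cO st a) 16383)))) k)))
      (frc (Nat.land row Y) fun nb =>
        cj (Nat.beq (Nat.land nb (sel (tb bm j) bm (Nat.xor bm 16383))) 0)
          (frc (Nat.land nb (Nat.xor o 16383))
            (allB (fun i => tb om (Nat.add (Nat.mul i 14) j)) 15)))) 15 Y

def gstep (srel : BT Rel) (sols : BT GSol) (keep : ℕ)
    (ih : GSol → ℕ → ℕ → ℕ → ℕ → Bool) (S : GSol) (P rem st op c : ℕ) : Bool :=
  sel (Nat.ble op 3)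
    (sel (Nat.ble op 1)
      (sel (Nat.beq op 0)
        (app (S.rels.get (Nat.land c 127)) st P (Nat.shiftRight c 7) (ih S P rem))
        (app (srel.get (Nat.land c 255)) st P (Nat.shiftRight c 8) (ih S P rem)))
      (frc (obj c) fun a =>
        sel (Nat.beq op 2)
          (card st P a (Nat.land (Nat.shiftRight c 7) 7) (Nat.land (Nat.shiftRight c 10) 7)
            fun s => ih S P rem s (Nat.shiftRight c 13))
          (frc (Nat.shiftLeft 1 (Nat.land (Nat.shiftRight c 7) 15)) fun b => cj (Nat.ble b P)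
            (gsplit (ih S P rem) (orI st a b) (orO st a b) (Nat.shiftRight c 29)
              (Nat.land (Nat.shiftRight c 11) 262143)))))
    (sel (Nat.ble op 6)
      (frc (Nat.land c 15) fun j => cj (tb rem j) (cj (Nat.blt j 14)
        (frc (Nat.add S.base (Nat.shiftLeft j 6)) fun a =>
          sel (Nat.beq op 4)
            (frc (Nat.land (Nat.shiftRight c 4) 15) fun x =>
              cj (tb (cI st a) x) (cj (Nat.beq (Nat.land (Nat.shiftRight (cC st a) x) 1) 0)
                (frc (Nat.lor st (Nat.shiftLeft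
                  (Nat.land (Nat.shiftRight S.xs (Nat.mul j 896)) (Nat.pred (Nat.shiftLeft 1 896)))
                  (Nat.add S.base (Nat.add x 28)))) fun s =>
                  frc (Nat.xor rem (Nat.shiftLeft 1 j)) fun rem' =>
                    ih S P rem' s (Nat.shiftRight c 8))))
            (frc (pop (Nat.land rem (Nat.land (Nat.shiftRight S.xa (Nat.mul j 14)) 16383))) fun dg =>
              sel (Nat.beq op 5)
                (cj (Nat.blt dg (pop (Nat.land (cI st a) (Nat.xor (cC st a) 16383))))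
                  (frc (Nat.xor rem (Nat.shiftLeft 1 j)) fun rem' =>
                    ih S P rem' st (Nat.shiftRight c 4)))
                (frc (Nat.land (Nat.shiftRight c 4) 7) fun k => cj (cL st a k)
                  (cj (Nat.blt (Nat.add dg
                      (pop (Nat.land (cC st a) (Nat.xor (cO st a) 16383)))) k)
                    (frc (Nat.xor rem (Nat.shiftLeft 1 j)) fun rem' =>
                      ih S P rem' st (Nat.shiftRight c 7))))))))
      (sel (Nat.ble op 8)
        (sel (Nat.beq op 7) (Nat.beq rem 0)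
          ((fun S' : GSol => frc (Nat.land st keep) fun st0 => frc (Nat.shiftRight c 5)
            (swc ih S'.base P st st0 (fun c' => frc (Nat.lor st0 S'.init) fun s =>
              frc (Nat.pred (Nat.shiftLeft 1 S'.nx)) fun rem' => ih S' P rem' s c') S'.conds))
            (sols.get (Nat.land c 31))))
        (sel (Nat.beq op 14)
          (frc (Nat.land c 16383) fun Y => cj (sb Y rem)
            (frc (Nat.land (Nat.shiftRight c 14) 16383) fun bm =>
              frc (Nat.shiftRight c 28) fun ks => frc (Nat.shiftRight c 70) fun om =>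
                cj (kerS S st rem Y bm ks om) (frc (Nat.xor rem Y) fun rem' =>
                  ih S P rem' st (Nat.shiftRight om (Nat.mul S.nx 14)))))
        (frc (obj c) fun a =>
          sel (Nat.beq op 9)
            (frc (Nat.land (Nat.shiftRight c 7) 7) fun k => cj (cL st a k) (cj (Nat.blt P 4096)
              (cj (Nat.blt (pop (Nat.land (Nat.xor (cO st a) 16383) P)) k)
                (frc (orI st a (Nat.succ P)) fun s => frc (Nat.succ (Nat.add P P)) fun P' =>
                  ih S P' rem s (Nat.shiftRight c 10)))))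
            (sel (Nat.beq op 10)
              (gsplit (ih S P rem) (setU st a 3) (setL' st a 4) (Nat.shiftRight c 25)
                (Nat.land (Nat.shiftRight c 7) 262143))
              (frc (Nat.shiftLeft 1 (Nat.land (Nat.shiftRight c 7) 15)) fun b =>
                frc (Nat.land (Nat.land (Nat.shiftRight c 11) 16383) P) fun i => cj (sb b i)
                  (sel (Nat.beq op 11)
                    (gsplit (ih S P rem) (orI (symm st i) a b) (orO st a i) (Nat.shiftRight c 43)
                      (Nat.land (Nat.shiftRight c 25) 262143))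
                    (gsplit (ih S P rem) (orO (symm st i) a b) (orI st a i) (Nat.shiftRight c 43)
                      (Nat.land (Nat.shiftRight c 25) 262143)))))))))

def gchk (srel : BT Rel) (sols : BT GSol) (keep : ℕ) (fuel : ℕ) :
    GSol → ℕ → ℕ → ℕ → ℕ → Bool :=
  Nat.rec (fun _ _ _ _ _ => false) (fun _ ih S P rem st c => frc (Nat.land c 15) fun op =>
    gstep srel sols keep ih S P rem st op (Nat.shiftRight c 4)) fuel

/-- the game from the start; objects up to `64 * n` are the lists -/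
def game (srel : BT Rel) (sols : BT GSol) (n init c : ℕ) : Bool :=
  frc (Nat.pred (Nat.shiftLeft 1 (Nat.shiftLeft (Nat.succ n) 6))) fun keep =>
    gchk srel sols keep 1000 ⟨[], srel, 0, 0, 64, 0, 0⟩ 0 16384 init c

/-! Semantics -/

/-- name of an object -/
def Ob (a : ℕ) : Prop := 64 ≤ a ∧ a ≤ 8192 ∧ 64 ∣ a

def Rel.Holds (O : ℕ → Finset ℕ) : Rel → Prop
  | .sub a b => Ob a ∧ Ob b ∧ O a ⊆ O b
  | .esub a b => Ob a ∧ Ob b ∧ ((O a).card ≤ 3 → O a ⊆ O b)
  | .dis a b => Ob a ∧ Ob b ∧ Disjoint (O a) (O b)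
  | .cov a b cs => Ob a ∧ Ob b ∧ (∀ c ∈ cs, Ob c) ∧ ∀ t ∈ O a, t ∈ O b ∨ ∃ c ∈ cs, t ∈ O c
  | .avl a b cs => Ob a ∧ Ob b ∧ (∀ c ∈ cs, Ob c ∧ (O c).card ≤ 1) ∧
      ∀ t ∈ O a, t ∈ O b ∨ ∃ c ∈ cs, t ∈ O c
  | .neq a b _ => Ob a ∧ Ob b ∧ O a ≠ O b
  | .min5 a cs => Ob a ∧ (∀ c ∈ cs, Ob c) ∧ ∀ t ∈ O a, ∃ c ∈ cs, (O c).card ≤ 3 ∧ t ∈ O c
  | .min3 a cs => Ob a ∧ (∀ c ∈ cs, Ob c) ∧
      ¬ ∃ T : Finset ℕ, T.card = 3 ∧ T ⊆ O a ∧ ∀ c ∈ cs, T ⊆ O c

/-- a state that only holds correct size bounds -/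
def InitOK (O : ℕ → Finset ℕ) (st : ℕ) : Prop :=
  ∀ a, Ob a → (∀ i, i < 42 → st.testBit (a + i) = false) ∧ ∀ k, k < 8 →
    (st.testBit (a + (k + 42)) = true → k ≤ (O a).card) ∧
    (st.testBit (a + (k + 50)) = true → (O a).card ≤ k)

/-- the shape of a reduction -/
structure GSol.WF (S : GSol) (n : ℕ) : Prop where
  nx : S.nx ≤ 14
  base1 : 64 * n < S.base
  base2 : 64 ∣ S.base
  base3 : S.base + 64 * 13 ≤ 8192
  symm : ∀ i j, i < 14 → j < 14 → S.xa.testBit (i * 14 + j) = S.xa.testBit (j * 14 + i)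
  irr : ∀ i, i < 14 → S.xa.testBit (i * 14 + i) = false
  xs1 : ∀ i j, i < 14 → j < 14 → S.xa.testBit (i * 14 + j) = true →
    S.xs.testBit (i * 896 + 64 * j) = true
  xs2 : ∀ i t, i < 14 → t < 896 → S.xs.testBit (i * 896 + t) = true → 64 ∣ t
  cnd : ∀ x ∈ S.conds, Ob x.1 ∧ Ob x.2.1 ∧ x.1 ≤ 64 * n ∧ x.2.1 ≤ 64 * n

/-- the deleted vertices cannot be coloured from the available colours -/
def GSol.NC (S : GSol) (O : ℕ → Finset ℕ) : Prop :=
  ¬ ∃ c : ℕ → ℕ, (∀ j, j < S.nx → c j ∈ O (S.base + 64 * j)) ∧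
    ∀ i j, i < S.nx → j < S.nx → S.xa.testBit (i * 14 + j) = true → c i ≠ c j

/-- a reduction is correct for the lists `O` -/
def GSol.OK (S : GSol) (n : ℕ) (O : ℕ → Finset ℕ) : Prop :=
  S.WF n ∧ ((∀ x ∈ S.conds, O x.1 ⊆ O x.2.1 ∨ (x.2.2 = true ∧ 4 ≤ (O x.1).card)) →
    ∃ O' : ℕ → Finset ℕ, (∀ a, a ≤ 64 * n → O' a = O a) ∧ S.rels.All (Rel.Holds O') ∧
      InitOK O' S.init ∧ S.NC O')

end

end Pool.Agent.Lib.MP_bfaad3_co
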