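import Pool.Agent.Lib.MP_bfaad3_co.Ring

set_option autoImplicit false

/-! Joining isolated darts and linking darts inside a hole. -/

namespace Pool.Agent.Lib.MP_bfaad3_co

open Equiv

section
variable {D : Type*} [Finite D] [DecidableEq D]

omit [DecidableEq D] in
theorem h0_fix {a : Perm D} {x y : D} (hx : a x = x) (h : a.SameCycle x y) : x = y := by
  obtain ⟨n, rfl⟩ := h.exists_nat_pow_eq
  exact (Perm.pow_apply_eq_self_of_apply_eq_self hx n).symm

theorem gen0_join (a b : Perm D) (h : Gen0 a b) (x y : D) (hx : a x = x) (hb : b x = x) :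
    Gen0 (a * swap x y) b := by
  by_cases hxy : x = y
  · subst hxy
    rw [swap_self]
    exact h
  have n1 : ¬ a.SameCycle x y := fun k => hxy (h0_fix hx k)
  have n2 : ¬ (b * a).SameCycle x y := fun k => hxy (h0_fix (by rw [Perm.mul_apply, hx, hb]) k)
  have n3 : ¬ conn a b x y := fun k => by
    have key : (Setoid.ker fun u => u = x) x y :=
      perm_conn_le (s := Setoid.ker fun u => u = x)
        (fun u => propext ⟨fun e => by rw [e, hx], fun e => a.injective (e.trans hx.symm)⟩)
        (fun u => propext ⟨fun e => by rw [e, hb], fun e => b.injective (e.trans hb.symm)⟩) k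
    have e : (x = x) = (y = x) := key
    exact hxy (e ▸ rfl : y = x).symm
  have h1 := cyc_swap_diff a x y n1
  have h2 := cyc_swap_diff _ x y n2
  have h3 := perm_card_eq_succ _ x y n3
  have c0 : conn (a * swap x y) b x y := perm_sc_le (perm_conn_a _ _) (perm_sc_swap _ _ _ n1)
  have c1 : ∀ u v, conn a b u v → conn (a * swap x y) b u v := fun u v huv =>
    perm_mrg_le c0 (perm_conn_le (s := perm_mrg (conn (a * swap x y) b) x y) (fun u => by
      have k := perm_conn_a (a * swap x y) b (swap x y u)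
      rw [Perm.mul_apply, swap_apply_self] at k
      exact (perm_mrg _ _ _).trans' (perm_mrg_swap _ _ _ u) (Or.inl k))
      (fun u => Or.inl (perm_conn_b _ _ u)) huv)
  have h4 : comp (a * swap x y) b ≤ Nat.card (Quotient (perm_mrg (conn a b) x y)) := by
    refine perm_card_le fun u v huv => ?_
    rcases huv with k | ⟨k1, k2⟩ | ⟨k1, k2⟩
    · exact c1 _ _ k
    · exact (conn _ _).trans' (c1 _ _ k1) ((conn _ _).trans' c0 ((conn _ _).symm' (c1 _ _ k2)))
    · exact (conn _ _).trans' (c1 _ _ k1)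
        ((conn _ _).trans' ((conn _ _).symm' c0) ((conn _ _).symm' (c1 _ _ k2)))
  have e : cyc (a * swap x y * b) = cyc (b * a * swap x y) := by
    rw [cyc_mul_comm, mul_assoc]
  have e' := cyc_mul_comm a b
  unfold Gen0 comp at *
  omega

theorem gen0_link (a b : Perm D) (h : Gen0 a b) (x y : D) (hxy : x ≠ y) (hs : a.SameCycle x y)
    (hx : b x = x) : Gen0 (a * swap x y) (swap x y * b) := by
  have h1 := cyc_swap_same a x y hxy hs
  have h2 := cyc_swap_diff b x y fun k => hxy (h0_fix hx k)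
  obtain ⟨-, h5⟩ := perm_comp_step (a := a) (b := b) (a' := a * swap x y)
    (b' := swap x y * b) x y
    (fun u => by
      have k := perm_conn_a (a * swap x y) (swap x y * b) (swap x y u)
      rw [Perm.mul_apply, swap_apply_self] at k
      exact (perm_mrg _ _ _).trans' (perm_mrg_swap _ _ _ u) (Or.inl k))
    (fun u => by
      have k := perm_conn_b (a * swap x y) (swap x y * b) u
      have k' := perm_mrg_swap (conn (a * swap x y) (swap x y * b)) x y ((swap x y * b) u)
      rw [Perm.mul_apply, swap_apply_self] at k'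
      exact (perm_mrg _ _ _).trans' (Or.inl k) k')
  have h6 := h5 (by
    have k := perm_conn_b (a * swap x y) (swap x y * b) x
    rwa [Perm.mul_apply, hx, swap_apply_left] at k)
  have e : a * swap x y * (swap x y * b) = a * b := by
    rw [mul_assoc, ← mul_assoc (swap x y), swap_mul_self, one_mul]
  have e' := cyc_mul_comm (swap x y) b
  unfold Gen0 at h ⊢
  rw [e]
  omega

end

variable {V : Type*} [Fintype V] {G : SimpleGraph V} {σ : Perm G.Dart}

theorem hole_init2 (h0 : Gen0 σ (alpha G)) (X : Set V) :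
    ∃ s a, HoleInv σ X s a ∧ (∀ d : G.Dart, d.fst ∈ X → d.snd ∈ X → s d = σ d.symm) ∧
      (∀ d : G.Dart, d.snd ∉ X → s d = σ d) ∧ ∀ d : G.Dart, d.fst ∈ X → d.snd ∈ X → a d = d := by
  have hb : ∀ d, alpha G (alpha G d) = d := fun d => SimpleGraph.Dart.symm_symm d
  let I : Set G.Dart := {d | d.fst ∈ X ∧ d.snd ∈ X}
  have hI : ∀ d, d ∈ I ↔ alpha G d ∈ I := fun d => and_comm
  have hI' : ∀ d, d ∈ Iᶜ ↔ alpha G d ∈ Iᶜ := fun d => not_congr (hI d)
  refine ⟨σ * restr (alpha G) hb I hI, restr (alpha G) hb Iᶜ hI',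
    ⟨gen0_cut σ _ hb h0 I hI hI', fun d hd => ?_, fun d => ?_, fun d hd => ?_⟩,
    fun d h1 h2 => ?_, fun d hd => ?_, fun d h1 h2 => ?_⟩
  · rw [Perm.mul_apply, perm_restr_not _ hb I hI (fun h => hd h.1)]
  · by_cases hd : d ∈ Iᶜ
    · rw [perm_restr_mem _ hb _ hI' hd, perm_restr_mem _ hb _ hI' ((hI' d).1 hd), hb]
    · rw [perm_restr_not _ hb _ hI' hd, perm_restr_not _ hb _ hI' hd]
  · rw [perm_restr_mem _ hb _ hI' hd]; rfl
  · rw [Perm.mul_apply, perm_restr_mem _ hb I hI ⟨h1, h2⟩]; rfl
  · rw [Perm.mul_apply, perm_restr_not _ hb I hI (fun h => hd h.2)]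
  · exact perm_restr_not _ hb _ hI' fun h => h ⟨h1, h2⟩

theorem hole_join [DecidableEq G.Dart] {X : Set V} {s a : Perm G.Dart} (h : HoleInv σ X s a)
    {x y : G.Dart} (hx : x.fst ∈ X) (hy : y.fst ∈ X) (hs : s x = x) (ha : a x = x) :
    HoleInv σ X (s * swap x y) a := by
  refine ⟨gen0_join s a h.gen x y hs ha, fun d hd => ?_, h.aa, h.aoff⟩
  have h1 : d ≠ x := fun e => hd (by rw [e]; exact hx)
  have h2 : d ≠ y := fun e => hd (by rw [e]; exact hy)
  rw [Perm.mul_apply, swap_apply_of_ne_of_ne h1 h2, h.off d hd]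

omit [Fintype V] in
theorem hole_link_ne [DecidableEq G.Dart] {a : Perm G.Dart} {x y d : G.Dart} (ax : a x = x)
    (ay : a y = y) (h1 : d ≠ x) (h2 : d ≠ y) : (swap x y * a) d = a d := by
  rw [Perm.mul_apply, swap_apply_of_ne_of_ne (fun e => h1 (a.injective (e.trans ax.symm)))
    fun e => h2 (a.injective (e.trans ay.symm))]

theorem hole_link [DecidableEq G.Dart] {X : Set V} {s a : Perm G.Dart} (h : HoleInv σ X s a)
    {x y : G.Dart} (hx : x.fst ∈ X ∧ x.snd ∈ X) (hy : y.fst ∈ X ∧ y.snd ∈ X) (hxy : x ≠ y)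
    (hs : s.SameCycle x y) (ax : a x = x) (ay : a y = y) :
    HoleInv σ X (s * swap x y) (swap x y * a) := by
  refine ⟨gen0_link s a h.gen x y hxy hs ax, fun d hd => ?_, fun d => ?_, fun d hd => ?_⟩
  · have h1 : d ≠ x := fun e => hd (by rw [e]; exact hx.1)
    have h2 : d ≠ y := fun e => hd (by rw [e]; exact hy.1)
    rw [Perm.mul_apply, swap_apply_of_ne_of_ne h1 h2, h.off d hd]
  · by_cases h1 : d = x
    · rw [h1, Perm.mul_apply _ _ x, ax, swap_apply_left, Perm.mul_apply, ay, swap_apply_right]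
    by_cases h2 : d = y
    · rw [h2, Perm.mul_apply _ _ y, ay, swap_apply_right, Perm.mul_apply, ax, swap_apply_left]
    rw [hole_link_ne ax ay h1 h2, Perm.mul_apply, h.aa, swap_apply_of_ne_of_ne h1 h2]
  · rw [hole_link_ne ax ay (fun e => hd (by rw [e]; exact hx)) fun e => hd (by rw [e]; exact hy),
      h.aoff d hd]

theorem hole_pl2 (hr : IsRot G σ) {X : Set V} {s a' : Perm G.Dart} (h : HoleInv σ X s a')
    (E : V → V → Prop) (a b : V) (hab : a = b ∨ (a ∉ X ∧ b ∉ X))
    (lab : G.Dart → Option V)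
    (hl : ∀ d : G.Dart, d.fst ∈ X → lab (s d) = lab d)
    (anchor : ∀ (d : G.Dart) v, d.fst ∈ X → lab d = some v → v ∉ X →
      ∃ e, s.SameCycle d e ∧ e.snd ∉ X ∧ idn a b e.snd = v)
    (zone : ∀ (d e : G.Dart) v, d.fst ∈ X → e.fst ∈ X → lab d = some v → lab e = some v → v ∈ X →
      s.SameCycle d e)
    (ident : a ≠ b → ∃ d e : G.Dart, d.fst ∈ X ∧ s.SameCycle d e ∧ d.snd = a ∧ e.snd = b ∧
      lab d = some a)
    (arcs : ∀ p q, E p q → (∃ d : G.Dart, d.fst ∈ X ∧ d.snd ∉ X ∧
      ((lab d = some (idn a b p) ∧ idn a b d.snd = idn a b q) ∨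
       (lab d = some (idn a b q) ∧ idn a b d.snd = idn a b p))) ∨
      ∃ d : G.Dart, d.fst ∈ X ∧ (a' d).fst ∈ X ∧
      ((lab d = some (idn a b p) ∧ lab (a' d) = some (idn a b q)) ∨
       (lab d = some (idn a b q) ∧ lab (a' d) = some (idn a b p)))) :
    Pl (redG G X E a b) := by
  classical
  let β : G.Dart → Option V := fun d => if d.fst ∈ X then lab d else some (idn a b d.fst)
  have βin : ∀ d : G.Dart, d.fst ∈ X → β d = lab d := fun d hd => if_pos hd
  have βout : ∀ d : G.Dart, d.fst ∉ X → β d = some (idn a b d.fst) := fun d hd => if_neg hd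
  have hβ : ∀ d, β (s d) = β d := by
    intro d
    by_cases hd : d.fst ∈ X
    · rw [βin _ (ring_fst_mem hr h d hd), βin _ hd, hl d hd]
    · have h1 : (s d).fst = d.fst := by rw [h.off d hd, hr.1]
      rw [βout _ (by rw [h1]; exact hd), βout _ hd, h1]
  have hsym : ∀ d : G.Dart, d.snd ∉ X → a' d = d.symm := fun d hd => h.aoff d (fun k => hd k.2)
  have hsym' : ∀ d : G.Dart, d.fst ∉ X → a' d = d.symm := fun d hd => h.aoff d (fun k => hd k.1)
  have βsym : ∀ d : G.Dart, d.snd ∉ X → β d.symm = some (idn a b d.snd) :=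
    fun d hd => βout d.symm hd
  refine minor s a' h.aa h.gen β hβ (fun d e v hd he => ?_) _ (fun u v huv => ?_)
  · by_cases hv : v ∈ X
    · have key : ∀ x : G.Dart, β x = some v → x.fst ∈ X := by
        intro x hx
        by_contra hc
        rw [βout x hc] at hx
        exact ring_idn_nmem hab hc (Option.some.inj hx ▸ hv)
      refine min_eqv s a' β hβ hd (zone d e v (key d hd) (key e he) ?_ ?_ hv)
      · rw [← βin d (key d hd), hd]
      · rw [← βin e (key e he), he]
    · -- step across an edge leaving `X`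
      have cross : ∀ x : G.Dart, β x = some v → x.snd ∉ X → idn a b x.snd = v →
          Relation.EqvGen (fun x y => β x = some v ∧ β y = some v ∧ (y = s x ∨ y = a' x))
            x x.symm := by
        intro x hx h1 h2
        exact Relation.EqvGen.rel _ _ ⟨hx, by rw [βsym x h1, h2], Or.inr (hsym x h1).symm⟩
      have out : ∀ x : G.Dart, β x = some v → ∃ y : G.Dart, y.fst ∉ X ∧ idn a b y.fst = v ∧
          Relation.EqvGen (fun x y => β x = some v ∧ β y = some v ∧ (y = s x ∨ y = a' x))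
            x y := by
        intro x hx
        by_cases hc : x.fst ∈ X
        · obtain ⟨y, h1, h2, h3⟩ := anchor x v hc (by rw [← βin x hc, hx]) hv
          have h4 : β y = some v := by rw [min_lab' s β hβ h1, hx]
          exact ⟨y.symm, h2, h3, (min_eqv s a' β hβ hx h1).trans _ _ _ (cross y h4 h2 h3)⟩
        · refine ⟨x, hc, ?_, Relation.EqvGen.refl _⟩
          rw [βout x hc] at hx
          exact Option.some.inj hx
      have same : ∀ x y : G.Dart, x.fst ∉ X → idn a b x.fst = v → x.fst = y.fst →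
          Relation.EqvGen (fun x y => β x = some v ∧ β y = some v ∧ (y = s x ∨ y = a' x))
            x y := by
        intro x y h1 h2 h3
        exact min_eqv s a' β hβ (by rw [βout x h1, h2]) (ring_off_cyc hr h h1 h3)
      have link : ∀ x y : G.Dart, a ≠ b → v = a → x.fst = a → y.fst = b →
          Relation.EqvGen (fun x y => β x = some v ∧ β y = some v ∧ (y = s x ∨ y = a' x))
            x y := by
        intro x y hne hva hx hy
        obtain ⟨haX, hbX⟩ := hab.resolve_left hne
        obtain ⟨d0, e0, k1, k2, k3, k4, k5⟩ := ident hne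
        have b1 : β d0 = some v := by rw [βin d0 k1, k5, hva]
        have b2 : β e0 = some v := by rw [min_lab' s β hβ k2, b1]
        have c1 := cross d0 b1 (by rw [k3]; exact haX) (by rw [k3, ring_idn_a, hva])
        have c2 := cross e0 b2 (by rw [k4]; exact hbX) (by rw [k4, ring_idn_b, hva])
        have c3 := same x d0.symm (by rw [hx]; exact haX) (by rw [hx, ring_idn_a, hva])
          (hx.trans k3.symm)
        have c4 := same y e0.symm (by rw [hy]; exact hbX) (by rw [hy, ring_idn_b, hva])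
          (hy.trans k4.symm)
        exact (c3.trans _ _ _ (c1.symm _ _)).trans _ _ _
          (((min_eqv s a' β hβ b1 k2).trans _ _ _ c2).trans _ _ _ (c4.symm _ _))
      obtain ⟨x, x1, x2, x3⟩ := out d hd
      obtain ⟨y, y1, y2, y3⟩ := out e he
      refine (x3.trans _ _ _ ?_).trans _ _ _ (y3.symm _ _)
      rcases ring_jump (x2.trans y2.symm) with k | ⟨hne, k1, ⟨k2, k3⟩ | ⟨k2, k3⟩⟩
      · exact same x y x1 x2 k
      · exact link x y hne (x2.symm.trans k1) k2 k3
      · exact (link y x hne (x2.symm.trans k1) k3 k2).symm _ _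
  · have arc : ∀ p q, E p q → (∃ d, β d = some (idn a b p) ∧ β (a' d) = some (idn a b q)) ∧
        ∃ d, β d = some (idn a b q) ∧ β (a' d) = some (idn a b p) := by
      intro p q hpq
      rcases arcs p q hpq with ⟨d, h1, h2, h3⟩ | ⟨d, h1, h2, h3⟩
      swap
      · rcases h3 with ⟨h3, h4⟩ | ⟨h3, h4⟩
        · exact ⟨⟨d, by rw [βin d h1, h3], by rw [βin _ h2, h4]⟩,
            ⟨a' d, by rw [βin _ h2, h4], by rw [h.aa, βin d h1, h3]⟩⟩
        · exact ⟨⟨a' d, by rw [βin _ h2, h4], by rw [h.aa, βin d h1, h3]⟩,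
            ⟨d, by rw [βin d h1, h3], by rw [βin _ h2, h4]⟩⟩
      have e1 : β (a' d) = some (idn a b d.snd) := by rw [hsym d h2, βsym d h2]
      have e2 : β (a' d.symm) = lab d := by
        rw [hsym' d.symm h2, SimpleGraph.Dart.symm_symm, βin d h1]
      rcases h3 with ⟨h3, h4⟩ | ⟨h3, h4⟩
      · exact ⟨⟨d, by rw [βin d h1, h3], by rw [e1, h4]⟩,
          ⟨d.symm, by rw [βsym d h2, h4], by rw [e2, h3]⟩⟩
      · exact ⟨⟨d.symm, by rw [βsym d h2, h4], by rw [e2, h3]⟩,
          ⟨d, by rw [βin d h1, h3], by rw [e1, h4]⟩⟩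
    obtain ⟨-, p, q, hb, rfl, rfl⟩ := huv
    rcases hb with ⟨h1, h2, h3⟩ | h1 | h1
    · refine ⟨⟨(p, q), h1⟩, βout _ h2, ?_⟩
      rw [hsym _ h3]
      exact βsym _ h3
    · exact (arc p q h1).1
    · exact (arc q p h1).2

end Pool.Agent.Lib.MP_bfaad3_co
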