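import Pool.Agent.Lib.MP_bfaad3_co.KPat
import Pool.Agent.Lib.MP_bfaad3_co.Hole0

set_option autoImplicit false

/-! Block HOLE: the reduced graph is planar. -/

namespace Pool.Agent.Lib.MP_bfaad3_co

open Equiv

universe u

theorem hol_bit (m d i : ℕ) : (nx m d).testBit i = (decide (i < 15) && m.testBit (d + i)) := by
  show ((m >>> d) &&& 32767).testBit i = _
  rw [Nat.testBit_and, Nat.testBit_shiftRight, show 32767 = 2 ^ 15 - 1 from rfl,
    Nat.testBit_two_pow_sub_one, Bool.and_comm]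

theorem hol_lt (m d : ℕ) : nx m d < 32768 :=
  Nat.lt_succ_of_le (Nat.and_le_right (n := m >>> d) (m := 32767))

theorem hol_hi {b i : ℕ} (hb : b < 32768) (hi : 15 ≤ i) : b.testBit i = false :=
  Nat.testBit_lt_two_pow (lt_of_lt_of_le hb (Nat.pow_le_pow_right (n := 2) (by norm_num) hi))

theorem hol_set {m a b d : ℕ} (hb : b < 32768) (hd : d = a ∨ d + 15 ≤ a ∨ a + 15 ≤ d) :
    nx (setN m a b) d = if d = a then b else nx m d := by
  apply Nat.eq_of_testBit_eq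
  intro i
  have e : (setN m a b).testBit (d + i) = (m.testBit (d + i) ^^
      (decide (d + i ≥ a) && ((nx m a).testBit (d + i - a) ^^ b.testBit (d + i - a)))) := by
    show (m ^^^ ((nx m a ^^^ b) <<< a)).testBit (d + i) = _
    rw [Nat.testBit_xor, Nat.testBit_shiftLeft, Nat.testBit_xor]
  rw [hol_bit, e]
  by_cases hi : i < 15
  · split_ifs with h
    · subst h
      simp [hol_bit, hi]
    · rw [hol_bit m d]
      by_cases h1 : d + i ≥ a
      · rw [hol_hi (hol_lt m a) (by omega), hol_hi hb (by omega)]; simp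
      · simp [h1]
  · split_ifs with h
    · rw [hol_hi (i := i) hb (by omega)]; simp [hi]
    · rw [hol_bit m d]; simp [hi]

theorem hol_setN {m a b d : ℕ} (hb : b < 32768) (ha : 64 ∣ a) (hd : 64 ∣ d) :
    nx (setN m a b) d = if d = a then b else nx m d := hol_set hb (by omega)

theorem hol_pv_setN {m a b d : ℕ} (hb : b < 32768) (ha : 64 ∣ a) (hd : 64 ∣ d) :
    pv (setN m a b) d = pv m d :=
  (hol_set (d := d + 15) hb (by omega)).trans (if_neg (by omega))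

theorem hol_nx_setP {m a b d : ℕ} (hb : b < 32768) (ha : 64 ∣ a) (hd : 64 ∣ d) :
    nx (setP m a b) d = nx m d :=
  (hol_set (a := a + 15) hb (by omega)).trans (if_neg (by omega))

theorem hol_setP {m a b d : ℕ} (hb : b < 32768) (ha : 64 ∣ a) (hd : 64 ∣ d) :
    pv (setP m a b) d = if d = a then b else pv m d :=
  (hol_set (a := a + 15) (d := d + 15) hb (by omega)).trans (if_congr (by omega) rfl rfl)

theorem hol_fold_pv (F : ℕ → ℕ) (hF : ∀ d, F d < 32768) {d : ℕ} (hd : 64 ∣ d) :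
    ∀ (l : List ℕ) (t : ℕ), (∀ x ∈ l, 64 ∣ x) →
      pv (l.foldl (fun t d => setN t d (F d)) t) d = pv t d
  | [], t, _ => rfl
  | x :: l, t, hl => by
    rw [List.foldl_cons, hol_fold_pv F hF hd l _ fun y hy => hl y (List.mem_cons_of_mem _ hy),
      hol_pv_setN (hF x) (hl x List.mem_cons_self) hd]

theorem hol_fold (F : ℕ → ℕ) (hF : ∀ d, F d < 32768) {d : ℕ} (hd : 64 ∣ d) :
    ∀ (l : List ℕ) (t : ℕ), (∀ x ∈ l, 64 ∣ x) →
      nx (l.foldl (fun t d => setN t d (F d)) t) d = if d ∈ l then F d else nx t d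
  | [], t, _ => by simp
  | x :: l, t, hl => by
    rw [List.foldl_cons, hol_fold F hF hd l _ fun y hy => hl y (List.mem_cons_of_mem _ hy),
      hol_setN (hF x) (hl x List.mem_cons_self) hd]
    by_cases h1 : d ∈ l
    · simp [h1]
    · by_cases h2 : d = x <;> simp [h1, h2]

theorem hol_xdarts (m : ℕ) (ss : List ℕ) (d : ℕ) :
    ∀ xs : List ℕ, d ∈ xdarts m ss xs ↔ ∃ x ∈ xs, d ∈ star m (sd ss x)
  | [] => by simp [xdarts]
  | x :: xs => by
    have h1 : ∀ (l r : List ℕ), (List.rec r (fun d _ ih2 => d :: ih2) l : List ℕ) = l ++ r := by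
      intro l r
      induction l with
      | nil => rfl
      | cons y l ih => exact congrArg (List.cons y) ih
    have h2 : xdarts m ss (x :: xs) = star m (sd ss x) ++ xdarts m ss xs := h1 _ _
    rw [h2, List.mem_append, hol_xdarts m ss d xs]
    simp

section
variable {V : Type u} [Fintype V] {G : SimpleGraph V} {L : V → Finset ℕ} {σ : Perm G.Dart}
  {A : Set G.Dart} {m nd : ℕ} {h : ℕ → G.Dart}

/-- the packed permutation `t` describes `s` on `dx` -/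
def HolInv (h : ℕ → G.Dart) (dx : List ℕ) (t : ℕ) (s : Perm G.Dart) : Prop :=
  ∀ d ∈ dx, nx t d ∈ dx ∧ h (nx t d) = s (h d)

omit [Fintype V] in
theorem hol_cyc {dx : List ℕ} {t : ℕ} {s : Perm G.Dart} (hi : HolInv h dx t s) (p : ℕ → Bool) :
    ∀ (k d : ℕ), d ∈ dx → cyc1 t p k d = true → ∃ e ∈ dx, p e = true ∧ s.SameCycle (h d) (h e)
  | 0, _, _, hc => absurd hc (by show ¬ false = true; simp)
  | k + 1, d, hd, hc => by
    have e : cyc1 t p (k + 1) d = dj (p d) (frc (nx t d) (cyc1 t p k)) := rfl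
    rw [e, dj_iff, frc_eq] at hc
    rcases hc with hc | hc
    · exact ⟨d, hd, hc, Perm.SameCycle.refl _ _⟩
    · obtain ⟨e, h1, h2, h3⟩ := hol_cyc hi p k _ (hi d hd).1 hc
      rw [(hi d hd).2, Perm.sameCycle_apply_left] at h3
      exact ⟨e, h1, h2, h3⟩

omit [Fintype V] in
theorem hol_same {dx : List ℕ} {t : ℕ} {s : Perm G.Dart} (hi : HolInv h dx t s) {d e : ℕ}
    (hd : d ∈ dx) (hc : sameC t d e = true) : e ∈ dx ∧ s.SameCycle (h d) (h e) := by
  obtain ⟨e', h1, h2, h3⟩ := hol_cyc hi _ _ _ hd hc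
  obtain rfl := Nat.eq_of_beq_eq_true h2
  exact ⟨h1, h3⟩

/-- the second field of `t` describes the links of `a` between inner darts -/
def HolLk (h : ℕ → G.Dart) (X : Set V) (dx : List ℕ) (t : ℕ) (a : Perm G.Dart) : Prop :=
  ∀ d ∈ dx, (pv t d = 0 → (h d).snd ∈ X → a (h d) = h d) ∧
    (pv t d ≠ 0 → pv t d ∈ dx ∧ a (h d) = h (pv t d))

omit [Fintype V] in
theorem hol_xch [DecidableEq G.Dart] {dx : List ℕ} (h64 : ∀ d ∈ dx, 64 ∣ d)
    (hinj : ∀ d ∈ dx, ∀ e ∈ dx, h d = h e → d = e) {s : Perm G.Dart} {t x y : ℕ}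
    (h2 : HolInv h dx t s) (c1 : x ∈ dx) (c2 : y ∈ dx) :
    HolInv h dx (setN (setN t x (nx t y)) y (nx t x)) (s * swap (h x) (h y)) ∧
      ∀ d ∈ dx, pv (setN (setN t x (nx t y)) y (nx t x)) d = pv t d := by
  refine ⟨fun d hd => ?_, fun d hd => ?_⟩
  · rw [hol_setN (hol_lt _ _) (h64 _ c2) (h64 _ hd), hol_setN (hol_lt _ _) (h64 _ c1) (h64 _ hd),
      Perm.mul_apply]
    split_ifs with e2 e1
    · rw [e2, swap_apply_right]; exact h2 _ c1
    · rw [e1, swap_apply_left]; exact h2 _ c2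
    · rw [swap_apply_of_ne_of_ne (fun e => e1 (hinj _ hd _ c1 e)) fun e => e2 (hinj _ hd _ c2 e)]
      exact h2 d hd
  · rw [hol_pv_setN (hol_lt _ _) (h64 _ c2) (h64 _ hd),
      hol_pv_setN (hol_lt _ _) (h64 _ c1) (h64 _ hd)]

theorem hol_step {X : Set V} {dx : List ℕ} {tl xm : ℕ} (h64 : ∀ d ∈ dx, 64 ∣ d)
    (hlt : ∀ d ∈ dx, d ≠ 0 ∧ d < 32768) (hX : ∀ d ∈ dx, (h d).fst ∈ X)
    (hS : ∀ d ∈ dx, tb xm (gl tl (sy d)) = true → (h d).snd ∈ X)
    (hinj : ∀ d ∈ dx, ∀ e ∈ dx, h d = h e → d = e) {t : ℕ} (x : ℕ × ℕ × ℕ)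
    (hi : ∃ s a, HoleInv σ X s a ∧ HolInv h dx t s ∧ HolLk h X dx t a) :
    ∃ s a, HoleInv σ X s a ∧ HolInv h dx (swapStep tl xm dx t x) s ∧
      HolLk h X dx (swapStep tl xm dx t x) a := by
  classical
  obtain ⟨s, a, h1, h2, h3⟩ := hi
  obtain ⟨k, x, y⟩ := x
  rw [swapStep, sel_eq]
  split_ifs with hc
  swap
  · exact ⟨s, a, h1, h2, h3⟩
  simp only [cj_iff, memL_iff] at hc
  obtain ⟨c1, c2, c3⟩ := hc
  obtain ⟨e1, e2⟩ := hol_xch h64 hinj h2 c1 c2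
  have fr : ∀ d ∈ dx, free tl xm t d = true → (h d).snd ∈ X ∧ a (h d) = h d := fun d hd hf => by
    rw [free, cj_iff, Nat.beq_eq] at hf
    exact ⟨hS d hd hf.1, (h3 d hd).1 hf.2 (hS d hd hf.1)⟩
  have e3 : HolLk h X dx (setN (setN t x (nx t y)) y (nx t x)) a := fun d hd => by
    rw [e2 d hd]
    exact h3 d hd
  simp only [frc_eq]
  rw [sel_eq] at c3
  split_ifs at c3 with k0
  · rw [Nat.eq_of_beq_eq_true k0]
    exact ⟨_, a, hole_swap h1 (hX _ c1) (hX _ c2) (hol_same h2 c1 c3).2, e1, e3⟩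
  rw [cj_iff, sel_eq] at c3
  obtain ⟨c3, c4⟩ := c3
  obtain ⟨x1, x2⟩ := fr x c1 c3
  split_ifs at c4 with k1
  · rw [Nat.eq_of_beq_eq_true k1]
    refine ⟨_, a, hole_join h1 (hX _ c1) (hX _ c2) ?_ x2, e1, e3⟩
    rw [← (h2 x c1).2, Nat.eq_of_beq_eq_true c4]
  rw [cj_iff, cj_iff, nt_iff] at c4
  obtain ⟨c4, c5, c6⟩ := c4
  obtain ⟨y1, y2⟩ := fr y c2 c4
  have hxy : x ≠ y := fun e => by
    rw [e, Nat.beq_refl] at c5
    exact absurd c5 (by simp)
  rw [Nat.beq_eq] at k0 k1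
  rw [sel_eq, if_neg (by rw [Nat.ble_eq]; omega)]
  refine ⟨_, _, hole_link h1 ⟨hX _ c1, x1⟩ ⟨hX _ c2, y1⟩ (fun e => hxy (hinj _ c1 _ c2 e))
    (hol_same h2 c1 c6).2 x2 y2, fun d hd => ?_, fun d hd => ?_⟩
  · rw [hol_nx_setP (hlt _ c1).2 (h64 _ c2) (h64 _ hd),
      hol_nx_setP (hlt _ c2).2 (h64 _ c1) (h64 _ hd)]
    exact e1 d hd
  · rw [hol_setP (hlt _ c1).2 (h64 _ c2) (h64 _ hd), hol_setP (hlt _ c2).2 (h64 _ c1) (h64 _ hd)]
    split_ifs with d2 d1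
    · rw [d2]
      exact ⟨fun e => absurd e (hlt _ c1).1,
        fun _ => ⟨c1, by rw [Perm.mul_apply, y2, swap_apply_right]⟩⟩
    · rw [d1]
      exact ⟨fun e => absurd e (hlt _ c2).1,
        fun _ => ⟨c2, by rw [Perm.mul_apply, x2, swap_apply_left]⟩⟩
    · rw [hole_link_ne x2 y2 (fun e => d1 (hinj _ hd _ c1 e)) fun e => d2 (hinj _ hd _ c2 e)]
      exact e3 d hd

theorem hol_swaps {X : Set V} {dx : List ℕ} {tl xm : ℕ} (h64 : ∀ d ∈ dx, 64 ∣ d)
    (hlt : ∀ d ∈ dx, d ≠ 0 ∧ d < 32768) (hX : ∀ d ∈ dx, (h d).fst ∈ X)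
    (hS : ∀ d ∈ dx, tb xm (gl tl (sy d)) = true → (h d).snd ∈ X)
    (hinj : ∀ d ∈ dx, ∀ e ∈ dx, h d = h e → d = e) : ∀ (l : List (ℕ × ℕ × ℕ)) (t : ℕ),
      (∃ s a, HoleInv σ X s a ∧ HolInv h dx t s ∧ HolLk h X dx t a) →
      ∃ s a, HoleInv σ X s a ∧ HolInv h dx (l.foldl (swapStep tl xm dx) t) s ∧
        HolLk h X dx (l.foldl (swapStep tl xm dx) t) a
  | [], _, hi => hi
  | x :: l, _, hi => hol_swaps h64 hlt hX hS hinj l _ (hol_step h64 hlt hX hS hinj x hi)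

theorem hol_sim {ia ib u v : ℕ} :
    sim ia ib u v = true ↔ u = v ∨ ((u = ia ∨ u = ib) ∧ (v = ia ∨ v = ib)) := by
  simp only [sim, dj_iff, cj_iff, Nat.beq_eq]

omit [Fintype V] in
theorem hol_idn_left (a b : V) : idn a b a = a := by
  unfold idn; split_ifs <;> rfl

omit [Fintype V] in
theorem hol_idn_right (a b : V) : idn a b b = a := if_pos rfl

omit [Fintype V] in
theorem hol_idn (f : ℕ → V) {ia ib u v : ℕ} (hs : sim ia ib u v = true) :
    idn (f ia) (f ib) (f u) = idn (f ia) (f ib) (f v) := by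
  rcases hol_sim.1 hs with rfl | ⟨rfl | rfl, rfl | rfl⟩ <;>
    simp only [hol_idn_left, hol_idn_right]

/-- what `solOK` says about the deleted set -/
structure XOK (m nd : ℕ) (h : ℕ → G.Dart) (ss : List ℕ) (tl : ℕ) (S : Sol) : Prop where
  rng : ∀ x ∈ S.xs, 1 ≤ x ∧ x ≤ len ss ∧ starOK m (sd ss x) = true
  inj : ∀ x ∈ S.xs, ∀ y ∈ S.xs, fv h ss x = fv h ss y → x = y
  drt : ∀ x ∈ S.xs, ∀ d ∈ star m (sd ss x), gl tl d = x ∧
    (tb S.rm (gl tl (sy d)) = true ∨ gl tl (sy d) ∈ S.xs)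
  ring : ∀ r, tb S.rm r = true → 1 ≤ r ∧ r ≤ len ss ∧ ∀ x ∈ S.xs, fv h ss r ≠ fv h ss x
  idn : (S.ia = 0 ∧ S.ib = 0) ∨ (tb S.rm S.ia = true ∧ tb S.rm S.ib = true)
  arc : ∀ x ∈ S.arcs, tb S.rm x.2 = true ∧ (tb S.rm x.1 = true ∨ x.1 ∈ S.xs)

theorem hole_ok (hc : Ctx G L σ A) (hh : Hom L σ A m nd h) {ss : List ℕ}
    (hs : allL ss (okD nd) = true) {tl : ℕ} (ht : TlOK nd h (fv h ss) (len ss) tl) {S : Sol}
    (hx : XOK m nd h ss tl S)
    (ho : holeOK tl (mask S.xs) S (xdarts m ss S.xs)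
      (tau0 m tl (mask S.xs) (xdarts m ss S.xs)) = true) :
    Pl (redG G {v | ∃ x ∈ S.xs, fv h ss x = v} (ArcR (fv h ss) S.arcs) (fv h ss S.ia)
      (fv h ss S.ib)) := by
  classical
  set X : Set V := {v | ∃ x ∈ S.xs, fv h ss x = v} with hXdef
  have st := fun x (hm : x ∈ S.xs) =>
    star_ok hc hh (sd_val hs (hx.rng x hm).1 (hx.rng x hm).2.1) (hx.rng x hm).2.2
  have mem := hol_xdarts m ss
  generalize xdarts m ss S.xs = dx0, hdx : xdarts m ss S.xs = dx at ho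
  clear dx0
  have mem : ∀ d, d ∈ dx ↔ ∃ x ∈ S.xs, d ∈ star m (sd ss x) := fun d => hdx ▸ mem d S.xs
  have val : ∀ d ∈ dx, Val nd d := fun d hd => by
    obtain ⟨x, h1, h2⟩ := (mem d).1 hd
    exact ((st x h1).1 d h2).1
  have h64 : ∀ d ∈ dx, 64 ∣ d := fun d hd => (val d hd).2.2
  have hX : ∀ d ∈ dx, (h d).fst ∈ X := fun d hd => by
    obtain ⟨x, h1, h2⟩ := (mem d).1 hd
    exact ⟨x, h1, ((st x h1).1 d h2).2.symm⟩
  have onto : ∀ e : G.Dart, e.fst ∈ X → ∃ d ∈ dx, h d = e := fun e ⟨x, h1, h2⟩ => by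
    obtain ⟨d, h3, h4⟩ := (st x h1).2.1 e h2.symm
    exact ⟨d, (mem d).2 ⟨x, h1, h3⟩, h4⟩
  have hinj : ∀ d ∈ dx, ∀ e ∈ dx, h d = h e → d = e := fun d hd e he hde => by
    obtain ⟨x, h1, h2⟩ := (mem d).1 hd
    obtain ⟨y, h3, h4⟩ := (mem e).1 he
    obtain rfl : x = y := hx.inj x h1 y h3
      (((st x h1).1 d h2).2.symm.trans ((congrArg (·.fst) hde).trans ((st y h3).1 e h4).2))
    exact (st x h1).2.2 d h2 e h4 hde
  have rm : ∀ r, tb S.rm r = true → fv h ss r ∉ X := fun r hr ⟨x, h1, h2⟩ =>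
    (hx.ring r hr).2.2 x h1 h2.symm
  have oth : ∀ d ∈ dx, tb S.rm (gl tl (sy d)) = true ∨ gl tl (sy d) ∈ S.xs := fun d hd => by
    obtain ⟨x, h1, h2⟩ := (mem d).1 hd
    exact (hx.drt x h1 d h2).2
  have snd : ∀ d ∈ dx, (h d).snd = fv h ss (gl tl (sy d)) := fun d hd => by
    have h0 : gl tl (sy d) ≠ 0 := by
      rcases oth d hd with h1 | h1
      · have := (hx.ring _ h1).1; omega
      · have := (hx.rng _ h1).1; omega
    rw [← (ht _ h0).2.2, hh.sym d (val d hd)]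
    rfl
  have hab : fv h ss S.ia = fv h ss S.ib ∨ (fv h ss S.ia ∉ X ∧ fv h ss S.ib ∉ X) := by
    rcases hx.idn with ⟨h1, h2⟩ | ⟨h1, h2⟩
    · left; rw [h1, h2]
    · exact Or.inr ⟨rm _ h1, rm _ h2⟩
  have iin : ∀ y ∈ X, idn (fv h ss S.ia) (fv h ss S.ib) y = y := fun y hy => by
    unfold idn
    split_ifs with e
    · rcases hab with h1 | h1
      · rw [h1, e]
      · exact absurd (e ▸ hy) h1.2
    · rfl
  have iout : ∀ y ∉ X, idn (fv h ss S.ia) (fv h ss S.ib) y ∉ X := fun y hy => by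
    unfold idn
    split_ifs with e
    · rcases hab with h1 | h1
      · rw [h1, ← e]; exact hy
      · exact h1.1
    · exact hy
  have nz : ∀ w y, 1 ≤ y → sim S.ia S.ib w y = true → w ≠ 0 := fun w y hy hw => by
    rcases hx.idn with ⟨h1, h2⟩ | ⟨h1, h2⟩
    · have := hol_sim.1 hw; omega
    · have := hol_sim.1 hw
      have := (hx.ring _ h1).1
      have := (hx.ring _ h2).1
      omega
  obtain ⟨s0, a0, hi0, hs1, hs2, hs3⟩ := hole_init2 hc.ce.gen X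
  simp only [holeOK, cj_iff, frc_eq, allL_iff, anyL_iff, dj_iff, memL_iff, foldL_eq, Nat.beq_eq,
    sel_eq, mask_iff] at ho
  obtain ⟨o1, o2, o3, o4⟩ := ho
  have init : HolInv h dx (tau0 m tl (mask S.xs) dx) s0 := fun d hd => by
    refine ⟨o1 d hd, ?_⟩
    have h0 := (val _ (o1 d hd)).1
    have e : nx (tau0 m tl (mask S.xs) dx) d =
        sel (tb (mask S.xs) (gl tl (sy d))) (nx m (sy d)) (nx m d) := by
      rw [tau0, foldL_eq, hol_fold _ (fun d => by rw [sel_eq]; split_ifs <;> exact hol_lt _ _)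
        (h64 d hd) dx 0 h64, if_pos hd]
    rw [e, sel_eq] at h0 ⊢
    split_ifs at h0 ⊢ with h1
    · rw [((hh.hn _ (hh.val_sy (val d hd))).resolve_left (by omega)).2, hh.sym d (val d hd),
        hs1 _ (hX d hd) ⟨_, (mask_iff _ _).1 h1, (snd d hd).symm⟩]
    · rw [((hh.hn _ (val d hd)).resolve_left (by omega)).2, hs2]
      rw [snd d hd]
      exact rm _ ((oth d hd).resolve_right fun h2 => h1 ((mask_iff _ _).2 h2))
  have init2 : HolLk h X dx (tau0 m tl (mask S.xs) dx) a0 := fun d hd => by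
    have e : pv (tau0 m tl (mask S.xs) dx) d = 0 := by
      rw [tau0, foldL_eq, hol_fold_pv _ (fun d => by rw [sel_eq]; split_ifs <;> exact hol_lt _ _)
        (h64 d hd) dx 0 h64]
      simp [pv]
    exact ⟨fun _ => hs3 _ (hX d hd), fun k => absurd e k⟩
  obtain ⟨s, a', hi, hI, hK⟩ := hol_swaps (tl := tl) (xm := mask S.xs) h64
    (fun d hd => by have := val d hd; have := hh.nd3; unfold Val at *; omega) hX
    (fun d hd k => ⟨_, (mask_iff _ _).1 k, (snd d hd).symm⟩) hinj S.swaps _ ⟨s0, a0, hi0, init, init2⟩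
  generalize List.foldl (swapStep tl (mask S.xs) dx) (tau0 m tl (mask S.xs) dx) S.swaps = t
    at o2 o3 o4 hI hK
  let lb : ℕ → Option V := fun w =>
    if w = 0 then none else some (idn (fv h ss S.ia) (fv h ss S.ib) (fv h ss w))
  let lab : G.Dart → Option V := fun e =>
    if he : ∃ d ∈ dx, h d = e then lb (gl S.lab he.choose) else none
  have labs : ∀ d ∈ dx, lab (h d) = lb (gl S.lab d) := fun d hd => by
    have he : ∃ d' ∈ dx, h d' = h d := ⟨d, hd, rfl⟩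
    simp only [lab]
    rw [dif_pos he, hinj _ he.choose_spec.1 d hd he.choose_spec.2]
  have lbs : ∀ w v, lb w = some v →
      w ≠ 0 ∧ idn (fv h ss S.ia) (fv h ss S.ib) (fv h ss w) = v := fun w v hw => by
    simp only [lb] at hw
    split_ifs at hw with h1
    exact ⟨h1, Option.some.inj hw⟩
  refine hole_pl2 hc.ce.rot hi _ _ _ hab lab (fun e he => ?_) (fun e v he h1 h2 => ?_)
    (fun e e' v he he' h1 h2 h3 => ?_) (fun hne => ?_) fun p q hpq => ?_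
  · obtain ⟨d, hd, rfl⟩ := onto e he
    rw [← (hI d hd).2, labs _ (hI d hd).1, labs d hd, (o2 d hd).1]
  · obtain ⟨d, hd, rfl⟩ := onto e he
    rw [labs d hd] at h1
    obtain ⟨h3, rfl⟩ := lbs _ _ h1
    have h4 := (o2 d hd).2.resolve_left h3
    split_ifs at h4 with h5
    · exact absurd (by rw [iin _ ⟨_, h5, rfl⟩]; exact ⟨_, h5, rfl⟩) h2
    · obtain ⟨e, h6, h7, h8⟩ := hol_cyc hI _ _ _ hd ((cj_iff _ _).1 h4).2
      rw [cj_iff] at h7
      refine ⟨h e, h8, ?_, ?_⟩ <;> rw [snd e h6]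
      exacts [rm _ h7.1, hol_idn _ h7.2]
  · obtain ⟨d, hd, rfl⟩ := onto e he
    obtain ⟨d', hd', rfl⟩ := onto e' he'
    rw [labs d hd] at h1
    rw [labs d' hd'] at h2
    have key : ∀ d ∈ dx, lb (gl S.lab d) = some v → gl S.lab d ∈ S.xs ∧ fv h ss (gl S.lab d) = v ∧
        ∀ e ∈ dx, gl S.lab e = gl S.lab d → sameC t d e = true := fun d hd h1 => by
      obtain ⟨h4, h5⟩ := lbs _ _ h1
      have h6 := (o2 d hd).2.resolve_left h4
      split_ifs at h6 with h7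
      · refine ⟨h7, by rw [← h5, iin _ ⟨_, h7, rfl⟩], fun e he h8 => ?_⟩
        refine ((dj_iff _ _).1 ((allL_iff _ _).1 h6 e he)).resolve_left fun h9 => ?_
        rw [nt_iff, h8, Nat.beq_refl] at h9
        exact absurd h9 (by simp)
      · exact absurd (h5 ▸ h3) (iout _ (rm _ ((cj_iff _ _).1 h6).1))
    obtain ⟨a1, a2, a3⟩ := key d hd h1
    obtain ⟨b1, b2, -⟩ := key d' hd' h2
    exact (hol_same hI hd (a3 d' hd' (hx.inj _ b1 _ a1 (b2.trans a2.symm)))).2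
  · have hne' : S.ia ≠ S.ib := fun e => hne (by rw [e])
    obtain ⟨h1, h2, h3, h4, h5⟩ := o3.resolve_left hne'
    obtain ⟨h6, h7⟩ := hol_same hI h1 h2
    have h8 : S.ia ≠ 0 := nz _ S.ia (by
      rcases hx.idn with ⟨e1, e2⟩ | ⟨e1, -⟩
      · omega
      · exact (hx.ring _ e1).1) (hol_sim.2 (Or.inl rfl))
    refine ⟨h S.i1, h S.i2, hX _ h1, h7, by rw [snd _ h1, h3], by rw [snd _ h6, h4], ?_⟩
    rw [labs _ h1, h5]
    simp only [lb]
    rw [if_neg h8, hol_idn_left]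
  · obtain ⟨x, hxa, hpq⟩ := hpq
    obtain ⟨d, hd, h2⟩ := o4 x hxa
    have p2 : 1 ≤ x.2 := (hx.ring _ (hx.arc x hxa).1).1
    have p1 : 1 ≤ x.1 := (hx.arc x hxa).2.elim (fun e => (hx.ring _ e).1) fun e => (hx.rng _ e).1
    have key0 : ∀ e ∈ dx, ∀ y, 1 ≤ y → sim S.ia S.ib (gl S.lab e) y = true →
        lab (h e) = some (idn (fv h ss S.ia) (fv h ss S.ib) (fv h ss y)) := fun e he y hy h3 => by
      rw [labs e he]
      simp only [lb]
      rw [if_neg (nz _ y hy h3), hol_idn _ h3]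
    split_ifs at h2 with h1
    · have key : ∀ y z, 1 ≤ y → sim S.ia S.ib (gl S.lab d) y = true →
          sim S.ia S.ib (gl tl (sy d)) z = true →
          lab (h d) = some (idn (fv h ss S.ia) (fv h ss S.ib) (fv h ss y)) ∧
            idn (fv h ss S.ia) (fv h ss S.ib) (h d).snd =
              idn (fv h ss S.ia) (fv h ss S.ib) (fv h ss z) := fun y z hy h3 h4 =>
        ⟨key0 d hd y hy h3, by rw [snd d hd]; exact hol_idn _ h4⟩
      rw [dj_iff, cj_iff, cj_iff] at h2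
      refine Or.inl ⟨h d, hX d hd, by rw [snd d hd]; exact rm _ h1, ?_⟩
      rcases hpq with ⟨rfl, rfl⟩ | ⟨rfl, rfl⟩ <;> rcases h2 with h2 | h2
      exacts [Or.inl (key _ _ p1 h2.1 h2.2), Or.inr (key _ _ p2 h2.1 h2.2),
        Or.inr (key _ _ p1 h2.1 h2.2), Or.inl (key _ _ p2 h2.1 h2.2)]
    · rw [cj_iff, cj_iff, Nat.blt_eq] at h2
      obtain ⟨k1, k2⟩ := (hK d hd).2 (by omega)
      refine Or.inr ⟨h d, hX d hd, by rw [k2]; exact hX _ k1, ?_⟩
      rw [k2]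
      rcases hpq with ⟨rfl, rfl⟩ | ⟨rfl, rfl⟩
      exacts [Or.inl ⟨key0 d hd _ p1 h2.2.1, key0 _ k1 _ p2 h2.2.2⟩,
        Or.inr ⟨key0 d hd _ p1 h2.2.1, key0 _ k1 _ p2 h2.2.2⟩]

end

end Pool.Agent.Lib.MP_bfaad3_co
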