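import Pool.Agent.Lib.MP_bfaad3_co.Far
import Pool.Agent.Lib.MP_bfaad3_co.Kernel

set_option autoImplicit false

namespace Pool.Agent.Lib.MP_bfaad3_co

open Equiv

universe u

theorem kp_blt {a b : ℕ} : Nat.blt a b = true ↔ a < b := by simp

theorem kp_beq_false {a b : ℕ} : Nat.beq a b = false ↔ a ≠ b := by
  rw [← Bool.not_eq_true, Nat.beq_eq]

theorem kp_both2 (l : List (ℕ × ℕ)) (x : ℕ × ℕ) : x ∈ both2 l ↔ x ∈ l ∨ (x.2, x.1) ∈ l := by
  induction l with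
  | nil => simp [both2]
  | cons y l ih =>
    have e : both2 (y :: l) = y :: (y.2, y.1) :: both2 l := rfl
    rw [e]
    simp only [List.mem_cons, ih, Prod.ext_iff]
    tauto

theorem kp_bit {a b : ℕ} (h : Nat.land a 1 ≠ Nat.land b 1) :
    Nat.beq (Nat.land a 1) 1 ≠ Nat.beq (Nat.land b 1) 1 := by
  have ha : Nat.land a 1 = a % 2 := Nat.and_one_is_mod a
  have hb : Nat.land b 1 = b % 2 := Nat.and_one_is_mod b
  rw [ha, hb] at h ⊢
  rcases Nat.mod_two_eq_zero_or_one a with h1 | h1 <;>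
    rcases Nat.mod_two_eq_zero_or_one b with h2 | h2 <;> rw [h1, h2] at h ⊢ <;>
      first | exact absurd rfl h | decide

section
variable {V : Type u} [Fintype V] {G : SimpleGraph V} {L : V → Finset ℕ} {σ : Perm G.Dart}
  {A : Set G.Dart} {m nd : ℕ} {h : ℕ → G.Dart}

theorem ker_ok (hc : Ctx G L σ A) (hh : Hom L σ A m nd h) {ss : List ℕ}
    (hs : allL ss (okD nd) = true) {tl ad : ℕ}
    (ht : TlOK nd h (fv h ss) (len ss) tl) (ha : AdOK G (fv h ss) ad) {xs : List ℕ} {bm : ℕ}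
    {ins : List (List ℕ)} {fars : List FarC}
    (hk : kerOK m tl ad (len ss) ss xs bm ins fars = true) : False := by
  classical
  have hf : FarOK G ∅ (fv h ss) (mkFT m tl 0 fars) 0 :=
    mkFT_ok hc hh ht ∅ (fun v hv => by simp [tb_eq] at hv) fars
  unfold kerOK at hk
  simp only [frc_eq, cj_iff, dj_iff, allL_iff, memL_iff, nodupL_iff, nt_iff, kp_blt, Nat.ble_eq,
    Nat.beq_eq, kp_beq_false] at hk
  obtain ⟨h0, -, hx⟩ := hk
  have inj : ∀ x ∈ xs, ∀ y ∈ xs, fv h ss x = fv h ss y → x = y := fun x hx1 y hy e => by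
    rcases (hx x hx1).2.2.1 y hy with e' | ⟨e', -⟩
    · exact e'
    · exact absurd e (hf _ _ _ e')
  obtain ⟨g, hg⟩ : ∃ g : V → ℕ, ∀ x ∈ xs, g (fv h ss x) = x := by
    refine ⟨fun v => if hv : ∃ x ∈ xs, fv h ss x = v then hv.choose else 0, fun x hx1 => ?_⟩
    have hv : ∃ y ∈ xs, fv h ss y = fv h ss x := ⟨x, hx1, rfl⟩
    simp only [dif_pos hv]
    exact inj _ hv.choose_spec.1 _ hx1 hv.choose_spec.2
  refine kernel_red hc.ce (xs.toFinset.image (fv h ss)) ?_ (fun v => tb bm (g v))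
    (fun v => (ins.getD (g v) []).toFinset.image (fv h ss)) ?_ ?_ ?_
  · rw [len_eq] at h0
    obtain ⟨x, hx1⟩ := List.exists_mem_of_length_pos h0
    exact ⟨_, Finset.mem_image_of_mem _ (List.mem_toFinset.2 hx1), _, (h (sd ss x)).adj⟩
  · intro v hv u hu
    obtain ⟨x, hx1, rfl⟩ := Finset.mem_image.1 hv
    rw [List.mem_toFinset] at hx1
    rw [hg x hx1] at hu
    obtain ⟨y, hy, rfl⟩ := Finset.mem_image.1 hu
    rw [List.mem_toFinset] at hy
    obtain ⟨y1, y2, y3⟩ := (hx x hx1).2.2.2.2.2 y hy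
    refine ⟨Finset.mem_image_of_mem _ (List.mem_toFinset.2 y1), ha _ _ y2, fun hz => ?_⟩
    rw [hg y y1] at hz
    obtain ⟨z, hz, e⟩ := Finset.mem_image.1 hz
    rw [List.mem_toFinset] at hz
    rw [inj z ((hx y y1).2.2.2.2.2 z hz).1 x hx1 e, ← memL_iff, y3] at hz
    exact Bool.false_ne_true hz
  · intro v hv
    obtain ⟨x, hx1, rfl⟩ := Finset.mem_image.1 hv
    rw [List.mem_toFinset] at hx1
    obtain ⟨x1, x2, -, x3, x4, x5⟩ := hx x hx1
    rw [hg x hx1, Finset.card_image_of_injOn fun y hy z hz e =>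
      inj y (x5 y (List.mem_toFinset.1 hy)).1 z (x5 z (List.mem_toFinset.1 hz)).1 e,
      List.toFinset_card_of_nodup x3]
    rw [len_eq] at x4
    have l64 : (ins.getD x []).length ≤ 64 := by
      rw [← List.toFinset_card_of_nodup x3, ← Finset.card_range 64]
      refine Finset.card_le_card fun y hy => Finset.mem_range.2 ?_
      exact kp_blt.1 ((cj_iff _ _).1 (x5 y (List.mem_toFinset.1 hy)).2.1).1
    have := excm_ok hc hh (sd_val hs x1 x2) (by omega)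
    change dg G (h (sd ss x)).fst + 1 ≤ (L (h (sd ss x)).fst).card + _
    omega
  · intro u hu v hv huv
    obtain ⟨x, hx1, rfl⟩ := Finset.mem_image.1 hu
    obtain ⟨y, hy, rfl⟩ := Finset.mem_image.1 hv
    rw [List.mem_toFinset] at hx1 hy
    rw [hg x hx1, hg y hy]
    rcases (hx x hx1).2.2.1 y hy with e' | ⟨-, e' | e'⟩
    · rw [e'] at huv
      exact absurd rfl huv.ne
    · exact kp_bit e'
    · exact absurd ⟨huv, Set.notMem_empty _, Set.notMem_empty _⟩ (hf _ _ _ e')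

/-- the new arcs -/
def ArcR (f : ℕ → V) (arcs : List (ℕ × ℕ)) (p q : V) : Prop :=
  ∃ x ∈ arcs, (f x.1 = p ∧ f x.2 = q) ∨ (f x.2 = p ∧ f x.1 = q)

omit [Fintype V] in
theorem kp_arc {f : ℕ → V} {arcs : List (ℕ × ℕ)} {p q : V} (h : ArcR f arcs p q) :
    ∃ x ∈ both2 arcs, f x.1 = p ∧ f x.2 = q := by
  obtain ⟨x, hx, h | h⟩ := h
  · exact ⟨x, (kp_both2 _ _).2 (Or.inl hx), h⟩
  · exact ⟨(x.2, x.1), (kp_both2 _ _).2 (Or.inr hx), h⟩

omit [Fintype V] in
theorem kp_lk {X : Set V} {f : ℕ → V} {ft xm ia ib u v k : ℕ} (hf : FarOK G X f ft xm)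
    (h : lk ft xm ia ib u v k = true) : ¬ Lk G X (f ia) (f ib) k (f u) (f v) := by
  unfold lk at h
  simp only [cj_iff, dj_iff, allN_iff, Nat.beq_eq] at h
  obtain ⟨h1, h2⟩ := h
  rintro (w | ⟨hab, i, hi, w⟩)
  · exact hf _ _ _ h1 w
  · rcases h2 with e | h2
    · exact hab (by rw [e])
    · obtain ⟨k1, k2⟩ := h2 i (Nat.lt_succ_of_le hi)
      rcases w with ⟨w1, w2⟩ | ⟨w1, w2⟩
      · rcases k1 with k1 | k1
        · exact hf _ _ _ k1 w1
        · exact hf _ _ _ k1 w2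
      · rcases k2 with k2 | k2
        · exact hf _ _ _ k2 w1
        · exact hf _ _ _ k2 w2

omit [Fintype V] in
theorem kp_sim {X : Set V} (f : ℕ → V) {ia ib u v : ℕ} (h : sim ia ib u v = true) :
    Lk G X (f ia) (f ib) 0 (f u) (f v) := by
  unfold sim at h
  simp only [cj_iff, dj_iff, Nat.beq_eq] at h
  by_cases hab : f ia = f ib
  · rcases h with rfl | ⟨rfl | rfl, rfl | rfl⟩
    · exact Or.inl rfl
    · exact Or.inl rfl
    · exact Or.inl hab
    · exact Or.inl hab.symm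
    · exact Or.inl rfl
  · rcases h with rfl | ⟨rfl | rfl, rfl | rfl⟩
    · exact Or.inl rfl
    · exact Or.inl rfl
    · exact Or.inr ⟨hab, 0, le_rfl, Or.inl ⟨rfl, rfl⟩⟩
    · exact Or.inr ⟨hab, 0, le_rfl, Or.inr ⟨rfl, rfl⟩⟩
    · exact Or.inl rfl

omit [Fintype V] in
theorem safe_ok {X : Set V} {f : ℕ → V} {ft xm ia ib : ℕ} (hf : FarOK G X f ft xm)
    {arcs : List (ℕ × ℕ)} (hs : safeOK ft xm ia ib (both2 arcs) = true) :
    Safe G X (ArcR f arcs) (f ia) (f ib) := by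
  unfold safeOK at hs
  simp only [cj_iff, dj_iff, allL_iff, Nat.beq_eq] at hs
  obtain ⟨h0, h1⟩ := hs
  refine ⟨?_, fun hab => ?_, fun p q e => ?_, fun p q r s e e' l1 l2 => ?_,
    fun p q r s t u e e' e'' l1 l2 l3 => ?_⟩
  · rintro p q ⟨x, hx, h | h⟩
    · exact ⟨x, hx, Or.inr ⟨h.2, h.1⟩⟩
    · exact ⟨x, hx, Or.inl ⟨h.2, h.1⟩⟩
  · rcases h0 with e | ⟨k1, k2⟩
    · exact absurd (by rw [e]) hab
    · exact ⟨hf _ _ _ k1, hf _ _ _ k2⟩
  · obtain ⟨x, hx, rfl, rfl⟩ := kp_arc e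
    exact ⟨kp_lk hf (h1 x hx).1, kp_lk hf (h1 x hx).2.1⟩
  · obtain ⟨x, hx, rfl, rfl⟩ := kp_arc e
    obtain ⟨y, hy, rfl, rfl⟩ := kp_arc e'
    rcases (h1 x hx).2.2 y hy with k | k | ⟨k, -⟩
    · exact absurd l1 (kp_lk hf k)
    · exact kp_sim f k
    · exact absurd l2 (kp_lk hf k)
  · obtain ⟨x, hx, rfl, rfl⟩ := kp_arc e
    obtain ⟨y, hy, rfl, rfl⟩ := kp_arc e'
    obtain ⟨w, hw, rfl, rfl⟩ := kp_arc e''
    rcases (h1 x hx).2.2 y hy with k | k | ⟨-, k⟩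
    · exact absurd l1 (kp_lk hf k)
    · exact Or.inl (kp_sim f k)
    · rcases k w hw with k | k | k | k
      · exact absurd l2 (kp_lk hf k)
      · exact absurd l3 (kp_lk hf k)
      · exact Or.inr (Or.inl (kp_sim f k))
      · exact Or.inr (Or.inr (kp_sim f k))

end

end Pool.Agent.Lib.MP_bfaad3_co
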