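import Pool.Agent.Lib.MP_bfaad3_co.SolDef
import Pool.Agent.Lib.MP_bfaad3_co.PM1
import Pool.Agent.Lib.MP_bfaad3_co.B2

set_option autoImplicit false

namespace Pool.Agent.Lib.MP_bfaad3_co

open Equiv

universe u

theorem allL_iff {α : Type} (l : List α) (p : α → Bool) :
    allL l p = true ↔ ∀ x ∈ l, p x = true := by
  induction l with
  | nil => simp [allL]
  | cons x l ih =>
    have e : allL (x :: l) p = cj (p x) (allL l p) := rfl
    rw [e, cj_iff, ih]
    simp

theorem anyL_iff {α : Type} (l : List α) (p : α → Bool) :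
    anyL l p = true ↔ ∃ x ∈ l, p x = true := by
  induction l with
  | nil => simp [anyL]
  | cons x l ih =>
    have e : anyL (x :: l) p = dj (p x) (anyL l p) := rfl
    rw [e, dj_iff, ih]
    simp

theorem memL_iff (l : List ℕ) (a : ℕ) : memL l a = true ↔ a ∈ l := by
  unfold memL
  rw [anyL_iff]
  constructor
  · rintro ⟨x, hx, h⟩
    rw [Nat.beq_eq] at h
    exact h ▸ hx
  · intro h
    exact ⟨a, h, by rw [Nat.beq_eq]⟩

theorem allN_iff (n : ℕ) (p : ℕ → Bool) : allN n p = true ↔ ∀ i, i < n → p i = true := by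
  induction n with
  | zero => simp [allN]
  | succ n ih =>
    have e : allN (n + 1) p = cj (p n) (allN n p) := rfl
    rw [e, cj_iff, ih]
    constructor
    · rintro ⟨h1, h2⟩ i hi
      rcases Nat.lt_succ_iff_lt_or_eq.1 hi with h | h
      · exact h2 i h
      · exact h ▸ h1
    · intro h
      exact ⟨h n (Nat.lt_succ_self n), fun i hi => h i (Nat.lt_succ_of_lt hi)⟩

theorem nt_iff (b : Bool) : nt b = true ↔ b = false := by
  cases b <;> simp [nt, sel]

theorem len_eq {α : Type} (l : List α) : len l = l.length := by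
  induction l with
  | nil => rfl
  | cons x l ih =>
    have e : len (x :: l) = (len l).succ := rfl
    rw [e, ih]
    rfl

theorem nth_eq (l : List ℕ) (i : ℕ) : nth l i = l.getD i 0 := by
  induction l generalizing i with
  | nil => rfl
  | cons x l ih =>
    cases i with
    | zero => rfl
    | succ i =>
      have e : nth (x :: l) (i + 1) = nth l i := rfl
      rw [e, ih]
      rfl

theorem foldL_eq {α : Type} (l : List α) (f : ℕ → α → ℕ) (a : ℕ) : foldL l f a = l.foldl f a := by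
  induction l generalizing a with
  | nil => rfl
  | cons x l ih =>
    have e : foldL (x :: l) f a = frc (f a x) (foldL l f) := rfl
    rw [e, frc_eq, ih]
    rfl

theorem nodupL_iff (l : List ℕ) : nodupL l = true ↔ l.Nodup := by
  induction l with
  | nil => simp [nodupL]
  | cons x l ih =>
    have e : nodupL (x :: l) = cj (nt (memL l x)) (nodupL l) := rfl
    rw [e, cj_iff, nt_iff, ih, List.nodup_cons, ← memL_iff]
    simp

theorem nm_one_bit (x i : ℕ) : (Nat.shiftLeft 1 x).testBit i = true ↔ i = x := by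
  have e : Nat.shiftLeft 1 x = 2 ^ x := by
    show 1 <<< x = 2 ^ x
    rw [Nat.one_shiftLeft]
  rw [e, Nat.testBit_two_pow]
  simp [eq_comm]

theorem nm_lor_bit (a b i : ℕ) :
    (Nat.lor a b).testBit i = true ↔ a.testBit i = true ∨ b.testBit i = true := by
  show (a ||| b).testBit i = true ↔ _
  rw [Nat.testBit_or, Bool.or_eq_true]

theorem nm_mask (l : List ℕ) (a x : ℕ) :
    (l.foldl (fun a x => Nat.lor a (Nat.shiftLeft 1 x)) a).testBit x = true ↔
      a.testBit x = true ∨ x ∈ l := by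
  induction l generalizing a with
  | nil => simp
  | cons y l ih =>
    rw [List.foldl_cons, ih, nm_lor_bit, nm_one_bit, List.mem_cons]
    tauto

theorem mask_iff (l : List ℕ) (x : ℕ) : tb (mask l) x = true ↔ x ∈ l := by
  unfold mask
  rw [tb_eq, foldL_eq, nm_mask]
  simp

theorem nm_land63 (d : ℕ) : Nat.land d 63 = d % 64 := by
  show d &&& 63 = d % 64
  exact Nat.and_two_pow_sub_one_eq_mod d 6

theorem nm_gl (tl d : ℕ) : gl tl d = if d % 64 = 0 then (tl >>> d) % 64 else 0 := by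
  unfold gl
  rw [sel_eq, nm_land63, nm_land63]
  simp only [Nat.beq_eq]
  rfl

theorem gl_lt (tl d : ℕ) : gl tl d < 64 := by
  rw [nm_gl]
  split_ifs
  · exact Nat.mod_lt _ (by norm_num)
  · norm_num

theorem BT.All.map {α β : Type} {P : β → Prop} (f : α → β) {t : BT α}
    (h : t.All fun a => P (f a)) : (t.map f).All P := by
  induction t with
  | lf a => exact h
  | nd k l r ihl ihr => exact ⟨ihl h.1, ihr h.2⟩

theorem nm_gl_lor {tl c i : ℕ} (hc : 64 ∣ c) (hi : i < 64) (h0 : gl tl c = 0) (d : ℕ) :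
    gl (Nat.lor tl (Nat.shiftLeft i c)) d = if d = c then i else gl tl d := by
  have e : Nat.lor tl (Nat.shiftLeft i c) = tl ||| (i <<< c) := rfl
  have hc0 : c % 64 = 0 := Nat.mod_eq_zero_of_dvd hc
  rw [nm_gl, if_pos hc0] at h0
  rw [e, nm_gl, nm_gl]
  have p6 : (64 : ℕ) = 2 ^ 6 := by norm_num
  have hi' : ∀ j, 6 ≤ j → i.testBit j = false := fun j hj =>
    Nat.testBit_eq_false_of_lt (lt_of_lt_of_le hi (by
      rw [p6]; exact Nat.pow_le_pow_right (by norm_num) hj))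
  by_cases hdc : d = c
  · subst hdc
    rw [if_pos hc0, if_pos rfl]
    apply Nat.eq_of_testBit_eq
    intro j
    have h1 : ((tl >>> d) % 64).testBit j = false := by rw [h0]; simp
    rw [p6, Nat.testBit_mod_two_pow, Nat.testBit_shiftRight] at h1
    rw [p6, Nat.testBit_mod_two_pow, Nat.testBit_shiftRight, Nat.testBit_or, Nat.testBit_shiftLeft]
    by_cases hj : j < 6
    · simp only [hj, decide_true, Bool.true_and] at h1 ⊢
      simp [h1]
    · simp [hj, hi' j (by omega)]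
  · rw [if_neg hdc]
    split_ifs with hd
    · apply Nat.eq_of_testBit_eq
      intro j
      rw [p6, Nat.testBit_mod_two_pow, Nat.testBit_mod_two_pow, Nat.testBit_shiftRight,
        Nat.testBit_shiftRight, Nat.testBit_or, Nat.testBit_shiftLeft]
      by_cases hj : j < 6
      · by_cases hle : c ≤ d + j
        · rw [hi' (d + j - c) (by omega)]
          simp
        · have : ¬ (d + j ≥ c) := hle
          simp [this]
      · simp [hj]
    · rfl

theorem nm_rotL (m k d x : ℕ) : x ∈ rotL m k d ↔ ∃ j, j < k ∧ x = stepV m j d := by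
  induction k generalizing d with
  | zero => simp [rotL]
  | succ k ih =>
    have e : rotL m (k + 1) d = d :: frc (nx m d) (rotL m k) := rfl
    rw [e, frc_eq, List.mem_cons, ih]
    constructor
    · rintro (h | ⟨j, hj, h⟩)
      · exact ⟨0, by omega, h⟩
      · refine ⟨j + 1, by omega, ?_⟩
        have e2 : stepV m (j + 1) d = frc (nx m d) (stepV m j) := rfl
        rw [e2, frc_eq, h]
    · rintro ⟨j, hj, h⟩
      cases j with
      | zero => exact Or.inl h
      | succ j =>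
        have e2 : stepV m (j + 1) d = frc (nx m d) (stepV m j) := rfl
        rw [e2, frc_eq] at h
        exact Or.inr ⟨j, by omega, h⟩

theorem nm_okD {nd d : ℕ} (h : okD nd d = true) : Val nd d := by
  unfold okD at h
  rw [cj_iff, cj_iff, nm_land63, Nat.ble_eq, Nat.blt_eq, Nat.beq_eq] at h
  exact ⟨h.1, h.2.1, Nat.dvd_of_mod_eq_zero h.2.2⟩

theorem nm_isL {n a : ℕ} (h : isL n a = true) : 64 ≤ a ∧ a ≤ 64 * n ∧ 64 ∣ a := by
  unfold isL at h
  rw [cj_iff, cj_iff, nm_land63, Nat.ble_eq, Nat.ble_eq, Nat.beq_eq] at h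
  have e : Nat.mul n 64 = n * 64 := rfl
  rw [e] at h
  exact ⟨h.1, by omega, Nat.dvd_of_mod_eq_zero h.2.2⟩

theorem nm_vx (a : ℕ) : vx a = a / 64 := by
  show a >>> 6 = a / 64
  rw [Nat.shiftRight_eq_div_pow]

theorem nm_adjbit (tl k x : ℕ) : (mkAdj tl k).testBit x = true ↔
    ∃ i, i < k ∧ gl tl (i * 64) ≠ 0 ∧ gl tl (sy (i * 64)) ≠ 0 ∧
      x = gl tl (i * 64) * 64 + gl tl (sy (i * 64)) := by
  induction k with
  | zero => simp [mkAdj]
  | succ k ih =>
    have e : mkAdj tl (k + 1) = frc (mkAdj tl k) fun acc => frc (Nat.shiftLeft k 6) fun d =>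
      frc (gl tl d) fun u => frc (gl tl (sy d)) fun v =>
        sel (dj (Nat.beq u 0) (Nat.beq v 0)) acc
          (Nat.lor acc (Nat.shiftLeft 1 (Nat.add (Nat.mul u 64) v))) := rfl
    have e2 : Nat.shiftLeft k 6 = k * 64 := by
      show k <<< 6 = k * 64
      rw [Nat.shiftLeft_eq]
    rw [e, frc_eq, frc_eq, frc_eq, frc_eq, sel_eq, e2]
    simp only [dj_iff, Nat.beq_eq]
    split_ifs with h0
    · rw [ih]
      constructor
      · rintro ⟨i, hi, hr⟩
        exact ⟨i, by omega, hr⟩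
      · rintro ⟨i, hi, h1, h2, h3⟩
        refine ⟨i, ?_, h1, h2, h3⟩
        rcases Nat.lt_succ_iff_lt_or_eq.1 hi with h | h
        · exact h
        · subst h
          tauto
    · rw [nm_lor_bit, nm_one_bit, ih]
      push Not at h0
      constructor
      · rintro (⟨i, hi, hr⟩ | h)
        · exact ⟨i, by omega, hr⟩
        · exact ⟨k, by omega, h0.1, h0.2, h⟩
      · rintro ⟨i, hi, h1, h2, h3⟩
        rcases Nat.lt_succ_iff_lt_or_eq.1 hi with h | h
        · exact Or.inl ⟨i, h, h1, h2, h3⟩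
        · subst h
          exact Or.inr h3

theorem nm_adj (ad u v : ℕ) : adj ad u v = true ↔ v < 64 ∧ ad.testBit (u * 64 + v) = true := by
  unfold adj
  rw [cj_iff, tb_eq, Nat.blt_eq]
  rfl

theorem nm_init_or {O : ℕ → Finset ℕ} {st a x : ℕ} (hs : InitOK O st) (ha : 64 ∣ a)
    (hx : ∀ i, x.testBit i = true → ∃ j, j < 8 ∧
      ((i = a + (j + 42) ∧ j ≤ (O a).card) ∨ (i = a + (j + 50) ∧ (O a).card ≤ j))) :
    InitOK O (Nat.lor st x) := by
  intro b hb
  obtain ⟨h1, h2⟩ := hs b hb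
  obtain ⟨-, -, hb3⟩ := hb
  refine ⟨fun i hi => ?_, fun k hk => ⟨fun hbit => ?_, fun hbit => ?_⟩⟩
  · rw [← Bool.not_eq_true, nm_lor_bit, h1 i hi]
    rintro (h | h)
    · exact absurd h (by simp)
    · obtain ⟨j, hj, h | h⟩ := hx _ h <;> omega
  · rw [nm_lor_bit] at hbit
    rcases hbit with h | h
    · exact (h2 k hk).1 h
    · obtain ⟨j, hj, h | h⟩ := hx _ h
      · have hab : b = a := by omega
        subst hab
        omega
      · omega
  · rw [nm_lor_bit] at hbit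
    rcases hbit with h | h
    · exact (h2 k hk).2 h
    · obtain ⟨j, hj, h | h⟩ := hx _ h
      · omega
      · have hab : b = a := by omega
        subst hab
        omega

theorem nm_shl_bit {x s i : ℕ} (h : (Nat.shiftLeft x s).testBit i = true) :
    ∃ j, i = s + j ∧ x.testBit j = true := by
  have e : Nat.shiftLeft x s = x <<< s := rfl
  rw [e, Nat.testBit_shiftLeft, Bool.and_eq_true, decide_eq_true_eq] at h
  exact ⟨i - s, by omega, h.2⟩

theorem nm_init_setL {O : ℕ → Finset ℕ} {st a k : ℕ} (hs : InitOK O st) (ha : 64 ∣ a)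
    (hk : k < 8) (h : k ≤ (O a).card) : InitOK O (setL' st a k) := by
  refine nm_init_or hs ha fun i hi => ?_
  obtain ⟨j, hj, hb⟩ := nm_shl_bit hi
  have e : Nat.pred (Nat.shiftLeft 2 k) = 2 ^ (k + 1) - 1 := by
    show (2 <<< k) - 1 = _
    rw [Nat.shiftLeft_eq, pow_succ']
  rw [e, Nat.testBit_two_pow_sub_one, decide_eq_true_eq] at hb
  have e2 : Nat.add a 42 = a + 42 := rfl
  exact ⟨j, by omega, Or.inl ⟨by omega, by omega⟩⟩

theorem nm_sub_bit : ∀ k, k < 9 → ∀ j, j < 8 →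
    (Nat.sub 256 (Nat.shiftLeft 1 k)).testBit j = true → k ≤ j := by decide

theorem nm_init_setU {O : ℕ → Finset ℕ} {st a k : ℕ} (hs : InitOK O st) (ha : 64 ∣ a)
    (hk : k ≤ 8) (h : k < 8 → (O a).card ≤ k) : InitOK O (setU st a k) := by
  refine nm_init_or hs ha fun i hi => ?_
  obtain ⟨j, hj, hb⟩ := nm_shl_bit hi
  have hj8 : j < 8 := by
    by_contra hcon
    have h1 : Nat.sub 256 (Nat.shiftLeft 1 k) < 2 ^ j := by
      have h2 : 0 < Nat.shiftLeft 1 k := by
        show 0 < 1 <<< k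
        rw [Nat.one_shiftLeft]
        positivity
      have h3 : 2 ^ 8 ≤ 2 ^ j := Nat.pow_le_pow_right (by norm_num) (by omega)
      have h4 : Nat.sub 256 (Nat.shiftLeft 1 k) = 256 - Nat.shiftLeft 1 k := rfl
      omega
    rw [Nat.testBit_eq_false_of_lt h1] at hb
    exact absurd hb (by simp)
  have h1 := nm_sub_bit k (by omega) j hj8 hb
  have e2 : Nat.add a 50 = a + 50 := rfl
  exact ⟨j, hj8, Or.inr ⟨by omega, by omega⟩⟩

section
variable {V : Type u} [Fintype V] {G : SimpleGraph V} {L : V → Finset ℕ} {σ : Perm G.Dart}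
  {A : Set G.Dart} {m nd : ℕ} {h : ℕ → G.Dart}

omit [Fintype V] in
theorem nm_hasT (hh : Hom L σ A m nd h) {d a : ℕ} {e : G.Dart} (r : Rp nd h d e)
    (hi : has m d a = true) : a.testBit (30 + ty L A e.fst) = false := by
  unfold has at hi
  rw [sb_iff] at hi
  rw [← Bool.not_eq_true]
  intro hb
  have h1 := hi _ hb
  rw [r.bitT hh] at h1
  exact absurd h1 (by simp)

omit [Fintype V] in
theorem nm_hasF (hh : Hom L σ A m nd h) {d a : ℕ} {e : G.Dart} (r : Rp nd h d e)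
    (hi : has m d a = true) : a.testBit (42 + fc σ e) = false := by
  unfold has at hi
  rw [sb_iff] at hi
  rw [← Bool.not_eq_true]
  intro hb
  have h1 := hi _ hb
  rw [r.bitF hh] at h1
  exact absurd h1 (by simp)

omit [Fintype V] in
theorem nm_rp {d : ℕ} (hd : Val nd d) : Rp nd h d (h d) := Or.inr (Or.inr ⟨hd, rfl⟩)

omit [Fintype V] in
theorem nm_rp_val {d : ℕ} {e : G.Dart} (r : Rp nd h d e) (hd : 128 ≤ d) : Val nd d ∧ h d = e := by
  rcases r with r | r | r
  · omega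
  · omega
  · exact r

omit [Fintype V] in
theorem nm_ty (L : V → Finset ℕ) (A : Set G.Dart) (v : V) :
    (ty L A v = 0 ∧ dg G v = 3) ∨ (ty L A v = 1 ∧ dg G v = 4 ∧ (L v).card = 3) ∨
    (ty L A v = 2 ∧ dg G v = 5 ∧ (L v).card = 3) ∨ (ty L A v = 3 ∧ dg G v = 4 ∧ (L v).card ≠ 3) ∨
    (ty L A v = 4 ∧ dg G v = 5 ∧ (L v).card = 4) ∨
    (ty L A v = 5 ∧ dg G v = 5 ∧ (L v).card ≠ 3 ∧ (L v).card ≠ 4) ∨
    (ty L A v = 6 ∧ dg G v ≠ 3 ∧ dg G v ≠ 4 ∧ dg G v ≠ 5 ∧ (L v).card = 3) ∨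
    (ty L A v = 7 ∧ dg G v ≠ 3 ∧ dg G v ≠ 4 ∧ dg G v ≠ 5 ∧ (L v).card = 4) ∨
    (ty L A v = 8 ∧ dg G v ≠ 3 ∧ dg G v ≠ 4 ∧ dg G v ≠ 5 ∧ (L v).card ≠ 3 ∧ (L v).card ≠ 4) ∨
    (ty L A v = 9 ∧ (L v).card = 3) ∨ (ty L A v = 10 ∧ (L v).card ≠ 3) ∨
    (ty L A v = 11 ∧ dg G v = 6 ∧ (L v).card = 5) := by
  unfold ty
  generalize dg G v = a
  generalize (L v).card = b
  split_ifs <;> simp [*]

omit [Fintype V] in
theorem intr_ok' (hh : Hom L σ A m nd h) {d : ℕ} {e : G.Dart} (r : Rp nd h d e)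
    (hi : intr m d = true) : Intr A e.fst := by
  have h1 := nm_hasT hh r hi
  by_contra hcon
  unfold ty at h1
  rw [if_neg hcon] at h1
  split_ifs at h1
  · exact absurd h1 (by decide)
  · exact absurd h1 (by decide)

theorem intr_ok (hh : Hom L σ A m nd h) {d : ℕ} {e : G.Dart} (r : Rp nd h d e)
    (hi : intr m d = true) : Intr A e.fst := intr_ok' hh r hi

theorem dmin_ok (hc : Ctx G L σ A) (hh : Hom L σ A m nd h) {d : ℕ} (hd : Val nd d) :
    dmin m d < dg G (h d).fst := by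
  have h3 := hc.ce.bas_three (h d)
  have ht := nm_ty L A (h d).fst
  have hl : ty L A (h d).fst < 12 := ty_lt _
  unfold dmin
  simp only [sel_eq]
  split_ifs with h1 h2 h4
  · have k : ∀ t, t < 12 → (1716913176576 : ℕ).testBit (30 + t) = false →
        t = 6 ∨ t = 7 ∨ t = 8 ∨ t = 11 := by decide
    have := k _ hl (nm_hasT hh (nm_rp hd) h1)
    omega
  · have k : ∀ t, t < 12 → (1661078601728 : ℕ).testBit (30 + t) = false →
        t ≠ 0 ∧ t ≠ 1 ∧ t ≠ 3 ∧ t ≠ 9 ∧ t ≠ 10 := by decide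
    have := k _ hl (nm_hasT hh (nm_rp hd) h2)
    omega
  · have k : ∀ t, t < 12 → (1650341183488 : ℕ).testBit (30 + t) = false →
        t ≠ 0 ∧ t ≠ 9 ∧ t ≠ 10 := by decide
    have := k _ hl (nm_hasT hh (nm_rp hd) h4)
    omega
  · omega

omit [Fintype V] in
theorem nm_reachV (hh : Hom L σ A m nd h) {b : ℕ} (hb : 128 ≤ b) (k : ℕ) {a : ℕ} {e : G.Dart}
    (r : Rp nd h a e) (hr : reachV m b k a = true) : ∃ j, 1 ≤ j ∧ j ≤ k ∧ h b = (σ ^ j) e := by
  induction k generalizing a e with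
  | zero => exact absurd hr (by simp [reachV])
  | succ k ih =>
    have e1 : reachV m b (k + 1) a =
      frc (nx m a) fun x => dj (Nat.beq x b) (reachV m b k x) := rfl
    rw [e1, frc_eq, dj_iff, Nat.beq_eq] at hr
    have r1 := r.nx hh
    rcases hr with hr | hr
    · rw [hr] at r1
      exact ⟨1, le_rfl, by omega, by rw [pow_one]; exact (nm_rp_val r1 hb).2⟩
    · obtain ⟨j, h1, h2, h3⟩ := ih r1 hr
      exact ⟨j + 1, by omega, by omega, by rw [h3, pow_succ, Perm.mul_apply]⟩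

theorem nm_ds (hc : Ctx G L σ A) (hh : Hom L σ A m nd h) {a b : ℕ} (ha : Val nd a) (hb : 128 ≤ b)
    (hr : reachV m b (dmin m a) a = true) : h a ≠ h b := by
  obtain ⟨j, h1, h2, h3⟩ := nm_reachV hh hb _ (nm_rp ha) hr
  have h4 := dmin_ok hc hh ha
  rw [← period_eq_dg hc.ce.rot] at h4
  intro hab
  have := bas_inj σ (h a) (i := 0) (j := j) (by omega) (by omega) (by rw [← h3, ← hab]; rfl)
  omega

theorem ds_ok (hc : Ctx G L σ A) (hh : Hom L σ A m nd h) {a b : ℕ} {x y : G.Dart}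
    (ra : Rp nd h a x) (rb : Rp nd h b y) (hd : ds m a b = true) : x ≠ y := by
  unfold ds at hd
  rw [cj_iff, cj_iff, dj_iff, Nat.ble_eq, Nat.ble_eq] at hd
  obtain ⟨h1, h2, h3⟩ := hd
  obtain ⟨va, rfl⟩ := nm_rp_val ra h1
  obtain ⟨vb, rfl⟩ := nm_rp_val rb h2
  rcases h3 with h3 | h3
  · exact nm_ds hc hh va h2 h3
  · exact (nm_ds hc hh vb h1 h3).symm

omit [Fintype V] in
theorem dgm_ok' (hh : Hom L σ A m nd h) {d : ℕ} (hd : Val nd d)
    (h0 : 0 < dgm m d) : dg G (h d).fst = dgm m d := by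
  have ht := nm_ty L A (h d).fst
  have hl : ty L A (h d).fst < 12 := ty_lt _
  unfold dgm at h0 ⊢
  simp only [sel_eq] at h0 ⊢
  split_ifs at h0 ⊢ with h1 h2 h4 h5
  · have k : ∀ t, t < 12 → (degM 0).testBit (30 + t) = false → t = 0 := by decide
    have := k _ hl (nm_hasT hh (nm_rp hd) h1)
    omega
  · have k : ∀ t, t < 12 → (degM 1).testBit (30 + t) = false → t = 1 ∨ t = 3 := by decide
    have := k _ hl (nm_hasT hh (nm_rp hd) h2)
    omega
  · have k : ∀ t, t < 12 → (degM 2).testBit (30 + t) = false → t = 2 ∨ t = 4 ∨ t = 5 := by decide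
    have := k _ hl (nm_hasT hh (nm_rp hd) h4)
    omega
  · have k : ∀ t, t < 12 → (degM 3).testBit (30 + t) = false → t = 11 := by decide
    have := k _ hl (nm_hasT hh (nm_rp hd) h5)
    omega
  · omega

theorem dgm_ok (hc : Ctx G L σ A) (hh : Hom L σ A m nd h) {d : ℕ} (hd : Val nd d)
    (h0 : 0 < dgm m d) : dg G (h d).fst = dgm m d :=
  (fun _ => dgm_ok' hh hd h0) hc

theorem lbm_ok (hc : Ctx G L σ A) (hh : Hom L σ A m nd h) {d : ℕ} (hd : Val nd d) :
    lbm m d ≤ (L (h d).fst).card := by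
  have h3 := hc.ce.cls.1 (h d).fst
  have ht := nm_ty L A (h d).fst
  have hl : ty L A (h d).fst < 12 := ty_lt _
  unfold lbm
  simp only [sel_eq]
  split_ifs with h1 h2
  · have k : ∀ t, t < 12 → (1888711868416 : ℕ).testBit (30 + t) = false →
        t = 5 ∨ t = 8 ∨ t = 11 := by decide
    have := k _ hl (nm_hasT hh (nm_rp hd) h1)
    omega
  · have k : ∀ t, t < 12 → (625991483392 : ℕ).testBit (30 + t) = false →
        t ≠ 0 ∧ t ≠ 1 ∧ t ≠ 2 ∧ t ≠ 6 ∧ t ≠ 9 := by decide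
    have := k _ hl (nm_hasT hh (nm_rp hd) h2)
    omega
  · omega

theorem ubm_ok (hc : Ctx G L σ A) (hh : Hom L σ A m nd h) {d : ℕ} (hd : Val nd d)
    (h8 : ubm m d < 8) : (L (h d).fst).card ≤ ubm m d := by
  have h3 := hc.ce.card_le_dg (h d)
  have ht := nm_ty L A (h d).fst
  have hl : ty L A (h d).fst < 12 := ty_lt _
  unfold ubm at h8 ⊢
  simp only [sel_eq] at h8 ⊢
  split_ifs at h8 ⊢ with h1 h2 h4
  · have k : ∀ t, t < 12 → (3770981285888 : ℕ).testBit (30 + t) = false →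
        t = 0 ∨ t = 1 ∨ t = 2 ∨ t = 6 ∨ t = 9 := by decide
    have := k _ hl (nm_hasT hh (nm_rp hd) h1)
    omega
  · have k : ∀ t, t < 12 → (3607772528640 : ℕ).testBit (30 + t) = false →
        t ≠ 5 ∧ t ≠ 8 ∧ t ≠ 10 ∧ t ≠ 11 := by decide
    have := k _ hl (nm_hasT hh (nm_rp hd) h2)
    omega
  · have k : ∀ t, t < 12 → (1374389534720 : ℕ).testBit (30 + t) = false →
        t ≠ 8 ∧ t ≠ 10 := by decide
    have := k _ hl (nm_hasT hh (nm_rp hd) h4)
    omega
  · omega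

theorem excm_ok (hc : Ctx G L σ A) (hh : Hom L σ A m nd h) {d : ℕ} (hd : Val nd d)
    (h9 : excm m d < 99) : dg G (h d).fst ≤ (L (h d).fst).card + excm m d := by
  have h3 := hc.ce.cls.1 (h d).fst
  have ht := nm_ty L A (h d).fst
  have hl : ty L A (h d).fst < 12 := ty_lt _
  unfold excm at h9 ⊢
  simp only [sel_eq] at h9 ⊢
  split_ifs at h9 ⊢ with h1 h2 h4
  · have k : ∀ t, t < 12 → (4352949354496 : ℕ).testBit (30 + t) = false →
        t = 0 ∨ t = 3 ∨ t = 5 := by decide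
    have := k _ hl (nm_hasT hh (nm_rp hd) h1)
    omega
  · have k : ∀ t, t < 12 → (2134598746112 : ℕ).testBit (30 + t) = false →
        t = 0 ∨ t = 1 ∨ t = 3 ∨ t = 4 ∨ t = 5 ∨ t = 11 := by decide
    have := k _ hl (nm_hasT hh (nm_rp hd) h2)
    omega
  · have k : ∀ t, t < 12 → (2130303778816 : ℕ).testBit (30 + t) = false →
        t ≤ 5 ∨ t = 11 := by decide
    have := k _ hl (nm_hasT hh (nm_rp hd) h4)
    omega
  · omega

theorem star_ok (hc : Ctx G L σ A) (hh : Hom L σ A m nd h) {s : ℕ} (hs : Val nd s)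
    (ho : starOK m s = true) :
    (∀ d ∈ star m s, Val nd d ∧ (h d).fst = (h s).fst) ∧
    (∀ e : G.Dart, e.fst = (h s).fst → ∃ d ∈ star m s, h d = e) ∧
    (∀ d ∈ star m s, ∀ d' ∈ star m s, h d = h d' → d = d') := by
  classical
  unfold starOK at ho
  rw [cj_iff, allL_iff, Nat.blt_eq] at ho
  obtain ⟨h0, h1⟩ := ho
  have hp : Function.minimalPeriod σ (h s) = dgm m s := by
    rw [period_eq_dg hc.ce.rot, dgm_ok hc hh hs h0]
  have key : ∀ j, j < dgm m s → Val nd (stepV m j s) ∧ h (stepV m j s) = (σ ^ j) (h s) := by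
    intro j hj
    have h2 := h1 _ ((nm_rotL m _ s _).2 ⟨j, hj, rfl⟩)
    rw [Nat.ble_eq] at h2
    exact nm_rp_val ((nm_rp hs).stepV hh j) h2
  refine ⟨fun d hd => ?_, fun e he => ?_, fun d hd d' hd' hdd => ?_⟩
  · obtain ⟨j, hj, rfl⟩ := (nm_rotL m _ s _).1 hd
    exact ⟨(key j hj).1, by rw [(key j hj).2, bas_pow_fst hc.ce.rot]⟩
  · obtain ⟨i, hi, hie⟩ := bas_exists σ (hc.ce.rot.2 (h s) e he.symm)
    rw [hp] at hi
    exact ⟨_, (nm_rotL m _ s _).2 ⟨i, hi, rfl⟩, by rw [(key i hi).2, hie]⟩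
  · obtain ⟨j, hj, rfl⟩ := (nm_rotL m _ s _).1 hd
    obtain ⟨j', hj', rfl⟩ := (nm_rotL m _ s _).1 hd'
    rw [(key j hj).2, (key j' hj').2] at hdd
    rw [bas_inj σ (h s) (by omega) (by omega) hdd]

theorem sd_val {ss : List ℕ} (hs : allL ss (okD nd) = true) {x : ℕ} (h1 : 1 ≤ x)
    (h2 : x ≤ len ss) : Val nd (sd ss x) := by
  rw [allL_iff] at hs
  rw [len_eq] at h2
  unfold sd
  rw [nth_eq]
  have hx : Nat.pred x < ss.length := by
    have : Nat.pred x = x - 1 := rfl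
    omega
  rw [List.getD_eq_getElem _ _ hx]
  exact nm_okD (hs _ (List.getElem_mem hx))

omit [Fintype V] in
theorem nm_lab1 (hr : IsRot G σ) (hh : Hom L σ A m nd h) {f : ℕ → V} {n i s : ℕ}
    (hin : i ≤ n) (hn : n < 64) (fuel : ℕ) {cur tl : ℕ} (hv : Val nd cur) (hf : (h cur).fst = f i)
    (ht : TlOK nd h f n tl) : TlOK nd h f n (lab1 m i s fuel cur tl) := by
  induction fuel generalizing cur tl with
  | zero => exact ht
  | succ k ih =>
    have e1 : lab1 m i s (k + 1) cur tl = sel (Nat.beq (gl tl cur) 0)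
      (frc (Nat.lor tl (Nat.shiftLeft i cur)) fun tl' => frc (nx m cur) fun x =>
        sel (Nat.beq x 0) tl' (lab1 m i s k x tl')) tl := rfl
    rw [e1, sel_eq, frc_eq, frc_eq, sel_eq]
    simp only [Nat.beq_eq]
    split_ifs with h0 h1
    · intro d hd
      rw [nm_gl_lor hv.2.2 (by omega) h0] at hd ⊢
      split_ifs at hd ⊢ with hdc
      · subst hdc
        exact ⟨hv, hin, hf⟩
      · exact ht d hd
    · rcases hh.hn cur hv with h2 | ⟨h2, h3⟩
      · exact absurd h2 h1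
      · refine ih h2 (by rw [h3, hr.1, hf]) ?_
        intro d hd
        rw [nm_gl_lor hv.2.2 (by omega) h0] at hd ⊢
        split_ifs at hd ⊢ with hdc
        · subst hdc
          exact ⟨hv, hin, hf⟩
        · exact ht d hd
    · exact ht

omit [Fintype V] in
theorem nm_mkTl (hr : IsRot G σ) (hh : Hom L σ A m nd h) {f : ℕ → V} {n : ℕ} (hn : n < 64)
    (l : List ℕ) {i tl : ℕ} (hl : i + l.length ≤ n + 1)
    (hv : ∀ j, j < l.length → Val nd (l.getD j 0) ∧ (h (l.getD j 0)).fst = f (i + j))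
    (ht : TlOK nd h f n tl) : TlOK nd h f n (mkTl m l i tl) := by
  induction l generalizing i tl with
  | nil => exact ht
  | cons s l ih =>
    have e1 : mkTl m (s :: l) i tl = frc (lab1 m i s 12 s tl) fun tl' =>
      frc (Nat.succ i) fun i' => mkTl m l i' tl' := rfl
    rw [e1, frc_eq, frc_eq]
    rw [List.length_cons] at hl hv
    have h0 := hv 0 (by omega)
    refine ih (by omega) (fun j hj => ?_) (nm_lab1 hr hh (by omega) hn 12 h0.1 h0.2 ht)
    have h1 := hv (j + 1) (by omega)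
    have e2 : i.succ + j = i + (j + 1) := by omega
    rw [e2]
    exact h1

theorem mkTl_ok (hc : Ctx G L σ A) (hh : Hom L σ A m nd h) {ss : List ℕ}
    (hs : allL ss (okD nd) = true) (hn : len ss ≤ 50) :
    TlOK nd h (fv h ss) (len ss) (mkTl m ss 1 0) := by
  refine nm_mkTl hc.ce.rot hh (by omega) ss (by rw [len_eq]; omega) (fun j hj => ?_) ?_
  · have e : sd ss (1 + j) = ss.getD j 0 := by
      unfold sd
      rw [nth_eq, Nat.add_comm]
      rfl
    have h1 := sd_val hs (x := 1 + j) (by omega) (by rw [len_eq]; omega)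
    rw [e] at h1
    refine ⟨h1, ?_⟩
    unfold fv
    rw [e]
  · intro d hd
    rw [nm_gl] at hd
    simp at hd

omit [Fintype V] in
theorem mkAdj_ok' (hh : Hom L σ A m nd h) {f : ℕ → V} {n tl : ℕ} (ht : TlOK nd h f n tl) :
    AdOK G f (mkAdj tl (Nat.shiftRight nd 6)) ∧ AdAll nd tl (mkAdj tl (Nat.shiftRight nd 6)) := by
  constructor
  · intro u v huv
    rw [nm_adj, nm_adjbit] at huv
    obtain ⟨hv, i, -, h1, h2, h3⟩ := huv
    have h4 := gl_lt tl (sy (i * 64))
    have hu : u = gl tl (i * 64) := by omega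
    have hv' : v = gl tl (sy (i * 64)) := by omega
    obtain ⟨a1, -, a2⟩ := ht _ h1
    obtain ⟨-, -, a3⟩ := ht _ h2
    rw [hu, hv', ← a2, ← a3, hh.sym _ a1]
    exact (h (i * 64)).adj
  · intro d hd h1 h2
    rw [nm_adj, nm_adjbit]
    obtain ⟨-, h3, c, rfl⟩ := hd
    have e : Nat.shiftRight nd 6 = nd / 64 := by
      show nd >>> 6 = nd / 64
      rw [Nat.shiftRight_eq_div_pow]
    have h5 := hh.nd1
    refine ⟨gl_lt _ _, c, by omega, ?_⟩
    rw [Nat.mul_comm c 64]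
    exact ⟨h1, h2, rfl⟩

theorem mkAdj_ok (hh : Hom L σ A m nd h) {f : ℕ → V} {n tl : ℕ} (ht : TlOK nd h f n tl) :
    AdOK G f (mkAdj tl (Nat.shiftRight nd 6)) ∧ AdAll nd tl (mkAdj tl (Nat.shiftRight nd 6)) :=
  mkAdj_ok' hh ht

theorem nm_init0 (hc : Ctx G L σ A) (hh : Hom L σ A m nd h) {O : ℕ → Finset ℕ} (l : List ℕ)
    {a st : ℕ} (ha : 64 ∣ a)
    (hv : ∀ j, j < l.length → Val nd (l.getD j 0) ∧ O (a + 64 * j) = L (h (l.getD j 0)).fst)
    (hs : InitOK O st) : InitOK O (init0 m l a st) := by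
  induction l generalizing a st with
  | nil => exact hs
  | cons s l ih =>
    have e1 : init0 m (s :: l) a st = frc (setU (setL' st a (lbm m s)) a (ubm m s)) fun st' =>
      frc (Nat.add a 64) fun a' => init0 m l a' st' := rfl
    have e2 : Nat.add a 64 = a + 64 := rfl
    rw [e1, frc_eq, frc_eq, e2]
    rw [List.length_cons] at hv
    obtain ⟨h0, h1⟩ : Val nd s ∧ O a = L (h s).fst := hv 0 (by omega)
    have b1 : lbm m s < 8 := by
      unfold lbm
      simp only [sel_eq]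
      split_ifs <;> omega
    have b2 : ubm m s ≤ 8 := by
      unfold ubm
      simp only [sel_eq]
      split_ifs <;> omega
    refine ih (by omega) (fun j hj => ?_) (nm_init_setU (nm_init_setL hs ha b1 ?_) ha b2 ?_)
    · have h2 := hv (j + 1) (by omega)
      have e3 : a + 64 + 64 * j = a + 64 * (j + 1) := by omega
      rw [e3]
      exact h2
    · rw [h1]
      exact lbm_ok hc hh h0
    · rw [h1]
      exact ubm_ok hc hh h0

theorem init0_ok (hc : Ctx G L σ A) (hh : Hom L σ A m nd h) {ss : List ℕ}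
    (hs : allL ss (okD nd) = true) (hn : len ss ≤ 50) {O : ℕ → Finset ℕ}
    (hO : ∀ a, a ≤ 64 * len ss → O a = L (fv h ss (a / 64))) : InitOK O (init0 m ss 64 0) := by
  refine (fun _ => nm_init0 hc hh ss (dvd_refl 64) (fun j hj => ?_) ?_) hn
  · have e : sd ss (1 + j) = ss.getD j 0 := by
      unfold sd
      rw [nth_eq, Nat.add_comm]
      rfl
    have h1 := sd_val hs (x := 1 + j) (by omega) (by rw [len_eq]; omega)
    rw [e] at h1
    refine ⟨h1, ?_⟩
    rw [hO _ (by rw [len_eq]; omega)]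
    have e2 : (64 + 64 * j) / 64 = 1 + j := by omega
    unfold fv
    rw [e2, e]
  · intro a _
    simp

theorem nm_ob {n a : ℕ} (hn : n ≤ 50) (ha : isL n a = true) : Ob a := by
  obtain ⟨h1, h2, h3⟩ := nm_isL ha
  exact ⟨h1, by omega, h3⟩

theorem nm_full (hc : Ctx G L σ A) (hh : Hom L σ A m nd h) {ss : List ℕ}
    (hs : allL ss (okD nd) = true) (hn : len ss ≤ 50) {tl : ℕ}
    (ht : TlOK nd h (fv h ss) (len ss) tl) {O : ℕ → Finset ℕ}
    (hO : ∀ a, a ≤ 64 * len ss → O a = L (fv h ss (a / 64))) {a : ℕ} {cs : List ℕ}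
    (hf : fullOK m tl (len ss) ss a cs = true) :
    Ob a ∧ (∀ c ∈ cs, Ob c) ∧ Val nd (sd ss (vx a)) ∧ O a = L (h (sd ss (vx a))).fst ∧
      ∀ w, G.Adj (h (sd ss (vx a))).fst w → ∃ c ∈ cs, O c = L w := by
  unfold fullOK at hf
  rw [cj_iff, cj_iff, cj_iff, allL_iff, allL_iff] at hf
  obtain ⟨h1, h2, h3, h4⟩ := hf
  obtain ⟨a1, a2, a3⟩ := nm_isL h1
  have hv : Val nd (sd ss (vx a)) := sd_val hs (by rw [nm_vx]; omega) (by rw [nm_vx]; omega)
  refine ⟨nm_ob hn h1, fun c hcs => nm_ob hn (h2 c hcs), hv, ?_, fun w hw => ?_⟩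
  · rw [hO a a2, nm_vx]
    rfl
  · obtain ⟨s1, s2, -⟩ := star_ok hc hh hv h3
    obtain ⟨d, hd, hde⟩ := s2 ⟨(_, w), hw⟩ rfl
    have h5 := h4 d hd
    rw [cj_iff, memL_iff, Nat.blt_eq] at h5
    obtain ⟨-, t2, t3⟩ := ht (sy d) (by omega)
    have e : Nat.mul (gl tl (sy d)) 64 = gl tl (sy d) * 64 := rfl
    rw [e] at h5
    refine ⟨_, h5.2, ?_⟩
    rw [hO _ (by omega), Nat.mul_div_cancel _ (by norm_num), ← t3, hh.sym d (s1 d hd).1, hde]
    rfl

theorem srel_ok (hc : Ctx G L σ A) (hh : Hom L σ A m nd h) {ss : List ℕ}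
    (hs : allL ss (okD nd) = true) (hn : len ss ≤ 50) {tl ad : ℕ}
    (ht : TlOK nd h (fv h ss) (len ss) tl) (ha : AdOK G (fv h ss) ad) {O : ℕ → Finset ℕ}
    (hO : ∀ a, a ≤ 64 * len ss → O a = L (fv h ss (a / 64))) {r : Rel}
    (hr : srelOK m tl ad (len ss) ss r = true) : r.Holds O := by
  cases r with
  | sub a b =>
    have hr' : cj (isL (len ss) a) (Nat.beq a b) = true := hr
    rw [cj_iff, Nat.beq_eq] at hr'
    obtain ⟨h1, rfl⟩ := hr'
    exact ⟨nm_ob hn h1, nm_ob hn h1, Finset.Subset.refl _⟩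
  | esub a b =>
    have hr' : cj (isL (len ss) a) (cj (isL (len ss) b) (adj ad (vx a) (vx b))) = true := hr
    rw [cj_iff, cj_iff, nm_vx, nm_vx] at hr'
    obtain ⟨h1, h2, h3⟩ := hr'
    refine ⟨nm_ob hn h1, nm_ob hn h2, ?_⟩
    rw [hO a (nm_isL h1).2.1, hO b (nm_isL h2).2.1]
    intro h4
    exact hc.ce.cls.2 _ _ (ha _ _ h3) (le_antisymm h4 (hc.ce.cls.1 _))
  | dis a b => exact absurd hr Bool.false_ne_true
  | cov a b cs => exact absurd hr Bool.false_ne_true
  | avl a b cs => exact absurd hr Bool.false_ne_true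
  | neq a b w =>
    have hr' : cj (isL (len ss) a) (cj (isL (len ss) b) (cj (Nat.beq (gl tl w) (vx a))
      (cj (has m w (lenM 0)) (cj (Nat.beq (gl tl (stepF m 2 w)) (vx b))
        (dj (intr m w) (dj (intr m (sy w)) (dj (intr m (stepF m 2 w))
          (intr m (sy (stepF m 2 w)))))))))) = true := hr
    simp only [cj_iff, dj_iff, Nat.beq_eq, nm_vx] at hr'
    obtain ⟨h1, h2, h3, h4, h5, h6⟩ := hr'
    obtain ⟨a1, a2, -⟩ := nm_isL h1
    obtain ⟨b1, b2, -⟩ := nm_isL h2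
    refine ⟨nm_ob hn h1, nm_ob hn h2, ?_⟩
    obtain ⟨t1, -, t2⟩ := ht w (by omega)
    obtain ⟨t3, -, t4⟩ := ht (stepF m 2 w) (by omega)
    have r0 : Rp nd h w (h w) := nm_rp t1
    have r2 := r0.stepF hh 2
    have e2 : (phi σ ^ 2) (h w) = phi σ (phi σ (h w)) := rfl
    have h7 : flen σ (h w) = 4 := by
      have k : ∀ t, t < 3 → (lenM 0).testBit (42 + t) = false → t = 0 := by decide
      have h8 := k _ (fc_lt _) (nm_hasF hh r0 h4)
      unfold fc at h8
      split_ifs at h8 with h9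
      exact h9
    rw [hO a a2, hO b b2, ← h3, ← h5, ← t2, ← t4, (nm_rp_val r2 t3.1).2, e2]
    refine dlem hc (h w) h7 ?_
    rcases h6 with h6 | h6 | h6 | h6
    · exact ⟨0, intr_ok hh r0 h6⟩
    · refine ⟨1, ?_⟩
      rw [pow_one, bas_phi_fst hc.ce.rot]
      exact intr_ok hh (r0.sy hh) h6
    · exact ⟨2, intr_ok hh r2 h6⟩
    · refine ⟨3, ?_⟩
      rw [bas_succ, bas_phi_fst hc.ce.rot]
      exact intr_ok hh (r2.sy hh) h6
  | min5 a cs =>
    have hr' : cj (fullOK m tl (len ss) ss a cs) (Nat.ble 5 (lbm m (sd ss (vx a)))) = true := hr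
    rw [cj_iff, Nat.ble_eq] at hr'
    obtain ⟨h1, h2, h3, h4, h5⟩ := nm_full hc hh hs hn ht hO hr'.1
    refine ⟨h1, h2, fun t ht' => ?_⟩
    rw [h4] at ht'
    obtain ⟨w, w1, w2, w3⟩ := hc.ce.min5 (hr'.2.trans (lbm_ok hc hh h3)) ht'
    obtain ⟨c, c1, c2⟩ := h5 w w1
    exact ⟨c, c1, by rw [c2, w2], by rw [c2]; exact w3⟩
  | min3 a cs =>
    have hr' : cj (fullOK m tl (len ss) ss a cs) (Nat.ble 4 (lbm m (sd ss (vx a)))) = true := hr
    rw [cj_iff, Nat.ble_eq] at hr'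
    obtain ⟨h1, h2, h3, h4, h5⟩ := nm_full hc hh hs hn ht hO hr'.1
    refine ⟨h1, h2, ?_⟩
    rintro ⟨T, t1, t2, t3⟩
    rw [h4] at t2
    obtain ⟨w, w1, w2⟩ := hc.ce.min3 (hr'.2.trans (lbm_ok hc hh h3)) t1 t2
    obtain ⟨c, c1, c2⟩ := h5 w w1
    exact w2 (c2 ▸ t3 c c1)

end

end Pool.Agent.Lib.MP_bfaad3_co
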