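import Pool.Agent.Lib.MP_bfaad3_co.PM1

set_option autoImplicit false

/-! Operations on packed maps preserve the homomorphism property. -/

namespace Pool.Agent.Lib.MP_bfaad3_co

open Equiv

universe u

theorem p2_nx (m d i : ℕ) : (nx m d).testBit i = (decide (i < 15) && m.testBit (d + i)) := by
  show (m >>> d &&& (2 ^ 15 - 1)).testBit i = _
  rw [Nat.testBit_and, Nat.testBit_shiftRight, Nat.testBit_two_pow_sub_one, Bool.and_comm]

theorem p2_pv (m d i : ℕ) :
    (pv m d).testBit i = (decide (i < 15) && m.testBit (d + 15 + i)) := by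
  show (m >>> (d + 15) &&& (2 ^ 15 - 1)).testBit i = _
  rw [Nat.testBit_and, Nat.testBit_shiftRight, Nat.testBit_two_pow_sub_one, Bool.and_comm]

theorem p2_nx_congr {m m' d : ℕ} (H : ∀ i, i < 15 → m'.testBit (d + i) = m.testBit (d + i)) :
    nx m' d = nx m d := by
  refine Nat.eq_of_testBit_eq fun i => ?_
  rw [p2_nx, p2_nx]
  by_cases hi : i < 15
  · rw [H i hi]
  · simp [hi]

theorem p2_pv_congr {m m' d : ℕ}
    (H : ∀ i, i < 15 → m'.testBit (d + 15 + i) = m.testBit (d + 15 + i)) :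
    pv m' d = pv m d := by
  refine Nat.eq_of_testBit_eq fun i => ?_
  rw [p2_pv, p2_pv]
  by_cases hi : i < 15
  · rw [H i hi]
  · simp [hi]

theorem p2_hi {b n i : ℕ} (hb : b < 2 ^ n) (hi : n ≤ i) : b.testBit i = false :=
  Nat.testBit_lt_two_pow (lt_of_lt_of_le hb (Nat.pow_le_pow_right (by norm_num) hi))

theorem p2_TM (k : ℕ) : TM.testBit k = true ↔ 30 ≤ k ∧ k < 42 := by
  have h1 : TM = (2 ^ 12 - 1) <<< 30 := by decide
  rw [h1, Nat.testBit_shiftLeft, Nat.testBit_two_pow_sub_one]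
  simp only [ge_iff_le, Bool.and_eq_true, decide_eq_true_eq]
  omega

theorem p2_FM (k : ℕ) : FM.testBit k = true ↔ 42 ≤ k ∧ k < 45 := by
  have h1 : FM = (2 ^ 3 - 1) <<< 42 := by decide
  rw [h1, Nat.testBit_shiftLeft, Nat.testBit_two_pow_sub_one]
  simp only [ge_iff_le, Bool.and_eq_true, decide_eq_true_eq]
  omega

theorem p2_SALT (k : ℕ) : SALT.testBit k = true ↔ 45 ≤ k ∧ k < 63 := by
  have h1 : SALT = (2 ^ 18 - 1) <<< 45 := by decide
  rw [h1, Nat.testBit_shiftLeft, Nat.testBit_two_pow_sub_one]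
  simp only [ge_iff_le, Bool.and_eq_true, decide_eq_true_eq]
  omega

theorem p2_sy_sy (d : ℕ) : sy (sy d) = d := by
  show (d ^^^ 64) ^^^ 64 = d
  rw [Nat.xor_assoc, Nat.xor_self, Nat.xor_zero]

theorem p2_sy_even {d : ℕ} (hd : 128 ∣ d) : sy d = d + 64 := by
  obtain ⟨q, rfl⟩ := hd
  show (2 ^ 7 * q) ^^^ 64 = 2 ^ 7 * q + 64
  refine Nat.eq_of_testBit_eq fun j => ?_
  rw [Nat.testBit_xor, Nat.testBit_two_pow_mul_add q (by norm_num : 64 < 2 ^ 7),
    Nat.testBit_two_pow_mul]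
  by_cases hj : j < 7
  · have : ¬ (j ≥ 7) := by omega
    simp [hj, this]
  · have h1 : j ≥ 7 := by omega
    have h2 : Nat.testBit 64 j = false := p2_hi (n := 7) (by norm_num) h1
    simp [hj, h1, h2]

theorem p2_mul {a : ℕ} (ha : a < 2 ^ 64) (cm : ℕ) :
    (∀ j, cm.testBit j = true → 64 ∣ j) → ∀ i, (cm * a).testBit i = true →
      ∃ j k, cm.testBit j = true ∧ a.testBit k = true ∧ i = j + k := by
  induction cm using Nat.strong_induction_on with
  | _ cm ih =>
    intro hc i hi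
    rcases Nat.eq_zero_or_pos cm with rfl | hpos
    · simp at hi
    have hr : cm % 2 ^ 64 < 2 ^ 64 := Nat.mod_lt _ (by positivity)
    have hdec : cm = 2 ^ 64 * (cm / 2 ^ 64) + cm % 2 ^ 64 := (Nat.div_add_mod cm _).symm
    have hr1 : cm % 2 ^ 64 < 2 ^ 1 := by
      refine Nat.lt_pow_two_of_testBit _ fun j hj => ?_
      rw [Nat.testBit_mod_two_pow]
      by_cases h64 : j < 64
      · cases hb : cm.testBit j
        · simp
        · have := hc j hb
          omega
      · simp [h64]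
    have hq : ∀ j, (cm / 2 ^ 64).testBit j = cm.testBit (j + 64) := fun j => by
      rw [Nat.testBit_div_two_pow]
    have hlt : cm / 2 ^ 64 < cm := Nat.div_lt_self hpos (by norm_num)
    have hmul : cm * a = 2 ^ 64 * (cm / 2 ^ 64 * a) + cm % 2 ^ 64 * a := by
      conv_lhs => rw [hdec]
      ring
    have hra : cm % 2 ^ 64 * a < 2 ^ 64 := by
      have : cm % 2 ^ 64 * a ≤ 1 * a := Nat.mul_le_mul_right _ (by omega)
      omega
    rw [hmul, Nat.testBit_two_pow_mul_add _ hra] at hi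
    by_cases h64 : i < 64
    · rw [if_pos h64] at hi
      have h01 : cm % 2 ^ 64 = 0 ∨ cm % 2 ^ 64 = 1 := by omega
      rcases h01 with h0 | h1
      · rw [h0] at hi
        simp at hi
      · rw [h1, one_mul] at hi
        refine ⟨0, i, ?_, hi, by omega⟩
        have h2 : (cm % 2 ^ 64).testBit 0 = true := by rw [h1]; rfl
        rw [Nat.testBit_mod_two_pow] at h2
        simpa using h2
    · rw [if_neg h64] at hi
      obtain ⟨j, k, hj, hk, he⟩ := ih _ hlt (fun j hj => by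
        rw [hq] at hj
        have := hc _ hj
        omega) _ hi
      exact ⟨j + 64, k, by rw [← hq]; exact hj, hk, by omega⟩

section
variable {V : Type u} {G : SimpleGraph V} {L : V → Finset ℕ} {σ : Perm G.Dart}
  {A : Set G.Dart} {m nd : ℕ} {h : ℕ → G.Dart}

/-- exclusion bits, in cell position, that are correct for `e` -/
def P2C (L : V → Finset ℕ) (σ : Perm G.Dart) (A : Set G.Dart) (e : G.Dart) (t : ℕ) : Prop :=
  ∀ k, t.testBit k = true → 30 ≤ k ∧ k < 45 ∧ k ≠ 30 + ty L A e.fst ∧ k ≠ 42 + fc σ e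

/-- correct exclusion bits -/
def P2G (L : V → Finset ℕ) (σ : Perm G.Dart) (A : Set G.Dart) (nd : ℕ) (h : ℕ → G.Dart)
    (x : ℕ) : Prop :=
  ∀ i, x.testBit i = true → ∃ d k, Val nd d ∧ i = d + k ∧ 30 ≤ k ∧ k < 45 ∧
    k ≠ 30 + ty L A (h d).fst ∧ k ≠ 42 + fc σ (h d)

theorem P2C.or {e : G.Dart} {t f : ℕ} (ht : P2C L σ A e t) (hf : P2C L σ A e f) :
    P2C L σ A e (t ||| f) := by
  intro k hk
  rw [Nat.testBit_or, Bool.or_eq_true] at hk
  exact hk.elim (ht k) (hf k)

theorem P2G.or {x y : ℕ} (hx : P2G L σ A nd h x) (hy : P2G L σ A nd h y) :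
    P2G L σ A nd h (x ||| y) := by
  intro k hk
  rw [Nat.testBit_or, Bool.or_eq_true] at hk
  exact hk.elim (hx k) (hy k)

theorem P2C.shift {d t : ℕ} (hd : Val nd d) (ht : P2C L σ A (h d) t) :
    P2G L σ A nd h (t <<< d) := by
  intro i hi
  rw [Nat.testBit_shiftLeft, Bool.and_eq_true, decide_eq_true_eq] at hi
  exact ⟨d, i - d, hd, by omega, ht _ hi.2⟩

theorem p2_cT (hh : Hom L σ A m nd h) {a : ℕ} (ha : Val nd a) {e : G.Dart}
    (he : e.fst = (h a).fst) : P2C L σ A e (m >>> a &&& TM) := by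
  intro k hk
  rw [Nat.testBit_and, Bool.and_eq_true, p2_TM, Nat.testBit_shiftRight] at hk
  refine ⟨hk.2.1, by omega, ?_, by omega⟩
  rintro rfl
  rw [he, hh.ht a ha] at hk
  exact absurd hk.1 (by simp)

theorem p2_cF (hh : Hom L σ A m nd h) {a : ℕ} (ha : Val nd a) {e : G.Dart}
    (he : fc σ e = fc σ (h a)) : P2C L σ A e (m >>> a &&& FM) := by
  intro k hk
  rw [Nat.testBit_and, Bool.and_eq_true, p2_FM, Nat.testBit_shiftRight] at hk
  have := ty_lt (L := L) (A := A) e.fst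
  refine ⟨by omega, hk.2.2, by omega, ?_⟩
  rintro rfl
  rw [he, hh.hf a ha] at hk
  exact absurd hk.1 (by simp)

theorem p2_or_bit {x i : ℕ} (hx : x.testBit i = true → False) :
    (m ||| x).testBit i = m.testBit i := by
  rw [Nat.testBit_or]
  cases hb : x.testBit i
  · simp
  · exact (hx hb).elim

theorem p2_hom_or (hh : Hom L σ A m nd h) {x : ℕ} (hx : P2G L σ A nd h x) :
    Hom L σ A (m ||| x) nd h := by
  have hn : ∀ d, Val nd d → nx (m ||| x) d = nx m d := fun d hd =>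
    p2_nx_congr fun i hi => p2_or_bit fun hb => by
      obtain ⟨d', k, hd', he, h1, h2, -⟩ := hx _ hb
      have := hd.2.2
      have := hd'.2.2
      omega
  have hp : ∀ d, Val nd d → pv (m ||| x) d = pv m d := fun d hd =>
    p2_pv_congr fun i hi => p2_or_bit fun hb => by
      obtain ⟨d', k, hd', he, h1, h2, -⟩ := hx _ hb
      have := hd.2.2
      have := hd'.2.2
      omega
  refine ⟨hh.nd1, hh.nd2, hh.nd3, fun i hi => ?_, fun i hi => ⟨?_, ?_⟩, hh.sym,
    fun d hd => ?_, fun d hd => ?_, fun d hd => ?_, fun d hd => ?_⟩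
  · rw [p2_or_bit, hh.top i hi]
    intro hb
    obtain ⟨d', k, hd', he, h1, h2, -⟩ := hx _ hb
    have := hd'.2.2
    have := hd'.2.1
    have := hh.nd1
    omega
  · rw [p2_or_bit, (hh.nul i hi).1]
    intro hb
    obtain ⟨d', k, hd', he, h1, h2, -⟩ := hx _ hb
    have := hd'.1
    omega
  · rw [p2_or_bit, (hh.nul i hi).2]
    intro hb
    obtain ⟨d', k, hd', he, h1, h2, -⟩ := hx _ hb
    have := hd'.1
    omega
  · rw [hn d hd]; exact hh.hn d hd
  · rw [hp d hd]; exact hh.hp d hd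
  · rw [p2_or_bit, hh.ht d hd]
    intro hb
    obtain ⟨d', k, hd', he, h1, h2, h3, h4⟩ := hx _ hb
    have := hd.2.2
    have := hd'.2.2
    have := ty_lt (L := L) (A := A) (h d).fst
    have hdd : d' = d := by omega
    subst hdd
    omega
  · rw [p2_or_bit, hh.hf d hd]
    intro hb
    obtain ⟨d', k, hd', he, h1, h2, h3, h4⟩ := hx _ hb
    have := hd.2.2
    have := hd'.2.2
    have := fc_lt (σ := σ) (h d)
    have hdd : d' = d := by omega
    subst hdd
    omega

theorem p2_updN (hh : Hom L σ A m nd h) {a b : ℕ} (ha : Val nd a) (hb : Val nd b)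
    (hab : σ (h a) = h b) {m' : ℕ}
    (H1 : ∀ i, (i < a ∨ a + 15 ≤ i) → m'.testBit i = m.testBit i) (H2 : nx m' a = b) :
    Hom L σ A m' nd h := by
  have h1 := ha.1
  have h2 := ha.2.1
  have h3 := ha.2.2
  have h4 := hh.nd1
  refine ⟨hh.nd1, hh.nd2, hh.nd3, fun i hi => ?_, fun i hi => ⟨?_, ?_⟩, hh.sym,
    fun d hd => ?_, fun d hd => ?_, fun d hd => ?_, fun d hd => ?_⟩
  · rw [H1 i (by omega), hh.top i hi]
  · rw [H1 i (by omega), (hh.nul i hi).1]
  · rw [H1 _ (by omega), (hh.nul i hi).2]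
  · by_cases hda : d = a
    · subst hda
      rw [H2]
      exact Or.inr ⟨hb, hab.symm⟩
    · have := hd.2.2
      rw [p2_nx_congr (m := m) fun i hi => H1 _ (by omega)]
      exact hh.hn d hd
  · have := hd.2.2
    rw [p2_pv_congr (m := m) fun i hi => H1 _ (by omega)]
    exact hh.hp d hd
  · have := hd.2.2
    have := ty_lt (L := L) (A := A) (h d).fst
    rw [H1 _ (by omega), hh.ht d hd]
  · have := hd.2.2
    have := fc_lt (σ := σ) (h d)
    rw [H1 _ (by omega), hh.hf d hd]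

theorem p2_updP (hh : Hom L σ A m nd h) {a b : ℕ} (ha : Val nd a) (hb : Val nd b)
    (hab : σ (h a) = h b) {m' : ℕ}
    (H1 : ∀ i, (i < b + 15 ∨ b + 30 ≤ i) → m'.testBit i = m.testBit i) (H2 : pv m' b = a) :
    Hom L σ A m' nd h := by
  have h1 := hb.1
  have h2 := hb.2.1
  have h3 := hb.2.2
  have h4 := hh.nd1
  refine ⟨hh.nd1, hh.nd2, hh.nd3, fun i hi => ?_, fun i hi => ⟨?_, ?_⟩, hh.sym,
    fun d hd => ?_, fun d hd => ?_, fun d hd => ?_, fun d hd => ?_⟩
  · rw [H1 i (by omega), hh.top i hi]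
  · rw [H1 i (by omega), (hh.nul i hi).1]
  · rw [H1 _ (by omega), (hh.nul i hi).2]
  · have := hd.2.2
    rw [p2_nx_congr (m := m) fun i hi => H1 _ (by omega)]
    exact hh.hn d hd
  · by_cases hda : d = b
    · subst hda
      rw [H2]
      exact Or.inr ⟨ha, hab⟩
    · have := hd.2.2
      rw [p2_pv_congr (m := m) fun i hi => H1 _ (by omega)]
      exact hh.hp d hd
  · have := hd.2.2
    have := ty_lt (L := L) (A := A) (h d).fst
    rw [H1 _ (by omega), hh.ht d hd]
  · have := hd.2.2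
    have := fc_lt (σ := σ) (h d)
    rw [H1 _ (by omega), hh.hf d hd]

theorem p2_shl_bit {b s i : ℕ} (hb : b < 2 ^ 15) (hi : i < s ∨ s + 15 ≤ i) :
    (b <<< s).testBit i = false := by
  rw [Nat.testBit_shiftLeft]
  rcases hi with hi | hi
  · have : ¬ (i ≥ s) := by omega
    simp [this]
  · rw [p2_hi hb (by omega)]
    simp

theorem p2_val_lt (hh : Hom L σ A m nd h) {b : ℕ} (hb : Val nd b) : b < 2 ^ 15 := by
  have := hb.2.1
  have := hh.nd3
  omega

theorem p2_nx_lt (m a : ℕ) : nx m a < 2 ^ 15 :=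
  Nat.lt_pow_two_of_testBit _ fun i hi => by
    rw [p2_nx]
    have : ¬ (i < 15) := by omega
    simp [this]

theorem p2_pv_lt (m a : ℕ) : pv m a < 2 ^ 15 :=
  Nat.lt_pow_two_of_testBit _ fun i hi => by
    rw [p2_pv]
    have : ¬ (i < 15) := by omega
    simp [this]

theorem p2_hom_setN (hh : Hom L σ A m nd h) {a b : ℕ} (ha : Val nd a) (hb : Val nd b)
    (hab : σ (h a) = h b) : Hom L σ A (setN m a b) nd h := by
  have hb' := p2_val_lt hh hb
  refine p2_updN hh ha hb hab (fun i hi => ?_) ?_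
  · show (m ^^^ (nx m a ^^^ b) <<< a).testBit i = _
    rw [Nat.testBit_xor, p2_shl_bit (Nat.xor_lt_two_pow (p2_nx_lt m a) hb') hi, Bool.xor_false]
  · refine Nat.eq_of_testBit_eq fun i => ?_
    rw [p2_nx]
    show (_ && (m ^^^ (nx m a ^^^ b) <<< a).testBit (a + i)) = _
    rw [Nat.testBit_xor, Nat.testBit_shiftLeft, Nat.add_sub_cancel_left, Nat.testBit_xor, p2_nx]
    by_cases hi : i < 15
    · simp [hi]
    · rw [p2_hi hb' (by omega)]
      simp [hi]

theorem p2_hom_setP (hh : Hom L σ A m nd h) {a b : ℕ} (ha : Val nd a) (hb : Val nd b)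
    (hab : σ (h a) = h b) : Hom L σ A (setP m b a) nd h := by
  have ha' := p2_val_lt hh ha
  refine p2_updP hh ha hb hab (fun i hi => ?_) ?_
  · show (m ^^^ (pv m b ^^^ a) <<< (b + 15)).testBit i = _
    rw [Nat.testBit_xor, p2_shl_bit (Nat.xor_lt_two_pow (p2_pv_lt m b) ha') (by omega),
      Bool.xor_false]
  · refine Nat.eq_of_testBit_eq fun i => ?_
    rw [p2_pv]
    show (_ && (m ^^^ (pv m b ^^^ a) <<< (b + 15)).testBit (b + 15 + i)) = _
    rw [Nat.testBit_xor, Nat.testBit_shiftLeft, Nat.add_sub_cancel_left, Nat.testBit_xor, p2_pv]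
    by_cases hi : i < 15
    · simp [hi]
    · rw [p2_hi ha' (by omega)]
      simp [hi]

theorem p2_hom_setL (hh : Hom L σ A m nd h) {a b : ℕ} (ha : Val nd a) (hb : Val nd b)
    (hab : σ (h a) = h b) : Hom L σ A (setL m a b) nd h := by
  unfold setL
  rw [frc_eq]
  exact p2_hom_setP (p2_hom_setN hh ha hb hab) ha hb hab

theorem p2_hom_links (hh : Hom L σ A m nd h) {a b : ℕ} (ha : Val nd a) (hb : Val nd b)
    (h0 : nx m a = 0) (h1 : pv m b = 0) (hab : σ (h a) = h b) :
    Hom L σ A ((m ||| b <<< a) ||| a <<< (b + 15)) nd h := by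
  have ha' := p2_val_lt hh ha
  have hb' := p2_val_lt hh hb
  have hN : Hom L σ A (m ||| b <<< a) nd h := by
    refine p2_updN hh ha hb hab (fun i hi => ?_) ?_
    · rw [Nat.testBit_or, p2_shl_bit hb' hi, Bool.or_false]
    · refine Nat.eq_of_testBit_eq fun i => ?_
      have h2 := p2_nx m a i
      rw [h0, Nat.zero_testBit] at h2
      rw [p2_nx, Nat.testBit_or, Nat.testBit_shiftLeft, Nat.add_sub_cancel_left]
      by_cases hi : i < 15
      · simp only [hi, decide_true, Bool.true_and] at h2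
        simp [hi, ← h2]
      · rw [p2_hi hb' (by omega)]
        simp [hi]
  have hP : pv (m ||| b <<< a) b = 0 := by
    rw [← h1]
    refine p2_pv_congr fun i hi => ?_
    have := ha.2.2
    have := hb.2.2
    rw [Nat.testBit_or, p2_shl_bit hb' (by omega), Bool.or_false]
  refine p2_updP hN ha hb hab (fun i hi => ?_) ?_
  · rw [Nat.testBit_or (m ||| b <<< a), p2_shl_bit ha' (by omega), Bool.or_false]
  · refine Nat.eq_of_testBit_eq fun i => ?_
    have h2 := p2_pv (m ||| b <<< a) b i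
    rw [hP, Nat.zero_testBit] at h2
    rw [p2_pv, Nat.testBit_or (m ||| b <<< a), Nat.testBit_shiftLeft (a), Nat.add_sub_cancel_left]
    by_cases hi : i < 15
    · simp only [hi, decide_true, Bool.true_and] at h2
      simp [hi, ← h2]
    · rw [p2_hi ha' (by omega)]
      simp [hi]

theorem p2_ext (hh : Hom L σ A m nd h) (e : G.Dart) (hn : nd + 128 ≤ 32768) :
    ∃ h', Hom L σ A m (nd + 128) h' ∧ (∀ d, d < nd → h' d = h d) ∧ h' nd = e := by
  have h4 := hh.nd1
  have h5 := hh.nd2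
  have hv : ∀ d, Val nd d → Val (nd + 128) d := fun d hd => ⟨hd.1, by have := hd.2.1; omega, hd.2.2⟩
  have hv' : ∀ d, Val (nd + 128) d → d < nd → Val nd d := fun d hd hlt => ⟨hd.1, hlt, hd.2.2⟩
  have hs1 : sy nd = nd + 64 := p2_sy_even h4
  have hs2 : sy (nd + 64) = nd := by rw [← hs1, p2_sy_sy]
  obtain ⟨h', e1, e2, e3⟩ : ∃ h' : ℕ → G.Dart, (∀ d, d < nd → h' d = h d) ∧ h' nd = e ∧
      h' (nd + 64) = e.symm :=
    ⟨fun d => if d < nd then h d else if d = nd then e else e.symm, fun d hd => by simp [hd],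
      by simp, by simp⟩
  refine ⟨h', ⟨by omega, by omega, hn, fun i hi => hh.top i (by omega), hh.nul, fun d hd => ?_,
    fun d hd => ?_, fun d hd => ?_, fun d hd => ?_, fun d hd => ?_⟩, e1, e2⟩
  · by_cases hlt : d < nd
    · have h1 := hv' d hd hlt
      rw [e1 d hlt, e1 _ (hh.val_sy h1).2.1, hh.sym d h1]
    · have := hd.2.1
      have := hd.2.2
      have h2 : d = nd ∨ d = nd + 64 := by omega
      rcases h2 with rfl | rfl
      · rw [hs1, e2, e3]
      · rw [hs2, e2, e3, SimpleGraph.Dart.symm_symm]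
  · by_cases hlt : d < nd
    · rcases hh.hn d (hv' d hd hlt) with h0 | ⟨h1, h2⟩
      · exact Or.inl h0
      · exact Or.inr ⟨hv _ h1, by rw [e1 d hlt, e1 _ h1.2.1, h2]⟩
    · refine Or.inl (Nat.eq_of_testBit_eq fun i => ?_)
      rw [p2_nx, hh.top _ (by omega)]
      simp
  · by_cases hlt : d < nd
    · rcases hh.hp d (hv' d hd hlt) with h0 | ⟨h1, h2⟩
      · exact Or.inl h0
      · exact Or.inr ⟨hv _ h1, by rw [e1 d hlt, e1 _ h1.2.1, h2]⟩
    · refine Or.inl (Nat.eq_of_testBit_eq fun i => ?_)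
      rw [p2_pv, hh.top _ (by omega)]
      simp
  · by_cases hlt : d < nd
    · rw [e1 d hlt]
      exact hh.ht d (hv' d hd hlt)
    · exact hh.top _ (by omega)
  · by_cases hlt : d < nd
    · rw [e1 d hlt]
      exact hh.hf d (hv' d hd hlt)
    · exact hh.top _ (by omega)

theorem p2_rp (hh : Hom L σ A m nd h) {d : ℕ} {e : G.Dart} (r : Rp nd h d e)
    (h0 : nx m d ≠ 0) : Val nd d ∧ h d = e := by
  rcases r with rfl | rfl | r
  · refine (h0 (Nat.eq_of_testBit_eq fun i => ?_)).elim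
    rw [p2_nx, Nat.zero_testBit]
    by_cases hi : i < 15
    · rw [Nat.zero_add, (hh.nul i (by omega)).1, Bool.and_false]
    · simp [hi]
  · refine (h0 (Nat.eq_of_testBit_eq fun i => ?_)).elim
    rw [p2_nx, Nat.zero_testBit]
    by_cases hi : i < 15
    · rw [(hh.nul i (by omega)).2, Bool.and_false]
    · simp [hi]
  · exact r

theorem p2_hom_cpM (hh : Hom L σ A m nd h) {s y : ℕ} (hs : Val nd s) (hy : Val nd y)
    (he : h s = h y) : Hom L σ A (cpM m s y) nd h := by
  have h1 : cpM m s y = m ||| ((m >>> y &&& TM) ||| (m >>> y &&& FM)) <<< s := by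
    show m ||| (m >>> y &&& (TM ||| FM)) <<< s = _
    rw [Nat.and_or_distrib_left]
  rw [h1]
  exact p2_hom_or hh (P2C.shift hs ((p2_cT hh hy (by rw [he])).or (p2_cF hh hy (by rw [he]))))

/-- all set bits are darts with property `P` -/
def P2M (nd : ℕ) (P : ℕ → Prop) (x : ℕ) : Prop :=
  ∀ j, x.testBit j = true → Val nd j ∧ P j

theorem P2M.one {P : ℕ → Prop} {d : ℕ} (hd : Val nd d) (hp : P d) :
    P2M nd P (Nat.shiftLeft 1 d) := by
  intro j hj
  have h1 : Nat.shiftLeft 1 d = 2 ^ d := Nat.one_shiftLeft d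
  rw [h1, Nat.testBit_two_pow, decide_eq_true_eq] at hj
  subst hj
  exact ⟨hd, hp⟩

theorem P2M.add {P : ℕ → Prop} {d x : ℕ} (hx : P2M nd P x) (hd : Val nd d) (hp : P d) :
    P2M nd P (Nat.lor x (Nat.shiftLeft 1 d)) := by
  intro j hj
  have h1 : Nat.lor x (Nat.shiftLeft 1 d) = x ||| Nat.shiftLeft 1 d := rfl
  rw [h1, Nat.testBit_or, Bool.or_eq_true] at hj
  exact hj.elim (hx j) (P2M.one hd hp j)

theorem p2_cmVP (hh : Hom L σ A m nd h) {P : ℕ → Prop}
    (hP : ∀ x y, σ (h x) = h y → P y → P x) (fuel : ℕ) :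
    ∀ cur acc, Val nd cur → P cur → P2M nd P acc → P2M nd P (cmVP m fuel cur acc) := by
  induction fuel with
  | zero => intro cur acc _ _ ha; exact ha
  | succ n ih =>
    intro cur acc hc hp ha
    have h1 : cmVP m (n + 1) cur acc = frc (pv m cur) fun x =>
        sel (Nat.beq x 0) acc (cmVP m n x (Nat.lor acc (Nat.shiftLeft 1 x))) := rfl
    rw [h1, frc_eq, sel_eq]
    split_ifs with h0
    · exact ha
    · rcases hh.hp cur hc with h2 | ⟨h2, h3⟩
      · rw [h2] at h0
        exact (h0 rfl).elim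
      · have h4 := hP _ _ h3 hp
        exact ih _ _ h2 h4 (ha.add h2 h4)

theorem p2_cmFP (hh : Hom L σ A m nd h) {P : ℕ → Prop}
    (hP : ∀ x y, σ (h x).symm = h y → P y → P x) (fuel : ℕ) :
    ∀ cur acc, Val nd cur → P cur → P2M nd P acc → P2M nd P (cmFP m fuel cur acc) := by
  induction fuel with
  | zero => intro cur acc _ _ ha; exact ha
  | succ n ih =>
    intro cur acc hc hp ha
    have h1 : cmFP m (n + 1) cur acc = frc (pv m cur) fun x =>
        sel (Nat.beq x 0) acc (cmFP m n (sy x) (Nat.lor acc (Nat.shiftLeft 1 (sy x)))) := rfl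
    rw [h1, frc_eq, sel_eq]
    split_ifs with h0
    · exact ha
    · rcases hh.hp cur hc with h2 | ⟨h2, h3⟩
      · rw [h2] at h0
        exact (h0 rfl).elim
      · have h4 : P (sy (pv m cur)) :=
          hP _ _ (by rw [hh.sym _ h2, SimpleGraph.Dart.symm_symm, h3]) hp
        exact ih _ _ (hh.val_sy h2) h4 (ha.add (hh.val_sy h2) h4)

/-- the forward loop of `cmV` -/
noncomputable def p2V (m d fuel : ℕ) : ℕ → ℕ → ℕ :=
  Nat.rec (motive := fun _ => ℕ → ℕ → ℕ) (fun _ acc => acc) (fun _ ih cur acc =>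
    frc (nx m cur) fun x => sel (Nat.beq x 0) (cmVP m 12 d acc)
      (sel (Nat.beq x d) acc (ih x (Nat.lor acc (Nat.shiftLeft 1 x))))) fuel

/-- the forward loop of `cmF` -/
noncomputable def p2F (m d fuel : ℕ) : ℕ → ℕ → ℕ :=
  Nat.rec (motive := fun _ => ℕ → ℕ → ℕ) (fun _ acc => acc) (fun _ ih cur acc =>
    frc (nx m (sy cur)) fun x => sel (Nat.beq x 0) (cmFP m 20 d acc)
      (sel (Nat.beq x d) acc (ih x (Nat.lor acc (Nat.shiftLeft 1 x))))) fuel

theorem p2_cmV (hh : Hom L σ A m nd h) {P : ℕ → Prop}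
    (hP : ∀ x y, σ (h x) = h y → (P y ↔ P x)) {d : ℕ} (hd : Val nd d) (hpd : P d) :
    P2M nd P (cmV m d) := by
  have key : ∀ fuel cur acc, Val nd cur → P cur → P2M nd P acc →
      P2M nd P (p2V m d fuel cur acc) := by
    intro fuel
    induction fuel with
    | zero => intro cur acc _ _ ha; exact ha
    | succ n ih =>
      intro cur acc hc hp ha
      have h1 : p2V m d (n + 1) cur acc = frc (nx m cur) fun x =>
          sel (Nat.beq x 0) (cmVP m 12 d acc)
            (sel (Nat.beq x d) acc (p2V m d n x (Nat.lor acc (Nat.shiftLeft 1 x)))) := rfl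
      rw [h1, frc_eq, sel_eq, sel_eq]
      split_ifs with h0 h5
      · exact p2_cmVP hh (fun x y hxy => (hP x y hxy).1) 12 d acc hd hpd ha
      · exact ha
      · rcases hh.hn cur hc with h2 | ⟨h2, h3⟩
        · rw [h2] at h0
          exact (h0 rfl).elim
        · have h4 := (hP _ _ h3.symm).2 hp
          exact ih _ _ h2 h4 (ha.add h2 h4)
  exact key 12 d _ hd hpd (P2M.one hd hpd)

theorem p2_cmF (hh : Hom L σ A m nd h) {P : ℕ → Prop}
    (hP : ∀ x y, σ (h x).symm = h y → (P y ↔ P x)) {d : ℕ} (hd : Val nd d) (hpd : P d) :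
    P2M nd P (cmF m d) := by
  have key : ∀ fuel cur acc, Val nd cur → P cur → P2M nd P acc →
      P2M nd P (p2F m d fuel cur acc) := by
    intro fuel
    induction fuel with
    | zero => intro cur acc _ _ ha; exact ha
    | succ n ih =>
      intro cur acc hc hp ha
      have h1 : p2F m d (n + 1) cur acc = frc (nx m (sy cur)) fun x =>
          sel (Nat.beq x 0) (cmFP m 20 d acc)
            (sel (Nat.beq x d) acc (p2F m d n x (Nat.lor acc (Nat.shiftLeft 1 x)))) := rfl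
      rw [h1, frc_eq, sel_eq, sel_eq]
      split_ifs with h0 h5
      · exact p2_cmFP hh (fun x y hxy => (hP x y hxy).1) 20 d acc hd hpd ha
      · exact ha
      · rcases hh.hn _ (hh.val_sy hc) with h2 | ⟨h2, h3⟩
        · rw [h2] at h0
          exact (h0 rfl).elim
        · have h4 := (hP cur _ (by rw [h3, hh.sym _ hc])).2 hp
          exact ih _ _ h2 h4 (ha.add h2 h4)
  exact key 20 d _ hd hpd (P2M.one hd hpd)

theorem p2_hom_mul (hh : Hom L σ A m nd h) {cm a : ℕ} (ha : ∀ i, a.testBit i = true → i < 64)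
    (hcm : P2M nd (fun j => P2C L σ A (h j) a) cm) :
    Hom L σ A (Nat.lor m (Nat.mul cm a)) nd h := by
  refine p2_hom_or hh fun i hi => ?_
  have ha' : a < 2 ^ 64 := Nat.lt_pow_two_of_testBit _ fun j hj => by
    cases hb : a.testBit j
    · rfl
    · have := ha j hb
      omega
  obtain ⟨j, k, hj, hk, he⟩ := p2_mul ha' cm (fun j hj => (hcm j hj).1.2.2) i hi
  exact ⟨j, k, (hcm j hj).1, he, (hcm j hj).2 k hk⟩

end

section
variable {V : Type u} [Fintype V] {G : SimpleGraph V} {L : V → Finset ℕ} {σ : Perm G.Dart}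
  {A : Set G.Dart} {m nd : ℕ} {h : ℕ → G.Dart}

theorem p2_fc_phi (σ : Perm G.Dart) (e : G.Dart) : fc σ (σ e.symm) = fc σ e := by
  classical
  have h1 : flen σ (phi σ e) = flen σ e :=
    Function.minimalPeriod_apply ((phi σ).injective.mem_periodicPts e)
  unfold fc
  rw [← bas_phi, h1]

theorem hom_salt (hh : Hom L σ A m nd h) (x : ℕ) :
    Hom L σ A (Nat.xor m (Nat.land x SALT)) nd h := by
  have H : ∀ i, (i < 45 ∨ 63 ≤ i) → (Nat.xor m (Nat.land x SALT)).testBit i = m.testBit i := by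
    intro i hi
    show (m ^^^ (x &&& SALT)).testBit i = _
    have h1 : SALT.testBit i = false := by
      cases hb : SALT.testBit i
      · rfl
      · have := (p2_SALT i).1 hb
        omega
    rw [Nat.testBit_xor, Nat.testBit_and, h1, Bool.and_false, Bool.xor_false]
  have h2 := hh.nd2
  refine ⟨hh.nd1, hh.nd2, hh.nd3, fun i hi => ?_, fun i hi => ⟨?_, ?_⟩, hh.sym,
    fun d hd => ?_, fun d hd => ?_, fun d hd => ?_, fun d hd => ?_⟩
  · rw [H i (by omega), hh.top i hi]
  · rw [H i (by omega), (hh.nul i hi).1]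
  · rw [H _ (by omega), (hh.nul i hi).2]
  · have := hd.1
    rw [p2_nx_congr (m := m) fun i hi => H _ (by omega)]
    exact hh.hn d hd
  · have := hd.1
    rw [p2_pv_congr (m := m) fun i hi => H _ (by omega)]
    exact hh.hp d hd
  · have := hd.1
    rw [H _ (by omega), hh.ht d hd]
  · have := hd.1
    rw [H _ (by omega), hh.hf d hd]

theorem hom_orV (hc : Ctx G L σ A) (hh : Hom L σ A m nd h) {d a : ℕ} (hd : Val nd d)
    (ha : ∀ i, a.testBit i = true → 30 ≤ i ∧ i < 42)
    (ht : a.testBit (30 + ty L A (h d).fst) = false) :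
    Hom L σ A (Nat.lor m (Nat.mul (cmV m d) a)) nd h := by
  have h1 := p2_cmV hh (P := fun j => (h j).fst = (h d).fst)
    (fun x y hxy => by rw [← hxy, hc.ce.rot.1]) hd rfl
  refine p2_hom_mul hh (fun i hi => by have := ha i hi; omega) fun j hj => ⟨(h1 j hj).1, ?_⟩
  intro k hk
  have h2 := ha k hk
  refine ⟨h2.1, by omega, ?_, by omega⟩
  rintro rfl
  rw [(h1 j hj).2, ht] at hk
  exact absurd hk (by simp)

theorem hom_orF (hc : Ctx G L σ A) (hh : Hom L σ A m nd h) {d a : ℕ} (hd : Val nd d)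
    (ha : ∀ i, a.testBit i = true → 42 ≤ i ∧ i < 45)
    (ht : a.testBit (42 + fc σ (h d)) = false) :
    Hom L σ A (Nat.lor m (Nat.mul (cmF m d) a)) nd h := by
  have _ := hc
  have h1 := p2_cmF hh (P := fun j => fc σ (h j) = fc σ (h d))
    (fun x y hxy => by rw [← hxy, p2_fc_phi]) hd rfl
  refine p2_hom_mul hh (fun i hi => by have := ha i hi; omega) fun j hj => ⟨(h1 j hj).1, ?_⟩
  intro k hk
  have h2 := ha k hk
  have h3 := ty_lt (L := L) (A := A) (h j).fst
  refine ⟨by omega, h2.2, by omega, ?_⟩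
  rintro rfl
  rw [(h1 j hj).2, ht] at hk
  exact absurd hk (by simp)

theorem hom_newA (hc : Ctx G L σ A) (hh : Hom L σ A m nd h) {a : ℕ} (ha : Val nd a)
    (h0 : nx m a = 0) (hn : nd + 128 ≤ 32768) :
    ∃ h', Hom L σ A (newA m nd a) (nd + 128) h' ∧ (∀ d, d < nd → h' d = h d) ∧
      h' nd = σ (h a) := by
  obtain ⟨h', hh', e1, e2⟩ := p2_ext hh (σ (h a)) hn
  refine ⟨h', ?_, e1, e2⟩
  have h4 := hh.nd1
  have h5 := hh.nd2
  have ha' : Val (nd + 128) a := ⟨ha.1, by have := ha.2.1; omega, ha.2.2⟩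
  have hb' : Val (nd + 128) nd := ⟨by omega, by omega, by omega⟩
  have h1 : pv m nd = 0 := Nat.eq_of_testBit_eq fun i => by
    rw [p2_pv, hh.top _ (by omega)]
    simp
  have h2 := p2_hom_links hh' ha' hb' h0 h1 (by rw [e1 a ha.2.1, e2])
  have h3 : newA m nd a = ((m ||| nd <<< a) ||| a <<< (nd + 15)) |||
      ((m >>> a &&& TM) ||| (m >>> sy a &&& FM)) <<< nd := by
    show m ||| (nd <<< a ||| (a <<< 15 ||| ((m >>> a &&& TM) ||| (m >>> sy a &&& FM))) <<< nd) = _
    rw [Nat.shiftLeft_or_distrib (a := a <<< 15), ← Nat.shiftLeft_add, Nat.add_comm 15 nd,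
      Nat.or_assoc, Nat.or_assoc]
  rw [h3]
  refine p2_hom_or h2 (P2C.shift hb' ((p2_cT hh ha ?_).or (p2_cF hh (hh.val_sy ha) ?_)))
  · rw [e2, hc.ce.rot.1]
  · rw [e2, hh.sym a ha, ← p2_fc_phi σ (h a).symm, SimpleGraph.Dart.symm_symm]

theorem hom_link (hc : Ctx G L σ A) (hh : Hom L σ A m nd h) {a b : ℕ} (ha : Val nd a)
    (hb : Val nd b) (h0 : nx m a = 0) (h1 : pv m b = 0) (hab : σ (h a) = h b) :
    Hom L σ A (link m a b) nd h := by
  have h2 := p2_hom_links hh ha hb h0 h1 hab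
  have h3 : ∀ t f, link' m a b t f = ((m ||| b <<< a) ||| a <<< (b + 15)) |||
      (t <<< a ||| ((t ||| f) <<< b ||| f <<< sy a)) := by
    intro t f
    show m ||| ((b ||| t) <<< a ||| ((a <<< 15 ||| (t ||| f)) <<< b ||| f <<< sy a)) = _
    rw [Nat.shiftLeft_or_distrib (a := a <<< 15), ← Nat.shiftLeft_add, Nat.add_comm 15 b,
      Nat.shiftLeft_or_distrib (a := b)]
    ac_rfl
  have h4 : link m a b = link' m a b ((m >>> a &&& TM) ||| (m >>> b &&& TM))
      ((m >>> sy a &&& FM) ||| (m >>> b &&& FM)) := by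
    show link' m a b ((m >>> a ||| m >>> b) &&& TM) ((m >>> sy a ||| m >>> b) &&& FM) = _
    rw [Nat.and_or_distrib_right, Nat.and_or_distrib_right]
  have h5 : (h b).fst = (h a).fst := by rw [← hab, hc.ce.rot.1]
  have h6 : fc σ (h b) = fc σ (h (sy a)) := by
    rw [← hab, hh.sym a ha, ← p2_fc_phi σ (h a).symm, SimpleGraph.Dart.symm_symm]
  have hs := hh.val_sy ha
  rw [h4, h3]
  exact p2_hom_or h2 ((P2C.shift ha ((p2_cT hh ha rfl).or (p2_cT hh hb h5.symm))).or
    ((P2C.shift hb (((p2_cT hh ha h5).or (p2_cT hh hb rfl)).or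
      ((p2_cF hh hs h6).or (p2_cF hh hb rfl)))).or
      (P2C.shift hs ((p2_cF hh hs rfl).or (p2_cF hh hb h6.symm)))))

theorem p2_grow (hc : Ctx G L σ A) {x s : ℕ} (ρ : Perm G.Dart)
    (hx : ∀ m nd h d, Hom L σ A m nd h → Val nd d →
      Val nd (Nat.xor d x) ∧ σ (h (Nat.xor d x)) = ρ (h d))
    {K : ℕ → ℕ → Bool} (k : ℕ) :
    ∀ m nd h cur, Hom L σ A m nd h → Val nd s → Val nd cur → nd + 128 * k ≤ 32768 →
      (ρ ^ (k + 1)) (h cur) = h s → grow x s K k m nd cur = true →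
      ∃ m' nd' h', K m' nd' = true ∧ Hom L σ A m' nd' h' ∧ h' 128 = h 128 := by
  induction k with
  | zero =>
    intro m nd h cur hh hs hcur hn he hk
    have h1 : grow x s K 0 m nd cur = frc (Nat.xor cur x) fun a =>
        cj (Nat.beq (Nat.lor (nx m a) (pv m s)) 0) (frc (link m a s) fun m' => K m' nd) := rfl
    rw [h1, frc_eq, cj_iff, frc_eq] at hk
    obtain ⟨h2, h3⟩ := hx m nd h cur hh hcur
    have h4 : nx m (Nat.xor cur x) ||| pv m s = 0 := Nat.eq_of_beq_eq_true hk.1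
    rw [Nat.or_eq_zero_iff] at h4
    refine ⟨_, nd, h, hk.2, hom_link hc hh h2 hs h4.1 h4.2 ?_, rfl⟩
    rw [h3, ← he, zero_add, pow_one]
  | succ k ih =>
    intro m nd h cur hh hs hcur hn he hk
    have h1 : grow x s K (k + 1) m nd cur = frc (Nat.xor cur x) fun a => frc (nx m a) fun y =>
        sel (Nat.beq y 0)
          (frc (newA m nd a) fun m' => frc (Nat.add nd 128) fun nd' => grow x s K k m' nd' nd)
          (grow x s K k m nd y) := rfl
    rw [h1, frc_eq, frc_eq, sel_eq, frc_eq, frc_eq] at hk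
    obtain ⟨h2, h3⟩ := hx m nd h cur hh hcur
    rw [pow_succ, Perm.mul_apply, ← h3] at he
    split_ifs at hk with h0
    · have h4 : nx m (Nat.xor cur x) = 0 := Nat.eq_of_beq_eq_true h0
      obtain ⟨h', hh', e1, e2⟩ := hom_newA hc hh h2 h4 (by omega)
      have h5 := hh.nd1
      have h6 := hh.nd2
      obtain ⟨m'', nd'', h'', h7, h8, h9⟩ := ih _ _ h' nd hh'
        ⟨hs.1, by have := hs.2.1; omega, hs.2.2⟩ ⟨by omega, by omega, by omega⟩ (by omega)
        (by rw [e2, e1 s hs.2.1, he]) hk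
      exact ⟨m'', nd'', h'', h7, h8, by rw [h9, e1 128 (by omega)]⟩
    · rcases hh.hn _ h2 with h4 | ⟨h4, h5⟩
      · rw [h4] at h0
        exact (h0 rfl).elim
      · exact ih m nd h _ hh hs h4 (by omega) (by rw [h5, he]) hk

omit [Fintype V] in
theorem p2_ty_dg (v : V) :
    (ty L A v = 0 → dg G v = 3) ∧ ((ty L A v = 1 ∨ ty L A v = 3) → dg G v = 4) ∧
    ((ty L A v = 2 ∨ ty L A v = 4 ∨ ty L A v = 5) → dg G v = 5) ∧
    (ty L A v = 11 → dg G v = 6) := by
  refine ⟨fun h1 => ?_, fun h1 => ?_, fun h1 => ?_, fun h1 => ?_⟩ <;> unfold ty at h1 <;>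
    split_ifs at h1 <;> first | omega | simp at h1

omit [Fintype V] in
theorem p2_dg_ty (v : V) :
    (dg G v = 3 → ty L A v = 0 ∨ ty L A v = 9 ∨ ty L A v = 10) ∧
    (dg G v = 4 → ty L A v = 1 ∨ ty L A v = 3 ∨ ty L A v = 9 ∨ ty L A v = 10) ∧
    (dg G v = 5 → ty L A v = 2 ∨ ty L A v = 4 ∨ ty L A v = 5 ∨ ty L A v = 9 ∨ ty L A v = 10) := by
  refine ⟨fun h1 => ?_, fun h1 => ?_, fun h1 => ?_⟩ <;> unfold ty <;> split_ifs <;> omega

theorem p2_degM : ∀ t, t < 12 → ((degM 0).testBit (30 + t) = false → t = 0) ∧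
    ((degM 1).testBit (30 + t) = false → t = 1 ∨ t = 3) ∧
    ((degM 2).testBit (30 + t) = false → t = 2 ∨ t = 4 ∨ t = 5) ∧
    ((degM 3).testBit (30 + t) = false → t = 11) := by
  have h0 : degM 0 = 4395899027456 := rfl
  have h1 : degM 1 = 4386235351040 := rfl
  have h2 : degM 2 = 4341138194432 := rfl
  have h3 : degM 3 = 2197949513728 := rfl
  rw [h0, h1, h2, h3]
  decide

theorem p2_lenM : ∀ t, t < 3 → ((lenM 0).testBit (42 + t) = false → t = 0) ∧
    ((lenM 1).testBit (42 + t) = false → t = 1) := by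
  have h0 : lenM 0 = 26388279066624 := rfl
  have h1 : lenM 1 = 21990232555520 := rfl
  rw [h0, h1]
  decide

omit [Fintype V] in
theorem p2_dg_eq (hh : Hom L σ A m nd h) {s j : ℕ} (hs : Val nd s) (hj : j < 4)
    (hd : sb (degM j) (Nat.shiftRight m s) = true) : dg G (h s).fst = j + 3 := by
  have h1 : (degM j).testBit (30 + ty L A (h s).fst) = false := by
    cases hb : (degM j).testBit (30 + ty L A (h s).fst)
    · rfl
    · have h2 := (sb_iff _ _).1 hd _ hb
      rw [Rp.bitT hh (Or.inr (Or.inr ⟨hs, rfl⟩))] at h2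
      exact absurd h2 (by simp)
  obtain ⟨a0, a1, a2, a3⟩ := p2_degM _ (ty_lt (L := L) (A := A) (h s).fst)
  obtain ⟨b0, b1, b2, b3⟩ := p2_ty_dg (L := L) (A := A) (h s).fst
  interval_cases j
  · exact b0 (a0 h1)
  · exact b1 (a1 h1)
  · exact b2 (a2 h1)
  · exact b3 (a3 h1)

omit [Fintype V] in
theorem p2_flen_eq (hh : Hom L σ A m nd h) {s j : ℕ} (hs : Val nd s) (hj : j < 2)
    (hd : sb (lenM j) (Nat.shiftRight m s) = true) : flen σ (h s) = j + 4 := by
  have h1 : (lenM j).testBit (42 + fc σ (h s)) = false := by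
    cases hb : (lenM j).testBit (42 + fc σ (h s))
    · rfl
    · have h2 := (sb_iff _ _).1 hd _ hb
      rw [Rp.bitF hh (Or.inr (Or.inr ⟨hs, rfl⟩))] at h2
      exact absurd h2 (by simp)
  obtain ⟨a0, a1⟩ := p2_lenM _ (fc_lt (σ := σ) (h s))
  interval_cases j
  · have h2 := a0 h1
    unfold fc at h2
    split_ifs at h2 <;> omega
  · have h2 := a1 h1
    unfold fc at h2
    split_ifs at h2 <;> omega

omit [Fintype V] in
theorem p2_pow_per (p : Perm G.Dart) (e : G.Dart) : (p ^ Function.minimalPeriod p e) e = e := by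
  have h1 := bas_per p e 0
  rwa [zero_add, pow_zero] at h1

theorem hom_growV (hc : Ctx G L σ A) (hh : Hom L σ A m nd h) {s j : ℕ} (hs : Val nd s)
    (hj : j < 4) (hn : nd ≤ 32000) (hd : sb (degM j) (Nat.shiftRight m s) = true)
    {K : ℕ → ℕ → Bool} (hk : grow 0 s K (Nat.add j 2) m nd s = true) :
    ∃ m' nd' h', K m' nd' = true ∧ Hom L σ A m' nd' h' ∧ h' 128 = h 128 := by
  have h1 := p2_dg_eq hh hs hj hd
  rw [← period_eq_dg hc.ce.rot] at h1
  refine p2_grow hc σ (fun m nd h d _ hd => ?_) (j + 2) m nd h s hh hs hs (by omega) ?_ hk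
  · have h2 : Nat.xor d 0 = d := Nat.xor_zero d
    rw [h2]
    exact ⟨hd, rfl⟩
  · have h2 := p2_pow_per σ (h s)
    rwa [h1] at h2

theorem hom_growF (hc : Ctx G L σ A) (hh : Hom L σ A m nd h) {s j : ℕ} (hs : Val nd s)
    (hj : j < 2) (hn : nd ≤ 32000) (hd : sb (lenM j) (Nat.shiftRight m s) = true)
    {K : ℕ → ℕ → Bool} (hk : grow 64 s K (Nat.add j 3) m nd s = true) :
    ∃ m' nd' h', K m' nd' = true ∧ Hom L σ A m' nd' h' ∧ h' 128 = h 128 := by
  have h1 : Function.minimalPeriod (phi σ) (h s) = j + 4 := p2_flen_eq hh hs hj hd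
  refine p2_grow hc (phi σ) (fun m nd h d hh hd => ?_) (j + 3) m nd h s hh hs hs (by omega) ?_ hk
  · exact ⟨hh.val_sy hd, by rw [bas_phi, ← hh.sym d hd]; rfl⟩
  · have h2 := p2_pow_per (phi σ) (h s)
    rwa [h1] at h2

omit [Fintype V] in
theorem p2_zip (hh : Hom L σ A m nd h) {s a y : ℕ} (hs : Val nd s) (ha : Val nd a)
    (hy : Val nd y) (h1 : σ (h a) = h s) (h2 : h s = h y) : Hom L σ A (zip m s a y) nd h := by
  unfold zip
  rw [frc_eq, frc_eq, frc_eq, frc_eq]
  have hs' := hh.val_sy hs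
  have hy' := hh.val_sy hy
  have h3 : h (sy s) = h (sy y) := by rw [hh.sym s hs, hh.sym y hy, h2]
  have H3 := p2_hom_cpM (p2_hom_cpM (p2_hom_setL hh ha hs h1) hs hy h2) hs' hy' h3
  generalize cpM (cpM (setL m a s) s y) (sy s) (sy y) = m3 at H3 ⊢
  have H4 : Hom L σ A (sel (cj (Nat.beq (nx m3 s) 0) (Nat.ble 128 (nx m3 y)))
      (setL m3 s (nx m3 y)) m3) nd h := by
    rw [sel_eq]
    split_ifs with h0
    · have h4 := Nat.le_of_ble_eq_true ((cj_iff _ _).1 h0).2
      rcases H3.hn y hy with h5 | ⟨h5, h6⟩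
      · omega
      · exact p2_hom_setL H3 hs h5 (by rw [h6, h2])
    · exact H3
  generalize sel (cj (Nat.beq (nx m3 s) 0) (Nat.ble 128 (nx m3 y)))
      (setL m3 s (nx m3 y)) m3 = m4 at H4 ⊢
  rw [sel_eq]
  split_ifs with h0
  · have h4 := Nat.le_of_ble_eq_true ((cj_iff _ _).1 h0).2
    rcases H4.hp _ hy' with h5 | ⟨h5, h6⟩
    · omega
    · exact p2_hom_setL H4 h5 hs' (by rw [h6, h3])
  · exact H4

theorem hom_zip (hc : Ctx G L σ A) (hh : Hom L σ A m nd h) {d j : ℕ} (hd : Val nd d)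
    (hj : j < 2) (hl : sb (lenM j) (Nat.shiftRight m d) = true)
    (hy : 128 ≤ nx m (sy (stepF m (Nat.add j 3) d))) :
    Hom L σ A (zip m d (sy (stepF m (Nat.add j 3) d)) (nx m (sy (stepF m (Nat.add j 3) d)))) nd h := by
  have _ := hc
  have h1 : Function.minimalPeriod (phi σ) (h d) = j + 4 := p2_flen_eq hh hd hj hl
  have h2 := p2_pow_per (phi σ) (h d)
  rw [h1, show j + 4 = (j + 3) + 1 from rfl, bas_succ, bas_phi] at h2
  have r := Rp.sy hh (Rp.stepF hh (Nat.add j 3) (d := d) (e := h d) (Or.inr (Or.inr ⟨hd, rfl⟩)))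
  obtain ⟨ha, he⟩ := p2_rp hh r (by omega)
  have h3 : σ (h (sy (stepF m (Nat.add j 3) d))) = h d := by rw [he]; exact h2
  rcases hh.hn _ ha with h4 | ⟨h4, h5⟩
  · omega
  · exact p2_zip hh hd ha h4 h3 (by rw [h5, h3])

omit [Fintype V] in
theorem p2_dvd (p : Perm G.Dart) {e : G.Dart} {k : ℕ} (hk : (p ^ k) e = e) :
    Function.minimalPeriod p e ∣ k := by
  refine Function.IsPeriodicPt.minimalPeriod_dvd ?_
  show (⇑p)^[k] e = e
  rw [← Perm.coe_pow]
  exact hk

theorem rotM_ok (hc : Ctx G L σ A) (hh : Hom L σ A m nd h) {d j : ℕ} (hd : Val nd d)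
    (hs : stepV m (Nat.succ j) d = d) : (rotM j).testBit (30 + ty L A (h d).fst) = false := by
  have r := Rp.stepV hh (Nat.succ j) (d := d) (e := h d) (Or.inr (Or.inr ⟨hd, rfl⟩))
  rw [hs] at r
  have h0 := hd.1
  have h1 : h d = (σ ^ Nat.succ j) (h d) := by
    rcases r with r | r | r
    · omega
    · omega
    · exact r.2
  have h2 := p2_dvd σ h1.symm
  rw [period_eq_dg hc.ce.rot] at h2
  have h3 := hc.ce.bas_three (h d)
  have h4 := Nat.le_of_dvd (Nat.succ_pos j) h2
  obtain ⟨b3, b4, b5⟩ := p2_dg_ty (L := L) (A := A) (h d).fst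
  by_cases hj : 5 ≤ j
  · have h5 : rotM j = 0 := by
      obtain ⟨i, rfl⟩ := Nat.exists_eq_add_of_le' hj
      rfl
    rw [h5, Nat.zero_testBit]
  · have hj' : j = 2 ∨ j = 3 ∨ j = 4 := by omega
    rcases hj' with rfl | rfl | rfl
    · have h5 : rotM 2 = 2746631585792 := rfl
      rw [h5]
      rcases b3 (by omega) with h6 | h6 | h6 <;> rw [h6] <;> decide
    · have h5 : rotM 3 = 2736967909376 := rfl
      have h7 : dg G (h d).fst = 4 := by
        by_contra hne
        have h8 : dg G (h d).fst = 3 := by omega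
        rw [h8] at h2
        exact absurd h2 (by decide)
      rw [h5]
      rcases b4 h7 with h6 | h6 | h6 | h6 <;> rw [h6] <;> decide
    · have h5 : rotM 4 = 2691870752768 := rfl
      have h7 : dg G (h d).fst = 5 := by
        by_contra hne
        have h8 : dg G (h d).fst = 3 ∨ dg G (h d).fst = 4 := by omega
        rcases h8 with h8 | h8 <;> rw [h8] at h2 <;> exact absurd h2 (by decide)
      rw [h5]
      rcases b5 h7 with h6 | h6 | h6 | h6 | h6 <;> rw [h6] <;> decide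

theorem fclM_ok (hc : Ctx G L σ A) (hh : Hom L σ A m nd h) {d j : ℕ} (hd : Val nd d)
    (hs : stepF m (Nat.succ j) d = d) : (fclM j).testBit (42 + fc σ (h d)) = false := by
  have r := Rp.stepF hh (Nat.succ j) (d := d) (e := h d) (Or.inr (Or.inr ⟨hd, rfl⟩))
  rw [hs] at r
  have h0 := hd.1
  have h1 : h d = (phi σ ^ Nat.succ j) (h d) := by
    rcases r with r | r | r
    · omega
    · omega
    · exact r.2
  have h2 : flen σ (h d) ∣ Nat.succ j := p2_dvd (phi σ) h1.symm
  have h3 := hc.ce.four_le_flen (h d)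
  have h4 := Nat.le_of_dvd (Nat.succ_pos j) h2
  by_cases hj : 7 ≤ j
  · have h5 : fclM j = 0 := by
      obtain ⟨i, rfl⟩ := Nat.exists_eq_add_of_le' hj
      rfl
    rw [h5, Nat.zero_testBit]
  · have hj' : j = 3 ∨ j = 4 ∨ j = 5 ∨ j = 6 := by omega
    have h45 : ∀ k, flen σ (h d) ∣ k → ¬ 4 ∣ k → ¬ 5 ∣ k → fc σ (h d) = 2 := by
      intro k hk h4 h5
      unfold fc
      have h6 : flen σ (h d) ≠ 4 := fun he => h4 (he ▸ hk)
      have h7 : flen σ (h d) ≠ 5 := fun he => h5 (he ▸ hk)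
      rw [if_neg h6, if_neg h7]
    rcases hj' with rfl | rfl | rfl | rfl
    · have h5 : fclM 3 = 26388279066624 := rfl
      have h6 : fc σ (h d) = 0 := by
        unfold fc
        rw [if_pos (by omega)]
      rw [h5, h6]
      decide
    · have h5 : fclM 4 = 21990232555520 := rfl
      have h7 : flen σ (h d) ≠ 4 := fun he => absurd (he ▸ h2) (by decide)
      have h6 : fc σ (h d) = 1 := by
        unfold fc
        rw [if_neg h7, if_pos (by omega)]
      rw [h5, h6]
      decide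
    · have h5 : fclM 5 = 13194139533312 := rfl
      rw [h5, h45 _ h2 (by decide) (by decide)]
      decide
    · have h5 : fclM 6 = 13194139533312 := rfl
      rw [h5, h45 _ h2 (by decide) (by decide)]
      decide

end

end Pool.Agent.Lib.MP_bfaad3_co
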