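import Pool.Agent.Lib.MP_bfaad3_co.PM2

set_option autoImplicit false

/-! Soundness of the tree checker. -/

namespace Pool.Agent.Lib.MP_bfaad3_co

open Equiv

universe u

theorem pm3_val {nd c : ℕ} (h : dart c < nd) : Val nd (dart c) := by
  refine ⟨Nat.le_add_left _ _, h, ?_⟩
  change 64 ∣ (c &&& 511) <<< 6 + 128
  rw [Nat.shiftLeft_eq]
  omega

theorem pm3_land_lt (x k : ℕ) : Nat.land x k < k + 1 := Nat.lt_succ_of_le Nat.and_le_right

theorem pm3_fld (x s k i : ℕ) (h : (Nat.shiftLeft (Nat.land x (2 ^ k - 1)) s).testBit i = true) :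
    s ≤ i ∧ i < s + k := by
  change ((x &&& (2 ^ k - 1)) <<< s).testBit i = true at h
  simp only [Nat.testBit_shiftLeft, Nat.testBit_and, Nat.testBit_two_pow_sub_one, Bool.and_eq_true,
    decide_eq_true_eq] at h
  omega

theorem pm3_TM (i : ℕ) : TM.testBit i = true ↔ 30 ≤ i ∧ i < 42 := by
  rw [show TM = (2 ^ 12 - 1) <<< 30 from rfl]
  simp only [Nat.testBit_shiftLeft, Nat.testBit_two_pow_sub_one, Bool.and_eq_true,
    decide_eq_true_eq]
  omega

theorem pm3_FM (i : ℕ) : FM.testBit i = true ↔ 42 ≤ i ∧ i < 45 := by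
  rw [show FM = (2 ^ 3 - 1) <<< 42 from rfl]
  simp only [Nat.testBit_shiftLeft, Nat.testBit_two_pow_sub_one, Bool.and_eq_true,
    decide_eq_true_eq]
  omega

theorem pm3_rotM (j : ℕ) (hj : j < 8) (i : ℕ) (h : (rotM j).testBit i = true) : 30 ≤ i ∧ i < 42 :=
  (pm3_TM i).mp ((sb_iff _ _).mp ((by decide : ∀ j < 8, sb (rotM j) TM = true) j hj) i h)

theorem pm3_fclM (j : ℕ) (hj : j < 8) (i : ℕ) (h : (fclM j).testBit i = true) : 42 ≤ i ∧ i < 45 :=
  (pm3_FM i).mp ((sb_iff _ _).mp ((by decide : ∀ j < 8, sb (fclM j) FM = true) j hj) i h)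

theorem pm3_rg (regs r i : ℕ) :
    (rg regs r).testBit i = (regs.testBit (r * 10 + i) && decide (i < 10)) := by
  change ((regs >>> (r * 10)) &&& (2 ^ 10 - 1)).testBit i = _
  rw [Nat.testBit_and, Nat.testBit_shiftRight, Nat.testBit_two_pow_sub_one]

theorem pm3_setR (regs r v r' : ℕ) (hv : v ≤ 1022) :
    rg (setR regs (Nat.mul r 10) v) r' = if r' = r then v else rg regs r' := by
  have h1 : ∀ i, 10 ≤ i → v.testBit i = false := fun i hi => Nat.testBit_lt_two_pow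
    (lt_of_lt_of_le (by omega : v < 2 ^ 10) (Nat.pow_le_pow_right two_pos hi))
  refine Nat.eq_of_testBit_eq fun i => ?_
  rw [pm3_rg]
  change ((regs ^^^ ((rg regs r ^^^ v) <<< (r * 10))).testBit _ && _) = _
  rw [Nat.testBit_xor, Nat.testBit_shiftLeft, Nat.testBit_xor, pm3_rg]
  by_cases hi : i < 10
  · split_ifs with e
    · subst e
      simp [hi]
    · rw [pm3_rg]
      by_cases h2 : r * 10 ≤ r' * 10 + i
      · have h3 : 10 ≤ r' * 10 + i - r * 10 := by omega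
        simp [h1 _ h3, not_lt.mpr h3]
      · simp [h2]
  · split_ifs
    · simp [hi, h1 i (not_lt.mp hi)]
    · simp [hi, pm3_rg]

section
variable {V : Type u} [Fintype V] {G : SimpleGraph V} {L : V → Finset ℕ} {σ : Perm G.Dart}
  {A : Set G.Dart} {m nd : ℕ} {h : ℕ → G.Dart}

omit [Fintype V] in
theorem pm3_evs (hh : Hom L σ A m nd h) {T : Tgt} {Q : ℕ → ℕ} {goal : Prop}
    (ht : TOK L σ A T (h 128) Q goal) {regs j : ℕ} (hi : RInv Q regs) {K : ℕ → Bool}
    (hk : evs T m regs j K = true) : ∃ regs', K regs' = true ∧ RInv Q regs' := by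
  have h1 := ht.1.get j
  unfold evs at hk
  generalize T.st.get j = x at h1 hk
  obtain ⟨r, P⟩ := x
  simp only [frc_eq, cj_iff, Nat.ble_eq] at hk
  refine ⟨_, hk.2, fun r' hr => ?_⟩
  rw [pm3_setR _ _ _ _ hk.1] at hr ⊢
  split_ifs at hr ⊢ with e
  · exact e ▸ h1.trans (ev_up hh P (Or.inr (Or.inr
      ⟨⟨le_rfl, lt_of_lt_of_le (by norm_num) hh.nd2, by norm_num⟩, rfl⟩)))
  · exact hi r' hr

theorem pm3_split {ih : ℕ → ℕ → ℕ → ℕ → Bool} {regs cm a msk c len lo hi t : ℕ}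
    (hor : ∀ a, (∀ i, a.testBit i = true → lo ≤ i ∧ i < hi) → a.testBit t = false →
      Hom L σ A (Nat.lor m (Nat.mul cm a)) nd h)
    (hm : ∀ i, msk.testBit i = true ↔ lo ≤ i ∧ i < hi) (ht : lo ≤ t ∧ t < hi)
    (ha : ∀ i, a.testBit i = true → lo ≤ i ∧ i < hi)
    (hs : split ih m nd regs cm a msk c len = true) :
    ∃ m' c', ih m' nd regs c' = true ∧ Hom L σ A m' nd h := by
  simp only [split, frc_eq, cj_iff] at hs
  cases e : a.testBit t
  · exact ⟨_, _, hs.1, hom_salt (hor a ha e) _⟩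
  · refine ⟨_, _, hs.2, hom_salt (hor _ (fun i hi => ?_) ?_) _⟩
    · change (a ^^^ msk).testBit i = true at hi
      rw [Nat.testBit_xor] at hi
      cases e' : a.testBit i
      · exact (hm i).mp (by simpa [e'] using hi)
      · exact ha i e'
    · change (a ^^^ msk).testBit t = false
      rw [Nat.testBit_xor, e, (hm t).mpr ht]
      rfl

end

theorem pm3_step {T : Tgt} {pats : BT Prog} {cuts : BT (ℕ × ℕ × ℕ)} {red : ℕ → ℕ → ℕ → Bool}
    (hp : pats.All PatOK.{u}) (hc : cuts.All (Snd.{u} T)) (hr : RedOK.{u} red)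
    {ih : ℕ → ℕ → ℕ → ℕ → Bool}
    (IH : ∀ m nd regs c, ih m nd regs c = true → Snd.{u} T (m, nd, regs)) {m nd regs op c : ℕ}
    (hs : step T pats cuts red ih m nd regs op c = true) : Snd.{u} T (m, nd, regs) := by
  intro V _ G L σ A hx h hh Q goal ht hi
  dsimp only at hh hi
  have fin : ∀ {m' nd' regs' c' : ℕ} {h' : ℕ → G.Dart}, ih m' nd' regs' c' = true →
      Hom L σ A m' nd' h' → h' 128 = h 128 → RInv Q regs' → goal :=
    fun h1 h2 h3 h4 => IH _ _ _ _ h1 V G L σ A hx _ h2 Q goal (h3 ▸ ht) h4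
  have rp : dart c < nd → Rp nd h (dart c) (h (dart c)) := fun h1 =>
    Or.inr (Or.inr ⟨pm3_val h1, rfl⟩)
  simp only [step, frc_eq, sel_eq, Nat.ble_eq, Nat.beq_eq] at hs
  split_ifs at hs
  all_goals try simp only [cj_iff, Nat.blt_eq, Nat.ble_eq, Nat.beq_eq] at hs
  · obtain ⟨m', c', h1, h2⟩ := pm3_split (fun a => hom_orV hx hh (pm3_val hs.1)) pm3_TM
      ⟨Nat.le_add_right _ _, Nat.add_lt_add_left (ty_lt _) 30⟩ (pm3_fld _ 30 12) hs.2
    exact fin h1 h2 rfl hi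
  · obtain ⟨m', c', h1, h2⟩ := pm3_split (fun a => hom_orF hx hh (pm3_val hs.1)) pm3_FM
      ⟨Nat.le_add_right _ _, Nat.add_lt_add_left (fc_lt _) 42⟩ (pm3_fld _ 42 3) hs.2
    exact fin h1 h2 rfl hi
  · obtain ⟨regs', h1, h2⟩ := pm3_evs hh ht hi hs
    exact ht.2 _ _ h2 h1
  · obtain ⟨regs', h1, h2⟩ := pm3_evs hh ht hi hs
    exact fin h1 hh rfl h2
  · obtain ⟨m', nd', h', h1, h2, h3⟩ := hom_growV hx hh (pm3_val hs.1) (pm3_land_lt _ 3) hs.2.1
      hs.2.2.1 hs.2.2.2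
    exact fin h1 h2 h3 hi
  · obtain ⟨m', nd', h', h1, h2, h3⟩ := hom_growF hx hh (pm3_val hs.1) (pm3_land_lt _ 1) hs.2.1
      hs.2.2.1 hs.2.2.2
    exact fin h1 h2 h3 hi
  · exact absurd (hp.get _ V G L σ A hx _) (evB_one hh _ (rp hs.1) hs.2)
  · exact ht.2 _ _ hi hs
  · refine fin hs.2 (hom_orV hx hh (pm3_val hs.1) (fun i h1 => (pm3_TM i).mp ?_) ?_) rfl hi
    · exact (Bool.and_eq_true_iff.mp ((Nat.testBit_and _ _ _).symm.trans h1)).2
    · exact (Nat.testBit_and _ _ _).trans (Bool.and_eq_false_iff.mpr (Or.inl ((rp hs.1).bitT hh)))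
  · refine fin hs.2 (hom_orF hx hh (pm3_val hs.1) (fun i h1 => (pm3_FM i).mp ?_) ?_) rfl hi
    · exact (Bool.and_eq_true_iff.mp ((Nat.testBit_and _ _ _).symm.trans h1)).2
    · exact (Nat.testBit_and _ _ _).trans (Bool.and_eq_false_iff.mpr (Or.inl ((rp hs.1).bitF hh)))
  · obtain ⟨h', h1, h2, -⟩ := hom_newA hx hh (pm3_val hs.1) hs.2.2.1 (by have := hs.2.1; omega)
    exact fin hs.2.2.2 h1 (h2 _ (lt_of_lt_of_le (by norm_num) hh.nd2)) hi
  · exact fin hs.2.2.2 (hom_zip hx hh (pm3_val hs.1) (pm3_land_lt _ 1) hs.2.1 hs.2.2.1) rfl hi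
  · have h1 := hc.get c
    generalize cuts.get c = x at h1 hs
    obtain ⟨a, b1, b2⟩ := x
    obtain ⟨rfl, rfl, rfl⟩ := hs
    exact h1 V G L σ A hx h hh Q goal ht hi
  · exact (hr V G L σ A hx _ _ _ _ hs hh).elim
  · exact fin hs.2.2 (hom_orV hx hh (pm3_val hs.1) (pm3_rotM _ (pm3_land_lt _ 7))
      (rotM_ok hx hh (pm3_val hs.1) hs.2.1)) rfl hi
  · exact fin hs.2.2 (hom_orF hx hh (pm3_val hs.1) (pm3_fclM _ (pm3_land_lt _ 7))
      (fclM_ok hx hh (pm3_val hs.1) hs.2.1)) rfl hi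

theorem chk_sound (T : Tgt) (pats : BT Prog) (cuts : BT (ℕ × ℕ × ℕ)) (red : ℕ → ℕ → ℕ → Bool)
    (hp : pats.All PatOK.{u}) (hc : cuts.All (Snd.{u} T)) (hr : RedOK.{u} red)
    (fuel m nd regs c : ℕ) (h : chk T pats cuts red fuel m nd regs c = true) :
    Snd.{u} T (m, nd, regs) := by
  induction fuel generalizing m nd regs c with
  | zero => exact absurd h Bool.false_ne_true
  | succ fuel ih =>
    exact pm3_step hp hc hr ih (ih := chk T pats cuts red fuel) (op := Nat.land c 15)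
      (c := Nat.shiftRight c 4) ((frc_eq (Nat.land c 15) fun op => step T pats cuts red
        (chk T pats cuts red fuel) m nd regs op (Nat.shiftRight c 4)).symm.trans h)

theorem redOK_false : RedOK.{u} fun _ _ _ => false :=
  fun _ _ _ _ _ _ _ _ _ _ _ h => absurd h Bool.false_ne_true

end Pool.Agent.Lib.MP_bfaad3_co
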