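import Pool.Agent.Lib.MP_bfaad3_co.Sol1

set_option autoImplicit false

/-! Block SOL: correctness of reductions and of the leaf test. -/

namespace Pool.Agent.Lib.MP_bfaad3_co

open Equiv

universe u

section
variable {V : Type u} [Fintype V] {G : SimpleGraph V} {L : V → Finset ℕ} {σ : Perm G.Dart}
  {A : Set G.Dart} {m nd : ℕ} {h : ℕ → G.Dart}

/-- the neighbours of a deleted vertex are named -/
theorem sol_nbr (hc : Ctx G L σ A) (hh : Hom L σ A m nd h) {ss : List ℕ}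
    (hs : allL ss (okD nd) = true) {tl : ℕ} (ht : TlOK nd h (fv h ss) (len ss) tl) {S : Sol}
    (hx : XOK m nd h ss tl S) {x : ℕ} (hm : x ∈ S.xs) {w : V} (hw : G.Adj (fv h ss x) w) :
    ∃ d ∈ star m (sd ss x), Val nd d ∧ gl tl (sy d) ≠ 0 ∧ w = fv h ss (gl tl (sy d)) := by
  obtain ⟨h1, h2, h3⟩ := hx.rng x hm
  obtain ⟨s1, s2, -⟩ := star_ok hc hh (sd_val hs h1 h2) h3
  obtain ⟨d, hd, he⟩ := s2 ⟨(fv h ss x, w), hw⟩ rfl
  have h4 : gl tl (sy d) ≠ 0 := by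
    rcases (hx.drt x hm d hd).2 with h5 | h5
    · have := (hx.ring _ h5).1
      omega
    · have := (hx.rng _ h5).1
      omega
  refine ⟨d, hd, (s1 d hd).1, h4, ?_⟩
  rw [← (ht _ h4).2.2, hh.sym d (s1 d hd).1, he]
  rfl

open Classical in
/-- available colours -/
noncomputable def solAv (G : SimpleGraph V) (L : V → Finset ℕ) (X : Set V) (c : V → ℕ) (v : V) :
    Finset ℕ := (L v).filter fun t => ∀ w, w ∉ X → G.Adj v w → c w ≠ t

theorem sol_av {X : Set V} {c : V → ℕ} {v : V} {t : ℕ} :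
    t ∈ solAv G L X c v ↔ t ∈ L v ∧ ∀ w, w ∉ X → G.Adj v w → c w ≠ t := by
  simp only [solAv, Finset.mem_filter]

theorem sol_rel (hc : Ctx G L σ A) (hh : Hom L σ A m nd h) {ss : List ℕ}
    (hs : allL ss (okD nd) = true) (hn : len ss ≤ 50) {tl ad : ℕ}
    (ht : TlOK nd h (fv h ss) (len ss) tl) (ha : AdOK G (fv h ss) ad) {S : Sol}
    (hx : XOK m nd h ss tl S) (hnx : S.g.nx = len S.xs) (h14 : S.g.nx ≤ 14) {c : V → ℕ}
    {X : Set V} (hX : ∀ v, v ∈ X ↔ ∃ x ∈ S.xs, fv h ss x = v) (c1 : ∀ v, v ∉ X → c v ∈ L v)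
    (c2 : ∀ u v, G.Adj u v → u ∉ X → v ∉ X → c u ≠ c v)
    (c3 : ∀ x ∈ S.arcs, c (fv h ss x.1) ≠ c (fv h ss x.2))
    (c4 : c (fv h ss S.ia) = c (fv h ss S.ib))
    (c5 : 0 < S.z → S.z ∈ S.xs ∧ S.zx ∈ S.xs ∧ S.zy ∈ S.xs ∧
      (c (fv h ss S.z) ∈ L (fv h ss S.zx) ∨ c (fv h ss S.z) ∈ L (fv h ss S.zy)))
    {O : ℕ → Finset ℕ} (oL : ∀ u, u ≤ len ss → O (u * 64) = L (fv h ss u))
    (oC' : ∀ a, len ss * 64 < a → a ≤ len ss * 128 → O a = {c (fv h ss (vC (len ss) a))})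
    (oA : ∀ a, len ss * 128 < a → O a = solAv G L X c (fv h ss (vA (len ss) S.xs a)))
    {r : Rel} (hr : relOK m tl ad (mask S.xs) (len ss) ss S r = true) : r.Holds O := by
  have fC : ∀ a, isC (len ss) a = true → Ob a ∧ O a = {c (fv h ss (vC (len ss) a))} :=
    fun a h1 => by
      obtain ⟨a1, a2, a3⟩ := sol_isC h1
      exact ⟨⟨by omega, by omega, a3⟩, oC' a a1 a2⟩
  have fA : ∀ a, isA (len ss) S.g.nx a = true → Ob a ∧ vA (len ss) S.xs a ∈ S.xs ∧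
      O a = solAv G L X c (fv h ss (vA (len ss) S.xs a)) := fun a h1 => by
    obtain ⟨a1, a2, a3⟩ := sol_isA h1
    refine ⟨⟨by omega, by omega, a3⟩, ?_, oA a a1⟩
    rw [sol_vA]
    exact sol_nth (by omega)
  have fL : ∀ u, 1 ≤ u → u ≤ len ss → Ob (u * 64) := fun u h1 h2 =>
    ⟨by omega, by omega, Dvd.intro_left _ rfl⟩
  have fO : ∀ a, anyO (len ss) S.g.nx a = true → Ob a := fun a h1 => by
    simp only [anyO, dj_iff] at h1
    rcases h1 with h1 | h1 | h1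
    · obtain ⟨a1, a2, a3⟩ := sol_isL h1
      exact ⟨a1, by omega, a3⟩
    · exact (fC a h1).1
    · exact (fA a h1).1
  have fR : ∀ r, tb S.rm r = true → fv h ss r ∉ X := fun r h1 h2 => by
    obtain ⟨x, h3, h4⟩ := (hX _).1 h2
    exact (hx.ring r h1).2.2 x h3 h4.symm
  have fS : ∀ u v, sim S.ia S.ib u v = true → c (fv h ss u) = c (fv h ss v) := fun u v h1 =>
    sol_sim h1 (g := fun u => c (fv h ss u)) c4
  have fV : ∀ a b cs, covOK m tl (mask S.xs) (len ss) ss S a b cs = true →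
      Ob a ∧ Ob b ∧ ∀ t ∈ O a, t ∈ O b ∨ ∃ e ∈ cs, t ∈ O e := fun a b cs h1 => by
    simp only [covOK, cj_iff, dj_iff, allL_iff, anyL_iff, Nat.beq_eq, mask_iff, Nat.mul_eq] at h1
    obtain ⟨h1, rfl, h3⟩ := h1
    obtain ⟨b1, b2, b3⟩ := fA b h1
    obtain ⟨r1, r2, -⟩ := hx.rng _ b2
    refine ⟨fL _ r1 r2, b1, fun t h4 => ?_⟩
    rw [oL _ r2] at h4
    rw [sol_vx, Nat.mul_div_cancel _ (by norm_num)] at h3
    rw [b3, sol_av]
    refine or_iff_not_imp_left.2 fun h5 => ?_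
    simp only [h4, true_and, not_forall, not_not] at h5
    obtain ⟨w, w1, w2, w3⟩ := h5
    obtain ⟨d, d1, -, -, rfl⟩ := sol_nbr hc hh hs ht hx b2 w2
    rcases h3 d d1 with h6 | ⟨e, e1, e2, e3⟩
    · exact absurd ((hX _).2 ⟨_, h6, rfl⟩) w1
    · exact ⟨e, e1, by rw [(fC e e2).2, fS _ _ e3, w3]; exact Finset.mem_singleton_self _⟩
  cases r with
  | sub a b =>
    simp only [relOK, cj_iff, dj_iff, Nat.beq_eq, Nat.mul_eq] at hr
    rcases hr with ⟨h1, ⟨h2, rfl⟩ | ⟨h2, h3⟩⟩ | ⟨h1, rfl⟩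
    · obtain ⟨r1, r2, -⟩ := hx.ring _ h2
      refine ⟨(fC a h1).1, fL _ r1 r2, ?_⟩
      rw [(fC a h1).2, oL _ r2, Finset.singleton_subset_iff]
      exact c1 _ (fR _ h2)
    · refine ⟨(fC a h1).1, (fC b h2).1, ?_⟩
      rw [(fC a h1).2, (fC b h2).2, fS _ _ h3]
    · obtain ⟨b1, b2, b3⟩ := fA a h1
      obtain ⟨r1, r2, -⟩ := hx.rng _ b2
      refine ⟨b1, fL _ r1 r2, ?_⟩
      rw [b3, oL _ r2]
      exact fun t h2 => (sol_av.1 h2).1
  | esub a b => exact absurd hr Bool.false_ne_true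
  | dis a b =>
    simp only [relOK, cj_iff, dj_iff, Nat.beq_eq, anyL_iff] at hr
    obtain ⟨h0, ⟨h1, ⟨h2, h3, h4⟩ | ⟨x, h2, h3, h4⟩⟩ | ⟨h1, h2, h3⟩⟩ := hr
    · refine ⟨(fC a h1).1, (fC b h0).1, ?_⟩
      rw [(fC a h1).2, (fC b h0).2, Finset.disjoint_singleton]
      exact c2 _ _ (ha _ _ h4) (fR _ h2) (fR _ h3)
    · refine ⟨(fC a h1).1, (fC b h0).1, ?_⟩
      rw [(fC a h1).2, (fC b h0).2, Finset.disjoint_singleton, ← h3, ← h4]
      exact c3 x h2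
    · obtain ⟨b1, -, b3⟩ := fA a h1
      refine ⟨b1, (fC b h0).1, ?_⟩
      rw [b3, (fC b h0).2, Finset.disjoint_singleton_right]
      exact fun h4 => (sol_av.1 h4).2 _ (fR _ h2) (ha _ _ h3) rfl
  | cov a b cs =>
    simp only [relOK, cj_iff, dj_iff, Nat.beq_eq, Nat.blt_eq, anyL_iff, allL_iff, memL_iff,
      Nat.mul_eq] at hr
    obtain ⟨h0, h1⟩ := hr
    suffices h2 : Ob a ∧ ∀ t ∈ O a, ∃ e ∈ b :: cs, t ∈ O e from
      ⟨h2.1, fO b (h0 b List.mem_cons_self), fun e he => fO e (h0 e (List.mem_cons_of_mem _ he)),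
        fun t h3 => by simpa only [List.mem_cons, exists_eq_or_imp] using h2.2 t h3⟩
    rcases h1 with ⟨h1, rfl, h2, h3⟩ | ⟨v, h1, h2⟩
    · obtain ⟨z1, z2, z3, z4⟩ := c5 h1
      have z5 := (hx.rng _ z1).2.1
      have e1 : oC (len ss) S.z = (len ss + S.z) * 64 := rfl
      refine ⟨⟨by omega, by omega, Dvd.intro_left _ e1.symm⟩, fun t h4 => ?_⟩
      rw [oC' _ (by omega) (by omega), sol_vC, e1, Nat.mul_div_cancel _ (by norm_num),
        Nat.add_sub_cancel_left, Finset.mem_singleton] at h4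
      subst h4
      rcases z4 with z4 | z4
      · exact ⟨_, h2, by rwa [oL _ (hx.rng _ z2).2.1]⟩
      · exact ⟨_, h3, by rwa [oL _ (hx.rng _ z3).2.1]⟩
    · obtain ⟨v1, -, v3⟩ := fV a v _ h2
      exact ⟨v1, fun t h3 => (v3 t h3).elim (fun h4 => ⟨v, h1, h4⟩) id⟩
  | avl a b cs =>
    simp only [relOK, cj_iff, allL_iff] at hr
    obtain ⟨v1, v2, v3⟩ := fV a b cs hr.2
    refine ⟨v1, v2, fun e he => ⟨(fC e (hr.1 e he)).1, ?_⟩, v3⟩
    rw [(fC e (hr.1 e he)).2, Finset.card_singleton]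
  | neq a b w => exact absurd hr Bool.false_ne_true
  | min5 a cs => exact absurd hr Bool.false_ne_true
  | min3 a cs => exact absurd hr Bool.false_ne_true

/-- a colouring of the deleted vertices from the available colours glues with `c` -/
theorem sol_nc (hc : Ctx G L σ A) (hh : Hom L σ A m nd h) {ss : List ℕ}
    (hs : allL ss (okD nd) = true) {tl ad : ℕ}
    (ht : TlOK nd h (fv h ss) (len ss) tl) (hb : AdAll nd tl ad) {S : Sol}
    (hx : XOK m nd h ss tl S) {c : V → ℕ}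
    {X : Set V} (hX : ∀ v, v ∈ X ↔ ∃ x ∈ S.xs, fv h ss x = v) (c1 : ∀ v, v ∉ X → c v ∈ L v)
    (c2 : ∀ u v, G.Adj u v → u ∉ X → v ∉ X → c u ≠ c v) {c' : ℕ → ℕ}
    (d1 : ∀ j, j < len S.xs → c' j ∈ solAv G L X c (fv h ss (nth S.xs j)))
    (d2 : ∀ i j, i < len S.xs → j < len S.xs → adj ad (nth S.xs i) (nth S.xs j) = true →
      c' i ≠ c' j) : False := by
  classical
  have h1 : ∀ v, v ∈ X → ∃ j, j < len S.xs ∧ fv h ss (nth S.xs j) = v := fun v hv => by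
    obtain ⟨x, h1, rfl⟩ := (hX v).1 hv
    obtain ⟨j, h2, rfl⟩ := sol_idx h1
    exact ⟨j, h2, rfl⟩
  choose! J J1 J2 using h1
  have h2 : ∀ v, v ∈ X → c' (J v) ∈ L v ∧ ∀ w, w ∉ X → G.Adj v w → c w ≠ c' (J v) :=
    fun v hv => by
      have := d1 _ (J1 v hv)
      rwa [J2 v hv, sol_av] at this
  refine hc.ce.ncol ⟨fun v => if v ∈ X then c' (J v) else c v, fun v => ?_, fun u v huv => ?_⟩
  · dsimp only
    split_ifs with hv
    · exact (h2 v hv).1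
    · exact c1 v hv
  · dsimp only
    split_ifs with hu hv hv
    · have h3 := sol_nth (J1 u hu)
      have h4 := sol_nth (J1 v hv)
      obtain ⟨d, e1, e2, e3, e4⟩ := sol_nbr hc hh hs ht hx h3 (w := v) (by rwa [J2 u hu])
      obtain ⟨e5, e6⟩ := hx.drt _ h3 d e1
      have e7 : gl tl (sy d) = nth S.xs (J v) := by
        rcases e6 with e6 | e6
        · exact absurd (e4.symm.trans (J2 v hv).symm) ((hx.ring _ e6).2.2 _ h4)
        · exact hx.inj _ e6 _ h4 (e4.symm.trans (J2 v hv).symm)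
      have e8 := hb d e2 (by have := (hx.rng _ h3).1; omega) e3
      rw [e5, e7] at e8
      exact d2 _ _ (J1 u hu) (J1 v hv) e8
    · exact ((h2 u hu).2 v hv huv).symm
    · exact (h2 v hv).2 u hu huv.symm
    · exact c2 u v huv hu hv

theorem sol_ok (hc : Ctx G L σ A) (hh : Hom L σ A m nd h) {ss : List ℕ}
    (hs : allL ss (okD nd) = true) (hn : len ss ≤ 50) {tl ad : ℕ}
    (ht : TlOK nd h (fv h ss) (len ss) tl) (ha : AdOK G (fv h ss) ad) (hb : AdAll nd tl ad)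
    {O : ℕ → Finset ℕ} (hO : ∀ a, a ≤ 64 * len ss → O a = L (fv h ss (a / 64))) {S : Sol}
    (hS : solOK m tl ad (len ss) ss S = true) : S.g.OK (len ss) O := by
  classical
  simp only [solOK, frc_eq, cj_iff, dj_iff, allL_iff, allN_iff, nt_iff, Nat.beq_eq, Nat.ble_eq,
    Nat.blt_eq, mask_iff, BT.all_iff, Nat.mul_eq, Nat.add_eq] at hS
  obtain ⟨k1, k2, -, k4, k5, k6, k7, k8, k9, k10, k11, k12, k13, k14, k15⟩ := hS
  obtain ⟨wf, hbase, hinit⟩ := sol_wf hn k1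
  refine ⟨wf, fun hcond => ?_⟩
  obtain ⟨X, hXd⟩ : ∃ X : Set V, X = {v | ∃ x ∈ S.xs, fv h ss x = v} := ⟨_, rfl⟩
  have hX : ∀ v, v ∈ X ↔ ∃ x ∈ S.xs, fv h ss x = v := fun v => by rw [hXd]; rfl
  have hF := mkFT_ok hc hh ht X (xm := mask S.xs)
    (fun v hv => (hX _).2 ⟨v, (mask_iff _ _).1 hv, rfl⟩) S.fars
  have hz : 0 < S.z → S.z ∈ S.xs ∧ S.zx ∈ S.xs ∧ S.zy ∈ S.xs := fun h1 =>
    k9.resolve_left h1.ne'
  have hx : XOK m nd h ss tl S := by
    refine ⟨fun x h1 => ⟨(k4 x h1).1, (k4 x h1).2.1, (k4 x h1).2.2.1⟩, fun x h1 y h2 h3 =>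
      ((k4 x h1).2.2.2.1 y h2).resolve_right fun h4 => hF _ _ _ h4 h3,
      fun x h1 => (k4 x h1).2.2.2.2, fun r h1 => ?_, k8.imp_right fun h1 => ⟨h1.1, h1.2.1⟩,
      fun x h1 => ⟨(k12 x h1).1, (k12 x h1).2.imp And.left fun h2 => by rw [h2.2.1]; exact (hz h2.1).1⟩⟩
    have h2 : r < 64 := by
      by_contra h3
      rw [tb_eq, Nat.testBit_lt_two_pow (lt_of_lt_of_le (show S.rm < 2 ^ 64 from k6)
        (Nat.pow_le_pow_right (by norm_num) (not_lt.1 h3)))] at h1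
      exact Bool.false_ne_true h1
    obtain ⟨h3, h4, h5⟩ := (k5 r h2).resolve_left (by rw [h1]; simp)
    exact ⟨h3, h4, fun x h6 => hF _ _ _ (h5 x h6)⟩
  have fR : ∀ r, tb S.rm r = true → fv h ss r ∉ X := fun r h1 h2 => by
    obtain ⟨x, h3, h4⟩ := (hX _).1 h2
    exact (hx.ring r h1).2.2 x h3 h4.symm
  have oL : ∀ u, u ≤ len ss → O (u * 64) = L (fv h ss u) := fun u h1 => by
    rw [hO _ (by omega), Nat.mul_div_cancel _ (by norm_num)]
  have fH : ∀ u v b, tb S.rm u = true → tb S.rm v = true → hasC S.g.conds u v b = true →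
      L (fv h ss u) ⊆ L (fv h ss v) ∨ (b = true ∧ 4 ≤ (L (fv h ss u)).card) :=
    fun u v b h1 h2 h3 => by
      obtain ⟨x, x1, x2, x3, x4⟩ := sol_hasC h3
      have h4 := hcond x x1
      rw [x2, x3, oL _ (hx.ring _ h1).2.1, oL _ (hx.ring _ h2).2.1] at h4
      exact h4.imp_right fun h5 => ⟨x4.resolve_right (by rw [h5.1]; simp), h5.2⟩
  have hadj : ∀ u, ∃ w, G.Adj (fv h ss u) w := fun u => ⟨_, (h (sd ss u)).adj⟩
  obtain ⟨M, hM1, hM2, hM3⟩ : ∃ M : V → Finset ℕ, (∀ v, v ∉ X → M v = L v) ∧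
      (∀ v, 3 ≤ (M v).card) ∧
      (0 < S.z → M (fv h ss S.z) = L (fv h ss S.zx) ∪ L (fv h ss S.zy)) := by
    refine ⟨fun v => if 0 < S.z ∧ v = fv h ss S.z then L (fv h ss S.zx) ∪ L (fv h ss S.zy)
      else L v, fun v hv => if_neg fun h1 => hv ((hX _).2 ⟨_, (hz h1.1).1, h1.2.symm⟩),
      fun v => ?_, fun h1 => if_pos ⟨h1, rfl⟩⟩
    dsimp only
    split_ifs
    · exact (hc.ce.cls.1 _).trans (Finset.card_le_card Finset.subset_union_left)
    · exact hc.ce.cls.1 v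
  have hMc : ∀ x ∈ S.arcs, ((M (fv h ss x.1)).card = 3 → M (fv h ss x.1) ⊆ M (fv h ss x.2)) ∧
      ((M (fv h ss x.2)).card = 3 → M (fv h ss x.2) ⊆ M (fv h ss x.1)) := fun x h1 => by
    obtain ⟨h2, ⟨h3, h4, h5⟩ | ⟨h3, h4, h5⟩⟩ := k12 x h1
    · rw [hM1 _ (fR _ h2), hM1 _ (fR _ h3)]
      exact ⟨fun h6 => (fH _ _ _ h3 h2 h4).resolve_right fun h7 => by omega,
        fun h6 => (fH _ _ _ h2 h3 h5).resolve_right fun h7 => by omega⟩
    · rw [hM1 _ (fR _ h2), h4, hM3 h3]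
      have h6 : ∀ p q : V, G.Adj p (fv h ss x.2) →
          ((L p ∪ L q).card = 3 → L p ∪ L q ⊆ L (fv h ss x.2)) ∧
          ((L (fv h ss x.2)).card = 3 → L (fv h ss x.2) ⊆ L p ∪ L q) := fun p q h6 => by
        refine ⟨fun h7 => ?_, fun h7 => (hc.ce.cls.2 _ _ h6.symm h7).trans Finset.subset_union_left⟩
        have h8 : L p = L p ∪ L q := Finset.eq_of_subset_of_card_le Finset.subset_union_left
          (h7.le.trans (hc.ce.cls.1 p))
        rw [← h8] at h7 ⊢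
        exact hc.ce.cls.2 _ _ h6 h7
      rcases h5 with h5 | h5
      · exact h6 _ _ (ha _ _ h5)
      · rw [Finset.union_comm]
        exact h6 _ _ (ha _ _ h5)
  obtain ⟨c, c1, c2, c3, c4⟩ := ring_col hc.ce X (ArcR (fv h ss) S.arcs) (fv h ss S.ia)
    (fv h ss S.ib) M (hx.idn.imp (fun h1 => by rw [h1.1, h1.2]) fun h1 => ⟨fR _ h1.1, fR _ h1.2⟩)
    (hXd ▸ hole_ok hc hh hs ht hx k14) (safe_ok hF k13)
    ⟨_, (hX _).2 ⟨_, k10, rfl⟩, hadj _, by
      rintro q ⟨x, h1, ⟨h2, -⟩ | ⟨h2, -⟩⟩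
      · rcases (k12 x h1).2 with h3 | h3
        · exact (hx.ring _ h3.1).2.2 _ k10 h2
        · rw [h3.2.1] at h2
          rw [hx.inj _ (hz h3.1).1 _ k10 h2, Nat.beq_refl] at k11
          exact Bool.false_ne_true k11.symm
      · exact (hx.ring _ (k12 x h1).1).2.2 _ k10 h2⟩
    (by rintro p q ⟨x, -, ⟨rfl, -⟩ | ⟨rfl, -⟩⟩ <;> exact hadj _) (fun _ => hadj _) hM1 hM2
    (by
      rcases k8 with h1 | ⟨h1, h2, h3, h4⟩
      · rw [h1.1, h1.2]
      · rw [hM1 _ (fR _ h1), hM1 _ (fR _ h2)]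
        exact Finset.Subset.antisymm ((fH _ _ _ h1 h2 h3).resolve_right (by simp))
          ((fH _ _ _ h2 h1 h4).resolve_right (by simp)))
    (by
      rintro p q ⟨x, h1, ⟨rfl, rfl⟩ | ⟨rfl, rfl⟩⟩
      · exact (hMc x h1).1
      · exact (hMc x h1).2)
  have c1' : ∀ v, v ∉ X → c v ∈ L v := fun v hv => hM1 v hv ▸ c1 v
  obtain ⟨O', o1, o2, o3⟩ : ∃ O' : ℕ → Finset ℕ, (∀ a, a ≤ 64 * len ss → O' a = O a) ∧
      (∀ a, len ss * 64 < a → a ≤ len ss * 128 → O' a = {c (fv h ss (vC (len ss) a))}) ∧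
      ∀ a, len ss * 128 < a → O' a = solAv G L X c (fv h ss (vA (len ss) S.xs a)) :=
    ⟨fun a => if a ≤ 64 * len ss then O a else if a ≤ len ss * 128 then
      {c (fv h ss (vC (len ss) a))} else solAv G L X c (fv h ss (vA (len ss) S.xs a)),
      fun a h1 => if_pos h1, fun a h1 h2 => (if_neg (by omega)).trans (if_pos h2),
      fun a h1 => (if_neg (by omega)).trans (if_neg (by omega))⟩
  refine ⟨O', o1, k15.imp fun r hr => sol_rel hc hh hs hn ht ha hx k2 wf.nx hX c1' c2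
    (fun x h1 => c3 _ _ ⟨x, h1, Or.inl ⟨rfl, rfl⟩⟩) c4 (fun h1 => ⟨(hz h1).1, (hz h1).2.1,
      (hz h1).2.2, Finset.mem_union.1 (hM3 h1 ▸ c1 _)⟩)
    (fun u h1 => (o1 _ (by omega)).trans (oL u h1)) o2 o3 hr, ?_, ?_⟩
  · rw [hinit]
    exact sol_init hn fun u h1 h2 => by
      rw [o2 _ (by omega) (by omega), Finset.card_singleton]
  · rintro ⟨c', d1, d2⟩
    rw [k2] at d1 d2 k7
    refine sol_nc hc hh hs ht hb hx hX c1' c2 (c' := c') (fun j hj => ?_) fun i j hi hj h1 =>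
      d2 i j hi hj (tb_eq _ _ ▸ (k7 i hi j hj).resolve_left (by rw [h1]; simp))
    have h1 := d1 j hj
    rwa [hbase, o3 _ (by omega), sol_vA,
      show (len ss * 128 + 64 + 64 * j) / 64 - (len ss * 2 + 1) = j by omega] at h1

end

theorem dummy_ok {n : ℕ} (hn : n ≤ 50) (O : ℕ → Finset ℕ) : (dummy n).OK n O := by
  refine ⟨⟨by simp [dummy], by simp only [dummy]; omega, by simp only [dummy]; omega,
    by simp only [dummy]; omega, by simp [dummy], by simp [dummy], by simp [dummy],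
    by simp [dummy], by simp [dummy]⟩, fun _ => ⟨fun a => if a ≤ 64 * n then O a else ∅,
      fun a ha => if_pos ha, ⟨⟨by omega, by omega, by omega⟩, ⟨by omega, by omega, by omega⟩,
        subset_rfl⟩, fun a _ => ⟨by simp [dummy], by simp [dummy]⟩, ?_⟩⟩
  rintro ⟨c, h, -⟩
  have h1 := h 0 Nat.one_pos
  simp only [dummy] at h1
  rw [if_neg (by omega)] at h1
  simp at h1

theorem red_ok (t : BT RC) : RedOK.{u} (red t) := by
  intro V _ G L σ A hc m nd c h hr hh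
  unfold red at hr
  generalize t.get c = r at hr
  cases r with
  | gm ss srel sols c =>
    simp only [redC, pre, frc_eq, cj_iff, Nat.ble_eq, BT.all_iff] at hr
    obtain ⟨-, h2, h3, h4, h5, h6⟩ := hr
    have ht := mkTl_ok hc hh h3 h2
    obtain ⟨ha, hb⟩ := mkAdj_ok hh ht
    exact game_sound srel _ _ _ c (fun a => L (fv h ss (a / 64)))
      (fun O' hO => h4.imp fun r hr => srel_ok hc hh h3 h2 ht ha hO hr)
      (BT.All.map _ (h5.imp fun S hS => sol_ok hc hh h3 h2 ht ha hb (fun _ _ => rfl) hS))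
      (init0_ok hc hh h3 h2 fun _ _ => rfl) h6
  | kr ss xs bm ins fars =>
    simp only [redC, pre, frc_eq, cj_iff, Nat.ble_eq] at hr
    obtain ⟨-, h2, h3, h4⟩ := hr
    have ht := mkTl_ok hc hh h3 h2
    exact ker_ok hc hh h3 ht (mkAdj_ok hh ht).1 h4
  | g0 ss srel c =>
    simp only [redC, pre, frc_eq, cj_iff, Nat.ble_eq, BT.all_iff] at hr
    obtain ⟨-, h2, h3, h4, h6⟩ := hr
    have ht := mkTl_ok hc hh h3 h2
    obtain ⟨ha, -⟩ := mkAdj_ok hh ht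
    exact game_sound srel (.lf (dummy (len ss))) _ _ c (fun a => L (fv h ss (a / 64)))
      (fun O' hO => h4.imp fun r hr => srel_ok hc hh h3 h2 ht ha hO hr)
      (dummy_ok h2 fun a => L (fv h ss (a / 64)))
      (init0_ok hc hh h3 h2 fun _ _ => rfl) h6

end Pool.Agent.Lib.MP_bfaad3_co
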