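import Pool.Agent.Lib.MP_bfaad3_co.PM3
import Pool.Agent.Lib.MP_bfaad3_co.Sol
import Pool.Agent.Lib.MP_bfaad3_co.PC0
import Pool.Agent.Lib.MP_bfaad3_co.PC1
import Pool.Agent.Lib.MP_bfaad3_co.PC2
import Pool.Agent.Lib.MP_bfaad3_co.PC3
import Pool.Agent.Lib.MP_bfaad3_co.PC4
import Pool.Agent.Lib.MP_bfaad3_co.PC5
import Pool.Agent.Lib.MP_bfaad3_co.PC6
import Pool.Agent.Lib.MP_bfaad3_co.PC7
import Pool.Agent.Lib.MP_bfaad3_co.PC8
import Pool.Agent.Lib.MP_bfaad3_co.PC9

set_option autoImplicit false
set_option maxRecDepth 100000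

namespace Pool.Agent.Lib.MP_bfaad3_co

universe u

theorem cut0_ok (T : Tgt) : (BT.lf (0, 0, 0)).All (Snd.{u} T) := snd_triv T

theorem pats0_ok : pats0.All PatOK.{u} := And.intro patOK_T patOK_F

theorem ok_of {P : Prog} {r : RC} {c : ℕ}
    (h : chk (patT P) pats0 (.lf (0, 0, 0)) (red (.lf r)) 400 0 256 1023 c = true) : PatOK.{u} P :=
  patOK_of (chk_sound _ _ _ _ pats0_ok (cut0_ok _) (red_ok _) _ _ _ _ _ h)

theorem ok1 : PatOK.{u} pt1 := ok_of cp1
theorem ok2 : PatOK.{u} pt2 := ok_of cp2
theorem ok3 : PatOK.{u} pt3 := ok_of cp3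
theorem ok4 : PatOK.{u} pt4 := ok_of cp4
theorem ok5 : PatOK.{u} pt5 := ok_of cp5
theorem ok6 : PatOK.{u} pt6 := ok_of cp6
theorem ok7 : PatOK.{u} pt7 := ok_of cp7
theorem ok8 : PatOK.{u} pt8 := ok_of cp8
theorem ok9 : PatOK.{u} pt9 := ok_of cp9
theorem ok10 : PatOK.{u} pt10 := ok_of cp10
theorem ok11 : PatOK.{u} pt11 := ok_of cp11
theorem ok12 : PatOK.{u} pt12 := ok_of cp12
theorem ok13 : PatOK.{u} pt13 := ok_of cp13
theorem ok14 : PatOK.{u} pt14 := ok_of cp14
theorem ok15 : PatOK.{u} pt15 := ok_of cp15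
theorem ok16 : PatOK.{u} pt16 := ok_of cp16
theorem ok17 : PatOK.{u} pt17 := ok_of cp17
theorem ok18 : PatOK.{u} pt18 := ok_of cp18
theorem ok19 : PatOK.{u} pt19 := ok_of cp19
theorem ok20 : PatOK.{u} pt20 := ok_of cp20
theorem ok21 : PatOK.{u} pt21 := ok_of cp21
theorem ok22 : PatOK.{u} pt22 := ok_of cp22
theorem ok23 : PatOK.{u} pt23 := ok_of cp23
theorem ok24 : PatOK.{u} pt24 := ok_of cp24
theorem ok25 : PatOK.{u} pt25 := ok_of cp25
theorem ok26 : PatOK.{u} pt26 := ok_of cp26
theorem ok27 : PatOK.{u} pt27 := ok_of cp27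
theorem ok28 : PatOK.{u} pt28 := ok_of cp28
theorem ok29 : PatOK.{u} pt29 := ok_of cp29
theorem ok30 : PatOK.{u} pt30 := ok_of cp30
theorem ok31 : PatOK.{u} pt31 := ok_of cp31
theorem ok32 : PatOK.{u} pt32 := ok_of cp32
theorem ok33 : PatOK.{u} pt33 := ok_of cp33
theorem ok34 : PatOK.{u} pt34 := ok_of cp34
theorem ok35 : PatOK.{u} pt35 := ok_of cp35
theorem ok36 : PatOK.{u} pt36 := ok_of cp36
theorem ok37 : PatOK.{u} pt37 := ok_of cp37
theorem ok38 : PatOK.{u} pt38 := ok_of cp38
theorem ok39 : PatOK.{u} pt39 := ok_of cp39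
theorem ok40 : PatOK.{u} pt40 := ok_of cp40
theorem ok41 : PatOK.{u} pt41 := ok_of cp41
theorem ok42 : PatOK.{u} pt42 := ok_of cp42
theorem ok43 : PatOK.{u} pt43 := ok_of cp43
theorem ok44 : PatOK.{u} pt44 := ok_of cp44
theorem ok45 : PatOK.{u} pt45 := ok_of cp45
theorem ok46 : PatOK.{u} pt46 := ok_of cp46
theorem ok47 : PatOK.{u} pt47 := ok_of cp47
theorem ok49 : PatOK.{u} pt49 := ok_of cp49
theorem ok50 : PatOK.{u} pt50 := ok_of cp50
theorem ok51 : PatOK.{u} pt51 := ok_of cp51
theorem ok52 : PatOK.{u} pt52 := ok_of cp52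
theorem ok57 : PatOK.{u} pt57 := ok_of cp57
theorem ok58 : PatOK.{u} pt58 := ok_of cp58
theorem ok59 : PatOK.{u} pt59 := ok_of cp59
theorem ok60 : PatOK.{u} pt60 := ok_of cp60
theorem ok61 : PatOK.{u} pt61 := ok_of cp61
theorem ok62 : PatOK.{u} pt62 := ok_of cp62
theorem ok63 : PatOK.{u} pt63 := ok_of cp63
theorem ok64 : PatOK.{u} pt64 := ok_of cp64
theorem ok65 : PatOK.{u} pt65 := ok_of cp65
theorem ok67 : PatOK.{u} pt67 := ok_of cp67
theorem ok69 : PatOK.{u} pt69 := ok_of cp69
theorem ok70 : PatOK.{u} pt70 := ok_of cp70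
theorem ok71 : PatOK.{u} pt71 := ok_of cp71
theorem ok72 : PatOK.{u} pt72 := ok_of cp72
theorem ok73 : PatOK.{u} pt73 := ok_of cp73
theorem ok74 : PatOK.{u} pt74 := ok_of cp74
theorem ok75 : PatOK.{u} pt75 := ok_of cp75
theorem ok76 : PatOK.{u} pt76 := ok_of cp76
theorem ok77 : PatOK.{u} pt77 := ok_of cp77
theorem ok79 : PatOK.{u} pt79 := ok_of cp79
theorem ok82 : PatOK.{u} pt82 := ok_of cp82
theorem ok83 : PatOK.{u} pt83 := ok_of cp83
theorem ok85 : PatOK.{u} pt85 := ok_of cp85
theorem ok86 : PatOK.{u} pt86 := ok_of cp86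
theorem ok87 : PatOK.{u} pt87 := ok_of cp87
theorem ok88 : PatOK.{u} pt88 := ok_of cp88
theorem ok89 : PatOK.{u} pt89 := ok_of cp89
theorem ok90 : PatOK.{u} pt90 := ok_of cp90
theorem ok91 : PatOK.{u} pt91 := ok_of cp91
theorem ok92 : PatOK.{u} pt92 := ok_of cp92
theorem ok93 : PatOK.{u} pt93 := ok_of cp93
theorem ok94 : PatOK.{u} pt94 := ok_of cp94
theorem ok95 : PatOK.{u} pt95 := ok_of cp95
theorem ok96 : PatOK.{u} pt96 := ok_of cp96
theorem ok97 : PatOK.{u} pt97 := ok_of cp97
theorem ok98 : PatOK.{u} pt98 := ok_of cp98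
theorem ok99 : PatOK.{u} pt99 := ok_of cp99
theorem ok100 : PatOK.{u} pt100 := ok_of cp100
theorem ok101 : PatOK.{u} pt101 := ok_of cp101
theorem ok102 : PatOK.{u} pt102 := ok_of cp102
theorem ok103 : PatOK.{u} pt103 := ok_of cp103
theorem ok104 : PatOK.{u} pt104 := ok_of cp104
theorem ok105 : PatOK.{u} pt105 := ok_of cp105
theorem ok106 : PatOK.{u} pt106 := ok_of cp106
theorem ok107 : PatOK.{u} pt107 := ok_of cp107
theorem ok108 : PatOK.{u} pt108 := ok_of cp108
theorem ok109 : PatOK.{u} pt109 := ok_of cp109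
theorem ok110 : PatOK.{u} pt110 := ok_of cp110
theorem ok111 : PatOK.{u} pt111 := ok_of cp111
theorem ok112 : PatOK.{u} pt112 := ok_of cp112
theorem ok113 : PatOK.{u} pt113 := ok_of cp113
theorem ok114 : PatOK.{u} pt114 := ok_of cp114
theorem ok115 : PatOK.{u} pt115 := ok_of cp115
theorem ok117 : PatOK.{u} pt117 := ok_of cp117
theorem ok118 : PatOK.{u} pt118 := ok_of cp118
theorem ok119 : PatOK.{u} pt119 := ok_of cp119
theorem ok120 : PatOK.{u} pt120 := ok_of cp120
theorem ok121 : PatOK.{u} pt121 := ok_of cp121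
theorem ok122 : PatOK.{u} pt122 := ok_of cp122
theorem ok123 : PatOK.{u} pt123 := ok_of cp123
theorem ok124 : PatOK.{u} pt124 := ok_of cp124
theorem ok125 : PatOK.{u} pt125 := ok_of cp125
theorem ok126 : PatOK.{u} pt126 := ok_of cp126
theorem ok127 : PatOK.{u} pt127 := ok_of cp127
theorem ok128 : PatOK.{u} pt128 := ok_of cp128
theorem ok129 : PatOK.{u} pt129 := ok_of cp129
theorem ok130 : PatOK.{u} pt130 := ok_of cp130
theorem ok131 : PatOK.{u} pt131 := ok_of cp131
theorem ok133 : PatOK.{u} pt133 := ok_of cp133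
theorem ok134 : PatOK.{u} pt134 := ok_of cp134
theorem ok136 : PatOK.{u} pt136 := ok_of cp136
theorem ok137 : PatOK.{u} pt137 := ok_of cp137
theorem ok138 : PatOK.{u} pt138 := ok_of cp138
theorem ok139 : PatOK.{u} pt139 := ok_of cp139
theorem ok140 : PatOK.{u} pt140 := ok_of cp140
theorem ok141 : PatOK.{u} pt141 := ok_of cp141
theorem ok142 : PatOK.{u} pt142 := ok_of cp142
theorem ok143 : PatOK.{u} pt143 := ok_of cp143
theorem ok144 : PatOK.{u} pt144 := ok_of cp144
theorem ok145 : PatOK.{u} pt145 := ok_of cp145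
theorem ok146 : PatOK.{u} pt146 := ok_of cp146
theorem ok147 : PatOK.{u} pt147 := ok_of cp147
theorem ok148 : PatOK.{u} pt148 := ok_of cp148
theorem ok149 : PatOK.{u} pt149 := ok_of cp149
theorem ok150 : PatOK.{u} pt150 := ok_of cp150
theorem ok151 : PatOK.{u} pt151 := ok_of cp151
theorem ok152 : PatOK.{u} pt152 := ok_of cp152
theorem ok153 : PatOK.{u} pt153 := ok_of cp153
theorem ok155 : PatOK.{u} pt155 := ok_of cp155
theorem ok156 : PatOK.{u} pt156 := ok_of cp156
theorem ok157 : PatOK.{u} pt157 := ok_of cp157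
theorem ok158 : PatOK.{u} pt158 := ok_of cp158
theorem ok159 : PatOK.{u} pt159 := ok_of cp159
theorem ok160 : PatOK.{u} pt160 := ok_of cp160
theorem ok161 : PatOK.{u} pt161 := ok_of cp161
theorem ok162 : PatOK.{u} pt162 := ok_of cp162
theorem ok163 : PatOK.{u} pt163 := ok_of cp163
theorem ok165 : PatOK.{u} pt165 := ok_of cp165
theorem ok166 : PatOK.{u} pt166 := ok_of cp166
theorem ok167 : PatOK.{u} pt167 := ok_of cp167
theorem ok168 : PatOK.{u} pt168 := ok_of cp168
theorem ok169 : PatOK.{u} pt169 := ok_of cp169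
theorem ok170 : PatOK.{u} pt170 := ok_of cp170
theorem ok171 : PatOK.{u} pt171 := ok_of cp171
theorem ok172 : PatOK.{u} pt172 := ok_of cp172
theorem ok173 : PatOK.{u} pt173 := ok_of cp173
theorem ok174 : PatOK.{u} pt174 := ok_of cp174
theorem ok175 : PatOK.{u} pt175 := ok_of cp175
theorem ok176 : PatOK.{u} pt176 := ok_of cp176
theorem ok177 : PatOK.{u} pt177 := ok_of cp177
theorem ok178 : PatOK.{u} pt178 := ok_of cp178
theorem ok179 : PatOK.{u} pt179 := ok_of cp179
theorem ok180 : PatOK.{u} pt180 := ok_of cp180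
theorem ok181 : PatOK.{u} pt181 := ok_of cp181
theorem ok182 : PatOK.{u} pt182 := ok_of cp182
theorem ok183 : PatOK.{u} pt183 := ok_of cp183
theorem ok184 : PatOK.{u} pt184 := ok_of cp184
theorem ok185 : PatOK.{u} pt185 := ok_of cp185
theorem ok186 : PatOK.{u} pt186 := ok_of cp186
theorem ok187 : PatOK.{u} pt187 := ok_of cp187
theorem ok188 : PatOK.{u} pt188 := ok_of cp188
theorem ok189 : PatOK.{u} pt189 := ok_of cp189
theorem ok190 : PatOK.{u} pt190 := ok_of cp190
theorem ok191 : PatOK.{u} pt191 := ok_of cp191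
theorem ok193 : PatOK.{u} pt193 := ok_of cp193
theorem ok194 : PatOK.{u} pt194 := ok_of cp194
theorem ok195 : PatOK.{u} pt195 := ok_of cp195
theorem ok196 : PatOK.{u} pt196 := ok_of cp196
theorem ok197 : PatOK.{u} pt197 := ok_of cp197
theorem ok198 : PatOK.{u} pt198 := ok_of cp198
theorem ok199 : PatOK.{u} pt199 := ok_of cp199
theorem ok200 : PatOK.{u} pt200 := ok_of cp200
theorem ok201 : PatOK.{u} pt201 := ok_of cp201
theorem ok202 : PatOK.{u} pt202 := ok_of cp202
theorem ok203 : PatOK.{u} pt203 := ok_of cp203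
theorem ok206 : PatOK.{u} pt206 := ok_of cp206
theorem ok207 : PatOK.{u} pt207 := ok_of cp207
theorem ok208 : PatOK.{u} pt208 := ok_of cp208
theorem ok209 : PatOK.{u} pt209 := ok_of cp209
theorem ok210 : PatOK.{u} pt210 := ok_of cp210
theorem ok211 : PatOK.{u} pt211 := ok_of cp211
theorem ok212 : PatOK.{u} pt212 := ok_of cp212
theorem ok214 : PatOK.{u} pt214 := ok_of cp214
theorem ok215 : PatOK.{u} pt215 := ok_of cp215
theorem ok216 : PatOK.{u} pt216 := ok_of cp216
theorem ok217 : PatOK.{u} pt217 := ok_of cp217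
theorem ok218 : PatOK.{u} pt218 := ok_of cp218
theorem ok220 : PatOK.{u} pt220 := ok_of cp220
theorem ok221 : PatOK.{u} pt221 := ok_of cp221
theorem ok222 : PatOK.{u} pt222 := ok_of cp222
theorem ok223 : PatOK.{u} pt223 := ok_of cp223
theorem ok224 : PatOK.{u} pt224 := ok_of cp224
theorem ok225 : PatOK.{u} pt225 := ok_of cp225
theorem ok226 : PatOK.{u} pt226 := ok_of cp226
theorem ok227 : PatOK.{u} pt227 := ok_of cp227
theorem ok228 : PatOK.{u} pt228 := ok_of cp228
theorem ok229 : PatOK.{u} pt229 := ok_of cp229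
theorem ok230 : PatOK.{u} pt230 := ok_of cp230
theorem ok232 : PatOK.{u} pt232 := ok_of cp232
theorem ok235 : PatOK.{u} pt235 := ok_of cp235
theorem ok236 : PatOK.{u} pt236 := ok_of cp236
theorem ok237 : PatOK.{u} pt237 := ok_of cp237
theorem ok238 : PatOK.{u} pt238 := ok_of cp238
theorem ok241 : PatOK.{u} pt241 := ok_of cp241
theorem ok242 : PatOK.{u} pt242 := ok_of cp242
theorem ok244 : PatOK.{u} pt244 := ok_of cp244
theorem ok245 : PatOK.{u} pt245 := ok_of cp245
theorem ok246 : PatOK.{u} pt246 := ok_of cp246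
theorem ok247 : PatOK.{u} pt247 := ok_of cp247
theorem ok248 : PatOK.{u} pt248 := ok_of cp248
theorem ok249 : PatOK.{u} pt249 := ok_of cp249
theorem ok250 : PatOK.{u} pt250 := ok_of cp250
theorem ok251 : PatOK.{u} pt251 := ok_of cp251
theorem ok252 : PatOK.{u} pt252 := ok_of cp252
theorem ok253 : PatOK.{u} pt253 := ok_of cp253
theorem ok254 : PatOK.{u} pt254 := ok_of cp254
theorem ok255 : PatOK.{u} pt255 := ok_of cp255
theorem ok256 : PatOK.{u} pt256 := ok_of cp256
theorem ok257 : PatOK.{u} pt257 := ok_of cp257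
theorem ok258 : PatOK.{u} pt258 := ok_of cp258
theorem ok259 : PatOK.{u} pt259 := ok_of cp259
theorem ok260 : PatOK.{u} pt260 := ok_of cp260
theorem ok261 : PatOK.{u} pt261 := ok_of cp261
theorem ok262 : PatOK.{u} pt262 := ok_of cp262
theorem ok264 : PatOK.{u} pt264 := ok_of cp264
theorem ok268 : PatOK.{u} pt268 := ok_of cp268
theorem ok269 : PatOK.{u} pt269 := ok_of cp269
theorem ok270 : PatOK.{u} pt270 := ok_of cp270
theorem ok271 : PatOK.{u} pt271 := ok_of cp271
theorem ok272 : PatOK.{u} pt272 := ok_of cp272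
theorem ok274 : PatOK.{u} pt274 := ok_of cp274
theorem ok275 : PatOK.{u} pt275 := ok_of cp275
theorem ok276 : PatOK.{u} pt276 := ok_of cp276
theorem ok282 : PatOK.{u} pt282 := ok_of cp282

theorem pats_ok : pats.All PatOK.{u} :=
  (And.intro (And.intro (And.intro (And.intro ok1 ok2) (And.intro (And.intro (And.intro (And.intro (And.intro ok3 (patOK_mir ok3)) (And.intro (And.intro ok4 (patOK_mir ok4)) (And.intro ok5 ok6))) (And.intro (patOK_mir ok6) ok7)) (And.intro ok8 (And.intro (And.intro ok9 (patOK_mir ok9)) ok10))) (And.intro (And.intro (And.intro (And.intro (And.intro (And.intro ok11 (patOK_mir ok11)) ok12) (patOK_mir ok12)) (And.intro ok13 (patOK_mir ok13))) ok14) (patOK_mir ok14)))) (And.intro (And.intro (And.intro ok15 (And.intro (And.intro (patOK_mir ok15) ok16) (And.intro (And.intro ok17 (And.intro (patOK_mir ok17) (And.intro ok18 (patOK_mir ok18)))) (And.intro ok19 (patOK_mir ok19))))) (And.intro (And.intro ok20 (And.intro (patOK_mir ok20) ok21)) (And.intro (And.intro (patOK_mir ok21)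 (And.intro ok22 (patOK_mir ok22))) ok23))) (And.intro (And.intro (And.intro (And.intro (patOK_mir ok23) ok24) (And.intro (And.intro (And.intro (patOK_mir ok24) (And.intro (And.intro ok25 (patOK_mir ok25)) ok26)) (And.intro ok27 (And.intro (patOK_mir ok27) ok28))) (And.intro (patOK_mir ok28) ok29))) (And.intro (And.intro (And.intro (And.intro (patOK_mir ok29) (And.intro ok30 (And.intro (patOK_mir ok30) ok31))) (And.intro (And.intro (patOK_mir ok31) ok32) (And.intro (patOK_mir ok32) ok33))) (And.intro (And.intro (patOK_mir ok33) ok34) (And.intro (And.intro (And.intro (patOK_mir ok35) (And.intro (patOK_mir ok36) (patOK_mir ok37))) (And.intro (patOK_mir ok38) (And.intro (patOK_mir ok39) ok40))) ok41))) (And.intro (And.intro (And.intro (And.intro (patOK_mir ok41) (And.intro (And.intro ok42 ok43) (And.intro (patOK_mir ok43) ok44))) (patOK_mir ok44)) ok45) (patOK_mir ok45)))) (And.intro (And.intro (And.intro (And.intro (And.intro ok46 (patOK_mir ok46)) (And.intro ok47 (And.intro (patOK_mir ok47) (And.intro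 ok49 (patOK_mir ok49))))) ok50) (And.intro (patOK_mir ok50) (And.intro (And.intro (And.intro (And.intro ok51 (patOK_mir ok51)) (And.intro ok52 (patOK_mir ok52))) ok57) (And.intro ok58 (patOK_mir ok58))))) (And.intro (And.intro ok59 (And.intro (And.intro (patOK_mir ok59) (And.intro (And.intro ok60 (patOK_mir ok60)) ok61)) (And.intro (And.intro (And.intro (And.intro (patOK_mir ok61) ok62) (And.intro (patOK_mir ok62) ok63)) (And.intro (patOK_mir ok63) (And.intro ok64 (patOK_mir ok64)))) (And.intro (And.intro ok65 (patOK_mir ok65)) (And.intro ok67 (patOK_mir ok67)))))) (And.intro (And.intro (And.intro ok69 (patOK_mir ok69)) ok70) ok71)))))) (And.intro (And.intro (And.intro (And.intro (And.intro (And.intro (patOK_mir ok71) ok72) (And.intro (And.intro (And.intro (patOK_mir ok72) (And.intro ok73 (And.intro (patOK_mir ok73) ok74))) (And.intro (And.intro (And.intro (patOK_mir ok74) ok75) (And.intro (patOK_mir ok75) (And.intro ok76 (patOK_mir ok76)))) ok77)) (And.intro (patOK_mir ok77) (And.intro ok79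 (And.intro (patOK_mir ok79) ok82))))) (And.intro ok83 (And.intro (patOK_mir ok83) ok85))) (And.intro (And.intro ok86 (patOK_mir ok86)) (And.intro (And.intro ok87 (patOK_mir ok87)) (And.intro ok88 (And.intro (patOK_mir ok88) (And.intro ok89 (And.intro (patOK_mir ok89) ok90))))))) (And.intro (And.intro (And.intro (And.intro (And.intro (patOK_mir ok90) (And.intro ok91 (patOK_mir ok91))) (And.intro (And.intro ok92 (And.intro (patOK_mir ok92) ok93)) (And.intro (And.intro (patOK_mir ok93) ok94) (And.intro (And.intro (patOK_mir ok94) ok95) (And.intro (patOK_mir ok95) ok96))))) (And.intro (And.intro (And.intro (patOK_mir ok96) (And.intro ok97 (patOK_mir ok97))) (And.intro (And.intro ok98 (And.intro (patOK_mir ok98) (patOK_mir ok99))) (And.intro ok100 (patOK_mir ok100)))) ok101)) (And.intro (And.intro (And.intro (patOK_mir ok101) ok102) (And.intro (And.intro (patOK_mir ok102) (And.intro ok103 (patOK_mir ok103))) (And.intro (patOK_mir ok104) ok105))) (And.intro (And.intro (patOK_mir ok105) (And.intro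 (And.intro ok106 (patOK_mir ok106)) (And.intro ok107 (And.intro (And.intro (And.intro (patOK_mir ok107) ok108) ok109) (And.intro (patOK_mir ok109) ok110))))) (And.intro (And.intro (And.intro (patOK_mir ok110) (And.intro ok111 (patOK_mir ok111))) (And.intro ok112 (patOK_mir ok112))) (And.intro ok113 (And.intro ok114 (patOK_mir ok114))))))) (And.intro (And.intro (And.intro (And.intro (And.intro ok115 (And.intro (patOK_mir ok115) (And.intro ok117 (patOK_mir ok117)))) (And.intro ok118 (patOK_mir ok118))) (And.intro ok119 (And.intro (And.intro ok120 (patOK_mir ok120)) ok121))) (And.intro (And.intro (And.intro (patOK_mir ok121) (And.intro ok122 (patOK_mir ok122))) ok123) (And.intro (And.intro (And.intro (patOK_mir ok123) ok124) (And.intro (And.intro (And.intro (patOK_mir ok124) ok125) (And.intro (patOK_mir ok125) ok126)) (And.intro (And.intro (patOK_mir ok126) ok127) (And.intro (patOK_mir ok127) ok128)))) (And.intro (And.intro (And.intro (patOK_mir ok128) ok129) (And.intro (patOK_mir ok129) (patOK_mir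 ok130))) (And.intro (And.intro (And.intro (patOK_mir ok131) ok133) (And.intro (patOK_mir ok133) (And.intro ok134 (patOK_mir ok134)))) (And.intro (And.intro ok136 (patOK_mir ok136)) (And.intro (And.intro ok137 ok138) (And.intro (patOK_mir ok138) ok139)))))))) (And.intro (And.intro ok140 (And.intro (And.intro (patOK_mir ok140) (And.intro (And.intro (And.intro ok141 (patOK_mir ok141)) ok142) (And.intro (patOK_mir ok142) ok143))) (And.intro (And.intro (And.intro (And.intro ok144 (patOK_mir ok144)) (And.intro ok145 (And.intro (patOK_mir ok145) ok146))) (And.intro (And.intro (patOK_mir ok146) ok147) (And.intro (patOK_mir ok147) ok148))) (And.intro (And.intro (patOK_mir ok148) (And.intro ok149 (patOK_mir ok149))) (And.intro ok150 (patOK_mir ok150)))))) (And.intro ok151 ok152))))) (And.intro (And.intro (And.intro (And.intro (And.intro ok153 (patOK_mir ok153)) (And.intro (And.intro (And.intro ok155 (patOK_mir ok155)) ok156) ok157)) (And.intro (And.intro (patOK_mir ok157) (And.intro ok158 (patOK_mir ok158)))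 (And.intro ok159 (And.intro (And.intro (And.intro ok160 (And.intro (patOK_mir ok160) ok161)) (And.intro (patOK_mir ok161) ok162)) (And.intro ok163 (And.intro ok165 ok166)))))) (And.intro (And.intro (And.intro (And.intro (And.intro (And.intro (And.intro ok167 (And.intro (patOK_mir ok167) ok168)) ok169) (patOK_mir ok169)) (And.intro ok170 (patOK_mir ok170))) (And.intro ok171 (patOK_mir ok171))) (And.intro ok172 (And.intro (And.intro ok173 (patOK_mir ok173)) ok174))) (And.intro (And.intro (And.intro (patOK_mir ok174) (And.intro ok175 (patOK_mir ok175))) ok176) (And.intro (And.intro (patOK_mir ok176) (And.intro ok177 (patOK_mir ok177))) (And.intro (And.intro (And.intro ok178 (patOK_mir ok178)) (And.intro (And.intro (patOK_mir ok179) (patOK_mir ok180)) ok181)) (And.intro (And.intro (patOK_mir ok181) (And.intro (And.intro ok182 (patOK_mir ok182)) (And.intro ok183 ok184))) (And.intro (And.intro ok185 (patOK_mir ok185)) (And.intro ok186 (patOK_mir ok186))))))))) (And.intro (And.intro (And.intro (And.intro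 (And.intro (And.intro (And.intro (And.intro ok187 (And.intro (patOK_mir ok187) (And.intro ok188 (patOK_mir ok188)))) ok189) (patOK_mir ok189)) (And.intro ok190 (And.intro (And.intro (And.intro (patOK_mir ok190) ok191) (And.intro (And.intro (patOK_mir ok191) (And.intro ok193 (patOK_mir ok193))) ok194)) (And.intro (patOK_mir ok194) (And.intro ok195 (patOK_mir ok195)))))) (And.intro (And.intro ok196 (patOK_mir ok196)) ok197)) (And.intro (And.intro (patOK_mir ok197) ok198) (And.intro (patOK_mir ok198) (And.intro ok199 (patOK_mir ok199))))) (And.intro (And.intro (And.intro (And.intro (And.intro (And.intro (And.intro ok200 ok201) (patOK_mir ok201)) ok202) (And.intro (patOK_mir ok202) (And.intro (patOK_mir ok203) ok206))) (And.intro (patOK_mir ok206) ok207)) (And.intro (And.intro ok208 (patOK_mir ok208)) (And.intro (And.intro ok209 (patOK_mir ok209)) (And.intro ok210 (patOK_mir ok210))))) (And.intro (And.intro (And.intro (And.intro ok211 (patOK_mir ok211)) ok212) (And.intro (patOK_mir ok212) (And.intro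 (And.intro (patOK_mir ok214) ok215) (patOK_mir ok215)))) (And.intro (And.intro (And.intro (And.intro ok216 ok217) (And.intro (patOK_mir ok217) (And.intro (patOK_mir ok218) (And.intro (patOK_mir ok220) (patOK_mir ok221))))) (And.intro ok222 (And.intro (patOK_mir ok222) ok223))) (And.intro (And.intro (And.intro (patOK_mir ok223) ok224) (patOK_mir ok224)) (And.intro ok225 (And.intro (patOK_mir ok225) (And.intro (And.intro ok226 (patOK_mir ok226)) ok227)))))))) (And.intro (And.intro (And.intro (And.intro (And.intro (patOK_mir ok227) ok228) (patOK_mir ok228)) (And.intro (And.intro (And.intro (And.intro ok229 (patOK_mir ok229)) (And.intro ok230 (patOK_mir ok230))) (And.intro (And.intro (patOK_mir ok232) (patOK_mir ok235)) ok236)) (And.intro (patOK_mir ok236) (And.intro ok237 (patOK_mir ok237))))) (And.intro (And.intro (And.intro (And.intro (And.intro (And.intro ok238 (And.intro ok241 (patOK_mir ok241))) ok242) (patOK_mir ok242)) (And.intro ok244 (And.intro (patOK_mir ok244) ok245))) (And.intro (And.intro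 (patOK_mir ok245) (And.intro ok246 (patOK_mir ok246))) ok247)) (And.intro (And.intro (And.intro (And.intro (patOK_mir ok247) ok248) (patOK_mir ok248)) ok249) (And.intro (patOK_mir ok249) (patOK_mir ok250))))) (And.intro (And.intro (And.intro (And.intro (And.intro ok251 (patOK_mir ok251)) (And.intro (And.intro ok252 (And.intro (patOK_mir ok252) (And.intro ok253 (patOK_mir ok253)))) ok254)) (And.intro (And.intro (And.intro (patOK_mir ok254) ok255) (And.intro (patOK_mir ok255) ok256)) (And.intro (And.intro (patOK_mir ok256) ok257) (And.intro (patOK_mir ok257) ok258)))) (And.intro (And.intro (And.intro (patOK_mir ok258) ok259) (And.intro (patOK_mir ok259) (And.intro (And.intro ok260 (patOK_mir ok260)) ok261))) (And.intro (And.intro (And.intro (And.intro (patOK_mir ok261) (And.intro ok262 (patOK_mir ok262))) (And.intro ok264 (patOK_mir ok264))) (And.intro (And.intro ok268 (patOK_mir ok268)) (And.intro ok269 (And.intro (patOK_mir ok269) ok270)))) ok271))) (And.intro (And.intro (And.intro (And.intro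 (patOK_mir ok271) ok272) (And.intro (And.intro (patOK_mir ok272) ok274) (And.intro (patOK_mir ok274) ok275))) (And.intro (patOK_mir ok275) ok276)) (And.intro (patOK_mir ok276) (And.intro ok282 (patOK_mir ok282))))))))))

end Pool.Agent.Lib.MP_bfaad3_co
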