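import Pool.Agent.Lib.MP_bfaad3_co.PMDef

set_option autoImplicit false
set_option maxRecDepth 100000

namespace Pool.Agent.Lib.MP_bfaad3_co

noncomputable section

def pt1 : Prog := (.askT .e (nat_lit 4362613030912) (.askF .e (nat_lit 26388279066624) (.askT (.s .e) (nat_lit 4395899027456) (.askT (.s (.n (.s .e))) (nat_lit 2197949513728) (.askT (.s (.n (.s (.n (.s .e))))) (nat_lit 4395899027456) (.ret (nat_lit 1)) (.ret (nat_lit 0))) (.ret (nat_lit 0))) (.ret (nat_lit 0))) (.ret (nat_lit 0))) (.ret (nat_lit 0)))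
def pt2 : Prog := (.askT .e (nat_lit 4395899027456) (.askF .e (nat_lit 8796093022208) (.askT (.s .e) (nat_lit 4395899027456) (.ret (nat_lit 1)) (.ret (nat_lit 0))) (.ret (nat_lit 0))) (.ret (nat_lit 0)))
def pt3 : Prog := (.askT .e (nat_lit 4388382834688) (.askF .e (nat_lit 26388279066624) (.askT (.p (.s .e)) (nat_lit 3770981285888) (.askT (.s .e) (nat_lit 4395899027456) (.ret (nat_lit 1)) (.ret (nat_lit 0))) (.ret (nat_lit 0))) (.ret (nat_lit 0))) (.ret (nat_lit 0)))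
def pt4 : Prog := (.askT .e (nat_lit 4388382834688) (.askF .e (nat_lit 26388279066624) (.askF (.n .e) (nat_lit 26388279066624) (.askT (.n (.s .e)) (nat_lit 4388382834688) (.askT (.s .e) (nat_lit 4394825285632) (.askT (.s (.n (.s .e))) (nat_lit 4395899027456) (.askT (.s (.p (.s .e))) (nat_lit 4395899027456) (.ret (nat_lit 1)) (.ret (nat_lit 0))) (.ret (nat_lit 0))) (.ret (nat_lit 0))) (.ret (nat_lit 0))) (.ret (nat_lit 0))) (.ret (nat_lit 0))) (.ret (nat_lit 0)))
def pt5 : Prog := (.askT .e (nat_lit 4388382834688) (.askF (.n .e) (nat_lit 8796093022208) (.askT (.s .e) (nat_lit 4395899027456) (.askT (.s (.p (.s .e))) (nat_lit 4388382834688) (.ret (nat_lit 1)) (.ret (nat_lit 0))) (.ret (nat_lit 0))) (.ret (nat_lit 0))) (.ret (nat_lit 0)))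
def pt6 : Prog := (.askT .e (nat_lit 4394825285632) (.askF .e (nat_lit 26388279066624) (.askF (.n .e) (nat_lit 26388279066624) (.askT (.n (.s .e)) (nat_lit 4395899027456) (.askT (.p (.s .e)) (nat_lit 3770981285888) (.askT (.s .e) (nat_lit 4388382834688) (.askT (.s (.n (.s .e))) (nat_lit 4233764012032) (.askT (.s (.p (.s .e))) (nat_lit 4388382834688) (.ret (nat_lit 1)) (.ret (nat_lit 0))) (.ret (nat_lit 0))) (.ret (nat_lit 0))) (.ret (nat_lit 0))) (.ret (nat_lit 0))) (.ret (nat_lit 0))) (.ret (nat_lit 0))) (.ret (nat_lit 0)))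
def pt7 : Prog := (.askT .e (nat_lit 3770981285888) (.askF .e (nat_lit 26388279066624) (.askT (.s .e) (nat_lit 4233764012032) (.askT (.s (.n (.s .e))) (nat_lit 3770981285888) (.askT (.s (.n (.s (.n (.s .e))))) (nat_lit 4233764012032) (.ret (nat_lit 1)) (.ret (nat_lit 0))) (.ret (nat_lit 0))) (.ret (nat_lit 0))) (.ret (nat_lit 0))) (.ret (nat_lit 0)))
def pt8 : Prog := (.askT .e (nat_lit 4394825285632) (.askF .e (nat_lit 26388279066624) (.askF (.n (.n .e)) (nat_lit 26388279066624) (.askT (.n (.s .e)) (nat_lit 4395899027456) (.askT (.s .e) (nat_lit 4395899027456) (.ret (nat_lit 1)) (.ret (nat_lit 0))) (.ret (nat_lit 0))) (.ret (nat_lit 0))) (.ret (nat_lit 0))) (.ret (nat_lit 0)))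
def pt9 : Prog := (.askT .e (nat_lit 4394825285632) (.askF .e (nat_lit 26388279066624) (.askF (.n .e) (nat_lit 26388279066624) (.askT (.n (.s .e)) (nat_lit 4395899027456) (.askT (.p (.s .e)) (nat_lit 4388382834688) (.askT (.s .e) (nat_lit 4388382834688) (.askT (.s (.n (.s .e))) (nat_lit 4388382834688) (.ret (nat_lit 1)) (.ret (nat_lit 0))) (.ret (nat_lit 0))) (.ret (nat_lit 0))) (.ret (nat_lit 0))) (.ret (nat_lit 0))) (.ret (nat_lit 0))) (.ret (nat_lit 0)))
def pt10 : Prog := (.askT .e (nat_lit 4388382834688) (.askF .e (nat_lit 26388279066624) (.askF (.n .e) (nat_lit 21990232555520) (.cnd (.askF .e (nat_lit 26388279066624) (.askT (.s (.n (.s .e))) (nat_lit 3770981285888) (.askT (.s (.n (.s (.n (.s .e))))) (nat_lit 3770981285888) (.ret (nat_lit 1)) (.ret (nat_lit 0))) (.ret (nat_lit 0))) (.ret (nat_lit 0))) (.n (.n .e)) (.cnd (.mv (.n (.s .e)) (.askT .e (nat_lit 3770981285888) (.askT (.n (.s .e)) (nat_lit 3770981285888) (.askT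 (.n (.s (.n (.s .e)))) (nat_lit 3770981285888) (.ret (nat_lit 1)) (.ret (nat_lit 0))) (.ret (nat_lit 0))) (.ret (nat_lit 0)))) (.n (.s .e)) (.askT (.s (.n (.s .e))) (nat_lit 3770981285888) (.ret (nat_lit 1)) (.ret (nat_lit 0))) (.ret (nat_lit 0))) (.ret (nat_lit 0))) (.ret (nat_lit 0))) (.ret (nat_lit 0))) (.ret (nat_lit 0)))
def pt11 : Prog := (.askT .e (nat_lit 4388382834688) (.askF .e (nat_lit 21990232555520) (.askF (.n .e) (nat_lit 26388279066624) (.cnd (.askT .e (nat_lit 4395899027456) (.askF (.n (.s .e)) (nat_lit 4398046511104) (.askT (.p (.s .e)) (nat_lit 4395899027456) (.ret (nat_lit 1)) (.ret (nat_lit 0))) (.ret (nat_lit 0))) (.ret (nat_lit 0))) (.p (.s .e)) (.askT (.s .e) (nat_lit 4394825285632) (.askT (.s (.n (.s .e))) (nat_lit 4395899027456) (.askT (.s (.p (.s .e))) (nat_lit 4395899027456) (.ret (nat_lit 1)) (.ret (nat_lit 0))) (.ret (nat_lit 0))) (.ret (nat_lit 0))) (.ret (nat_lit 0))) (.ret (nat_lit 0))) (.ret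 (nat_lit 0))) (.ret (nat_lit 0)))
def pt12 : Prog := (.askT .e (nat_lit 4394825285632) (.askF .e (nat_lit 21990232555520) (.askF (.n .e) (nat_lit 4398046511104) (.cnd (.askT .e (nat_lit 4395899027456) (.askT (.p (.s .e)) (nat_lit 4395899027456) (.askF (.p (.s (.n (.s .e)))) (nat_lit 21990232555520) (.ret (nat_lit 1)) (.ret (nat_lit 0))) (.ret (nat_lit 0))) (.ret (nat_lit 0))) (.p (.s .e)) (.askT (.s .e) (nat_lit 4395899027456) (.mv (.s (.n .e)) (.askT (.s .e) (nat_lit 4395899027456) (.askF (.s .e) (nat_lit 4398046511104) (.askT (.s (.p (.s .e))) (nat_lit 4395899027456) (.ret (nat_lit 1)) (.ret (nat_lit 0))) (.ret (nat_lit 0))) (.ret (nat_lit 0)))) (.ret (nat_lit 0))) (.ret (nat_lit 0))) (.ret (nat_lit 0))) (.ret (nat_lit 0))) (.ret (nat_lit 0)))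
def pt13 : Prog := (.askT .e (nat_lit 4394825285632) (.askF .e (nat_lit 21990232555520) (.askF (.n .e) (nat_lit 8796093022208) (.askT (.p (.s .e)) (nat_lit 4395899027456) (.askT (.p (.s (.p (.s .e)))) (nat_lit 4395899027456) (.askT (.s .e) (nat_lit 4395899027456) (.askT (.s (.n (.s .e))) (nat_lit 4395899027456) (.ret (nat_lit 1)) (.ret (nat_lit 0))) (.ret (nat_lit 0))) (.ret (nat_lit 0))) (.ret (nat_lit 0))) (.ret (nat_lit 0))) (.ret (nat_lit 0))) (.ret (nat_lit 0)))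
def pt14 : Prog := (.askT .e (nat_lit 4395899027456) (.askF .e (nat_lit 21990232555520) (.askF (.n .e) (nat_lit 21990232555520) (.askT (.n (.s .e)) (nat_lit 4395899027456) (.askT (.p (.s .e)) (nat_lit 3770981285888) (.askT (.s .e) (nat_lit 4395899027456) (.mv (.s (.n .e)) (.askT (.s .e) (nat_lit 4395899027456) (.askF (.s .e) (nat_lit 4398046511104) (.askT (.s (.n (.s .e))) (nat_lit 4395899027456) (.askF (.s (.n (.s .e))) (nat_lit 4398046511104) (.askT (.s (.p (.s .e))) (nat_lit 3770981285888) (.ret (nat_lit 1)) (.ret (nat_lit 0))) (.ret (nat_lit 0))) (.ret (nat_lit 0))) (.ret (nat_lit 0))) (.ret (nat_lit 0)))) (.ret (nat_lit 0))) (.ret (nat_lit 0))) (.ret (nat_lit 0))) (.ret (nat_lit 0))) (.ret (nat_lit 0))) (.ret (nat_lit 0)))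
def pt15 : Prog := (.askT .e (nat_lit 4388382834688) (.askF (.n .e) (nat_lit 21990232555520) (.cnd (.askT .e (nat_lit 4394825285632) (.cnd (.askF .e (nat_lit 26388279066624) (.askT (.s .e) (nat_lit 4395899027456) (.askT (.s (.n (.s .e))) (nat_lit 4233764012032) (.ret (nat_lit 1)) (.ret (nat_lit 0))) (.ret (nat_lit 0))) (.ret (nat_lit 0))) (.n (.n .e)) (.askT (.n (.s .e)) (nat_lit 4388382834688) (.askF (.n (.s (.n (.n .e)))) (nat_lit 4398046511104) (.ret (nat_lit 1)) (.ret (nat_lit 0))) (.ret (nat_lit 0))) (.ret (nat_lit 0))) (.ret (nat_lit 0))) (.n (.s .e)) (.askT (.s .e) (nat_lit 4395899027456) (.askT (.s (.p (.s .e))) (nat_lit 4395899027456) (.ret (nat_lit 1)) (.ret (nat_lit 0))) (.ret (nat_lit 0))) (.ret (nat_lit 0))) (.ret (nat_lit 0))) (.ret (nat_lit 0)))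
def pt16 : Prog := (.askT .e (nat_lit 4388382834688) (.askF .e (nat_lit 21990232555520) (.askF (.n .e) (nat_lit 21990232555520) (.cnd (.askT .e (nat_lit 3770981285888) (.mv (.n (.s .e)) (.askT .e (nat_lit 3770981285888) (.askT (.n (.s .e)) (nat_lit 3770981285888) (.askT (.n (.s (.n (.s .e)))) (nat_lit 3770981285888) (.ret (nat_lit 1)) (.ret (nat_lit 0))) (.ret (nat_lit 0))) (.ret (nat_lit 0)))) (.ret (nat_lit 0))) (.n (.s .e)) (.askT (.p (.s .e)) (nat_lit 3770981285888) (.askT (.s (.n (.s .e))) (nat_lit 3770981285888) (.askT (.s (.n (.s (.n (.s .e))))) (nat_lit 3770981285888) (.ret (nat_lit 1)) (.ret (nat_lit 0))) (.ret (nat_lit 0))) (.ret (nat_lit 0))) (.ret (nat_lit 0))) (.ret (nat_lit 0))) (.ret (nat_lit 0))) (.ret (nat_lit 0)))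
def pt17 : Prog := (.askT .e (nat_lit 4388382834688) (.askF .e (nat_lit 21990232555520) (.askF (.n .e) (nat_lit 21990232555520) (.askT (.n (.s .e)) (nat_lit 4395899027456) (.askT (.n (.s (.n (.s .e)))) (nat_lit 4388382834688) (.askT (.p (.s .e)) (nat_lit 3770981285888) (.askT (.s .e) (nat_lit 4395899027456) (.askT (.s (.n (.s .e))) (nat_lit 3770981285888) (.askT (.s (.n (.s (.n (.s .e))))) (nat_lit 3770981285888) (.askT (.s (.p (.s .e))) (nat_lit 4395899027456) (.ret (nat_lit 1)) (.ret (nat_lit 0))) (.ret (nat_lit 0))) (.ret (nat_lit 0))) (.ret (nat_lit 0))) (.ret (nat_lit 0))) (.ret (nat_lit 0))) (.ret (nat_lit 0))) (.ret (nat_lit 0))) (.ret (nat_lit 0))) (.ret (nat_lit 0)))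
def pt18 : Prog := (.askT .e (nat_lit 4394825285632) (.askF .e (nat_lit 21990232555520) (.askF (.n (.n (.s .e))) (nat_lit 4398046511104) (.cnd (.askT .e (nat_lit 4395899027456) (.askF (.n (.s .e)) (nat_lit 4398046511104) (.mv (.p (.s .e)) (.askT .e (nat_lit 4395899027456) (.askT (.n (.s .e)) (nat_lit 4394825285632) (.askF (.n (.s .e)) (nat_lit 21990232555520) (.ret (nat_lit 1)) (.ret (nat_lit 0))) (.ret (nat_lit 0))) (.ret (nat_lit 0)))) (.ret (nat_lit 0))) (.ret (nat_lit 0))) (.p (.s .e)) (.askT (.s .e) (nat_lit 4395899027456) (.mv (.s (.n .e)) (.askT (.s .e) (nat_lit 4395899027456) (.askT (.s (.p (.s .e))) (nat_lit 4388382834688) (.askT (.s (.p (.s (.n (.s .e))))) (nat_lit 4395899027456) (.ret (nat_lit 1)) (.ret (nat_lit 0))) (.ret (nat_lit 0))) (.ret (nat_lit 0)))) (.ret (nat_lit 0))) (.ret (nat_lit 0))) (.ret (nat_lit 0))) (.ret (nat_lit 0))) (.ret (nat_lit 0)))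
def pt19 : Prog := (.askT .e (nat_lit 4388382834688) (.askF (.n .e) (nat_lit 21990232555520) (.askT (.n (.s .e)) (nat_lit 4395899027456) (.askT (.n (.s (.n (.s .e)))) (nat_lit 4388382834688) (.askT (.s .e) (nat_lit 4395899027456) (.askT (.s (.n (.s .e))) (nat_lit 4395899027456) (.askF (.s (.n (.s .e))) (nat_lit 4398046511104) (.askT (.s (.p (.s .e))) (nat_lit 4395899027456) (.ret (nat_lit 1)) (.ret (nat_lit 0))) (.ret (nat_lit 0))) (.ret (nat_lit 0))) (.ret (nat_lit 0))) (.ret (nat_lit 0))) (.ret (nat_lit 0))) (.ret (nat_lit 0))) (.ret (nat_lit 0)))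
def pt20 : Prog := (.askT .e (nat_lit 4388382834688) (.askF (.n .e) (nat_lit 26388279066624) (.cnd (.askF .e (nat_lit 26388279066624) (.askT (.s .e) (nat_lit 4395899027456) (.askT (.s (.n (.s (.n (.s .e))))) (nat_lit 4233764012032) (.ret (nat_lit 1)) (.ret (nat_lit 0))) (.ret (nat_lit 0))) (.ret (nat_lit 0))) (.n (.n .e)) (.askT (.n (.s (.n (.s .e)))) (nat_lit 3770981285888) (.askT (.s .e) (nat_lit 4395899027456) (.ret (nat_lit 1)) (.ret (nat_lit 0))) (.ret (nat_lit 0))) (.ret (nat_lit 0))) (.ret (nat_lit 0))) (.ret (nat_lit 0)))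
def pt21 : Prog := (.askT .e (nat_lit 4394825285632) (.askF (.n .e) (nat_lit 21990232555520) (.askT (.n (.n (.s .e))) (nat_lit 4395899027456) (.askF (.n (.n (.s .e))) (nat_lit 8796093022208) (.cnd (.askT .e (nat_lit 4394825285632) (.askF (.n (.n .e)) (nat_lit 26388279066624) (.askT (.n (.n (.s .e))) (nat_lit 4395899027456) (.askT (.n (.s .e)) (nat_lit 4388382834688) (.askT (.n (.s (.p (.s .e)))) (nat_lit 4388382834688) (.ret (nat_lit 1)) (.ret (nat_lit 0))) (.ret (nat_lit 0))) (.ret (nat_lit 0))) (.ret (nat_lit 0))) (.ret (nat_lit 0))) (.n (.s .e)) (.askT (.s .e) (nat_lit 4395899027456) (.askT (.s (.p (.s .e))) (nat_lit 4395899027456) (.ret (nat_lit 1)) (.ret (nat_lit 0))) (.ret (nat_lit 0))) (.ret (nat_lit 0))) (.ret (nat_lit 0))) (.ret (nat_lit 0))) (.ret (nat_lit 0))) (.ret (nat_lit 0)))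
def pt22 : Prog := (.askT .e (nat_lit 4394825285632) (.askF (.n .e) (nat_lit 21990232555520) (.askF (.n (.n .e)) (nat_lit 26388279066624) (.askT (.n (.n (.s .e))) (nat_lit 4395899027456) (.cnd (.askT .e (nat_lit 4388382834688) (.cnd (.askT .e (nat_lit 4394825285632) (.askF (.n (.n (.s .e))) (nat_lit 8796093022208) (.askT (.p (.s .e)) (nat_lit 4395899027456) (.ret (nat_lit 1)) (.ret (nat_lit 0))) (.ret (nat_lit 0))) (.ret (nat_lit 0))) (.n (.s .e)) (.askT (.p (.s .e)) (nat_lit 4388382834688) (.ret (nat_lit 1)) (.ret (nat_lit 0))) (.ret (nat_lit 0))) (.ret (nat_lit 0))) (.n (.s .e)) (.askT (.s .e) (nat_lit 4395899027456) (.askT (.s (.p (.s .e))) (nat_lit 4395899027456) (.ret (nat_lit 1)) (.ret (nat_lit 0))) (.ret (nat_lit 0))) (.ret (nat_lit 0))) (.ret (nat_lit 0))) (.ret (nat_lit 0))) (.ret (nat_lit 0))) (.ret (nat_lit 0)))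
def pt23 : Prog := (.askT .e (nat_lit 4394825285632) (.askF (.n .e) (nat_lit 26388279066624) (.askF (.n (.n .e)) (nat_lit 8796093022208) (.askT (.n (.s .e)) (nat_lit 4395899027456) (.askT (.s .e) (nat_lit 4388382834688) (.askT (.s (.p (.s .e))) (nat_lit 4388382834688) (.ret (nat_lit 1)) (.ret (nat_lit 0))) (.ret (nat_lit 0))) (.ret (nat_lit 0))) (.ret (nat_lit 0))) (.ret (nat_lit 0))) (.ret (nat_lit 0)))
def pt24 : Prog := (.askT .e (nat_lit 4388382834688) (.askF .e (nat_lit 21990232555520) (.cnd (.askT .e (nat_lit 4395899027456) (.askF (.n (.s .e)) (nat_lit 4398046511104) (.askT (.p (.s .e)) (nat_lit 4395899027456) (.ret (nat_lit 1)) (.ret (nat_lit 0))) (.ret (nat_lit 0))) (.ret (nat_lit 0))) (.p (.s .e)) (.askT (.s .e) (nat_lit 4395899027456) (.askT (.s (.n (.s .e))) (nat_lit 4395899027456) (.ret (nat_lit 1)) (.ret (nat_lit 0))) (.ret (nat_lit 0))) (.ret (nat_lit 0))) (.ret (nat_lit 0))) (.ret (nat_lit 0)))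
def pt25 : Prog := (.askT .e (nat_lit 4362613030912) (.askF .e (nat_lit 21990232555520) (.cnd (.askT .e (nat_lit 4395899027456) (.askF (.n (.s .e)) (nat_lit 4398046511104) (.askT (.p (.s .e)) (nat_lit 4395899027456) (.ret (nat_lit 1)) (.ret (nat_lit 0))) (.ret (nat_lit 0))) (.ret (nat_lit 0))) (.p (.s .e)) (.askT (.s .e) (nat_lit 4395899027456) (.askT (.s (.n (.s .e))) (nat_lit 4395899027456) (.ret (nat_lit 1)) (.ret (nat_lit 0))) (.ret (nat_lit 0))) (.ret (nat_lit 0))) (.ret (nat_lit 0))) (.ret (nat_lit 0)))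
def pt26 : Prog := (.askT .e (nat_lit 4395899027456) (.askF .e (nat_lit 21990232555520) (.askF (.n (.s .e)) (nat_lit 4398046511104) (.askT (.p (.s .e)) (nat_lit 4395899027456) (.askT (.p (.s (.p (.s .e)))) (nat_lit 4395899027456) (.askT (.s .e) (nat_lit 4395899027456) (.askT (.s (.n (.s .e))) (nat_lit 4395899027456) (.ret (nat_lit 1)) (.ret (nat_lit 0))) (.ret (nat_lit 0))) (.ret (nat_lit 0))) (.ret (nat_lit 0))) (.ret (nat_lit 0))) (.ret (nat_lit 0))) (.ret (nat_lit 0)))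
def pt27 : Prog := (.askT .e (nat_lit 4392677801984) (.askF .e (nat_lit 8796093022208) (.askF (.n .e) (nat_lit 21990232555520) (.cnd (.askF .e (nat_lit 21990232555520) (.askT (.s .e) (nat_lit 4395899027456) (.askT (.s (.n (.s .e))) (nat_lit 4395899027456) (.ret (nat_lit 1)) (.ret (nat_lit 0))) (.ret (nat_lit 0))) (.ret (nat_lit 0))) (.n (.n .e)) (.cnd (.askT .e (nat_lit 4395899027456) (.askT (.n (.s .e)) (nat_lit 4395899027456) (.askT (.p (.s .e)) (nat_lit 4395899027456) (.ret (nat_lit 1)) (.ret (nat_lit 0))) (.ret (nat_lit 0))) (.ret (nat_lit 0))) (.n (.s .e)) (.askT (.s .e) (nat_lit 4395899027456) (.askT (.s (.p (.s .e))) (nat_lit 4395899027456) (.ret (nat_lit 1)) (.ret (nat_lit 0))) (.ret (nat_lit 0))) (.ret (nat_lit 0))) (.ret (nat_lit 0))) (.ret (nat_lit 0))) (.ret (nat_lit 0))) (.ret (nat_lit 0)))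
def pt28 : Prog := (.askT .e (nat_lit 4388382834688) (.askF .e (nat_lit 21990232555520) (.askF (.n .e) (nat_lit 21990232555520) (.cnd (.askF .e (nat_lit 26388279066624) (.askT (.s (.n (.s .e))) (nat_lit 3770981285888) (.askT (.s (.n (.s (.n (.s .e))))) (nat_lit 3770981285888) (.ret (nat_lit 1)) (.ret (nat_lit 0))) (.ret (nat_lit 0))) (.ret (nat_lit 0))) (.n (.n .e)) (.askT (.n (.s (.n (.s .e)))) (nat_lit 4233764012032) (.askT (.s .e) (nat_lit 4395899027456) (.cnd (.askT (.s .e) (nat_lit 4395899027456) (.askF (.s .e) (nat_lit 21990232555520) (.askT (.s (.n (.s .e))) (nat_lit 3770981285888) (.askF (.s (.n (.s .e))) (nat_lit 4398046511104) (.askT (.s (.p (.s .e))) (nat_lit 4395899027456) (.askT (.s (.p (.s (.p (.s .e))))) (nat_lit 3770981285888) (.ret (nat_lit 1)) (.ret (nat_lit 0))) (.ret (nat_lit 0))) (.ret (nat_lit 0))) (.ret (nat_lit 0))) (.ret (nat_lit 0))) (.ret (nat_lit 0))) (.s (.n .e)) (.askT (.s (.p (.s .e))) (nat_lit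 4395899027456) (.ret (nat_lit 1)) (.ret (nat_lit 0))) (.ret (nat_lit 0))) (.ret (nat_lit 0))) (.ret (nat_lit 0))) (.ret (nat_lit 0))) (.ret (nat_lit 0))) (.ret (nat_lit 0))) (.ret (nat_lit 0)))
def pt29 : Prog := (.askT .e (nat_lit 4395899027456) (.askF .e (nat_lit 4398046511104) (.askF (.n .e) (nat_lit 21990232555520) (.askT (.n (.s .e)) (nat_lit 3770981285888) (.askT (.s .e) (nat_lit 4395899027456) (.askT (.s (.n (.s .e))) (nat_lit 3770981285888) (.askF (.s (.n (.s .e))) (nat_lit 4398046511104) (.mv (.s (.p .e)) (.askT (.s .e) (nat_lit 4395899027456) (.askT (.s (.n (.s .e))) (nat_lit 4395899027456) (.askF (.s (.n (.s .e))) (nat_lit 21990232555520) (.askT (.s (.p (.s .e))) (nat_lit 4395899027456) (.ret (nat_lit 1)) (.ret (nat_lit 0))) (.ret (nat_lit 0))) (.ret (nat_lit 0))) (.ret (nat_lit 0)))) (.ret (nat_lit 0))) (.ret (nat_lit 0))) (.ret (nat_lit 0))) (.ret (nat_lit 0))) (.ret (nat_lit 0))) (.ret (nat_lit 0))) (.ret (nat_lit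 0)))
def pt30 : Prog := (.askT .e (nat_lit 4392677801984) (.askF .e (nat_lit 8796093022208) (.askF (.n .e) (nat_lit 21990232555520) (.askF (.n (.n .e)) (nat_lit 26388279066624) (.askT (.n (.n (.s .e))) (nat_lit 4388382834688) (.cnd (.askT .e (nat_lit 4395899027456) (.askT (.n (.s .e)) (nat_lit 4395899027456) (.askT (.p (.s .e)) (nat_lit 4388382834688) (.ret (nat_lit 1)) (.ret (nat_lit 0))) (.ret (nat_lit 0))) (.ret (nat_lit 0))) (.n (.s .e)) (.askT (.s .e) (nat_lit 4395899027456) (.askT (.s (.p (.s .e))) (nat_lit 4395899027456) (.ret (nat_lit 1)) (.ret (nat_lit 0))) (.ret (nat_lit 0))) (.ret (nat_lit 0))) (.ret (nat_lit 0))) (.ret (nat_lit 0))) (.ret (nat_lit 0))) (.ret (nat_lit 0))) (.ret (nat_lit 0)))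
def pt31 : Prog := (.askT .e (nat_lit 4379792900096) (.askF .e (nat_lit 26388279066624) (.askF (.n .e) (nat_lit 26388279066624) (.askT (.n (.s .e)) (nat_lit 4362613030912) (.askT (.p (.s .e)) (nat_lit 3770981285888) (.askT (.s .e) (nat_lit 4395899027456) (.askT (.s (.p (.s .e))) (nat_lit 4362613030912) (.ret (nat_lit 1)) (.ret (nat_lit 0))) (.ret (nat_lit 0))) (.ret (nat_lit 0))) (.ret (nat_lit 0))) (.ret (nat_lit 0))) (.ret (nat_lit 0))) (.ret (nat_lit 0)))
def pt32 : Prog := (.askT .e (nat_lit 4379792900096) (.askF .e (nat_lit 26388279066624) (.askF (.n .e) (nat_lit 26388279066624) (.askT (.n (.s .e)) (nat_lit 4388382834688) (.askT (.p (.s .e)) (nat_lit 3770981285888) (.askT (.s .e) (nat_lit 4395899027456) (.askT (.s (.p (.s .e))) (nat_lit 4362613030912) (.ret (nat_lit 1)) (.ret (nat_lit 0))) (.ret (nat_lit 0))) (.ret (nat_lit 0))) (.ret (nat_lit 0))) (.ret (nat_lit 0))) (.ret (nat_lit 0))) (.ret (nat_lit 0)))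
def pt33 : Prog := (.askT .e (nat_lit 4379792900096) (.askF .e (nat_lit 26388279066624) (.askF (.n .e) (nat_lit 21990232555520) (.askT (.n (.s .e)) (nat_lit 4395899027456) (.askT (.n (.s (.n (.s .e)))) (nat_lit 4395899027456) (.askT (.p (.s .e)) (nat_lit 3770981285888) (.askT (.s .e) (nat_lit 4395899027456) (.askT (.s (.p (.s .e))) (nat_lit 4395899027456) (.ret (nat_lit 1)) (.ret (nat_lit 0))) (.ret (nat_lit 0))) (.ret (nat_lit 0))) (.ret (nat_lit 0))) (.ret (nat_lit 0))) (.ret (nat_lit 0))) (.ret (nat_lit 0))) (.ret (nat_lit 0)))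
def pt34 : Prog := (.askT .e (nat_lit 4362613030912) (.askF .e (nat_lit 21990232555520) (.askF (.n .e) (nat_lit 21990232555520) (.cnd (.askT .e (nat_lit 3770981285888) (.mv (.n (.s .e)) (.askT .e (nat_lit 3770981285888) (.askT (.n (.s .e)) (nat_lit 3770981285888) (.askT (.n (.s (.n (.s .e)))) (nat_lit 3770981285888) (.ret (nat_lit 1)) (.ret (nat_lit 0))) (.ret (nat_lit 0))) (.ret (nat_lit 0)))) (.ret (nat_lit 0))) (.n (.s .e)) (.askT (.p (.s .e)) (nat_lit 3770981285888) (.askT (.s (.n (.s .e))) (nat_lit 3770981285888) (.askT (.s (.n (.s (.n (.s .e))))) (nat_lit 3770981285888) (.ret (nat_lit 1)) (.ret (nat_lit 0))) (.ret (nat_lit 0))) (.ret (nat_lit 0))) (.ret (nat_lit 0))) (.ret (nat_lit 0))) (.ret (nat_lit 0))) (.ret (nat_lit 0)))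
def pt35 : Prog := (.askT .e (nat_lit 4379792900096) (.askF (.n .e) (nat_lit 21990232555520) (.cnd (.askT .e (nat_lit 4395899027456) (.askT (.n (.s .e)) (nat_lit 4379792900096) (.askF (.n (.s (.n (.n .e)))) (nat_lit 4398046511104) (.ret (nat_lit 1)) (.ret (nat_lit 0))) (.ret (nat_lit 0))) (.ret (nat_lit 0))) (.n (.s .e)) (.askT (.s .e) (nat_lit 4395899027456) (.askT (.s (.n (.s .e))) (nat_lit 3770981285888) (.askF (.s (.n (.s .e))) (nat_lit 21990232555520) (.mv (.s (.p .e)) (.askT (.s .e) (nat_lit 4395899027456) (.mv (.s (.n .e)) (.askT (.s .e) (nat_lit 4395899027456) (.askT (.s (.n (.s .e))) (nat_lit 4395899027456) (.askF (.s (.n (.s .e))) (nat_lit 4398046511104) (.askT (.s (.p (.s .e))) (nat_lit 3770981285888) (.ret (nat_lit 1)) (.ret (nat_lit 0))) (.ret (nat_lit 0))) (.ret (nat_lit 0))) (.ret (nat_lit 0)))) (.ret (nat_lit 0)))) (.ret (nat_lit 0))) (.ret (nat_lit 0))) (.ret (nat_lit 0))) (.ret (nat_lit 0))) (.ret (nat_lit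 0))) (.ret (nat_lit 0)))
def pt36 : Prog := (.askT .e (nat_lit 4379792900096) (.askF (.n .e) (nat_lit 21990232555520) (.cnd (.askT .e (nat_lit 4395899027456) (.askT (.n (.s .e)) (nat_lit 4362613030912) (.askF (.n (.s (.n (.n .e)))) (nat_lit 4398046511104) (.ret (nat_lit 1)) (.ret (nat_lit 0))) (.ret (nat_lit 0))) (.ret (nat_lit 0))) (.n (.s .e)) (.askT (.s .e) (nat_lit 4395899027456) (.askT (.s (.n (.s .e))) (nat_lit 3770981285888) (.askF (.s (.n (.s .e))) (nat_lit 21990232555520) (.mv (.s (.p .e)) (.askT (.s .e) (nat_lit 4395899027456) (.mv (.s (.n .e)) (.askT (.s .e) (nat_lit 4395899027456) (.askT (.s (.n (.s .e))) (nat_lit 4395899027456) (.askF (.s (.n (.s .e))) (nat_lit 4398046511104) (.askT (.s (.p (.s .e))) (nat_lit 3770981285888) (.ret (nat_lit 1)) (.ret (nat_lit 0))) (.ret (nat_lit 0))) (.ret (nat_lit 0))) (.ret (nat_lit 0)))) (.ret (nat_lit 0)))) (.ret (nat_lit 0))) (.ret (nat_lit 0))) (.ret (nat_lit 0))) (.ret (nat_lit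 0))) (.ret (nat_lit 0))) (.ret (nat_lit 0)))
def pt37 : Prog := (.askT .e (nat_lit 4362613030912) (.askF (.n .e) (nat_lit 21990232555520) (.cnd (.askT .e (nat_lit 4395899027456) (.askT (.n (.s .e)) (nat_lit 4379792900096) (.askF (.n (.s (.n (.n .e)))) (nat_lit 4398046511104) (.ret (nat_lit 1)) (.ret (nat_lit 0))) (.ret (nat_lit 0))) (.ret (nat_lit 0))) (.n (.s .e)) (.askT (.s .e) (nat_lit 4395899027456) (.askT (.s (.n (.s .e))) (nat_lit 3770981285888) (.askF (.s (.n (.s .e))) (nat_lit 21990232555520) (.mv (.s (.p .e)) (.askT (.s .e) (nat_lit 4395899027456) (.mv (.s (.n .e)) (.askT (.s .e) (nat_lit 4395899027456) (.askT (.s (.n (.s .e))) (nat_lit 4395899027456) (.askF (.s (.n (.s .e))) (nat_lit 4398046511104) (.askT (.s (.p (.s .e))) (nat_lit 3770981285888) (.ret (nat_lit 1)) (.ret (nat_lit 0))) (.ret (nat_lit 0))) (.ret (nat_lit 0))) (.ret (nat_lit 0)))) (.ret (nat_lit 0)))) (.ret (nat_lit 0))) (.ret (nat_lit 0))) (.ret (nat_lit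 0))) (.ret (nat_lit 0))) (.ret (nat_lit 0))) (.ret (nat_lit 0)))
def pt38 : Prog := (.askT .e (nat_lit 4362613030912) (.askF (.n .e) (nat_lit 21990232555520) (.cnd (.askT .e (nat_lit 4395899027456) (.mv (.n (.s .e)) (.askT .e (nat_lit 4362613030912) (.mv (.n (.n .e)) (.askF .e (nat_lit 21990232555520) (.askT (.s .e) (nat_lit 3770981285888) (.askT (.s (.n (.s .e))) (nat_lit 3770981285888) (.askT (.s (.n (.s (.n (.s .e))))) (nat_lit 3770981285888) (.ret (nat_lit 1)) (.ret (nat_lit 0))) (.ret (nat_lit 0))) (.ret (nat_lit 0))) (.ret (nat_lit 0)))) (.ret (nat_lit 0)))) (.ret (nat_lit 0))) (.n (.s .e)) (.askT (.s .e) (nat_lit 4395899027456) (.askT (.s (.p (.s .e))) (nat_lit 4395899027456) (.ret (nat_lit 1)) (.ret (nat_lit 0))) (.ret (nat_lit 0))) (.ret (nat_lit 0))) (.ret (nat_lit 0))) (.ret (nat_lit 0)))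
def pt39 : Prog := (.askT .e (nat_lit 4379792900096) (.askF .e (nat_lit 21990232555520) (.cnd (.askT .e (nat_lit 4395899027456) (.askT (.p (.s .e)) (nat_lit 4379792900096) (.askF (.p (.s (.p .e))) (nat_lit 4398046511104) (.ret (nat_lit 1)) (.ret (nat_lit 0))) (.ret (nat_lit 0))) (.ret (nat_lit 0))) (.p (.s .e)) (.askT (.s .e) (nat_lit 4395899027456) (.cnd (.askT (.s .e) (nat_lit 4395899027456) (.askF (.s .e) (nat_lit 21990232555520) (.askT (.s (.p (.s .e))) (nat_lit 4395899027456) (.askF (.s (.p (.s (.n (.s .e))))) (nat_lit 4398046511104) (.ret (nat_lit 1)) (.ret (nat_lit 0))) (.ret (nat_lit 0))) (.ret (nat_lit 0))) (.ret (nat_lit 0))) (.s (.n .e)) (.askT (.s (.p (.s .e))) (nat_lit 4395899027456) (.askT (.s (.p (.s (.n (.s .e))))) (nat_lit 4394825285632) (.ret (nat_lit 1)) (.ret (nat_lit 0))) (.ret (nat_lit 0))) (.ret (nat_lit 0))) (.ret (nat_lit 0))) (.ret (nat_lit 0))) (.ret (nat_lit 0))) (.ret (nat_lit 0)))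
def pt40 : Prog := (.askT .e (nat_lit 4379792900096) (.askF .e (nat_lit 26388279066624) (.askT (.p (.s .e)) (nat_lit 4395899027456) (.askT (.s .e) (nat_lit 4395899027456) (.ret (nat_lit 1)) (.ret (nat_lit 0))) (.ret (nat_lit 0))) (.ret (nat_lit 0))) (.ret (nat_lit 0)))
def pt41 : Prog := (.askT .e (nat_lit 4379792900096) (.askF (.n .e) (nat_lit 26388279066624) (.cnd (.askF .e (nat_lit 26388279066624) (.askT (.s .e) (nat_lit 4395899027456) (.askF (.s .e) (nat_lit 26388279066624) (.askT (.s (.n (.s .e))) (nat_lit 3770981285888) (.askT (.s (.p (.s .e))) (nat_lit 4394825285632) (.ret (nat_lit 1)) (.ret (nat_lit 0))) (.ret (nat_lit 0))) (.ret (nat_lit 0))) (.ret (nat_lit 0))) (.ret (nat_lit 0))) (.n (.n .e)) (.askT (.n (.s .e)) (nat_lit 4388382834688) (.askT (.n (.s (.n (.s .e)))) (nat_lit 3770981285888) (.askT (.p (.p (.s .e))) (nat_lit 4388382834688) (.askT (.s .e) (nat_lit 4395899027456) (.ret (nat_lit 1)) (.ret (nat_lit 0)))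 (.ret (nat_lit 0))) (.ret (nat_lit 0))) (.ret (nat_lit 0))) (.ret (nat_lit 0))) (.ret (nat_lit 0))) (.ret (nat_lit 0)))
def pt42 : Prog := (.askT .e (nat_lit 4394825285632) (.askF .e (nat_lit 26388279066624) (.cnd (.askT .e (nat_lit 4388382834688) (.mv (.n (.n .e)) (.askT (.s .e) (nat_lit 4394825285632) (.askF (.s .e) (nat_lit 26388279066624) (.askT (.s (.p (.s .e))) (nat_lit 4395899027456) (.ret (nat_lit 1)) (.ret (nat_lit 0))) (.ret (nat_lit 0))) (.ret (nat_lit 0)))) (.ret (nat_lit 0))) (.p (.s .e)) (.askT (.s .e) (nat_lit 4395899027456) (.ret (nat_lit 1)) (.ret (nat_lit 0))) (.ret (nat_lit 0))) (.ret (nat_lit 0))) (.ret (nat_lit 0)))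
def pt43 : Prog := (.askT .e (nat_lit 4394825285632) (.askF .e (nat_lit 26388279066624) (.cnd (.askT .e (nat_lit 4388382834688) (.mv (.n (.n .e)) (.askT (.s .e) (nat_lit 4388382834688) (.askF (.s .e) (nat_lit 26388279066624) (.askT (.s (.p (.s .e))) (nat_lit 4395899027456) (.askT (.s (.p (.s (.p (.s .e))))) (nat_lit 4233764012032) (.ret (nat_lit 1)) (.ret (nat_lit 0))) (.ret (nat_lit 0))) (.ret (nat_lit 0))) (.ret (nat_lit 0)))) (.ret (nat_lit 0))) (.p (.s .e)) (.askT (.s .e) (nat_lit 4395899027456) (.ret (nat_lit 1)) (.ret (nat_lit 0))) (.ret (nat_lit 0))) (.ret (nat_lit 0))) (.ret (nat_lit 0)))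
def pt44 : Prog := (.askT .e (nat_lit 4379792900096) (.askF .e (nat_lit 26388279066624) (.askF (.n .e) (nat_lit 26388279066624) (.askT (.n (.s .e)) (nat_lit 4388382834688) (.askT (.p (.s .e)) (nat_lit 3770981285888) (.askT (.s .e) (nat_lit 4395899027456) (.askT (.s (.p (.s .e))) (nat_lit 4388382834688) (.ret (nat_lit 1)) (.ret (nat_lit 0))) (.ret (nat_lit 0))) (.ret (nat_lit 0))) (.ret (nat_lit 0))) (.ret (nat_lit 0))) (.ret (nat_lit 0))) (.ret (nat_lit 0)))
def pt45 : Prog := (.askT .e (nat_lit 4379792900096) (.askF (.n .e) (nat_lit 26388279066624) (.cnd (.askF .e (nat_lit 26388279066624) (.askT (.s .e) (nat_lit 4395899027456) (.askT (.s (.n (.s .e))) (nat_lit 625991483392) (.ret (nat_lit 1)) (.ret (nat_lit 0))) (.ret (nat_lit 0))) (.ret (nat_lit 0))) (.n (.n .e)) (.askT (.n (.s .e)) (nat_lit 4388382834688) (.askT (.p (.p (.s .e))) (nat_lit 625991483392) (.askT (.p (.s .e)) (nat_lit 625991483392) (.askT (.s .e) (nat_lit 4395899027456)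 (.askT (.s (.p (.s .e))) (nat_lit 4388382834688) (.ret (nat_lit 1)) (.ret (nat_lit 0))) (.ret (nat_lit 0))) (.ret (nat_lit 0))) (.ret (nat_lit 0))) (.ret (nat_lit 0))) (.ret (nat_lit 0))) (.ret (nat_lit 0))) (.ret (nat_lit 0)))
def pt46 : Prog := (.askT .e (nat_lit 4394825285632) (.askF .e (nat_lit 26388279066624) (.cnd (.askT .e (nat_lit 4388382834688) (.askT (.n (.n (.s .e))) (nat_lit 4395899027456) (.askF (.n (.n (.s .e))) (nat_lit 8796093022208) (.askT (.p (.s .e)) (nat_lit 4233764012032) (.ret (nat_lit 1)) (.ret (nat_lit 0))) (.ret (nat_lit 0))) (.ret (nat_lit 0))) (.ret (nat_lit 0))) (.p (.s .e)) (.askT (.s .e) (nat_lit 4395899027456) (.ret (nat_lit 1)) (.ret (nat_lit 0))) (.ret (nat_lit 0))) (.ret (nat_lit 0))) (.ret (nat_lit 0)))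
def pt47 : Prog := (.askT .e (nat_lit 4388382834688) (.askF .e (nat_lit 26388279066624) (.cnd (.askT .e (nat_lit 4388382834688) (.cnd (.askT (.s .e) (nat_lit 4395899027456) (.askF (.s .e) (nat_lit 26388279066624) (.askT (.s (.p (.s .e))) (nat_lit 3770981285888) (.ret (nat_lit 1)) (.ret (nat_lit 0))) (.ret (nat_lit 0))) (.ret (nat_lit 0))) (.n (.n .e)) (.askT (.p (.s .e)) (nat_lit 4233764012032) (.ret (nat_lit 1)) (.ret (nat_lit 0))) (.ret (nat_lit 0))) (.ret (nat_lit 0))) (.p (.s .e)) (.askT (.s .e) (nat_lit 4395899027456) (.ret (nat_lit 1)) (.ret (nat_lit 0))) (.ret (nat_lit 0))) (.ret (nat_lit 0))) (.ret (nat_lit 0)))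
def pt49 : Prog := (.askT .e (nat_lit 4394825285632) (.askF .e (nat_lit 26388279066624) (.cnd (.askT .e (nat_lit 4388382834688) (.mv (.n (.n .e)) (.askT (.s .e) (nat_lit 4394825285632) (.askF (.s .e) (nat_lit 26388279066624) (.askT (.s (.p (.s .e))) (nat_lit 4388382834688) (.askT (.s (.p (.s (.p (.s .e))))) (nat_lit 4233764012032) (.ret (nat_lit 1)) (.ret (nat_lit 0))) (.ret (nat_lit 0))) (.ret (nat_lit 0))) (.ret (nat_lit 0)))) (.ret (nat_lit 0))) (.p (.s .e)) (.askT (.s .e) (nat_lit 4395899027456) (.ret (nat_lit 1)) (.ret (nat_lit 0))) (.ret (nat_lit 0))) (.ret (nat_lit 0))) (.ret (nat_lit 0)))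
def pt50 : Prog := (.askT .e (nat_lit 4388382834688) (.askF .e (nat_lit 8796093022208) (.askF (.n .e) (nat_lit 26388279066624) (.askT (.n (.n (.s .e))) (nat_lit 625991483392) (.askT (.p (.s .e)) (nat_lit 625991483392) (.askT (.s .e) (nat_lit 4394825285632) (.askT (.s (.n (.s .e))) (nat_lit 625991483392) (.askT (.s (.p (.s .e))) (nat_lit 4395899027456) (.ret (nat_lit 1)) (.ret (nat_lit 0))) (.ret (nat_lit 0))) (.ret (nat_lit 0))) (.ret (nat_lit 0))) (.ret (nat_lit 0))) (.ret (nat_lit 0))) (.ret (nat_lit 0))) (.ret (nat_lit 0)))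
def pp51_0 : Prog := (.askT (.s (.n (.s .e))) (nat_lit 3770981285888) (.ret (nat_lit 1)) (.ret (nat_lit 0)))
def pt51 : Prog := (.askT .e (nat_lit 4388382834688) (.askF .e (nat_lit 26388279066624) (.cnd (.askF .e (nat_lit 26388279066624) (.askT (.s .e) (nat_lit 4233764012032) pp51_0 (.ret (nat_lit 0))) (.ret (nat_lit 0))) (.n (.n .e)) (.askT (.n (.s .e)) (nat_lit 4395899027456) (.askT (.p (.s .e)) (nat_lit 3770981285888) (.askT (.s .e) (nat_lit 4388382834688) pp51_0 (.ret (nat_lit 0))) (.ret (nat_lit 0))) (.ret (nat_lit 0))) (.ret (nat_lit 0))) (.ret (nat_lit 0))) (.ret (nat_lit 0)))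
def pt52 : Prog := (.askT .e (nat_lit 4379792900096) (.askF .e (nat_lit 8796093022208) (.askF (.n .e) (nat_lit 26388279066624) (.askT (.n (.n (.s .e))) (nat_lit 625991483392) (.askT (.n (.s .e)) (nat_lit 4388382834688) (.askT (.p (.p (.s .e))) (nat_lit 625991483392) (.askT (.p (.s .e)) (nat_lit 625991483392) (.askT (.s .e) (nat_lit 4395899027456) (.askT (.s (.n (.s .e))) (nat_lit 625991483392) (.askT (.s (.p (.s .e))) (nat_lit 4388382834688) (.ret (nat_lit 1)) (.ret (nat_lit 0))) (.ret (nat_lit 0))) (.ret (nat_lit 0))) (.ret (nat_lit 0))) (.ret (nat_lit 0))) (.ret (nat_lit 0))) (.ret (nat_lit 0))) (.ret (nat_lit 0))) (.ret (nat_lit 0))) (.ret (nat_lit 0)))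
def pt57 : Prog := (.askT .e (nat_lit 4362613030912) (.askF (.n .e) (nat_lit 8796093022208) (.askT (.s .e) (nat_lit 4395899027456) (.askT (.s (.p (.s .e))) (nat_lit 4362613030912) (.ret (nat_lit 1)) (.ret (nat_lit 0))) (.ret (nat_lit 0))) (.ret (nat_lit 0))) (.ret (nat_lit 0)))
def pt58 : Prog := (.askT .e (nat_lit 4379792900096) (.askF (.n .e) (nat_lit 26388279066624) (.cnd (.askF .e (nat_lit 26388279066624) (.askT (.s .e) (nat_lit 4388382834688) (.askF (.s (.n (.n .e))) (nat_lit 26388279066624) (.ret (nat_lit 1)) (.ret (nat_lit 0))) (.ret (nat_lit 0))) (.ret (nat_lit 0))) (.n (.n .e)) (.cnd (.askT .e (nat_lit 4388382834688) (.askT (.n (.s .e)) (nat_lit 625991483392) (.askT (.p (.s .e)) (nat_lit 4394825285632) (.askT (.p (.s (.n (.n (.s .e))))) (nat_lit 4395899027456) (.ret (nat_lit 1)) (.ret (nat_lit 0))) (.ret (nat_lit 0))) (.ret (nat_lit 0))) (.ret (nat_lit 0))) (.n (.s .e)) (.askT (.p (.p (.s .e))) (nat_lit 625991483392)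 (.askT (.p (.s .e)) (nat_lit 625991483392) (.askT (.s .e) (nat_lit 4395899027456) (.ret (nat_lit 1)) (.ret (nat_lit 0))) (.ret (nat_lit 0))) (.ret (nat_lit 0))) (.ret (nat_lit 0))) (.ret (nat_lit 0))) (.ret (nat_lit 0))) (.ret (nat_lit 0)))
def pt59 : Prog := (.askT .e (nat_lit 4379792900096) (.askF (.n .e) (nat_lit 21990232555520) (.askF (.n (.n .e)) (nat_lit 8796093022208) (.askT (.n (.n (.s .e))) (nat_lit 625991483392) (.cnd (.askT .e (nat_lit 4395899027456) (.askT (.n (.s .e)) (nat_lit 4395899027456) (.askT (.p (.s .e)) (nat_lit 625991483392) (.ret (nat_lit 1)) (.ret (nat_lit 0))) (.ret (nat_lit 0))) (.ret (nat_lit 0))) (.n (.s .e)) (.askT (.p (.p (.s .e))) (nat_lit 625991483392) (.askT (.p (.s .e)) (nat_lit 625991483392) (.askT (.s .e) (nat_lit 4395899027456) (.askT (.s (.p (.s .e))) (nat_lit 4395899027456) (.ret (nat_lit 1)) (.ret (nat_lit 0))) (.ret (nat_lit 0))) (.ret (nat_lit 0))) (.ret (nat_lit 0))) (.ret (nat_lit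 0))) (.ret (nat_lit 0))) (.ret (nat_lit 0))) (.ret (nat_lit 0))) (.ret (nat_lit 0)))
def pt60 : Prog := (.askT .e (nat_lit 4394825285632) (.askF .e (nat_lit 26388279066624) (.cnd (.askT .e (nat_lit 4388382834688) (.mv (.n (.n .e)) (.askT (.s .e) (nat_lit 4388382834688) (.askF (.s .e) (nat_lit 26388279066624) (.askT (.s (.n (.n (.s .e)))) (nat_lit 4388382834688) (.askF (.s (.n (.n (.s .e)))) (nat_lit 26388279066624) (.mv (.s (.p .e)) (.askT (.s .e) (nat_lit 4394825285632) (.askT (.s (.n (.s .e))) (nat_lit 4395899027456) (.askT (.s (.p (.s .e))) (nat_lit 4233764012032) (.ret (nat_lit 1)) (.ret (nat_lit 0))) (.ret (nat_lit 0))) (.ret (nat_lit 0)))) (.ret (nat_lit 0))) (.ret (nat_lit 0))) (.ret (nat_lit 0))) (.ret (nat_lit 0)))) (.ret (nat_lit 0))) (.p (.s .e)) (.askT (.s .e) (nat_lit 4395899027456) (.ret (nat_lit 1)) (.ret (nat_lit 0))) (.ret (nat_lit 0))) (.ret (nat_lit 0))) (.ret (nat_lit 0)))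
def pt61 : Prog := (.askT .e (nat_lit 4379792900096) (.askF (.n .e) (nat_lit 21990232555520) (.askF (.n (.n .e)) (nat_lit 8796093022208) (.cnd (.askT .e (nat_lit 4395899027456) (.askT (.n (.s .e)) (nat_lit 4395899027456) (.askT (.p (.s .e)) (nat_lit 4388382834688) (.ret (nat_lit 1)) (.ret (nat_lit 0))) (.ret (nat_lit 0))) (.ret (nat_lit 0))) (.n (.s .e)) (.askT (.s .e) (nat_lit 4395899027456) (.askT (.s (.p (.s .e))) (nat_lit 4395899027456) (.ret (nat_lit 1)) (.ret (nat_lit 0))) (.ret (nat_lit 0))) (.ret (nat_lit 0))) (.ret (nat_lit 0))) (.ret (nat_lit 0))) (.ret (nat_lit 0)))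
def pt62 : Prog := (.askT .e (nat_lit 4379792900096) (.askF .e (nat_lit 26388279066624) (.askF (.n .e) (nat_lit 26388279066624) (.cnd (.askF .e (nat_lit 26388279066624) (.askT (.s .e) (nat_lit 4233764012032) (.askT (.s (.n (.s .e))) (nat_lit 3770981285888) (.ret (nat_lit 1)) (.ret (nat_lit 0))) (.ret (nat_lit 0))) (.ret (nat_lit 0))) (.n (.n .e)) (.askT (.n (.s .e)) (nat_lit 4395899027456) (.askF (.p .e) (nat_lit 26388279066624) (.askT (.p (.p (.s .e))) (nat_lit 4233764012032) (.askT (.p (.s .e)) (nat_lit 3770981285888) (.askT (.p (.s (.n (.s .e)))) (nat_lit 3770981285888) (.askT (.s .e) (nat_lit 4388382834688) (.askT (.s (.n (.s .e))) (nat_lit 3770981285888) (.askT (.s (.p (.s .e))) (nat_lit 4388382834688) (.ret (nat_lit 1)) (.ret (nat_lit 0))) (.ret (nat_lit 0))) (.ret (nat_lit 0))) (.ret (nat_lit 0))) (.ret (nat_lit 0))) (.ret (nat_lit 0))) (.ret (nat_lit 0))) (.ret (nat_lit 0))) (.ret (nat_lit 0))) (.ret (nat_lit 0)))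 (.ret (nat_lit 0))) (.ret (nat_lit 0)))
def pt63 : Prog := (.askT .e (nat_lit 4379792900096) (.askF .e (nat_lit 26388279066624) (.askF (.n .e) (nat_lit 26388279066624) (.cnd (.askT (.s .e) (nat_lit 4395899027456) (.askF (.s .e) (nat_lit 26388279066624) (.askT (.s (.n (.s .e))) (nat_lit 625991483392) (.askT (.s (.p (.s .e))) (nat_lit 4388382834688) (.ret (nat_lit 1)) (.ret (nat_lit 0))) (.ret (nat_lit 0))) (.ret (nat_lit 0))) (.ret (nat_lit 0))) (.n (.n .e)) (.askT (.n (.s .e)) (nat_lit 4233764012032) (.askT (.n (.s (.n (.s .e)))) (nat_lit 3770981285888) (.askT (.p (.s .e)) (nat_lit 4233764012032) (.askT (.s .e) (nat_lit 4395899027456) (.askT (.s (.n (.s .e))) (nat_lit 3770981285888) (.ret (nat_lit 1)) (.ret (nat_lit 0))) (.ret (nat_lit 0))) (.ret (nat_lit 0))) (.ret (nat_lit 0))) (.ret (nat_lit 0))) (.ret (nat_lit 0))) (.ret (nat_lit 0))) (.ret (nat_lit 0))) (.ret (nat_lit 0)))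
def pt64 : Prog := (.askT .e (nat_lit 4379792900096) (.askF .e (nat_lit 26388279066624) (.askF (.n .e) (nat_lit 8796093022208) (.cnd (.askF .e (nat_lit 26388279066624) (.askT (.s .e) (nat_lit 4395899027456) (.askF (.s .e) (nat_lit 26388279066624) (.askT (.s (.p (.s .e))) (nat_lit 3770981285888) (.ret (nat_lit 1)) (.ret (nat_lit 0))) (.ret (nat_lit 0))) (.ret (nat_lit 0))) (.ret (nat_lit 0))) (.n (.n .e)) (.askT (.n (.s .e)) (nat_lit 4388382834688) (.askT (.n (.s (.p (.s .e)))) (nat_lit 4394825285632) (.askT (.p (.p (.s .e))) (nat_lit 4233764012032) (.askT (.p (.s .e)) (nat_lit 4233764012032) (.askT (.s .e) (nat_lit 4395899027456) (.askT (.s (.n (.s .e))) (nat_lit 3770981285888) (.ret (nat_lit 1)) (.ret (nat_lit 0))) (.ret (nat_lit 0))) (.ret (nat_lit 0))) (.ret (nat_lit 0))) (.ret (nat_lit 0))) (.ret (nat_lit 0))) (.ret (nat_lit 0))) (.ret (nat_lit 0))) (.ret (nat_lit 0))) (.ret (nat_lit 0)))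
def pt65 : Prog := (.askT .e (nat_lit 4379792900096) (.askF .e (nat_lit 26388279066624) (.askF (.n .e) (nat_lit 26388279066624) (.askF (.n (.n .e)) (nat_lit 26388279066624) (.askT (.n (.n (.s .e))) (nat_lit 4395899027456) (.cnd (.askT .e (nat_lit 4388382834688) (.askT (.n (.s .e)) (nat_lit 625991483392) (.askT (.p (.s .e)) (nat_lit 4394825285632) (.ret (nat_lit 1)) (.ret (nat_lit 0))) (.ret (nat_lit 0))) (.ret (nat_lit 0))) (.n (.s .e)) (.askT (.p (.p (.s .e))) (nat_lit 625991483392) (.askT (.p (.s .e)) (nat_lit 4388382834688) (.askT (.s .e) (nat_lit 4395899027456) (.askT (.s (.n (.s .e))) (nat_lit 4394825285632) (.ret (nat_lit 1)) (.ret (nat_lit 0))) (.ret (nat_lit 0))) (.ret (nat_lit 0))) (.ret (nat_lit 0))) (.ret (nat_lit 0))) (.ret (nat_lit 0))) (.ret (nat_lit 0))) (.ret (nat_lit 0))) (.ret (nat_lit 0))) (.ret (nat_lit 0)))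
def pt67 : Prog := (.askT .e (nat_lit 4362613030912) (.askF .e (nat_lit 8796093022208) (.askT (.s .e) (nat_lit 4395899027456) (.askT (.s (.n (.s .e))) (nat_lit 4388382834688) (.ret (nat_lit 1)) (.ret (nat_lit 0))) (.ret (nat_lit 0))) (.ret (nat_lit 0))) (.ret (nat_lit 0)))
def pt69 : Prog := (.askT .e (nat_lit 4362613030912) (.askF (.n .e) (nat_lit 26388279066624) (.cnd (.askF .e (nat_lit 26388279066624) (.askT (.s .e) (nat_lit 4394825285632) (.askT (.s (.n (.s .e))) (nat_lit 4395899027456) (.askT (.s (.n (.s (.n (.s .e))))) (nat_lit 4233764012032) (.ret (nat_lit 1)) (.ret (nat_lit 0))) (.ret (nat_lit 0))) (.ret (nat_lit 0))) (.ret (nat_lit 0))) (.n (.n .e)) (.askT (.n (.s (.n (.s .e)))) (nat_lit 3770981285888) (.askT (.s .e) (nat_lit 4395899027456) (.ret (nat_lit 1)) (.ret (nat_lit 0))) (.ret (nat_lit 0))) (.ret (nat_lit 0))) (.ret (nat_lit 0))) (.ret (nat_lit 0)))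
def pt70 : Prog := (.askT .e (nat_lit 4362613030912) (.askF .e (nat_lit 26388279066624) (.askT (.n (.n (.s .e))) (nat_lit 625991483392) (.askT (.n (.s .e)) (nat_lit 625991483392) (.askT (.p (.p (.s .e))) (nat_lit 625991483392) (.askT (.p (.s .e)) (nat_lit 3770981285888) (.askT (.s .e) (nat_lit 3770981285888) (.askT (.s (.n (.s .e))) (nat_lit 4233764012032) (.ret (nat_lit 1)) (.ret (nat_lit 0))) (.ret (nat_lit 0))) (.ret (nat_lit 0))) (.ret (nat_lit 0))) (.ret (nat_lit 0))) (.ret (nat_lit 0))) (.ret (nat_lit 0))) (.ret (nat_lit 0)))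
def pt71 : Prog := (.askT .e (nat_lit 4394825285632) (.askF .e (nat_lit 4398046511104) (.askF (.n .e) (nat_lit 21990232555520) (.cnd (.askT .e (nat_lit 4395899027456) (.askT (.n (.s .e)) (nat_lit 4395899027456) (.askF (.n (.s .e)) (nat_lit 4398046511104) (.ret (nat_lit 1)) (.ret (nat_lit 0))) (.ret (nat_lit 0))) (.ret (nat_lit 0))) (.n (.s .e)) (.askT (.s .e) (nat_lit 4395899027456) (.askT (.s (.n (.s .e))) (nat_lit 4395899027456) (.askF (.s (.n (.s .e))) (nat_lit 21990232555520) (.askT (.s (.p (.s .e))) (nat_lit 4395899027456) (.ret (nat_lit 1)) (.ret (nat_lit 0))) (.ret (nat_lit 0))) (.ret (nat_lit 0))) (.ret (nat_lit 0))) (.ret (nat_lit 0))) (.ret (nat_lit 0))) (.ret (nat_lit 0))) (.ret (nat_lit 0)))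
def pt72 : Prog := (.askT .e (nat_lit 4394825285632) (.askF .e (nat_lit 21990232555520) (.askF (.n (.n (.s .e))) (nat_lit 4398046511104) (.cnd (.askT .e (nat_lit 4395899027456) (.askF (.n (.s .e)) (nat_lit 4398046511104) (.mv (.p (.s .e)) (.askT .e (nat_lit 4395899027456) (.askT (.n (.s .e)) (nat_lit 3770981285888) (.askF (.n (.s .e)) (nat_lit 21990232555520) (.ret (nat_lit 1)) (.ret (nat_lit 0))) (.ret (nat_lit 0))) (.ret (nat_lit 0)))) (.ret (nat_lit 0))) (.ret (nat_lit 0))) (.p (.s .e)) (.askT (.s .e) (nat_lit 4395899027456) (.askT (.s (.n (.s .e))) (nat_lit 4395899027456) (.askT (.s (.n (.s (.p (.s .e))))) (nat_lit 4320737099776) (.ret (nat_lit 1)) (.ret (nat_lit 0))) (.ret (nat_lit 0))) (.ret (nat_lit 0))) (.ret (nat_lit 0))) (.ret (nat_lit 0))) (.ret (nat_lit 0))) (.ret (nat_lit 0)))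
def pt73 : Prog := (.askT .e (nat_lit 4388382834688) (.askF (.n .e) (nat_lit 26388279066624) (.askF (.n (.n .e)) (nat_lit 26388279066624) (.askT (.n (.n (.s .e))) (nat_lit 4388382834688) (.mv (.n (.s .e)) (.askT .e (nat_lit 4394825285632) (.askT (.n (.s .e)) (nat_lit 3770981285888) (.askT (.n (.s (.n (.s .e)))) (nat_lit 4362613030912) (.askT (.p (.s .e)) (nat_lit 4395899027456) (.ret (nat_lit 1)) (.ret (nat_lit 0))) (.ret (nat_lit 0))) (.ret (nat_lit 0))) (.ret (nat_lit 0)))) (.ret (nat_lit 0))) (.ret (nat_lit 0))) (.ret (nat_lit 0))) (.ret (nat_lit 0)))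
def pt74 : Prog := (.askT .e (nat_lit 4388382834688) (.askF (.n .e) (nat_lit 26388279066624) (.cnd (.askT (.s .e) (nat_lit 4388382834688) (.askF (.s .e) (nat_lit 26388279066624) (.askT (.s (.p (.s .e))) (nat_lit 3770981285888) (.ret (nat_lit 1)) (.ret (nat_lit 0))) (.ret (nat_lit 0))) (.ret (nat_lit 0))) (.n (.n .e)) (.cnd (.askT .e (nat_lit 4394825285632) (.askT (.n (.s .e)) (nat_lit 4395899027456) (.askT (.n (.s (.n (.s .e)))) (nat_lit 4362613030912) (.ret (nat_lit 1)) (.ret (nat_lit 0))) (.ret (nat_lit 0))) (.ret (nat_lit 0))) (.n (.s .e)) (.askT (.p (.s .e)) (nat_lit 3770981285888) (.ret (nat_lit 1)) (.ret (nat_lit 0))) (.ret (nat_lit 0))) (.ret (nat_lit 0))) (.ret (nat_lit 0))) (.ret (nat_lit 0)))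
def pt75 : Prog := (.askT .e (nat_lit 4392677801984) (.askF (.n .e) (nat_lit 26388279066624) (.askF (.n (.n .e)) (nat_lit 26388279066624) (.askT (.n (.n (.s .e))) (nat_lit 4395899027456) (.cnd (.askT .e (nat_lit 4388382834688) (.askT (.n (.s .e)) (nat_lit 4233764012032) (.askT (.p (.s .e)) (nat_lit 4388382834688) (.ret (nat_lit 1)) (.ret (nat_lit 0))) (.ret (nat_lit 0))) (.ret (nat_lit 0))) (.n (.s .e)) (.askT (.s .e) (nat_lit 4395899027456) (.ret (nat_lit 1)) (.ret (nat_lit 0))) (.ret (nat_lit 0))) (.ret (nat_lit 0))) (.ret (nat_lit 0))) (.ret (nat_lit 0))) (.ret (nat_lit 0)))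
def pt76 : Prog := (.askT .e (nat_lit 4362613030912) (.askF .e (nat_lit 26388279066624) (.cnd (.askT .e (nat_lit 4388382834688) (.mv (.n (.n .e)) (.askT (.s .e) (nat_lit 4388382834688) (.askF (.s .e) (nat_lit 26388279066624) (.askT (.s (.p (.s .e))) (nat_lit 4395899027456) (.askT (.s (.p (.s (.p (.s .e))))) (nat_lit 3770981285888) (.ret (nat_lit 1)) (.ret (nat_lit 0))) (.ret (nat_lit 0))) (.ret (nat_lit 0))) (.ret (nat_lit 0)))) (.ret (nat_lit 0))) (.p (.s .e)) (.askT (.s .e) (nat_lit 4395899027456) (.ret (nat_lit 1)) (.ret (nat_lit 0))) (.ret (nat_lit 0))) (.ret (nat_lit 0))) (.ret (nat_lit 0)))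
def pt77 : Prog := (.askT .e (nat_lit 4395899027456) (.askF .e (nat_lit 4398046511104) (.askF (.n .e) (nat_lit 21990232555520) (.cnd (.askT .e (nat_lit 4395899027456) (.askF .e (nat_lit 21990232555520) (.askT (.p (.s .e)) (nat_lit 3770981285888) (.ret (nat_lit 1)) (.ret (nat_lit 0))) (.ret (nat_lit 0))) (.ret (nat_lit 0))) (.n (.s .e)) (.askT (.p (.s .e)) (nat_lit 4320737099776) (.askT (.s .e) (nat_lit 4395899027456) (.askT (.s (.n (.s .e))) (nat_lit 4395899027456) (.askF (.s (.n (.s .e))) (nat_lit 4398046511104) (.askT (.s (.p (.s .e))) (nat_lit 4395899027456) (.ret (nat_lit 1)) (.ret (nat_lit 0))) (.ret (nat_lit 0))) (.ret (nat_lit 0))) (.ret (nat_lit 0))) (.ret (nat_lit 0))) (.ret (nat_lit 0))) (.ret (nat_lit 0))) (.ret (nat_lit 0))) (.ret (nat_lit 0)))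
def pt79 : Prog := (.askT .e (nat_lit 4388382834688) (.askF .e (nat_lit 4398046511104) (.askF (.n .e) (nat_lit 21990232555520) (.askT (.s .e) (nat_lit 4395899027456) (.askT (.s (.n (.s .e))) (nat_lit 4395899027456) (.askF (.s (.n (.s .e))) (nat_lit 4398046511104) (.mv (.s (.p .e)) (.askT (.s .e) (nat_lit 4395899027456) (.askT (.s (.n (.s .e))) (nat_lit 4320737099776) (.askF (.s (.n (.s .e))) (nat_lit 21990232555520) (.askT (.s (.p (.s .e))) (nat_lit 4395899027456) (.askT (.s (.p (.s (.n (.s .e))))) (nat_lit 3770981285888) (.ret (nat_lit 1)) (.ret (nat_lit 0))) (.ret (nat_lit 0))) (.ret (nat_lit 0))) (.ret (nat_lit 0))) (.ret (nat_lit 0)))) (.ret (nat_lit 0))) (.ret (nat_lit 0))) (.ret (nat_lit 0))) (.ret (nat_lit 0))) (.ret (nat_lit 0))) (.ret (nat_lit 0)))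
def pt82 : Prog := (.askT .e (nat_lit 4394825285632) (.askF .e (nat_lit 21990232555520) (.askF (.n .e) (nat_lit 4398046511104) (.askT (.p (.s .e)) (nat_lit 4395899027456) (.askT (.s .e) (nat_lit 4395899027456) (.mv (.s (.n .e)) (.askT (.s .e) (nat_lit 4395899027456) (.askF (.s .e) (nat_lit 21990232555520) (.mv (.s (.p .e)) (.askT (.s .e) (nat_lit 4395899027456) (.askT (.s (.n (.s .e))) (nat_lit 3770981285888) (.askF (.s (.n (.s .e))) (nat_lit 4398046511104) (.askT (.s (.p (.s .e))) (nat_lit 4395899027456) (.askT (.s (.p (.s (.p (.s .e))))) (nat_lit 3770981285888) (.ret (nat_lit 1)) (.ret (nat_lit 0))) (.ret (nat_lit 0))) (.ret (nat_lit 0))) (.ret (nat_lit 0))) (.ret (nat_lit 0)))) (.ret (nat_lit 0))) (.ret (nat_lit 0)))) (.ret (nat_lit 0))) (.ret (nat_lit 0))) (.ret (nat_lit 0))) (.ret (nat_lit 0))) (.ret (nat_lit 0)))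
def pt83 : Prog := (.askT .e (nat_lit 4388382834688) (.askF .e (nat_lit 21990232555520) (.askF (.n .e) (nat_lit 21990232555520) (.askT (.n (.s .e)) (nat_lit 3770981285888) (.askT (.p (.s .e)) (nat_lit 3770981285888) (.askT (.s .e) (nat_lit 4395899027456) (.cnd (.askT (.s .e) (nat_lit 4395899027456) (.askF (.s .e) (nat_lit 21990232555520) (.askT (.s (.n (.s .e))) (nat_lit 3770981285888) (.askF (.s (.n (.s .e))) (nat_lit 4398046511104) (.askT (.s (.p (.s .e))) (nat_lit 4395899027456) (.askT (.s (.p (.s (.p (.s .e))))) (nat_lit 3770981285888) (.ret (nat_lit 1)) (.ret (nat_lit 0))) (.ret (nat_lit 0))) (.ret (nat_lit 0))) (.ret (nat_lit 0))) (.ret (nat_lit 0))) (.ret (nat_lit 0))) (.s (.n .e)) (.askT (.s (.p (.s .e))) (nat_lit 4395899027456) (.ret (nat_lit 1)) (.ret (nat_lit 0))) (.ret (nat_lit 0))) (.ret (nat_lit 0))) (.ret (nat_lit 0))) (.ret (nat_lit 0))) (.ret (nat_lit 0))) (.ret (nat_lit 0))) (.ret (nat_lit 0)))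
def pt85 : Prog := (.askT .e (nat_lit 4392677801984) (.askF .e (nat_lit 21990232555520) (.askF (.n .e) (nat_lit 21990232555520) (.cnd (.askF .e (nat_lit 21990232555520) (.askT (.s .e) (nat_lit 4395899027456) (.askT (.s (.n (.s .e))) (nat_lit 4395899027456) (.ret (nat_lit 1)) (.ret (nat_lit 0))) (.ret (nat_lit 0))) (.ret (nat_lit 0))) (.n (.n .e)) (.cnd (.askT .e (nat_lit 4395899027456) (.askT (.n (.s .e)) (nat_lit 4395899027456) (.askT (.p (.s .e)) (nat_lit 4395899027456) (.ret (nat_lit 1)) (.ret (nat_lit 0))) (.ret (nat_lit 0))) (.ret (nat_lit 0))) (.n (.s .e)) (.askT (.p (.s .e)) (nat_lit 4395899027456) (.askT (.p (.s (.p (.s .e)))) (nat_lit 4395899027456) (.askT (.s .e) (nat_lit 4395899027456) (.askT (.s (.n (.s .e))) (nat_lit 4395899027456) (.askT (.s (.p (.s .e))) (nat_lit 4395899027456) (.ret (nat_lit 1)) (.ret (nat_lit 0))) (.ret (nat_lit 0))) (.ret (nat_lit 0))) (.ret (nat_lit 0))) (.ret (nat_lit 0))) (.ret (nat_lit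 0))) (.ret (nat_lit 0))) (.ret (nat_lit 0))) (.ret (nat_lit 0))) (.ret (nat_lit 0)))
def pt86 : Prog := (.askT .e (nat_lit 4394825285632) (.askF .e (nat_lit 21990232555520) (.cnd (.askT .e (nat_lit 4395899027456) (.askF (.n (.s .e)) (nat_lit 4398046511104) (.askT (.p (.s .e)) (nat_lit 4395899027456) (.askF (.p (.s (.n (.s .e)))) (nat_lit 4398046511104) (.ret (nat_lit 1)) (.ret (nat_lit 0))) (.ret (nat_lit 0))) (.ret (nat_lit 0))) (.ret (nat_lit 0))) (.p (.s .e)) (.askT (.s .e) (nat_lit 4395899027456) (.cnd (.askT (.s .e) (nat_lit 4395899027456) (.askF (.s .e) (nat_lit 21990232555520) (.askT (.s (.p (.s .e))) (nat_lit 3770981285888) (.ret (nat_lit 1)) (.ret (nat_lit 0))) (.ret (nat_lit 0))) (.ret (nat_lit 0))) (.s (.n .e)) (.askT (.s (.p (.s .e))) (nat_lit 4320737099776) (.ret (nat_lit 1)) (.ret (nat_lit 0))) (.ret (nat_lit 0))) (.ret (nat_lit 0))) (.ret (nat_lit 0))) (.ret (nat_lit 0))) (.ret (nat_lit 0)))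
def pt87 : Prog := (.askT .e (nat_lit 4394825285632) (.askF .e (nat_lit 21990232555520) (.cnd (.askT .e (nat_lit 4395899027456) (.askF (.n (.s .e)) (nat_lit 4398046511104) (.askT (.p (.s .e)) (nat_lit 4395899027456) (.askF (.p (.s (.n (.s .e)))) (nat_lit 4398046511104) (.ret (nat_lit 1)) (.ret (nat_lit 0))) (.ret (nat_lit 0))) (.ret (nat_lit 0))) (.ret (nat_lit 0))) (.p (.s .e)) (.askT (.s .e) (nat_lit 4395899027456) (.mv (.s (.n .e)) (.askT (.s .e) (nat_lit 4395899027456) (.askF (.s .e) (nat_lit 21990232555520) (.askT (.s (.p (.s .e))) (nat_lit 4395899027456) (.ret (nat_lit 1)) (.ret (nat_lit 0))) (.ret (nat_lit 0))) (.ret (nat_lit 0)))) (.ret (nat_lit 0))) (.ret (nat_lit 0))) (.ret (nat_lit 0))) (.ret (nat_lit 0)))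
def pt88 : Prog := (.askT .e (nat_lit 4394825285632) (.askF .e (nat_lit 21990232555520) (.cnd (.askT .e (nat_lit 4395899027456) (.askF (.n (.s .e)) (nat_lit 4398046511104) (.askT (.p (.s .e)) (nat_lit 4395899027456) (.askF (.p (.s (.n (.s .e)))) (nat_lit 4398046511104) (.ret (nat_lit 1)) (.ret (nat_lit 0))) (.ret (nat_lit 0))) (.ret (nat_lit 0))) (.ret (nat_lit 0))) (.p (.s .e)) (.askT (.s .e) (nat_lit 4395899027456) (.askT (.s (.n (.s .e))) (nat_lit 4395899027456) (.askF (.s (.n (.s .e))) (nat_lit 21990232555520) (.askT (.s (.p (.s .e))) (nat_lit 4395899027456) (.ret (nat_lit 1)) (.ret (nat_lit 0))) (.ret (nat_lit 0))) (.ret (nat_lit 0))) (.ret (nat_lit 0))) (.ret (nat_lit 0))) (.ret (nat_lit 0))) (.ret (nat_lit 0)))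
def pt89 : Prog := (.askT .e (nat_lit 4394825285632) (.askF .e (nat_lit 21990232555520) (.cnd (.askT .e (nat_lit 4395899027456) (.cnd (.askT .e (nat_lit 4394825285632) (.askF .e (nat_lit 21990232555520) (.askT (.p (.s .e)) (nat_lit 4395899027456) (.ret (nat_lit 1)) (.ret (nat_lit 0))) (.ret (nat_lit 0))) (.ret (nat_lit 0))) (.n (.s .e)) (.askT (.p (.s .e)) (nat_lit 4395899027456) (.askF (.p (.s (.n (.s .e)))) (nat_lit 4398046511104) (.ret (nat_lit 1)) (.ret (nat_lit 0))) (.ret (nat_lit 0))) (.ret (nat_lit 0))) (.ret (nat_lit 0))) (.p (.s .e)) (.askT (.s .e) (nat_lit 4395899027456) (.askT (.s (.n (.s .e))) (nat_lit 4395899027456) (.askF (.s (.n (.s .e))) (nat_lit 4398046511104) (.ret (nat_lit 1)) (.ret (nat_lit 0))) (.ret (nat_lit 0))) (.ret (nat_lit 0))) (.ret (nat_lit 0))) (.ret (nat_lit 0))) (.ret (nat_lit 0)))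
def pt90 : Prog := (.askT .e (nat_lit 4394825285632) (.askF .e (nat_lit 21990232555520) (.cnd (.askT .e (nat_lit 4395899027456) (.askF (.n (.s .e)) (nat_lit 21990232555520) (.mv (.p (.s .e)) (.askT .e (nat_lit 4395899027456) (.mv (.n (.s .e)) (.askT .e (nat_lit 4394825285632) (.askF .e (nat_lit 4398046511104) (.askT (.n (.s .e)) (nat_lit 4395899027456) (.ret (nat_lit 1)) (.ret (nat_lit 0))) (.ret (nat_lit 0))) (.ret (nat_lit 0)))) (.ret (nat_lit 0)))) (.ret (nat_lit 0))) (.ret (nat_lit 0))) (.p (.s .e)) (.askT (.s .e) (nat_lit 4395899027456) (.askT (.s (.n (.s .e))) (nat_lit 4395899027456) (.askF (.s (.n (.s .e))) (nat_lit 4398046511104) (.ret (nat_lit 1)) (.ret (nat_lit 0))) (.ret (nat_lit 0))) (.ret (nat_lit 0))) (.ret (nat_lit 0))) (.ret (nat_lit 0))) (.ret (nat_lit 0)))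
def pt91 : Prog := (.askT .e (nat_lit 4379792900096) (.askF .e (nat_lit 21990232555520) (.cnd (.askT .e (nat_lit 4395899027456) (.askT (.p (.s .e)) (nat_lit 4388382834688) (.askF (.p (.s (.n (.n (.s .e))))) (nat_lit 4398046511104) (.ret (nat_lit 1)) (.ret (nat_lit 0))) (.ret (nat_lit 0))) (.ret (nat_lit 0))) (.p (.s .e)) (.askT (.s .e) (nat_lit 4395899027456) (.cnd (.askT (.s .e) (nat_lit 4395899027456) (.askF (.s .e) (nat_lit 21990232555520) (.askT (.s (.p (.s .e))) (nat_lit 4395899027456) (.askF (.s (.p (.s (.n (.s .e))))) (nat_lit 4398046511104) (.ret (nat_lit 1)) (.ret (nat_lit 0))) (.ret (nat_lit 0))) (.ret (nat_lit 0))) (.ret (nat_lit 0))) (.s (.n .e)) (.askT (.s (.p (.s .e))) (nat_lit 4394825285632) (.askT (.s (.p (.s (.n (.s .e))))) (nat_lit 4395899027456) (.ret (nat_lit 1)) (.ret (nat_lit 0))) (.ret (nat_lit 0))) (.ret (nat_lit 0))) (.ret (nat_lit 0))) (.ret (nat_lit 0))) (.ret (nat_lit 0))) (.ret (nat_lit 0)))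
def pt92 : Prog := (.askT .e (nat_lit 4362613030912) (.askF .e (nat_lit 21990232555520) (.askT (.p (.s .e)) (nat_lit 4395899027456) (.askT (.p (.s (.p (.s .e)))) (nat_lit 4388382834688) (.askT (.s .e) (nat_lit 4395899027456) (.mv (.s (.n .e)) (.askT (.s .e) (nat_lit 4395899027456) (.askF (.s .e) (nat_lit 4398046511104) (.askT (.s (.p (.s .e))) (nat_lit 4395899027456) (.ret (nat_lit 1)) (.ret (nat_lit 0))) (.ret (nat_lit 0))) (.ret (nat_lit 0)))) (.ret (nat_lit 0))) (.ret (nat_lit 0))) (.ret (nat_lit 0))) (.ret (nat_lit 0))) (.ret (nat_lit 0)))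
def pt93 : Prog := (.askT .e (nat_lit 4379792900096) (.askF .e (nat_lit 4398046511104) (.askF (.n .e) (nat_lit 21990232555520) (.askT (.n (.s .e)) (nat_lit 4395899027456) (.askT (.n (.s (.n (.s .e)))) (nat_lit 4388382834688) (.askT (.s .e) (nat_lit 4395899027456) (.cnd (.askT (.s .e) (nat_lit 4395899027456) (.askF (.s .e) (nat_lit 21990232555520) (.askF (.s (.n (.s .e))) (nat_lit 4398046511104) (.askT (.s (.p (.s .e))) (nat_lit 4395899027456) (.ret (nat_lit 1)) (.ret (nat_lit 0))) (.ret (nat_lit 0))) (.ret (nat_lit 0))) (.ret (nat_lit 0))) (.s (.n .e)) (.askT (.s (.p (.s .e))) (nat_lit 4395899027456) (.askT (.s (.p (.s (.n (.s .e))))) (nat_lit 4394825285632) (.ret (nat_lit 1)) (.ret (nat_lit 0))) (.ret (nat_lit 0))) (.ret (nat_lit 0))) (.ret (nat_lit 0))) (.ret (nat_lit 0))) (.ret (nat_lit 0))) (.ret (nat_lit 0))) (.ret (nat_lit 0))) (.ret (nat_lit 0)))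
def pt94 : Prog := (.askT .e (nat_lit 4379792900096) (.askF .e (nat_lit 4398046511104) (.askF (.n .e) (nat_lit 21990232555520) (.askT (.n (.s .e)) (nat_lit 4395899027456) (.askT (.n (.s (.n (.s .e)))) (nat_lit 4379792900096) (.askT (.s .e) (nat_lit 4395899027456) (.cnd (.askT (.s .e) (nat_lit 4395899027456) (.askF (.s .e) (nat_lit 21990232555520) (.askF (.s (.n (.s .e))) (nat_lit 4398046511104) (.askT (.s (.p (.s .e))) (nat_lit 4395899027456) (.ret (nat_lit 1)) (.ret (nat_lit 0))) (.ret (nat_lit 0))) (.ret (nat_lit 0))) (.ret (nat_lit 0))) (.s (.n .e)) (.askT (.s (.p (.s .e))) (nat_lit 4395899027456) (.askT (.s (.p (.s (.n (.s .e))))) (nat_lit 4394825285632) (.ret (nat_lit 1)) (.ret (nat_lit 0))) (.ret (nat_lit 0))) (.ret (nat_lit 0))) (.ret (nat_lit 0))) (.ret (nat_lit 0))) (.ret (nat_lit 0))) (.ret (nat_lit 0))) (.ret (nat_lit 0))) (.ret (nat_lit 0)))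
def pt95 : Prog := (.askT .e (nat_lit 4379792900096) (.askF .e (nat_lit 4398046511104) (.askF (.n .e) (nat_lit 21990232555520) (.askT (.n (.s .e)) (nat_lit 4395899027456) (.askT (.n (.s (.n (.s .e)))) (nat_lit 4362613030912) (.askT (.s .e) (nat_lit 4395899027456) (.cnd (.askT (.s .e) (nat_lit 4395899027456) (.askF (.s .e) (nat_lit 21990232555520) (.askF (.s (.n (.s .e))) (nat_lit 4398046511104) (.askT (.s (.p (.s .e))) (nat_lit 4395899027456) (.ret (nat_lit 1)) (.ret (nat_lit 0))) (.ret (nat_lit 0))) (.ret (nat_lit 0))) (.ret (nat_lit 0))) (.s (.n .e)) (.askT (.s (.p (.s .e))) (nat_lit 4395899027456) (.askT (.s (.p (.s (.n (.s .e))))) (nat_lit 4394825285632) (.ret (nat_lit 1)) (.ret (nat_lit 0))) (.ret (nat_lit 0))) (.ret (nat_lit 0))) (.ret (nat_lit 0))) (.ret (nat_lit 0))) (.ret (nat_lit 0))) (.ret (nat_lit 0))) (.ret (nat_lit 0))) (.ret (nat_lit 0)))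
def pt96 : Prog := (.askT .e (nat_lit 4362613030912) (.askF (.n .e) (nat_lit 21990232555520) (.askT (.n (.s .e)) (nat_lit 4395899027456) (.askT (.n (.s (.n (.s .e)))) (nat_lit 4388382834688) (.askT (.s .e) (nat_lit 4395899027456) (.askT (.s (.n (.s .e))) (nat_lit 4395899027456) (.askF (.s (.n (.s .e))) (nat_lit 4398046511104) (.askT (.s (.p (.s .e))) (nat_lit 4395899027456) (.ret (nat_lit 1)) (.ret (nat_lit 0))) (.ret (nat_lit 0))) (.ret (nat_lit 0))) (.ret (nat_lit 0))) (.ret (nat_lit 0))) (.ret (nat_lit 0))) (.ret (nat_lit 0))) (.ret (nat_lit 0)))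
def pt97 : Prog := (.askT .e (nat_lit 4362613030912) (.askF .e (nat_lit 4398046511104) (.askF (.n .e) (nat_lit 21990232555520) (.askT (.n (.s .e)) (nat_lit 4395899027456) (.askT (.n (.s (.n (.s .e)))) (nat_lit 4379792900096) (.askT (.s .e) (nat_lit 4395899027456) (.cnd (.askT (.s .e) (nat_lit 4395899027456) (.askF (.s .e) (nat_lit 21990232555520) (.askF (.s (.n (.s .e))) (nat_lit 4398046511104) (.askT (.s (.p (.s .e))) (nat_lit 4395899027456) (.ret (nat_lit 1)) (.ret (nat_lit 0))) (.ret (nat_lit 0))) (.ret (nat_lit 0))) (.ret (nat_lit 0))) (.s (.n .e)) (.askT (.s (.p (.s .e))) (nat_lit 4395899027456) (.askT (.s (.p (.s (.n (.s .e))))) (nat_lit 4394825285632) (.ret (nat_lit 1)) (.ret (nat_lit 0))) (.ret (nat_lit 0))) (.ret (nat_lit 0))) (.ret (nat_lit 0))) (.ret (nat_lit 0))) (.ret (nat_lit 0))) (.ret (nat_lit 0))) (.ret (nat_lit 0))) (.ret (nat_lit 0)))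
def pt98 : Prog := (.askT .e (nat_lit 4362613030912) (.askF (.n .e) (nat_lit 21990232555520) (.askT (.n (.s .e)) (nat_lit 4395899027456) (.askT (.n (.s (.n (.s .e)))) (nat_lit 4362613030912) (.askT (.s .e) (nat_lit 4395899027456) (.askT (.s (.n (.s .e))) (nat_lit 4395899027456) (.askF (.s (.n (.s .e))) (nat_lit 4398046511104) (.askT (.s (.p (.s .e))) (nat_lit 4395899027456) (.ret (nat_lit 1)) (.ret (nat_lit 0))) (.ret (nat_lit 0))) (.ret (nat_lit 0))) (.ret (nat_lit 0))) (.ret (nat_lit 0))) (.ret (nat_lit 0))) (.ret (nat_lit 0))) (.ret (nat_lit 0)))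
def pt99 : Prog := (.askT .e (nat_lit 4362613030912) (.askF (.n .e) (nat_lit 21990232555520) (.cnd (.askT .e (nat_lit 4395899027456) (.mv (.n (.s .e)) (.askT .e (nat_lit 4394825285632) (.mv (.n (.n .e)) (.askF .e (nat_lit 21990232555520) (.askT (.s .e) (nat_lit 4394825285632) (.askF (.s (.n (.n .e))) (nat_lit 26388279066624) (.askT (.s (.n (.n (.s .e)))) (nat_lit 4395899027456) (.ret (nat_lit 1)) (.ret (nat_lit 0))) (.ret (nat_lit 0))) (.ret (nat_lit 0))) (.ret (nat_lit 0)))) (.ret (nat_lit 0)))) (.ret (nat_lit 0))) (.n (.s .e)) (.askT (.s .e) (nat_lit 4395899027456) (.mv (.s (.p .e)) (.askT (.s .e) (nat_lit 4395899027456) (.askT (.s (.n (.s .e))) (nat_lit 4395899027456) (.askT (.s (.n (.s (.p (.s .e))))) (nat_lit 4388382834688) (.ret (nat_lit 1)) (.ret (nat_lit 0))) (.ret (nat_lit 0))) (.ret (nat_lit 0)))) (.ret (nat_lit 0))) (.ret (nat_lit 0))) (.ret (nat_lit 0))) (.ret (nat_lit 0)))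
def pt100 : Prog := (.askT .e (nat_lit 4362613030912) (.askF .e (nat_lit 21990232555520) (.cnd (.askT .e (nat_lit 4394825285632) (.cnd (.askT (.s .e) (nat_lit 4395899027456) (.askF (.s .e) (nat_lit 26388279066624) (.askT (.s (.p (.s .e))) (nat_lit 4233764012032) (.ret (nat_lit 1)) (.ret (nat_lit 0))) (.ret (nat_lit 0))) (.ret (nat_lit 0))) (.n (.n .e)) (.askT (.p (.s .e)) (nat_lit 4388382834688) (.askF (.p (.s (.n (.n (.s .e))))) (nat_lit 4398046511104) (.ret (nat_lit 1)) (.ret (nat_lit 0))) (.ret (nat_lit 0))) (.ret (nat_lit 0))) (.ret (nat_lit 0))) (.p (.s .e)) (.askT (.s .e) (nat_lit 4395899027456) (.askT (.s (.n (.s .e))) (nat_lit 4395899027456) (.ret (nat_lit 1)) (.ret (nat_lit 0))) (.ret (nat_lit 0))) (.ret (nat_lit 0))) (.ret (nat_lit 0))) (.ret (nat_lit 0)))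
def pt101 : Prog := (.askT .e (nat_lit 4388382834688) (.askF .e (nat_lit 4398046511104) (.askF (.n .e) (nat_lit 21990232555520) (.cnd (.askT .e (nat_lit 4394825285632) (.cnd (.askF .e (nat_lit 26388279066624) (.askT (.s .e) (nat_lit 4395899027456) (.askT (.s (.n (.s .e))) (nat_lit 4233764012032) (.ret (nat_lit 1)) (.ret (nat_lit 0))) (.ret (nat_lit 0))) (.ret (nat_lit 0))) (.n (.n .e)) (.askT (.n (.s .e)) (nat_lit 4388382834688) (.ret (nat_lit 1)) (.ret (nat_lit 0))) (.ret (nat_lit 0))) (.ret (nat_lit 0))) (.n (.s .e)) (.askT (.s .e) (nat_lit 4395899027456) (.askT (.s (.p (.s .e))) (nat_lit 4395899027456) (.ret (nat_lit 1)) (.ret (nat_lit 0))) (.ret (nat_lit 0))) (.ret (nat_lit 0))) (.ret (nat_lit 0))) (.ret (nat_lit 0))) (.ret (nat_lit 0)))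
def pt102 : Prog := (.askT .e (nat_lit 4394825285632) (.askF .e (nat_lit 21990232555520) (.cnd (.askT .e (nat_lit 4395899027456) (.askT (.n (.s .e)) (nat_lit 4233764012032) (.askF (.n (.s .e)) (nat_lit 21990232555520) (.mv (.p (.s .e)) (.askT .e (nat_lit 4395899027456) (.mv (.n (.s .e)) (.askT .e (nat_lit 4394825285632) (.askF .e (nat_lit 4398046511104) (.cnd (.askF .e (nat_lit 26388279066624) (.askT (.s .e) (nat_lit 4395899027456) (.askT (.s (.n (.s .e))) (nat_lit 4233764012032) (.ret (nat_lit 1)) (.ret (nat_lit 0))) (.ret (nat_lit 0))) (.ret (nat_lit 0))) (.n (.n .e)) (.askT (.n (.s .e)) (nat_lit 4388382834688) (.ret (nat_lit 1)) (.ret (nat_lit 0))) (.ret (nat_lit 0))) (.ret (nat_lit 0))) (.ret (nat_lit 0)))) (.ret (nat_lit 0)))) (.ret (nat_lit 0))) (.ret (nat_lit 0))) (.ret (nat_lit 0))) (.p (.s .e)) (.askT (.s .e) (nat_lit 4395899027456) (.askT (.s (.n (.s .e))) (nat_lit 4395899027456) (.askF (.s (.n (.s .e))) (nat_lit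 4398046511104) (.ret (nat_lit 1)) (.ret (nat_lit 0))) (.ret (nat_lit 0))) (.ret (nat_lit 0))) (.ret (nat_lit 0))) (.ret (nat_lit 0))) (.ret (nat_lit 0)))
def pt103 : Prog := (.askT .e (nat_lit 4394825285632) (.askF .e (nat_lit 4398046511104) (.askF (.n .e) (nat_lit 21990232555520) (.askF (.n (.n .e)) (nat_lit 26388279066624) (.askT (.n (.n (.s .e))) (nat_lit 4395899027456) (.askT (.n (.s .e)) (nat_lit 4388382834688) (.askT (.n (.s (.p (.s .e)))) (nat_lit 4388382834688) (.askT (.s .e) (nat_lit 4395899027456) (.cnd (.askT (.s .e) (nat_lit 4395899027456) (.askF (.s .e) (nat_lit 21990232555520) (.askT (.s (.n (.s .e))) (nat_lit 3770981285888) (.askF (.s (.n (.s .e))) (nat_lit 4398046511104) (.askT (.s (.p (.s .e))) (nat_lit 4395899027456) (.askT (.s (.p (.s (.p (.s .e))))) (nat_lit 3770981285888) (.ret (nat_lit 1)) (.ret (nat_lit 0))) (.ret (nat_lit 0))) (.ret (nat_lit 0))) (.ret (nat_lit 0))) (.ret (nat_lit 0))) (.ret (nat_lit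 0))) (.s (.n .e)) (.askT (.s (.p (.s .e))) (nat_lit 4395899027456) (.ret (nat_lit 1)) (.ret (nat_lit 0))) (.ret (nat_lit 0))) (.ret (nat_lit 0))) (.ret (nat_lit 0))) (.ret (nat_lit 0))) (.ret (nat_lit 0))) (.ret (nat_lit 0))) (.ret (nat_lit 0))) (.ret (nat_lit 0))) (.ret (nat_lit 0)))
def pt104 : Prog := (.askT .e (nat_lit 4362613030912) (.askF (.n .e) (nat_lit 21990232555520) (.cnd (.askT .e (nat_lit 4395899027456) (.mv (.n (.s .e)) (.askT .e (nat_lit 4394825285632) (.askF (.n (.n .e)) (nat_lit 4398046511104) (.askF (.n (.n (.s .e))) (nat_lit 8796093022208) (.askT (.p (.s .e)) (nat_lit 4395899027456) (.ret (nat_lit 1)) (.ret (nat_lit 0))) (.ret (nat_lit 0))) (.ret (nat_lit 0))) (.ret (nat_lit 0)))) (.ret (nat_lit 0))) (.n (.s .e)) (.askT (.s .e) (nat_lit 4395899027456) (.askT (.s (.p (.s .e))) (nat_lit 4395899027456) (.ret (nat_lit 1)) (.ret (nat_lit 0))) (.ret (nat_lit 0))) (.ret (nat_lit 0))) (.ret (nat_lit 0))) (.ret (nat_lit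 0)))
def pt105 : Prog := (.askT .e (nat_lit 4394825285632) (.askF .e (nat_lit 21990232555520) (.cnd (.askT .e (nat_lit 4395899027456) (.cnd (.askT .e (nat_lit 4394825285632) (.askF .e (nat_lit 21990232555520) (.cnd (.askT (.s .e) (nat_lit 4395899027456) (.askF (.s .e) (nat_lit 26388279066624) (.askT (.s (.p (.s .e))) (nat_lit 4233764012032) (.ret (nat_lit 1)) (.ret (nat_lit 0))) (.ret (nat_lit 0))) (.ret (nat_lit 0))) (.n (.n .e)) (.askT (.p (.s .e)) (nat_lit 4388382834688) (.askT (.p (.s (.p (.s .e)))) (nat_lit 4233764012032) (.ret (nat_lit 1)) (.ret (nat_lit 0))) (.ret (nat_lit 0))) (.ret (nat_lit 0))) (.ret (nat_lit 0))) (.ret (nat_lit 0))) (.n (.s .e)) (.askT (.p (.s .e)) (nat_lit 4395899027456) (.askF (.p (.s (.n (.s .e)))) (nat_lit 4398046511104) (.ret (nat_lit 1)) (.ret (nat_lit 0))) (.ret (nat_lit 0))) (.ret (nat_lit 0))) (.ret (nat_lit 0))) (.p (.s .e)) (.askT (.s .e) (nat_lit 4395899027456) (.askT (.s (.n (.s .e)))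 (nat_lit 4395899027456) (.askF (.s (.n (.s .e))) (nat_lit 4398046511104) (.ret (nat_lit 1)) (.ret (nat_lit 0))) (.ret (nat_lit 0))) (.ret (nat_lit 0))) (.ret (nat_lit 0))) (.ret (nat_lit 0))) (.ret (nat_lit 0)))
def pt106 : Prog := (.askT .e (nat_lit 4362613030912) (.askF .e (nat_lit 4398046511104) (.askF (.n .e) (nat_lit 21990232555520) (.cnd (.askT .e (nat_lit 4394825285632) (.cnd (.askF .e (nat_lit 26388279066624) (.askT (.s .e) (nat_lit 4395899027456) (.askT (.s (.n (.s .e))) (nat_lit 4233764012032) (.ret (nat_lit 1)) (.ret (nat_lit 0))) (.ret (nat_lit 0))) (.ret (nat_lit 0))) (.n (.n .e)) (.askT (.n (.s .e)) (nat_lit 4388382834688) (.ret (nat_lit 1)) (.ret (nat_lit 0))) (.ret (nat_lit 0))) (.ret (nat_lit 0))) (.n (.s .e)) (.askT (.s .e) (nat_lit 4395899027456) (.askT (.s (.p (.s .e))) (nat_lit 4395899027456) (.ret (nat_lit 1)) (.ret (nat_lit 0))) (.ret (nat_lit 0))) (.ret (nat_lit 0))) (.ret (nat_lit 0))) (.ret (nat_lit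 0))) (.ret (nat_lit 0)))
def pt107 : Prog := (.askT .e (nat_lit 4379792900096) (.askF .e (nat_lit 21990232555520) (.askF (.n .e) (nat_lit 21990232555520) (.cnd (.askT .e (nat_lit 4394825285632) (.askF (.n (.n .e)) (nat_lit 26388279066624) (.askT (.n (.n (.s .e))) (nat_lit 4395899027456) (.askT (.n (.s .e)) (nat_lit 4388382834688) (.ret (nat_lit 1)) (.ret (nat_lit 0))) (.ret (nat_lit 0))) (.ret (nat_lit 0))) (.ret (nat_lit 0))) (.n (.s .e)) (.askT (.p (.s .e)) (nat_lit 4395899027456) (.askT (.p (.s (.p (.s .e)))) (nat_lit 4388382834688) (.askT (.s .e) (nat_lit 4395899027456) (.askT (.s (.n (.s .e))) (nat_lit 4395899027456) (.askT (.s (.p (.s .e))) (nat_lit 4395899027456) (.ret (nat_lit 1)) (.ret (nat_lit 0))) (.ret (nat_lit 0))) (.ret (nat_lit 0))) (.ret (nat_lit 0))) (.ret (nat_lit 0))) (.ret (nat_lit 0))) (.ret (nat_lit 0))) (.ret (nat_lit 0))) (.ret (nat_lit 0)))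
def pt108 : Prog := (.askT .e (nat_lit 4379792900096) (.askF .e (nat_lit 21990232555520) (.askF (.n .e) (nat_lit 21990232555520) (.askT (.n (.s .e)) (nat_lit 4395899027456) (.askT (.n (.s (.n (.s .e)))) (nat_lit 4362613030912) (.cnd (.askT .e (nat_lit 4394825285632) (.askT (.n (.n (.s .e))) (nat_lit 4395899027456) (.askF (.n (.n (.s .e))) (nat_lit 26388279066624) (.askT (.p (.s .e)) (nat_lit 4388382834688) (.ret (nat_lit 1)) (.ret (nat_lit 0))) (.ret (nat_lit 0))) (.ret (nat_lit 0))) (.ret (nat_lit 0))) (.p (.s .e)) (.askT (.s .e) (nat_lit 4395899027456) (.askT (.s (.n (.s .e))) (nat_lit 4395899027456) (.askT (.s (.p (.s .e))) (nat_lit 4395899027456) (.ret (nat_lit 1)) (.ret (nat_lit 0))) (.ret (nat_lit 0))) (.ret (nat_lit 0))) (.ret (nat_lit 0))) (.ret (nat_lit 0))) (.ret (nat_lit 0))) (.ret (nat_lit 0))) (.ret (nat_lit 0))) (.ret (nat_lit 0)))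
def pt109 : Prog := (.askT .e (nat_lit 4362613030912) (.askF .e (nat_lit 26388279066624) (.askT (.p (.s .e)) (nat_lit 4362613030912) (.askT (.s .e) (nat_lit 4388382834688) (.mv (.s (.n .e)) (.askF (.n .e) (nat_lit 26388279066624) (.askT (.s .e) (nat_lit 4394825285632) (.askT (.s (.p (.s .e))) (nat_lit 4395899027456) (.ret (nat_lit 1)) (.ret (nat_lit 0))) (.ret (nat_lit 0))) (.ret (nat_lit 0)))) (.ret (nat_lit 0))) (.ret (nat_lit 0))) (.ret (nat_lit 0))) (.ret (nat_lit 0)))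
def pt110 : Prog := (.askT .e (nat_lit 4362613030912) (.askF .e (nat_lit 26388279066624) (.askT (.p (.s .e)) (nat_lit 4388382834688) (.askT (.s .e) (nat_lit 4388382834688) (.mv (.s (.n .e)) (.askF (.n .e) (nat_lit 26388279066624) (.askT (.s .e) (nat_lit 4394825285632) (.askT (.s (.p (.s .e))) (nat_lit 4395899027456) (.ret (nat_lit 1)) (.ret (nat_lit 0))) (.ret (nat_lit 0))) (.ret (nat_lit 0)))) (.ret (nat_lit 0))) (.ret (nat_lit 0))) (.ret (nat_lit 0))) (.ret (nat_lit 0)))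
def pt111 : Prog := (.askT .e (nat_lit 4362613030912) (.askF .e (nat_lit 26388279066624) (.askT (.p (.s .e)) (nat_lit 4388382834688) (.askT (.s .e) (nat_lit 4394825285632) (.mv (.s (.n .e)) (.askF (.n .e) (nat_lit 26388279066624) (.askT (.n (.s .e)) (nat_lit 4395899027456) (.askT (.s .e) (nat_lit 4388382834688) (.ret (nat_lit 1)) (.ret (nat_lit 0))) (.ret (nat_lit 0))) (.ret (nat_lit 0)))) (.ret (nat_lit 0))) (.ret (nat_lit 0))) (.ret (nat_lit 0))) (.ret (nat_lit 0)))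
def pt112 : Prog := (.askT .e (nat_lit 4379792900096) (.askF .e (nat_lit 26388279066624) (.askF (.n .e) (nat_lit 26388279066624) (.cnd (.askF .e (nat_lit 8796093022208) (.askT (.s .e) (nat_lit 4395899027456) (.askF (.s .e) (nat_lit 21990232555520) (.askT (.s (.p (.s .e))) (nat_lit 3770981285888) (.ret (nat_lit 1)) (.ret (nat_lit 0))) (.ret (nat_lit 0))) (.ret (nat_lit 0))) (.ret (nat_lit 0))) (.n (.n .e)) (.askT (.n (.s .e)) (nat_lit 4388382834688) (.askT (.p (.p (.s (.n (.s .e))))) (nat_lit 3770981285888) (.askT (.p (.s .e)) (nat_lit 4388382834688) (.askT (.s .e) (nat_lit 4395899027456) (.askT (.s (.n (.s .e))) (nat_lit 4394825285632) (.askT (.s (.p (.s .e))) (nat_lit 4394825285632) (.ret (nat_lit 1)) (.ret (nat_lit 0))) (.ret (nat_lit 0))) (.ret (nat_lit 0))) (.ret (nat_lit 0))) (.ret (nat_lit 0))) (.ret (nat_lit 0))) (.ret (nat_lit 0))) (.ret (nat_lit 0))) (.ret (nat_lit 0))) (.ret (nat_lit 0)))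
def pt113 : Prog := (.askT .e (nat_lit 4362613030912) (.askF (.n .e) (nat_lit 26388279066624) (.cnd (.askF .e (nat_lit 26388279066624) (.askT (.s .e) (nat_lit 4395899027456) (.askT (.s (.n (.s .e))) (nat_lit 3770981285888) (.askT (.s (.n (.s (.n (.s .e))))) (nat_lit 4233764012032) (.ret (nat_lit 1)) (.ret (nat_lit 0))) (.ret (nat_lit 0))) (.ret (nat_lit 0))) (.ret (nat_lit 0))) (.n (.n .e)) (.askT (.n (.s (.n (.s .e)))) (nat_lit 3770981285888) (.askT (.s .e) (nat_lit 4395899027456) (.ret (nat_lit 1)) (.ret (nat_lit 0))) (.ret (nat_lit 0))) (.ret (nat_lit 0))) (.ret (nat_lit 0))) (.ret (nat_lit 0)))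
def pt114 : Prog := (.askT .e (nat_lit 4362613030912) (.askF .e (nat_lit 26388279066624) (.askF (.n .e) (nat_lit 26388279066624) (.cnd (.askF .e (nat_lit 8796093022208) (.askT (.s .e) (nat_lit 4395899027456) (.askF (.s .e) (nat_lit 26388279066624) (.askT (.s (.n (.s .e))) (nat_lit 625991483392) (.ret (nat_lit 1)) (.ret (nat_lit 0))) (.ret (nat_lit 0))) (.ret (nat_lit 0))) (.ret (nat_lit 0))) (.n (.n .e)) (.askT (.n (.s .e)) (nat_lit 4233764012032) (.askT (.n (.s (.n (.s .e)))) (nat_lit 3770981285888) (.askF (.p .e) (nat_lit 8796093022208) (.askT (.p (.p (.s .e))) (nat_lit 4395899027456) (.askT (.p (.s .e)) (nat_lit 4395899027456) (.askT (.s .e) (nat_lit 4395899027456) (.ret (nat_lit 1)) (.ret (nat_lit 0))) (.ret (nat_lit 0))) (.ret (nat_lit 0))) (.ret (nat_lit 0))) (.ret (nat_lit 0))) (.ret (nat_lit 0))) (.ret (nat_lit 0))) (.ret (nat_lit 0))) (.ret (nat_lit 0))) (.ret (nat_lit 0)))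
def pt115 : Prog := (.askT .e (nat_lit 4362613030912) (.askF .e (nat_lit 26388279066624) (.askF (.n .e) (nat_lit 26388279066624) (.cnd (.askF .e (nat_lit 26388279066624) (.askT (.s .e) (nat_lit 4395899027456) (.askF (.s .e) (nat_lit 26388279066624) (.ret (nat_lit 1)) (.ret (nat_lit 0))) (.ret (nat_lit 0))) (.ret (nat_lit 0))) (.n (.n .e)) (.askT (.n (.s .e)) (nat_lit 4388382834688) (.askT (.n (.s (.n (.s .e)))) (nat_lit 3770981285888) (.askT (.p (.p (.s .e))) (nat_lit 625991483392) (.askT (.p (.s .e)) (nat_lit 3770981285888) (.askT (.s .e) (nat_lit 4395899027456) (.ret (nat_lit 1)) (.ret (nat_lit 0))) (.ret (nat_lit 0))) (.ret (nat_lit 0))) (.ret (nat_lit 0))) (.ret (nat_lit 0))) (.ret (nat_lit 0))) (.ret (nat_lit 0))) (.ret (nat_lit 0))) (.ret (nat_lit 0)))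
def pt117 : Prog := (.askT .e (nat_lit 4388382834688) (.askF .e (nat_lit 26388279066624) (.askF (.n .e) (nat_lit 8796093022208) (.askT (.n (.s .e)) (nat_lit 4395899027456) (.askT (.p (.s .e)) (nat_lit 4395899027456) (.askT (.p (.s (.p (.s .e)))) (nat_lit 3770981285888) (.askT (.s .e) (nat_lit 4362613030912) (.ret (nat_lit 1)) (.ret (nat_lit 0))) (.ret (nat_lit 0))) (.ret (nat_lit 0))) (.ret (nat_lit 0))) (.ret (nat_lit 0))) (.ret (nat_lit 0))) (.ret (nat_lit 0)))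
def pt118 : Prog := (.askT .e (nat_lit 4362613030912) (.askF (.n .e) (nat_lit 26388279066624) (.cnd (.askF .e (nat_lit 26388279066624) (.askT (.s .e) (nat_lit 4395899027456) (.askF (.s .e) (nat_lit 26388279066624) (.ret (nat_lit 1)) (.ret (nat_lit 0))) (.ret (nat_lit 0))) (.ret (nat_lit 0))) (.n (.n .e)) (.askT (.n (.s .e)) (nat_lit 4395899027456) (.askT (.p (.p (.s .e))) (nat_lit 4233764012032) (.askT (.p (.s .e)) (nat_lit 625991483392) (.askT (.s .e) (nat_lit 4395899027456) (.ret (nat_lit 1)) (.ret (nat_lit 0))) (.ret (nat_lit 0))) (.ret (nat_lit 0))) (.ret (nat_lit 0))) (.ret (nat_lit 0))) (.ret (nat_lit 0))) (.ret (nat_lit 0)))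
def pp119_0 : Prog := (.askT (.s (.n (.s .e))) (nat_lit 3770981285888) (.ret (nat_lit 1)) (.ret (nat_lit 0)))
def pt119 : Prog := (.askT .e (nat_lit 4362613030912) (.askF .e (nat_lit 26388279066624) (.askF (.n .e) (nat_lit 26388279066624) (.cnd (.askF .e (nat_lit 26388279066624) (.askT (.s .e) (nat_lit 4233764012032) pp119_0 (.ret (nat_lit 0))) (.ret (nat_lit 0))) (.n (.n .e)) (.askT (.n (.s .e)) (nat_lit 4395899027456) (.askT (.p (.s .e)) (nat_lit 4233764012032) (.askT (.s .e) (nat_lit 4395899027456) pp119_0 (.ret (nat_lit 0))) (.ret (nat_lit 0))) (.ret (nat_lit 0))) (.ret (nat_lit 0))) (.ret (nat_lit 0))) (.ret (nat_lit 0))) (.ret (nat_lit 0)))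
def pt120 : Prog := (.askT .e (nat_lit 4362613030912) (.askF (.n .e) (nat_lit 26388279066624) (.cnd (.askF .e (nat_lit 26388279066624) (.askT (.s .e) (nat_lit 4388382834688) (.askF (.s .e) (nat_lit 26388279066624) (.ret (nat_lit 1)) (.ret (nat_lit 0))) (.ret (nat_lit 0))) (.ret (nat_lit 0))) (.n (.n .e)) (.askT (.n (.s .e)) (nat_lit 4395899027456) (.askT (.p (.p (.s .e))) (nat_lit 4395899027456) (.askT (.p (.s .e)) (nat_lit 625991483392) (.askT (.s .e) (nat_lit 4395899027456) (.ret (nat_lit 1)) (.ret (nat_lit 0))) (.ret (nat_lit 0))) (.ret (nat_lit 0))) (.ret (nat_lit 0))) (.ret (nat_lit 0))) (.ret (nat_lit 0))) (.ret (nat_lit 0)))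
def pt121 : Prog := (.askT .e (nat_lit 4362613030912) (.askF (.n .e) (nat_lit 26388279066624) (.cnd (.askF .e (nat_lit 26388279066624) (.askT (.s .e) (nat_lit 4394825285632) (.askF (.s .e) (nat_lit 26388279066624) (.askT (.s (.p (.s .e))) (nat_lit 4395899027456) (.askT (.s (.p (.s (.p (.s .e))))) (nat_lit 4233764012032) (.ret (nat_lit 1)) (.ret (nat_lit 0))) (.ret (nat_lit 0))) (.ret (nat_lit 0))) (.ret (nat_lit 0))) (.ret (nat_lit 0))) (.n (.n .e)) (.askT (.n (.s .e)) (nat_lit 4395899027456) (.askT (.p (.s .e)) (nat_lit 625991483392) (.askT (.s .e) (nat_lit 4395899027456) (.ret (nat_lit 1)) (.ret (nat_lit 0))) (.ret (nat_lit 0))) (.ret (nat_lit 0))) (.ret (nat_lit 0))) (.ret (nat_lit 0))) (.ret (nat_lit 0)))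
def pt122 : Prog := (.askT .e (nat_lit 4362613030912) (.askF (.n .e) (nat_lit 26388279066624) (.askF (.n (.n .e)) (nat_lit 26388279066624) (.askT (.n (.s .e)) (nat_lit 4394825285632) (.askT (.n (.s (.p (.s .e)))) (nat_lit 4395899027456) (.askT (.s .e) (nat_lit 4388382834688) (.askT (.s (.p (.s .e))) (nat_lit 4395899027456) (.ret (nat_lit 1)) (.ret (nat_lit 0))) (.ret (nat_lit 0))) (.ret (nat_lit 0))) (.ret (nat_lit 0))) (.ret (nat_lit 0))) (.ret (nat_lit 0))) (.ret (nat_lit 0)))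
def pt123 : Prog := (.askT .e (nat_lit 4362613030912) (.askF .e (nat_lit 26388279066624) (.askF (.n .e) (nat_lit 26388279066624) (.askT (.n (.n (.s .e))) (nat_lit 625991483392) (.askT (.n (.s .e)) (nat_lit 4395899027456) (.askF (.p .e) (nat_lit 26388279066624) (.askT (.p (.p (.s .e))) (nat_lit 3770981285888) (.askT (.p (.s .e)) (nat_lit 4395899027456) (.askT (.s .e) (nat_lit 4395899027456) (.ret (nat_lit 1)) (.ret (nat_lit 0))) (.ret (nat_lit 0))) (.ret (nat_lit 0))) (.ret (nat_lit 0))) (.ret (nat_lit 0))) (.ret (nat_lit 0))) (.ret (nat_lit 0))) (.ret (nat_lit 0))) (.ret (nat_lit 0)))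
def pt124 : Prog := (.askT .e (nat_lit 4394825285632) (.askF (.n .e) (nat_lit 21990232555520) (.askF (.n (.n .e)) (nat_lit 26388279066624) (.askT (.n (.n (.s .e))) (nat_lit 4395899027456) (.cnd (.askT .e (nat_lit 4388382834688) (.cnd (.askF .e (nat_lit 26388279066624) (.askT (.s .e) (nat_lit 4233764012032) (.askT (.s (.n (.s .e))) (nat_lit 3770981285888) (.ret (nat_lit 1)) (.ret (nat_lit 0))) (.ret (nat_lit 0))) (.ret (nat_lit 0))) (.n (.n .e)) (.askT (.n (.s .e)) (nat_lit 4394825285632) (.askF (.n (.s (.n (.n (.s .e))))) (nat_lit 4398046511104) (.askT (.p (.s .e)) (nat_lit 4388382834688) (.ret (nat_lit 1)) (.ret (nat_lit 0))) (.ret (nat_lit 0))) (.ret (nat_lit 0))) (.ret (nat_lit 0))) (.ret (nat_lit 0))) (.n (.s .e)) (.askT (.s .e) (nat_lit 4395899027456) (.askT (.s (.p (.s .e))) (nat_lit 4388382834688) (.ret (nat_lit 1)) (.ret (nat_lit 0))) (.ret (nat_lit 0))) (.ret (nat_lit 0))) (.ret (nat_lit 0))) (.ret (nat_lit 0))) (.ret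 (nat_lit 0))) (.ret (nat_lit 0)))
def pt125 : Prog := (.askT .e (nat_lit 4394825285632) (.askF (.n .e) (nat_lit 21990232555520) (.cnd (.askF .e (nat_lit 26388279066624) (.askT (.s .e) (nat_lit 4395899027456) (.askF (.s .e) (nat_lit 4398046511104) (.askT (.s (.n (.s .e))) (nat_lit 4233764012032) (.ret (nat_lit 1)) (.ret (nat_lit 0))) (.ret (nat_lit 0))) (.ret (nat_lit 0))) (.ret (nat_lit 0))) (.n (.n .e)) (.askT (.n (.s .e)) (nat_lit 4388382834688) (.askT (.n (.s (.n (.s .e)))) (nat_lit 4395899027456) (.askT (.s .e) (nat_lit 4395899027456) (.askT (.s (.p (.s .e))) (nat_lit 4388382834688) (.ret (nat_lit 1)) (.ret (nat_lit 0))) (.ret (nat_lit 0))) (.ret (nat_lit 0))) (.ret (nat_lit 0))) (.ret (nat_lit 0))) (.ret (nat_lit 0))) (.ret (nat_lit 0)))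
def pt126 : Prog := (.askT .e (nat_lit 4388382834688) (.askF .e (nat_lit 8796093022208) (.askF (.n .e) (nat_lit 26388279066624) (.cnd (.askT .e (nat_lit 4394825285632) (.askT (.n (.s .e)) (nat_lit 4395899027456) (.askT (.n (.s (.n (.s .e)))) (nat_lit 4362613030912) (.ret (nat_lit 1)) (.ret (nat_lit 0))) (.ret (nat_lit 0))) (.ret (nat_lit 0))) (.n (.s .e)) (.askT (.p (.s .e)) (nat_lit 4395899027456) (.ret (nat_lit 1)) (.ret (nat_lit 0))) (.ret (nat_lit 0))) (.ret (nat_lit 0))) (.ret (nat_lit 0))) (.ret (nat_lit 0)))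
def pt127 : Prog := (.askT .e (nat_lit 4388382834688) (.askF (.n .e) (nat_lit 26388279066624) (.cnd (.askT (.s .e) (nat_lit 4388382834688) (.askF (.s .e) (nat_lit 26388279066624) (.askT (.s (.p (.s .e))) (nat_lit 3770981285888) (.ret (nat_lit 1)) (.ret (nat_lit 0))) (.ret (nat_lit 0))) (.ret (nat_lit 0))) (.n (.n .e)) (.cnd (.askT .e (nat_lit 4395899027456) (.askT (.n (.s .e)) (nat_lit 3770981285888) (.askT (.n (.s (.n (.s .e)))) (nat_lit 4362613030912) (.ret (nat_lit 1)) (.ret (nat_lit 0))) (.ret (nat_lit 0))) (.ret (nat_lit 0))) (.n (.s .e)) (.askT (.p (.s .e)) (nat_lit 3770981285888) (.ret (nat_lit 1)) (.ret (nat_lit 0))) (.ret (nat_lit 0))) (.ret (nat_lit 0))) (.ret (nat_lit 0))) (.ret (nat_lit 0)))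
def pt128 : Prog := (.askT .e (nat_lit 4379792900096) (.askF .e (nat_lit 8796093022208) (.askF (.n .e) (nat_lit 26388279066624) (.askT (.n (.s .e)) (nat_lit 4388382834688) (.askT (.s .e) (nat_lit 4395899027456) (.askT (.s (.n (.s .e))) (nat_lit 4388382834688) (.askT (.s (.p (.s .e))) (nat_lit 4388382834688) (.ret (nat_lit 1)) (.ret (nat_lit 0))) (.ret (nat_lit 0))) (.ret (nat_lit 0))) (.ret (nat_lit 0))) (.ret (nat_lit 0))) (.ret (nat_lit 0))) (.ret (nat_lit 0)))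
def pt129 : Prog := (.askT .e (nat_lit 4388382834688) (.askF .e (nat_lit 21990232555520) (.askF (.n .e) (nat_lit 21990232555520) (.askT (.p (.s .e)) (nat_lit 4320737099776) (.askT (.s .e) (nat_lit 4395899027456) (.askT (.s (.n (.s .e))) (nat_lit 3770981285888) (.askT (.s (.n (.s (.n (.s .e))))) (nat_lit 3770981285888) (.mv (.s (.p .e)) (.askT (.s .e) (nat_lit 4395899027456) (.askT (.s (.n (.s .e))) (nat_lit 4395899027456) (.askF (.s (.n (.s .e))) (nat_lit 4398046511104) (.askT (.s (.p (.s .e))) (nat_lit 4395899027456) (.ret (nat_lit 1)) (.ret (nat_lit 0))) (.ret (nat_lit 0))) (.ret (nat_lit 0))) (.ret (nat_lit 0)))) (.ret (nat_lit 0))) (.ret (nat_lit 0))) (.ret (nat_lit 0))) (.ret (nat_lit 0))) (.ret (nat_lit 0))) (.ret (nat_lit 0))) (.ret (nat_lit 0)))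
def pt130 : Prog := (.askT .e (nat_lit 4388382834688) (.askF .e (nat_lit 21990232555520) (.askF (.n .e) (nat_lit 21990232555520) (.askT (.n (.s .e)) (nat_lit 3770981285888) (.askT (.p (.s .e)) (nat_lit 3770981285888) (.askT (.s .e) (nat_lit 4395899027456) (.cnd (.askT (.s .e) (nat_lit 3770981285888) (.askF (.s .e) (nat_lit 21990232555520) (.askT (.s (.n (.s .e))) (nat_lit 3770981285888) (.ret (nat_lit 1)) (.ret (nat_lit 0))) (.ret (nat_lit 0))) (.ret (nat_lit 0))) (.s (.n .e)) (.mv (.s (.p .e)) (.askT (.s .e) (nat_lit 4395899027456) (.mv (.s (.n .e)) (.askT (.s .e) (nat_lit 4395899027456) (.askT (.s (.n (.s .e))) (nat_lit 4395899027456) (.askF (.s (.n (.s .e))) (nat_lit 4398046511104) (.askT (.s (.p (.s .e))) (nat_lit 3770981285888) (.ret (nat_lit 1)) (.ret (nat_lit 0))) (.ret (nat_lit 0))) (.ret (nat_lit 0))) (.ret (nat_lit 0)))) (.ret (nat_lit 0)))) (.ret (nat_lit 0))) (.ret (nat_lit 0))) (.ret (nat_lit 0))) (.ret (nat_lit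 0))) (.ret (nat_lit 0))) (.ret (nat_lit 0))) (.ret (nat_lit 0)))
def pt131 : Prog := (.askT .e (nat_lit 4379792900096) (.askF .e (nat_lit 4398046511104) (.askF (.n .e) (nat_lit 21990232555520) (.cnd (.askT .e (nat_lit 4395899027456) (.askT (.n (.s .e)) (nat_lit 4395899027456) (.askF (.n (.s (.p .e))) (nat_lit 21990232555520) (.ret (nat_lit 1)) (.ret (nat_lit 0))) (.ret (nat_lit 0))) (.ret (nat_lit 0))) (.n (.s .e)) (.askT (.s .e) (nat_lit 4395899027456) (.askF (.s (.n (.s .e))) (nat_lit 4398046511104) (.askT (.s (.p (.s .e))) (nat_lit 4395899027456) (.askT (.s (.p (.s (.n (.s .e))))) (nat_lit 4395899027456) (.ret (nat_lit 1)) (.ret (nat_lit 0))) (.ret (nat_lit 0))) (.ret (nat_lit 0))) (.ret (nat_lit 0))) (.ret (nat_lit 0))) (.ret (nat_lit 0))) (.ret (nat_lit 0))) (.ret (nat_lit 0)))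
def pt133 : Prog := (.askT .e (nat_lit 4379792900096) (.askF (.n .e) (nat_lit 26388279066624) (.askT (.n (.s .e)) (nat_lit 4395899027456) (.askT (.s .e) (nat_lit 4394825285632) (.askF (.s (.n (.n .e))) (nat_lit 8796093022208) (.askT (.s (.n (.s .e))) (nat_lit 4395899027456) (.ret (nat_lit 1)) (.ret (nat_lit 0))) (.ret (nat_lit 0))) (.ret (nat_lit 0))) (.ret (nat_lit 0))) (.ret (nat_lit 0))) (.ret (nat_lit 0)))
def pt134 : Prog := (.askT .e (nat_lit 4362613030912) (.askF .e (nat_lit 26388279066624) (.askT (.p (.s .e)) (nat_lit 4395899027456) (.askT (.p (.s (.p (.s .e)))) (nat_lit 3770981285888) (.askT (.s .e) (nat_lit 4388382834688) (.mv (.s (.n .e)) (.mv (.n (.s .e)) (.askT .e (nat_lit 4388382834688) (.askF .e (nat_lit 26388279066624) (.askT (.p (.s .e)) (nat_lit 4395899027456) (.askT (.p (.s (.p (.s .e)))) (nat_lit 3770981285888) (.ret (nat_lit 1)) (.ret (nat_lit 0))) (.ret (nat_lit 0))) (.ret (nat_lit 0))) (.ret (nat_lit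 0))))) (.ret (nat_lit 0))) (.ret (nat_lit 0))) (.ret (nat_lit 0))) (.ret (nat_lit 0))) (.ret (nat_lit 0)))
def pt136 : Prog := (.askT .e (nat_lit 4362613030912) (.askF .e (nat_lit 26388279066624) (.askF (.n .e) (nat_lit 26388279066624) (.askT (.n (.s .e)) (nat_lit 4362613030912) (.askT (.s .e) (nat_lit 4394825285632) (.askT (.s (.n (.s .e))) (nat_lit 4395899027456) (.askT (.s (.p (.s .e))) (nat_lit 4395899027456) (.ret (nat_lit 1)) (.ret (nat_lit 0))) (.ret (nat_lit 0))) (.ret (nat_lit 0))) (.ret (nat_lit 0))) (.ret (nat_lit 0))) (.ret (nat_lit 0))) (.ret (nat_lit 0)))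
def pt137 : Prog := (.askT .e (nat_lit 4362613030912) (.askF .e (nat_lit 26388279066624) (.askF (.n .e) (nat_lit 26388279066624) (.askT (.s .e) (nat_lit 4388382834688) (.askT (.s (.n (.s .e))) (nat_lit 4395899027456) (.askT (.s (.p (.s .e))) (nat_lit 4395899027456) (.ret (nat_lit 1)) (.ret (nat_lit 0))) (.ret (nat_lit 0))) (.ret (nat_lit 0))) (.ret (nat_lit 0))) (.ret (nat_lit 0))) (.ret (nat_lit 0)))
def pt138 : Prog := (.askT .e (nat_lit 4362613030912) (.askF .e (nat_lit 26388279066624) (.askF (.n .e) (nat_lit 26388279066624) (.askT (.s .e) (nat_lit 4388382834688) (.cnd (.askT (.n (.s .e)) (nat_lit 4388382834688) (.askF (.n (.s .e)) (nat_lit 26388279066624) (.askT (.s .e) (nat_lit 4395899027456) (.ret (nat_lit 1)) (.ret (nat_lit 0))) (.ret (nat_lit 0))) (.ret (nat_lit 0))) (.s (.n .e)) (.askT (.s (.p (.s .e))) (nat_lit 4394825285632) (.askT (.s (.p (.s (.n (.s .e))))) (nat_lit 4395899027456) (.ret (nat_lit 1)) (.ret (nat_lit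 0))) (.ret (nat_lit 0))) (.ret (nat_lit 0))) (.ret (nat_lit 0))) (.ret (nat_lit 0))) (.ret (nat_lit 0))) (.ret (nat_lit 0)))
def pt139 : Prog := (.askT .e (nat_lit 4379792900096) (.askF .e (nat_lit 26388279066624) (.askF (.n .e) (nat_lit 26388279066624) (.askT (.n (.s .e)) (nat_lit 4388382834688) (.askT (.p (.s .e)) (nat_lit 4388382834688) (.askT (.s .e) (nat_lit 4394825285632) (.askT (.s (.n (.s .e))) (nat_lit 4395899027456) (.askT (.s (.p (.s .e))) (nat_lit 4395899027456) (.ret (nat_lit 1)) (.ret (nat_lit 0))) (.ret (nat_lit 0))) (.ret (nat_lit 0))) (.ret (nat_lit 0))) (.ret (nat_lit 0))) (.ret (nat_lit 0))) (.ret (nat_lit 0))) (.ret (nat_lit 0)))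
def pt140 : Prog := (.askT .e (nat_lit 4379792900096) (.askF .e (nat_lit 26388279066624) (.askF (.n .e) (nat_lit 26388279066624) (.askT (.n (.s .e)) (nat_lit 4395899027456) (.askT (.s .e) (nat_lit 4394825285632) (.askT (.s (.n (.s .e))) (nat_lit 4395899027456) (.ret (nat_lit 1)) (.ret (nat_lit 0))) (.ret (nat_lit 0))) (.ret (nat_lit 0))) (.ret (nat_lit 0))) (.ret (nat_lit 0))) (.ret (nat_lit 0)))
def pt141 : Prog := (.askT .e (nat_lit 4379792900096) (.askF .e (nat_lit 26388279066624) (.askF (.n .e) (nat_lit 26388279066624) (.askT (.n (.s .e)) (nat_lit 4362613030912) (.askT (.p (.s .e)) (nat_lit 4388382834688) (.askT (.s .e) (nat_lit 4394825285632) (.askT (.s (.n (.s .e))) (nat_lit 4395899027456) (.askT (.s (.p (.s .e))) (nat_lit 4395899027456) (.ret (nat_lit 1)) (.ret (nat_lit 0))) (.ret (nat_lit 0))) (.ret (nat_lit 0))) (.ret (nat_lit 0))) (.ret (nat_lit 0))) (.ret (nat_lit 0))) (.ret (nat_lit 0))) (.ret (nat_lit 0)))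
def pt142 : Prog := (.askT .e (nat_lit 4362613030912) (.askF .e (nat_lit 26388279066624) (.askF (.p .e) (nat_lit 26388279066624) (.askT (.p (.p (.s .e))) (nat_lit 4395899027456) (.askT (.p (.p (.s (.p (.s .e))))) (nat_lit 3770981285888) (.askT (.p (.s .e)) (nat_lit 4233764012032) (.askT (.s .e) (nat_lit 4388382834688) (.mv (.s (.n .e)) (.askF (.n .e) (nat_lit 26388279066624) (.askT (.n (.s .e)) (nat_lit 4388382834688) (.askT (.s .e) (nat_lit 4394825285632) (.askT (.s (.p (.s .e))) (nat_lit 4395899027456) (.ret (nat_lit 1)) (.ret (nat_lit 0))) (.ret (nat_lit 0))) (.ret (nat_lit 0))) (.ret (nat_lit 0)))) (.ret (nat_lit 0))) (.ret (nat_lit 0))) (.ret (nat_lit 0))) (.ret (nat_lit 0))) (.ret (nat_lit 0))) (.ret (nat_lit 0))) (.ret (nat_lit 0)))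
def pt143 : Prog := (.askT .e (nat_lit 4362613030912) (.askF .e (nat_lit 26388279066624) (.askF (.p .e) (nat_lit 26388279066624) (.cnd (.askT (.s .e) (nat_lit 4394825285632) (.askT (.s (.p (.s .e))) (nat_lit 4395899027456) (.askT (.s (.p (.s (.p (.s .e))))) (nat_lit 4233764012032) (.ret (nat_lit 1)) (.ret (nat_lit 0))) (.ret (nat_lit 0))) (.ret (nat_lit 0))) (.p (.p .e)) (.askT (.s .e) (nat_lit 4394825285632) (.askT (.s (.n (.s .e))) (nat_lit 4395899027456) (.ret (nat_lit 1)) (.ret (nat_lit 0))) (.ret (nat_lit 0))) (.ret (nat_lit 0))) (.ret (nat_lit 0))) (.ret (nat_lit 0))) (.ret (nat_lit 0)))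
def pt144 : Prog := (.askT .e (nat_lit 4362613030912) (.askF .e (nat_lit 26388279066624) (.askF (.p .e) (nat_lit 26388279066624) (.cnd (.askT (.s .e) (nat_lit 4394825285632) (.askT (.s (.p (.s .e))) (nat_lit 4395899027456) (.askT (.s (.p (.s (.p (.s .e))))) (nat_lit 4233764012032) (.ret (nat_lit 1)) (.ret (nat_lit 0))) (.ret (nat_lit 0))) (.ret (nat_lit 0))) (.p (.p .e)) (.askT (.s .e) (nat_lit 4388382834688) (.mv (.s (.n .e)) (.askF (.n .e) (nat_lit 26388279066624) (.askT (.n (.s .e)) (nat_lit 4388382834688) (.askT (.s .e) (nat_lit 4394825285632) (.askT (.s (.p (.s .e))) (nat_lit 4395899027456) (.ret (nat_lit 1)) (.ret (nat_lit 0))) (.ret (nat_lit 0))) (.ret (nat_lit 0))) (.ret (nat_lit 0)))) (.ret (nat_lit 0))) (.ret (nat_lit 0))) (.ret (nat_lit 0))) (.ret (nat_lit 0))) (.ret (nat_lit 0)))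
def pt145 : Prog := (.askT .e (nat_lit 4379792900096) (.askF .e (nat_lit 26388279066624) (.askF (.n .e) (nat_lit 26388279066624) (.askT (.n (.s .e)) (nat_lit 4395899027456) (.askT (.p (.s .e)) (nat_lit 4395899027456) (.askT (.s .e) (nat_lit 4388382834688) (.askT (.s (.n (.s .e))) (nat_lit 4394825285632) (.askT (.s (.p (.s .e))) (nat_lit 4362613030912) (.ret (nat_lit 1)) (.ret (nat_lit 0))) (.ret (nat_lit 0))) (.ret (nat_lit 0))) (.ret (nat_lit 0))) (.ret (nat_lit 0))) (.ret (nat_lit 0))) (.ret (nat_lit 0))) (.ret (nat_lit 0)))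
def pt146 : Prog := (.askT .e (nat_lit 4388382834688) (.askF .e (nat_lit 26388279066624) (.cnd (.askF .e (nat_lit 26388279066624) (.askT (.s .e) (nat_lit 3770981285888) (.askT (.s (.n (.s .e))) (nat_lit 3770981285888) (.ret (nat_lit 1)) (.ret (nat_lit 0))) (.ret (nat_lit 0))) (.ret (nat_lit 0))) (.n (.n .e)) (.askT (.n (.s .e)) (nat_lit 4388382834688) (.askT (.p (.s .e)) (nat_lit 4233764012032) (.askT (.s .e) (nat_lit 4394825285632) (.askT (.s (.n (.s .e))) (nat_lit 4395899027456) (.ret (nat_lit 1)) (.ret (nat_lit 0))) (.ret (nat_lit 0))) (.ret (nat_lit 0))) (.ret (nat_lit 0))) (.ret (nat_lit 0))) (.ret (nat_lit 0))) (.ret (nat_lit 0)))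
def pt147 : Prog := (.askT .e (nat_lit 4388382834688) (.askF .e (nat_lit 26388279066624) (.cnd (.askT (.s .e) (nat_lit 4388382834688) (.askF (.s .e) (nat_lit 26388279066624) (.askT (.s (.n (.n (.s .e)))) (nat_lit 4388382834688) (.askF (.s (.n (.n (.s .e)))) (nat_lit 26388279066624) (.mv (.s (.p .e)) (.askT (.s .e) (nat_lit 4394825285632) (.askT (.s (.n (.s .e))) (nat_lit 4395899027456) (.askT (.s (.p (.s .e))) (nat_lit 4233764012032) (.ret (nat_lit 1)) (.ret (nat_lit 0))) (.ret (nat_lit 0))) (.ret (nat_lit 0)))) (.ret (nat_lit 0))) (.ret (nat_lit 0))) (.ret (nat_lit 0))) (.ret (nat_lit 0))) (.n (.n .e)) (.askT (.s .e) (nat_lit 4395899027456) (.askT (.s (.n (.s .e))) (nat_lit 3770981285888) (.ret (nat_lit 1)) (.ret (nat_lit 0))) (.ret (nat_lit 0))) (.ret (nat_lit 0))) (.ret (nat_lit 0))) (.ret (nat_lit 0)))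
def pt148 : Prog := (.askT .e (nat_lit 4388382834688) (.askF .e (nat_lit 26388279066624) (.cnd (.askT (.s .e) (nat_lit 4394825285632) (.askF (.s .e) (nat_lit 26388279066624) (.askT (.s (.p (.s .e))) (nat_lit 4388382834688) (.askT (.s (.p (.s (.p (.s .e))))) (nat_lit 4233764012032) (.ret (nat_lit 1)) (.ret (nat_lit 0))) (.ret (nat_lit 0))) (.ret (nat_lit 0))) (.ret (nat_lit 0))) (.n (.n .e)) (.askT (.s .e) (nat_lit 4395899027456) (.askT (.s (.n (.s .e))) (nat_lit 3770981285888) (.ret (nat_lit 1)) (.ret (nat_lit 0))) (.ret (nat_lit 0))) (.ret (nat_lit 0))) (.ret (nat_lit 0))) (.ret (nat_lit 0)))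
def pt149 : Prog := (.askT .e (nat_lit 4379792900096) (.askF .e (nat_lit 26388279066624) (.askF (.n .e) (nat_lit 26388279066624) (.askT (.n (.s .e)) (nat_lit 4395899027456) (.askT (.p (.s .e)) (nat_lit 3770981285888) (.askT (.s .e) (nat_lit 4388382834688) (.askT (.s (.n (.s .e))) (nat_lit 4395899027456) (.askT (.s (.p (.s .e))) (nat_lit 4362613030912) (.ret (nat_lit 1)) (.ret (nat_lit 0))) (.ret (nat_lit 0))) (.ret (nat_lit 0))) (.ret (nat_lit 0))) (.ret (nat_lit 0))) (.ret (nat_lit 0))) (.ret (nat_lit 0))) (.ret (nat_lit 0)))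
def pt150 : Prog := (.askT .e (nat_lit 4379792900096) (.askF .e (nat_lit 26388279066624) (.askF (.n .e) (nat_lit 26388279066624) (.askT (.n (.s .e)) (nat_lit 4362613030912) (.askT (.p (.s .e)) (nat_lit 3770981285888) (.askT (.s .e) (nat_lit 4395899027456) (.askT (.s (.p (.s .e))) (nat_lit 4388382834688) (.ret (nat_lit 1)) (.ret (nat_lit 0))) (.ret (nat_lit 0))) (.ret (nat_lit 0))) (.ret (nat_lit 0))) (.ret (nat_lit 0))) (.ret (nat_lit 0))) (.ret (nat_lit 0)))
def pt151 : Prog := (.askT .e (nat_lit 4320737099776) (.askF .e (nat_lit 26388279066624) (.askT (.s .e) (nat_lit 3770981285888) (.askT (.s (.n (.s .e))) (nat_lit 3770981285888) (.ret (nat_lit 1)) (.ret (nat_lit 0))) (.ret (nat_lit 0))) (.ret (nat_lit 0))) (.ret (nat_lit 0)))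
def pt152 : Prog := (.askT .e (nat_lit 4379792900096) (.askF .e (nat_lit 21990232555520) (.askF (.n .e) (nat_lit 21990232555520) (.askT (.n (.s .e)) (nat_lit 4395899027456) (.askT (.n (.s (.n (.s .e)))) (nat_lit 4395899027456) (.askT (.p (.s .e)) (nat_lit 4395899027456) (.askT (.p (.s (.p (.s .e)))) (nat_lit 4395899027456) (.askT (.s .e) (nat_lit 4395899027456) (.askT (.s (.n (.s .e))) (nat_lit 4395899027456) (.askT (.s (.p (.s .e))) (nat_lit 4395899027456) (.ret (nat_lit 1)) (.ret (nat_lit 0))) (.ret (nat_lit 0))) (.ret (nat_lit 0))) (.ret (nat_lit 0))) (.ret (nat_lit 0))) (.ret (nat_lit 0))) (.ret (nat_lit 0))) (.ret (nat_lit 0))) (.ret (nat_lit 0))) (.ret (nat_lit 0)))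
def pt153 : Prog := (.askT .e (nat_lit 4394825285632) (.askF .e (nat_lit 26388279066624) (.askF (.n .e) (nat_lit 26388279066624) (.askT (.n (.s .e)) (nat_lit 4395899027456) (.askT (.s .e) (nat_lit 4388382834688) (.askT (.s (.n (.s .e))) (nat_lit 3770981285888) (.ret (nat_lit 1)) (.ret (nat_lit 0))) (.ret (nat_lit 0))) (.ret (nat_lit 0))) (.ret (nat_lit 0))) (.ret (nat_lit 0))) (.ret (nat_lit 0)))
def pt155 : Prog := (.askT .e (nat_lit 4394825285632) (.askF .e (nat_lit 21990232555520) (.askF (.n (.n (.s .e))) (nat_lit 4398046511104) (.cnd (.askT .e (nat_lit 4395899027456) (.askT (.n (.s .e)) (nat_lit 3770981285888) (.askF (.n (.s .e)) (nat_lit 21990232555520) (.mv (.p (.s .e)) (.askT .e (nat_lit 4395899027456) (.mv (.n (.s .e)) (.askT .e (nat_lit 4388382834688) (.askF .e (nat_lit 21990232555520) (.askT (.n (.s .e)) (nat_lit 3770981285888) (.askT (.p (.s .e)) (nat_lit 3770981285888) (.ret (nat_lit 1)) (.ret (nat_lit 0))) (.ret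 (nat_lit 0))) (.ret (nat_lit 0))) (.ret (nat_lit 0)))) (.ret (nat_lit 0)))) (.ret (nat_lit 0))) (.ret (nat_lit 0))) (.ret (nat_lit 0))) (.p (.s .e)) (.askT (.s .e) (nat_lit 4395899027456) (.askT (.s (.n (.s .e))) (nat_lit 4395899027456) (.ret (nat_lit 1)) (.ret (nat_lit 0))) (.ret (nat_lit 0))) (.ret (nat_lit 0))) (.ret (nat_lit 0))) (.ret (nat_lit 0))) (.ret (nat_lit 0)))
def pt156 : Prog := (.askT .e (nat_lit 4333622001664) (.askT (.s .e) (nat_lit 4352949354496) (.askF (.s .e) (nat_lit 26388279066624) (.cnd (.askT .e (nat_lit 4352949354496) (.askF .e (nat_lit 26388279066624) (.askT (.n (.s .e)) (nat_lit 4352949354496) (.ret (nat_lit 1)) (.ret (nat_lit 0))) (.ret (nat_lit 0))) (.ret (nat_lit 0))) (.n (.s .e)) (.askT (.n (.n (.s .e))) (nat_lit 4352949354496) (.askT (.n (.n (.s (.n (.s .e))))) (nat_lit 4352949354496) (.ret (nat_lit 1)) (.ret (nat_lit 0))) (.ret (nat_lit 0))) (.ret (nat_lit 0))) (.ret (nat_lit 0))) (.ret (nat_lit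 0))) (.ret (nat_lit 0)))
def pt157 : Prog := (.askT .e (nat_lit 4334695743488) (.askT (.s .e) (nat_lit 4352949354496) (.askF (.s .e) (nat_lit 26388279066624) (.cnd (.askT .e (nat_lit 4352949354496) (.askF .e (nat_lit 26388279066624) (.askT (.n (.s .e)) (nat_lit 4352949354496) (.ret (nat_lit 1)) (.ret (nat_lit 0))) (.ret (nat_lit 0))) (.ret (nat_lit 0))) (.n (.s .e)) (.mv (.n (.n .e)) (.askT (.s .e) (nat_lit 4333622001664) (.askF (.s .e) (nat_lit 26388279066624) (.askT (.s (.n (.s .e))) (nat_lit 4352949354496) (.askT (.n (.s .e)) (nat_lit 4352949354496) (.askT (.n (.s (.n (.s .e)))) (nat_lit 4352949354496) (.ret (nat_lit 1)) (.ret (nat_lit 0))) (.ret (nat_lit 0))) (.ret (nat_lit 0))) (.ret (nat_lit 0))) (.ret (nat_lit 0)))) (.ret (nat_lit 0))) (.ret (nat_lit 0))) (.ret (nat_lit 0))) (.ret (nat_lit 0)))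
def pt158 : Prog := (.askT .e (nat_lit 4333622001664) (.askT (.s .e) (nat_lit 4352949354496) (.askF (.s .e) (nat_lit 26388279066624) (.cnd (.askT .e (nat_lit 4352949354496) (.askF .e (nat_lit 26388279066624) (.askT (.n (.s .e)) (nat_lit 4352949354496) (.ret (nat_lit 1)) (.ret (nat_lit 0))) (.ret (nat_lit 0))) (.ret (nat_lit 0))) (.n (.s .e)) (.mv (.n (.n .e)) (.askT (.s .e) (nat_lit 4352949354496) (.mv (.s (.n .e)) (.askT (.s .e) (nat_lit 4333622001664) (.askF (.s .e) (nat_lit 26388279066624) (.askT (.n (.s .e)) (nat_lit 4352949354496) (.askT (.n (.s (.n (.s .e)))) (nat_lit 4352949354496) (.ret (nat_lit 1)) (.ret (nat_lit 0))) (.ret (nat_lit 0))) (.ret (nat_lit 0))) (.ret (nat_lit 0)))) (.ret (nat_lit 0)))) (.ret (nat_lit 0))) (.ret (nat_lit 0))) (.ret (nat_lit 0))) (.ret (nat_lit 0)))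
def pt159 : Prog := (.askT .e (nat_lit 4379792900096) (.askF (.n .e) (nat_lit 26388279066624) (.askT (.n (.n (.s .e))) (nat_lit 4352949354496) (.askF (.n (.n (.s .e))) (nat_lit 26388279066624) (.cnd (.askT .e (nat_lit 4352949354496) (.askT (.n (.s .e)) (nat_lit 4352949354496) (.askT (.n (.s (.n (.s .e)))) (nat_lit 4352949354496) (.ret (nat_lit 1)) (.ret (nat_lit 0))) (.ret (nat_lit 0))) (.ret (nat_lit 0))) (.n (.s .e)) (.askT (.p (.p (.s .e))) (nat_lit 4352949354496) (.askT (.p (.p (.s (.n (.s .e))))) (nat_lit 4352949354496) (.ret (nat_lit 1)) (.ret (nat_lit 0))) (.ret (nat_lit 0))) (.ret (nat_lit 0))) (.ret (nat_lit 0))) (.ret (nat_lit 0))) (.ret (nat_lit 0))) (.ret (nat_lit 0)))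
def pt160 : Prog := (.askT .e (nat_lit 4379792900096) (.askF .e (nat_lit 26388279066624) (.askF (.n .e) (nat_lit 26388279066624) (.cnd (.askT .e (nat_lit 4333622001664) (.askT (.n (.s .e)) (nat_lit 4352949354496) (.askF (.n (.s .e)) (nat_lit 26388279066624) (.askT (.n (.n (.s .e))) (nat_lit 4352949354496) (.askT (.n (.n (.s (.n (.s .e))))) (nat_lit 4352949354496) (.ret (nat_lit 1)) (.ret (nat_lit 0))) (.ret (nat_lit 0))) (.ret (nat_lit 0))) (.ret (nat_lit 0))) (.ret (nat_lit 0))) (.n (.s .e)) (.askT (.p (.s .e)) (nat_lit 4352949354496) (.askT (.s .e) (nat_lit 4388382834688) (.mv (.s (.n .e)) (.askT (.s .e) (nat_lit 4333622001664) (.mv (.s (.n .e)) (.askF (.s .e) (nat_lit 26388279066624) (.askT (.n (.s .e)) (nat_lit 4352949354496) (.askT (.n (.s (.n (.s .e)))) (nat_lit 4352949354496) (.ret (nat_lit 1)) (.ret (nat_lit 0))) (.ret (nat_lit 0))) (.ret (nat_lit 0)))) (.ret (nat_lit 0)))) (.ret (nat_lit 0))) (.ret (nat_lit 0))) (.ret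 (nat_lit 0))) (.ret (nat_lit 0))) (.ret (nat_lit 0))) (.ret (nat_lit 0)))
def pt161 : Prog := (.askT .e (nat_lit 4333622001664) (.askT (.s .e) (nat_lit 4352949354496) (.askF (.s .e) (nat_lit 26388279066624) (.cnd (.askT .e (nat_lit 4354023096320) (.askF .e (nat_lit 26388279066624) (.askT (.n (.s .e)) (nat_lit 4333622001664) (.askF (.n (.s .e)) (nat_lit 26388279066624) (.askT (.n (.n (.s .e))) (nat_lit 4352949354496) (.askT (.n (.n (.s (.n (.s .e))))) (nat_lit 4352949354496) (.ret (nat_lit 1)) (.ret (nat_lit 0))) (.ret (nat_lit 0))) (.ret (nat_lit 0))) (.ret (nat_lit 0))) (.ret (nat_lit 0))) (.ret (nat_lit 0))) (.n (.s .e)) (.mv (.n (.n .e)) (.askT (.s .e) (nat_lit 4352949354496) (.mv (.s (.n .e)) (.askT (.s .e) (nat_lit 4333622001664) (.askF (.s .e) (nat_lit 26388279066624) (.askT (.n (.s .e)) (nat_lit 4352949354496) (.askT (.n (.s (.n (.s .e)))) (nat_lit 4352949354496) (.ret (nat_lit 1)) (.ret (nat_lit 0))) (.ret (nat_lit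 0))) (.ret (nat_lit 0))) (.ret (nat_lit 0)))) (.ret (nat_lit 0)))) (.ret (nat_lit 0))) (.ret (nat_lit 0))) (.ret (nat_lit 0))) (.ret (nat_lit 0)))
def pt162 : Prog := (.askT .e (nat_lit 4379792900096) (.askF .e (nat_lit 26388279066624) (.askF (.n .e) (nat_lit 26388279066624) (.cnd (.askT .e (nat_lit 4352949354496) (.askT (.n (.s .e)) (nat_lit 4333622001664) (.askF (.n (.s .e)) (nat_lit 26388279066624) (.askT (.n (.n (.s .e))) (nat_lit 4352949354496) (.askT (.n (.n (.s (.n (.s .e))))) (nat_lit 4352949354496) (.ret (nat_lit 1)) (.ret (nat_lit 0))) (.ret (nat_lit 0))) (.ret (nat_lit 0))) (.ret (nat_lit 0))) (.ret (nat_lit 0))) (.n (.s .e)) (.askT (.p (.s .e)) (nat_lit 4352949354496) (.askT (.s .e) (nat_lit 4388382834688) (.mv (.s (.n .e)) (.askT (.s .e) (nat_lit 4333622001664) (.mv (.s (.n .e)) (.askF (.s .e) (nat_lit 26388279066624) (.askT (.n (.s .e)) (nat_lit 4352949354496) (.askT (.n (.s (.n (.s .e)))) (nat_lit 4352949354496)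 (.ret (nat_lit 1)) (.ret (nat_lit 0))) (.ret (nat_lit 0))) (.ret (nat_lit 0)))) (.ret (nat_lit 0)))) (.ret (nat_lit 0))) (.ret (nat_lit 0))) (.ret (nat_lit 0))) (.ret (nat_lit 0))) (.ret (nat_lit 0))) (.ret (nat_lit 0)))
def pt163 : Prog := (.askT .e (nat_lit 4333622001664) (.askT (.s .e) (nat_lit 4352949354496) (.askF (.s .e) (nat_lit 26388279066624) (.cnd (.askT .e (nat_lit 4352949354496) (.askF .e (nat_lit 26388279066624) (.askT (.n (.s .e)) (nat_lit 4352949354496) (.ret (nat_lit 1)) (.ret (nat_lit 0))) (.ret (nat_lit 0))) (.ret (nat_lit 0))) (.n (.s .e)) (.mv (.n (.n .e)) (.askT (.s .e) (nat_lit 4333622001664) (.mv (.s (.n .e)) (.askT (.s .e) (nat_lit 4352949354496) (.askF (.s .e) (nat_lit 26388279066624) (.askT (.n (.s .e)) (nat_lit 4352949354496) (.askT (.n (.s (.n (.s .e)))) (nat_lit 4352949354496) (.ret (nat_lit 1)) (.ret (nat_lit 0))) (.ret (nat_lit 0))) (.ret (nat_lit 0))) (.ret (nat_lit 0)))) (.ret (nat_lit 0))))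 (.ret (nat_lit 0))) (.ret (nat_lit 0))) (.ret (nat_lit 0))) (.ret (nat_lit 0)))
def pt165 : Prog := (.askT .e (nat_lit 4379792900096) (.askF .e (nat_lit 26388279066624) (.askF (.n .e) (nat_lit 26388279066624) (.cnd (.askT .e (nat_lit 4333622001664) (.askT (.n (.s .e)) (nat_lit 4352949354496) (.askF (.n (.s .e)) (nat_lit 26388279066624) (.askT (.n (.n (.s .e))) (nat_lit 4352949354496) (.askT (.n (.n (.s (.n (.s .e))))) (nat_lit 4352949354496) (.ret (nat_lit 1)) (.ret (nat_lit 0))) (.ret (nat_lit 0))) (.ret (nat_lit 0))) (.ret (nat_lit 0))) (.ret (nat_lit 0))) (.n (.s .e)) (.askT (.p (.s .e)) (nat_lit 4333622001664) (.askT (.s .e) (nat_lit 4388382834688) (.mv (.s (.n .e)) (.askT (.s .e) (nat_lit 4352949354496) (.mv (.s (.n .e)) (.askF (.s .e) (nat_lit 26388279066624) (.askT (.n (.s .e)) (nat_lit 4352949354496) (.askT (.n (.s (.n (.s .e)))) (nat_lit 4352949354496) (.ret (nat_lit 1)) (.ret (nat_lit 0))) (.ret (nat_lit 0))) (.ret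 (nat_lit 0)))) (.ret (nat_lit 0)))) (.ret (nat_lit 0))) (.ret (nat_lit 0))) (.ret (nat_lit 0))) (.ret (nat_lit 0))) (.ret (nat_lit 0))) (.ret (nat_lit 0)))
def pt166 : Prog := (.askT .e (nat_lit 4379792900096) (.askF .e (nat_lit 26388279066624) (.askF (.n .e) (nat_lit 26388279066624) (.cnd (.askT .e (nat_lit 4333622001664) (.askT (.n (.s .e)) (nat_lit 4352949354496) (.askF (.n (.s .e)) (nat_lit 26388279066624) (.askT (.n (.n (.s .e))) (nat_lit 4352949354496) (.askT (.n (.n (.s (.n (.s .e))))) (nat_lit 4352949354496) (.ret (nat_lit 1)) (.ret (nat_lit 0))) (.ret (nat_lit 0))) (.ret (nat_lit 0))) (.ret (nat_lit 0))) (.ret (nat_lit 0))) (.n (.s .e)) (.askT (.p (.s .e)) (nat_lit 4333622001664) (.askT (.s .e) (nat_lit 4362613030912) (.mv (.s (.n .e)) (.askT (.s .e) (nat_lit 4352949354496) (.mv (.s (.n .e)) (.askF (.s .e) (nat_lit 26388279066624) (.askT (.n (.s .e)) (nat_lit 4352949354496) (.askT (.n (.s (.n (.s .e)))) (nat_lit 4352949354496)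 (.ret (nat_lit 1)) (.ret (nat_lit 0))) (.ret (nat_lit 0))) (.ret (nat_lit 0)))) (.ret (nat_lit 0)))) (.ret (nat_lit 0))) (.ret (nat_lit 0))) (.ret (nat_lit 0))) (.ret (nat_lit 0))) (.ret (nat_lit 0))) (.ret (nat_lit 0)))
def pt167 : Prog := (.askT .e (nat_lit 4379792900096) (.askF .e (nat_lit 26388279066624) (.askF (.n .e) (nat_lit 26388279066624) (.cnd (.askT .e (nat_lit 4352949354496) (.askT (.n (.s .e)) (nat_lit 4333622001664) (.askF (.n (.s .e)) (nat_lit 26388279066624) (.askT (.n (.n (.s .e))) (nat_lit 4352949354496) (.askT (.n (.n (.s (.n (.s .e))))) (nat_lit 4352949354496) (.ret (nat_lit 1)) (.ret (nat_lit 0))) (.ret (nat_lit 0))) (.ret (nat_lit 0))) (.ret (nat_lit 0))) (.ret (nat_lit 0))) (.n (.s .e)) (.askT (.p (.s .e)) (nat_lit 4333622001664) (.askT (.s .e) (nat_lit 4362613030912) (.mv (.s (.n .e)) (.askT (.s .e) (nat_lit 4352949354496) (.mv (.s (.n .e)) (.askF (.s .e) (nat_lit 26388279066624) (.askT (.n (.s .e))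 (nat_lit 4352949354496) (.askT (.n (.s (.n (.s .e)))) (nat_lit 4352949354496) (.ret (nat_lit 1)) (.ret (nat_lit 0))) (.ret (nat_lit 0))) (.ret (nat_lit 0)))) (.ret (nat_lit 0)))) (.ret (nat_lit 0))) (.ret (nat_lit 0))) (.ret (nat_lit 0))) (.ret (nat_lit 0))) (.ret (nat_lit 0))) (.ret (nat_lit 0)))
def pt168 : Prog := (.askT .e (nat_lit 4379792900096) (.askF .e (nat_lit 26388279066624) (.askF (.n .e) (nat_lit 26388279066624) (.cnd (.askT .e (nat_lit 4352949354496) (.askT (.n (.s .e)) (nat_lit 4333622001664) (.askF (.n (.s .e)) (nat_lit 26388279066624) (.askT (.n (.n (.s .e))) (nat_lit 4352949354496) (.askT (.n (.n (.s (.n (.s .e))))) (nat_lit 4352949354496) (.ret (nat_lit 1)) (.ret (nat_lit 0))) (.ret (nat_lit 0))) (.ret (nat_lit 0))) (.ret (nat_lit 0))) (.ret (nat_lit 0))) (.n (.s .e)) (.askT (.p (.s .e)) (nat_lit 4352949354496) (.askT (.s .e) (nat_lit 4362613030912) (.mv (.s (.n .e)) (.askT (.s .e) (nat_lit 4333622001664)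 (.mv (.s (.n .e)) (.askF (.s .e) (nat_lit 26388279066624) (.askT (.n (.s .e)) (nat_lit 4352949354496) (.askT (.n (.s (.n (.s .e)))) (nat_lit 4352949354496) (.ret (nat_lit 1)) (.ret (nat_lit 0))) (.ret (nat_lit 0))) (.ret (nat_lit 0)))) (.ret (nat_lit 0)))) (.ret (nat_lit 0))) (.ret (nat_lit 0))) (.ret (nat_lit 0))) (.ret (nat_lit 0))) (.ret (nat_lit 0))) (.ret (nat_lit 0)))
def pt169 : Prog := (.askT .e (nat_lit 4379792900096) (.askF .e (nat_lit 26388279066624) (.askT (.n (.n (.s .e))) (nat_lit 4352949354496) (.askF (.n (.n (.s .e))) (nat_lit 26388279066624) (.cnd (.askT (.s .e) (nat_lit 4352949354496) (.mv (.s (.n .e)) (.askT (.s .e) (nat_lit 4333622001664) (.mv (.s (.n .e)) (.askF (.s .e) (nat_lit 26388279066624) (.askT (.n (.s .e)) (nat_lit 4352949354496) (.askT (.n (.s (.n (.s .e)))) (nat_lit 4352949354496) (.ret (nat_lit 1)) (.ret (nat_lit 0))) (.ret (nat_lit 0))) (.ret (nat_lit 0)))) (.ret (nat_lit 0)))) (.ret (nat_lit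 0))) (.p (.p .e)) (.askT (.p (.s .e)) (nat_lit 4352949354496) (.askT (.s .e) (nat_lit 4352949354496) (.askT (.s (.n (.s .e))) (nat_lit 4352949354496) (.ret (nat_lit 1)) (.ret (nat_lit 0))) (.ret (nat_lit 0))) (.ret (nat_lit 0))) (.ret (nat_lit 0))) (.ret (nat_lit 0))) (.ret (nat_lit 0))) (.ret (nat_lit 0))) (.ret (nat_lit 0)))
def pt170 : Prog := (.askT .e (nat_lit 4379792900096) (.askF .e (nat_lit 26388279066624) (.askT (.n (.n (.s .e))) (nat_lit 4352949354496) (.askF (.n (.n (.s .e))) (nat_lit 26388279066624) (.cnd (.askT (.s .e) (nat_lit 4352949354496) (.mv (.s (.n .e)) (.askT (.s .e) (nat_lit 4333622001664) (.askF (.s .e) (nat_lit 26388279066624) (.askT (.n (.s .e)) (nat_lit 4352949354496) (.askT (.n (.s (.n (.s .e)))) (nat_lit 4352949354496) (.ret (nat_lit 1)) (.ret (nat_lit 0))) (.ret (nat_lit 0))) (.ret (nat_lit 0))) (.ret (nat_lit 0)))) (.ret (nat_lit 0))) (.p (.p .e)) (.askT (.p (.s .e)) (nat_lit 4352949354496) (.askT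 (.s .e) (nat_lit 4352949354496) (.askT (.s (.n (.s .e))) (nat_lit 4352949354496) (.ret (nat_lit 1)) (.ret (nat_lit 0))) (.ret (nat_lit 0))) (.ret (nat_lit 0))) (.ret (nat_lit 0))) (.ret (nat_lit 0))) (.ret (nat_lit 0))) (.ret (nat_lit 0))) (.ret (nat_lit 0)))
def pt171 : Prog := (.askT .e (nat_lit 4352949354496) (.askF .e (nat_lit 26388279066624) (.askT (.s .e) (nat_lit 4379792900096) (.askF (.s .e) (nat_lit 26388279066624) (.cnd (.askT (.s .e) (nat_lit 4333622001664) (.askF (.s .e) (nat_lit 26388279066624) (.askT (.s (.n (.s .e))) (nat_lit 4352949354496) (.cnd (.askT .e (nat_lit 4333622001664) (.askF .e (nat_lit 26388279066624) (.askT (.n (.s .e)) (nat_lit 4352949354496) (.ret (nat_lit 1)) (.ret (nat_lit 0))) (.ret (nat_lit 0))) (.ret (nat_lit 0))) (.n (.s .e)) (.askT (.n (.n (.s .e))) (nat_lit 4352949354496) (.askT (.n (.n (.s (.n (.s .e))))) (nat_lit 4352949354496) (.ret (nat_lit 1)) (.ret (nat_lit 0))) (.ret (nat_lit 0)))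 (.ret (nat_lit 0))) (.ret (nat_lit 0))) (.ret (nat_lit 0))) (.ret (nat_lit 0))) (.s (.n .e)) (.askT (.n (.s .e)) (nat_lit 4352949354496) (.askT (.n (.s (.n (.s .e)))) (nat_lit 4352949354496) (.ret (nat_lit 1)) (.ret (nat_lit 0))) (.ret (nat_lit 0))) (.ret (nat_lit 0))) (.ret (nat_lit 0))) (.ret (nat_lit 0))) (.ret (nat_lit 0))) (.ret (nat_lit 0)))
def pt172 : Prog := (.askT .e (nat_lit 4379792900096) (.askF .e (nat_lit 26388279066624) (.cnd (.askF .e (nat_lit 26388279066624) (.askT (.s .e) (nat_lit 4333622001664) (.askF (.s .e) (nat_lit 26388279066624) (.askT (.s (.n (.s .e))) (nat_lit 4352949354496) (.askT (.s (.n (.s (.n (.s .e))))) (nat_lit 4352949354496) (.ret (nat_lit 1)) (.ret (nat_lit 0))) (.ret (nat_lit 0))) (.ret (nat_lit 0))) (.ret (nat_lit 0))) (.ret (nat_lit 0))) (.n (.n .e)) (.askT (.p (.p (.s .e))) (nat_lit 4352949354496) (.askT (.p (.p (.s (.n (.s .e))))) (nat_lit 4352949354496) (.askT (.p (.s .e)) (nat_lit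 4352949354496) (.askT (.s .e) (nat_lit 4352949354496) (.askT (.s (.n (.s .e))) (nat_lit 4352949354496) (.ret (nat_lit 1)) (.ret (nat_lit 0))) (.ret (nat_lit 0))) (.ret (nat_lit 0))) (.ret (nat_lit 0))) (.ret (nat_lit 0))) (.ret (nat_lit 0))) (.ret (nat_lit 0))) (.ret (nat_lit 0)))
def pt173 : Prog := (.askT .e (nat_lit 4379792900096) (.askF (.n .e) (nat_lit 26388279066624) (.cnd (.askF .e (nat_lit 26388279066624) (.askT (.s .e) (nat_lit 3770981285888) (.askF (.s .e) (nat_lit 21990232555520) (.askT (.s (.n (.s .e))) (nat_lit 3770981285888) (.ret (nat_lit 1)) (.ret (nat_lit 0))) (.ret (nat_lit 0))) (.ret (nat_lit 0))) (.ret (nat_lit 0))) (.n (.n .e)) (.askT (.n (.s .e)) (nat_lit 4388382834688) (.cnd (.askT (.s .e) (nat_lit 3770981285888) (.askT (.s (.n (.s .e))) (nat_lit 3770981285888) (.askT (.s (.n (.s (.n (.s .e))))) (nat_lit 3770981285888) (.ret (nat_lit 1)) (.ret (nat_lit 0))) (.ret (nat_lit 0))) (.ret (nat_lit 0))) (.p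 (.p .e)) (.askT (.s .e) (nat_lit 4395899027456) (.askT (.s (.p (.s .e))) (nat_lit 4388382834688) (.ret (nat_lit 1)) (.ret (nat_lit 0))) (.ret (nat_lit 0))) (.ret (nat_lit 0))) (.ret (nat_lit 0))) (.ret (nat_lit 0))) (.ret (nat_lit 0))) (.ret (nat_lit 0)))
def pt174 : Prog := (.askT .e (nat_lit 4379792900096) (.askF (.n .e) (nat_lit 26388279066624) (.cnd (.askF .e (nat_lit 26388279066624) (.askT (.s .e) (nat_lit 4395899027456) (.askF (.s .e) (nat_lit 21990232555520) (.askT (.s (.p (.s .e))) (nat_lit 3770981285888) (.ret (nat_lit 1)) (.ret (nat_lit 0))) (.ret (nat_lit 0))) (.ret (nat_lit 0))) (.ret (nat_lit 0))) (.n (.n .e)) (.askT (.n (.s .e)) (nat_lit 4388382834688) (.askT (.p (.p (.s .e))) (nat_lit 3770981285888) (.askT (.p (.p (.s (.n (.s .e))))) (nat_lit 3770981285888) (.askT (.p (.s .e)) (nat_lit 625991483392) (.askT (.s .e) (nat_lit 4395899027456) (.askT (.s (.p (.s .e))) (nat_lit 4388382834688) (.ret (nat_lit 1)) (.ret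 (nat_lit 0))) (.ret (nat_lit 0))) (.ret (nat_lit 0))) (.ret (nat_lit 0))) (.ret (nat_lit 0))) (.ret (nat_lit 0))) (.ret (nat_lit 0))) (.ret (nat_lit 0))) (.ret (nat_lit 0)))
def pt175 : Prog := (.askT .e (nat_lit 4379792900096) (.askF (.n .e) (nat_lit 26388279066624) (.cnd (.askF .e (nat_lit 26388279066624) (.askT (.s .e) (nat_lit 3770981285888) (.askF (.s .e) (nat_lit 21990232555520) (.askT (.s (.n (.s .e))) (nat_lit 3770981285888) (.ret (nat_lit 1)) (.ret (nat_lit 0))) (.ret (nat_lit 0))) (.ret (nat_lit 0))) (.ret (nat_lit 0))) (.n (.n .e)) (.askT (.n (.s .e)) (nat_lit 4388382834688) (.cnd (.askT (.s .e) (nat_lit 3770981285888) (.askT (.s (.n (.s .e))) (nat_lit 3770981285888) (.askT (.s (.n (.s (.n (.s .e))))) (nat_lit 3770981285888) (.ret (nat_lit 1)) (.ret (nat_lit 0))) (.ret (nat_lit 0))) (.ret (nat_lit 0))) (.p (.p .e)) (.askT (.s .e) (nat_lit 4395899027456) (.askT (.s (.p (.s .e))) (nat_lit 4362613030912) (.ret (nat_lit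 1)) (.ret (nat_lit 0))) (.ret (nat_lit 0))) (.ret (nat_lit 0))) (.ret (nat_lit 0))) (.ret (nat_lit 0))) (.ret (nat_lit 0))) (.ret (nat_lit 0)))
def pt176 : Prog := (.askT .e (nat_lit 4379792900096) (.askF (.n .e) (nat_lit 26388279066624) (.cnd (.askF .e (nat_lit 26388279066624) (.askT (.s .e) (nat_lit 4395899027456) (.askF (.s .e) (nat_lit 21990232555520) (.askT (.s (.p (.s .e))) (nat_lit 3770981285888) (.ret (nat_lit 1)) (.ret (nat_lit 0))) (.ret (nat_lit 0))) (.ret (nat_lit 0))) (.ret (nat_lit 0))) (.n (.n .e)) (.askT (.n (.s .e)) (nat_lit 4388382834688) (.askT (.p (.p (.s .e))) (nat_lit 3770981285888) (.askT (.p (.p (.s (.n (.s .e))))) (nat_lit 3770981285888) (.askT (.p (.s .e)) (nat_lit 625991483392) (.askT (.s .e) (nat_lit 4395899027456) (.askT (.s (.p (.s .e))) (nat_lit 4362613030912) (.ret (nat_lit 1)) (.ret (nat_lit 0))) (.ret (nat_lit 0))) (.ret (nat_lit 0))) (.ret (nat_lit 0))) (.ret (nat_lit 0))) (.ret (nat_lit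 0))) (.ret (nat_lit 0))) (.ret (nat_lit 0))) (.ret (nat_lit 0)))
def pt177 : Prog := (.askT .e (nat_lit 4379792900096) (.askF .e (nat_lit 26388279066624) (.askF (.n .e) (nat_lit 26388279066624) (.cnd (.askF .e (nat_lit 26388279066624) (.askT (.s .e) (nat_lit 3770981285888) (.askF (.s .e) (nat_lit 21990232555520) (.askT (.s (.n (.s .e))) (nat_lit 3770981285888) (.ret (nat_lit 1)) (.ret (nat_lit 0))) (.ret (nat_lit 0))) (.ret (nat_lit 0))) (.ret (nat_lit 0))) (.n (.n .e)) (.askT (.n (.s .e)) (nat_lit 4362613030912) (.askT (.p (.p (.s (.n (.s .e))))) (nat_lit 3770981285888) (.askT (.p (.p (.s (.n (.s (.n (.s .e))))))) (nat_lit 3770981285888) (.askT (.p (.s .e)) (nat_lit 4388382834688) (.askT (.s .e) (nat_lit 4395899027456) (.askT (.s (.n (.s .e))) (nat_lit 4394825285632) (.askT (.s (.p (.s .e))) (nat_lit 4388382834688) (.ret (nat_lit 1)) (.ret (nat_lit 0))) (.ret (nat_lit 0))) (.ret (nat_lit 0))) (.ret (nat_lit 0))) (.ret (nat_lit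 0))) (.ret (nat_lit 0))) (.ret (nat_lit 0))) (.ret (nat_lit 0))) (.ret (nat_lit 0))) (.ret (nat_lit 0))) (.ret (nat_lit 0)))
def pt178 : Prog := (.askT .e (nat_lit 4379792900096) (.askF (.n .e) (nat_lit 26388279066624) (.cnd (.askF .e (nat_lit 26388279066624) (.askT (.s .e) (nat_lit 4395899027456) (.askF (.s .e) (nat_lit 21990232555520) (.askT (.s (.n (.s .e))) (nat_lit 625991483392) (.askT (.s (.p (.s .e))) (nat_lit 3770981285888) (.ret (nat_lit 1)) (.ret (nat_lit 0))) (.ret (nat_lit 0))) (.ret (nat_lit 0))) (.ret (nat_lit 0))) (.ret (nat_lit 0))) (.n (.n .e)) (.askT (.n (.s .e)) (nat_lit 4362613030912) (.askT (.p (.p (.s (.n (.s .e))))) (nat_lit 3770981285888) (.askT (.p (.s .e)) (nat_lit 625991483392) (.askT (.s .e) (nat_lit 4395899027456) (.askT (.s (.p (.s .e))) (nat_lit 4388382834688) (.ret (nat_lit 1)) (.ret (nat_lit 0))) (.ret (nat_lit 0))) (.ret (nat_lit 0))) (.ret (nat_lit 0))) (.ret (nat_lit 0))) (.ret (nat_lit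 0))) (.ret (nat_lit 0))) (.ret (nat_lit 0)))
def pt179 : Prog := (.askT .e (nat_lit 4379792900096) (.askF .e (nat_lit 26388279066624) (.askF (.n .e) (nat_lit 26388279066624) (.cnd (.askF .e (nat_lit 26388279066624) (.askT (.s .e) (nat_lit 3770981285888) (.askF (.s .e) (nat_lit 21990232555520) (.askT (.s (.n (.s .e))) (nat_lit 3770981285888) (.ret (nat_lit 1)) (.ret (nat_lit 0))) (.ret (nat_lit 0))) (.ret (nat_lit 0))) (.ret (nat_lit 0))) (.n (.n .e)) (.askT (.n (.s .e)) (nat_lit 4362613030912) (.askT (.p (.p (.s (.n (.s .e))))) (nat_lit 3770981285888) (.askT (.p (.p (.s (.n (.s (.n (.s .e))))))) (nat_lit 3770981285888) (.askT (.p (.s .e)) (nat_lit 4388382834688) (.askT (.s .e) (nat_lit 4395899027456) (.askT (.s (.n (.s .e))) (nat_lit 4394825285632) (.askT (.s (.p (.s .e))) (nat_lit 4362613030912) (.ret (nat_lit 1)) (.ret (nat_lit 0))) (.ret (nat_lit 0))) (.ret (nat_lit 0))) (.ret (nat_lit 0))) (.ret (nat_lit 0))) (.ret (nat_lit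 0))) (.ret (nat_lit 0))) (.ret (nat_lit 0))) (.ret (nat_lit 0))) (.ret (nat_lit 0))) (.ret (nat_lit 0)))
def pt180 : Prog := (.askT .e (nat_lit 4379792900096) (.askF (.n .e) (nat_lit 26388279066624) (.cnd (.askF .e (nat_lit 26388279066624) (.askT (.s .e) (nat_lit 4395899027456) (.askF (.s .e) (nat_lit 21990232555520) (.askT (.s (.n (.s .e))) (nat_lit 625991483392) (.askT (.s (.p (.s .e))) (nat_lit 3770981285888) (.ret (nat_lit 1)) (.ret (nat_lit 0))) (.ret (nat_lit 0))) (.ret (nat_lit 0))) (.ret (nat_lit 0))) (.ret (nat_lit 0))) (.n (.n .e)) (.askT (.n (.s .e)) (nat_lit 4362613030912) (.askT (.p (.p (.s (.n (.s .e))))) (nat_lit 3770981285888) (.askT (.p (.s .e)) (nat_lit 625991483392) (.askT (.s .e) (nat_lit 4395899027456) (.askT (.s (.p (.s .e))) (nat_lit 4362613030912) (.ret (nat_lit 1)) (.ret (nat_lit 0))) (.ret (nat_lit 0))) (.ret (nat_lit 0))) (.ret (nat_lit 0))) (.ret (nat_lit 0))) (.ret (nat_lit 0))) (.ret (nat_lit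 0))) (.ret (nat_lit 0)))
def pt181 : Prog := (.askT .e (nat_lit 4379792900096) (.askF .e (nat_lit 26388279066624) (.askF (.n .e) (nat_lit 26388279066624) (.cnd (.askF .e (nat_lit 26388279066624) (.askT (.s .e) (nat_lit 3770981285888) (.askF (.s .e) (nat_lit 21990232555520) (.askT (.s (.n (.s .e))) (nat_lit 3770981285888) (.ret (nat_lit 1)) (.ret (nat_lit 0))) (.ret (nat_lit 0))) (.ret (nat_lit 0))) (.ret (nat_lit 0))) (.n (.n .e)) (.askT (.n (.s .e)) (nat_lit 4388382834688) (.cnd (.askT (.s .e) (nat_lit 3770981285888) (.askT (.s (.n (.s .e))) (nat_lit 3770981285888) (.askT (.s (.n (.s (.n (.s .e))))) (nat_lit 3770981285888) (.ret (nat_lit 1)) (.ret (nat_lit 0))) (.ret (nat_lit 0))) (.ret (nat_lit 0))) (.p (.p .e)) (.askT (.p (.s .e)) (nat_lit 4388382834688) (.askT (.s .e) (nat_lit 4395899027456) (.askT (.s (.n (.s .e))) (nat_lit 4394825285632) (.ret (nat_lit 1)) (.ret (nat_lit 0))) (.ret (nat_lit 0))) (.ret (nat_lit 0))) (.ret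 (nat_lit 0))) (.ret (nat_lit 0))) (.ret (nat_lit 0))) (.ret (nat_lit 0))) (.ret (nat_lit 0))) (.ret (nat_lit 0)))
def pt182 : Prog := (.askT .e (nat_lit 4379792900096) (.askF .e (nat_lit 26388279066624) (.askF (.n .e) (nat_lit 21990232555520) (.cnd (.askF .e (nat_lit 26388279066624) (.askF (.s .e) (nat_lit 26388279066624) (.askT (.s (.n (.s .e))) (nat_lit 3770981285888) (.ret (nat_lit 1)) (.ret (nat_lit 0))) (.ret (nat_lit 0))) (.ret (nat_lit 0))) (.n (.n .e)) (.askT (.n (.s .e)) (nat_lit 4395899027456) (.askT (.n (.s (.n (.s .e)))) (nat_lit 4395899027456) (.askT (.p (.p (.s .e))) (nat_lit 3770981285888) (.askT (.p (.p (.s (.n (.s .e))))) (nat_lit 3770981285888) (.askT (.p (.s .e)) (nat_lit 4388382834688) (.askT (.s .e) (nat_lit 4395899027456) (.askT (.s (.n (.s .e))) (nat_lit 4394825285632) (.askF (.s (.n (.s .e))) (nat_lit 4398046511104) (.askT (.s (.p (.s .e))) (nat_lit 4395899027456) (.ret (nat_lit 1)) (.ret (nat_lit 0)))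 (.ret (nat_lit 0))) (.ret (nat_lit 0))) (.ret (nat_lit 0))) (.ret (nat_lit 0))) (.ret (nat_lit 0))) (.ret (nat_lit 0))) (.ret (nat_lit 0))) (.ret (nat_lit 0))) (.ret (nat_lit 0))) (.ret (nat_lit 0))) (.ret (nat_lit 0))) (.ret (nat_lit 0)))
def pt183 : Prog := (.askT .e (nat_lit 4379792900096) (.askF .e (nat_lit 26388279066624) (.askF (.n .e) (nat_lit 21990232555520) (.askF (.n (.n .e)) (nat_lit 26388279066624) (.askT (.n (.n (.s .e))) (nat_lit 4388382834688) (.cnd (.askT .e (nat_lit 4395899027456) (.askT (.n (.s .e)) (nat_lit 4395899027456) (.askF (.n (.s .e)) (nat_lit 4398046511104) (.askT (.p (.s .e)) (nat_lit 4394825285632) (.ret (nat_lit 1)) (.ret (nat_lit 0))) (.ret (nat_lit 0))) (.ret (nat_lit 0))) (.ret (nat_lit 0))) (.n (.s .e)) (.askT (.p (.s .e)) (nat_lit 4388382834688) (.askT (.s .e) (nat_lit 4395899027456) (.askT (.s (.n (.s .e))) (nat_lit 4394825285632) (.askT (.s (.p (.s .e))) (nat_lit 4395899027456) (.ret (nat_lit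 1)) (.ret (nat_lit 0))) (.ret (nat_lit 0))) (.ret (nat_lit 0))) (.ret (nat_lit 0))) (.ret (nat_lit 0))) (.ret (nat_lit 0))) (.ret (nat_lit 0))) (.ret (nat_lit 0))) (.ret (nat_lit 0))) (.ret (nat_lit 0)))
def pt184 : Prog := (.askT .e (nat_lit 4379792900096) (.askF .e (nat_lit 26388279066624) (.askF (.n .e) (nat_lit 21990232555520) (.askT (.n (.n (.s .e))) (nat_lit 4233764012032) (.askF (.n (.n (.s .e))) (nat_lit 26388279066624) (.cnd (.askT .e (nat_lit 4395899027456) (.askT (.n (.s .e)) (nat_lit 4395899027456) (.askF (.n (.s .e)) (nat_lit 4398046511104) (.ret (nat_lit 1)) (.ret (nat_lit 0))) (.ret (nat_lit 0))) (.ret (nat_lit 0))) (.n (.s .e)) (.askT (.p (.p (.s .e))) (nat_lit 4395899027456) (.askT (.p (.p (.s (.n (.s .e))))) (nat_lit 3770981285888) (.askT (.p (.s .e)) (nat_lit 4233764012032) (.askT (.s .e) (nat_lit 4395899027456) (.askT (.s (.n (.s .e))) (nat_lit 3770981285888) (.askT (.s (.p (.s .e))) (nat_lit 4395899027456)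 (.ret (nat_lit 1)) (.ret (nat_lit 0))) (.ret (nat_lit 0))) (.ret (nat_lit 0))) (.ret (nat_lit 0))) (.ret (nat_lit 0))) (.ret (nat_lit 0))) (.ret (nat_lit 0))) (.ret (nat_lit 0))) (.ret (nat_lit 0))) (.ret (nat_lit 0))) (.ret (nat_lit 0))) (.ret (nat_lit 0)))
def pt185 : Prog := (.askT .e (nat_lit 4379792900096) (.askF (.n .e) (nat_lit 21990232555520) (.askF (.n (.n .e)) (nat_lit 8796093022208) (.cnd (.askT .e (nat_lit 4395899027456) (.askT (.n (.s .e)) (nat_lit 4395899027456) (.askT (.p (.s .e)) (nat_lit 4362613030912) (.ret (nat_lit 1)) (.ret (nat_lit 0))) (.ret (nat_lit 0))) (.ret (nat_lit 0))) (.n (.s .e)) (.askT (.s .e) (nat_lit 4395899027456) (.askT (.s (.p (.s .e))) (nat_lit 4395899027456) (.ret (nat_lit 1)) (.ret (nat_lit 0))) (.ret (nat_lit 0))) (.ret (nat_lit 0))) (.ret (nat_lit 0))) (.ret (nat_lit 0))) (.ret (nat_lit 0)))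
def pt186 : Prog := (.askT .e (nat_lit 4379792900096) (.askF .e (nat_lit 26388279066624) (.askF (.n .e) (nat_lit 26388279066624) (.askF (.n (.n (.s .e))) (nat_lit 26388279066624) (.askT (.n (.s .e)) (nat_lit 4395899027456) (.askF (.p .e) (nat_lit 21990232555520) (.askT (.p (.p (.s .e))) (nat_lit 3770981285888) (.askT (.p (.p (.s (.n (.s .e))))) (nat_lit 3770981285888) (.cnd (.askT .e (nat_lit 3770981285888) (.askT (.n (.s .e)) (nat_lit 3770981285888) (.askT (.n (.s (.n (.s .e)))) (nat_lit 3770981285888) (.ret (nat_lit 1)) (.ret (nat_lit 0))) (.ret (nat_lit 0))) (.ret (nat_lit 0))) (.p (.s .e)) (.askT (.s .e) (nat_lit 4362613030912) (.askT (.s (.n (.s .e))) (nat_lit 3770981285888) (.askT (.s (.p (.s .e))) (nat_lit 4388382834688) (.ret (nat_lit 1)) (.ret (nat_lit 0))) (.ret (nat_lit 0))) (.ret (nat_lit 0))) (.ret (nat_lit 0))) (.ret (nat_lit 0))) (.ret (nat_lit 0))) (.ret (nat_lit 0))) (.ret (nat_lit 0))) (.ret (nat_lit 0)))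 (.ret (nat_lit 0))) (.ret (nat_lit 0))) (.ret (nat_lit 0)))
def pt187 : Prog := (.askT .e (nat_lit 4379792900096) (.askF .e (nat_lit 26388279066624) (.askF (.n .e) (nat_lit 26388279066624) (.askF (.n (.n (.s .e))) (nat_lit 26388279066624) (.askT (.n (.s .e)) (nat_lit 4395899027456) (.askF (.p .e) (nat_lit 21990232555520) (.askT (.p (.p (.s .e))) (nat_lit 3770981285888) (.askT (.p (.p (.s (.n (.s .e))))) (nat_lit 3770981285888) (.cnd (.askT .e (nat_lit 3770981285888) (.askT (.n (.s .e)) (nat_lit 3770981285888) (.askT (.n (.s (.n (.s .e)))) (nat_lit 3770981285888) (.ret (nat_lit 1)) (.ret (nat_lit 0))) (.ret (nat_lit 0))) (.ret (nat_lit 0))) (.p (.s .e)) (.askT (.s .e) (nat_lit 4362613030912) (.askT (.s (.n (.s .e))) (nat_lit 3770981285888) (.askT (.s (.p (.s .e))) (nat_lit 4362613030912) (.ret (nat_lit 1)) (.ret (nat_lit 0))) (.ret (nat_lit 0))) (.ret (nat_lit 0))) (.ret (nat_lit 0))) (.ret (nat_lit 0))) (.ret (nat_lit 0)))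 (.ret (nat_lit 0))) (.ret (nat_lit 0))) (.ret (nat_lit 0))) (.ret (nat_lit 0))) (.ret (nat_lit 0))) (.ret (nat_lit 0)))
def pt188 : Prog := (.askT .e (nat_lit 4379792900096) (.askF .e (nat_lit 26388279066624) (.askF (.n .e) (nat_lit 26388279066624) (.cnd (.askT .e (nat_lit 4394825285632) (.askF (.n (.n .e)) (nat_lit 26388279066624) (.askT (.n (.n (.s .e))) (nat_lit 4395899027456) (.ret (nat_lit 1)) (.ret (nat_lit 0))) (.ret (nat_lit 0))) (.ret (nat_lit 0))) (.n (.s .e)) (.askF (.p .e) (nat_lit 21990232555520) (.askT (.p (.p (.s .e))) (nat_lit 3770981285888) (.cnd (.askT .e (nat_lit 3770981285888) (.askT (.n (.s .e)) (nat_lit 3770981285888) (.askT (.n (.s (.n (.s .e)))) (nat_lit 3770981285888) (.ret (nat_lit 1)) (.ret (nat_lit 0))) (.ret (nat_lit 0))) (.ret (nat_lit 0))) (.p (.s .e)) (.askT (.s .e) (nat_lit 4388382834688) (.askT (.s (.n (.s .e))) (nat_lit 3770981285888) (.askT (.s (.p (.s .e))) (nat_lit 4388382834688) (.askT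 (.s (.p (.s (.n (.n (.s .e)))))) (nat_lit 4388382834688) (.ret (nat_lit 1)) (.ret (nat_lit 0))) (.ret (nat_lit 0))) (.ret (nat_lit 0))) (.ret (nat_lit 0))) (.ret (nat_lit 0))) (.ret (nat_lit 0))) (.ret (nat_lit 0))) (.ret (nat_lit 0))) (.ret (nat_lit 0))) (.ret (nat_lit 0))) (.ret (nat_lit 0)))
def pt189 : Prog := (.askT .e (nat_lit 4379792900096) (.askF .e (nat_lit 26388279066624) (.askF (.n .e) (nat_lit 26388279066624) (.askF (.n (.n (.s .e))) (nat_lit 26388279066624) (.askT (.n (.s .e)) (nat_lit 4388382834688) (.askF (.n (.s (.n (.n .e)))) (nat_lit 26388279066624) (.askF (.p .e) (nat_lit 21990232555520) (.askT (.p (.p (.s .e))) (nat_lit 3770981285888) (.askT (.p (.p (.s (.n (.s .e))))) (nat_lit 3770981285888) (.cnd (.askT .e (nat_lit 3770981285888) (.askT (.n (.s .e)) (nat_lit 3770981285888) (.askT (.n (.s (.n (.s .e)))) (nat_lit 3770981285888) (.ret (nat_lit 1)) (.ret (nat_lit 0))) (.ret (nat_lit 0))) (.ret (nat_lit 0)))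 (.p (.s .e)) (.askT (.s .e) (nat_lit 4388382834688) (.askT (.s (.n (.s .e))) (nat_lit 3770981285888) (.askT (.s (.p (.s .e))) (nat_lit 4394825285632) (.askT (.s (.p (.s (.n (.n (.s .e)))))) (nat_lit 4395899027456) (.ret (nat_lit 1)) (.ret (nat_lit 0))) (.ret (nat_lit 0))) (.ret (nat_lit 0))) (.ret (nat_lit 0))) (.ret (nat_lit 0))) (.ret (nat_lit 0))) (.ret (nat_lit 0))) (.ret (nat_lit 0))) (.ret (nat_lit 0))) (.ret (nat_lit 0))) (.ret (nat_lit 0))) (.ret (nat_lit 0))) (.ret (nat_lit 0))) (.ret (nat_lit 0)))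
def pt190 : Prog := (.askT .e (nat_lit 4379792900096) (.askF .e (nat_lit 26388279066624) (.askF (.n .e) (nat_lit 26388279066624) (.askT (.n (.s .e)) (nat_lit 4388382834688) (.askF (.p .e) (nat_lit 21990232555520) (.askT (.p (.p (.s .e))) (nat_lit 3770981285888) (.cnd (.askT .e (nat_lit 3770981285888) (.askT (.n (.s .e)) (nat_lit 3770981285888) (.askT (.n (.s (.n (.s .e)))) (nat_lit 3770981285888) (.ret (nat_lit 1)) (.ret (nat_lit 0))) (.ret (nat_lit 0))) (.ret (nat_lit 0))) (.p (.s .e)) (.askT (.s .e) (nat_lit 4388382834688) (.askT (.s (.n (.n (.s .e)))) (nat_lit 4388382834688) (.askF (.s (.n (.n (.s .e)))) (nat_lit 26388279066624) (.askT (.s (.p (.s .e))) (nat_lit 4394825285632) (.askT (.s (.p (.s (.n (.s .e))))) (nat_lit 4395899027456) (.ret (nat_lit 1)) (.ret (nat_lit 0))) (.ret (nat_lit 0))) (.ret (nat_lit 0))) (.ret (nat_lit 0))) (.ret (nat_lit 0))) (.ret (nat_lit 0))) (.ret (nat_lit 0))) (.ret (nat_lit 0))) (.ret (nat_lit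 0))) (.ret (nat_lit 0))) (.ret (nat_lit 0))) (.ret (nat_lit 0)))
def pt191 : Prog := (.askT .e (nat_lit 4379792900096) (.askF .e (nat_lit 26388279066624) (.askF (.n .e) (nat_lit 21990232555520) (.cnd (.askT (.s .e) (nat_lit 4388382834688) (.askF (.s .e) (nat_lit 26388279066624) (.askT (.s (.p (.s .e))) (nat_lit 4395899027456) (.askT (.s (.p (.s (.p (.s .e))))) (nat_lit 3770981285888) (.ret (nat_lit 1)) (.ret (nat_lit 0))) (.ret (nat_lit 0))) (.ret (nat_lit 0))) (.ret (nat_lit 0))) (.n (.n .e)) (.askT (.n (.s .e)) (nat_lit 4395899027456) (.askT (.n (.s (.n (.s .e)))) (nat_lit 4395899027456) (.askT (.p (.s .e)) (nat_lit 4388382834688) (.askT (.s .e) (nat_lit 4395899027456) (.askT (.s (.n (.s .e))) (nat_lit 4394825285632) (.askF (.s (.n (.s .e))) (nat_lit 4398046511104) (.askT (.s (.p (.s .e))) (nat_lit 4395899027456) (.ret (nat_lit 1)) (.ret (nat_lit 0))) (.ret (nat_lit 0))) (.ret (nat_lit 0))) (.ret (nat_lit 0))) (.ret (nat_lit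 0))) (.ret (nat_lit 0))) (.ret (nat_lit 0))) (.ret (nat_lit 0))) (.ret (nat_lit 0))) (.ret (nat_lit 0))) (.ret (nat_lit 0)))
def pt193 : Prog := (.askT .e (nat_lit 4379792900096) (.askF .e (nat_lit 21990232555520) (.askF (.n .e) (nat_lit 26388279066624) (.cnd (.askF .e (nat_lit 26388279066624) (.askT (.s .e) (nat_lit 4394825285632) (.askF (.s (.n (.n .e))) (nat_lit 26388279066624) (.askT (.s (.n (.n (.s .e)))) (nat_lit 4395899027456) (.ret (nat_lit 1)) (.ret (nat_lit 0))) (.ret (nat_lit 0))) (.ret (nat_lit 0))) (.ret (nat_lit 0))) (.n (.n .e)) (.cnd (.askT .e (nat_lit 4388382834688) (.askT (.p (.s .e)) (nat_lit 4388382834688) (.askT (.p (.s (.n (.n (.s .e))))) (nat_lit 4388382834688) (.ret (nat_lit 1)) (.ret (nat_lit 0))) (.ret (nat_lit 0))) (.ret (nat_lit 0))) (.n (.s .e)) (.askT (.p (.p (.s .e))) (nat_lit 625991483392) (.askT (.p (.s .e)) (nat_lit 3770981285888) (.askT (.s .e) (nat_lit 4395899027456) (.askT (.s (.n (.s .e)))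 (nat_lit 3770981285888) (.askT (.s (.n (.s (.n (.s .e))))) (nat_lit 3770981285888) (.ret (nat_lit 1)) (.ret (nat_lit 0))) (.ret (nat_lit 0))) (.ret (nat_lit 0))) (.ret (nat_lit 0))) (.ret (nat_lit 0))) (.ret (nat_lit 0))) (.ret (nat_lit 0))) (.ret (nat_lit 0))) (.ret (nat_lit 0))) (.ret (nat_lit 0)))
def pt194 : Prog := (.askT .e (nat_lit 4379792900096) (.askF .e (nat_lit 26388279066624) (.cnd (.askT (.s .e) (nat_lit 4395899027456) (.askF (.s .e) (nat_lit 21990232555520) (.askT (.s (.p (.s .e))) (nat_lit 4395899027456) (.ret (nat_lit 1)) (.ret (nat_lit 0))) (.ret (nat_lit 0))) (.ret (nat_lit 0))) (.n (.n .e)) (.askF (.p .e) (nat_lit 4398046511104) (.askT (.p (.p (.s .e))) (nat_lit 4395899027456) (.askT (.p (.p (.s (.n (.s .e))))) (nat_lit 4395899027456) (.askT (.p (.s .e)) (nat_lit 4388382834688) (.askT (.s .e) (nat_lit 4395899027456) (.askT (.s (.n (.s .e))) (nat_lit 4388382834688) (.ret (nat_lit 1)) (.ret (nat_lit 0))) (.ret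 (nat_lit 0))) (.ret (nat_lit 0))) (.ret (nat_lit 0))) (.ret (nat_lit 0))) (.ret (nat_lit 0))) (.ret (nat_lit 0))) (.ret (nat_lit 0))) (.ret (nat_lit 0)))
def pt195 : Prog := (.askT .e (nat_lit 4379792900096) (.askF .e (nat_lit 26388279066624) (.cnd (.askT (.s .e) (nat_lit 4395899027456) (.askF (.s .e) (nat_lit 21990232555520) (.askT (.s (.p (.s .e))) (nat_lit 4395899027456) (.ret (nat_lit 1)) (.ret (nat_lit 0))) (.ret (nat_lit 0))) (.ret (nat_lit 0))) (.n (.n .e)) (.askF (.p .e) (nat_lit 4398046511104) (.askT (.p (.p (.s .e))) (nat_lit 4395899027456) (.askT (.p (.p (.s (.n (.s .e))))) (nat_lit 4395899027456) (.askT (.p (.s .e)) (nat_lit 4388382834688) (.askT (.s .e) (nat_lit 4395899027456) (.askT (.s (.n (.s .e))) (nat_lit 4362613030912) (.ret (nat_lit 1)) (.ret (nat_lit 0))) (.ret (nat_lit 0))) (.ret (nat_lit 0))) (.ret (nat_lit 0))) (.ret (nat_lit 0))) (.ret (nat_lit 0))) (.ret (nat_lit 0))) (.ret (nat_lit 0))) (.ret (nat_lit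 0)))
def pt196 : Prog := (.askT .e (nat_lit 4379792900096) (.askF .e (nat_lit 26388279066624) (.askF (.n .e) (nat_lit 26388279066624) (.cnd (.askF .e (nat_lit 26388279066624) (.askT (.s .e) (nat_lit 4233764012032) (.askF (.s .e) (nat_lit 26388279066624) (.askT (.s (.n (.s .e))) (nat_lit 3770981285888) (.ret (nat_lit 1)) (.ret (nat_lit 0))) (.ret (nat_lit 0))) (.ret (nat_lit 0))) (.ret (nat_lit 0))) (.n (.n .e)) (.askT (.n (.s .e)) (nat_lit 4395899027456) (.askF (.p .e) (nat_lit 26388279066624) (.askT (.p (.p (.s .e))) (nat_lit 4388382834688) (.askT (.p (.p (.s (.n (.s .e))))) (nat_lit 3770981285888) (.askT (.p (.s .e)) (nat_lit 4395899027456) (.askT (.p (.s (.p (.s .e)))) (nat_lit 3770981285888) (.askT (.s .e) (nat_lit 4388382834688) (.ret (nat_lit 1)) (.ret (nat_lit 0))) (.ret (nat_lit 0))) (.ret (nat_lit 0))) (.ret (nat_lit 0))) (.ret (nat_lit 0))) (.ret (nat_lit 0))) (.ret (nat_lit 0))) (.ret (nat_lit 0))) (.ret (nat_lit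 0))) (.ret (nat_lit 0))) (.ret (nat_lit 0)))
def pt197 : Prog := (.askT .e (nat_lit 4379792900096) (.askF .e (nat_lit 26388279066624) (.askF (.n .e) (nat_lit 26388279066624) (.cnd (.askF .e (nat_lit 26388279066624) (.askT (.s .e) (nat_lit 4388382834688) (.askF (.s .e) (nat_lit 26388279066624) (.askT (.s (.p (.s .e))) (nat_lit 3770981285888) (.ret (nat_lit 1)) (.ret (nat_lit 0))) (.ret (nat_lit 0))) (.ret (nat_lit 0))) (.ret (nat_lit 0))) (.n (.n .e)) (.askT (.n (.s .e)) (nat_lit 4395899027456) (.askF (.p .e) (nat_lit 26388279066624) (.askT (.p (.p (.s .e))) (nat_lit 4233764012032) (.cnd (.askT .e (nat_lit 4395899027456) (.askT (.n (.s .e)) (nat_lit 3770981285888) (.askT (.p (.s .e)) (nat_lit 3770981285888) (.ret (nat_lit 1)) (.ret (nat_lit 0))) (.ret (nat_lit 0))) (.ret (nat_lit 0))) (.p (.s .e)) (.askT (.s .e) (nat_lit 4388382834688) (.ret (nat_lit 1)) (.ret (nat_lit 0))) (.ret (nat_lit 0))) (.ret (nat_lit 0))) (.ret (nat_lit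 0))) (.ret (nat_lit 0))) (.ret (nat_lit 0))) (.ret (nat_lit 0))) (.ret (nat_lit 0))) (.ret (nat_lit 0)))
def pt198 : Prog := (.askT .e (nat_lit 4379792900096) (.askF .e (nat_lit 26388279066624) (.askF (.n .e) (nat_lit 26388279066624) (.cnd (.askF .e (nat_lit 26388279066624) (.askT (.s .e) (nat_lit 4233764012032) (.askF (.s .e) (nat_lit 26388279066624) (.ret (nat_lit 1)) (.ret (nat_lit 0))) (.ret (nat_lit 0))) (.ret (nat_lit 0))) (.n (.n .e)) (.askT (.n (.s .e)) (nat_lit 4395899027456) (.askF (.p .e) (nat_lit 21990232555520) (.askT (.p (.p (.s .e))) (nat_lit 3770981285888) (.askT (.p (.p (.s (.n (.s .e))))) (nat_lit 3770981285888) (.cnd (.askT .e (nat_lit 3770981285888) (.askT (.n (.s .e)) (nat_lit 3770981285888) (.askT (.n (.s (.n (.s .e)))) (nat_lit 3770981285888) (.ret (nat_lit 1)) (.ret (nat_lit 0))) (.ret (nat_lit 0))) (.ret (nat_lit 0))) (.p (.s .e)) (.askT (.s .e) (nat_lit 4388382834688) (.askT (.s (.n (.s .e))) (nat_lit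 3770981285888) (.ret (nat_lit 1)) (.ret (nat_lit 0))) (.ret (nat_lit 0))) (.ret (nat_lit 0))) (.ret (nat_lit 0))) (.ret (nat_lit 0))) (.ret (nat_lit 0))) (.ret (nat_lit 0))) (.ret (nat_lit 0))) (.ret (nat_lit 0))) (.ret (nat_lit 0))) (.ret (nat_lit 0)))
def pt199 : Prog := (.askT .e (nat_lit 4379792900096) (.askF (.n .e) (nat_lit 26388279066624) (.cnd (.askT (.s .e) (nat_lit 4395899027456) (.askF (.s .e) (nat_lit 21990232555520) (.askT (.s (.p (.s .e))) (nat_lit 4395899027456) (.askF (.s (.p (.s (.n (.s .e))))) (nat_lit 4398046511104) (.ret (nat_lit 1)) (.ret (nat_lit 0))) (.ret (nat_lit 0))) (.ret (nat_lit 0))) (.ret (nat_lit 0))) (.n (.n .e)) (.askT (.p (.p (.s .e))) (nat_lit 4395899027456) (.askT (.p (.p (.s (.n (.s .e))))) (nat_lit 4395899027456) (.askT (.s .e) (nat_lit 4395899027456) (.askT (.s (.n (.s .e))) (nat_lit 625991483392) (.askT (.s (.p (.s .e))) (nat_lit 4388382834688) (.ret (nat_lit 1)) (.ret (nat_lit 0)))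 (.ret (nat_lit 0))) (.ret (nat_lit 0))) (.ret (nat_lit 0))) (.ret (nat_lit 0))) (.ret (nat_lit 0))) (.ret (nat_lit 0))) (.ret (nat_lit 0)))
def pt200 : Prog := (.askT .e (nat_lit 4395899027456) (.askF .e (nat_lit 4398046511104) (.askF (.n .e) (nat_lit 4398046511104) (.askT (.s .e) (nat_lit 4395899027456) (.askT (.s (.n (.s .e))) (nat_lit 4395899027456) (.askF (.s (.n (.s .e))) (nat_lit 21990232555520) (.mv (.s (.p .e)) (.askT (.s .e) (nat_lit 4395899027456) (.askT (.s (.n (.s .e))) (nat_lit 4395899027456) (.askF (.s (.n (.s .e))) (nat_lit 21990232555520) (.askT (.s (.p (.s .e))) (nat_lit 4395899027456) (.ret (nat_lit 1)) (.ret (nat_lit 0))) (.ret (nat_lit 0))) (.ret (nat_lit 0))) (.ret (nat_lit 0)))) (.ret (nat_lit 0))) (.ret (nat_lit 0))) (.ret (nat_lit 0))) (.ret (nat_lit 0))) (.ret (nat_lit 0))) (.ret (nat_lit 0)))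
def pp201_0 : Prog := (.askT (.s (.n (.s .e))) (nat_lit 3770981285888) (.ret (nat_lit 1)) (.ret (nat_lit 0)))
def pt201 : Prog := (.askT .e (nat_lit 4379792900096) (.askF .e (nat_lit 26388279066624) (.askF (.n .e) (nat_lit 21990232555520) (.cnd (.askF .e (nat_lit 26388279066624) (.askT (.s .e) (nat_lit 4233764012032) (.askF (.s .e) (nat_lit 8796093022208) pp201_0 (.ret (nat_lit 0))) (.ret (nat_lit 0))) (.ret (nat_lit 0))) (.n (.n .e)) (.cnd (.askT .e (nat_lit 4395899027456) (.askT (.n (.s .e)) (nat_lit 3770981285888) (.askT (.n (.s (.n (.s .e)))) (nat_lit 3770981285888) (.ret (nat_lit 1)) (.ret (nat_lit 0))) (.ret (nat_lit 0))) (.ret (nat_lit 0))) (.n (.s .e)) (.askF (.p .e) (nat_lit 26388279066624) (.cnd (.askT (.s .e) (nat_lit 4394825285632) (.askT (.s (.p (.s .e))) (nat_lit 4395899027456) (.askT (.s (.p (.s (.p (.s .e))))) (nat_lit 4233764012032) (.ret (nat_lit 1)) (.ret (nat_lit 0))) (.ret (nat_lit 0))) (.ret (nat_lit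 0))) (.p (.p .e)) (.askT (.s .e) (nat_lit 4395899027456) pp201_0 (.ret (nat_lit 0))) (.ret (nat_lit 0))) (.ret (nat_lit 0))) (.ret (nat_lit 0))) (.ret (nat_lit 0))) (.ret (nat_lit 0))) (.ret (nat_lit 0))) (.ret (nat_lit 0)))
def pt202 : Prog := (.askT .e (nat_lit 4379792900096) (.askF .e (nat_lit 26388279066624) (.cnd (.askF .e (nat_lit 21990232555520) (.askT (.s .e) (nat_lit 4395899027456) (.askT (.s (.n (.s .e))) (nat_lit 4395899027456) (.askF (.s (.n (.s (.p .e)))) (nat_lit 4398046511104) (.ret (nat_lit 1)) (.ret (nat_lit 0))) (.ret (nat_lit 0))) (.ret (nat_lit 0))) (.ret (nat_lit 0))) (.n (.n .e)) (.askT (.n (.s .e)) (nat_lit 4395899027456) (.askT (.n (.s (.p (.s .e)))) (nat_lit 4395899027456) (.askF (.p .e) (nat_lit 26388279066624) (.askT (.p (.p (.s .e))) (nat_lit 4233764012032) (.askT (.p (.s .e)) (nat_lit 4394825285632) (.askT (.p (.s (.n (.s .e)))) (nat_lit 3770981285888) (.askT (.s .e) (nat_lit 4388382834688) (.askT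 (.s (.n (.s .e))) (nat_lit 4395899027456) (.ret (nat_lit 1)) (.ret (nat_lit 0))) (.ret (nat_lit 0))) (.ret (nat_lit 0))) (.ret (nat_lit 0))) (.ret (nat_lit 0))) (.ret (nat_lit 0))) (.ret (nat_lit 0))) (.ret (nat_lit 0))) (.ret (nat_lit 0))) (.ret (nat_lit 0))) (.ret (nat_lit 0)))
def pt203 : Prog := (.askT .e (nat_lit 4379792900096) (.askF .e (nat_lit 26388279066624) (.askF (.n .e) (nat_lit 21990232555520) (.askF (.n (.n .e)) (nat_lit 8796093022208) (.askT (.n (.n (.s .e))) (nat_lit 625991483392) (.cnd (.askT .e (nat_lit 4395899027456) (.askT (.n (.s .e)) (nat_lit 4395899027456) (.askT (.p (.s .e)) (nat_lit 625991483392) (.ret (nat_lit 1)) (.ret (nat_lit 0))) (.ret (nat_lit 0))) (.ret (nat_lit 0))) (.n (.s .e)) (.askF (.p .e) (nat_lit 26388279066624) (.askT (.p (.p (.s .e))) (nat_lit 4395899027456) (.askT (.p (.s .e)) (nat_lit 4362613030912) (.askT (.p (.s (.n (.s .e)))) (nat_lit 4362613030912) (.askT (.s .e) (nat_lit 4395899027456)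 (.askT (.s (.p (.s .e))) (nat_lit 4395899027456) (.ret (nat_lit 1)) (.ret (nat_lit 0))) (.ret (nat_lit 0))) (.ret (nat_lit 0))) (.ret (nat_lit 0))) (.ret (nat_lit 0))) (.ret (nat_lit 0))) (.ret (nat_lit 0))) (.ret (nat_lit 0))) (.ret (nat_lit 0))) (.ret (nat_lit 0))) (.ret (nat_lit 0))) (.ret (nat_lit 0)))
def pt206 : Prog := (.askT .e (nat_lit 4379792900096) (.askF .e (nat_lit 26388279066624) (.cnd (.askF .e (nat_lit 21990232555520) (.askT (.s .e) (nat_lit 4395899027456) (.askT (.s (.n (.s .e))) (nat_lit 4395899027456) (.askF (.s (.n (.s (.p .e)))) (nat_lit 4398046511104) (.ret (nat_lit 1)) (.ret (nat_lit 0))) (.ret (nat_lit 0))) (.ret (nat_lit 0))) (.ret (nat_lit 0))) (.n (.n .e)) (.askT (.n (.s .e)) (nat_lit 4395899027456) (.askT (.n (.s (.p (.s .e)))) (nat_lit 4395899027456) (.askF (.p .e) (nat_lit 26388279066624) (.askT (.p (.p (.s .e))) (nat_lit 4388382834688) (.askT (.p (.p (.s (.p (.s .e))))) (nat_lit 3770981285888)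 (.askT (.p (.s .e)) (nat_lit 4395899027456) (.askT (.p (.s (.p (.s .e)))) (nat_lit 3770981285888) (.askT (.s .e) (nat_lit 4362613030912) (.ret (nat_lit 1)) (.ret (nat_lit 0))) (.ret (nat_lit 0))) (.ret (nat_lit 0))) (.ret (nat_lit 0))) (.ret (nat_lit 0))) (.ret (nat_lit 0))) (.ret (nat_lit 0))) (.ret (nat_lit 0))) (.ret (nat_lit 0))) (.ret (nat_lit 0))) (.ret (nat_lit 0)))
def pt207 : Prog := (.askT .e (nat_lit 4379792900096) (.askF .e (nat_lit 26388279066624) (.askF (.n .e) (nat_lit 26388279066624) (.cnd (.askT (.s .e) (nat_lit 4395899027456) (.askF (.s .e) (nat_lit 21990232555520) (.askT (.s (.p (.s .e))) (nat_lit 4395899027456) (.askF (.s (.p (.s (.n (.s .e))))) (nat_lit 4398046511104) (.ret (nat_lit 1)) (.ret (nat_lit 0))) (.ret (nat_lit 0))) (.ret (nat_lit 0))) (.ret (nat_lit 0))) (.n (.n .e)) (.askT (.n (.s .e)) (nat_lit 4233764012032) (.askT (.n (.s (.n (.s .e)))) (nat_lit 3770981285888) (.askT (.p (.p (.s .e))) (nat_lit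 4395899027456) (.askT (.p (.p (.s (.n (.s .e))))) (nat_lit 4395899027456) (.askT (.p (.s .e)) (nat_lit 4233764012032) (.askT (.s .e) (nat_lit 4395899027456) (.askT (.s (.n (.s .e))) (nat_lit 3770981285888) (.ret (nat_lit 1)) (.ret (nat_lit 0))) (.ret (nat_lit 0))) (.ret (nat_lit 0))) (.ret (nat_lit 0))) (.ret (nat_lit 0))) (.ret (nat_lit 0))) (.ret (nat_lit 0))) (.ret (nat_lit 0))) (.ret (nat_lit 0))) (.ret (nat_lit 0))) (.ret (nat_lit 0)))
def pt208 : Prog := (.askT .e (nat_lit 4379792900096) (.askF .e (nat_lit 26388279066624) (.askF (.n .e) (nat_lit 26388279066624) (.cnd (.askF .e (nat_lit 26388279066624) (.askT (.s .e) (nat_lit 4395899027456) (.askF (.s .e) (nat_lit 21990232555520) (.askT (.s (.p (.s .e))) (nat_lit 4395899027456) (.askF (.s (.p (.s (.n (.s .e))))) (nat_lit 4398046511104) (.ret (nat_lit 1)) (.ret (nat_lit 0))) (.ret (nat_lit 0))) (.ret (nat_lit 0))) (.ret (nat_lit 0))) (.ret (nat_lit 0))) (.n (.n .e)) (.askT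 (.n (.s .e)) (nat_lit 4388382834688) (.askT (.p (.p (.s .e))) (nat_lit 4395899027456) (.askT (.p (.p (.s (.n (.s .e))))) (nat_lit 4395899027456) (.askT (.s .e) (nat_lit 4395899027456) (.askT (.s (.n (.s .e))) (nat_lit 3770981285888) (.ret (nat_lit 1)) (.ret (nat_lit 0))) (.ret (nat_lit 0))) (.ret (nat_lit 0))) (.ret (nat_lit 0))) (.ret (nat_lit 0))) (.ret (nat_lit 0))) (.ret (nat_lit 0))) (.ret (nat_lit 0))) (.ret (nat_lit 0)))
def pt209 : Prog := (.askT .e (nat_lit 4379792900096) (.askF (.n .e) (nat_lit 26388279066624) (.cnd (.askF .e (nat_lit 26388279066624) (.askT (.s .e) (nat_lit 4362613030912) (.askF (.s .e) (nat_lit 26388279066624) (.ret (nat_lit 1)) (.ret (nat_lit 0))) (.ret (nat_lit 0))) (.ret (nat_lit 0))) (.n (.n .e)) (.askT (.n (.s .e)) (nat_lit 4395899027456) (.askT (.n (.s (.n (.s .e)))) (nat_lit 3770981285888) (.askF (.p .e) (nat_lit 21990232555520) (.cnd (.askT (.s .e) (nat_lit 4395899027456) (.askT (.s (.p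 (.s .e))) (nat_lit 4395899027456) (.askF (.s (.p (.s (.n (.s .e))))) (nat_lit 4398046511104) (.ret (nat_lit 1)) (.ret (nat_lit 0))) (.ret (nat_lit 0))) (.ret (nat_lit 0))) (.p (.p .e)) (.askT (.p (.s .e)) (nat_lit 4395899027456) (.askT (.p (.s (.n (.s .e)))) (nat_lit 4395899027456) (.askT (.s .e) (nat_lit 4388382834688) (.ret (nat_lit 1)) (.ret (nat_lit 0))) (.ret (nat_lit 0))) (.ret (nat_lit 0))) (.ret (nat_lit 0))) (.ret (nat_lit 0))) (.ret (nat_lit 0))) (.ret (nat_lit 0))) (.ret (nat_lit 0))) (.ret (nat_lit 0))) (.ret (nat_lit 0)))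
def pt210 : Prog := (.askT .e (nat_lit 4379792900096) (.askF .e (nat_lit 26388279066624) (.askF (.n .e) (nat_lit 26388279066624) (.cnd (.askF .e (nat_lit 26388279066624) (.askT (.s .e) (nat_lit 4233764012032) (.askF (.s .e) (nat_lit 26388279066624) (.ret (nat_lit 1)) (.ret (nat_lit 0))) (.ret (nat_lit 0))) (.ret (nat_lit 0))) (.n (.n .e)) (.askT (.n (.s .e)) (nat_lit 4388382834688) (.askT (.n (.s (.p (.s .e)))) (nat_lit 4395899027456) (.askF (.p .e) (nat_lit 21990232555520) (.askT (.p (.p (.s .e))) (nat_lit 3770981285888) (.askT (.p (.p (.s (.n (.s .e))))) (nat_lit 3770981285888) (.cnd (.askT .e (nat_lit 3770981285888) (.askT (.n (.s .e)) (nat_lit 3770981285888) (.askT (.n (.s (.n (.s .e)))) (nat_lit 3770981285888) (.ret (nat_lit 1)) (.ret (nat_lit 0))) (.ret (nat_lit 0))) (.ret (nat_lit 0))) (.p (.s .e)) (.askT (.s .e) (nat_lit 4388382834688) (.askT (.s (.n (.s .e))) (nat_lit 3770981285888) (.ret (nat_lit 1)) (.ret (nat_lit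 0))) (.ret (nat_lit 0))) (.ret (nat_lit 0))) (.ret (nat_lit 0))) (.ret (nat_lit 0))) (.ret (nat_lit 0))) (.ret (nat_lit 0))) (.ret (nat_lit 0))) (.ret (nat_lit 0))) (.ret (nat_lit 0))) (.ret (nat_lit 0))) (.ret (nat_lit 0)))
def pp211_0 : Prog := (.askT (.s (.n (.s .e))) (nat_lit 3770981285888) (.ret (nat_lit 1)) (.ret (nat_lit 0)))
def pt211 : Prog := (.askT .e (nat_lit 4379792900096) (.askF .e (nat_lit 26388279066624) (.askF (.n .e) (nat_lit 26388279066624) (.cnd (.askF .e (nat_lit 26388279066624) (.askT (.s .e) (nat_lit 4233764012032) (.askF (.s .e) (nat_lit 26388279066624) pp211_0 (.ret (nat_lit 0))) (.ret (nat_lit 0))) (.ret (nat_lit 0))) (.n (.n .e)) (.cnd (.askT .e (nat_lit 4388382834688) (.askT (.n (.n (.s .e))) (nat_lit 625991483392) (.askT (.n (.s .e)) (nat_lit 3770981285888) (.ret (nat_lit 1)) (.ret (nat_lit 0))) (.ret (nat_lit 0))) (.ret (nat_lit 0))) (.n (.s .e)) (.askF (.p .e) (nat_lit 21990232555520) (.askT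 (.p (.p (.s .e))) (nat_lit 3770981285888) (.askT (.p (.p (.s (.n (.s .e))))) (nat_lit 3770981285888) (.cnd (.askT .e (nat_lit 3770981285888) (.askT (.n (.s .e)) (nat_lit 3770981285888) (.askT (.n (.s (.n (.s .e)))) (nat_lit 3770981285888) (.ret (nat_lit 1)) (.ret (nat_lit 0))) (.ret (nat_lit 0))) (.ret (nat_lit 0))) (.p (.s .e)) (.askT (.s .e) (nat_lit 4388382834688) pp211_0 (.ret (nat_lit 0))) (.ret (nat_lit 0))) (.ret (nat_lit 0))) (.ret (nat_lit 0))) (.ret (nat_lit 0))) (.ret (nat_lit 0))) (.ret (nat_lit 0))) (.ret (nat_lit 0))) (.ret (nat_lit 0))) (.ret (nat_lit 0)))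
def pt212 : Prog := (.askT .e (nat_lit 4379792900096) (.askF (.n .e) (nat_lit 26388279066624) (.cnd (.askF .e (nat_lit 26388279066624) (.askT (.s .e) (nat_lit 4233764012032) (.askF (.s .e) (nat_lit 26388279066624) (.ret (nat_lit 1)) (.ret (nat_lit 0))) (.ret (nat_lit 0))) (.ret (nat_lit 0))) (.n (.n .e)) (.askT (.n (.s .e)) (nat_lit 4395899027456) (.askF (.p .e) (nat_lit 21990232555520) (.cnd (.askT (.s .e) (nat_lit 4395899027456) (.askT (.s (.n (.s .e))) (nat_lit 3770981285888) (.askT (.s (.p (.s .e))) (nat_lit 3770981285888) (.ret (nat_lit 1)) (.ret (nat_lit 0))) (.ret (nat_lit 0))) (.ret (nat_lit 0))) (.p (.p .e)) (.askT (.p (.s .e)) (nat_lit 3770981285888) (.askT (.p (.s (.n (.s .e)))) (nat_lit 3770981285888) (.askT (.s .e) (nat_lit 4388382834688) (.askT (.s (.p (.s .e))) (nat_lit 4394825285632) (.ret (nat_lit 1)) (.ret (nat_lit 0))) (.ret (nat_lit 0))) (.ret (nat_lit 0))) (.ret (nat_lit 0))) (.ret (nat_lit 0))) (.ret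 (nat_lit 0))) (.ret (nat_lit 0))) (.ret (nat_lit 0))) (.ret (nat_lit 0))) (.ret (nat_lit 0)))
def pt214 : Prog := (.askT .e (nat_lit 4394825285632) (.askF (.n .e) (nat_lit 8796093022208) (.askT (.n (.n (.s .e))) (nat_lit 4395899027456) (.askF (.n (.n (.s .e))) (nat_lit 8796093022208) (.askT (.s .e) (nat_lit 4395899027456) (.ret (nat_lit 1)) (.ret (nat_lit 0))) (.ret (nat_lit 0))) (.ret (nat_lit 0))) (.ret (nat_lit 0))) (.ret (nat_lit 0)))
def pt215 : Prog := (.askT .e (nat_lit 4379792900096) (.askF .e (nat_lit 26388279066624) (.askF (.n (.n .e)) (nat_lit 26388279066624) (.askT (.n (.n (.s .e))) (nat_lit 4388382834688) (.askT (.n (.s .e)) (nat_lit 4395899027456) (.askT (.n (.s (.p (.s .e)))) (nat_lit 4362613030912) (.askF (.p .e) (nat_lit 8796093022208) (.askT (.p (.p (.s .e))) (nat_lit 4395899027456) (.askT (.p (.s .e)) (nat_lit 4233764012032) (.askT (.s .e) (nat_lit 4395899027456) (.askT (.s (.n (.s .e))) (nat_lit 3770981285888)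 (.ret (nat_lit 1)) (.ret (nat_lit 0))) (.ret (nat_lit 0))) (.ret (nat_lit 0))) (.ret (nat_lit 0))) (.ret (nat_lit 0))) (.ret (nat_lit 0))) (.ret (nat_lit 0))) (.ret (nat_lit 0))) (.ret (nat_lit 0))) (.ret (nat_lit 0))) (.ret (nat_lit 0)))
def pt216 : Prog := (.askT .e (nat_lit 4379792900096) (.askF (.n .e) (nat_lit 21990232555520) (.cnd (.askF .e (nat_lit 26388279066624) (.askT (.s .e) (nat_lit 4233764012032) (.askT (.s (.n (.s .e))) (nat_lit 3770981285888) (.ret (nat_lit 1)) (.ret (nat_lit 0))) (.ret (nat_lit 0))) (.ret (nat_lit 0))) (.n (.n .e)) (.cnd (.askT .e (nat_lit 4395899027456) (.askT (.n (.s .e)) (nat_lit 4395899027456) (.askF (.n (.s .e)) (nat_lit 4398046511104) (.ret (nat_lit 1)) (.ret (nat_lit 0))) (.ret (nat_lit 0))) (.ret (nat_lit 0))) (.n (.s .e)) (.askF (.p .e) (nat_lit 26388279066624) (.askT (.p (.p (.s .e))) (nat_lit 4395899027456) (.askT (.p (.p (.s (.p (.s .e))))) (nat_lit 3770981285888) (.askT (.p (.s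 .e)) (nat_lit 4233764012032) (.askT (.s .e) (nat_lit 4395899027456) (.askT (.s (.p (.s .e))) (nat_lit 4395899027456) (.ret (nat_lit 1)) (.ret (nat_lit 0))) (.ret (nat_lit 0))) (.ret (nat_lit 0))) (.ret (nat_lit 0))) (.ret (nat_lit 0))) (.ret (nat_lit 0))) (.ret (nat_lit 0))) (.ret (nat_lit 0))) (.ret (nat_lit 0))) (.ret (nat_lit 0)))
def pt217 : Prog := (.askT .e (nat_lit 4379792900096) (.askF .e (nat_lit 8796093022208) (.askF (.n (.n .e)) (nat_lit 26388279066624) (.askT (.n (.n (.s .e))) (nat_lit 4388382834688) (.askT (.n (.s .e)) (nat_lit 4395899027456) (.askT (.n (.s (.p (.s .e)))) (nat_lit 4362613030912) (.askF (.p .e) (nat_lit 26388279066624) (.askT (.p (.p (.s .e))) (nat_lit 4395899027456) (.askT (.p (.p (.s (.p (.s .e))))) (nat_lit 3770981285888) (.askT (.p (.s .e)) (nat_lit 4233764012032) (.askT (.s .e) (nat_lit 4395899027456) (.ret (nat_lit 1)) (.ret (nat_lit 0))) (.ret (nat_lit 0))) (.ret (nat_lit 0))) (.ret (nat_lit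 0))) (.ret (nat_lit 0))) (.ret (nat_lit 0))) (.ret (nat_lit 0))) (.ret (nat_lit 0))) (.ret (nat_lit 0))) (.ret (nat_lit 0))) (.ret (nat_lit 0)))
def pt218 : Prog := (.askT .e (nat_lit 4379792900096) (.askF .e (nat_lit 21990232555520) (.askF (.n .e) (nat_lit 26388279066624) (.cnd (.askF .e (nat_lit 26388279066624) (.askT (.s .e) (nat_lit 4395899027456) (.askF (.s .e) (nat_lit 21990232555520) (.askT (.s (.n (.s .e))) (nat_lit 3770981285888) (.askT (.s (.p (.s .e))) (nat_lit 3770981285888) (.ret (nat_lit 1)) (.ret (nat_lit 0))) (.ret (nat_lit 0))) (.ret (nat_lit 0))) (.ret (nat_lit 0))) (.ret (nat_lit 0))) (.n (.n .e)) (.askT (.n (.s .e)) (nat_lit 4388382834688) (.askT (.n (.s (.n (.s .e)))) (nat_lit 3770981285888) (.askF (.p .e) (nat_lit 21990232555520) (.cnd (.askT (.s .e) (nat_lit 4395899027456) (.askT (.s (.n (.s .e))) (nat_lit 3770981285888) (.askT (.s (.p (.s .e))) (nat_lit 4395899027456) (.ret (nat_lit 1)) (.ret (nat_lit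 0))) (.ret (nat_lit 0))) (.ret (nat_lit 0))) (.p (.p .e)) (.askT (.p (.s .e)) (nat_lit 4395899027456) (.askT (.p (.s (.p (.s .e)))) (nat_lit 3770981285888) (.askT (.s .e) (nat_lit 4395899027456) (.askT (.s (.n (.s .e))) (nat_lit 3770981285888) (.ret (nat_lit 1)) (.ret (nat_lit 0))) (.ret (nat_lit 0))) (.ret (nat_lit 0))) (.ret (nat_lit 0))) (.ret (nat_lit 0))) (.ret (nat_lit 0))) (.ret (nat_lit 0))) (.ret (nat_lit 0))) (.ret (nat_lit 0))) (.ret (nat_lit 0))) (.ret (nat_lit 0))) (.ret (nat_lit 0)))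
def pt220 : Prog := (.askT .e (nat_lit 4379792900096) (.askF .e (nat_lit 21990232555520) (.askF (.n .e) (nat_lit 26388279066624) (.askF (.n (.n (.s .e))) (nat_lit 21990232555520) (.askT (.n (.s .e)) (nat_lit 4388382834688) (.askT (.n (.s (.n (.s .e)))) (nat_lit 3770981285888) (.askF (.p .e) (nat_lit 21990232555520) (.cnd (.askT (.s .e) (nat_lit 4395899027456) (.askT (.s (.n (.s .e))) (nat_lit 3770981285888) (.askT (.s (.n (.s (.n (.s .e))))) (nat_lit 3770981285888) (.askT (.s (.p (.s .e))) (nat_lit 4395899027456) (.ret (nat_lit 1)) (.ret (nat_lit 0))) (.ret (nat_lit 0))) (.ret (nat_lit 0))) (.ret (nat_lit 0))) (.p (.p .e)) (.askT (.p (.s .e)) (nat_lit 4395899027456) (.askT (.p (.s (.p (.s .e)))) (nat_lit 4395899027456) (.askT (.s .e) (nat_lit 4395899027456) (.askT (.s (.n (.s .e))) (nat_lit 4395899027456) (.ret (nat_lit 1)) (.ret (nat_lit 0))) (.ret (nat_lit 0))) (.ret (nat_lit 0))) (.ret (nat_lit 0))) (.ret (nat_lit 0)))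 (.ret (nat_lit 0))) (.ret (nat_lit 0))) (.ret (nat_lit 0))) (.ret (nat_lit 0))) (.ret (nat_lit 0))) (.ret (nat_lit 0))) (.ret (nat_lit 0)))
def pt221 : Prog := (.askT .e (nat_lit 4379792900096) (.askF .e (nat_lit 21990232555520) (.askF (.n .e) (nat_lit 26388279066624) (.cnd (.askF .e (nat_lit 26388279066624) (.askT (.s .e) (nat_lit 3770981285888) (.askF (.s .e) (nat_lit 21990232555520) (.askT (.s (.n (.s .e))) (nat_lit 3770981285888) (.ret (nat_lit 1)) (.ret (nat_lit 0))) (.ret (nat_lit 0))) (.ret (nat_lit 0))) (.ret (nat_lit 0))) (.n (.n .e)) (.askT (.n (.s .e)) (nat_lit 4388382834688) (.askF (.p .e) (nat_lit 21990232555520) (.cnd (.askT (.s .e) (nat_lit 4395899027456) (.askT (.s (.n (.s .e))) (nat_lit 3770981285888) (.askT (.s (.n (.s (.n (.s .e))))) (nat_lit 3770981285888) (.askT (.s (.p (.s .e))) (nat_lit 4395899027456) (.ret (nat_lit 1)) (.ret (nat_lit 0))) (.ret (nat_lit 0))) (.ret (nat_lit 0))) (.ret (nat_lit 0))) (.p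 (.p .e)) (.askT (.p (.s .e)) (nat_lit 4395899027456) (.askT (.p (.s (.p (.s .e)))) (nat_lit 4395899027456) (.askT (.s .e) (nat_lit 4395899027456) (.askT (.s (.n (.s .e))) (nat_lit 4395899027456) (.ret (nat_lit 1)) (.ret (nat_lit 0))) (.ret (nat_lit 0))) (.ret (nat_lit 0))) (.ret (nat_lit 0))) (.ret (nat_lit 0))) (.ret (nat_lit 0))) (.ret (nat_lit 0))) (.ret (nat_lit 0))) (.ret (nat_lit 0))) (.ret (nat_lit 0))) (.ret (nat_lit 0)))
def pt222 : Prog := (.askT .e (nat_lit 4379792900096) (.askF .e (nat_lit 8796093022208) (.askF (.n .e) (nat_lit 26388279066624) (.cnd (.askF .e (nat_lit 26388279066624) (.askT (.s .e) (nat_lit 4395899027456) (.askF (.s .e) (nat_lit 21990232555520) (.askT (.s (.p (.s .e))) (nat_lit 4395899027456) (.askF (.s (.p (.s (.n (.s .e))))) (nat_lit 4398046511104) (.ret (nat_lit 1)) (.ret (nat_lit 0))) (.ret (nat_lit 0))) (.ret (nat_lit 0))) (.ret (nat_lit 0))) (.ret (nat_lit 0))) (.n (.n .e)) (.askT (.n (.s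 .e)) (nat_lit 4388382834688) (.askF (.p .e) (nat_lit 26388279066624) (.cnd (.askT (.s .e) (nat_lit 4395899027456) (.askT (.s (.n (.s .e))) (nat_lit 4395899027456) (.askT (.s (.p (.s .e))) (nat_lit 3770981285888) (.ret (nat_lit 1)) (.ret (nat_lit 0))) (.ret (nat_lit 0))) (.ret (nat_lit 0))) (.p (.p .e)) (.askT (.p (.s .e)) (nat_lit 4233764012032) (.askT (.s .e) (nat_lit 4395899027456) (.ret (nat_lit 1)) (.ret (nat_lit 0))) (.ret (nat_lit 0))) (.ret (nat_lit 0))) (.ret (nat_lit 0))) (.ret (nat_lit 0))) (.ret (nat_lit 0))) (.ret (nat_lit 0))) (.ret (nat_lit 0))) (.ret (nat_lit 0)))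
def pt223 : Prog := (.askT .e (nat_lit 4379792900096) (.askF .e (nat_lit 26388279066624) (.askF (.n .e) (nat_lit 26388279066624) (.cnd (.askF .e (nat_lit 26388279066624) (.askT (.s .e) (nat_lit 4395899027456) (.askF (.s .e) (nat_lit 21990232555520) (.askT (.s (.p (.s .e))) (nat_lit 4395899027456) (.askF (.s (.p (.s (.n (.s .e))))) (nat_lit 4398046511104) (.ret (nat_lit 1)) (.ret (nat_lit 0))) (.ret (nat_lit 0))) (.ret (nat_lit 0))) (.ret (nat_lit 0))) (.ret (nat_lit 0))) (.n (.n .e)) (.askT (.n (.s .e)) (nat_lit 4362613030912) (.askF (.p .e) (nat_lit 26388279066624) (.askT (.p (.p (.s .e))) (nat_lit 4395899027456) (.askT (.p (.p (.s (.n (.s .e))))) (nat_lit 4395899027456) (.askT (.p (.s .e)) (nat_lit 4388382834688) (.askT (.s .e) (nat_lit 4395899027456) (.ret (nat_lit 1)) (.ret (nat_lit 0))) (.ret (nat_lit 0))) (.ret (nat_lit 0))) (.ret (nat_lit 0))) (.ret (nat_lit 0))) (.ret (nat_lit 0))) (.ret (nat_lit 0))) (.ret (nat_lit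 0))) (.ret (nat_lit 0))) (.ret (nat_lit 0)))
def pt224 : Prog := (.askT .e (nat_lit 4379792900096) (.askF .e (nat_lit 26388279066624) (.askF (.n .e) (nat_lit 8796093022208) (.cnd (.askF .e (nat_lit 26388279066624) (.askT (.s .e) (nat_lit 4395899027456) (.askF (.s .e) (nat_lit 21990232555520) (.askT (.s (.n (.s .e))) (nat_lit 3770981285888) (.askT (.s (.n (.s (.n (.s .e))))) (nat_lit 4233764012032) (.askT (.s (.p (.s .e))) (nat_lit 3770981285888) (.ret (nat_lit 1)) (.ret (nat_lit 0))) (.ret (nat_lit 0))) (.ret (nat_lit 0))) (.ret (nat_lit 0))) (.ret (nat_lit 0))) (.ret (nat_lit 0))) (.n (.n .e)) (.askF (.p .e) (nat_lit 26388279066624) (.askT (.p (.p (.s .e))) (nat_lit 4395899027456) (.askT (.p (.p (.s (.n (.s .e))))) (nat_lit 3770981285888) (.askT (.p (.s .e)) (nat_lit 4388382834688) (.askT (.s .e) (nat_lit 4394825285632) (.askT (.s (.n (.s .e))) (nat_lit 4395899027456) (.ret (nat_lit 1)) (.ret (nat_lit 0))) (.ret (nat_lit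 0))) (.ret (nat_lit 0))) (.ret (nat_lit 0))) (.ret (nat_lit 0))) (.ret (nat_lit 0))) (.ret (nat_lit 0))) (.ret (nat_lit 0))) (.ret (nat_lit 0))) (.ret (nat_lit 0)))
def pt225 : Prog := (.askT .e (nat_lit 4379792900096) (.askF .e (nat_lit 26388279066624) (.askF (.n .e) (nat_lit 26388279066624) (.cnd (.askF .e (nat_lit 26388279066624) (.askT (.s .e) (nat_lit 4395899027456) (.askF (.s .e) (nat_lit 26388279066624) (.askT (.s (.n (.s .e))) (nat_lit 625991483392) (.ret (nat_lit 1)) (.ret (nat_lit 0))) (.ret (nat_lit 0))) (.ret (nat_lit 0))) (.ret (nat_lit 0))) (.n (.n .e)) (.askT (.n (.s .e)) (nat_lit 4388382834688) (.askT (.p (.p (.s .e))) (nat_lit 4388382834688) (.askT (.p (.s .e)) (nat_lit 4233764012032) (.askT (.s .e) (nat_lit 4395899027456) (.askT (.s (.n (.s .e))) (nat_lit 3770981285888) (.askT (.s (.p (.s .e))) (nat_lit 4394825285632) (.ret (nat_lit 1)) (.ret (nat_lit 0))) (.ret (nat_lit 0))) (.ret (nat_lit 0))) (.ret (nat_lit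 0))) (.ret (nat_lit 0))) (.ret (nat_lit 0))) (.ret (nat_lit 0))) (.ret (nat_lit 0))) (.ret (nat_lit 0))) (.ret (nat_lit 0)))
def pt226 : Prog := (.askT .e (nat_lit 4379792900096) (.askF .e (nat_lit 26388279066624) (.askF (.n .e) (nat_lit 26388279066624) (.cnd (.askF .e (nat_lit 26388279066624) (.askT (.s .e) (nat_lit 4395899027456) (.askF (.s .e) (nat_lit 26388279066624) (.askT (.s (.n (.s .e))) (nat_lit 625991483392) (.ret (nat_lit 1)) (.ret (nat_lit 0))) (.ret (nat_lit 0))) (.ret (nat_lit 0))) (.ret (nat_lit 0))) (.n (.n .e)) (.askT (.n (.s .e)) (nat_lit 4388382834688) (.askT (.p (.p (.s .e))) (nat_lit 4362613030912) (.askT (.p (.s .e)) (nat_lit 4233764012032) (.askT (.s .e) (nat_lit 4395899027456) (.askT (.s (.n (.s .e))) (nat_lit 3770981285888) (.askT (.s (.p (.s .e))) (nat_lit 4394825285632) (.ret (nat_lit 1)) (.ret (nat_lit 0))) (.ret (nat_lit 0))) (.ret (nat_lit 0))) (.ret (nat_lit 0))) (.ret (nat_lit 0))) (.ret (nat_lit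 0))) (.ret (nat_lit 0))) (.ret (nat_lit 0))) (.ret (nat_lit 0))) (.ret (nat_lit 0)))
def pt227 : Prog := (.askT .e (nat_lit 4379792900096) (.askF .e (nat_lit 26388279066624) (.askF (.n .e) (nat_lit 26388279066624) (.cnd (.askF .e (nat_lit 26388279066624) (.askT (.s .e) (nat_lit 3770981285888) (.askF (.s .e) (nat_lit 26388279066624) (.askT (.s (.n (.s .e))) (nat_lit 3770981285888) (.ret (nat_lit 1)) (.ret (nat_lit 0))) (.ret (nat_lit 0))) (.ret (nat_lit 0))) (.ret (nat_lit 0))) (.n (.n .e)) (.askT (.n (.s .e)) (nat_lit 4388382834688) (.askT (.p (.p (.s .e))) (nat_lit 4233764012032) (.askT (.p (.p (.s (.n (.s .e))))) (nat_lit 3770981285888) (.askT (.p (.s .e)) (nat_lit 4233764012032) (.askT (.s .e) (nat_lit 4395899027456) (.askT (.s (.n (.s .e))) (nat_lit 3770981285888) (.askT (.s (.p (.s .e))) (nat_lit 4362613030912) (.ret (nat_lit 1)) (.ret (nat_lit 0))) (.ret (nat_lit 0))) (.ret (nat_lit 0))) (.ret (nat_lit 0))) (.ret (nat_lit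 0))) (.ret (nat_lit 0))) (.ret (nat_lit 0))) (.ret (nat_lit 0))) (.ret (nat_lit 0))) (.ret (nat_lit 0))) (.ret (nat_lit 0)))
def pt228 : Prog := (.askT .e (nat_lit 4379792900096) (.askF (.n .e) (nat_lit 26388279066624) (.cnd (.askF .e (nat_lit 26388279066624) (.askT (.s .e) (nat_lit 4395899027456) (.askT (.s (.n (.s .e))) (nat_lit 625991483392) (.ret (nat_lit 1)) (.ret (nat_lit 0))) (.ret (nat_lit 0))) (.ret (nat_lit 0))) (.n (.n .e)) (.askT (.n (.s .e)) (nat_lit 4388382834688) (.askT (.p (.p (.s .e))) (nat_lit 625991483392) (.askT (.p (.s .e)) (nat_lit 625991483392) (.askT (.s .e) (nat_lit 4395899027456) (.askT (.s (.p (.s .e))) (nat_lit 4362613030912) (.ret (nat_lit 1)) (.ret (nat_lit 0))) (.ret (nat_lit 0))) (.ret (nat_lit 0))) (.ret (nat_lit 0))) (.ret (nat_lit 0))) (.ret (nat_lit 0))) (.ret (nat_lit 0))) (.ret (nat_lit 0)))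
def pt229 : Prog := (.askT .e (nat_lit 4379792900096) (.askF .e (nat_lit 26388279066624) (.askF (.n .e) (nat_lit 26388279066624) (.cnd (.askF .e (nat_lit 26388279066624) (.askT (.s .e) (nat_lit 3770981285888) (.askF (.s .e) (nat_lit 26388279066624) (.askT (.s (.n (.s .e))) (nat_lit 3770981285888) (.ret (nat_lit 1)) (.ret (nat_lit 0))) (.ret (nat_lit 0))) (.ret (nat_lit 0))) (.ret (nat_lit 0))) (.n (.n .e)) (.askT (.n (.s .e)) (nat_lit 4362613030912) (.askT (.p (.p (.s (.n (.s .e))))) (nat_lit 3770981285888) (.askT (.p (.s .e)) (nat_lit 4388382834688) (.askT (.s .e) (nat_lit 4395899027456) (.askT (.s (.n (.s .e))) (nat_lit 4394825285632) (.askT (.s (.p (.s .e))) (nat_lit 4388382834688) (.ret (nat_lit 1)) (.ret (nat_lit 0))) (.ret (nat_lit 0))) (.ret (nat_lit 0))) (.ret (nat_lit 0))) (.ret (nat_lit 0))) (.ret (nat_lit 0))) (.ret (nat_lit 0))) (.ret (nat_lit 0))) (.ret (nat_lit 0))) (.ret (nat_lit 0)))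
def pt230 : Prog := (.askT .e (nat_lit 4379792900096) (.askF (.n .e) (nat_lit 26388279066624) (.cnd (.askF .e (nat_lit 26388279066624) (.askT (.s .e) (nat_lit 4395899027456) (.askT (.s (.n (.s .e))) (nat_lit 625991483392) (.ret (nat_lit 1)) (.ret (nat_lit 0))) (.ret (nat_lit 0))) (.ret (nat_lit 0))) (.n (.n .e)) (.askT (.n (.s .e)) (nat_lit 4362613030912) (.askT (.p (.p (.s .e))) (nat_lit 625991483392) (.askT (.p (.s .e)) (nat_lit 625991483392) (.askT (.s .e) (nat_lit 4395899027456) (.askT (.s (.p (.s .e))) (nat_lit 4388382834688) (.ret (nat_lit 1)) (.ret (nat_lit 0))) (.ret (nat_lit 0))) (.ret (nat_lit 0))) (.ret (nat_lit 0))) (.ret (nat_lit 0))) (.ret (nat_lit 0))) (.ret (nat_lit 0))) (.ret (nat_lit 0)))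
def pt232 : Prog := (.askT .e (nat_lit 4379792900096) (.askF (.n .e) (nat_lit 26388279066624) (.cnd (.askF .e (nat_lit 26388279066624) (.askT (.s .e) (nat_lit 4395899027456) (.askT (.s (.n (.s .e))) (nat_lit 625991483392) (.ret (nat_lit 1)) (.ret (nat_lit 0))) (.ret (nat_lit 0))) (.ret (nat_lit 0))) (.n (.n .e)) (.askT (.n (.s .e)) (nat_lit 4362613030912) (.askT (.p (.p (.s .e))) (nat_lit 625991483392) (.askT (.p (.s .e)) (nat_lit 625991483392) (.askT (.s .e) (nat_lit 4395899027456) (.askT (.s (.p (.s .e))) (nat_lit 4362613030912) (.ret (nat_lit 1)) (.ret (nat_lit 0))) (.ret (nat_lit 0))) (.ret (nat_lit 0))) (.ret (nat_lit 0))) (.ret (nat_lit 0))) (.ret (nat_lit 0))) (.ret (nat_lit 0))) (.ret (nat_lit 0)))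
def pt235 : Prog := (.askT .e (nat_lit 4379792900096) (.askF .e (nat_lit 26388279066624) (.cnd (.askF .e (nat_lit 26388279066624) (.askT (.s .e) (nat_lit 4395899027456) (.askT (.s (.n (.s .e))) (nat_lit 3770981285888) (.askT (.s (.n (.s (.n (.s .e))))) (nat_lit 4233764012032) (.ret (nat_lit 1)) (.ret (nat_lit 0))) (.ret (nat_lit 0))) (.ret (nat_lit 0))) (.ret (nat_lit 0))) (.n (.n .e)) (.askF (.p .e) (nat_lit 26388279066624) (.askT (.p (.p (.s .e))) (nat_lit 4233764012032) (.askT (.p (.s .e)) (nat_lit 4395899027456) (.askT (.p (.s (.n (.s .e)))) (nat_lit 3770981285888) (.askT (.s .e) (nat_lit 4362613030912) (.askT (.s (.n (.s .e))) (nat_lit 4388382834688) (.ret (nat_lit 1)) (.ret (nat_lit 0))) (.ret (nat_lit 0))) (.ret (nat_lit 0))) (.ret (nat_lit 0))) (.ret (nat_lit 0))) (.ret (nat_lit 0))) (.ret (nat_lit 0))) (.ret (nat_lit 0))) (.ret (nat_lit 0)))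
def pt236 : Prog := (.askT .e (nat_lit 4379792900096) (.askF .e (nat_lit 26388279066624) (.askF (.n .e) (nat_lit 26388279066624) (.cnd (.askF .e (nat_lit 26388279066624) (.askT (.s .e) (nat_lit 4395899027456) (.askF (.s .e) (nat_lit 8796093022208) (.ret (nat_lit 1)) (.ret (nat_lit 0))) (.ret (nat_lit 0))) (.ret (nat_lit 0))) (.n (.n .e)) (.askT (.n (.s .e)) (nat_lit 4379792900096) (.askF (.p .e) (nat_lit 26388279066624) (.askT (.p (.p (.s .e))) (nat_lit 4388382834688) (.askT (.p (.s .e)) (nat_lit 4395899027456) (.askT (.p (.s (.n (.s .e)))) (nat_lit 4394825285632) (.askT (.s .e) (nat_lit 4388382834688) (.askT (.s (.n (.s .e))) (nat_lit 4388382834688) (.askT (.s (.p (.s .e))) (nat_lit 4395899027456) (.ret (nat_lit 1)) (.ret (nat_lit 0))) (.ret (nat_lit 0))) (.ret (nat_lit 0))) (.ret (nat_lit 0))) (.ret (nat_lit 0))) (.ret (nat_lit 0))) (.ret (nat_lit 0))) (.ret (nat_lit 0))) (.ret (nat_lit 0))) (.ret (nat_lit 0))) (.ret (nat_lit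 0))) (.ret (nat_lit 0)))
def pt237 : Prog := (.askT .e (nat_lit 4379792900096) (.askF .e (nat_lit 26388279066624) (.askF (.n .e) (nat_lit 26388279066624) (.cnd (.askF .e (nat_lit 26388279066624) (.askT (.s .e) (nat_lit 4379792900096) (.askF (.s .e) (nat_lit 26388279066624) (.ret (nat_lit 1)) (.ret (nat_lit 0))) (.ret (nat_lit 0))) (.ret (nat_lit 0))) (.n (.n .e)) (.askT (.n (.s .e)) (nat_lit 4388382834688) (.askT (.n (.s (.p (.s .e)))) (nat_lit 4395899027456) (.askF (.p .e) (nat_lit 8796093022208) (.askT (.p (.p (.s .e))) (nat_lit 4395899027456) (.askT (.p (.s .e)) (nat_lit 4388382834688) (.askT (.s .e) (nat_lit 4395899027456) (.askT (.s (.n (.s .e))) (nat_lit 4394825285632) (.askT (.s (.p (.s .e))) (nat_lit 4362613030912) (.ret (nat_lit 1)) (.ret (nat_lit 0))) (.ret (nat_lit 0))) (.ret (nat_lit 0))) (.ret (nat_lit 0))) (.ret (nat_lit 0))) (.ret (nat_lit 0))) (.ret (nat_lit 0))) (.ret (nat_lit 0))) (.ret (nat_lit 0))) (.ret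 (nat_lit 0))) (.ret (nat_lit 0))) (.ret (nat_lit 0)))
def pt238 : Prog := (.askT .e (nat_lit 4379792900096) (.askF .e (nat_lit 26388279066624) (.askF (.n .e) (nat_lit 26388279066624) (.cnd (.askF .e (nat_lit 26388279066624) (.askT (.s .e) (nat_lit 4233764012032) (.askF (.s .e) (nat_lit 26388279066624) (.askT (.s (.n (.s .e))) (nat_lit 3770981285888) (.ret (nat_lit 1)) (.ret (nat_lit 0))) (.ret (nat_lit 0))) (.ret (nat_lit 0))) (.ret (nat_lit 0))) (.n (.n .e)) (.askT (.n (.s .e)) (nat_lit 4362613030912) (.askF (.p .e) (nat_lit 26388279066624) (.askT (.p (.p (.s .e))) (nat_lit 4395899027456) (.askT (.p (.p (.s (.n (.s .e))))) (nat_lit 3770981285888) (.askT (.p (.s .e)) (nat_lit 4388382834688) (.askT (.s .e) (nat_lit 4395899027456) (.askT (.s (.n (.s .e))) (nat_lit 4394825285632) (.ret (nat_lit 1)) (.ret (nat_lit 0))) (.ret (nat_lit 0))) (.ret (nat_lit 0))) (.ret (nat_lit 0))) (.ret (nat_lit 0))) (.ret (nat_lit 0))) (.ret (nat_lit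 0))) (.ret (nat_lit 0))) (.ret (nat_lit 0))) (.ret (nat_lit 0))) (.ret (nat_lit 0)))
def pp241_0 : Prog := (.askT (.p (.s .e)) (nat_lit 4395899027456) (.ret (nat_lit 1)) (.ret (nat_lit 0)))
def pt241 : Prog := (.askT .e (nat_lit 4392677801984) (.askF (.n .e) (nat_lit 26388279066624) (.cnd (.askF .e (nat_lit 21990232555520) (.askT (.s .e) (nat_lit 4395899027456) (.askT (.s (.n (.s .e))) (nat_lit 4395899027456) (.askF (.s (.n (.s .e))) (nat_lit 4398046511104) (.ret (nat_lit 1)) (.ret (nat_lit 0))) (.ret (nat_lit 0))) (.ret (nat_lit 0))) (.ret (nat_lit 0))) (.n (.n .e)) (.cnd (.askT .e (nat_lit 4395899027456) (.askF (.n (.s .e)) (nat_lit 4398046511104) pp241_0 (.ret (nat_lit 0))) (.ret (nat_lit 0))) (.n (.s .e)) (.askT (.s .e) (nat_lit 4388382834688) (.mv (.s (.n .e)) (.mv (.n (.s .e)) (.askT .e (nat_lit 4394825285632) (.askF .e (nat_lit 26388279066624) pp241_0 (.ret (nat_lit 0))) (.ret (nat_lit 0))))) (.ret (nat_lit 0))) (.ret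 (nat_lit 0))) (.ret (nat_lit 0))) (.ret (nat_lit 0))) (.ret (nat_lit 0)))
def pt242 : Prog := (.askT .e (nat_lit 4379792900096) (.askF .e (nat_lit 26388279066624) (.askF (.n .e) (nat_lit 26388279066624) (.cnd (.askF .e (nat_lit 26388279066624) (.askT (.s .e) (nat_lit 4379792900096) (.askF (.s .e) (nat_lit 26388279066624) (.ret (nat_lit 1)) (.ret (nat_lit 0))) (.ret (nat_lit 0))) (.ret (nat_lit 0))) (.n (.n .e)) (.askT (.n (.s .e)) (nat_lit 4388382834688) (.askT (.n (.s (.p (.s .e)))) (nat_lit 4395899027456) (.askF (.p .e) (nat_lit 26388279066624) (.askT (.p (.p (.s .e))) (nat_lit 4395899027456) (.askT (.p (.s .e)) (nat_lit 4388382834688) (.askT (.s .e) (nat_lit 4395899027456) (.askT (.s (.n (.s .e))) (nat_lit 4379792900096) (.askT (.s (.p (.s .e))) (nat_lit 4362613030912) (.ret (nat_lit 1)) (.ret (nat_lit 0))) (.ret (nat_lit 0))) (.ret (nat_lit 0))) (.ret (nat_lit 0))) (.ret (nat_lit 0))) (.ret (nat_lit 0))) (.ret (nat_lit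 0))) (.ret (nat_lit 0))) (.ret (nat_lit 0))) (.ret (nat_lit 0))) (.ret (nat_lit 0))) (.ret (nat_lit 0)))
def pt244 : Prog := (.askT .e (nat_lit 4379792900096) (.askF .e (nat_lit 26388279066624) (.askF (.n .e) (nat_lit 26388279066624) (.cnd (.askT (.s .e) (nat_lit 4395899027456) (.askF (.s .e) (nat_lit 26388279066624) (.askT (.s (.p (.s .e))) (nat_lit 4233764012032) (.ret (nat_lit 1)) (.ret (nat_lit 0))) (.ret (nat_lit 0))) (.ret (nat_lit 0))) (.n (.n .e)) (.askT (.n (.s .e)) (nat_lit 4233764012032) (.askT (.n (.s (.n (.s .e)))) (nat_lit 3770981285888) (.cnd (.askT (.s .e) (nat_lit 4388382834688) (.mv (.s (.n .e)) (.askF (.n .e) (nat_lit 26388279066624) (.askT (.n (.s .e)) (nat_lit 4394825285632) (.askT (.n (.s (.n (.s .e)))) (nat_lit 4395899027456) (.ret (nat_lit 1)) (.ret (nat_lit 0))) (.ret (nat_lit 0))) (.ret (nat_lit 0)))) (.ret (nat_lit 0))) (.p (.p .e)) (.askT (.p (.s .e)) (nat_lit 4233764012032) (.askT (.s .e) (nat_lit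 4395899027456) (.askT (.s (.n (.s .e))) (nat_lit 3770981285888) (.ret (nat_lit 1)) (.ret (nat_lit 0))) (.ret (nat_lit 0))) (.ret (nat_lit 0))) (.ret (nat_lit 0))) (.ret (nat_lit 0))) (.ret (nat_lit 0))) (.ret (nat_lit 0))) (.ret (nat_lit 0))) (.ret (nat_lit 0))) (.ret (nat_lit 0)))
def pt245 : Prog := (.askT .e (nat_lit 4379792900096) (.askF .e (nat_lit 26388279066624) (.askF (.n .e) (nat_lit 26388279066624) (.cnd (.askT (.s .e) (nat_lit 4395899027456) (.askF (.s .e) (nat_lit 26388279066624) (.askT (.s (.p (.s .e))) (nat_lit 4362613030912) (.ret (nat_lit 1)) (.ret (nat_lit 0))) (.ret (nat_lit 0))) (.ret (nat_lit 0))) (.n (.n .e)) (.askT (.n (.s .e)) (nat_lit 4233764012032) (.askT (.n (.s (.n (.s .e)))) (nat_lit 3770981285888) (.askT (.p (.p (.s .e))) (nat_lit 4388382834688) (.askT (.p (.s .e)) (nat_lit 4233764012032) (.askT (.s .e) (nat_lit 4395899027456) (.askT (.s (.n (.s .e))) (nat_lit 3770981285888) (.ret (nat_lit 1))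 (.ret (nat_lit 0))) (.ret (nat_lit 0))) (.ret (nat_lit 0))) (.ret (nat_lit 0))) (.ret (nat_lit 0))) (.ret (nat_lit 0))) (.ret (nat_lit 0))) (.ret (nat_lit 0))) (.ret (nat_lit 0))) (.ret (nat_lit 0)))
def pt246 : Prog := (.askT .e (nat_lit 4379792900096) (.askF .e (nat_lit 26388279066624) (.askF (.n .e) (nat_lit 8796093022208) (.cnd (.askF .e (nat_lit 26388279066624) (.askT (.s .e) (nat_lit 4395899027456) (.askF (.s .e) (nat_lit 26388279066624) (.askT (.s (.n (.s .e))) (nat_lit 625991483392) (.askT (.s (.p (.s .e))) (nat_lit 625991483392) (.ret (nat_lit 1)) (.ret (nat_lit 0))) (.ret (nat_lit 0))) (.ret (nat_lit 0))) (.ret (nat_lit 0))) (.ret (nat_lit 0))) (.n (.n .e)) (.askT (.n (.s .e)) (nat_lit 4388382834688) (.askT (.p (.p (.s .e))) (nat_lit 4388382834688) (.askT (.p (.s .e)) (nat_lit 4388382834688) (.askT (.s .e) (nat_lit 4395899027456) (.askT (.s (.n (.s .e))) (nat_lit 4388382834688) (.ret (nat_lit 1)) (.ret (nat_lit 0)))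 (.ret (nat_lit 0))) (.ret (nat_lit 0))) (.ret (nat_lit 0))) (.ret (nat_lit 0))) (.ret (nat_lit 0))) (.ret (nat_lit 0))) (.ret (nat_lit 0))) (.ret (nat_lit 0)))
def pt247 : Prog := (.askT .e (nat_lit 4379792900096) (.askF .e (nat_lit 26388279066624) (.askF (.n .e) (nat_lit 26388279066624) (.askT (.n (.s .e)) (nat_lit 4395899027456) (.askT (.p (.s .e)) (nat_lit 3770981285888) (.askT (.s .e) (nat_lit 4388382834688) (.cnd (.askF (.n .e) (nat_lit 26388279066624) (.mv (.n (.s .e)) (.askT .e (nat_lit 3770981285888) (.askT (.n (.s .e)) (nat_lit 3770981285888) (.askT (.n (.s (.n (.s .e)))) (nat_lit 4233764012032) (.ret (nat_lit 1)) (.ret (nat_lit 0))) (.ret (nat_lit 0))) (.ret (nat_lit 0)))) (.ret (nat_lit 0))) (.s (.n .e)) (.askT (.s (.p (.s .e))) (nat_lit 4394825285632) (.ret (nat_lit 1)) (.ret (nat_lit 0))) (.ret (nat_lit 0))) (.ret (nat_lit 0))) (.ret (nat_lit 0))) (.ret (nat_lit 0))) (.ret (nat_lit 0))) (.ret (nat_lit 0))) (.ret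 (nat_lit 0)))
def pt248 : Prog := (.askT .e (nat_lit 4379792900096) (.askF .e (nat_lit 26388279066624) (.askF (.n .e) (nat_lit 26388279066624) (.cnd (.askF .e (nat_lit 26388279066624) (.askT (.s .e) (nat_lit 4395899027456) (.askF (.s .e) (nat_lit 26388279066624) (.askT (.s (.p (.s .e))) (nat_lit 3770981285888) (.ret (nat_lit 1)) (.ret (nat_lit 0))) (.ret (nat_lit 0))) (.ret (nat_lit 0))) (.ret (nat_lit 0))) (.n (.n .e)) (.askT (.n (.s .e)) (nat_lit 4388382834688) (.askT (.p (.p (.s .e))) (nat_lit 4233764012032) (.askT (.p (.s .e)) (nat_lit 4388382834688) (.askT (.s .e) (nat_lit 4395899027456) (.askT (.s (.n (.s .e))) (nat_lit 4362613030912) (.ret (nat_lit 1)) (.ret (nat_lit 0))) (.ret (nat_lit 0))) (.ret (nat_lit 0))) (.ret (nat_lit 0))) (.ret (nat_lit 0))) (.ret (nat_lit 0))) (.ret (nat_lit 0))) (.ret (nat_lit 0))) (.ret (nat_lit 0)))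
def pt249 : Prog := (.askT .e (nat_lit 4379792900096) (.askF (.n .e) (nat_lit 26388279066624) (.cnd (.askF .e (nat_lit 26388279066624) (.askT (.s .e) (nat_lit 4395899027456) (.askF (.s .e) (nat_lit 26388279066624) (.ret (nat_lit 1)) (.ret (nat_lit 0))) (.ret (nat_lit 0))) (.ret (nat_lit 0))) (.n (.n .e)) (.cnd (.askT .e (nat_lit 4388382834688) (.askF (.n (.n .e)) (nat_lit 26388279066624) (.askT (.n (.n (.s (.n (.s .e))))) (nat_lit 3770981285888) (.askT (.p (.s .e)) (nat_lit 4388382834688) (.ret (nat_lit 1)) (.ret (nat_lit 0))) (.ret (nat_lit 0))) (.ret (nat_lit 0))) (.ret (nat_lit 0))) (.n (.s .e)) (.askT (.p (.p (.s .e))) (nat_lit 625991483392) (.askT (.s .e) (nat_lit 4395899027456) (.askT (.s (.n (.s .e))) (nat_lit 625991483392) (.askT (.s (.p (.s .e))) (nat_lit 4379792900096) (.ret (nat_lit 1)) (.ret (nat_lit 0))) (.ret (nat_lit 0))) (.ret (nat_lit 0))) (.ret (nat_lit 0))) (.ret (nat_lit 0))) (.ret (nat_lit 0))) (.ret (nat_lit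 0))) (.ret (nat_lit 0)))
def pt250 : Prog := (.askT .e (nat_lit 4379792900096) (.askF .e (nat_lit 26388279066624) (.cnd (.askF .e (nat_lit 8796093022208) (.askT (.s .e) (nat_lit 4233764012032) (.askF (.s .e) (nat_lit 26388279066624) (.ret (nat_lit 1)) (.ret (nat_lit 0))) (.ret (nat_lit 0))) (.ret (nat_lit 0))) (.n (.n .e)) (.askT (.n (.s .e)) (nat_lit 4395899027456) (.askT (.p (.p (.s .e))) (nat_lit 4394825285632) (.askT (.p (.p (.s (.n (.s .e))))) (nat_lit 4395899027456) (.askT (.p (.s .e)) (nat_lit 4395899027456) (.askT (.s .e) (nat_lit 4388382834688) (.askT (.s (.n (.s .e))) (nat_lit 4388382834688) (.ret (nat_lit 1)) (.ret (nat_lit 0))) (.ret (nat_lit 0))) (.ret (nat_lit 0))) (.ret (nat_lit 0))) (.ret (nat_lit 0))) (.ret (nat_lit 0))) (.ret (nat_lit 0))) (.ret (nat_lit 0))) (.ret (nat_lit 0)))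
def pt251 : Prog := (.askT .e (nat_lit 4379792900096) (.askF .e (nat_lit 26388279066624) (.cnd (.askF .e (nat_lit 26388279066624) (.askT (.s .e) (nat_lit 4388382834688) (.askF (.s .e) (nat_lit 26388279066624) (.ret (nat_lit 1)) (.ret (nat_lit 0))) (.ret (nat_lit 0))) (.ret (nat_lit 0))) (.n (.n .e)) (.askT (.n (.s .e)) (nat_lit 4395899027456) (.askT (.p (.p (.s .e))) (nat_lit 4395899027456) (.askT (.p (.s .e)) (nat_lit 4395899027456) (.askT (.s .e) (nat_lit 4388382834688) (.askT (.s (.n (.s .e))) (nat_lit 4388382834688) (.ret (nat_lit 1)) (.ret (nat_lit 0))) (.ret (nat_lit 0))) (.ret (nat_lit 0))) (.ret (nat_lit 0))) (.ret (nat_lit 0))) (.ret (nat_lit 0))) (.ret (nat_lit 0))) (.ret (nat_lit 0)))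
def pt252 : Prog := (.askT .e (nat_lit 4379792900096) (.askF .e (nat_lit 26388279066624) (.cnd (.askF .e (nat_lit 26388279066624) (.askT (.s .e) (nat_lit 4352949354496) (.askT (.s (.n (.s .e))) (nat_lit 4352949354496) (.askT (.s (.n (.s (.n (.s .e))))) (nat_lit 4352949354496) (.ret (nat_lit 1)) (.ret (nat_lit 0))) (.ret (nat_lit 0))) (.ret (nat_lit 0))) (.ret (nat_lit 0))) (.n (.n .e)) (.askT (.p (.s .e)) (nat_lit 4333622001664) (.askT (.s .e) (nat_lit 4352949354496) (.mv (.s (.n .e)) (.askT (.s .e) (nat_lit 4352949354496) (.mv (.s (.n .e)) (.askF (.s .e) (nat_lit 26388279066624) (.askT (.n (.s .e)) (nat_lit 4352949354496) (.askT (.n (.s (.n (.s .e)))) (nat_lit 4352949354496) (.ret (nat_lit 1)) (.ret (nat_lit 0))) (.ret (nat_lit 0))) (.ret (nat_lit 0)))) (.ret (nat_lit 0)))) (.ret (nat_lit 0))) (.ret (nat_lit 0))) (.ret (nat_lit 0))) (.ret (nat_lit 0))) (.ret (nat_lit 0)))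
def pt253 : Prog := (.askT .e (nat_lit 4379792900096) (.askF .e (nat_lit 26388279066624) (.askF (.n .e) (nat_lit 26388279066624) (.askT (.n (.s .e)) (nat_lit 4395899027456) (.cnd (.askT .e (nat_lit 4394825285632) (.askT (.n (.n (.s .e))) (nat_lit 4395899027456) (.askF (.n (.n (.s .e))) (nat_lit 26388279066624) (.ret (nat_lit 1)) (.ret (nat_lit 0))) (.ret (nat_lit 0))) (.ret (nat_lit 0))) (.p (.s .e)) (.askT (.s .e) (nat_lit 4388382834688) (.cnd (.askT (.n (.s .e)) (nat_lit 4394825285632) (.askF (.n (.s .e)) (nat_lit 26388279066624) (.askT (.s .e) (nat_lit 4388382834688) (.askT (.s (.n (.n (.s .e)))) (nat_lit 4388382834688) (.ret (nat_lit 1)) (.ret (nat_lit 0))) (.ret (nat_lit 0))) (.ret (nat_lit 0))) (.ret (nat_lit 0))) (.s (.n .e)) (.askT (.s (.p (.s .e))) (nat_lit 4379792900096) (.askT (.s (.p (.s (.n (.s .e))))) (nat_lit 4395899027456) (.ret (nat_lit 1)) (.ret (nat_lit 0))) (.ret (nat_lit 0))) (.ret (nat_lit 0))) (.ret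 (nat_lit 0))) (.ret (nat_lit 0))) (.ret (nat_lit 0))) (.ret (nat_lit 0))) (.ret (nat_lit 0))) (.ret (nat_lit 0)))
def pt254 : Prog := (.askT .e (nat_lit 4379792900096) (.askF .e (nat_lit 26388279066624) (.askF (.n .e) (nat_lit 26388279066624) (.cnd (.askF .e (nat_lit 26388279066624) (.askT (.s .e) (nat_lit 4395899027456) (.askF (.s .e) (nat_lit 26388279066624) (.askT (.s (.p (.s .e))) (nat_lit 3770981285888) (.ret (nat_lit 1)) (.ret (nat_lit 0))) (.ret (nat_lit 0))) (.ret (nat_lit 0))) (.ret (nat_lit 0))) (.n (.n .e)) (.askT (.n (.s .e)) (nat_lit 4388382834688) (.askT (.n (.s (.n (.s .e)))) (nat_lit 625991483392) (.askT (.p (.p (.s .e))) (nat_lit 4388382834688) (.askT (.s .e) (nat_lit 4395899027456) (.askT (.s (.n (.s .e))) (nat_lit 4388382834688) (.ret (nat_lit 1)) (.ret (nat_lit 0))) (.ret (nat_lit 0))) (.ret (nat_lit 0))) (.ret (nat_lit 0))) (.ret (nat_lit 0))) (.ret (nat_lit 0))) (.ret (nat_lit 0))) (.ret (nat_lit 0)))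 (.ret (nat_lit 0)))
def pt255 : Prog := (.askT .e (nat_lit 4379792900096) (.askF .e (nat_lit 8796093022208) (.askF (.n .e) (nat_lit 26388279066624) (.askF (.n (.n .e)) (nat_lit 26388279066624) (.askT (.n (.n (.s .e))) (nat_lit 4395899027456) (.cnd (.askT .e (nat_lit 4388382834688) (.askT (.n (.n (.s .e))) (nat_lit 3770981285888) (.askF (.n (.n (.s .e))) (nat_lit 26388279066624) (.askT (.p (.s (.n (.s .e)))) (nat_lit 3770981285888) (.ret (nat_lit 1)) (.ret (nat_lit 0))) (.ret (nat_lit 0))) (.ret (nat_lit 0))) (.ret (nat_lit 0))) (.n (.s .e)) (.askF (.p .e) (nat_lit 26388279066624) (.cnd (.askT (.s .e) (nat_lit 4394825285632) (.askT (.s (.p (.s .e))) (nat_lit 4395899027456) (.askT (.s (.p (.s (.p (.s .e))))) (nat_lit 4233764012032) (.ret (nat_lit 1)) (.ret (nat_lit 0))) (.ret (nat_lit 0))) (.ret (nat_lit 0))) (.p (.p .e)) (.askT (.s .e) (nat_lit 4395899027456) (.askT (.s (.p (.s .e))) (nat_lit 4388382834688) (.ret (nat_lit 1))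 (.ret (nat_lit 0))) (.ret (nat_lit 0))) (.ret (nat_lit 0))) (.ret (nat_lit 0))) (.ret (nat_lit 0))) (.ret (nat_lit 0))) (.ret (nat_lit 0))) (.ret (nat_lit 0))) (.ret (nat_lit 0))) (.ret (nat_lit 0)))
def pt256 : Prog := (.askT .e (nat_lit 4379792900096) (.askF .e (nat_lit 26388279066624) (.askF (.n .e) (nat_lit 8796093022208) (.cnd (.askF .e (nat_lit 26388279066624) (.askT (.s .e) (nat_lit 4394825285632) (.askF (.s .e) (nat_lit 26388279066624) (.askT (.s (.p (.s .e))) (nat_lit 3770981285888) (.ret (nat_lit 1)) (.ret (nat_lit 0))) (.ret (nat_lit 0))) (.ret (nat_lit 0))) (.ret (nat_lit 0))) (.n (.n .e)) (.askT (.n (.s .e)) (nat_lit 4388382834688) (.askT (.n (.s (.p (.s .e)))) (nat_lit 4395899027456) (.askT (.p (.p (.s .e))) (nat_lit 4233764012032) (.askT (.p (.s .e)) (nat_lit 4233764012032) (.askT (.s .e) (nat_lit 4395899027456) (.askT (.s (.n (.s .e))) (nat_lit 3770981285888) (.ret (nat_lit 1)) (.ret (nat_lit 0))) (.ret (nat_lit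 0))) (.ret (nat_lit 0))) (.ret (nat_lit 0))) (.ret (nat_lit 0))) (.ret (nat_lit 0))) (.ret (nat_lit 0))) (.ret (nat_lit 0))) (.ret (nat_lit 0))) (.ret (nat_lit 0)))
def pt257 : Prog := (.askT .e (nat_lit 4379792900096) (.askF .e (nat_lit 26388279066624) (.askF (.n .e) (nat_lit 26388279066624) (.cnd (.askF .e (nat_lit 26388279066624) (.askT (.s .e) (nat_lit 4233764012032) (.askF (.s .e) (nat_lit 26388279066624) (.askT (.s (.n (.s .e))) (nat_lit 3770981285888) (.ret (nat_lit 1)) (.ret (nat_lit 0))) (.ret (nat_lit 0))) (.ret (nat_lit 0))) (.ret (nat_lit 0))) (.n (.n .e)) (.askT (.n (.s .e)) (nat_lit 4388382834688) (.askT (.p (.p (.s .e))) (nat_lit 4395899027456) (.askT (.p (.p (.s (.n (.s .e))))) (nat_lit 3770981285888) (.askT (.p (.s .e)) (nat_lit 4388382834688) (.askT (.s .e) (nat_lit 4395899027456) (.askT (.s (.n (.s .e))) (nat_lit 4394825285632) (.ret (nat_lit 1)) (.ret (nat_lit 0))) (.ret (nat_lit 0))) (.ret (nat_lit 0)))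 (.ret (nat_lit 0))) (.ret (nat_lit 0))) (.ret (nat_lit 0))) (.ret (nat_lit 0))) (.ret (nat_lit 0))) (.ret (nat_lit 0))) (.ret (nat_lit 0)))
def pt258 : Prog := (.askT .e (nat_lit 4379792900096) (.askF (.n .e) (nat_lit 26388279066624) (.cnd (.askT .e (nat_lit 4388382834688) (.cnd (.askF .e (nat_lit 26388279066624) (.askT (.s .e) (nat_lit 4394825285632) (.askF (.s .e) (nat_lit 26388279066624) (.ret (nat_lit 1)) (.ret (nat_lit 0))) (.ret (nat_lit 0))) (.ret (nat_lit 0))) (.n (.n .e)) (.askT (.p (.s .e)) (nat_lit 4233764012032) (.ret (nat_lit 1)) (.ret (nat_lit 0))) (.ret (nat_lit 0))) (.ret (nat_lit 0))) (.n (.s .e)) (.askT (.s .e) (nat_lit 4395899027456) (.askT (.s (.p (.s .e))) (nat_lit 4379792900096) (.askT (.s (.p (.s (.p (.p (.s .e)))))) (nat_lit 4395899027456) (.ret (nat_lit 1)) (.ret (nat_lit 0))) (.ret (nat_lit 0))) (.ret (nat_lit 0))) (.ret (nat_lit 0))) (.ret (nat_lit 0))) (.ret (nat_lit 0)))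
def pt259 : Prog := (.askT .e (nat_lit 4379792900096) (.askF .e (nat_lit 26388279066624) (.askF (.n .e) (nat_lit 26388279066624) (.cnd (.askF .e (nat_lit 26388279066624) (.askT (.s .e) (nat_lit 4395899027456) (.askF (.s .e) (nat_lit 26388279066624) (.askT (.s (.p (.s .e))) (nat_lit 4388382834688) (.ret (nat_lit 1)) (.ret (nat_lit 0))) (.ret (nat_lit 0))) (.ret (nat_lit 0))) (.ret (nat_lit 0))) (.n (.n .e)) (.askT (.n (.s .e)) (nat_lit 4388382834688) (.askT (.p (.p (.s .e))) (nat_lit 4388382834688) (.askT (.p (.s .e)) (nat_lit 4233764012032) (.askT (.s .e) (nat_lit 4395899027456) (.askT (.s (.n (.s .e))) (nat_lit 3770981285888) (.ret (nat_lit 1)) (.ret (nat_lit 0))) (.ret (nat_lit 0))) (.ret (nat_lit 0))) (.ret (nat_lit 0))) (.ret (nat_lit 0))) (.ret (nat_lit 0))) (.ret (nat_lit 0))) (.ret (nat_lit 0))) (.ret (nat_lit 0)))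
def pt260 : Prog := (.askT .e (nat_lit 4379792900096) (.askF .e (nat_lit 26388279066624) (.askF (.n .e) (nat_lit 21990232555520) (.cnd (.askF .e (nat_lit 26388279066624) (.askT (.s .e) (nat_lit 4388382834688) (.askF (.s .e) (nat_lit 26388279066624) (.mv (.s (.n .e)) (.askF (.n .e) (nat_lit 4398046511104) (.mv (.n (.s .e)) (.askT .e (nat_lit 4394825285632) (.askF .e (nat_lit 26388279066624) (.askT (.p (.s .e)) (nat_lit 4395899027456) (.askT (.p (.s (.p (.s .e)))) (nat_lit 4233764012032) (.ret (nat_lit 1)) (.ret (nat_lit 0))) (.ret (nat_lit 0))) (.ret (nat_lit 0))) (.ret (nat_lit 0)))) (.ret (nat_lit 0)))) (.ret (nat_lit 0))) (.ret (nat_lit 0))) (.ret (nat_lit 0))) (.n (.n .e)) (.askT (.n (.s .e)) (nat_lit 4395899027456) (.askT (.n (.s (.n (.s .e)))) (nat_lit 4395899027456) (.askF (.p .e) (nat_lit 4398046511104) (.askT (.p (.p (.s .e))) (nat_lit 3770981285888) (.askT (.p (.s .e)) (nat_lit 4233764012032) (.askT (.s .e) (nat_lit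 4395899027456) (.askT (.s (.n (.s .e))) (nat_lit 3770981285888) (.askT (.s (.p (.s .e))) (nat_lit 4395899027456) (.ret (nat_lit 1)) (.ret (nat_lit 0))) (.ret (nat_lit 0))) (.ret (nat_lit 0))) (.ret (nat_lit 0))) (.ret (nat_lit 0))) (.ret (nat_lit 0))) (.ret (nat_lit 0))) (.ret (nat_lit 0))) (.ret (nat_lit 0))) (.ret (nat_lit 0))) (.ret (nat_lit 0))) (.ret (nat_lit 0)))
def pt261 : Prog := (.askT .e (nat_lit 4379792900096) (.askF .e (nat_lit 26388279066624) (.askF (.n .e) (nat_lit 26388279066624) (.cnd (.askF .e (nat_lit 26388279066624) (.askT (.s .e) (nat_lit 4395899027456) (.askF (.s .e) (nat_lit 26388279066624) (.askT (.s (.n (.s .e))) (nat_lit 625991483392) (.ret (nat_lit 1)) (.ret (nat_lit 0))) (.ret (nat_lit 0))) (.ret (nat_lit 0))) (.ret (nat_lit 0))) (.n (.n .e)) (.askT (.n (.s .e)) (nat_lit 4388382834688) (.askT (.p (.p (.s .e))) (nat_lit 4388382834688) (.askT (.p (.s .e)) (nat_lit 4388382834688) (.askT (.s .e) (nat_lit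 4395899027456) (.askT (.s (.n (.s .e))) (nat_lit 4362613030912) (.ret (nat_lit 1)) (.ret (nat_lit 0))) (.ret (nat_lit 0))) (.ret (nat_lit 0))) (.ret (nat_lit 0))) (.ret (nat_lit 0))) (.ret (nat_lit 0))) (.ret (nat_lit 0))) (.ret (nat_lit 0))) (.ret (nat_lit 0)))
def pt262 : Prog := (.askT .e (nat_lit 4379792900096) (.askF .e (nat_lit 26388279066624) (.askF (.n .e) (nat_lit 26388279066624) (.askT (.n (.s .e)) (nat_lit 4395899027456) (.askT (.p (.s .e)) (nat_lit 4395899027456) (.askT (.s .e) (nat_lit 4388382834688) (.cnd (.askT (.n (.s .e)) (nat_lit 4394825285632) (.askF (.n (.s .e)) (nat_lit 26388279066624) (.askT (.s .e) (nat_lit 4362613030912) (.ret (nat_lit 1)) (.ret (nat_lit 0))) (.ret (nat_lit 0))) (.ret (nat_lit 0))) (.s (.n .e)) (.askT (.s (.p (.s .e))) (nat_lit 4379792900096) (.askT (.s (.p (.s (.n (.s .e))))) (nat_lit 4395899027456) (.ret (nat_lit 1)) (.ret (nat_lit 0))) (.ret (nat_lit 0))) (.ret (nat_lit 0))) (.ret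 (nat_lit 0))) (.ret (nat_lit 0))) (.ret (nat_lit 0))) (.ret (nat_lit 0))) (.ret (nat_lit 0))) (.ret (nat_lit 0)))
def pt264 : Prog := (.askT .e (nat_lit 4379792900096) (.askF .e (nat_lit 26388279066624) (.askF (.n .e) (nat_lit 26388279066624) (.askT (.n (.s .e)) (nat_lit 3770981285888) (.askT (.n (.s (.n (.s .e)))) (nat_lit 3770981285888) (.askT (.p (.s .e)) (nat_lit 4395899027456) (.askT (.s .e) (nat_lit 4388382834688) (.cnd (.askT (.n (.s .e)) (nat_lit 4233764012032) (.askF (.n (.s .e)) (nat_lit 26388279066624) (.askT (.s .e) (nat_lit 4394825285632) (.ret (nat_lit 1)) (.ret (nat_lit 0))) (.ret (nat_lit 0))) (.ret (nat_lit 0))) (.s (.n .e)) (.askT (.s (.p (.s (.n (.s .e))))) (nat_lit 3770981285888) (.ret (nat_lit 1)) (.ret (nat_lit 0))) (.ret (nat_lit 0))) (.ret (nat_lit 0))) (.ret (nat_lit 0))) (.ret (nat_lit 0))) (.ret (nat_lit 0))) (.ret (nat_lit 0))) (.ret (nat_lit 0))) (.ret (nat_lit 0)))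
def pt268 : Prog := (.askT .e (nat_lit 4392677801984) (.askF (.n .e) (nat_lit 26388279066624) (.askF (.n (.n .e)) (nat_lit 26388279066624) (.askT (.n (.n (.s .e))) (nat_lit 4395899027456) (.cnd (.askT .e (nat_lit 4388382834688) (.cnd (.askF .e (nat_lit 26388279066624) (.askT (.s .e) (nat_lit 4394825285632) (.askT (.s (.n (.s .e))) (nat_lit 4395899027456) (.ret (nat_lit 1)) (.ret (nat_lit 0))) (.ret (nat_lit 0))) (.ret (nat_lit 0))) (.n (.n .e)) (.askT (.p (.s .e)) (nat_lit 4362613030912) (.ret (nat_lit 1)) (.ret (nat_lit 0))) (.ret (nat_lit 0))) (.ret (nat_lit 0))) (.n (.s .e)) (.askT (.s .e) (nat_lit 4395899027456) (.ret (nat_lit 1)) (.ret (nat_lit 0))) (.ret (nat_lit 0))) (.ret (nat_lit 0))) (.ret (nat_lit 0))) (.ret (nat_lit 0))) (.ret (nat_lit 0)))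
def pt269 : Prog := (.askT .e (nat_lit 4379792900096) (.askF .e (nat_lit 8796093022208) (.askF (.n .e) (nat_lit 26388279066624) (.cnd (.askF .e (nat_lit 26388279066624) (.askT (.s .e) (nat_lit 4388382834688) (.askF (.s .e) (nat_lit 26388279066624) (.askF (.s (.n (.n (.s .e)))) (nat_lit 26388279066624) (.askT (.s (.p (.s .e))) (nat_lit 4233764012032) (.askT (.s (.p (.s (.n (.s .e))))) (nat_lit 3770981285888) (.ret (nat_lit 1)) (.ret (nat_lit 0))) (.ret (nat_lit 0))) (.ret (nat_lit 0))) (.ret (nat_lit 0))) (.ret (nat_lit 0))) (.ret (nat_lit 0))) (.n (.n .e)) (.askT (.n (.s .e)) (nat_lit 4395899027456) (.askT (.n (.s (.p (.s .e)))) (nat_lit 4388382834688) (.askT (.p (.p (.s .e))) (nat_lit 4395899027456) (.askT (.p (.s .e)) (nat_lit 4395899027456) (.askT (.s .e) (nat_lit 4388382834688) (.askT (.s (.p (.s .e))) (nat_lit 4394825285632) (.ret (nat_lit 1)) (.ret (nat_lit 0))) (.ret (nat_lit 0))) (.ret (nat_lit 0))) (.ret (nat_lit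 0))) (.ret (nat_lit 0))) (.ret (nat_lit 0))) (.ret (nat_lit 0))) (.ret (nat_lit 0))) (.ret (nat_lit 0))) (.ret (nat_lit 0)))
def pt270 : Prog := (.askT .e (nat_lit 4379792900096) (.askF .e (nat_lit 21990232555520) (.askF (.n .e) (nat_lit 26388279066624) (.cnd (.askF .e (nat_lit 26388279066624) (.askT (.s .e) (nat_lit 4395899027456) (.askF (.s .e) (nat_lit 21990232555520) (.askT (.s (.p (.s .e))) (nat_lit 3770981285888) (.ret (nat_lit 1)) (.ret (nat_lit 0))) (.ret (nat_lit 0))) (.ret (nat_lit 0))) (.ret (nat_lit 0))) (.n (.n .e)) (.askT (.n (.s .e)) (nat_lit 4388382834688) (.askT (.n (.s (.p (.s .e)))) (nat_lit 4379792900096) (.askT (.p (.p (.s .e))) (nat_lit 4320737099776) (.askT (.p (.p (.s (.n (.s .e))))) (nat_lit 3770981285888) (.askT (.p (.s .e)) (nat_lit 4395899027456) (.askT (.p (.s (.p (.s .e)))) (nat_lit 4395899027456) (.askT (.s .e) (nat_lit 4395899027456) (.askT (.s (.n (.s .e))) (nat_lit 4395899027456) (.askT (.s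 (.p (.s .e))) (nat_lit 4379792900096) (.ret (nat_lit 1)) (.ret (nat_lit 0))) (.ret (nat_lit 0))) (.ret (nat_lit 0))) (.ret (nat_lit 0))) (.ret (nat_lit 0))) (.ret (nat_lit 0))) (.ret (nat_lit 0))) (.ret (nat_lit 0))) (.ret (nat_lit 0))) (.ret (nat_lit 0))) (.ret (nat_lit 0))) (.ret (nat_lit 0))) (.ret (nat_lit 0)))
def pt271 : Prog := (.askT .e (nat_lit 4379792900096) (.askF .e (nat_lit 26388279066624) (.cnd (.askF .e (nat_lit 26388279066624) (.askT (.s .e) (nat_lit 4352949354496) (.mv (.s (.n .e)) (.askT (.s .e) (nat_lit 4333622001664) (.mv (.s (.n .e)) (.askT (.s .e) (nat_lit 4352949354496) (.askF (.s .e) (nat_lit 26388279066624) (.askT (.n (.s .e)) (nat_lit 4352949354496) (.askT (.n (.s (.n (.s .e)))) (nat_lit 4352949354496) (.ret (nat_lit 1)) (.ret (nat_lit 0))) (.ret (nat_lit 0))) (.ret (nat_lit 0))) (.ret (nat_lit 0)))) (.ret (nat_lit 0)))) (.ret (nat_lit 0))) (.ret (nat_lit 0))) (.n (.n .e)) (.askF (.p .e) (nat_lit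 26388279066624) (.askT (.p (.p (.s .e))) (nat_lit 4352949354496) (.askT (.p (.s .e)) (nat_lit 4333622001664) (.askT (.p (.s (.n (.s .e)))) (nat_lit 4352949354496) (.askT (.s .e) (nat_lit 4352949354496) (.askT (.s (.n (.s .e))) (nat_lit 4352949354496) (.ret (nat_lit 1)) (.ret (nat_lit 0))) (.ret (nat_lit 0))) (.ret (nat_lit 0))) (.ret (nat_lit 0))) (.ret (nat_lit 0))) (.ret (nat_lit 0))) (.ret (nat_lit 0))) (.ret (nat_lit 0))) (.ret (nat_lit 0)))
def pp272_0 : Prog := (.askT (.n (.n (.s .e))) (nat_lit 4352949354496) (.askT (.n (.n (.s (.n (.s .e))))) (nat_lit 4352949354496) (.ret (nat_lit 1)) (.ret (nat_lit 0))) (.ret (nat_lit 0)))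
def pt272 : Prog := (.askT .e (nat_lit 4334695743488) (.askF .e (nat_lit 26388279066624) (.askT (.s .e) (nat_lit 4334695743488) (.askF (.s .e) (nat_lit 26388279066624) (.askT (.s (.n (.s .e))) (nat_lit 4352949354496) (.askT (.s (.n (.s (.n (.s .e))))) (nat_lit 4352949354496) (.cnd (.askT .e (nat_lit 4333622001664) (.askF .e (nat_lit 26388279066624) (.mv (.n (.s .e)) (.askT .e (nat_lit 4352949354496) (.askF (.n (.s .e)) (nat_lit 26388279066624) pp272_0 (.ret (nat_lit 0))) (.ret (nat_lit 0)))) (.ret (nat_lit 0))) (.ret (nat_lit 0))) (.n (.s .e)) pp272_0 (.ret (nat_lit 0))) (.ret (nat_lit 0))) (.ret (nat_lit 0))) (.ret (nat_lit 0))) (.ret (nat_lit 0))) (.ret (nat_lit 0))) (.ret (nat_lit 0)))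
def pt274 : Prog := (.askT .e (nat_lit 4379792900096) (.askF (.n .e) (nat_lit 21990232555520) (.cnd (.askF .e (nat_lit 26388279066624) (.askT (.s .e) (nat_lit 4388382834688) (.askF (.s (.n (.n .e))) (nat_lit 26388279066624) (.askT (.s (.n (.n (.s .e)))) (nat_lit 4394825285632) (.ret (nat_lit 1)) (.ret (nat_lit 0))) (.ret (nat_lit 0))) (.ret (nat_lit 0))) (.ret (nat_lit 0))) (.n (.n .e)) (.cnd (.askT .e (nat_lit 4395899027456) (.askT (.n (.s .e)) (nat_lit 4395899027456) (.askT (.p (.s .e)) (nat_lit 4379792900096) (.askT (.p (.s (.p (.p (.s .e))))) (nat_lit 4395899027456) (.ret (nat_lit 1)) (.ret (nat_lit 0))) (.ret (nat_lit 0))) (.ret (nat_lit 0))) (.ret (nat_lit 0))) (.n (.s .e)) (.askT (.s .e) (nat_lit 4395899027456) (.askT (.s (.p (.s .e))) (nat_lit 4395899027456) (.ret (nat_lit 1)) (.ret (nat_lit 0))) (.ret (nat_lit 0))) (.ret (nat_lit 0))) (.ret (nat_lit 0))) (.ret (nat_lit 0))) (.ret (nat_lit 0)))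
def pt275 : Prog := (.askT .e (nat_lit 4362613030912) (.askF .e (nat_lit 21990232555520) (.askT (.p (.s .e)) (nat_lit 4395899027456) (.askT (.p (.s (.p (.s .e)))) (nat_lit 4395899027456) (.askT (.s .e) (nat_lit 4388382834688) (.mv (.s (.n .e)) (.askF (.n .e) (nat_lit 26388279066624) (.askT (.n (.s .e)) (nat_lit 4386235351040) (.askT (.s .e) (nat_lit 4394825285632) (.askT (.s (.p (.s .e))) (nat_lit 4395899027456) (.ret (nat_lit 1)) (.ret (nat_lit 0))) (.ret (nat_lit 0))) (.ret (nat_lit 0))) (.ret (nat_lit 0)))) (.ret (nat_lit 0))) (.ret (nat_lit 0))) (.ret (nat_lit 0))) (.ret (nat_lit 0))) (.ret (nat_lit 0)))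
def pt276 : Prog := (.askT .e (nat_lit 4394825285632) (.askF (.n .e) (nat_lit 21990232555520) (.askF (.n (.n .e)) (nat_lit 26388279066624) (.askT (.n (.n (.s .e))) (nat_lit 4395899027456) (.cnd (.askT .e (nat_lit 4388382834688) (.askT (.n (.s .e)) (nat_lit 4388382834688) (.askT (.p (.s .e)) (nat_lit 4386235351040) (.ret (nat_lit 1)) (.ret (nat_lit 0))) (.ret (nat_lit 0))) (.ret (nat_lit 0))) (.n (.s .e)) (.askT (.s .e) (nat_lit 4395899027456) (.askT (.s (.p (.s .e))) (nat_lit 4395899027456) (.ret (nat_lit 1)) (.ret (nat_lit 0))) (.ret (nat_lit 0))) (.ret (nat_lit 0))) (.ret (nat_lit 0))) (.ret (nat_lit 0))) (.ret (nat_lit 0))) (.ret (nat_lit 0)))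
def pt282 : Prog := (.askT .e (nat_lit 4345433161728) (.askF .e (nat_lit 21990232555520) (.askF (.n .e) (nat_lit 26388279066624) (.cnd (.askF .e (nat_lit 26388279066624) (.askT (.s .e) (nat_lit 4395899027456) (.askF (.s .e) (nat_lit 21990232555520) (.askT (.s (.p (.s .e))) (nat_lit 3770981285888) (.ret (nat_lit 1)) (.ret (nat_lit 0))) (.ret (nat_lit 0))) (.ret (nat_lit 0))) (.ret (nat_lit 0))) (.n (.n .e)) (.askT (.n (.s .e)) (nat_lit 4388382834688) (.askT (.n (.s (.p (.s .e)))) (nat_lit 4345433161728) (.askT (.p (.p (.s .e))) (nat_lit 4320737099776) (.askT (.p (.p (.s (.n (.s .e))))) (nat_lit 3770981285888) (.askT (.p (.s .e)) (nat_lit 4395899027456) (.askT (.p (.s (.p (.s .e)))) (nat_lit 4395899027456) (.askT (.s .e) (nat_lit 4395899027456) (.askT (.s (.n (.s .e))) (nat_lit 4395899027456) (.askT (.s (.p (.s .e))) (nat_lit 4386235351040) (.ret (nat_lit 1)) (.ret (nat_lit 0))) (.ret (nat_lit 0))) (.ret (nat_lit 0))) (.ret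 (nat_lit 0))) (.ret (nat_lit 0))) (.ret (nat_lit 0))) (.ret (nat_lit 0))) (.ret (nat_lit 0))) (.ret (nat_lit 0))) (.ret (nat_lit 0))) (.ret (nat_lit 0))) (.ret (nat_lit 0))) (.ret (nat_lit 0)))
def pats0 : BT Prog := .nd 0 (.lf (.askT .e TM (.ret 1) (.ret 0))) (.lf (.askF .e FM (.ret 1) (.ret 0)))
def pats : BT Prog := (.nd (nat_lit 142) (.nd (nat_lit 29) (.nd (nat_lit 4) (.nd (nat_lit 2) (.lf pt1) (.lf pt2)) (.nd (nat_lit 20) (.nd (nat_lit 14) (.nd (nat_lit 12) (.nd (nat_lit 7) (.nd (nat_lit 6) (.lf pt3) (.lf (mir pt3))) (.nd (nat_lit 9) (.nd (nat_lit 8) (.lf pt4) (.lf (mir pt4))) (.nd (nat_lit 10) (.lf pt5) (.lf pt6)))) (.nd (nat_lit 13) (.lf (mir pt6)) (.lf pt7))) (.nd (nat_lit 16) (.lf pt8) (.nd (nat_lit 19) (.nd (nat_lit 18) (.lf pt9) (.lf (mir pt9))) (.lf pt10)))) (.nd (nat_lit 28) (.nd (nat_lit 27) (.nd (nat_lit 25) (.nd (nat_lit 24) (.nd (nat_lit 23) (.nd (nat_lit 22) (.lf pt11) (.lf (mir pt11))) (.lf pt12)) (.lf (mir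 pt12))) (.nd (nat_lit 26) (.lf pt13) (.lf (mir pt13)))) (.lf pt14)) (.lf (mir pt14))))) (.nd (nat_lit 46) (.nd (nat_lit 39) (.nd (nat_lit 30) (.lf pt15) (.nd (nat_lit 32) (.nd (nat_lit 31) (.lf (mir pt15)) (.lf pt16)) (.nd (nat_lit 37) (.nd (nat_lit 34) (.lf pt17) (.nd (nat_lit 35) (.lf (mir pt17)) (.nd (nat_lit 36) (.lf pt18) (.lf (mir pt18))))) (.nd (nat_lit 38) (.lf pt19) (.lf (mir pt19)))))) (.nd (nat_lit 42) (.nd (nat_lit 40) (.lf pt20) (.nd (nat_lit 41) (.lf (mir pt20)) (.lf pt21))) (.nd (nat_lit 45) (.nd (nat_lit 43) (.lf (mir pt21)) (.nd (nat_lit 44) (.lf pt22) (.lf (mir pt22)))) (.lf pt23)))) (.nd (nat_lit 91) (.nd (nat_lit 58) (.nd (nat_lit 48) (.nd (nat_lit 47) (.lf (mir pt23)) (.lf pt24)) (.nd (nat_lit 56) (.nd (nat_lit 52) (.nd (nat_lit 49) (.lf (mir pt24)) (.nd (nat_lit 51) (.nd (nat_lit 50) (.lf pt25) (.lf (mir pt25))) (.lf pt26))) (.nd (nat_lit 54) (.lf pt27) (.nd (nat_lit 55) (.lf (mir pt27)) (.lf pt28))))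 (.nd (nat_lit 57) (.lf (mir pt28)) (.lf pt29)))) (.nd (nat_lit 82) (.nd (nat_lit 66) (.nd (nat_lit 62) (.nd (nat_lit 59) (.lf (mir pt29)) (.nd (nat_lit 60) (.lf pt30) (.nd (nat_lit 61) (.lf (mir pt30)) (.lf pt31)))) (.nd (nat_lit 64) (.nd (nat_lit 63) (.lf (mir pt31)) (.lf pt32)) (.nd (nat_lit 65) (.lf (mir pt32)) (.lf pt33)))) (.nd (nat_lit 68) (.nd (nat_lit 67) (.lf (mir pt33)) (.lf pt34)) (.nd (nat_lit 80) (.nd (nat_lit 75) (.nd (nat_lit 71) (.lf (mir pt35)) (.nd (nat_lit 73) (.lf (mir pt36)) (.lf (mir pt37)))) (.nd (nat_lit 77) (.lf (mir pt38)) (.nd (nat_lit 79) (.lf (mir pt39)) (.lf pt40)))) (.lf pt41)))) (.nd (nat_lit 90) (.nd (nat_lit 89) (.nd (nat_lit 88) (.nd (nat_lit 83) (.lf (mir pt41)) (.nd (nat_lit 86) (.nd (nat_lit 84) (.lf pt42) (.lf pt43)) (.nd (nat_lit 87) (.lf (mir pt43)) (.lf pt44)))) (.lf (mir pt44))) (.lf pt45)) (.lf (mir pt45))))) (.nd (nat_lit 117) (.nd (nat_lit 100) (.nd (nat_lit 99) (.nd (nat_lit 93)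 (.nd (nat_lit 92) (.lf pt46) (.lf (mir pt46))) (.nd (nat_lit 94) (.lf pt47) (.nd (nat_lit 95) (.lf (mir pt47)) (.nd (nat_lit 98) (.lf pt49) (.lf (mir pt49)))))) (.lf pt50)) (.nd (nat_lit 101) (.lf (mir pt50)) (.nd (nat_lit 114) (.nd (nat_lit 105) (.nd (nat_lit 103) (.nd (nat_lit 102) (.lf pt51) (.lf (mir pt51))) (.nd (nat_lit 104) (.lf pt52) (.lf (mir pt52)))) (.lf pt57)) (.nd (nat_lit 116) (.lf pt58) (.lf (mir pt58)))))) (.nd (nat_lit 135) (.nd (nat_lit 118) (.lf pt59) (.nd (nat_lit 122) (.nd (nat_lit 119) (.lf (mir pt59)) (.nd (nat_lit 121) (.nd (nat_lit 120) (.lf pt60) (.lf (mir pt60))) (.lf pt61))) (.nd (nat_lit 129) (.nd (nat_lit 126) (.nd (nat_lit 124) (.nd (nat_lit 123) (.lf (mir pt61)) (.lf pt62)) (.nd (nat_lit 125) (.lf (mir pt62)) (.lf pt63))) (.nd (nat_lit 127) (.lf (mir pt63)) (.nd (nat_lit 128) (.lf pt64) (.lf (mir pt64))))) (.nd (nat_lit 131) (.nd (nat_lit 130) (.lf pt65) (.lf (mir pt65))) (.nd (nat_lit 134)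 (.lf pt67) (.lf (mir pt67))))))) (.nd (nat_lit 140) (.nd (nat_lit 139) (.nd (nat_lit 138) (.lf pt69) (.lf (mir pt69))) (.lf pt70)) (.lf pt71))))))) (.nd (nat_lit 304) (.nd (nat_lit 180) (.nd (nat_lit 170) (.nd (nat_lit 164) (.nd (nat_lit 144) (.nd (nat_lit 143) (.lf (mir pt71)) (.lf pt72)) (.nd (nat_lit 154) (.nd (nat_lit 148) (.nd (nat_lit 145) (.lf (mir pt72)) (.nd (nat_lit 146) (.lf pt73) (.nd (nat_lit 147) (.lf (mir pt73)) (.lf pt74)))) (.nd (nat_lit 153) (.nd (nat_lit 150) (.nd (nat_lit 149) (.lf (mir pt74)) (.lf pt75)) (.nd (nat_lit 151) (.lf (mir pt75)) (.nd (nat_lit 152) (.lf pt76) (.lf (mir pt76))))) (.lf pt77))) (.nd (nat_lit 155) (.lf (mir pt77)) (.nd (nat_lit 158) (.lf pt79) (.nd (nat_lit 159) (.lf (mir pt79)) (.lf pt82)))))) (.nd (nat_lit 166) (.lf pt83) (.nd (nat_lit 167) (.lf (mir pt83)) (.lf pt85)))) (.nd (nat_lit 173) (.nd (nat_lit 172) (.lf pt86) (.lf (mir pt86))) (.nd (nat_lit 175) (.nd (nat_lit 174) (.lf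 pt87) (.lf (mir pt87))) (.nd (nat_lit 176) (.lf pt88) (.nd (nat_lit 177) (.lf (mir pt88)) (.nd (nat_lit 178) (.lf pt89) (.nd (nat_lit 179) (.lf (mir pt89)) (.lf pt90)))))))) (.nd (nat_lit 229) (.nd (nat_lit 202) (.nd (nat_lit 192) (.nd (nat_lit 183) (.nd (nat_lit 181) (.lf (mir pt90)) (.nd (nat_lit 182) (.lf pt91) (.lf (mir pt91)))) (.nd (nat_lit 186) (.nd (nat_lit 184) (.lf pt92) (.nd (nat_lit 185) (.lf (mir pt92)) (.lf pt93))) (.nd (nat_lit 188) (.nd (nat_lit 187) (.lf (mir pt93)) (.lf pt94)) (.nd (nat_lit 190) (.nd (nat_lit 189) (.lf (mir pt94)) (.lf pt95)) (.nd (nat_lit 191) (.lf (mir pt95)) (.lf pt96)))))) (.nd (nat_lit 201) (.nd (nat_lit 195) (.nd (nat_lit 193) (.lf (mir pt96)) (.nd (nat_lit 194) (.lf pt97) (.lf (mir pt97)))) (.nd (nat_lit 199) (.nd (nat_lit 196) (.lf pt98) (.nd (nat_lit 197) (.lf (mir pt98)) (.lf (mir pt99)))) (.nd (nat_lit 200) (.lf pt100) (.lf (mir pt100))))) (.lf pt101))) (.nd (nat_lit 210) (.nd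 (nat_lit 204) (.nd (nat_lit 203) (.lf (mir pt101)) (.lf pt102)) (.nd (nat_lit 207) (.nd (nat_lit 205) (.lf (mir pt102)) (.nd (nat_lit 206) (.lf pt103) (.lf (mir pt103)))) (.nd (nat_lit 209) (.lf (mir pt104)) (.lf pt105)))) (.nd (nat_lit 220) (.nd (nat_lit 211) (.lf (mir pt105)) (.nd (nat_lit 213) (.nd (nat_lit 212) (.lf pt106) (.lf (mir pt106))) (.nd (nat_lit 214) (.lf pt107) (.nd (nat_lit 218) (.nd (nat_lit 216) (.nd (nat_lit 215) (.lf (mir pt107)) (.lf pt108)) (.lf pt109)) (.nd (nat_lit 219) (.lf (mir pt109)) (.lf pt110)))))) (.nd (nat_lit 225) (.nd (nat_lit 223) (.nd (nat_lit 221) (.lf (mir pt110)) (.nd (nat_lit 222) (.lf pt111) (.lf (mir pt111)))) (.nd (nat_lit 224) (.lf pt112) (.lf (mir pt112)))) (.nd (nat_lit 226) (.lf pt113) (.nd (nat_lit 228) (.lf pt114) (.lf (mir pt114)))))))) (.nd (nat_lit 278) (.nd (nat_lit 242) (.nd (nat_lit 237) (.nd (nat_lit 235) (.nd (nat_lit 230) (.lf pt115) (.nd (nat_lit 231) (.lf (mir pt115))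 (.nd (nat_lit 234) (.lf pt117) (.lf (mir pt117))))) (.nd (nat_lit 236) (.lf pt118) (.lf (mir pt118)))) (.nd (nat_lit 238) (.lf pt119) (.nd (nat_lit 241) (.nd (nat_lit 240) (.lf pt120) (.lf (mir pt120))) (.lf pt121)))) (.nd (nat_lit 246) (.nd (nat_lit 245) (.nd (nat_lit 243) (.lf (mir pt121)) (.nd (nat_lit 244) (.lf pt122) (.lf (mir pt122)))) (.lf pt123)) (.nd (nat_lit 256) (.nd (nat_lit 248) (.nd (nat_lit 247) (.lf (mir pt123)) (.lf pt124)) (.nd (nat_lit 252) (.nd (nat_lit 250) (.nd (nat_lit 249) (.lf (mir pt124)) (.lf pt125)) (.nd (nat_lit 251) (.lf (mir pt125)) (.lf pt126))) (.nd (nat_lit 254) (.nd (nat_lit 253) (.lf (mir pt126)) (.lf pt127)) (.nd (nat_lit 255) (.lf (mir pt127)) (.lf pt128))))) (.nd (nat_lit 261) (.nd (nat_lit 258) (.nd (nat_lit 257) (.lf (mir pt128)) (.lf pt129)) (.nd (nat_lit 259) (.lf (mir pt129)) (.lf (mir pt130)))) (.nd (nat_lit 269) (.nd (nat_lit 266) (.nd (nat_lit 263) (.lf (mir pt131)) (.lf pt133))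 (.nd (nat_lit 267) (.lf (mir pt133)) (.nd (nat_lit 268) (.lf pt134) (.lf (mir pt134))))) (.nd (nat_lit 273) (.nd (nat_lit 272) (.lf pt136) (.lf (mir pt136))) (.nd (nat_lit 276) (.nd (nat_lit 274) (.lf pt137) (.lf pt138)) (.nd (nat_lit 277) (.lf (mir pt138)) (.lf pt139))))))))) (.nd (nat_lit 301) (.nd (nat_lit 280) (.lf pt140) (.nd (nat_lit 286) (.nd (nat_lit 281) (.lf (mir pt140)) (.nd (nat_lit 284) (.nd (nat_lit 283) (.nd (nat_lit 282) (.lf pt141) (.lf (mir pt141))) (.lf pt142)) (.nd (nat_lit 285) (.lf (mir pt142)) (.lf pt143)))) (.nd (nat_lit 296) (.nd (nat_lit 292) (.nd (nat_lit 289) (.nd (nat_lit 288) (.lf pt144) (.lf (mir pt144))) (.nd (nat_lit 290) (.lf pt145) (.nd (nat_lit 291) (.lf (mir pt145)) (.lf pt146)))) (.nd (nat_lit 294) (.nd (nat_lit 293) (.lf (mir pt146)) (.lf pt147)) (.nd (nat_lit 295) (.lf (mir pt147)) (.lf pt148)))) (.nd (nat_lit 299) (.nd (nat_lit 297) (.lf (mir pt148)) (.nd (nat_lit 298) (.lf pt149) (.lf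 (mir pt149)))) (.nd (nat_lit 300) (.lf pt150) (.lf (mir pt150))))))) (.nd (nat_lit 302) (.lf pt151) (.lf pt152)))))) (.nd (nat_lit 373) (.nd (nat_lit 332) (.nd (nat_lit 314) (.nd (nat_lit 307) (.nd (nat_lit 306) (.lf pt153) (.lf (mir pt153))) (.nd (nat_lit 312) (.nd (nat_lit 311) (.nd (nat_lit 310) (.lf pt155) (.lf (mir pt155))) (.lf pt156)) (.lf pt157))) (.nd (nat_lit 317) (.nd (nat_lit 315) (.lf (mir pt157)) (.nd (nat_lit 316) (.lf pt158) (.lf (mir pt158)))) (.nd (nat_lit 318) (.lf pt159) (.nd (nat_lit 324) (.nd (nat_lit 322) (.nd (nat_lit 320) (.lf pt160) (.nd (nat_lit 321) (.lf (mir pt160)) (.lf pt161))) (.nd (nat_lit 323) (.lf (mir pt161)) (.lf pt162))) (.nd (nat_lit 326) (.lf pt163) (.nd (nat_lit 330) (.lf pt165) (.lf pt166))))))) (.nd (nat_lit 348) (.nd (nat_lit 343) (.nd (nat_lit 341) (.nd (nat_lit 339) (.nd (nat_lit 338) (.nd (nat_lit 336) (.nd (nat_lit 334) (.lf pt167) (.nd (nat_lit 335) (.lf (mir pt167)) (.lf pt168)))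 (.lf pt169)) (.lf (mir pt169))) (.nd (nat_lit 340) (.lf pt170) (.lf (mir pt170)))) (.nd (nat_lit 342) (.lf pt171) (.lf (mir pt171)))) (.nd (nat_lit 344) (.lf pt172) (.nd (nat_lit 347) (.nd (nat_lit 346) (.lf pt173) (.lf (mir pt173))) (.lf pt174)))) (.nd (nat_lit 352) (.nd (nat_lit 351) (.nd (nat_lit 349) (.lf (mir pt174)) (.nd (nat_lit 350) (.lf pt175) (.lf (mir pt175)))) (.lf pt176)) (.nd (nat_lit 355) (.nd (nat_lit 353) (.lf (mir pt176)) (.nd (nat_lit 354) (.lf pt177) (.lf (mir pt177)))) (.nd (nat_lit 362) (.nd (nat_lit 357) (.nd (nat_lit 356) (.lf pt178) (.lf (mir pt178))) (.nd (nat_lit 361) (.nd (nat_lit 359) (.lf (mir pt179)) (.lf (mir pt180))) (.lf pt181))) (.nd (nat_lit 368) (.nd (nat_lit 363) (.lf (mir pt181)) (.nd (nat_lit 365) (.nd (nat_lit 364) (.lf pt182) (.lf (mir pt182))) (.nd (nat_lit 366) (.lf pt183) (.lf pt184)))) (.nd (nat_lit 371) (.nd (nat_lit 370) (.lf pt185) (.lf (mir pt185))) (.nd (nat_lit 372) (.lf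 pt186) (.lf (mir pt186)))))))))) (.nd (nat_lit 454) (.nd (nat_lit 399) (.nd (nat_lit 394) (.nd (nat_lit 391) (.nd (nat_lit 379) (.nd (nat_lit 378) (.nd (nat_lit 377) (.nd (nat_lit 374) (.lf pt187) (.nd (nat_lit 375) (.lf (mir pt187)) (.nd (nat_lit 376) (.lf pt188) (.lf (mir pt188))))) (.lf pt189)) (.lf (mir pt189))) (.nd (nat_lit 380) (.lf pt190) (.nd (nat_lit 388) (.nd (nat_lit 382) (.nd (nat_lit 381) (.lf (mir pt190)) (.lf pt191)) (.nd (nat_lit 387) (.nd (nat_lit 383) (.lf (mir pt191)) (.nd (nat_lit 386) (.lf pt193) (.lf (mir pt193)))) (.lf pt194))) (.nd (nat_lit 389) (.lf (mir pt194)) (.nd (nat_lit 390) (.lf pt195) (.lf (mir pt195))))))) (.nd (nat_lit 393) (.nd (nat_lit 392) (.lf pt196) (.lf (mir pt196))) (.lf pt197))) (.nd (nat_lit 396) (.nd (nat_lit 395) (.lf (mir pt197)) (.lf pt198)) (.nd (nat_lit 397) (.lf (mir pt198)) (.nd (nat_lit 398) (.lf pt199) (.lf (mir pt199)))))) (.nd (nat_lit 421) (.nd (nat_lit 414) (.nd (nat_lit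 412) (.nd (nat_lit 404) (.nd (nat_lit 403) (.nd (nat_lit 402) (.nd (nat_lit 400) (.lf pt200) (.lf pt201)) (.lf (mir pt201))) (.lf pt202)) (.nd (nat_lit 405) (.lf (mir pt202)) (.nd (nat_lit 407) (.lf (mir pt203)) (.lf pt206)))) (.nd (nat_lit 413) (.lf (mir pt206)) (.lf pt207))) (.nd (nat_lit 417) (.nd (nat_lit 416) (.lf pt208) (.lf (mir pt208))) (.nd (nat_lit 419) (.nd (nat_lit 418) (.lf pt209) (.lf (mir pt209))) (.nd (nat_lit 420) (.lf pt210) (.lf (mir pt210)))))) (.nd (nat_lit 431) (.nd (nat_lit 424) (.nd (nat_lit 423) (.nd (nat_lit 422) (.lf pt211) (.lf (mir pt211))) (.lf pt212)) (.nd (nat_lit 425) (.lf (mir pt212)) (.nd (nat_lit 430) (.nd (nat_lit 429) (.lf (mir pt214)) (.lf pt215)) (.lf (mir pt215))))) (.nd (nat_lit 446) (.nd (nat_lit 443) (.nd (nat_lit 434) (.nd (nat_lit 432) (.lf pt216) (.lf pt217)) (.nd (nat_lit 435) (.lf (mir pt217)) (.nd (nat_lit 437) (.lf (mir pt218)) (.nd (nat_lit 441) (.lf (mir pt220)) (.lf (mir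 pt221)))))) (.nd (nat_lit 444) (.lf pt222) (.nd (nat_lit 445) (.lf (mir pt222)) (.lf pt223)))) (.nd (nat_lit 449) (.nd (nat_lit 448) (.nd (nat_lit 447) (.lf (mir pt223)) (.lf pt224)) (.lf (mir pt224))) (.nd (nat_lit 450) (.lf pt225) (.nd (nat_lit 451) (.lf (mir pt225)) (.nd (nat_lit 453) (.nd (nat_lit 452) (.lf pt226) (.lf (mir pt226))) (.lf pt227))))))))) (.nd (nat_lit 501) (.nd (nat_lit 475) (.nd (nat_lit 457) (.nd (nat_lit 456) (.nd (nat_lit 455) (.lf (mir pt227)) (.lf pt228)) (.lf (mir pt228))) (.nd (nat_lit 472) (.nd (nat_lit 461) (.nd (nat_lit 459) (.nd (nat_lit 458) (.lf pt229) (.lf (mir pt229))) (.nd (nat_lit 460) (.lf pt230) (.lf (mir pt230)))) (.nd (nat_lit 471) (.nd (nat_lit 465) (.lf (mir pt232)) (.lf (mir pt235))) (.lf pt236))) (.nd (nat_lit 473) (.lf (mir pt236)) (.nd (nat_lit 474) (.lf pt237) (.lf (mir pt237)))))) (.nd (nat_lit 494) (.nd (nat_lit 490) (.nd (nat_lit 485) (.nd (nat_lit 484) (.nd (nat_lit 483)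 (.nd (nat_lit 476) (.lf pt238) (.nd (nat_lit 482) (.lf pt241) (.lf (mir pt241)))) (.lf pt242)) (.lf (mir pt242))) (.nd (nat_lit 488) (.lf pt244) (.nd (nat_lit 489) (.lf (mir pt244)) (.lf pt245)))) (.nd (nat_lit 493) (.nd (nat_lit 491) (.lf (mir pt245)) (.nd (nat_lit 492) (.lf pt246) (.lf (mir pt246)))) (.lf pt247))) (.nd (nat_lit 498) (.nd (nat_lit 497) (.nd (nat_lit 496) (.nd (nat_lit 495) (.lf (mir pt247)) (.lf pt248)) (.lf (mir pt248))) (.lf pt249)) (.nd (nat_lit 499) (.lf (mir pt249)) (.lf (mir pt250)))))) (.nd (nat_lit 542) (.nd (nat_lit 516) (.nd (nat_lit 508) (.nd (nat_lit 503) (.nd (nat_lit 502) (.lf pt251) (.lf (mir pt251))) (.nd (nat_lit 507) (.nd (nat_lit 504) (.lf pt252) (.nd (nat_lit 505) (.lf (mir pt252)) (.nd (nat_lit 506) (.lf pt253) (.lf (mir pt253))))) (.lf pt254))) (.nd (nat_lit 512) (.nd (nat_lit 510) (.nd (nat_lit 509) (.lf (mir pt254)) (.lf pt255)) (.nd (nat_lit 511) (.lf (mir pt255)) (.lf pt256))) (.nd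 (nat_lit 514) (.nd (nat_lit 513) (.lf (mir pt256)) (.lf pt257)) (.nd (nat_lit 515) (.lf (mir pt257)) (.lf pt258))))) (.nd (nat_lit 522) (.nd (nat_lit 518) (.nd (nat_lit 517) (.lf (mir pt258)) (.lf pt259)) (.nd (nat_lit 519) (.lf (mir pt259)) (.nd (nat_lit 521) (.nd (nat_lit 520) (.lf pt260) (.lf (mir pt260))) (.lf pt261)))) (.nd (nat_lit 540) (.nd (nat_lit 529) (.nd (nat_lit 525) (.nd (nat_lit 523) (.lf (mir pt261)) (.nd (nat_lit 524) (.lf pt262) (.lf (mir pt262)))) (.nd (nat_lit 528) (.lf pt264) (.lf (mir pt264)))) (.nd (nat_lit 537) (.nd (nat_lit 536) (.lf pt268) (.lf (mir pt268))) (.nd (nat_lit 538) (.lf pt269) (.nd (nat_lit 539) (.lf (mir pt269)) (.lf pt270))))) (.lf pt271)))) (.nd (nat_lit 552) (.nd (nat_lit 550) (.nd (nat_lit 544) (.nd (nat_lit 543) (.lf (mir pt271)) (.lf pt272)) (.nd (nat_lit 548) (.nd (nat_lit 545) (.lf (mir pt272)) (.lf pt274)) (.nd (nat_lit 549) (.lf (mir pt274)) (.lf pt275)))) (.nd (nat_lit 551)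 (.lf (mir pt275)) (.lf pt276))) (.nd (nat_lit 553) (.lf (mir pt276)) (.nd (nat_lit 564) (.lf pt282) (.lf (mir pt282)))))))))))

end

end Pool.Agent.Lib.MP_bfaad3_co
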