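import Pool.Agent.Lib.MP_bfaad3_co.Defs

set_option autoImplicit false

namespace Pool.Agent.Lib.MP_bfaad3_co

open Equiv

section PermAux

/-- a setoid with the classes of `x` and `y` merged -/
def perm_mrg {D : Type*} (r : Setoid D) (x y : D) : Setoid D where
  r u v := r u v ∨ (r u x ∧ r v y) ∨ (r u y ∧ r v x)
  iseqv := by
    refine ⟨fun u => Or.inl (r.refl' u), ?_, ?_⟩
    · rintro u v (h | ⟨h1, h2⟩ | ⟨h1, h2⟩)
      · exact Or.inl (r.symm' h)
      · exact Or.inr (Or.inr ⟨h2, h1⟩)
      · exact Or.inr (Or.inl ⟨h2, h1⟩)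
    · rintro u v w (h | ⟨h1, h2⟩ | ⟨h1, h2⟩) (k | ⟨k1, k2⟩ | ⟨k1, k2⟩)
      · exact Or.inl (r.trans' h k)
      · exact Or.inr (Or.inl ⟨r.trans' h k1, k2⟩)
      · exact Or.inr (Or.inr ⟨r.trans' h k1, k2⟩)
      · exact Or.inr (Or.inl ⟨h1, r.trans' (r.symm' k) h2⟩)
      · exact Or.inr (Or.inl ⟨h1, k2⟩)
      · exact Or.inl (r.trans' h1 (r.symm' k2))
      · exact Or.inr (Or.inr ⟨h1, r.trans' (r.symm' k) h2⟩)
      · exact Or.inl (r.trans' h1 (r.symm' k2))
      · exact Or.inr (Or.inr ⟨h1, k2⟩)

theorem perm_mrg_iff {D : Type*} (r : Setoid D) (x y u v : D) :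
    perm_mrg r x y u v ↔ r u v ∨ (r u x ∧ r v y) ∨ (r u y ∧ r v x) := Iff.rfl

theorem perm_mrg_of {D : Type*} {r : Setoid D} (x y : D) {u v : D} (h : r u v) :
    perm_mrg r x y u v := Or.inl h

theorem perm_mrg_swap {D : Type*} [DecidableEq D] (r : Setoid D) (x y u : D) :
    perm_mrg r x y u (swap x y u) := by
  by_cases h1 : u = x
  · subst h1
    rw [swap_apply_left]
    exact Or.inr (Or.inl ⟨r.refl' _, r.refl' _⟩)
  by_cases h2 : u = y
  · subst h2
    rw [swap_apply_right]
    exact Or.inr (Or.inr ⟨r.refl' _, r.refl' _⟩)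
  rw [swap_apply_of_ne_of_ne h1 h2]

theorem perm_mrg_le {D : Type*} {r : Setoid D} {x y : D} (hxy : r x y) {u v : D}
    (h : perm_mrg r x y u v) : r u v := by
  rcases h with h | ⟨h1, h2⟩ | ⟨h1, h2⟩
  · exact h
  · exact r.trans' h1 (r.trans' hxy (r.symm' h2))
  · exact r.trans' h1 (r.trans' (r.symm' hxy) (r.symm' h2))

theorem perm_card_le_map {D E : Type*} [Finite D] (f : D → E) (hf : Function.Surjective f)
    {r : Setoid D} {s : Setoid E} (h : ∀ u v, r u v → s (f u) (f v)) :
    Nat.card (Quotient s) ≤ Nat.card (Quotient r) := by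
  refine Nat.card_le_card_of_surjective (Quotient.map (sa := r) (sb := s) f h) fun q => ?_
  obtain ⟨d, rfl⟩ := Quotient.exists_rep q
  obtain ⟨c, rfl⟩ := hf d
  exact ⟨Quotient.mk r c, rfl⟩

theorem perm_card_le {D : Type*} [Finite D] {r s : Setoid D} (h : ∀ u v, r u v → s u v) :
    Nat.card (Quotient s) ≤ Nat.card (Quotient r) :=
  perm_card_le_map id Function.surjective_id h

open Classical in
/-- comparison map between the classes of `r` and those of the merged setoid -/
noncomputable def perm_opt {D : Type*} (r : Setoid D) (x y : D) (q : Quotient r) :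
    Option (Quotient (perm_mrg r x y)) :=
  if q = Quotient.mk r y then none
  else some (Quotient.map (sa := r) (sb := perm_mrg r x y) id (fun _ _ h => Or.inl h) q)

theorem perm_opt_inj {D : Type*} (r : Setoid D) (x y : D) :
    Function.Injective (perm_opt r x y) := by
  intro p q h
  obtain ⟨u, rfl⟩ := Quotient.exists_rep p
  obtain ⟨v, rfl⟩ := Quotient.exists_rep q
  unfold perm_opt at h
  split_ifs at h with h1 h2 h2
  · rw [h1, h2]
  · have h3 : perm_mrg r x y u v := Quotient.exact (Option.some.inj h)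
    rcases h3 with k | ⟨_, k⟩ | ⟨k, _⟩
    · exact Quotient.sound k
    · exact absurd (Quotient.sound k) h2
    · exact absurd (Quotient.sound k) h1

theorem perm_card_le_succ {D : Type*} [Finite D] (r : Setoid D) (x y : D) :
    Nat.card (Quotient r) ≤ Nat.card (Quotient (perm_mrg r x y)) + 1 := by
  have := Nat.card_le_card_of_injective _ (perm_opt_inj r x y)
  rwa [Finite.card_option] at this

theorem perm_card_eq_succ {D : Type*} [Finite D] (r : Setoid D) (x y : D) (hxy : ¬ r x y) :
    Nat.card (Quotient r) = Nat.card (Quotient (perm_mrg r x y)) + 1 := by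
  rw [← Finite.card_option]
  refine Nat.card_eq_of_bijective _ ⟨perm_opt_inj r x y, ?_⟩
  rintro (_ | q)
  · exact ⟨Quotient.mk r y, by simp [perm_opt]⟩
  · obtain ⟨u, rfl⟩ := Quotient.exists_rep q
    by_cases hu : r u y
    · refine ⟨Quotient.mk r x, ?_⟩
      have h1 : Quotient.mk r x ≠ Quotient.mk r y := fun h => hxy (Quotient.exact h)
      unfold perm_opt
      rw [if_neg h1]
      exact congrArg some (Quotient.sound (Or.inr (Or.inl ⟨r.refl' x, hu⟩)))
    · refine ⟨Quotient.mk r u, ?_⟩
      have h1 : Quotient.mk r u ≠ Quotient.mk r y := fun h => hu (Quotient.exact h)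
      unfold perm_opt
      rw [if_neg h1]
      rfl

theorem perm_card_add {D : Type*} [Finite D] (r : Setoid D) (p : D → Prop)
    (hp : ∀ u v, r u v → (p u ↔ p v)) (r1 : Setoid {d // p d}) (r2 : Setoid {d // ¬ p d})
    (h1 : ∀ u v, r1 u v ↔ r u.1 v.1) (h2 : ∀ u v, r2 u v ↔ r u.1 v.1) :
    Nat.card (Quotient r) = Nat.card (Quotient r1) + Nat.card (Quotient r2) := by
  rw [← Nat.card_sum]
  symm
  refine Nat.card_eq_of_bijective
    (Sum.elim (Quotient.map (sa := r1) (sb := r) Subtype.val fun u v h => (h1 u v).1 h)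
      (Quotient.map (sa := r2) (sb := r) Subtype.val fun u v h => (h2 u v).1 h)) ⟨?_, ?_⟩
  · rintro (s | s) (t | t) h
    · obtain ⟨u, rfl⟩ := Quotient.exists_rep s
      obtain ⟨v, rfl⟩ := Quotient.exists_rep t
      exact congrArg Sum.inl (Quotient.sound ((h1 u v).2 (Quotient.exact h)))
    · obtain ⟨u, rfl⟩ := Quotient.exists_rep s
      obtain ⟨v, rfl⟩ := Quotient.exists_rep t
      exact absurd ((hp _ _ (Quotient.exact h)).1 u.2) v.2
    · obtain ⟨u, rfl⟩ := Quotient.exists_rep s
      obtain ⟨v, rfl⟩ := Quotient.exists_rep t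
      exact absurd ((hp _ _ (Quotient.exact h)).2 v.2) u.2
    · obtain ⟨u, rfl⟩ := Quotient.exists_rep s
      obtain ⟨v, rfl⟩ := Quotient.exists_rep t
      exact congrArg Sum.inr (Quotient.sound ((h2 u v).2 (Quotient.exact h)))
  · intro q
    obtain ⟨u, rfl⟩ := Quotient.exists_rep q
    by_cases hu : p u
    · exact ⟨Sum.inl (Quotient.mk r1 ⟨u, hu⟩), rfl⟩
    · exact ⟨Sum.inr (Quotient.mk r2 ⟨u, hu⟩), rfl⟩

theorem perm_pow_step {D : Type*} (c : Perm D) (n : ℕ) (u : D) :
    (c ^ (n + 1)) u = c ((c ^ n) u) := by rw [pow_succ']; rfl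

theorem perm_sc_step {D : Type*} (c : Perm D) (u : D) : c.SameCycle u (c u) :=
  ⟨1, by simp⟩

theorem perm_sc_le {D : Type*} [Finite D] {s : Setoid D} {c : Perm D} (h : ∀ u, s u (c u))
    {u v : D} (huv : c.SameCycle u v) : s u v := by
  obtain ⟨n, rfl⟩ := huv.exists_nat_pow_eq
  clear huv
  induction n with
  | zero => exact s.refl' u
  | succ n ih =>
    rw [perm_pow_step]
    exact s.trans' ih (h _)

theorem perm_conn_le {D : Type*} {s : Setoid D} {a b : Perm D} (ha : ∀ u, s u (a u))
    (hb : ∀ u, s u (b u)) {u v : D} (huv : conn a b u v) : s u v := by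
  induction huv with
  | rel x y h =>
    rcases h with rfl | rfl
    · exact ha x
    · exact hb x
  | refl x => exact s.refl' x
  | symm x y _ ih => exact s.symm' ih
  | trans x y z _ _ ih1 ih2 => exact s.trans' ih1 ih2

theorem perm_conn_a {D : Type*} (a b : Perm D) (u : D) : conn a b u (a u) :=
  Relation.EqvGen.rel _ _ (Or.inl rfl)

theorem perm_conn_b {D : Type*} (a b : Perm D) (u : D) : conn a b u (b u) :=
  Relation.EqvGen.rel _ _ (Or.inr rfl)

theorem perm_conn_ab {D : Type*} (a b : Perm D) (u : D) : conn a b u ((a * b) u) :=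
  (conn a b).trans' (perm_conn_b a b u) (perm_conn_a a b (b u))

theorem perm_comp_step {D : Type*} [Finite D] {a b a' b' : Perm D} (x y : D)
    (ha : ∀ u, perm_mrg (conn a' b') x y u (a u)) (hb : ∀ u, perm_mrg (conn a' b') x y u (b u)) :
    comp a' b' ≤ comp a b + 1 ∧ (conn a' b' x y → comp a' b' ≤ comp a b) := by
  refine ⟨?_, fun h => perm_card_le fun u v huv => perm_mrg_le h (perm_conn_le ha hb huv)⟩
  have h1 := perm_card_le_succ (conn a' b') x y
  have h2 : Nat.card (Quotient (perm_mrg (conn a' b') x y)) ≤ comp a b :=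
    perm_card_le fun u v huv => perm_conn_le ha hb huv
  unfold comp at *
  omega

theorem perm_cyc_le_card {D : Type*} [Finite D] (a : Perm D) : cyc a ≤ Nat.card D :=
  Nat.card_le_card_of_surjective _ (Quotient.mk_surjective (s := Perm.SameCycle.setoid a))

end PermAux

section PERM
variable {D : Type*} [Finite D] [DecidableEq D]

theorem perm_sc_swap (a : Perm D) (x y : D) (h : ¬ a.SameCycle x y) :
    (a * swap x y).SameCycle x y := by
  by_contra hc
  have key : ∀ k : ℕ, (a * swap x y).SameCycle x ((a ^ k) (a y)) := by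
    intro k
    induction k with
    | zero =>
      have := perm_sc_step (a * swap x y) x
      simpa using this
    | succ k ih =>
      have h1 : (a ^ k) (a y) ≠ x := by
        intro e
        apply h
        refine Perm.SameCycle.symm ⟨((k + 1 : ℕ) : ℤ), ?_⟩
        rw [zpow_natCast, pow_succ]
        exact e
      have h2 : (a ^ k) (a y) ≠ y := fun e => hc (by rwa [e] at ih)
      have h3 := perm_sc_step (a * swap x y) ((a ^ k) (a y))
      rw [Perm.mul_apply, swap_apply_of_ne_of_ne h1 h2, ← perm_pow_step] at h3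
      exact ih.trans h3
  obtain ⟨n, hn⟩ := (perm_sc_step a y).symm.exists_nat_pow_eq
  have k := key n
  rw [hn] at k
  exact hc k

theorem sameCycle_swap_diff (a : Perm D) (x y : D) (h : ¬ a.SameCycle x y) (u v : D) :
    (a * swap x y).SameCycle u v ↔ a.SameCycle u v ∨ (a.SameCycle u x ∧ a.SameCycle v y) ∨
      (a.SameCycle u y ∧ a.SameCycle v x) := by
  constructor
  · intro huv
    refine perm_sc_le (s := perm_mrg (Perm.SameCycle.setoid a) x y) (fun w => ?_) huv
    exact (perm_mrg _ x y).trans' (perm_mrg_swap _ x y w) (Or.inl (perm_sc_step a _))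
  · have hxy := perm_sc_swap a x y h
    have step : ∀ w, (Perm.SameCycle.setoid (a * swap x y)) w (a w) := by
      intro w
      have h1 : (Perm.SameCycle.setoid (a * swap x y)) w (swap x y w) :=
        perm_mrg_le (r := Perm.SameCycle.setoid (a * swap x y)) hxy (perm_mrg_swap _ x y w)
      have h2 := perm_sc_step (a * swap x y) (swap x y w)
      rw [Perm.mul_apply, swap_apply_self] at h2
      exact Perm.SameCycle.trans h1 h2
    have le : ∀ {s t : D}, a.SameCycle s t → (a * swap x y).SameCycle s t :=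
      fun hst => perm_sc_le step hst
    rintro (k | ⟨k1, k2⟩ | ⟨k1, k2⟩)
    · exact le k
    · exact (le k1).trans (hxy.trans (le k2).symm)
    · exact (le k1).trans (hxy.symm.trans (le k2).symm)

theorem cyc_swap_diff (a : Perm D) (x y : D) (h : ¬ a.SameCycle x y) :
    cyc (a * swap x y) + 1 = cyc a := by
  have e : Perm.SameCycle.setoid (a * swap x y) = perm_mrg (Perm.SameCycle.setoid a) x y :=
    Setoid.ext fun u v => sameCycle_swap_diff a x y h u v
  unfold cyc
  rw [e]
  exact (perm_card_eq_succ _ x y h).symm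

theorem perm_not_sc_swap (a : Perm D) (x y : D) (hxy : x ≠ y) (h : a.SameCycle x y) :
    ¬ (a * swap x y).SameCycle x y := by
  have hex : ∃ m : ℕ, (a ^ m) y = x := h.symm.exists_nat_pow_eq
  classical
  obtain ⟨m, hm, hmin⟩ : ∃ m : ℕ, (a ^ m) y = x ∧ ∀ k, k < m → (a ^ k) y ≠ x :=
    ⟨Nat.find hex, Nat.find_spec hex, fun k hk => Nat.find_min hex hk⟩
  have hm0 : 1 ≤ m := by
    rcases Nat.eq_zero_or_pos m with rfl | h0
    · exact absurd hm.symm hxy
    · exact h0
  have hy : ∀ k, 1 ≤ k → k ≤ m → (a ^ k) y ≠ y := by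
    intro k hk1 hk2 e
    apply hmin (m - k) (by omega)
    have : (a ^ (m - k)) ((a ^ k) y) = x := by
      rw [← Perm.mul_apply, ← pow_add, Nat.sub_add_cancel hk2, hm]
    rwa [e] at this
  have key : ∀ n : ℕ, ∃ k, 1 ≤ k ∧ k ≤ m ∧ ((a * swap x y) ^ n) x = (a ^ k) y := by
    intro n
    induction n with
    | zero => exact ⟨m, hm0, le_rfl, hm.symm⟩
    | succ n ih =>
      obtain ⟨k, hk1, hk2, hk⟩ := ih
      rw [perm_pow_step, hk, Perm.mul_apply]
      rcases eq_or_lt_of_le hk2 with rfl | hlt
      · exact ⟨1, le_rfl, hk1, by rw [hm, swap_apply_left, pow_one]⟩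
      · refine ⟨k + 1, by omega, hlt, ?_⟩
        rw [swap_apply_of_ne_of_ne (hmin k hlt) (hy k hk1 hk2), perm_pow_step]
  intro hs
  obtain ⟨n, hn⟩ := hs.exists_nat_pow_eq
  obtain ⟨k, hk1, hk2, hk⟩ := key n
  exact hy k hk1 hk2 (hk.symm.trans hn)

theorem cyc_swap_same (a : Perm D) (x y : D) (hxy : x ≠ y) (h : a.SameCycle x y) :
    cyc (a * swap x y) = cyc a + 1 := by
  have := cyc_swap_diff (a * swap x y) x y (perm_not_sc_swap a x y hxy h)
  rw [mul_assoc, swap_mul_self, mul_one] at this
  exact this.symm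

omit [DecidableEq D] in
theorem cyc_inv (a : Perm D) : cyc a⁻¹ = cyc a := by
  have e : Perm.SameCycle.setoid a⁻¹ = Perm.SameCycle.setoid a :=
    Setoid.ext fun u v => Perm.sameCycle_inv
  unfold cyc
  rw [e]

omit [DecidableEq D] in
theorem perm_cyc_comm_le (a b : Perm D) : cyc (a * b) ≤ cyc (b * a) := by
  refine perm_card_le_map a a.surjective fun u v huv => ?_
  refine perm_sc_le (s := Setoid.comap a (Perm.SameCycle.setoid (a * b))) (fun w => ?_) huv
  exact perm_sc_step (a * b) (a w)

omit [DecidableEq D] in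
theorem cyc_mul_comm (a b : Perm D) : cyc (a * b) = cyc (b * a) :=
  le_antisymm (perm_cyc_comm_le a b) (perm_cyc_comm_le b a)

theorem perm_sc_swap' (a : Perm D) (x y : D) (h : ¬ a.SameCycle x y) :
    (swap x y * a).SameCycle x y := by
  by_contra hc
  have h1 := cyc_swap_diff _ x y hc
  have h2 := cyc_swap_diff _ x y h
  rw [cyc_mul_comm, ← mul_assoc, swap_mul_self, one_mul, cyc_mul_comm] at h1
  omega

omit [DecidableEq D] in
theorem euler_le (a b : Perm D) :
    cyc a + cyc b + cyc (a * b) ≤ Nat.card D + 2 * comp a b := by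
  classical
  induction hn : Nat.card D - cyc b using Nat.strong_induction_on generalizing b with
  | _ n ih =>
    by_cases hb : b = 1
    · subst hb
      have h1 := perm_cyc_le_card (1 : Perm D)
      have h2 : cyc a ≤ comp a 1 :=
        perm_card_le fun u v huv => perm_conn_le (s := Perm.SameCycle.setoid a)
          (perm_sc_step a) (fun w => Perm.SameCycle.refl a w) huv
      rw [mul_one]
      omega
    · obtain ⟨y, hy⟩ : ∃ y, b y ≠ y := by
        by_contra hc
        push Not at hc
        exact hb (Equiv.ext hc)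
      have h1 := cyc_swap_same b (b y) y hy (perm_sc_step b y).symm
      have h2 := perm_cyc_le_card (b * swap (b y) y)
      have h3 := ih _ (by omega) (b * swap (b y) y) rfl
      obtain ⟨h4, h5⟩ := perm_comp_step (a := a) (b := b) (a' := a) (b' := b * swap (b y) y)
        (b y) y (fun u => Or.inl (perm_conn_a _ _ u)) (fun u => by
          have k := perm_conn_b a (b * swap (b y) y) (swap (b y) y u)
          rw [Perm.mul_apply, swap_apply_self] at k
          exact (perm_mrg _ _ _).trans' (perm_mrg_swap _ _ _ u) (Or.inl k))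
      by_cases hs : (a * b).SameCycle (b y) y
      · have h6 := cyc_swap_same _ _ _ hy hs
        rw [mul_assoc] at h6
        omega
      · have h6 := cyc_swap_diff _ _ _ hs
        have h7 := perm_sc_swap _ _ _ hs
        rw [mul_assoc] at h6 h7
        have h8 := h5 (perm_sc_le (perm_conn_ab _ _) h7)
        omega

theorem gen0_split (a b : Perm D) (h : Gen0 a b) (x y : D) (hs : a.SameCycle x y) :
    Gen0 (a * swap x y) b := by
  by_cases hxy : x = y
  · subst hxy
    rw [swap_self]
    exact h
  have h1 := cyc_swap_same a x y hxy hs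
  obtain ⟨h4, h5⟩ := perm_comp_step (a := a) (b := b) (a' := a * swap x y) (b' := b) x y
    (fun u => by
      have k := perm_conn_a (a * swap x y) b (swap x y u)
      rw [Perm.mul_apply, swap_apply_self] at k
      exact (perm_mrg _ _ _).trans' (perm_mrg_swap _ _ _ u) (Or.inl k))
    (fun u => Or.inl (perm_conn_b _ _ u))
  have e : cyc (a * swap x y * b) = cyc (b * a * swap x y) := by
    rw [cyc_mul_comm, mul_assoc]
  have e' := cyc_mul_comm a b
  unfold Gen0 at h ⊢
  by_cases hc : (b * a).SameCycle x y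
  · have h6 := cyc_swap_same _ _ _ hxy hc
    omega
  · have h6 := cyc_swap_diff _ _ _ hc
    have h7 := perm_sc_swap _ _ _ hc
    rw [mul_assoc] at h7
    have h8 := h5 (perm_sc_le (s := conn (a * swap x y) b) (fun u =>
      (conn _ _).trans' (perm_conn_a _ _ u) (perm_conn_b _ _ _)) h7)
    omega

theorem gen0_face (a b : Perm D) (h : Gen0 a b) (x y : D) (hs : (a * b).SameCycle x y) :
    Gen0 (swap x y * a) b := by
  by_cases hxy : x = y
  · subst hxy
    rw [swap_self]
    exact h
  have h1 := cyc_swap_same _ x y hxy hs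
  obtain ⟨h4, h5⟩ := perm_comp_step (a := a) (b := b) (a' := swap x y * a) (b' := b) x y
    (fun u => by
      have k := perm_conn_a (swap x y * a) b u
      have k' := perm_mrg_swap (conn (swap x y * a) b) x y ((swap x y * a) u)
      rw [Perm.mul_apply, swap_apply_self] at k'
      exact (perm_mrg _ _ _).trans' (Or.inl k) k')
    (fun u => Or.inl (perm_conn_b _ _ u))
  have e : cyc (swap x y * a * b) = cyc (a * b * swap x y) := by
    rw [mul_assoc, cyc_mul_comm]
  have e' := cyc_mul_comm (swap x y) a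
  unfold Gen0 at h ⊢
  by_cases hc : a.SameCycle x y
  · have h6 := cyc_swap_same _ _ _ hxy hc
    omega
  · have h6 := cyc_swap_diff _ _ _ hc
    have h8 := h5 (perm_sc_le (perm_conn_a _ _) (perm_sc_swap' _ _ _ hc))
    omega

theorem gen0_move (a b : Perm D) (h : Gen0 a b) (x y : D) (hs : b.SameCycle x y) :
    Gen0 (a * swap x y) (swap x y * b) := by
  by_cases hxy : x = y
  · subst hxy
    rw [swap_self]
    exact h
  have h1 := cyc_swap_same _ x y hxy hs
  obtain ⟨h4, h5⟩ := perm_comp_step (a := a) (b := b) (a' := a * swap x y)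
    (b' := swap x y * b) x y
    (fun u => by
      have k := perm_conn_a (a * swap x y) (swap x y * b) (swap x y u)
      rw [Perm.mul_apply, swap_apply_self] at k
      exact (perm_mrg _ _ _).trans' (perm_mrg_swap _ _ _ u) (Or.inl k))
    (fun u => by
      have k := perm_conn_b (a * swap x y) (swap x y * b) u
      have k' := perm_mrg_swap (conn (a * swap x y) (swap x y * b)) x y ((swap x y * b) u)
      rw [Perm.mul_apply, swap_apply_self] at k'
      exact (perm_mrg _ _ _).trans' (Or.inl k) k')
  have e : a * swap x y * (swap x y * b) = a * b := by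
    rw [mul_assoc, ← mul_assoc (swap x y), swap_mul_self, one_mul]
  have e' := cyc_mul_comm (swap x y) b
  unfold Gen0 at h ⊢
  rw [e]
  by_cases hc : a.SameCycle x y
  · have h6 := cyc_swap_same _ _ _ hxy hc
    omega
  · have h6 := cyc_swap_diff _ _ _ hc
    have h8 := h5 (perm_sc_le (perm_conn_a _ _) (perm_sc_swap _ _ _ hc))
    omega

omit [Finite D] [DecidableEq D] in
theorem perm_restr_mem (b : Perm D) (hb : ∀ d, b (b d) = d) (I : Set D)
    (hI : ∀ d, d ∈ I ↔ b d ∈ I) {d : D} (hd : d ∈ I) : restr b hb I hI d = b d := by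
  unfold restr
  rw [Function.Involutive.coe_toPerm]
  exact if_pos hd

omit [Finite D] [DecidableEq D] in
theorem perm_restr_not (b : Perm D) (hb : ∀ d, b (b d) = d) (I : Set D)
    (hI : ∀ d, d ∈ I ↔ b d ∈ I) {d : D} (hd : d ∉ I) : restr b hb I hI d = d := by
  unfold restr
  rw [Function.Involutive.coe_toPerm]
  exact if_neg hd

omit [DecidableEq D] in
theorem gen0_cut (a b : Perm D) (hb : ∀ d, b (b d) = d) (h : Gen0 a b) (I : Set D)
    (hI : ∀ d, d ∈ I ↔ b d ∈ I) (hI' : ∀ d, d ∈ Iᶜ ↔ b d ∈ Iᶜ) :
    Gen0 (a * restr b hb I hI) (restr b hb Iᶜ hI') := by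
  classical
  induction hn : Nat.card D - cyc b using Nat.strong_induction_on generalizing a b with
  | _ n ih =>
    by_cases hx : ∃ x ∈ I, b x ≠ x
    · obtain ⟨x, hxI, hx⟩ := hx
      have hbI : b x ∈ I := (hI x).1 hxI
      have hs := perm_sc_step b x
      have h1 := cyc_swap_same b x (b x) hx.symm hs
      rw [cyc_mul_comm] at h1
      have h2 := perm_cyc_le_card (swap x (b x) * b)
      have f1 : (swap x (b x) * b) x = x := by rw [Perm.mul_apply, swap_apply_right]
      have f2 : (swap x (b x) * b) (b x) = b x := by rw [Perm.mul_apply, hb, swap_apply_left]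
      have f3 : ∀ d, d ≠ x → d ≠ b x → (swap x (b x) * b) d = b d := by
        intro d d1 d2
        rw [Perm.mul_apply, swap_apply_of_ne_of_ne]
        · intro e
          exact d2 (by rw [← e, hb])
        · exact fun e => d1 (b.injective e)
      have hb' : ∀ d, (swap x (b x) * b) ((swap x (b x) * b) d) = d := by
        intro d
        by_cases d1 : d = x
        · rw [d1, f1, f1]
        by_cases d2 : d = b x
        · rw [d2, f2, f2]
        rw [f3 d d1 d2, f3, hb]
        · intro e
          exact d2 (by rw [← e, hb])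
        · exact fun e => d1 (b.injective e)
      have hJ : ∀ d, d ∈ I ↔ (swap x (b x) * b) d ∈ I := by
        intro d
        by_cases d1 : d = x
        · rw [d1, f1]
        by_cases d2 : d = b x
        · rw [d2, f2]
        rw [f3 d d1 d2]
        exact hI d
      have hJ' : ∀ d, d ∈ Iᶜ ↔ (swap x (b x) * b) d ∈ Iᶜ := fun d => not_congr (hJ d)
      have h3 := ih _ (by omega) (a * swap x (b x)) (swap x (b x) * b) hb'
        (gen0_move a b h x (b x) hs) hJ hJ' rfl
      have e1 : a * swap x (b x) * restr (swap x (b x) * b) hb' I hJ = a * restr b hb I hI := by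
        rw [mul_assoc]
        congr 1
        ext d
        rw [Perm.mul_apply]
        by_cases hd : d ∈ I
        · rw [perm_restr_mem _ _ _ _ hd, perm_restr_mem _ _ _ _ hd, Perm.mul_apply,
            swap_apply_self]
        · rw [perm_restr_not _ _ _ _ hd, perm_restr_not _ _ _ _ hd]
          exact swap_apply_of_ne_of_ne (fun e => hd (e ▸ hxI)) (fun e => hd (e ▸ hbI))
      have e2 : restr (swap x (b x) * b) hb' Iᶜ hJ' = restr b hb Iᶜ hI' := by
        ext d
        by_cases hd : d ∈ Iᶜ
        · rw [perm_restr_mem _ _ _ _ hd, perm_restr_mem _ _ _ _ hd]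
          exact f3 d (fun e => hd (e ▸ hxI)) (fun e => hd (e ▸ hbI))
        · rw [perm_restr_not _ _ _ _ hd, perm_restr_not _ _ _ _ hd]
      rwa [e1, e2] at h3
    · push Not at hx
      have e1 : restr b hb I hI = 1 := by
        ext d
        by_cases hd : d ∈ I
        · rw [perm_restr_mem _ _ _ _ hd, hx d hd, Perm.one_apply]
        · rw [perm_restr_not _ _ _ _ hd, Perm.one_apply]
      have e2 : restr b hb Iᶜ hI' = b := by
        ext d
        by_cases hd : d ∈ Iᶜ
        · rw [perm_restr_mem _ _ _ _ hd]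
        · rw [perm_restr_not _ _ _ _ hd, hx d (not_not.1 hd)]
      rw [e1, e2, mul_one]
      exact h

omit [DecidableEq D] in
theorem gen0_inv (a b : Perm D) (hb : ∀ d, b (b d) = d) (h : Gen0 a b) : Gen0 a⁻¹ b := by
  have hbb : b⁻¹ = b := inv_eq_of_mul_eq_one_right (Equiv.ext hb)
  have h1 : cyc (a⁻¹ * b) = cyc (a * b) := by
    rw [← cyc_inv, mul_inv_rev, inv_inv, hbb, cyc_mul_comm]
  have h2 : comp a⁻¹ b ≤ comp a b := by
    refine perm_card_le fun u v huv => perm_conn_le (fun w => ?_) (perm_conn_b _ _) huv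
    have k := perm_conn_a a⁻¹ b (a w)
    rw [← Perm.mul_apply, inv_mul_cancel, Perm.one_apply] at k
    exact (conn _ _).symm' k
  have h3 := cyc_inv a
  unfold Gen0 at h ⊢
  omega

omit [DecidableEq D] in
theorem cyc_add (a : Perm D) (p : D → Prop) (ha : ∀ d, p (a d) ↔ p d) :
    cyc a = cyc (a.subtypePerm ha) +
      cyc (a.subtypePerm (p := fun d => ¬ p d) fun d => not_congr (ha d)) := by
  refine perm_card_add _ p (fun u v huv => ?_) _ _ (fun u v => Perm.sameCycle_subtypePerm)
    (fun u v => Perm.sameCycle_subtypePerm)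
  exact propext_iff.1 (perm_sc_le (s := Setoid.ker p) (fun w => propext (ha w).symm) huv)

omit [Finite D] [DecidableEq D] in
theorem perm_conn_sub (a b : Perm D) (p : D → Prop) (ha : ∀ d, p (a d) ↔ p d)
    (hb : ∀ d, p (b d) ↔ p d) (u v : {d // p d}) :
    conn (a.subtypePerm ha) (b.subtypePerm hb) u v ↔ conn a b u.1 v.1 := by
  constructor
  · intro h
    exact perm_conn_le (s := Setoid.comap Subtype.val (conn a b))
      (fun w => perm_conn_a a b w.1) (fun w => perm_conn_b a b w.1) h
  · have key : ∀ s t : D, conn a b s t → (p s ↔ p t) ∧ ∀ (hs : p s) (ht : p t),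
        conn (a.subtypePerm ha) (b.subtypePerm hb) ⟨s, hs⟩ ⟨t, ht⟩ := by
      intro s t hst
      induction hst with
      | rel x y h =>
        rcases h with rfl | rfl
        · exact ⟨(ha x).symm, fun hs _ =>
            perm_conn_a (a.subtypePerm ha) (b.subtypePerm hb) ⟨x, hs⟩⟩
        · exact ⟨(hb x).symm, fun hs _ =>
            perm_conn_b (a.subtypePerm ha) (b.subtypePerm hb) ⟨x, hs⟩⟩
      | refl x => exact ⟨Iff.rfl, fun _ _ => (conn _ _).refl' _⟩
      | symm x y _ ih => exact ⟨ih.1.symm, fun hs ht => (conn _ _).symm' (ih.2 ht hs)⟩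
      | trans x y z _ _ ih1 ih2 =>
        exact ⟨ih1.1.trans ih2.1, fun hs ht =>
          (conn _ _).trans' (ih1.2 hs (ih1.1.1 hs)) (ih2.2 (ih1.1.1 hs) ht)⟩
    exact fun h => (key _ _ h).2 u.2 v.2

omit [DecidableEq D] in
theorem comp_add (a b : Perm D) (p : D → Prop) (ha : ∀ d, p (a d) ↔ p d)
    (hb : ∀ d, p (b d) ↔ p d) :
    comp a b = comp (a.subtypePerm ha) (b.subtypePerm hb) +
      comp (a.subtypePerm (p := fun d => ¬ p d) fun d => not_congr (ha d))
        (b.subtypePerm (p := fun d => ¬ p d) fun d => not_congr (hb d)) := by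
  refine perm_card_add _ p (fun u v huv => ?_) _ _ (perm_conn_sub a b p ha hb)
    (perm_conn_sub a b (fun d => ¬ p d) _ _)
  exact propext_iff.1 (perm_conn_le (s := Setoid.ker p) (fun w => propext (ha w).symm)
    (fun w => propext (hb w).symm) huv)

omit [DecidableEq D] in
theorem gen0_sub (a b : Perm D) (h : Gen0 a b) (p : D → Prop) (ha : ∀ d, p (a d) ↔ p d)
    (hb : ∀ d, p (b d) ↔ p d) : Gen0 (a.subtypePerm ha) (b.subtypePerm hb) := by
  classical
  have hab : ∀ d, p ((a * b) d) ↔ p d := fun d => (ha (b d)).trans (hb d)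
  have h1 := cyc_add a p ha
  have h2 := cyc_add b p hb
  have h3 := cyc_add (a * b) p hab
  have h4 := comp_add a b p ha hb
  have h5 : Nat.card D = Nat.card {d // p d} + Nat.card {d // ¬ p d} := by
    rw [← Nat.card_sum]
    exact Nat.card_congr (Equiv.sumCompl p).symm
  have h6 := euler_le (a.subtypePerm (p := fun d => ¬ p d) fun d => not_congr (ha d))
    (b.subtypePerm (p := fun d => ¬ p d) fun d => not_congr (hb d))
  have e1 : a.subtypePerm ha * b.subtypePerm hb = (a * b).subtypePerm hab :=
    Equiv.ext fun _ => rfl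
  have e2 : (a.subtypePerm (p := fun d => ¬ p d) fun d => not_congr (ha d)) *
      (b.subtypePerm (p := fun d => ¬ p d) fun d => not_congr (hb d)) =
      (a * b).subtypePerm (p := fun d => ¬ p d) fun d => not_congr (hab d) :=
    Equiv.ext fun _ => rfl
  rw [e2] at h6
  unfold Gen0 at h ⊢
  rw [e1]
  omega

omit [DecidableEq D] in
theorem perm_cyc_congr_le {E : Type*} (e : D ≃ E) (a : Perm D) :
    cyc a ≤ cyc (e.permCongr a) := by
  have : Finite E := Finite.of_equiv D e
  refine perm_card_le_map e.symm e.symm.surjective fun u v huv => ?_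
  refine perm_sc_le (s := Setoid.comap e.symm (Perm.SameCycle.setoid a)) (fun w => ?_) huv
  have k := perm_sc_step a (e.symm w)
  change a.SameCycle (e.symm w) (e.symm (e.permCongr a w))
  rwa [permCongr_apply, symm_apply_apply]

omit [DecidableEq D] in
theorem gen0_equiv {E : Type*} (e : D ≃ E) (a b : Perm D) (h : Gen0 a b) :
    Gen0 (e.permCongr a) (e.permCongr b) := by
  have h1 := perm_cyc_congr_le e a
  have h2 := perm_cyc_congr_le e b
  have h3 := perm_cyc_congr_le e (a * b)
  have h4 : comp (e.permCongr a) (e.permCongr b) ≤ comp a b := by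
    refine perm_card_le_map e e.surjective fun u v huv => ?_
    refine perm_conn_le (s := Setoid.comap e (conn (e.permCongr a) (e.permCongr b)))
      (fun w => ?_) (fun w => ?_) huv
    · have k := perm_conn_a (e.permCongr a) (e.permCongr b) (e w)
      rw [permCongr_apply, symm_apply_apply] at k
      exact k
    · have k := perm_conn_b (e.permCongr a) (e.permCongr b) (e w)
      rw [permCongr_apply, symm_apply_apply] at k
      exact k
  have h5 : Nat.card D = Nat.card E := Nat.card_congr e
  have e1 : e.permCongr a * e.permCongr b = e.permCongr (a * b) := by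
    ext d
    simp
  unfold Gen0 at h ⊢
  rw [e1]
  omega

omit [DecidableEq D] in
theorem perm_period_eq (a : Perm D) {x d : D} (h : a.SameCycle x d) :
    Function.minimalPeriod a d = Function.minimalPeriod a x := by
  obtain ⟨n, rfl⟩ := h.exists_nat_pow_eq
  rw [Perm.coe_pow]
  exact Function.minimalPeriod_apply_iterate (a.injective.mem_periodicPts x) n

omit [DecidableEq D] in
theorem perm_cyc_sum {T : Type*} [Fintype T] (c : Perm T) :
    (cyc c : ℚ) = ∑ d, (1 : ℚ) / Function.minimalPeriod c d := by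
  classical
  have : Fintype (Quotient (Perm.SameCycle.setoid c)) := Fintype.ofFinite _
  rw [← Finset.sum_fiberwise Finset.univ (Quotient.mk (Perm.SameCycle.setoid c))]
  unfold cyc
  rw [Nat.card_eq_fintype_card, Fintype.card_eq_sum_ones]
  push_cast
  refine Finset.sum_congr rfl fun q _ => ?_
  obtain ⟨x, rfl⟩ := Quotient.exists_rep q
  have hpos : 0 < Function.minimalPeriod c x :=
    Function.minimalPeriod_pos_of_mem_periodicPts (c.injective.mem_periodicPts x)
  have hF : (Finset.univ.filter fun d => Quotient.mk (Perm.SameCycle.setoid c) d =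
      Quotient.mk (Perm.SameCycle.setoid c) x) =
      (Finset.range (Function.minimalPeriod c x)).image fun i => c^[i] x := by
    ext d
    simp only [Finset.mem_filter, Finset.mem_univ, true_and, Finset.mem_image, Finset.mem_range]
    constructor
    · intro h
      have h' : c.SameCycle d x := Quotient.exact h
      obtain ⟨n, rfl⟩ := h'.symm.exists_nat_pow_eq
      refine ⟨n % Function.minimalPeriod c x, Nat.mod_lt _ hpos, ?_⟩
      rw [Function.iterate_mod_minimalPeriod_eq, Perm.coe_pow]
    · rintro ⟨i, _, rfl⟩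
      refine Quotient.sound (Perm.SameCycle.symm ⟨(i : ℤ), ?_⟩)
      rw [zpow_natCast, Perm.coe_pow]
  have hcard : (Finset.univ.filter fun d => Quotient.mk (Perm.SameCycle.setoid c) d =
      Quotient.mk (Perm.SameCycle.setoid c) x).card = Function.minimalPeriod c x := by
    rw [hF, Finset.card_image_of_injOn, Finset.card_range]
    intro i hi j hj hij
    exact Function.iterate_injOn_Iio_minimalPeriod (Finset.mem_range.1 hi)
      (Finset.mem_range.1 hj) hij
  rw [Finset.sum_congr rfl (g := fun _ => (1 : ℚ) / Function.minimalPeriod c x), Finset.sum_const,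
    hcard, nsmul_eq_mul, mul_one_div_cancel]
  · exact_mod_cast hpos.ne'
  · intro d hd
    have h' : c.SameCycle d x := Quotient.exact (Finset.mem_filter.1 hd).2
    rw [perm_period_eq c h'.symm]

omit [DecidableEq D] in
theorem cyc_eq_sum (a : Perm D) (p : D → Prop) (ha : ∀ d, p (a d) ↔ p d) (S : Finset D)
    (hS : ∀ d, d ∈ S ↔ p d) :
    (cyc (a.subtypePerm ha) : ℚ) = ∑ d ∈ S, (1 : ℚ) / Function.minimalPeriod a d := by
  have : Fintype {d // p d} := Fintype.ofFinite _
  rw [perm_cyc_sum, Finset.sum_subtype S hS]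
  refine Finset.sum_congr rfl fun d _ => ?_
  congr 2
  rw [Function.minimalPeriod_eq_minimalPeriod_iff]
  intro n
  have key : ∀ m : ℕ, (((a.subtypePerm ha)^[m] d : {d // p d}) : D) = a^[m] d.1 := by
    intro m
    induction m with
    | zero => rfl
    | succ m ih =>
      rw [Function.iterate_succ_apply', Function.iterate_succ_apply', ← ih]
      rfl
  unfold Function.IsPeriodicPt Function.IsFixedPt
  rw [← key, Subtype.ext_iff]

end PERM

end Pool.Agent.Lib.MP_bfaad3_co
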