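import Pool.Agent.Lib.MP_bfaad3_co.Basic

set_option autoImplicit false

namespace Pool.Agent.Lib.MP_bfaad3_co

open Equiv

variable {V : Type*} [Fintype V]
variable {G : SimpleGraph V} {L : V → Finset ℕ} {σ : Perm G.Dart} {A : Set G.Dart}

theorem exists_reg (σ : Perm G.Dart) : ∃ A1 A, Reg σ A1 A := by
  classical
  obtain ⟨A1, ⟨i1, l1⟩, m1⟩ := exists_minimalFor_of_wellFoundedLT
    (fun B : Set G.Dart => FInv σ B ∧
      (B = Set.univ ∨ (bd B ≤ 5 ∧ bd B < B.ncard ∧ bd B < Bᶜ.ncard))) Set.ncard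
    ⟨Set.univ, fun _ => by simp, Or.inl rfl⟩
  have hmin : ∀ B, FInv σ B → B ⊆ A1 → B ≠ A1 → bd B ≤ 5 → B.ncard ≤ bd B ∨ Bᶜ.ncard ≤ bd B := by
    intro B hB hs hne h5
    by_contra hc
    push Not at hc
    have hlt : B.ncard < A1.ncard := Set.ncard_lt_ncard (hs.ssubset_of_ne hne)
    have := m1 ⟨hB, Or.inr ⟨h5, hc.1, hc.2⟩⟩ hlt.le
    omega
  by_cases hq : ∃ W, FInv σ W ∧ W ⊆ A1 ∧ bd W = 6 ∧ ¬ Quiet σ W
  · obtain ⟨A, ⟨i2, s2, b2, q2⟩, m2⟩ := exists_minimalFor_of_wellFoundedLT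
      (fun W : Set G.Dart => FInv σ W ∧ W ⊆ A1 ∧ bd W = 6 ∧ ¬ Quiet σ W) Set.ncard hq
    refine ⟨A1, A, i1, i2, s2, l1, hmin, Or.inr ⟨b2, q2, fun W hW hs h6 hlt => ?_⟩⟩
    by_contra hc
    have := m2 ⟨hW, hs, h6, hc⟩ hlt.le
    omega
  · refine ⟨A1, A1, i1, i1, subset_rfl, l1, hmin, Or.inl ⟨rfl, fun W hW hs h6 => ?_⟩⟩
    by_contra hc
    exact hq ⟨W, hW, hs, h6, hc⟩

theorem Ctx.reg_bd_le (h : Ctx G L σ A) : bd A ≤ 6 := by
  obtain ⟨A1, hr⟩ := h.reg
  rcases hr.lvl2 with ⟨rfl, -⟩ | ⟨h6, -⟩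
  · rcases hr.lvl1 with rfl | h5
    · simp [bd]
    · omega
  · omega

theorem Ctx.reg_nonempty (h : Ctx G L σ A) : A.Nonempty := by
  obtain ⟨A1, hr⟩ := h.reg
  have := bd_le_ncard A
  rcases hr.lvl2 with ⟨rfl, -⟩ | ⟨h6, -⟩
  · rcases hr.lvl1 with rfl | h5
    · have := h.ce.nonempty
      exact Set.univ_nonempty
    · exact Set.nonempty_of_ncard_ne_zero (by omega)
  · exact Set.nonempty_of_ncard_ne_zero (by omega)

theorem Ctx.reg_inv (h : Ctx G L σ A) : FInv σ A := by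
  obtain ⟨A1, hr⟩ := h.reg
  exact hr.inv

omit [Fintype V] in
theorem reg_alpha (d : G.Dart) : alpha G d = d.symm := rfl

omit [Fintype V] in
theorem reg_aa (d : G.Dart) : alpha G (alpha G d) = d := d.symm_symm

omit [Fintype V] in
theorem reg_phi (σ : Perm G.Dart) (d : G.Dart) : phi σ d = σ d.symm := rfl

/-- darts of edges with exactly one dart in `A` -/
def regJ (A : Set G.Dart) : Set G.Dart := {d | ¬ (d ∈ A ↔ d.symm ∈ A)}

omit [Fintype V] in
theorem reg_J (A : Set G.Dart) (d : G.Dart) : d ∈ regJ A ↔ alpha G d ∈ regJ A := by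
  simp only [regJ, Set.mem_ofPred_eq, reg_alpha, SimpleGraph.Dart.symm_symm]
  tauto

omit [Fintype V] in
theorem reg_J' (A : Set G.Dart) (d : G.Dart) : d ∈ (regJ A)ᶜ ↔ alpha G d ∈ (regJ A)ᶜ :=
  not_congr (reg_J A d)

/-- the rotation after cutting along the boundary of `A` -/
noncomputable def regS (σ : Perm G.Dart) (A : Set G.Dart) : Perm G.Dart :=
  σ * restr (alpha G) reg_aa (regJ A) (reg_J A)

/-- the reversal after cutting along the boundary of `A` -/
noncomputable def regA (A : Set G.Dart) : Perm G.Dart :=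
  restr (alpha G) reg_aa (regJ A)ᶜ (reg_J' A)

omit [Fintype V] in
theorem reg_S_in {d : G.Dart} (h : d ∈ regJ A) : regS σ A d = σ d.symm := by
  simp [regS, restr, h, reg_alpha]

omit [Fintype V] in
theorem reg_S_out {d : G.Dart} (h : d ∉ regJ A) : regS σ A d = σ d := by
  simp [regS, restr, h]

omit [Fintype V] in
theorem reg_A_in {d : G.Dart} (h : d ∈ regJ A) : regA A d = d := by
  simp [regA, restr, h]

omit [Fintype V] in
theorem reg_A_out {d : G.Dart} (h : d ∉ regJ A) : regA A d = d.symm := by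
  simp [regA, restr, h, reg_alpha]

omit [Fintype V] in
theorem reg_mul (σ : Perm G.Dart) (A : Set G.Dart) : regS σ A * regA A = phi σ := by
  ext1 d
  rw [Perm.mul_apply, reg_phi]
  by_cases h : d ∈ regJ A
  · rw [reg_A_in h, reg_S_in h]
  · rw [reg_A_out h, reg_S_out (d := d.symm) fun h' => h ((reg_J A d).2 h')]

omit [Fintype V] in
theorem reg_sigma (hA : FInv σ A) (d : G.Dart) : σ d ∈ A ↔ d.symm ∈ A := by
  rw [hA d.symm, reg_phi, SimpleGraph.Dart.symm_symm]

omit [Fintype V] in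
theorem reg_S_mem (hA : FInv σ A) (d : G.Dart) : regS σ A d ∈ A ↔ d ∈ A := by
  by_cases h : d ∈ regJ A
  · rw [reg_S_in h, reg_sigma hA, SimpleGraph.Dart.symm_symm]
  · rw [reg_S_out h, reg_sigma hA]
    exact (not_not.1 h).symm

omit [Fintype V] in
theorem reg_A_mem (d : G.Dart) : regA A d ∈ A ↔ d ∈ A := by
  by_cases h : d ∈ regJ A
  · rw [reg_A_in h]
  · rw [reg_A_out h]
    exact (not_not.1 h).symm

omit [Fintype V] in
theorem reg_S_pow_mem (hA : FInv σ A) {d : G.Dart} (hd : d ∈ A) (n : ℕ) :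
    (regS σ A ^ n) d ∈ A := by
  induction n with
  | zero => exact hd
  | succ n ih => rw [pow_succ', Perm.mul_apply, reg_S_mem hA]; exact ih

omit [Fintype V] in
theorem reg_intr_out (hr : IsRot G σ) (hA : FInv σ A) {d : G.Dart} (hd : Intr A d.fst) :
    d ∉ regJ A :=
  not_not.2 (iff_of_true (hd d rfl) ((reg_sigma hA d).1 (hd _ (hr.1 d))))

omit [Fintype V] in
theorem reg_pow_fst (hr : IsRot G σ) (d : G.Dart) (n : ℕ) : ((σ ^ n) d).fst = d.fst := by
  induction n with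
  | zero => rfl
  | succ n ih => rw [pow_succ', Perm.mul_apply, hr.1, ih]

omit [Fintype V] in
theorem reg_pow_eq {d : G.Dart} (n : ℕ) (h : ∀ t < n, (regS σ A ^ t) d ∉ regJ A) :
    (regS σ A ^ n) d = (σ ^ n) d := by
  induction n with
  | zero => rfl
  | succ n ih =>
    rw [pow_succ', Perm.mul_apply, reg_S_out (h n (by omega)), ih fun t ht => h t (by omega),
      pow_succ', Perm.mul_apply]

omit [Fintype V] in
theorem reg_pow_intr (hr : IsRot G σ) (hA : FInv σ A) {d : G.Dart} (hd : Intr A d.fst) (n : ℕ) :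
    (regS σ A ^ n) d = (σ ^ n) d := by
  induction n with
  | zero => rfl
  | succ n ih =>
    rw [pow_succ', Perm.mul_apply, ih, reg_S_out (reg_intr_out hr hA (by
      rw [reg_pow_fst hr]; exact hd)), pow_succ', Perm.mul_apply]

omit [Fintype V] in
theorem reg_S_intr (hr : IsRot G σ) (hA : FInv σ A) (d : G.Dart) :
    Intr A (regS σ A d).fst ↔ Intr A d.fst := by
  by_cases h : d ∈ regJ A
  · rw [reg_S_in h, hr.1]
    refine iff_of_false (fun hi => reg_intr_out hr hA hi ((reg_J A d).1 h)) fun hi =>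
      reg_intr_out hr hA hi h
  · rw [reg_S_out h, hr.1]

theorem reg_period_intr (hr : IsRot G σ) (hA : FInv σ A) {d : G.Dart} (hd : Intr A d.fst) :
    Function.minimalPeriod (regS σ A) d = dg G d.fst := by
  rw [← period_eq_dg hr, Function.minimalPeriod_eq_minimalPeriod_iff]
  intro n
  rw [Function.IsPeriodicPt, Function.IsPeriodicPt, Function.IsFixedPt, Function.IsFixedPt,
    Perm.iterate_eq_pow, Perm.iterate_eq_pow, reg_pow_intr hr hA hd]

omit [Fintype V] in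
open Classical in
theorem reg_period_A (d : G.Dart) :
    Function.minimalPeriod (regA A) d = if d.symm ∈ A ↔ d ∈ A then 2 else 1 := by
  split_ifs with h
  · have h1 : d ∉ regJ A := not_not.2 h.symm
    have h2 : d.symm ∉ regJ A := fun h' => h1 ((reg_J A d).2 h')
    refine Function.minimalPeriod_eq_prime ?_ ?_
    · change regA A (regA A d) = d
      rw [reg_A_out h1, reg_A_out h2, SimpleGraph.Dart.symm_symm]
    · change ¬ regA A d = d
      rw [reg_A_out h1]
      exact d.symm_ne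
  · exact Function.minimalPeriod_eq_one_iff_isFixedPt.2 (reg_A_in fun h' => h h'.symm)

/-- a dart of `A` with a non-interior tail reaches the boundary -/
theorem reg_reach (hr : IsRot G σ) (hA : FInv σ A) {d : G.Dart} (hd : d ∈ A)
    (hi : ¬ Intr A d.fst) : ∃ e, e ∈ A ∧ e ∈ regJ A ∧ (regS σ A).SameCycle d e := by
  classical
  by_contra hc
  push Not at hc
  refine hi fun e he => ?_
  obtain ⟨n, rfl⟩ := (hr.2 d e he.symm).exists_nat_pow_eq
  rw [← reg_pow_eq (A := A) n fun t _ ht =>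
    hc _ (reg_S_pow_mem hA hd t) ht ⟨t, by rw [zpow_natCast]⟩]
  exact reg_S_pow_mem hA hd n

/-- the next boundary dart -/
theorem reg_next (hr : IsRot G σ) (hA : FInv σ A) {d : G.Dart} (hd : d ∈ A) (hJ : d ∈ regJ A) :
    ∃ e, e ∈ A ∧ e ∈ regJ A ∧ (regS σ A).SameCycle d e ∧ e.fst = d.snd := by
  classical
  have hex : ∃ n : ℕ, (regS σ A ^ n) (regS σ A d) ∈ regJ A := by
    obtain ⟨n, hn⟩ := (Perm.sameCycle_apply_left.2
      (Perm.SameCycle.refl (regS σ A) d)).exists_nat_pow_eq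
    exact ⟨n, by rw [hn]; exact hJ⟩
  refine ⟨_, reg_S_pow_mem hA ((reg_S_mem hA d).2 hd) _, Nat.find_spec hex,
    Perm.sameCycle_apply_left.1 ⟨Nat.find hex, by rw [zpow_natCast]⟩, ?_⟩
  rw [reg_pow_eq _ fun t ht => Nat.find_min hex ht, reg_pow_fst hr, reg_S_in hJ, hr.1]
  rfl

theorem reg_four (ht : G.CliqueFree 3) (hr : IsRot G σ) (hA : FInv σ A) {d : G.Dart} (hd : d ∈ A)
    (hJ : d ∈ regJ A) : 4 ≤ {e | e ∈ A ∧ e ∈ regJ A ∧ (regS σ A).SameCycle d e}.ncard := by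
  classical
  set T := {e | e ∈ A ∧ e ∈ regJ A ∧ (regS σ A).SameCycle d e} with hT
  have hex : ∀ e : T, ∃ e' : T, e'.1.fst = e.1.snd := by
    rintro ⟨e, h1, h2, h3⟩
    obtain ⟨e', a1, a2, a3, a4⟩ := reg_next hr hA h1 h2
    exact ⟨⟨e', a1, a2, h3.trans a3⟩, a4⟩
  choose f hf using hex
  let x : T := ⟨d, hd, hJ, Perm.SameCycle.refl _ _⟩
  have key : ∀ i j : ℕ, i < j → j ≤ T.ncard → f^[i] x = f^[j] x → 4 ≤ T.ncard := by
    intro i j hij hj he
    have hc : CW (fun t => (f^[t + i] x).1) (j - i) := by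
      refine ⟨fun t => ?_, fun t => ?_, fun t hb => ?_⟩
      · rw [show t + 1 + i = (t + i) + 1 by omega, Function.iterate_succ_apply', hf]
      · rw [show t + (j - i) + i = t + j by omega, Function.iterate_add_apply,
          Function.iterate_add_apply, he]
      · obtain ⟨h1, h2, -⟩ := (f^[t + i] x).2
        refine h2 (iff_of_true h1 ?_)
        rw [← hb]
        exact (f^[t + 1 + i] x).2.1
    have := hc.four_le ht (by omega)
    omega
  obtain ⟨i, hi, j, hj, hne, he⟩ := Finset.exists_ne_map_eq_of_card_lt_of_maps_to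
    (s := Finset.range (T.ncard + 1)) (t := (Finset.univ : Finset T)) (f := fun i => f^[i] x)
    (by rw [Finset.card_range, Finset.card_univ, ← Nat.card_eq_fintype_card, Nat.card_coe_set_eq]
        omega) (fun _ _ => Finset.mem_univ _)
  rw [Finset.mem_range] at hi hj
  rcases lt_or_gt_of_ne hne with h | h
  · exact key i j h (by omega) he
  · exact key j i h (by omega) he.symm

theorem reg_same (ht : G.CliqueFree 3) (hr : IsRot G σ) (hA : FInv σ A) (h6 : bd A ≤ 6)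
    {d e : G.Dart} (hd : d ∈ A) (hdi : ¬ Intr A d.fst) (he : e ∈ A) (hei : ¬ Intr A e.fst) :
    (regS σ A).SameCycle d e := by
  classical
  obtain ⟨d', a1, a2, a3⟩ := reg_reach hr hA hd hdi
  obtain ⟨e', b1, b2, b3⟩ := reg_reach hr hA he hei
  refine a3.trans (Perm.SameCycle.trans ?_ b3.symm)
  by_contra hc
  have h1 := reg_four ht hr hA a1 a2
  have h2 := reg_four ht hr hA b1 b2
  have h3 := Set.ncard_union_eq (s := {x | x ∈ A ∧ x ∈ regJ A ∧ (regS σ A).SameCycle d' x})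
    (t := {x | x ∈ A ∧ x ∈ regJ A ∧ (regS σ A).SameCycle e' x})
    (Set.disjoint_left.2 fun x h h' => hc (h.2.2.trans h'.2.2.symm))
  have h4 : ({x | x ∈ A ∧ x ∈ regJ A ∧ (regS σ A).SameCycle d' x} ∪
      {x | x ∈ A ∧ x ∈ regJ A ∧ (regS σ A).SameCycle e' x}).ncard ≤ bd A := by
    refine Set.ncard_le_ncard ?_
    rintro x (⟨c1, c2, -⟩ | ⟨c1, c2, -⟩) <;> exact ⟨c1, fun c3 => c2 (iff_of_true c1 c3)⟩
  omega

open Classical in
theorem charge (h : Ctx G L σ A) :
    ∑ d ∈ Finset.univ.filter (fun d : G.Dart => Intr A d.fst), (1 - 4 / (dg G d.fst : ℚ)) +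
      ∑ d ∈ Finset.univ.filter (fun d : G.Dart => d ∈ A), (1 - 4 / (flen σ d : ℚ)) ≤
    2 * (bd A : ℚ) -
      ((Finset.univ.filter (fun d : G.Dart => d ∈ A ∧ ¬ Intr A d.fst)).card : ℚ) - 4 := by
  have hr := h.ce.rot
  have hA := h.reg_inv
  have g1 : Gen0 (regS σ A) (regA A) := gen0_cut σ (alpha G) reg_aa h.ce.gen _ (reg_J A) (reg_J' A)
  have g2 := gen0_sub _ _ g1 (· ∈ A) (reg_S_mem hA) reg_A_mem
  set SA := Finset.univ.filter (fun d : G.Dart => d ∈ A) with hSA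
  set SI := Finset.univ.filter (fun d : G.Dart => Intr A d.fst) with hSI
  set SN := Finset.univ.filter (fun d : G.Dart => d ∈ A ∧ ¬ Intr A d.fst) with hSN
  have mA : ∀ d, d ∈ SA ↔ d ∈ A := fun d => by simp [hSA]
  have hsplit : ∀ u : G.Dart → ℚ, ∑ d ∈ SA, u d = ∑ d ∈ SI, u d + ∑ d ∈ SN, u d := by
    intro u
    rw [← Finset.sum_filter_add_sum_filter_not SA fun d => Intr A d.fst, hSA, Finset.filter_filter,
      Finset.filter_filter]
    congr 2
    exact Finset.filter_congr fun d _ => ⟨fun h => h.2, fun h => ⟨h d rfl, h⟩⟩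
  have hcomp : 1 ≤ comp ((regS σ A).subtypePerm (p := (· ∈ A)) (reg_S_mem hA))
      ((regA A).subtypePerm (p := (· ∈ A)) reg_A_mem) := by
    obtain ⟨d, hd⟩ := h.reg_nonempty
    have : Nonempty (Quotient (conn ((regS σ A).subtypePerm (p := (· ∈ A)) (reg_S_mem hA))
      ((regA A).subtypePerm (p := (· ∈ A)) reg_A_mem))) := ⟨Quotient.mk _ ⟨d, hd⟩⟩
    exact Nat.card_pos
  have hcard : Nat.card {d // d ∈ A} = SA.card := by
    rw [Nat.card_eq_fintype_card, Fintype.card_subtype]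
  have hN : ∀ d, (regS σ A d ∈ A ∧ ¬ Intr A (regS σ A d).fst) ↔ (d ∈ A ∧ ¬ Intr A d.fst) :=
    fun d => by rw [reg_S_mem hA, reg_S_intr hr hA]
  have c0 := cyc_eq_sum (regS σ A) (fun d => d ∈ A ∧ ¬ Intr A d.fst) hN SN (fun d => by simp [hSN])
  have c0' : cyc ((regS σ A).subtypePerm (p := fun d => d ∈ A ∧ ¬ Intr A d.fst) hN) ≤ 1 := by
    refine Finite.card_le_one_iff_subsingleton.2 ⟨fun x y => ?_⟩
    obtain ⟨x, rfl⟩ := x.exists_rep
    obtain ⟨y, rfl⟩ := y.exists_rep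
    exact Quotient.sound (Perm.sameCycle_subtypePerm.2
      (reg_same h.ce.tri hr hA h.reg_bd_le x.2.1 x.2.2 y.2.1 y.2.2))
  have c1 := cyc_eq_sum (regS σ A) (· ∈ A) (reg_S_mem hA) SA mA
  rw [hsplit, ← c0, Finset.sum_congr rfl (g := fun d => (1 : ℚ) / dg G d.fst) fun d hd => by
    rw [reg_period_intr hr hA (Finset.mem_filter.1 hd).2]] at c1
  have c2 := cyc_eq_sum (regA A) (· ∈ A) reg_A_mem SA mA
  have hbd : (bd A : ℚ) = ∑ d ∈ SA, if d.symm ∈ A then 0 else 1 := by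
    rw [Finset.sum_ite, Finset.sum_const_zero, zero_add, Finset.sum_const, nsmul_one, bd,
      Set.ncard_eq_toFinset_card', hSA, Finset.filter_filter]
    congr 2
    ext d
    simp
  have c2' : 2 * ∑ d ∈ SA, (1 : ℚ) / Function.minimalPeriod (regA A) d = SA.card + bd A := by
    rw [hbd, Finset.mul_sum, Finset.card_eq_sum_ones, Nat.cast_sum, ← Finset.sum_add_distrib]
    refine Finset.sum_congr rfl fun d hd => ?_
    have hd' := (mA d).1 hd
    rw [reg_period_A]
    by_cases hs : d.symm ∈ A <;> simp [hs, hd']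
    norm_num
  have hP : ∀ d, (regS σ A * regA A) d ∈ A ↔ d ∈ A := fun d => by
    rw [reg_mul]
    exact (hA d).symm
  have c3 := cyc_eq_sum (regS σ A * regA A) (· ∈ A) hP SA mA
  have e3 : (regS σ A).subtypePerm (p := (· ∈ A)) (reg_S_mem hA) *
      (regA A).subtypePerm (p := (· ∈ A)) reg_A_mem =
      (regS σ A * regA A).subtypePerm (p := (· ∈ A)) hP := rfl
  have e4 : ∑ d ∈ SA, (1 : ℚ) / Function.minimalPeriod (regS σ A * regA A) d =
      ∑ d ∈ SA, (1 : ℚ) / flen σ d := by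
    rw [reg_mul]
    rfl
  unfold Gen0 at g2
  rw [hcard, e3] at g2
  have g3 : (SA.card : ℚ) + 2 ≤ (cyc ((regS σ A).subtypePerm (p := (· ∈ A)) (reg_S_mem hA)) : ℚ) +
      cyc ((regA A).subtypePerm (p := (· ∈ A)) reg_A_mem) +
      cyc ((regS σ A * regA A).subtypePerm (p := (· ∈ A)) hP) := by
    exact_mod_cast (by omega : SA.card + 2 ≤ _)
  have c0'' : (cyc ((regS σ A).subtypePerm (p := fun d => d ∈ A ∧ ¬ Intr A d.fst) hN) : ℚ) ≤ 1 := by
    exact_mod_cast c0'
  have hc := hsplit fun _ => 1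
  simp only [Finset.sum_const, nsmul_one] at hc
  have s1 : ∑ d ∈ SI, (1 - 4 / (dg G d.fst : ℚ)) = SI.card - 4 * ∑ d ∈ SI, (1 : ℚ) / dg G d.fst := by
    rw [Finset.sum_sub_distrib, Finset.sum_const, nsmul_one, Finset.mul_sum]
    simp only [mul_one_div]
  have s2 : ∑ d ∈ SA, (1 - 4 / (flen σ d : ℚ)) = SA.card - 4 * ∑ d ∈ SA, (1 : ℚ) / flen σ d := by
    rw [Finset.sum_sub_distrib, Finset.sum_const, nsmul_one, Finset.mul_sum]
    simp only [mul_one_div]
  rw [s1, s2]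
  linarith

end Pool.Agent.Lib.MP_bfaad3_co
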