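import Pool.Agent.Lib.MP_bfaad3_co.Basic

set_option autoImplicit false

namespace Pool.Agent.Lib.MP_bfaad3_co

open Equiv

variable {V : Type*} [Fintype V] {G : SimpleGraph V} {L : V → Finset ℕ} {σ : Perm G.Dart}
  {A : Set G.Dart}


/-- non-backtracking walks of length at most 3 outside `X` -/
def Wk (G : SimpleGraph V) (X : Set V) : ℕ → V → V → Prop
  | 0, u, v => u = v
  | 1, u, v => G.Adj u v ∧ u ∉ X ∧ v ∉ X
  | 2, u, v => ∃ w, G.Adj u w ∧ G.Adj w v ∧ u ≠ v ∧ u ∉ X ∧ w ∉ X ∧ v ∉ X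
  | 3, u, v => ∃ w z, G.Adj u w ∧ G.Adj w z ∧ G.Adj z v ∧ u ≠ z ∧ w ≠ v ∧
      u ∉ X ∧ w ∉ X ∧ z ∉ X ∧ v ∉ X
  | _, _, _ => False

/-- a walk of length `k` outside `X` from `u` to `v`, with at most one jump between `a` and `b` -/
def Lk (G : SimpleGraph V) (X : Set V) (a b : V) (k : ℕ) (u v : V) : Prop :=
  Wk G X k u v ∨ (a ≠ b ∧ ∃ i, i ≤ k ∧
    ((Wk G X i u a ∧ Wk G X (k - i) b v) ∨ (Wk G X i u b ∧ Wk G X (k - i) a v)))

/-- the new arcs `E` (a symmetric relation) and the identification of `b` with `a` create no loop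
and no triangle -/
structure Safe (G : SimpleGraph V) (X : Set V) (E : V → V → Prop) (a b : V) : Prop where
  symm : ∀ p q, E p q → E q p
  s0 : a ≠ b → ¬ Wk G X 1 a b ∧ ¬ Wk G X 3 a b
  s1 : ∀ p q, E p q → ¬ Lk G X a b 0 q p ∧ ¬ Lk G X a b 2 q p
  s2 : ∀ p q r s, E p q → E r s → Lk G X a b 0 q r → Lk G X a b 1 s p → Lk G X a b 0 s p
  s3 : ∀ p q r s t u, E p q → E r s → E t u → Lk G X a b 0 q r → Lk G X a b 0 s t →
    Lk G X a b 0 u p → (Lk G X a b 0 s p ∨ Lk G X a b 0 u r ∨ Lk G X a b 0 q t)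

/-- the vertices of `X` have been contracted and then split again -/
structure HoleInv (σ : Perm G.Dart) (X : Set V) (s a : Perm G.Dart) : Prop where
  gen : Gen0 s a
  off : ∀ d : G.Dart, d.fst ∉ X → s d = σ d
  aa : ∀ d, a (a d) = d
  aoff : ∀ d : G.Dart, ¬ (d.fst ∈ X ∧ d.snd ∈ X) → a d = d.symm

theorem hole_init (hr : IsRot G σ) (h0 : Gen0 σ (alpha G)) (X : Set V) :
    ∃ s a, HoleInv σ X s a ∧ (∀ d : G.Dart, d.fst ∈ X → d.snd ∈ X → s d = σ d.symm) ∧
      ∀ d : G.Dart, d.snd ∉ X → s d = σ d := by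
  have hb : ∀ d, alpha G (alpha G d) = d := fun d => SimpleGraph.Dart.symm_symm d
  let I : Set G.Dart := {d | d.fst ∈ X ∧ d.snd ∈ X}
  have hI : ∀ d, d ∈ I ↔ alpha G d ∈ I := fun d => and_comm
  have hI' : ∀ d, d ∈ Iᶜ ↔ alpha G d ∈ Iᶜ := fun d => not_congr (hI d)
  refine ⟨σ * restr (alpha G) hb I hI, restr (alpha G) hb Iᶜ hI',
    ⟨gen0_cut σ _ hb h0 I hI hI', fun d hd => ?_, fun d => ?_, fun d hd => ?_⟩,
    fun d h1 h2 => ?_, fun d hd => ?_⟩
  · rw [Perm.mul_apply, perm_restr_not _ hb I hI (fun h => hd h.1)]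
  · by_cases hd : d ∈ Iᶜ
    · rw [perm_restr_mem _ hb _ hI' hd, perm_restr_mem _ hb _ hI' ((hI' d).1 hd), hb]
    · rw [perm_restr_not _ hb _ hI' hd, perm_restr_not _ hb _ hI' hd]
  · rw [perm_restr_mem _ hb _ hI' hd]; rfl
  · rw [Perm.mul_apply, perm_restr_mem _ hb I hI ⟨h1, h2⟩]; rfl
  · rw [Perm.mul_apply, perm_restr_not _ hb I hI (fun h => hd h.2)]

theorem hole_swap [DecidableEq G.Dart] {X : Set V} {s a : Perm G.Dart} (h : HoleInv σ X s a)
    {x y : G.Dart} (hx : x.fst ∈ X) (hy : y.fst ∈ X) (hs : s.SameCycle x y) :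
    HoleInv σ X (s * swap x y) a := by
  refine ⟨gen0_split s a h.gen x y hs, fun d hd => ?_, h.aa, h.aoff⟩
  have h1 : d ≠ x := fun e => hd (by rw [e]; exact hx)
  have h2 : d ≠ y := fun e => hd (by rw [e]; exact hy)
  rw [Perm.mul_apply, swap_apply_of_ne_of_ne h1 h2, h.off d hd]

open Classical in
/-- identification of `b` with `a` -/
noncomputable def idn (a b v : V) : V := if v = b then a else v

/-- the reduced graph -/
def redG (G : SimpleGraph V) (X : Set V) (E : V → V → Prop) (a b : V) : SimpleGraph V where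
  Adj u v := u ≠ v ∧ ∃ p q, ((G.Adj p q ∧ p ∉ X ∧ q ∉ X) ∨ E p q ∨ E q p) ∧
    idn a b p = u ∧ idn a b q = v
  symm := ⟨by
    rintro u v ⟨h, p, q, hb, hp, hq⟩
    refine ⟨h.symm, q, p, ?_, hq, hp⟩
    rcases hb with ⟨h1, h2, h3⟩ | h1 | h1
    · exact Or.inl ⟨h1.symm, h3, h2⟩
    · exact Or.inr (Or.inr h1)
    · exact Or.inr (Or.inl h1)⟩
  loopless := ⟨fun _ h => h.1 rfl⟩

omit [Fintype V] in
theorem ring_idn_b (a b : V) : idn a b b = a := by
  unfold idn; exact if_pos rfl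

omit [Fintype V] in
theorem ring_idn_ne {a b v : V} (h : v ≠ b) : idn a b v = v := by
  unfold idn; exact if_neg h

omit [Fintype V] in
theorem ring_idn_a (a b : V) : idn a b a = a := by
  by_cases h : a = b
  · subst h; exact ring_idn_b a a
  · exact ring_idn_ne h

omit [Fintype V] in
theorem ring_idn_cases (a b v : V) : idn a b v = v ∨ (a ≠ b ∧ v = b ∧ idn a b v = a) := by
  by_cases h : v = b
  · subst h
    by_cases h2 : a = v
    · subst h2; exact Or.inl (ring_idn_b a a)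
    · exact Or.inr ⟨h2, rfl, ring_idn_b a v⟩
  · exact Or.inl (ring_idn_ne h)

omit [Fintype V] in
theorem ring_jump {a b x y : V} (h : idn a b x = idn a b y) :
    x = y ∨ (a ≠ b ∧ idn a b x = a ∧ ((x = a ∧ y = b) ∨ (x = b ∧ y = a))) := by
  rcases ring_idn_cases a b x with h1 | ⟨hab, h1, h2⟩
  · rcases ring_idn_cases a b y with h3 | ⟨hab, h3, h4⟩
    · exact Or.inl (h1.symm.trans (h.trans h3))
    · exact Or.inr ⟨hab, h.trans h4, Or.inl ⟨h1.symm.trans (h.trans h4), h3⟩⟩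
  · rcases ring_idn_cases a b y with h3 | ⟨_, h3, _⟩
    · exact Or.inr ⟨hab, h2, Or.inr ⟨h1, h3.symm.trans (h.symm.trans h2)⟩⟩
    · exact Or.inl (h1.trans h3.symm)

omit [Fintype V] in
theorem ring_idn_nmem {X : Set V} {a b : V} (hab : a = b ∨ (a ∉ X ∧ b ∉ X)) {v : V}
    (hv : v ∉ X) : idn a b v ∉ X := by
  rcases ring_idn_cases a b v with h1 | ⟨h, _, h2⟩
  · rwa [h1]
  · rw [h2]; exact (hab.resolve_left h).1

omit [Fintype V] in
theorem ring_fst_mem (hr : IsRot G σ) {X : Set V} {s a' : Perm G.Dart} (h : HoleInv σ X s a')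
    (d : G.Dart) (hd : d.fst ∈ X) : (s d).fst ∈ X := by
  by_contra hc
  have h1 : (σ.symm (s d)).fst = (s d).fst := by
    have := hr.1 (σ.symm (s d))
    rw [Equiv.apply_symm_apply] at this
    exact this.symm
  have h2 := h.off (σ.symm (s d)) (by rw [h1]; exact hc)
  rw [Equiv.apply_symm_apply] at h2
  have h3 := s.injective h2
  rw [h3] at h1
  exact hc (h1 ▸ hd)

theorem ring_off_cyc (hr : IsRot G σ) {X : Set V} {s a' : Perm G.Dart} (h : HoleInv σ X s a')
    {d e : G.Dart} (hd : d.fst ∉ X) (hde : d.fst = e.fst) : s.SameCycle d e := by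
  obtain ⟨n, rfl⟩ := (hr.2 d e hde).exists_nat_pow_eq
  have key : ∀ m : ℕ, (s ^ m) d = (σ ^ m) d := by
    intro m
    induction m with
    | zero => rfl
    | succ m ih =>
      rw [pow_succ', pow_succ', Perm.mul_apply, Perm.mul_apply, ih,
        h.off _ (by rw [bas_pow_fst hr]; exact hd)]
  exact ⟨(n : ℤ), by rw [zpow_natCast, key]⟩

theorem hole_pl (hr : IsRot G σ) {X : Set V} {s a' : Perm G.Dart} (h : HoleInv σ X s a')
    (E : V → V → Prop) (a b : V) (hab : a = b ∨ (a ∉ X ∧ b ∉ X))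
    (lab : G.Dart → Option V)
    (hl : ∀ d : G.Dart, d.fst ∈ X → lab (s d) = lab d)
    (anchor : ∀ (d : G.Dart) v, d.fst ∈ X → lab d = some v → v ∉ X →
      ∃ e, s.SameCycle d e ∧ e.snd ∉ X ∧ idn a b e.snd = v)
    (zone : ∀ (d e : G.Dart) v, d.fst ∈ X → e.fst ∈ X → lab d = some v → lab e = some v → v ∈ X →
      s.SameCycle d e)
    (ident : a ≠ b → ∃ d e : G.Dart, d.fst ∈ X ∧ s.SameCycle d e ∧ d.snd = a ∧ e.snd = b ∧
      lab d = some a)
    (arcs : ∀ p q, E p q → ∃ d : G.Dart, d.fst ∈ X ∧ d.snd ∉ X ∧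
      ((lab d = some (idn a b p) ∧ idn a b d.snd = idn a b q) ∨
       (lab d = some (idn a b q) ∧ idn a b d.snd = idn a b p))) :
    Pl (redG G X E a b) := by
  classical
  let β : G.Dart → Option V := fun d => if d.fst ∈ X then lab d else some (idn a b d.fst)
  have βin : ∀ d : G.Dart, d.fst ∈ X → β d = lab d := fun d hd => if_pos hd
  have βout : ∀ d : G.Dart, d.fst ∉ X → β d = some (idn a b d.fst) := fun d hd => if_neg hd
  have hβ : ∀ d, β (s d) = β d := by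
    intro d
    by_cases hd : d.fst ∈ X
    · rw [βin _ (ring_fst_mem hr h d hd), βin _ hd, hl d hd]
    · have h1 : (s d).fst = d.fst := by rw [h.off d hd, hr.1]
      rw [βout _ (by rw [h1]; exact hd), βout _ hd, h1]
  have hsym : ∀ d : G.Dart, d.snd ∉ X → a' d = d.symm := fun d hd => h.aoff d (fun k => hd k.2)
  have hsym' : ∀ d : G.Dart, d.fst ∉ X → a' d = d.symm := fun d hd => h.aoff d (fun k => hd k.1)
  have βsym : ∀ d : G.Dart, d.snd ∉ X → β d.symm = some (idn a b d.snd) :=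
    fun d hd => βout d.symm hd
  refine minor s a' h.aa h.gen β hβ (fun d e v hd he => ?_) _ (fun u v huv => ?_)
  · by_cases hv : v ∈ X
    · have key : ∀ x : G.Dart, β x = some v → x.fst ∈ X := by
        intro x hx
        by_contra hc
        rw [βout x hc] at hx
        exact ring_idn_nmem hab hc (Option.some.inj hx ▸ hv)
      refine min_eqv s a' β hβ hd (zone d e v (key d hd) (key e he) ?_ ?_ hv)
      · rw [← βin d (key d hd), hd]
      · rw [← βin e (key e he), he]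
    · -- step across an edge leaving `X`
      have cross : ∀ x : G.Dart, β x = some v → x.snd ∉ X → idn a b x.snd = v →
          Relation.EqvGen (fun x y => β x = some v ∧ β y = some v ∧ (y = s x ∨ y = a' x))
            x x.symm := by
        intro x hx h1 h2
        exact Relation.EqvGen.rel _ _ ⟨hx, by rw [βsym x h1, h2], Or.inr (hsym x h1).symm⟩
      have out : ∀ x : G.Dart, β x = some v → ∃ y : G.Dart, y.fst ∉ X ∧ idn a b y.fst = v ∧
          Relation.EqvGen (fun x y => β x = some v ∧ β y = some v ∧ (y = s x ∨ y = a' x))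
            x y := by
        intro x hx
        by_cases hc : x.fst ∈ X
        · obtain ⟨y, h1, h2, h3⟩ := anchor x v hc (by rw [← βin x hc, hx]) hv
          have h4 : β y = some v := by rw [min_lab' s β hβ h1, hx]
          exact ⟨y.symm, h2, h3, (min_eqv s a' β hβ hx h1).trans _ _ _ (cross y h4 h2 h3)⟩
        · refine ⟨x, hc, ?_, Relation.EqvGen.refl _⟩
          rw [βout x hc] at hx
          exact Option.some.inj hx
      have same : ∀ x y : G.Dart, x.fst ∉ X → idn a b x.fst = v → x.fst = y.fst →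
          Relation.EqvGen (fun x y => β x = some v ∧ β y = some v ∧ (y = s x ∨ y = a' x))
            x y := by
        intro x y h1 h2 h3
        exact min_eqv s a' β hβ (by rw [βout x h1, h2]) (ring_off_cyc hr h h1 h3)
      have link : ∀ x y : G.Dart, a ≠ b → v = a → x.fst = a → y.fst = b →
          Relation.EqvGen (fun x y => β x = some v ∧ β y = some v ∧ (y = s x ∨ y = a' x))
            x y := by
        intro x y hne hva hx hy
        obtain ⟨haX, hbX⟩ := hab.resolve_left hne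
        obtain ⟨d0, e0, k1, k2, k3, k4, k5⟩ := ident hne
        have b1 : β d0 = some v := by rw [βin d0 k1, k5, hva]
        have b2 : β e0 = some v := by rw [min_lab' s β hβ k2, b1]
        have c1 := cross d0 b1 (by rw [k3]; exact haX) (by rw [k3, ring_idn_a, hva])
        have c2 := cross e0 b2 (by rw [k4]; exact hbX) (by rw [k4, ring_idn_b, hva])
        have c3 := same x d0.symm (by rw [hx]; exact haX) (by rw [hx, ring_idn_a, hva])
          (hx.trans k3.symm)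
        have c4 := same y e0.symm (by rw [hy]; exact hbX) (by rw [hy, ring_idn_b, hva])
          (hy.trans k4.symm)
        exact (c3.trans _ _ _ (c1.symm _ _)).trans _ _ _
          (((min_eqv s a' β hβ b1 k2).trans _ _ _ c2).trans _ _ _ (c4.symm _ _))
      obtain ⟨x, x1, x2, x3⟩ := out d hd
      obtain ⟨y, y1, y2, y3⟩ := out e he
      refine (x3.trans _ _ _ ?_).trans _ _ _ (y3.symm _ _)
      rcases ring_jump (x2.trans y2.symm) with k | ⟨hne, k1, ⟨k2, k3⟩ | ⟨k2, k3⟩⟩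
      · exact same x y x1 x2 k
      · exact link x y hne (x2.symm.trans k1) k2 k3
      · exact (link y x hne (x2.symm.trans k1) k3 k2).symm _ _
  · have arc : ∀ p q, E p q → (∃ d, β d = some (idn a b p) ∧ β (a' d) = some (idn a b q)) ∧
        ∃ d, β d = some (idn a b q) ∧ β (a' d) = some (idn a b p) := by
      intro p q hpq
      obtain ⟨d, h1, h2, h3⟩ := arcs p q hpq
      have e1 : β (a' d) = some (idn a b d.snd) := by rw [hsym d h2, βsym d h2]
      have e2 : β (a' d.symm) = lab d := by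
        rw [hsym' d.symm h2, SimpleGraph.Dart.symm_symm, βin d h1]
      rcases h3 with ⟨h3, h4⟩ | ⟨h3, h4⟩
      · exact ⟨⟨d, by rw [βin d h1, h3], by rw [e1, h4]⟩,
          ⟨d.symm, by rw [βsym d h2, h4], by rw [e2, h3]⟩⟩
      · exact ⟨⟨d.symm, by rw [βsym d h2, h4], by rw [e2, h3]⟩,
          ⟨d, by rw [βin d h1, h3], by rw [e1, h4]⟩⟩
    obtain ⟨-, p, q, hb, rfl, rfl⟩ := huv
    rcases hb with ⟨h1, h2, h3⟩ | h1 | h1
    · refine ⟨⟨(p, q), h1⟩, βout _ h2, ?_⟩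
      rw [hsym _ h3]
      exact βsym _ h3
    · exact (arc p q h1).1
    · exact (arc q p h1).2

omit [Fintype V] in
theorem ring_lk0 (X : Set V) (a b u v : V) : Lk G X a b 0 u v ↔ idn a b u = idn a b v := by
  constructor
  · rintro (h | ⟨_, i, hi, h⟩)
    · have h' : u = v := h
      rw [h']
    · obtain rfl : i = 0 := Nat.le_zero.1 hi
      rcases h with ⟨h1, h2⟩ | ⟨h1, h2⟩
      · have h1' : u = a := h1
        have h2' : b = v := h2
        rw [h1', ← h2', ring_idn_a, ring_idn_b]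
      · have h1' : u = b := h1
        have h2' : a = v := h2
        rw [h1', ← h2', ring_idn_a, ring_idn_b]
  · intro h
    rcases ring_jump h with k | ⟨hne, _, ⟨k2, k3⟩ | ⟨k2, k3⟩⟩
    · exact Or.inl k
    · exact Or.inr ⟨hne, 0, le_rfl, Or.inl ⟨k2, k3.symm⟩⟩
    · exact Or.inr ⟨hne, 0, le_rfl, Or.inr ⟨k2, k3.symm⟩⟩

omit [Fintype V] in
/-- gluing two walks along a jump -/
theorem ring_lk_jump {X : Set V} {a b x y u v : V} {i j : ℕ} (hne : a ≠ b)
    (hj : (x = a ∧ y = b) ∨ (x = b ∧ y = a)) (h1 : Wk G X i u x) (h2 : Wk G X j y v) :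
    Lk G X a b (i + j) u v := by
  refine Or.inr ⟨hne, i, Nat.le_add_right _ _, ?_⟩
  rw [Nat.add_sub_cancel_left]
  rcases hj with ⟨rfl, rfl⟩ | ⟨rfl, rfl⟩
  · exact Or.inl ⟨h1, h2⟩
  · exact Or.inr ⟨h1, h2⟩

omit [Fintype V] in
theorem ring_lk1 {X : Set V} {a b s p x y : V} (h1 : idn a b s = idn a b x)
    (he : Wk G X 1 x y) (h2 : idn a b y = idn a b p) (hne : idn a b s ≠ idn a b p) :
    Lk G X a b 1 s p := by
  rcases ring_jump h1 with rfl | ⟨hab, k1, k2⟩
  · rcases ring_jump h2 with rfl | ⟨hab, _, k4⟩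
    · exact Or.inl he
    · exact ring_lk_jump (i := 1) (j := 0) hab k4 he rfl
  · rcases ring_jump h2 with rfl | ⟨_, k3, _⟩
    · exact ring_lk_jump (i := 0) (j := 1) hab k2 rfl he
    · exact absurd (k1.trans (k3.symm.trans h2)) hne

omit [Fintype V] in
theorem ring_wk2 {X : Set V} {u w v : V} (h1 : Wk G X 1 u w) (h2 : Wk G X 1 w v) (hne : u ≠ v) :
    Wk G X 2 u v := ⟨w, h1.1, h2.1, hne, h1.2.1, h1.2.2, h2.2.2⟩

omit [Fintype V] in
theorem ring_lk2 {X : Set V} {a b q p x y z w : V} (h1 : idn a b q = idn a b x)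
    (e1 : Wk G X 1 x y) (h2 : idn a b y = idn a b z) (e2 : Wk G X 1 z w)
    (h3 : idn a b w = idn a b p) (n1 : idn a b q ≠ idn a b y) (n2 : idn a b y ≠ idn a b p)
    (n3 : idn a b q ≠ idn a b p) : Lk G X a b 2 q p := by
  rcases ring_jump h1 with rfl | ⟨hab, k1, k2⟩
  · rcases ring_jump h2 with rfl | ⟨hab, k3, k4⟩
    · rcases ring_jump h3 with rfl | ⟨hab, _, k6⟩
      · exact Or.inl (ring_wk2 e1 e2 (fun k => n3 (by rw [k])))
      · exact ring_lk_jump (i := 2) (j := 0) hab k6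
          (ring_wk2 e1 e2 (fun k => n3 (by rw [k, h3]))) rfl
    · rcases ring_jump h3 with rfl | ⟨_, k5, _⟩
      · exact ring_lk_jump (i := 1) (j := 1) hab k4 e1 e2
      · exact absurd (k3.trans (k5.symm.trans h3)) n2
  · rcases ring_jump h2 with rfl | ⟨_, k3, _⟩
    · rcases ring_jump h3 with rfl | ⟨_, k5, _⟩
      · exact ring_lk_jump (i := 0) (j := 2) hab k2 rfl
          (ring_wk2 e1 e2 (fun k => n3 (by rw [h1, k])))
      · exact absurd (k1.trans (k5.symm.trans h3)) n3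
    · exact absurd (k1.trans k3.symm) n1

omit [Fintype V] in
theorem ring_wk3 {X : Set V} {a b x y z w : V} (hj : (w = a ∧ x = b) ∨ (w = b ∧ x = a))
    (e1 : Wk G X 1 x y) (e2 : Wk G X 1 y z) (e3 : Wk G X 1 z w) (n1 : x ≠ z) (n2 : y ≠ w) :
    Wk G X 3 a b := by
  rcases hj with ⟨rfl, rfl⟩ | ⟨rfl, rfl⟩
  · exact ⟨z, y, e3.1.symm, e2.1.symm, e1.1.symm, n2.symm, n1.symm, e3.2.2, e3.2.1, e2.2.1,
      e1.2.1⟩
  · exact ⟨y, z, e1.1, e2.1, e3.1, n1, n2, e1.2.1, e2.2.1, e3.2.1, e3.2.2⟩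

omit [Fintype V] in
theorem ring_tri0 (ht : G.CliqueFree 3) {X : Set V} {a b p1 q1 p2 q2 p3 q3 : V}
    (s0 : a ≠ b → ¬ Wk G X 3 a b) (e1 : Wk G X 1 p1 q1) (e2 : Wk G X 1 p2 q2)
    (e3 : Wk G X 1 p3 q3) (h1 : idn a b q1 = idn a b p2) (h2 : idn a b q2 = idn a b p3)
    (h3 : idn a b q3 = idn a b p1) (n1 : idn a b p1 ≠ idn a b p2) (n2 : idn a b p2 ≠ idn a b p3)
    (n3 : idn a b p3 ≠ idn a b p1) : False := by
  classical
  rcases ring_jump h1 with rfl | ⟨hab, k1, k2⟩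
  · rcases ring_jump h2 with rfl | ⟨hab, k3, k4⟩
    · rcases ring_jump h3 with rfl | ⟨hab, _, k6⟩
      · exact ht {q3, q1, q2} (SimpleGraph.is3Clique_triple_iff.2 ⟨e1.1, e3.1.symm, e2.1⟩)
      · exact s0 hab (ring_wk3 k6 e1 e2 e3 (fun k => n3 (by rw [k]))
          (fun k => n1 (by rw [k, h3])))
    · rcases ring_jump h3 with rfl | ⟨_, k5, _⟩
      · exact s0 hab (ring_wk3 k4 e3 e1 e2 (fun k => n2 (by rw [k]))
          (fun k => n3 (by rw [k, h2])))
      · exact n3 (h2.symm.trans (k3.trans (k5.symm.trans h3)))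
  · rcases ring_jump h2 with rfl | ⟨_, k3, _⟩
    · rcases ring_jump h3 with rfl | ⟨_, k5, _⟩
      · exact s0 hab (ring_wk3 k2 e2 e3 e1 (fun k => n1 (by rw [k]))
          (fun k => n2 (by rw [k, h1])))
      · exact n1 (h3.symm.trans (k5.trans (k1.symm.trans h1)))
    · exact n2 (h1.symm.trans (k1.trans (k3.symm.trans h2)))

omit [Fintype V] in
theorem ring_adj {X : Set V} {E : V → V → Prop} {a b : V} (hs : Safe G X E a b) {u v : V}
    (h : (redG G X E a b).Adj u v) :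
    u ≠ v ∧ ∃ p q, (Wk G X 1 p q ∨ E p q) ∧ idn a b p = u ∧ idn a b q = v := by
  obtain ⟨hne, p, q, hb, hp, hq⟩ := h
  refine ⟨hne, p, q, ?_, hp, hq⟩
  rcases hb with h1 | h1 | h1
  · exact Or.inl h1
  · exact Or.inr h1
  · exact Or.inr (hs.symm _ _ h1)

omit [Fintype V] in
theorem ring_free (ht : G.CliqueFree 3) {X : Set V} {E : V → V → Prop} {a b : V}
    (hs : Safe G X E a b) : (redG G X E a b).CliqueFree 3 := by
  classical
  intro t htc
  obtain ⟨u, v, w, huv, huw, hvw, -⟩ := SimpleGraph.is3Clique_iff.1 htc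
  obtain ⟨n1, p1, q1, e1, a1, b1⟩ := ring_adj hs huv
  obtain ⟨n2, p2, q2, e2, a2, b2⟩ := ring_adj hs hvw
  obtain ⟨n3, p3, q3, e3, a3, b3⟩ := ring_adj hs huw.symm
  have h1 : idn a b q1 = idn a b p2 := b1.trans a2.symm
  have h2 : idn a b q2 = idn a b p3 := b2.trans a3.symm
  have h3 : idn a b q3 = idn a b p1 := b3.trans a1.symm
  -- one arc
  have one : ∀ {p1 q1 p2 q2 p3 q3 : V}, E p1 q1 → Wk G X 1 p2 q2 → Wk G X 1 p3 q3 →
      idn a b q1 = idn a b p2 → idn a b q2 = idn a b p3 → idn a b q3 = idn a b p1 →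
      idn a b p1 ≠ idn a b p2 → idn a b p2 ≠ idn a b p3 → idn a b p3 ≠ idn a b p1 → False := by
    intro p1 q1 p2 q2 p3 q3 e1 e2 e3 h1 h2 h3 n1 n2 n3
    exact (hs.s1 p1 q1 e1).2 (ring_lk2 h1 e2 h2 e3 h3 (by rw [h1, h2]; exact n2)
      (by rw [h2]; exact n3) (by rw [h1]; exact n1.symm))
  have two : ∀ {p1 q1 p2 q2 p3 q3 : V}, E p1 q1 → E p2 q2 → Wk G X 1 p3 q3 →
      idn a b q1 = idn a b p2 → idn a b q2 = idn a b p3 → idn a b q3 = idn a b p1 →
      idn a b p3 ≠ idn a b p1 → False := by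
    intro p1 q1 p2 q2 p3 q3 e1 e2 e3 h1 h2 h3 n3
    have k : idn a b q2 ≠ idn a b p1 := by rw [h2]; exact n3
    exact k ((ring_lk0 X a b _ _).1 (hs.s2 p1 q1 p2 q2 e1 e2 ((ring_lk0 X a b _ _).2 h1)
      (ring_lk1 h2 e3 h3 k)))
  have m1 : idn a b p1 ≠ idn a b p2 := by rw [a1, a2]; exact n1
  have m2 : idn a b p2 ≠ idn a b p3 := by rw [a2, a3]; exact n2
  have m3 : idn a b p3 ≠ idn a b p1 := by rw [a3, a1]; exact n3
  rcases e1 with e1 | e1 <;> rcases e2 with e2 | e2 <;> rcases e3 with e3 | e3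
  · exact ring_tri0 ht (fun k => (hs.s0 k).2) e1 e2 e3 h1 h2 h3 m1 m2 m3
  · exact one e3 e1 e2 h3 h1 h2 m3 m1 m2
  · exact one e2 e3 e1 h2 h3 h1 m2 m3 m1
  · exact two e2 e3 e1 h2 h3 h1 m1
  · exact one e1 e2 e3 h1 h2 h3 m1 m2 m3
  · exact two e3 e1 e2 h3 h1 h2 m2
  · exact two e1 e2 e3 h1 h2 h3 m3
  · rcases hs.s3 p1 q1 p2 q2 p3 q3 e1 e2 e3 ((ring_lk0 X a b _ _).2 h1)
      ((ring_lk0 X a b _ _).2 h2) ((ring_lk0 X a b _ _).2 h3) with k | k | k
    · exact m3 (h2.symm.trans ((ring_lk0 X a b _ _).1 k))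
    · exact m1 (h3.symm.trans ((ring_lk0 X a b _ _).1 k))
    · exact m2 (h1.symm.trans ((ring_lk0 X a b _ _).1 k))

theorem ring_col (h : MinCE G L σ) (X : Set V) (E : V → V → Prop) (a b : V) (M : V → Finset ℕ)
    (hab : a = b ∨ (a ∉ X ∧ b ∉ X)) (hpl : Pl (redG G X E a b)) (hs : Safe G X E a b)
    (hx : ∃ x ∈ X, (∃ w, G.Adj x w) ∧ ∀ q, ¬ E x q)
    (hE : ∀ p q, E p q → ∃ w, G.Adj p w) (ha : a ≠ b → ∃ w, G.Adj a w)
    (hM : ∀ v, v ∉ X → M v = L v) (hM3 : ∀ v, 3 ≤ (M v).card) (hMab : M a = M b)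
    (hc : ∀ p q, E p q → (M p).card = 3 → M p ⊆ M q) :
    ∃ c : V → ℕ, (∀ v, c v ∈ M v) ∧ (∀ u v, G.Adj u v → u ∉ X → v ∉ X → c u ≠ c v) ∧
      (∀ p q, E p q → c p ≠ c q) ∧ c a = c b := by
  have hMi : ∀ v, M (idn a b v) = M v := by
    intro v
    rcases ring_idn_cases a b v with h1 | ⟨_, h1, h2⟩
    · rw [h1]
    · rw [h2, h1, hMab]
  have hin : InC (redG G X E a b) M := by
    refine ⟨hM3, fun u v huv h3 => ?_⟩
    obtain ⟨-, p, q, e, rfl, rfl⟩ := ring_adj hs huv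
    rw [hMi] at h3
    rw [hMi, hMi]
    rcases e with e | e
    · rw [hM p e.2.1] at h3 ⊢
      rw [hM q e.2.2]
      exact h.cls.2 p q e.1 h3
    · exact hc p q e h3
  obtain ⟨x, hxX, hxw, hxE⟩ := hx
  have hlt : (redG G X E a b).support.ncard < G.support.ncard := by
    refine Set.ncard_lt_ncard ⟨fun u hu => ?_, fun hsub => ?_⟩ (Set.toFinite _)
    · obtain ⟨v, huv⟩ := (SimpleGraph.mem_support _).1 hu
      obtain ⟨-, p, q, e, rfl, rfl⟩ := ring_adj hs huv
      rw [SimpleGraph.mem_support]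
      rcases ring_idn_cases a b p with h1 | ⟨hne, _, h2⟩
      · rw [h1]
        rcases e with e | e
        · exact ⟨q, e.1⟩
        · exact hE p q e
      · rw [h2]; exact ha hne
    · obtain ⟨v, huv⟩ := (SimpleGraph.mem_support _).1 (hsub ((SimpleGraph.mem_support _).2 hxw))
      obtain ⟨-, p, q, e, hp, -⟩ := ring_adj hs huv
      rcases ring_idn_cases a b p with h1 | ⟨hne, _, h2⟩
      · rw [h1] at hp
        subst hp
        rcases e with e | e
        · exact e.2.1 hxX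
        · exact hxE q e
      · rw [h2] at hp
        exact (hab.resolve_left hne).1 (hp ▸ hxX)
  obtain ⟨c, hc1, hc2⟩ := h.min1 _ M hpl (ring_free h.tri hs) hin hlt
  refine ⟨fun v => c (idn a b v), fun v => hMi v ▸ hc1 _, fun u v huv hu hv => ?_,
    fun p q hpq => ?_, ?_⟩
  · refine hc2 _ _ ⟨fun k => ?_, u, v, Or.inl ⟨huv, hu, hv⟩, rfl, rfl⟩
    rcases ring_jump k with k1 | ⟨hne, _, ⟨rfl, rfl⟩ | ⟨rfl, rfl⟩⟩
    · exact huv.ne k1
    · exact (hs.s0 hne).1 ⟨huv, hu, hv⟩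
    · exact (hs.s0 hne).1 ⟨huv.symm, hv, hu⟩
  · exact hc2 _ _ ⟨fun k => (hs.s1 p q hpq).1 ((ring_lk0 X a b _ _).2 k.symm), p, q,
      Or.inr (Or.inl hpq), rfl, rfl⟩
  · show c (idn a b a) = c (idn a b b)
    rw [ring_idn_a, ring_idn_b]

end Pool.Agent.Lib.MP_bfaad3_co
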