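import Pool.Agent.Lib.MP_bfaad3_co.Rules
import Pool.Agent.Lib.MP_bfaad3_co.PM1
import Pool.Agent.Lib.MP_bfaad3_co.Kernel

set_option autoImplicit false

/-! The vertex inequalities of the discharging. -/

namespace Pool.Agent.Lib.MP_bfaad3_co

open Equiv

universe u

attribute [local irreducible] PV XP SD1 SD2 TABP PAIRP

theorem rv_tS (s : ℕ) {t : ℕ} (ht : t < 12) : (tS s).testBit (30 + t) = !s.testBit t := by
  change ((4095 ^^^ s) <<< 30).testBit _ = _
  have h : Nat.testBit 4095 t = true := by interval_cases t <;> decide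
  rw [Nat.testBit_shiftLeft, Nat.testBit_xor, Nat.add_sub_cancel_left, h]
  simp

theorem rv_fS (s : ℕ) {t : ℕ} (ht : t < 3) : (fS s).testBit (42 + t) = !s.testBit t := by
  change ((7 ^^^ s) <<< 42).testBit _ = _
  have h : Nat.testBit 7 t = true := by interval_cases t <;> decide
  rw [Nat.testBit_shiftLeft, Nat.testBit_xor, Nat.add_sub_cancel_left, h]
  simp

theorem rv_rg (g r : ℕ) : rg g r = g / 2 ^ (r * 10) % 1024 := by
  change g >>> (r * 10) &&& (2 ^ 10 - 1) = _
  rw [Nat.and_two_pow_sub_one_eq_mod, Nat.shiftRight_eq_div_pow]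

theorem rv_ini {c : ℕ} (hc : c ≤ 1023) :
    rg (iniA c) 0 = 1023 ∧ rg (iniA c) 1 = c ∧ rg (iniA c) 2 = 1023 := by
  simp only [rv_rg, iniA]
  norm_num
  omega

theorem RInv.le {Q : ℕ → ℕ} {g : ℕ} (h : RInv Q g) (r : ℕ) (hr : Q r ≤ 1023) : Q r ≤ rg g r := by
  by_cases h1 : rg g r < 1023
  · exact h r h1
  · omega

section

variable {V : Type u} {G : SimpleGraph V} {L : V → Finset ℕ} {σ : Perm G.Dart} {A : Set G.Dart}

theorem run_askT (w : W) (s : ℕ) (y n : Prog) (e : G.Dart) : run L σ A (.askT w (tS s) y n) e =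
    if s.testBit (ty L A (wr σ w e).fst) then run L σ A y e else run L σ A n e := by
  rw [run, rv_tS s (ty_lt _)]
  cases s.testBit (ty L A (wr σ w e).fst) <;> rfl

theorem run_askF (w : W) (s : ℕ) (y n : Prog) (e : G.Dart) : run L σ A (.askF w (fS s) y n) e =
    if s.testBit (fc σ (wr σ w e)) then run L σ A y e else run L σ A n e := by
  rw [run, rv_fS s (fc_lt _)]
  cases s.testBit (fc σ (wr σ w e)) <;> rfl

theorem rv_ty (L : V → Finset ℕ) {A : Set G.Dart} {v : V} (hv : Intr A v) :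
    (ty L A v = 0 ∧ dg G v = 3) ∨ ((ty L A v = 1 ∨ ty L A v = 3) ∧ dg G v = 4) ∨
    ((ty L A v = 2 ∨ ty L A v = 4 ∨ ty L A v = 5) ∧ dg G v = 5) ∨
    (dg G v ≠ 3 ∧ dg G v ≠ 4 ∧ dg G v ≠ 5 ∧ (ty L A v = 6 ∨ ty L A v = 7 ∨ ty L A v = 11 ∨
      (ty L A v = 8 ∧ (L v).card ≠ 3 ∧ (L v).card ≠ 4 ∧ ¬ (dg G v = 6 ∧ (L v).card = 5)))) := by
  unfold ty
  rw [if_pos hv]
  split_ifs <;> simp_all

theorem rv_ty0 {v : V} (h : ty L A v = 0) : Intr A v ∧ dg G v = 3 := by
  unfold ty at h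
  split_ifs at h <;> simp_all

theorem rv_ty5 {v : V} (h : ty L A v = 5) :
    dg G v = 5 ∧ (L v).card ≠ 3 ∧ (L v).card ≠ 4 := by
  unfold ty at h
  split_ifs at h <;> simp_all

theorem rv_cost (d : G.Dart) : (run L σ A PV d : ℤ) - 72 + run L σ A QP d -
    run L σ A QP (phi σ (phi σ d)) ≤ run L σ A COST d - 144 := by
  have e0 : run L σ A COST0 d = run L σ A PV d + (run L σ A QP d + 72) := rfl
  have e1 : run L σ A (.add PV .e (.add QP .e (.sub 72 QP f2 (.ret 0)))) d =
      run L σ A PV d + (run L σ A QP d + (72 - run L σ A QP (phi σ (phi σ d)) + 0)) := rfl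
  rw [COST, run_askT, run_askF, e0, e1]
  split_ifs <;> omega

theorem rv_QP (d : G.Dart) :
    run L σ A QP d ≤ run L σ A Q0 d + (run L σ A Q1 d + run L σ A Q2 d) := by
  rw [QP, run_askT]
  split_ifs
  · exact le_rfl
  · exact Nat.zero_le _

end

variable {V : Type u} [Fintype V] {G : SimpleGraph V} {L : V → Finset ℕ} {σ : Perm G.Dart}
  {A : Set G.Dart}

theorem tgB_out (hc : Ctx G L σ A) {hyp p q : Prog} (h : Snd.{u} (tgB hyp p q) (0, 256, iniA 1023))
    (e : G.Dart) : run L σ A hyp e = 0 ∨ run L σ A p e + run L σ A q e ≤ 600 := by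
  obtain ⟨i0, i1, i2⟩ := rv_ini (c := 1023) le_rfl
  refine h.start hc e (fun r => if r = 0 then run L σ A p e else if r = 1 then run L σ A q e else
    if r = 2 then run L σ A hyp e else 0) _ ⟨⟨le_rfl, le_rfl, le_rfl⟩, fun g c h1 h2 => ?_⟩ fun r hr => ?_
  · have h0 := h1 0
    have h3 := h1 1
    have h4 := h1 2
    have h2 : finA g c = true := h2
    simp only [finA, sel_eq, Nat.beq_eq, Nat.add_eq] at h2
    simp only [if_true, one_ne_zero, if_false, OfNat.ofNat_ne_zero, OfNat.ofNat_ne_one] at h0 h3 h4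
    split_ifs at h2
    · rw [Nat.beq_eq] at h2; omega
    · rw [Nat.ble_eq] at h2; omega
  · dsimp only
    split_ifs with a b c
    · subst a; omega
    · subst b; omega
    · subst c; omega
    · exact Nat.zero_le _

theorem tgA_out (hc : Ctx G L σ A) {hyp p : Prog} {c : ℕ} (hc' : c ≤ 1023)
    (h : Snd.{u} (tgA hyp p) (0, 256, iniA c)) (e : G.Dart) :
    run L σ A hyp e = 0 ∨ run L σ A p e + c ≤ 600 := by
  obtain ⟨i0, i1, i2⟩ := rv_ini hc'
  refine h.start hc e (fun r => if r = 0 then run L σ A p e else if r = 1 then c else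
    if r = 2 then run L σ A hyp e else 0) _ ⟨⟨le_rfl, le_rfl⟩, fun g c h1 h2 => ?_⟩ fun r hr => ?_
  · have h0 := h1 0
    have h3 := h1 1
    have h4 := h1 2
    have h2 : finA g c = true := h2
    simp only [finA, sel_eq, Nat.beq_eq, Nat.add_eq] at h2
    simp only [if_true, one_ne_zero, if_false, OfNat.ofNat_ne_zero, OfNat.ofNat_ne_one] at h0 h3 h4
    split_ifs at h2
    · rw [Nat.beq_eq] at h2; omega
    · rw [Nat.ble_eq] at h2; omega
  · dsimp only
    split_ifs with a b c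
    · subst a; omega
    · subst b; omega
    · subst c; omega
    · exact Nat.zero_le _

theorem rv_tabp (e : G.Dart) : run L σ A TABP e ≤ 216 := by
  obtain ⟨h, h1, rfl⟩ := hom_start (L := L) (σ := σ) (A := A) e
  exact (ev_up h1 TABP (Or.inr (Or.inr ⟨⟨le_rfl, by norm_num, by norm_num⟩, rfl⟩))).trans
    (by decide +kernel : ev 0 TABP true 128 ≤ 216)

omit [Fintype V] in
theorem rv_d5 {e : G.Dart} (h : ty L A e.fst = 2 ∨ ty L A e.fst = 4 ∨ ty L A e.fst = 5) :
    run L σ A ISD5 e = 1 := by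
  rw [ISD5, run_askT]
  have : Nat.testBit 52 (ty L A (wr σ .e e).fst) = true := by
    change Nat.testBit 52 (ty L A e.fst) = true
    rcases h with h | h | h <;> rw [h] <;> decide
  rw [if_pos this]; rfl

theorem rv_tab (hc : Ctx G L σ A) (hTab : Snd.{u} tTab (0, 256, iniA 1023)) {e : G.Dart}
    (h : run L σ A ISD5 e = 1) : run L σ A COST e ≤ run L σ A TABP e := by
  have h1 := tgB_out hc hTab e
  have h2 := rv_tabp (L := L) (σ := σ) (A := A) e
  have e1 : run L σ A (.sub 600 TABP .e (.ret 0)) e = 600 - run L σ A TABP e + 0 := rfl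
  omega

theorem rv_pair (hc : Ctx G L σ A) (hPair : Snd.{u} tPair (0, 256, 2 ^ 40 - 1)) {e : G.Dart}
    (h : run L σ A ISD5 e = 1) (h0 : run L σ A COST e ≤ run L σ A TABP e)
    (h1 : run L σ A COST (σ e) ≤ run L σ A TABP (σ e)) (k0 : 144 < run L σ A COST e)
    (k1 : 144 < run L σ A COST (σ e)) :
    run L σ A COST e + run L σ A COST (σ e) ≤ run L σ A PAIRP e := by
  refine hPair.start hc e (fun r => if r = 0 then run L σ A COST e else if r = 1 then
    run L σ A COST (σ e) else if r = 2 then 600 - run L σ A PAIRP e else if r = 3 then 1 else 0) _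
    ⟨⟨⟨h.ge, h0, h1⟩, le_rfl, le_rfl, le_rfl⟩, fun g c j1 j2 => ?_⟩ fun r hr => ?_
  · have a0 : rg g 0 < 1023 → run L σ A COST e ≤ rg g 0 := j1 0
    have a1 : rg g 1 < 1023 → run L σ A COST (σ e) ≤ rg g 1 := j1 1
    have a2 : rg g 2 < 1023 → 600 - run L σ A PAIRP e ≤ rg g 2 := j1 2
    have a3 : rg g 3 < 1023 → 1 ≤ rg g 3 := j1 3
    have j2 : finP g c = true := j2
    simp only [finP, sel_eq, Nat.add_eq] at j2
    split_ifs at j2
    · rw [Nat.beq_eq] at j2; omega
    all_goals rw [Nat.ble_eq] at j2; omega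
  · by_cases h4 : r < 4
    · interval_cases r <;> exact absurd hr (by decide)
    · dsimp only
      rw [if_neg (by omega), if_neg (by omega), if_neg (by omega), if_neg (by omega)]
      exact Nat.zero_le _

theorem rv_pj {C : ℕ → ℕ} {np g j : ℕ} (b : ℕ) (hC : ∀ i, C i ≤ 216) (h1 : C j ≤ rg g j)
    (h2 : C ((j + 1) % 5) ≤ rg g ((j + 1) % 5))
    (h3 : j < np → C j + C ((j + 1) % 5) ≤ rg g (j + 5)) : C j + C ((j + 1) % 5) ≤ pj np g j b := by
  have e : pj np g j b = sel (Nat.beq (Nat.land b 1) 0) (rg g j + rg g ((j + 1) % 5))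
    (sel (Nat.blt j np) (rg g (j + 5)) 5000) := rfl
  have := hC j
  have := hC ((j + 1) % 5)
  rw [e, sel_eq, sel_eq]
  split_ifs with a b
  · omega
  · exact h3 (Nat.blt_eq.mp b)
  · omega

theorem rv_five (hc : Ctx G L σ A) {ns np regs : ℕ} (hn : ∀ j < np, j < ns ∧ (j + 1) % 5 < ns)
    (hns : ns ≤ 5) (hnp : np ≤ 5) (h : Snd.{u} ⟨stV, finV ns np⟩ (0, 256, regs)) {e : G.Dart}
    (hD : run L σ A ISD5 e = 1) (h5 : (σ ^ 5) e = e)
    (hT : ∀ i : ℕ, run L σ A COST ((σ ^ i) e) ≤ run L σ A TABP ((σ ^ i) e))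
    (hP : ∀ i : ℕ, 144 < run L σ A COST ((σ ^ i) e) → 144 < run L σ A COST ((σ ^ (i + 1)) e) →
      run L σ A COST ((σ ^ i) e) + run L σ A COST ((σ ^ (i + 1)) e) ≤ run L σ A PAIRP ((σ ^ i) e))
    (hr : ∀ r ≤ 10, rg regs r < 1023 → r = 4 ∧ run L σ A COST ((σ ^ 4) e) ≤ rg regs r) :
    (∃ i < ns, run L σ A COST ((σ ^ i) e) ≤ 144) ∨
      ∑ i ∈ Finset.range 5, run L σ A COST ((σ ^ i) e) ≤ 936 := by
  have w1 : wr σ n1 e = (σ ^ 1) e := rfl
  have w2 : wr σ n2 e = (σ ^ 2) e := rfl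
  have w3 : wr σ n3 e = (σ ^ 3) e := rfl
  have w4 : wr σ n4 e = (σ ^ 4) e := rfl
  have mv : ∀ w P, run L σ A (.mv w P) e = run L σ A P (wr σ w e) := fun _ _ => rfl
  set C : ℕ → ℕ := fun i => run L σ A COST ((σ ^ i) e) with hCd
  have hC : ∀ i, C i ≤ 216 := fun i => (hT i).trans (rv_tabp _)
  have c5 : C 5 = C 0 := by simp only [hCd, h5, pow_zero, Perm.one_apply]
  have hP' : ∀ i < 5, (if 144 < C i ∧ 144 < C ((i + 1) % 5) then C i + C ((i + 1) % 5) else 0) ≤
      run L σ A PAIRP ((σ ^ i) e) := by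
    intro i hi
    have : C ((i + 1) % 5) = C (i + 1) := by
      rcases Nat.lt_or_ge (i + 1) 5 with h | h
      · rw [Nat.mod_eq_of_lt h]
      · obtain rfl : i = 4 := by omega
        exact c5.symm
    rw [this]
    split_ifs with a
    · exact hP i a.1 a.2
    · exact Nat.zero_le _
  refine h.start hc e (fun r => if r < 5 then C r else if r < 10 then
    (if 144 < C (r - 5) ∧ 144 < C ((r - 5 + 1) % 5) then C (r - 5) + C ((r - 5 + 1) % 5) else 0)
    else if r = 10 then 1 else 0) _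
    ⟨⟨⟨⟨⟨le_rfl, le_rfl⟩, le_rfl, le_rfl, le_rfl⟩, ⟨hT 0, hT 1⟩, hT 2, hT 3, hT 4⟩,
      ⟨⟨hP' 0 (by norm_num), hP' 1 (by norm_num)⟩, hP' 2 (by norm_num), hP' 3 (by norm_num),
        hP' 4 (by norm_num)⟩, hD.ge⟩, fun g a j1 j2 => ?_⟩ fun r hr' => ?_
  · by_cases hlow : ∃ i < ns, C i ≤ 144
    · exact Or.inl hlow
    right
    push Not at hlow
    have a1 : ∀ j < 5, C j ≤ rg g j := fun j hj => by
      have := j1.le j (by rw [if_pos hj]; have := hC j; omega)
      rwa [if_pos hj] at this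
    have a2 : ∀ j < np, C j + C ((j + 1) % 5) ≤ rg g (j + 5) := fun j hj => by
      have k := hn j hj
      have e1 : (if j + 5 < 5 then C (j + 5) else if j + 5 < 10 then
          (if 144 < C (j + 5 - 5) ∧ 144 < C ((j + 5 - 5 + 1) % 5) then
            C (j + 5 - 5) + C ((j + 5 - 5 + 1) % 5) else 0) else if j + 5 = 10 then 1 else 0) =
          C j + C ((j + 1) % 5) := by
        rw [if_neg (by omega), if_pos (by omega), Nat.add_sub_cancel, if_pos ⟨hlow _ k.1, hlow _ k.2⟩]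
      have := j1.le (j + 5) (by
        rw [e1]; have := hC j; have := hC ((j + 1) % 5); omega)
      rwa [e1] at this
    have a3 : rg g 10 < 1023 → 1 ≤ rg g 10 := j1 10
    have p : ∀ j < 5, ∀ b, C j + C ((j + 1) % 5) ≤ pj np g j b := fun j hj b =>
      rv_pj b hC (a1 j hj) (a1 _ (Nat.mod_lt _ (by norm_num))) (a2 j)
    have j2 : finV ns np g a = true := j2
    simp only [finV, frc_eq, sel_eq, Nat.add_eq] at j2
    simp only [Finset.sum_range_succ, Finset.sum_range_zero]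
    change 0 + C 0 + C 1 + C 2 + C 3 + C 4 ≤ 936
    split_ifs at j2
    · rw [Nat.beq_eq] at j2; omega
    · rw [cj_iff, Nat.blt_eq, Nat.ble_eq] at j2
      have := hlow _ j2.1
      have := a1 _ (j2.1.trans_le hns)
      omega
    · rw [Nat.ble_eq] at j2
      have := a1 0; have := a1 1; have := a1 2; have := a1 3; have := a1 4
      omega
    · rw [cj_iff, Nat.ble_eq, Nat.ble_eq] at j2
      generalize Nat.land (Nat.shiftRight a 3) 7 = i at j2
      obtain ⟨k1, k2⟩ := j2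
      have q1 := p i (by omega) (Nat.shiftRight (Nat.shiftRight a 3) 3)
      have q2 := p ((i + 2) % 5) (Nat.mod_lt _ (by norm_num)) (Nat.shiftRight (Nat.shiftRight a 3) 4)
      have q3 := a1 ((i + 4) % 5) (Nat.mod_lt _ (by norm_num))
      have k3 : C i + C ((i + 1) % 5) + (C ((i + 2) % 5) + C (((i + 2) % 5 + 1) % 5) + C ((i + 4) % 5)) ≤ 936 :=
        le_trans (add_le_add q1 (add_le_add q2 q3)) k2
      clear q1 q2 q3 k2
      interval_cases i <;> simp only [Nat.reduceAdd, Nat.reduceMod, Nat.zero_add] at k3 <;> omega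
    · rw [Nat.ble_eq] at j2
      have k3 : C 0 + C 1 + (C 1 + C 2 + (C 2 + C 3 + (C 3 + C 4 + (C 4 + C 0)))) ≤ 1873 :=
        le_trans (add_le_add (p 0 (by norm_num) _) (add_le_add (p 1 (by norm_num) _) (add_le_add
          (p 2 (by norm_num) _) (add_le_add (p 3 (by norm_num) _) (p 4 (by norm_num) _))))) j2
      omega
  · by_cases h4 : r ≤ 10
    · obtain ⟨rfl, k⟩ := hr r h4 hr'
      exact k
    · dsimp only
      rw [if_neg (by omega), if_neg (by omega), if_neg (by omega)]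
      exact Nat.zero_le _

theorem rv_shift (hr : IsRot G σ) (f : G.Dart → ℕ) (e : G.Dart) (k : ℕ) :
    ∑ i ∈ Finset.range (dg G e.fst), f ((σ ^ (i + k)) e) =
      ∑ i ∈ Finset.range (dg G e.fst), f ((σ ^ i) e) := by
  classical
  induction k with
  | zero => rfl
  | succ k ih =>
    have h1 := Finset.sum_range_succ' (fun i => f ((σ ^ (i + k)) e)) (dg G e.fst)
    have h2 := Finset.sum_range_succ (fun i => f ((σ ^ (i + k)) e)) (dg G e.fst)
    have h3 : (σ ^ (dg G e.fst + k)) e = (σ ^ (0 + k)) e := by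
      rw [add_comm, ← period_eq_dg hr, bas_per, zero_add]
    simp only [add_assoc, add_comm 1 k] at h1
    rw [h3] at h2
    omega

theorem rv_fan (hc : Ctx G L σ A) {d : G.Dart} (h : run L σ A QB d ≠ 0) : Fan L σ A d := by
  have b0 : ∀ t < 12, Nat.testBit 1 t = true → t = 0 := by decide
  have b5 : ∀ t < 12, Nat.testBit 32 t = true → t = 5 := by decide
  rw [QB, run_askF, run_askT, run_askT, run_askT] at h
  split_ifs at h with a1 a2 a3 a4
  · have k1 : fc σ d = 0 := b0 _ ((fc_lt _).trans (by norm_num)) a1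
    have k2 := rv_ty0 (b0 _ (ty_lt _) a2)
    have k3 := rv_ty5 (b5 _ (ty_lt _) a3)
    have k4 := rv_ty0 (b0 _ (ty_lt _) a4)
    have k5 := hc.ce.cls.1 (wr σ w2 d).fst
    refine ⟨?_, k2.1, k2.2, ?_, k4.1, k4.2⟩
    · unfold fc at k1
      split_ifs at k1 <;> simp_all
    · change dg G (wr σ w2 d).fst ≤ (L (wr σ w2 d).fst).card
      omega
  all_goals exact absurd rfl h

theorem rv_q0 (hc : Ctx G L σ A) (e : G.Dart) :
    ∑ i ∈ Finset.range (dg G e.fst), run L σ A Q0 ((σ ^ i) e) ≤ 72 * (dg G e.fst - (L e.fst).card) := by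
  classical
  have h1 : ∀ i ∈ Finset.range (dg G e.fst), run L σ A Q0 ((σ ^ i) e) ≤
      if Fan L σ A ((σ ^ i) e) then 72 else 0 := by
    intro i _
    have e1 : ∀ d, run L σ A (.cnd QB .e (.ret 72) (.ret 0)) d =
      if run L σ A QB d = 0 then 0 else 72 := fun _ => rfl
    rw [Q0, run_askT, e1]
    by_cases hq : run L σ A QB ((σ ^ i) e) = 0
    · rw [if_pos hq]; split_ifs <;> exact Nat.zero_le _
    · rw [if_neg hq, if_pos (rv_fan hc hq)]; split_ifs
      · exact le_rfl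
      · exact Nat.zero_le _
  have h2 := Finset.sum_le_sum h1
  rw [← Finset.sum_filter, Finset.sum_const, smul_eq_mul] at h2
  have h3 : ((Finset.range (dg G e.fst)).filter fun i => Fan L σ A ((σ ^ i) e)).card ≤
      {d : G.Dart | d.fst = e.fst ∧ Fan L σ A d}.ncard := by
    rw [← Set.ncard_coe_finset]
    refine Set.ncard_le_ncard_of_injOn (fun i => (σ ^ i) e) (fun i hi => ?_) (fun i hi j hj hij => ?_)
    · exact ⟨bas_pow_fst hc.ce.rot e i, (Finset.mem_filter.1 hi).2⟩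
    · rw [← period_eq_dg hc.ce.rot] at hi hj
      exact bas_inj σ e (Finset.mem_range.1 (Finset.mem_filter.1 hi).1)
        (Finset.mem_range.1 (Finset.mem_filter.1 hj).1) hij
  have h4 := fan hc e
  omega

theorem rul_v (hc : Ctx G L σ A)
    (hLow : Snd.{u} tLow (0, 256, iniA 1023)) (hR : Snd.{u} tR (0, 256, iniA 456))
    (hTab : Snd.{u} tTab (0, 256, iniA 1023)) (hPair : Snd.{u} tPair (0, 256, 2 ^ 40 - 1))
    (h15 : Snd.{u} tV15 (0, 256, 2 ^ 110 - 1 - 879 * 2 ^ 40))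
    (h31 : Snd.{u} tV31 (0, 256, 2 ^ 110 - 1)) (d : G.Dart) (hd : Intr A d.fst) :
    ∃ e : G.Dart, e.fst = d.fst ∧
      0 ≤ 216 * ((dg G e.fst : ℤ) - 4) + ∑ i ∈ Finset.range (dg G e.fst),
        ((run L σ A QP (phi σ (phi σ ((σ ^ i) e))) : ℤ) - ((run L σ A PV ((σ ^ i) e) : ℤ) - 72) -
          (run L σ A QP ((σ ^ i) e) : ℤ)) := by
  classical
  have hr := hc.ce.rot
  have pf := bas_pow_fst hr
  have red : ∀ (e : G.Dart) (b : ℕ), ∑ i ∈ Finset.range (dg G e.fst), run L σ A COST ((σ ^ i) e) ≤ b →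
      (b : ℤ) + 864 ≤ 360 * dg G e.fst →
      0 ≤ 216 * ((dg G e.fst : ℤ) - 4) + ∑ i ∈ Finset.range (dg G e.fst),
        ((run L σ A QP (phi σ (phi σ ((σ ^ i) e))) : ℤ) - ((run L σ A PV ((σ ^ i) e) : ℤ) - 72) -
          (run L σ A QP ((σ ^ i) e) : ℤ)) := by
    intro e b h1 h2
    have h3 : ∑ i ∈ Finset.range (dg G e.fst), ((144 : ℤ) - run L σ A COST ((σ ^ i) e)) ≤ _ :=
      Finset.sum_le_sum (g := fun i => (run L σ A QP (phi σ (phi σ ((σ ^ i) e))) : ℤ) -
        ((run L σ A PV ((σ ^ i) e) : ℤ) - 72) - (run L σ A QP ((σ ^ i) e) : ℤ)) fun i _ => by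
          have := rv_cost (L := L) (σ := σ) (A := A) ((σ ^ i) e); omega
    rw [Finset.sum_sub_distrib, Finset.sum_const, Finset.card_range, nsmul_eq_mul,
      ← Nat.cast_sum] at h3
    omega
  have low : ∀ b : ℕ, Nat.testBit 11 (ty L A d.fst) = true →
      (if Nat.testBit 1 (ty L A d.fst) then 528 else 456) + b = 600 →
      ∑ i ∈ Finset.range (dg G d.fst), run L σ A COST ((σ ^ i) d) ≤ dg G d.fst * b := by
    intro b h1 h2
    refine (Finset.sum_le_card_nsmul _ _ b fun i _ => ?_).trans (by simp)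
    have h3 := tgB_out hc hLow ((σ ^ i) d)
    have e1 : (wr σ .e ((σ ^ i) d)).fst = d.fst := pf d i
    rw [ISLOW, LIMV, run_askT, run_askT, e1, if_pos h1] at h3
    have e2 : ∀ v, run L σ A (.ret v) ((σ ^ i) d) = v := fun _ => rfl
    simp only [e2] at h3
    omega
  rcases rv_ty L hd with ⟨t, k⟩ | ⟨t, k⟩ | ⟨t, k⟩ | ⟨k1, k2, k3, t⟩
  · exact ⟨d, rfl, red d _ (low 72 (by rw [t]; decide) (by rw [t]; decide)) (by rw [k]; norm_num)⟩
  · exact ⟨d, rfl, red d _ (low 144 (by rcases t with t | t <;> rw [t] <;> decide)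
      (by rcases t with t | t <;> rw [t] <;> decide)) (by rw [k]; norm_num)⟩
  · have D : ∀ e : G.Dart, e.fst = d.fst → run L σ A ISD5 e = 1 := fun e he => rv_d5 (by rwa [he])
    have T : ∀ e : G.Dart, e.fst = d.fst → run L σ A COST e ≤ run L σ A TABP e := fun e he =>
      rv_tab hc hTab (D e he)
    have p5 : ∀ e : G.Dart, e.fst = d.fst → (σ ^ 5) e = e := fun e he => by
      have := bas_per σ e 0
      rwa [period_eq_dg hr, he, k] at this
    have five : ∀ (ns np regs : ℕ) (e : G.Dart), e.fst = d.fst → (∀ j < np, j < ns ∧ (j + 1) % 5 < ns) →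
        ns ≤ 5 → np ≤ 5 → Snd.{u} ⟨stV, finV ns np⟩ (0, 256, regs) →
        (∀ r ≤ 10, rg regs r < 1023 → r = 4 ∧ run L σ A COST ((σ ^ 4) e) ≤ rg regs r) →
        (∃ i < ns, run L σ A COST ((σ ^ i) e) ≤ 144) ∨
          ∑ i ∈ Finset.range 5, run L σ A COST ((σ ^ i) e) ≤ 936 := by
      intro ns np regs e he a1 a2 a3 a4 a5
      refine rv_five hc a1 a2 a3 a4 (D e he) (p5 e he) (fun i => T _ ((pf e i).trans he))
        (fun i b1 b2 => ?_) a5
      rw [bas_succ] at b2 ⊢
      exact rv_pair hc hPair (D _ ((pf e i).trans he)) (T _ ((pf e i).trans he))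
        (T _ ((hr.1 _).trans ((pf e i).trans he))) b1 b2
    have fin : ∀ e : G.Dart, e.fst = d.fst → ∑ i ∈ Finset.range 5, run L σ A COST ((σ ^ i) e) ≤ 936 →
        ∃ e : G.Dart, e.fst = d.fst ∧
          0 ≤ 216 * ((dg G e.fst : ℤ) - 4) + ∑ i ∈ Finset.range (dg G e.fst),
            ((run L σ A QP (phi σ (phi σ ((σ ^ i) e))) : ℤ) - ((run L σ A PV ((σ ^ i) e) : ℤ) - 72) -
              (run L σ A QP ((σ ^ i) e) : ℤ)) := fun e he h =>
      ⟨e, he, red e 936 (by rwa [he, k]) (by rw [he, k]; norm_num)⟩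
    rcases five 5 5 _ d rfl (by decide) le_rfl le_rfl h31 (fun r h1 h2 => by
      interval_cases r <;> exact absurd h2 (by decide)) with ⟨i, hi, h⟩ | h
    · have he : ((σ ^ (i + 1)) d).fst = d.fst := pf d _
      have e4 : (σ ^ 4) ((σ ^ (i + 1)) d) = (σ ^ i) d := by
        rw [← Perm.mul_apply, ← pow_add, show 4 + (i + 1) = i + 5 by ring, pow_add, Perm.mul_apply, p5 d rfl]
      refine fin _ he ?_
      generalize (σ ^ (i + 1)) d = e at he e4 ⊢
      rw [← e4] at h
      rcases five 4 3 _ e he (by decide) (by norm_num) (by norm_num) h15 (fun r h1 h2 => by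
        have : rg (2 ^ 110 - 1 - 879 * 2 ^ 40) 4 = 144 := by decide
        interval_cases r <;> first | exact absurd h2 (by decide) | exact ⟨rfl, this ▸ h⟩) with ⟨j, hj, h'⟩ | h'
      · have b : ∀ i, run L σ A COST ((σ ^ i) e) ≤ 216 := fun i =>
          (T _ ((pf e i).trans he)).trans (rv_tabp _)
        have := b 0; have := b 1; have := b 2; have := b 3
        simp only [Finset.sum_range_succ, Finset.sum_range_zero]
        interval_cases j <;> omega
      · exact h'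
    · exact fin d rfl h
  · refine ⟨d, rfl, ?_⟩
    have h3 := hc.ce.bas_three d
    have hl := hc.ce.cls.1 d.fst
    have s1 : ∑ i ∈ Finset.range (dg G d.fst), (run L σ A PV ((σ ^ (i + 1)) d) +
        (run L σ A Q1 ((σ ^ (i + 2)) d) + run L σ A Q2 ((σ ^ i) d))) ≤ dg G d.fst * 144 := by
      refine (Finset.sum_le_card_nsmul _ _ 144 fun i _ => ?_).trans (by simp)
      have h4 := tgA_out hc (by norm_num) hR ((σ ^ i) d)
      have e1 : (wr σ .e ((σ ^ i) d)).fst = d.fst := pf d i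
      have e2 : run L σ A SUMR ((σ ^ i) d) = run L σ A PV (σ ((σ ^ i) d)) +
        (run L σ A Q1 (σ (σ ((σ ^ i) d))) + run L σ A Q2 ((σ ^ i) d)) := rfl
      have e3 : Nat.testBit 2496 (ty L A d.fst) = true := by
        rcases t with t | t | t | ⟨t, -⟩ <;> rw [t] <;> decide
      rw [ISR, run_askT, e1, if_pos e3, e2] at h4
      have e4 : run L σ A (.ret 1) ((σ ^ i) d) = 1 := rfl
      rw [bas_succ σ d (i + 1), bas_succ]
      omega
    rw [Finset.sum_add_distrib, Finset.sum_add_distrib, rv_shift hr, rv_shift hr] at s1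
    have s2 : ∑ i ∈ Finset.range (dg G d.fst), run L σ A Q0 ((σ ^ i) d) + 864 ≤ 144 * dg G d.fst := by
      have z : Nat.testBit 1280 (ty L A d.fst) = false →
          ∑ i ∈ Finset.range (dg G d.fst), run L σ A Q0 ((σ ^ i) d) = 0 := fun h =>
        Finset.sum_eq_zero fun i _ => by
          have e1 : (wr σ .e ((σ ^ i) d)).fst = d.fst := pf d i
          rw [Q0, run_askT, e1, h]; rfl
      rcases t with t | t | t | ⟨t, a1, a2, a3⟩
      · rw [z (by rw [t]; decide)]; omega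
      · rw [z (by rw [t]; decide)]; omega
      · rw [z (by rw [t]; decide)]; omega
      · have := rv_q0 hc d
        omega
    have s3 : ∑ i ∈ Finset.range (dg G d.fst), ((72 : ℤ) - (run L σ A PV ((σ ^ i) d) +
        (run L σ A Q0 ((σ ^ i) d) + (run L σ A Q1 ((σ ^ i) d) + run L σ A Q2 ((σ ^ i) d))) : ℕ)) ≤ _ :=
      Finset.sum_le_sum (g := fun i => (run L σ A QP (phi σ (phi σ ((σ ^ i) d))) : ℤ) -
        ((run L σ A PV ((σ ^ i) d) : ℤ) - 72) - (run L σ A QP ((σ ^ i) d) : ℤ)) fun i _ => by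
          have := rv_QP (L := L) (σ := σ) (A := A) ((σ ^ i) d); omega
    rw [Finset.sum_sub_distrib, Finset.sum_const, Finset.card_range, nsmul_eq_mul,
      ← Nat.cast_sum, Finset.sum_add_distrib, Finset.sum_add_distrib, Finset.sum_add_distrib] at s3
    omega

end Pool.Agent.Lib.MP_bfaad3_co
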