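import Pool.Agent.Lib.MP_bfaad3_co.RulesGen

set_option autoImplicit false

/-! The discharging rules and the targets of the tree checker. -/

namespace Pool.Agent.Lib.MP_bfaad3_co

noncomputable section

/-- mask for the question whether the type lies in the set with bit mask `s` -/
def tS (s : ℕ) : ℕ := Nat.shiftLeft (Nat.xor 4095 s) 30
/-- mask for the question whether the face class lies in the set with bit mask `s` -/
def fS (s : ℕ) : ℕ := Nat.shiftLeft (Nat.xor 7 s) 42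

def w1 : W := .s .e
def w2 : W := .s (.n (.s .e))
def w3 : W := .s (.n (.s (.n (.s .e))))
def w4 : W := .s (.n (.s (.n (.s (.n (.s .e))))))
def f1 : W := .s (.n .e)
def f2 : W := .s (.n (.s (.n .e)))
def f3 : W := .s (.n (.s (.n (.s (.n .e)))))
def f4 : W := .s (.n (.s (.n (.s (.n (.s (.n .e)))))))
def n1 : W := .n .e
def n2 : W := .n (.n .e)
def n3 : W := .n (.n (.n .e))
def n4 : W := .n (.n (.n (.n .e)))

def QB : Prog := .askF .e (fS 1) (.askT w1 (tS 1) (.askT w2 (tS 32) (.askT w3 (tS 1) (.ret 1)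
  (.ret 0)) (.ret 0)) (.ret 0)) (.ret 0)
def Q0 : Prog := .askT .e (tS 1280) (.cnd QB .e (.ret 72) (.ret 0)) (.ret 0)
def Q1 : Prog := .askT .e (tS 128) (.cnd QB .e SD2 (.ret 0)) (.ret 0)
def Q2 : Prog := .askT .e (tS 128) (.cnd QB .e SD1 (.ret 0)) (.ret 0)
def QP : Prog := .askT .e (tS 1408) (.add Q0 .e (.add Q1 .e Q2)) (.ret 0)
def COST0 : Prog := .add PV .e (.add QP .e (.ret 72))
def COST : Prog := .askT .e (tS 32) (.askF .e (fS 1)
  (.add PV .e (.add QP .e (.sub 72 QP f2 (.ret 0)))) COST0) COST0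
def NW : Prog := .askT .e (tS 1536)
  (.add QP .e (.add XP .e (.sub 72 XP w1 (.askT w1 (tS 1536) (.ret 288) (.ret 0)))))
  (.sub 144 PV .e (.add XP .e (.sub 72 XP w1 (.ret 144))))

def ISD5 : Prog := .askT .e (tS 52) (.ret 1) (.ret 0)
def ISLOW : Prog := .askT .e (tS 11) (.ret 1) (.ret 0)
def LIMV : Prog := .askT .e (tS 1) (.ret 528) (.ret 456)
def ISR : Prog := .askT .e (tS 2496) (.ret 1) (.ret 0)
def SUMR : Prog := .add PV n1 (.add Q1 n2 Q2)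
def ISF6 : Prog := .askF .e (fS 4) (.ret 1) (.ret 0)
def LIM6 : Prog := .askT .e (tS 1536) (.askT w1 (tS 1536) (.ret 240) (.ret 528)) (.ret 240)
def BOTHK : Prog := .askT .e (tS 1536) (.askT w1 (tS 1536) (.ret 1) (.ret 0)) (.ret 0)
def HYPK : Prog := .askT .e (tS 1536) (.askT w1 (tS 1536) (.askF .e (fS 4) (.ret 1)
  (.askF .e (fS 1)
    (.askT w2 (tS 1536) (.askT w3 (tS 1536) (.ret 1) (.ret 0)) (.ret 0))
    (.askT w2 (tS 1536) (.askT w3 (tS 1536) (.askT w4 (tS 1536) (.ret 1) (.ret 0)) (.ret 0))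
      (.ret 0)))) (.ret 0)) (.ret 0)
def LIM4 : Prog := .askF .e (fS 1) (.askT w3 (tS 1536) (.ret 0) (.askT .e (tS 1536)
  (.askT w1 (tS 1536) (.askT w2 (tS 1536) (.ret 848) (.ret 849)) (.ret 849))
  (.askT w1 (tS 1536) (.ret 0) (.askT w2 (tS 1536) (.ret 0) (.ret 848))))) (.ret 0)
/-- 344 if the positions of the vertices of degree 3 form one of the patterns 00000, 10000, 11000,
10100, 11100, 11010, 11110, 11111, else 0 -/
def CAN5 : Prog := .askT .e (tS 1)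
  (.askT w1 (tS 1)
    (.askT w2 (tS 1) (.askT w3 (tS 1) (.ret 344) (.askT w4 (tS 1) (.ret 0) (.ret 344)))
      (.askT w4 (tS 1) (.ret 0) (.ret 344)))
    (.askT w3 (tS 1) (.ret 0) (.askT w4 (tS 1) (.ret 0) (.ret 344))))
  (.askT w1 (tS 1) (.ret 0) (.askT w2 (tS 1) (.ret 0) (.askT w3 (tS 1) (.ret 0)
    (.askT w4 (tS 1) (.ret 0) (.ret 344)))))
def LIM5 : Prog := .askF .e (fS 2) (.askT w4 (tS 1536) (.ret 0) (.askT .e (tS 1536) (.ret 345)
  (.askT w1 (tS 1536) (.ret 0) (.askT w2 (tS 1536) (.ret 0) (.askT w3 (tS 1536) (.ret 0) CAN5)))))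
  (.ret 0)

def finA (g c : ℕ) : Bool :=
  sel (Nat.beq c 0) (Nat.beq (rg g 2) 0) (Nat.ble (Nat.add (rg g 0) (rg g 1)) 600)
def tgA (hyp p : Prog) : Tgt := ⟨.nd 0 (.lf (2, hyp)) (.lf (0, p)), finA⟩
def tgB (hyp p q : Prog) : Tgt := ⟨.nd 0 (.lf (2, hyp)) (.nd 1 (.lf (0, p)) (.lf (1, q))), finA⟩

def tLow : Tgt := tgB ISLOW COST LIMV
def tR : Tgt := tgA ISR SUMR
def tSix : Tgt := tgB ISF6 NW LIM6
def tHx : Tgt := tgA BOTHK XP
def tK1 : Tgt := tgA HYPK PV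
def tK2 : Tgt := tgA HYPK (.sub 144 PV .e (.ret 0))
def tK3 : Tgt := tgA HYPK QP
def tTab : Tgt := tgB ISD5 COST (.sub 600 TABP .e (.ret 0))

def finP (g c : ℕ) : Bool :=
  sel (Nat.ble c 1) (sel (Nat.beq c 0) (Nat.beq (rg g 3) 0) (Nat.ble (rg g 0) 144))
    (sel (Nat.beq c 2) (Nat.ble (rg g 1) 144)
      (Nat.ble (Nat.add (rg g 0) (Nat.add (rg g 1) (rg g 2))) 600))
def tPair : Tgt :=
  ⟨.nd 2 (.nd 0 (.lf (3, ISD5)) (.nd 1 (.lf (0, TABP)) (.lf (1, .mv n1 TABP))))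
    (.nd 3 (.lf (2, .sub 600 PAIRP .e (.ret 0))) (.nd 4 (.lf (0, COST)) (.lf (1, .mv n1 COST)))),
    finP⟩

/-- bound for two consecutive corners -/
def pj (np g j b : ℕ) : ℕ :=
  sel (Nat.beq (Nat.land b 1) 0) (Nat.add (rg g j) (rg g (Nat.mod (Nat.add j 1) 5)))
    (sel (Nat.blt j np) (rg g (Nat.add j 5)) 5000)
def finV (ns np g a : ℕ) : Bool :=
  frc (Nat.land a 7) fun k => frc (Nat.shiftRight a 3) fun c =>
    sel (Nat.ble k 1)
      (sel (Nat.beq k 0) (Nat.beq (rg g 10) 0) (cj (Nat.blt c ns) (Nat.ble (rg g c) 144)))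
      (sel (Nat.beq k 2)
        (Nat.ble (Nat.add (rg g 0) (Nat.add (rg g 1) (Nat.add (rg g 2)
          (Nat.add (rg g 3) (rg g 4))))) 936)
        (sel (Nat.beq k 3)
          (frc (Nat.land c 7) fun i => cj (Nat.ble i 4) (Nat.ble
            (Nat.add (pj np g i (Nat.shiftRight c 3))
              (Nat.add (pj np g (Nat.mod (Nat.add i 2) 5) (Nat.shiftRight c 4))
                (rg g (Nat.mod (Nat.add i 4) 5)))) 936))
          (Nat.ble (Nat.add (pj np g 0 c) (Nat.add (pj np g 1 (Nat.shiftRight c 1))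
            (Nat.add (pj np g 2 (Nat.shiftRight c 2)) (Nat.add (pj np g 3 (Nat.shiftRight c 3))
              (pj np g 4 (Nat.shiftRight c 4)))))) 1873)))
def five (k r : ℕ) (P : Prog) : BT (ℕ × Prog) :=
  .nd (k + 1) (.nd k (.lf (r, P)) (.lf (r + 1, .mv n1 P)))
    (.nd (k + 2) (.lf (r + 2, .mv n2 P)) (.nd (k + 3) (.lf (r + 3, .mv n3 P))
      (.lf (r + 4, .mv n4 P))))
def stV : BT (ℕ × Prog) :=
  .nd 9 (.nd 4 (five 0 0 COST) (five 5 0 TABP)) (.nd 14 (five 10 5 PAIRP) (.lf (10, ISD5)))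
def tV15 : Tgt := ⟨stV, finV 4 3⟩
def tV31 : Tgt := ⟨stV, finV 5 5⟩

def finF4 (g c : ℕ) : Bool :=
  sel (Nat.beq c 0) (Nat.beq (rg g 5) 0) (Nat.ble (Nat.add (rg g 5) (Nat.add (rg g 0)
    (Nat.add (rg g 1) (Nat.add (rg g 2) (rg g 3))))) 2000)
def finF5 (g c : ℕ) : Bool :=
  sel (Nat.beq c 0) (Nat.beq (rg g 5) 0) (Nat.ble (Nat.add (rg g 5) (Nat.add (rg g 0)
    (Nat.add (rg g 1) (Nat.add (rg g 2) (Nat.add (rg g 3) (rg g 4)))))) 2000)
def tF4 : Tgt :=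
  ⟨.nd 1 (.nd 0 (.lf (5, LIM4)) (.lf (0, NW)))
    (.nd 2 (.lf (1, .mv f1 NW)) (.nd 3 (.lf (2, .mv f2 NW)) (.lf (3, .mv f3 NW)))), finF4⟩
def tF5 : Tgt :=
  ⟨.nd 2 (.nd 0 (.lf (5, LIM5)) (.nd 1 (.lf (0, NW)) (.lf (1, .mv f1 NW))))
    (.nd 3 (.lf (2, .mv f2 NW)) (.nd 4 (.lf (3, .mv f3 NW)) (.lf (4, .mv f4 NW)))), finF5⟩

/-- initial registers `1023, c, 1023` -/
def iniA (c : ℕ) : ℕ := 1023 + 1024 * c + 1048576 * 1023

end

end Pool.Agent.Lib.MP_bfaad3_co
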