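import Pool.Agent.Lib.MP_bfaad3_co.PMDef

set_option autoImplicit false
set_option maxRecDepth 100000

namespace Pool.Agent.Lib.MP_bfaad3_co

def GAM : Prog := (.askT .e (nat_lit 4386235351040) (.askT (.s .e) (nat_lit 4386235351040) (.askT .e (nat_lit 4394825285632) (.askT (.s .e) (nat_lit 4394825285632) (.ret (nat_lit 0)) (.askF .e (nat_lit 26388279066624) (.askT (.p (.s .e)) (nat_lit 4395899027456) (.askT (.s (.n (.s .e))) (nat_lit 4388382834688) (.ret (nat_lit 1)) (.ret (nat_lit 0))) (.ret (nat_lit 0))) (.ret (nat_lit 0)))) (.askT (.s .e) (nat_lit 4394825285632) (.askF .e (nat_lit 26388279066624) (.askT (.s (.n (.s .e))) (nat_lit 4395899027456) (.askT (.p (.s .e)) (nat_lit 4388382834688) (.ret (nat_lit 1)) (.ret (nat_lit 0))) (.ret (nat_lit 0))) (.ret (nat_lit 0))) (.ret (nat_lit 0)))) (.ret (nat_lit 0))) (.ret (nat_lit 0)))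
def DON : Prog := (.askF .e (nat_lit 21990232555520) (.askT (.s (.n (.s .e))) (nat_lit 4395899027456) (.ret (nat_lit 0)) (.askT (.p (.s (.p (.s .e)))) (nat_lit 4395899027456) (.ret (nat_lit 0)) (.askT (.p (.s .e)) (nat_lit 4395899027456) (.ret (nat_lit 0)) (.cnd GAM (.s (.n (.s (.n (.s .e))))) (.ret (nat_lit 0)) (.cnd GAM (.p (.s (.p .e))) (.ret (nat_lit 0)) (.ret (nat_lit 1))))))) (.ret (nat_lit 0)))
def HASD : Prog := (.cnd DON (.s (.n (.s (.n (.s .e))))) (.ret (nat_lit 1)) (.cnd DON (.s (.n (.s .e))) (.ret (nat_lit 1)) (.cnd DON (.p (.s (.p .e))) (.ret (nat_lit 1)) (.ret (nat_lit 0)))))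
def SIDE : Prog := (.askF (.s .e) (nat_lit 21990232555520) (.askT (.s .e) (nat_lit 4395899027456) (.askT .e (nat_lit 4395899027456) (.askT (.n (.s .e)) (nat_lit 4395899027456) (.askT (.s (.p (.s (.p (.s .e))))) (nat_lit 4395899027456) (.askT (.s (.p (.s .e))) (nat_lit 4395899027456) (.ret (nat_lit 0)) (.askT (.s (.p (.s .e))) (nat_lit 4394825285632) (.cnd HASD (.s (.p (.s .e))) (.ret (nat_lit 0)) (.ret (nat_lit 1))) (.ret (nat_lit 0)))) (.ret (nat_lit 0))) (.askT (.s (.p (.s (.p (.s .e))))) (nat_lit 4395899027456) (.askT (.s (.p (.s .e))) (nat_lit 4395899027456) (.askT (.n (.s .e)) (nat_lit 4394825285632) (.cnd HASD (.n (.s (.n .e))) (.ret (nat_lit 0)) (.ret (nat_lit 1))) (.ret (nat_lit 0))) (.ret (nat_lit 0))) (.ret (nat_lit 0)))) (.ret (nat_lit 0))) (.ret (nat_lit 0))) (.ret (nat_lit 0)))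
def rg_0 : Prog := (.cnd SIDE (.p (.s (.p (.s .e)))) (.ret (nat_lit 108)) (.ret (nat_lit 72)))
def rg_1 : Prog := (.cnd SIDE (.p (.s (.p (.s .e)))) (.ret (nat_lit 90)) (.ret (nat_lit 72)))
def rg_2 : Prog := (.askT (.s (.n (.s .e))) (nat_lit 67645734912) rg_1 rg_0)
def rg_3 : Prog := (.cnd SIDE (.s (.n .e)) (.ret (nat_lit 108)) (.ret (nat_lit 72)))
def rg_4 : Prog := (.cnd SIDE (.s (.n .e)) (.ret (nat_lit 90)) (.ret (nat_lit 72)))
def rg_5 : Prog := (.askT (.s .e) (nat_lit 67645734912) (.ret (nat_lit 72)) (.askT (.s .e) (nat_lit 4341138194432) (.ret (nat_lit 108)) (.ret (nat_lit 144))))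
def rg_6 : Prog := (.askF (.s (.n (.s .e))) (nat_lit 26388279066624) (.askT (.s (.n (.n (.s .e)))) (nat_lit 4394825285632) (.askT (.s (.n (.s (.p (.s .e))))) (nat_lit 4395899027456) (.ret (nat_lit 126)) (.ret (nat_lit 108))) (.ret (nat_lit 108))) (.ret (nat_lit 108)))
def rg_7 : Prog := (.askT (.p (.s .e)) (nat_lit 4379792900096) (.ret (nat_lit 108)) (.ret (nat_lit 96)))
def rg_8 : Prog := (.askT (.p (.s .e)) (nat_lit 4392677801984) (.ret (nat_lit 96)) (.ret (nat_lit 108)))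
def rg_9 : Prog := (.askT (.p (.s .e)) (nat_lit 67645734912) (.ret (nat_lit 108)) (.ret (nat_lit 144)))
def rg_10 : Prog := (.askT (.p (.s .e)) (nat_lit 67645734912) (.ret (nat_lit 96)) (.ret (nat_lit 108)))
def rg_11 : Prog := (.askF (.s (.n (.s (.n (.s .e))))) (nat_lit 26388279066624) (.askT (.s (.n (.s (.n (.s (.p (.s .e))))))) (nat_lit 4394825285632) (.askT (.s (.n (.s (.n (.n (.s .e)))))) (nat_lit 4395899027456) (.ret (nat_lit 126)) (.ret (nat_lit 108))) (.ret (nat_lit 108))) (.ret (nat_lit 108)))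
def PV : Prog := (.askT .e (nat_lit 4395899027456) (.ret (nat_lit 0)) (.askT .e (nat_lit 11811160064) (.askF .e (nat_lit 13194139533312) (.askT .e (nat_lit 4341138194432) (.ret (nat_lit 0)) (.ret (nat_lit 72))) (.askF .e (nat_lit 26388279066624) (.askT (.s .e) (nat_lit 4395899027456) (.askT (.s (.n (.s .e))) (nat_lit 4395899027456) (.ret (nat_lit 144)) (.askT (.p (.s .e)) (nat_lit 4395899027456) (.ret (nat_lit 144)) (.askT .e (nat_lit 67645734912) (.askT (.s (.n (.s .e))) (nat_lit 67645734912) rg_10 rg_9) (.askT (.s (.n (.s .e))) (nat_lit 67645734912) (.ret (nat_lit 72)) (.askT (.p (.s .e)) (nat_lit 67645734912) (.ret (nat_lit 72)) (.askT (.s (.n (.s .e))) (nat_lit 4341138194432) (.askT (.p (.s .e)) (nat_lit 4341138194432) (.askT .e (nat_lit 4392677801984) (.askT (.s (.n (.s .e))) (nat_lit 4392677801984) (.ret (nat_lit 96)) (.askT (.s (.n (.s .e))) (nat_lit 4379792900096) rg_8 (.askT (.p (.s .e)) (nat_lit 4392677801984) (.ret (nat_lit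 96)) (.askT (.p (.s .e)) (nat_lit 4379792900096) (.ret (nat_lit 90)) (.ret (nat_lit 78)))))) (.askT .e (nat_lit 4379792900096) (.askT (.s (.n (.s .e))) (nat_lit 4392677801984) (.askT (.p (.s .e)) (nat_lit 4392677801984) (.ret (nat_lit 96)) (.askT (.p (.s .e)) (nat_lit 4379792900096) (.ret (nat_lit 84)) (.ret (nat_lit 78)))) (.askT (.s (.n (.s .e))) (nat_lit 4379792900096) (.askT (.p (.s .e)) (nat_lit 4392677801984) (.ret (nat_lit 96)) (.ret (nat_lit 90))) (.askT (.p (.s .e)) (nat_lit 4392677801984) (.ret (nat_lit 96)) (.askT (.p (.s .e)) (nat_lit 4379792900096) (.ret (nat_lit 84)) (.ret (nat_lit 90)))))) (.askT (.s (.n (.s .e))) (nat_lit 4392677801984) (.askT (.p (.s .e)) (nat_lit 4392677801984) (.ret (nat_lit 96)) (.askT (.p (.s .e)) (nat_lit 4379792900096) (.ret (nat_lit 114)) (.ret (nat_lit 102)))) (.askT (.s (.n (.s .e))) (nat_lit 4379792900096) (.askT (.p (.s .e)) (nat_lit 4392677801984) (.ret (nat_lit 96)) (.askT (.p (.s .e)) (nat_lit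 4379792900096) (.ret (nat_lit 96)) (.ret (nat_lit 102)))) (.ret (nat_lit 96)))))) (.askT .e (nat_lit 4392677801984) (.askT (.s (.n (.s .e))) (nat_lit 4392677801984) (.ret (nat_lit 108)) (.askT (.s (.n (.s .e))) (nat_lit 4379792900096) (.askT (.p (.s .e)) (nat_lit 4394825285632) (.ret (nat_lit 108)) (.askT (.s (.n (.n (.s .e)))) (nat_lit 4352949354496) (.askF (.s (.n (.s (.n (.s .e))))) (nat_lit 26388279066624) (.askT (.s (.n (.s (.n (.s (.p (.s .e))))))) (nat_lit 4394825285632) (.askT (.s (.n (.s (.n (.n (.s .e)))))) (nat_lit 4395899027456) (.ret (nat_lit 144)) (.ret (nat_lit 108))) (.ret (nat_lit 108))) (.ret (nat_lit 108))) (.ret (nat_lit 108)))) (.ret (nat_lit 108)))) (.askT .e (nat_lit 4379792900096) (.askT (.s (.n (.s .e))) (nat_lit 4392677801984) (.askT (.p (.s .e)) (nat_lit 4394825285632) (.ret (nat_lit 108)) (.askT (.s (.n (.n (.s .e)))) (nat_lit 4352949354496) (.askF (.p .e) (nat_lit 26388279066624) (.askT (.p (.s (.n (.s .e))))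 (nat_lit 4394825285632) (.askT (.p (.p (.s .e))) (nat_lit 4395899027456) (.ret (nat_lit 72)) (.ret (nat_lit 108))) (.ret (nat_lit 108))) (.ret (nat_lit 108))) (.ret (nat_lit 108)))) (.askT (.s (.n (.s .e))) (nat_lit 4379792900096) (.askT (.p (.s .e)) (nat_lit 4394825285632) (.ret (nat_lit 108)) (.askT (.s (.n (.n (.s .e)))) (nat_lit 4352949354496) (.askF (.p .e) (nat_lit 26388279066624) (.askT (.p (.s (.n (.s .e)))) (nat_lit 4394825285632) (.askT (.p (.p (.s .e))) (nat_lit 4395899027456) (.askF (.s (.n (.s (.n (.s .e))))) (nat_lit 26388279066624) (.askT (.s (.n (.s (.n (.s (.p (.s .e))))))) (nat_lit 4394825285632) (.askT (.s (.n (.s (.n (.n (.s .e)))))) (nat_lit 4395899027456) (.ret (nat_lit 108)) (.ret (nat_lit 90))) (.ret (nat_lit 90))) (.ret (nat_lit 90))) rg_11) rg_11) rg_11) (.ret (nat_lit 108)))) (.askT (.p (.s .e)) (nat_lit 4394825285632) (.ret (nat_lit 108)) (.ret (nat_lit 144))))) (.askT (.s (.n (.s .e))) (nat_lit 4392677801984)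 (.ret (nat_lit 108)) (.askT (.s (.n (.s .e))) (nat_lit 4379792900096) (.askT (.p (.s .e)) (nat_lit 4394825285632) (.ret (nat_lit 108)) (.ret (nat_lit 72))) (.ret (nat_lit 108))))))) (.askT (.p (.s .e)) (nat_lit 4341138194432) (.askT .e (nat_lit 4392677801984) (.ret (nat_lit 108)) (.askT .e (nat_lit 4379792900096) (.askT (.s (.n (.s .e))) (nat_lit 4394825285632) (.askT (.p (.s .e)) (nat_lit 4392677801984) (.ret (nat_lit 108)) rg_7) (.askT (.p (.s .e)) (nat_lit 4392677801984) (.ret (nat_lit 108)) (.askT (.p (.s .e)) (nat_lit 4379792900096) (.ret (nat_lit 108)) (.ret (nat_lit 102))))) (.askT (.s (.n (.s .e))) (nat_lit 4394825285632) (.askT (.p (.s .e)) (nat_lit 4392677801984) (.ret (nat_lit 108)) (.askT (.p (.s .e)) (nat_lit 4379792900096) (.ret (nat_lit 90)) (.ret (nat_lit 108)))) (.ret (nat_lit 108))))) (.ret (nat_lit 144))))))))) (.askT (.s (.n (.s .e))) (nat_lit 4395899027456) (.askT (.p (.s .e)) (nat_lit 4395899027456) (.ret (nat_lit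 144)) (.askT .e (nat_lit 67645734912) (.askT (.s .e) (nat_lit 67645734912) rg_10 rg_9) (.askT (.s .e) (nat_lit 67645734912) (.ret (nat_lit 72)) (.askT (.p (.s .e)) (nat_lit 67645734912) (.ret (nat_lit 72)) (.askT (.s .e) (nat_lit 4341138194432) (.askT (.p (.s .e)) (nat_lit 4341138194432) (.askT .e (nat_lit 4392677801984) (.ret (nat_lit 96)) (.askT .e (nat_lit 4379792900096) (.askT (.s .e) (nat_lit 4392677801984) (.askT (.p (.s .e)) (nat_lit 4392677801984) (.ret (nat_lit 96)) (.askT (.p (.s .e)) (nat_lit 4379792900096) (.ret (nat_lit 96)) (.ret (nat_lit 84)))) (.askT (.s .e) (nat_lit 4379792900096) rg_8 (.askT (.p (.s .e)) (nat_lit 4392677801984) (.ret (nat_lit 84)) rg_7))) (.askT (.s .e) (nat_lit 4392677801984) (.askT (.p (.s .e)) (nat_lit 4392677801984) (.ret (nat_lit 96)) (.askT (.p (.s .e)) (nat_lit 4379792900096) (.ret (nat_lit 102)) (.ret (nat_lit 108)))) (.askT (.s .e) (nat_lit 4379792900096) (.askT (.p (.s .e)) (nat_lit 4392677801984)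 (.ret (nat_lit 102)) rg_7) (.askT (.p (.s .e)) (nat_lit 4392677801984) (.ret (nat_lit 108)) (.ret (nat_lit 96))))))) (.askT .e (nat_lit 4392677801984) (.ret (nat_lit 108)) (.askT .e (nat_lit 4379792900096) (.askT (.s .e) (nat_lit 4392677801984) (.ret (nat_lit 108)) (.askT (.s .e) (nat_lit 4379792900096) (.ret (nat_lit 108)) (.askT (.p (.s .e)) (nat_lit 4394825285632) (.ret (nat_lit 126)) (.ret (nat_lit 108))))) (.askT (.s .e) (nat_lit 4392677801984) (.ret (nat_lit 108)) (.askT (.s .e) (nat_lit 4379792900096) (.askT (.p (.s .e)) (nat_lit 4394825285632) (.ret (nat_lit 120)) (.ret (nat_lit 114))) (.ret (nat_lit 108))))))) (.askT (.p (.s .e)) (nat_lit 4341138194432) (.askT .e (nat_lit 4392677801984) (.ret (nat_lit 108)) (.askT .e (nat_lit 4379792900096) (.askT (.s .e) (nat_lit 4394825285632) (.askT (.p (.s .e)) (nat_lit 4392677801984) (.ret (nat_lit 108)) (.askT (.p (.s .e)) (nat_lit 4379792900096) (.ret (nat_lit 108)) (.ret (nat_lit 126))))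 (.ret (nat_lit 108))) (.askT (.s .e) (nat_lit 4394825285632) (.askT (.p (.s .e)) (nat_lit 4392677801984) (.ret (nat_lit 108)) (.askT (.p (.s .e)) (nat_lit 4379792900096) (.ret (nat_lit 120)) (.ret (nat_lit 108)))) (.askT (.p (.s .e)) (nat_lit 4392677801984) (.ret (nat_lit 108)) (.askT (.p (.s .e)) (nat_lit 4379792900096) (.ret (nat_lit 114)) (.ret (nat_lit 108))))))) (.ret (nat_lit 144)))))))) (.askT (.p (.s .e)) (nat_lit 4395899027456) (.askT .e (nat_lit 67645734912) (.askT (.s .e) (nat_lit 67645734912) (.askT (.s (.n (.s .e))) (nat_lit 67645734912) (.ret (nat_lit 96)) (.ret (nat_lit 108))) (.askT (.s (.n (.s .e))) (nat_lit 67645734912) (.ret (nat_lit 108)) (.ret (nat_lit 144)))) (.askT (.s .e) (nat_lit 67645734912) (.ret (nat_lit 72)) (.askT (.s (.n (.s .e))) (nat_lit 67645734912) (.ret (nat_lit 72)) (.askT (.s .e) (nat_lit 4341138194432) (.askT (.s (.n (.s .e))) (nat_lit 4341138194432) (.askT .e (nat_lit 4392677801984) (.askT (.s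 .e) (nat_lit 4392677801984) (.ret (nat_lit 96)) (.askT (.s .e) (nat_lit 4379792900096) (.askT (.s (.n (.s .e))) (nat_lit 4392677801984) (.ret (nat_lit 96)) (.askT (.s (.n (.s .e))) (nat_lit 4379792900096) (.ret (nat_lit 108)) (.ret (nat_lit 90)))) (.askT (.s (.n (.s .e))) (nat_lit 4392677801984) (.ret (nat_lit 96)) (.askT (.s (.n (.s .e))) (nat_lit 4379792900096) (.ret (nat_lit 108)) (.ret (nat_lit 78)))))) (.askT .e (nat_lit 4379792900096) (.askT (.s .e) (nat_lit 4392677801984) (.ret (nat_lit 96)) (.askT (.s .e) (nat_lit 4379792900096) (.askT (.s (.n (.s .e))) (nat_lit 4392677801984) (.ret (nat_lit 84)) (.askT (.s (.n (.s .e))) (nat_lit 4379792900096) (.ret (nat_lit 90)) (.ret (nat_lit 84)))) (.askT (.s (.n (.s .e))) (nat_lit 4392677801984) (.ret (nat_lit 78)) (.ret (nat_lit 90))))) (.askT (.s .e) (nat_lit 4392677801984) (.ret (nat_lit 96)) (.askT (.s .e) (nat_lit 4379792900096) (.askT (.s (.n (.s .e))) (nat_lit 4392677801984) (.ret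 (nat_lit 114)) (.ret (nat_lit 96))) (.askT (.s (.n (.s .e))) (nat_lit 4392677801984) (.ret (nat_lit 102)) (.askT (.s (.n (.s .e))) (nat_lit 4379792900096) (.ret (nat_lit 102)) (.ret (nat_lit 96)))))))) (.askT .e (nat_lit 4392677801984) (.ret (nat_lit 108)) (.askT .e (nat_lit 4379792900096) (.askT (.s .e) (nat_lit 4392677801984) (.ret (nat_lit 108)) (.askT (.s .e) (nat_lit 4379792900096) (.ret (nat_lit 108)) (.askT (.s (.n (.s .e))) (nat_lit 4394825285632) (.ret (nat_lit 96)) (.ret (nat_lit 102))))) (.askT (.s .e) (nat_lit 4392677801984) (.ret (nat_lit 108)) (.askT (.s .e) (nat_lit 4379792900096) (.askT (.s (.n (.s .e))) (nat_lit 4394825285632) (.ret (nat_lit 90)) (.ret (nat_lit 108))) (.ret (nat_lit 108))))))) (.askT (.s (.n (.s .e))) (nat_lit 4341138194432) (.askT .e (nat_lit 4392677801984) (.askT (.s .e) (nat_lit 4394825285632) (.ret (nat_lit 108)) (.askT (.s (.n (.s .e))) (nat_lit 4392677801984) (.ret (nat_lit 108)) (.askT (.s (.n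 (.s .e))) (nat_lit 4379792900096) (.askT (.p (.s (.n (.s .e)))) (nat_lit 4352949354496) (.askF (.s (.n (.s .e))) (nat_lit 26388279066624) (.askT (.s (.n (.n (.s .e)))) (nat_lit 4394825285632) (.askT (.s (.n (.s (.p (.s .e))))) (nat_lit 4395899027456) (.ret (nat_lit 144)) (.ret (nat_lit 108))) (.ret (nat_lit 108))) (.ret (nat_lit 108))) (.ret (nat_lit 108))) (.ret (nat_lit 108))))) (.askT .e (nat_lit 4379792900096) (.askT (.s .e) (nat_lit 4394825285632) (.ret (nat_lit 108)) (.askT (.s (.n (.s .e))) (nat_lit 4392677801984) (.askT (.p (.s (.n (.s .e)))) (nat_lit 4352949354496) (.askF (.s .e) (nat_lit 26388279066624) (.askT (.s (.p (.s .e))) (nat_lit 4394825285632) (.askT (.n (.s .e)) (nat_lit 4395899027456) (.ret (nat_lit 72)) (.ret (nat_lit 108))) (.ret (nat_lit 108))) (.ret (nat_lit 108))) (.ret (nat_lit 108))) (.askT (.s (.n (.s .e))) (nat_lit 4379792900096) (.askT (.p (.s (.n (.s .e)))) (nat_lit 4352949354496) (.askF (.s .e) (nat_lit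 26388279066624) (.askT (.s (.p (.s .e))) (nat_lit 4394825285632) (.askT (.n (.s .e)) (nat_lit 4395899027456) (.askF (.s (.n (.s .e))) (nat_lit 26388279066624) (.askT (.s (.n (.n (.s .e)))) (nat_lit 4394825285632) (.askT (.s (.n (.s (.p (.s .e))))) (nat_lit 4395899027456) (.ret (nat_lit 108)) (.ret (nat_lit 90))) (.ret (nat_lit 90))) (.ret (nat_lit 90))) rg_6) rg_6) rg_6) (.ret (nat_lit 108))) (.ret (nat_lit 144))))) (.askT (.s .e) (nat_lit 4394825285632) (.ret (nat_lit 108)) (.askT (.s (.n (.s .e))) (nat_lit 4392677801984) (.ret (nat_lit 108)) (.askT (.s (.n (.s .e))) (nat_lit 4379792900096) (.ret (nat_lit 72)) (.ret (nat_lit 108))))))) (.ret (nat_lit 144))))))) (.cnd GAM (.s (.n (.s .e))) (.askT .e (nat_lit 67645734912) (.askT (.p (.s .e)) (nat_lit 67645734912) (.cnd GAM (.s (.n (.s (.n (.s .e))))) (.askT (.s .e) (nat_lit 67645734912) (.ret (nat_lit 144)) (.ret (nat_lit 180))) (.ret (nat_lit 108))) (.cnd GAM (.s (.n (.s (.n (.s .e)))))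 (.askT (.s .e) (nat_lit 67645734912) (.ret (nat_lit 180)) (.ret (nat_lit 216))) (.ret (nat_lit 144)))) (.askT (.p (.s .e)) (nat_lit 67645734912) (.cnd GAM (.s (.n (.s (.n (.s .e))))) rg_5 (.ret (nat_lit 72))) (.askT (.p (.s .e)) (nat_lit 4341138194432) (.cnd GAM (.s (.n (.s (.n (.s .e))))) (.askT (.s .e) (nat_lit 67645734912) (.ret (nat_lit 108)) (.askT (.s .e) (nat_lit 4341138194432) (.ret (nat_lit 144)) (.ret (nat_lit 180)))) (.ret (nat_lit 108))) (.cnd GAM (.s (.n (.s (.n (.s .e))))) (.askT (.s .e) (nat_lit 67645734912) (.ret (nat_lit 144)) (.askT (.s .e) (nat_lit 4341138194432) (.ret (nat_lit 180)) (.ret (nat_lit 216)))) (.ret (nat_lit 144)))))) (.cnd GAM (.s (.n (.s (.n (.s .e))))) (.askT .e (nat_lit 67645734912) (.askT (.s .e) (nat_lit 67645734912) (.ret (nat_lit 108)) (.ret (nat_lit 144))) rg_5) (.ret (nat_lit 72))))))) (.askT (.s .e) (nat_lit 4395899027456) (.askT (.s (.n (.s .e))) (nat_lit 4395899027456) (.askT (.p (.s (.p (.s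 .e)))) (nat_lit 4395899027456) (.askT (.p (.s .e)) (nat_lit 4395899027456) (.askT .e (nat_lit 67645734912) (.ret (nat_lit 144)) (.askT .e (nat_lit 4362613030912) (.ret (nat_lit 72)) (.cnd HASD .e (.ret (nat_lit 72)) (.ret (nat_lit 144))))) rg_3) (.askT (.p (.s (.p (.s .e)))) (nat_lit 67645734912) (.askT .e (nat_lit 67645734912) rg_4 (.ret (nat_lit 72))) (.askT .e (nat_lit 67645734912) rg_3 (.askT (.p (.s .e)) (nat_lit 4395899027456) (.askT (.p (.s (.p (.s .e)))) (nat_lit 4392677801984) (.askT .e (nat_lit 4392677801984) rg_4 (.ret (nat_lit 72))) (.askT .e (nat_lit 4392677801984) rg_3 (.ret (nat_lit 72)))) (.askT (.p (.s (.p (.s .e)))) (nat_lit 4341138194432) rg_4 rg_3))))) (.askT (.p (.s (.p (.s .e)))) (nat_lit 4395899027456) (.askT (.p (.s .e)) (nat_lit 4395899027456) (.askT .e (nat_lit 67645734912) rg_2 (.askT (.s (.n (.s .e))) (nat_lit 67645734912) (.ret (nat_lit 72)) (.askT .e (nat_lit 4392677801984) (.askT (.s (.n (.s .e))) (nat_lit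 4392677801984) rg_1 rg_0) (.ret (nat_lit 72))))) (.ret (nat_lit 72))) (.ret (nat_lit 72)))) (.askT (.p (.s (.p (.s .e)))) (nat_lit 4395899027456) (.askT (.p (.s .e)) (nat_lit 4395899027456) (.askT .e (nat_lit 67645734912) rg_2 (.askT (.s (.n (.s .e))) (nat_lit 67645734912) (.ret (nat_lit 72)) (.askT (.s (.n (.s .e))) (nat_lit 4341138194432) rg_1 rg_0))) (.ret (nat_lit 72))) (.ret (nat_lit 72)))))) (.ret (nat_lit 72))))
def rg_12 : Prog := (.cnd HASD (.n .e) (.ret (nat_lit 0)) (.ret (nat_lit 36)))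
def rg_13 : Prog := (.cnd HASD (.s .e) (.ret (nat_lit 0)) (.ret (nat_lit 36)))
def rg_14 : Prog := (.cnd SIDE .e (.ret (nat_lit 36)) (.ret (nat_lit 0)))
def XP : Prog := (.askT .e (nat_lit 4385161609216) (.askT (.s .e) (nat_lit 4385161609216) (.askT .e (nat_lit 4395899027456) (.askT (.s .e) (nat_lit 4395899027456) (.askF .e (nat_lit 21990232555520) (.cnd DON .e (.ret (nat_lit 72)) (.askT (.s (.n (.s .e))) (nat_lit 67645734912) rg_14 (.askT (.p (.s .e)) (nat_lit 67645734912) rg_14 (.askT (.p (.s (.p (.s .e)))) (nat_lit 4395899027456) (.askT (.s (.n (.s .e))) (nat_lit 4392677801984) rg_14 (.askT (.p (.s .e)) (nat_lit 4392677801984) rg_14 (.ret (nat_lit 0)))) (.askT (.s (.n (.s .e))) (nat_lit 4341138194432) rg_14 (.askT (.p (.s .e)) (nat_lit 4341138194432) rg_14 (.ret (nat_lit 0)))))))) (.ret (nat_lit 0))) (.askT (.s .e) (nat_lit 4394825285632) (.askF .e (nat_lit 21990232555520) (.askT (.p (.s .e)) (nat_lit 4388382834688) (.askF (.s .e)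 (nat_lit 21990232555520) (.askT (.n (.s .e)) (nat_lit 4395899027456) (.askT (.s (.p (.s (.p (.s .e))))) (nat_lit 4395899027456) (.askT (.s (.p (.s .e))) (nat_lit 4395899027456) (.askF (.n (.s .e)) (nat_lit 21990232555520) (.askT (.n (.n (.s .e))) (nat_lit 67645734912) (.ret (nat_lit 0)) (.askT (.n (.s (.p (.s .e)))) (nat_lit 67645734912) (.ret (nat_lit 0)) (.askT (.n (.s (.p (.s (.p (.s .e)))))) (nat_lit 4395899027456) (.askT (.n (.n (.s .e))) (nat_lit 4392677801984) (.ret (nat_lit 0)) (.askT (.n (.s (.p (.s .e)))) (nat_lit 4392677801984) (.ret (nat_lit 0)) rg_13)) (.askT (.n (.n (.s .e))) (nat_lit 4341138194432) (.ret (nat_lit 0)) (.askT (.n (.s (.p (.s .e)))) (nat_lit 4341138194432) (.ret (nat_lit 0)) rg_13))))) (.ret (nat_lit 0))) (.ret (nat_lit 0))) (.ret (nat_lit 0))) (.ret (nat_lit 0))) (.ret (nat_lit 0))) (.ret (nat_lit 0))) (.ret (nat_lit 0))) (.ret (nat_lit 0)))) (.askT (.s .e) (nat_lit 4395899027456) (.askT .e (nat_lit 4394825285632)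 (.askF .e (nat_lit 21990232555520) (.askT (.s (.n (.s .e))) (nat_lit 4388382834688) (.askF (.s .e) (nat_lit 21990232555520) (.askT (.n (.s .e)) (nat_lit 4395899027456) (.askT (.s (.p (.s (.p (.s .e))))) (nat_lit 4395899027456) (.askT (.s (.p (.s .e))) (nat_lit 4395899027456) (.askF (.s (.p .e)) (nat_lit 21990232555520) (.askT (.s (.p (.s (.n (.s .e))))) (nat_lit 67645734912) (.ret (nat_lit 0)) (.askT (.s (.p (.p (.s .e)))) (nat_lit 67645734912) (.ret (nat_lit 0)) (.askT (.s (.p (.p (.s (.p (.s .e)))))) (nat_lit 4395899027456) (.askT (.s (.p (.s (.n (.s .e))))) (nat_lit 4392677801984) (.ret (nat_lit 0)) (.askT (.s (.p (.p (.s .e)))) (nat_lit 4392677801984) (.ret (nat_lit 0)) rg_12)) (.askT (.s (.p (.s (.n (.s .e))))) (nat_lit 4341138194432) (.ret (nat_lit 0)) (.askT (.s (.p (.p (.s .e)))) (nat_lit 4341138194432) (.ret (nat_lit 0)) rg_12))))) (.ret (nat_lit 0))) (.ret (nat_lit 0))) (.ret (nat_lit 0))) (.ret (nat_lit 0))) (.ret (nat_lit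 0))) (.ret (nat_lit 0))) (.ret (nat_lit 0))) (.ret (nat_lit 0))) (.cnd GAM (.s .e) (.ret (nat_lit 72)) (.ret (nat_lit 0))))) (.ret (nat_lit 0))) (.ret (nat_lit 0)))
def SD1 : Prog := (.askF (.s .e) (nat_lit 13194139533312) (.ret (nat_lit 36)) (.askT (.s (.p (.s .e))) (nat_lit 67645734912) (.askF (.s .e) (nat_lit 26388279066624) (.askT (.n (.s .e)) (nat_lit 4395899027456) (.ret (nat_lit 0)) (.ret (nat_lit 36))) (.ret (nat_lit 18))) (.ret (nat_lit 0))))
def SD2 : Prog := (.askF (.p .e) (nat_lit 13194139533312) (.ret (nat_lit 36)) (.askT (.p (.s (.n (.s .e)))) (nat_lit 67645734912) (.askF (.p .e) (nat_lit 26388279066624) (.askT (.p (.p (.s .e))) (nat_lit 4395899027456) (.ret (nat_lit 0)) (.ret (nat_lit 36))) (.ret (nat_lit 18))) (.ret (nat_lit 0))))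
def rg_15 : Prog := (.askT (.p (.s (.p (.s .e)))) (nat_lit 4395899027456) (.ret (nat_lit 180)) (.ret (nat_lit 144)))
def rg_16 : Prog := (.askT (.s (.n (.s .e))) (nat_lit 4395899027456) (.askT (.p (.s (.p (.s .e)))) (nat_lit 4388382834688) (.ret (nat_lit 180)) (.ret (nat_lit 144))) (.ret (nat_lit 144)))
def rg_17 : Prog := (.askT (.p (.s .e)) (nat_lit 4395899027456) (.askT (.s (.n (.s .e))) (nat_lit 4388382834688) rg_15 (.ret (nat_lit 144))) (.ret (nat_lit 144)))
def rg_19 : Prog := (.askT (.s (.n (.s .e))) (nat_lit 4362613030912) (.ret (nat_lit 180)) (.ret (nat_lit 144)))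
def rg_18 : Prog := (.askT (.s (.n (.s .e))) (nat_lit 4371202965504) (.ret (nat_lit 216)) rg_19)
def rg_21 : Prog := (.askT (.s (.n (.s .e))) (nat_lit 4371202965504) (.ret (nat_lit 180)) (.ret (nat_lit 144)))
def rg_20 : Prog := (.askT (.s (.n (.s .e))) (nat_lit 4362613030912) (.ret (nat_lit 162)) rg_21)
def rg_22 : Prog := (.askT (.s (.n (.s .e))) (nat_lit 4362613030912) (.ret (nat_lit 150)) rg_21)
def rg_23 : Prog := (.askT (.s (.n (.s .e))) (nat_lit 4395899027456) (.ret (nat_lit 168)) (.ret (nat_lit 144)))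
def rg_24 : Prog := (.askT (.s (.n (.s .e))) (nat_lit 4379792900096) (.ret (nat_lit 180)) (.ret (nat_lit 144)))
def rg_26 : Prog := (.askT (.s (.n (.s .e))) (nat_lit 4392677801984) (.ret (nat_lit 180)) (.ret (nat_lit 144)))
def rg_25 : Prog := (.askT (.s (.n (.s .e))) (nat_lit 4394825285632) (.ret (nat_lit 216)) rg_26)
def rg_27 : Prog := (.askT (.s (.n (.s .e))) (nat_lit 4379792900096) (.ret (nat_lit 168)) (.ret (nat_lit 144)))
def rg_28 : Prog := (.askT (.s (.n (.s .e))) (nat_lit 4392677801984) (.ret (nat_lit 186)) (.askT (.s (.n (.s .e))) (nat_lit 4379792900096) (.ret (nat_lit 168)) (.askT (.s (.n (.s .e))) (nat_lit 4394825285632) (.ret (nat_lit 162)) (.ret (nat_lit 144)))))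
def rg_30 : Prog := (.askT (.s (.n (.s .e))) (nat_lit 4394825285632) (.ret (nat_lit 180)) (.ret (nat_lit 144)))
def rg_29 : Prog := (.askT (.s (.n (.s .e))) (nat_lit 4375497932800) (.ret (nat_lit 174)) rg_30)
def rg_31 : Prog := (.askT (.s (.n (.s .e))) (nat_lit 4395899027456) (.ret (nat_lit 180)) (.ret (nat_lit 144)))
def rg_32 : Prog := (.askT (.s (.n (.s .e))) (nat_lit 4395899027456) (.ret (nat_lit 216)) (.ret (nat_lit 144)))
def rg_34 : Prog := (.askT (.s (.n (.s .e))) (nat_lit 4388382834688) (.ret (nat_lit 180)) (.ret (nat_lit 144)))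
def rg_33 : Prog := (.askT (.s (.n (.s .e))) (nat_lit 4395899027456) (.ret (nat_lit 192)) rg_34)
def rg_35 : Prog := (.askT (.s (.n (.s .e))) (nat_lit 4395899027456) (.ret (nat_lit 186)) rg_30)
def rg_36 : Prog := (.askT (.s (.n (.s .e))) (nat_lit 4395899027456) (.ret (nat_lit 174)) (.ret (nat_lit 144)))
def rg_37 : Prog := (.askT (.p (.s .e)) (nat_lit 4379792900096) rg_23 (.ret (nat_lit 144)))
def rg_38 : Prog := (.askT (.s (.n (.s .e))) (nat_lit 4379792900096) (.ret (nat_lit 198)) (.askT (.s (.n (.s .e))) (nat_lit 4351875612672) (.ret (nat_lit 216)) rg_26))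
def rg_39 : Prog := (.askT (.s (.n (.s .e))) (nat_lit 4362613030912) (.ret (nat_lit 168)) (.ret (nat_lit 144)))
def rg_40 : Prog := (.askT (.s (.n (.s .e))) (nat_lit 4358318063616) (.ret (nat_lit 156)) (.askT (.s (.n (.s .e))) (nat_lit 4379792900096) (.ret (nat_lit 162)) (.askT (.s (.n (.s .e))) (nat_lit 4386235351040) (.ret (nat_lit 180)) (.ret (nat_lit 144)))))
def rg_41 : Prog := (.askT (.s (.n (.s .e))) (nat_lit 4388382834688) (.ret (nat_lit 174)) (.askT (.s (.n (.s .e))) (nat_lit 4394825285632) (.ret (nat_lit 168)) (.askT (.s (.n (.s .e))) (nat_lit 4392677801984) (.ret (nat_lit 150)) (.askT (.s (.n (.s .e))) (nat_lit 4345433161728) (.ret (nat_lit 162)) (.ret (nat_lit 144))))))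
def rg_42 : Prog := (.askT (.s (.n (.s .e))) (nat_lit 4387309092864) (.ret (nat_lit 216)) (.ret (nat_lit 144)))
def rg_43 : Prog := (.askT (.s (.n (.s .e))) (nat_lit 4387309092864) (.ret (nat_lit 180)) (.ret (nat_lit 144)))
def rg_44 : Prog := (.askT (.s (.n (.s .e))) (nat_lit 4395899027456) (.ret (nat_lit 198)) rg_34)
def rg_45 : Prog := (.askT (.s (.n (.s .e))) (nat_lit 4393751543808) (.ret (nat_lit 180)) (.ret (nat_lit 144)))
def rg_46 : Prog := (.askT (.s (.n (.s .e))) (nat_lit 4395899027456) (.ret (nat_lit 156)) (.ret (nat_lit 144)))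
def TABP : Prog := (.askT .e (nat_lit 4379792900096) (.askF .e (nat_lit 13194139533312) (.ret (nat_lit 72)) (.askF .e (nat_lit 26388279066624) (.askT (.s .e) (nat_lit 4362613030912) (.askT (.p (.s .e)) (nat_lit 4392677801984) rg_46 (.askT (.p (.s .e)) (nat_lit 4388382834688) rg_30 (.askT (.p (.s .e)) (nat_lit 4379792900096) rg_31 (.askT (.p (.s .e)) (nat_lit 4394825285632) rg_44 (.askT (.p (.s .e)) (nat_lit 4395899027456) rg_41 (.ret (nat_lit 144))))))) (.askT (.s .e) (nat_lit 4379792900096) (.askT (.p (.s .e)) (nat_lit 4388382834688) rg_45 (.askT (.p (.s .e)) (nat_lit 4345433161728) rg_31 (.askT (.p (.s .e)) (nat_lit 4394825285632) rg_43 (.askT (.p (.s .e)) (nat_lit 4395899027456) rg_40 (.askT (.p (.s .e)) (nat_lit 4392677801984) rg_23 (.ret (nat_lit 144))))))) (.askT (.s .e) (nat_lit 4392677801984) (.askT (.p (.s .e)) (nat_lit 4362613030912) rg_46 (.askT (.p (.s .e)) (nat_lit 4388382834688) rg_31 (.askT (.p (.s .e)) (nat_lit 4395899027456)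 rg_39 rg_37))) (.askT (.s .e) (nat_lit 4388382834688) (.askT (.p (.s .e)) (nat_lit 4362613030912) rg_30 (.askT (.p (.s .e)) (nat_lit 4379792900096) rg_45 (.askT (.p (.s .e)) (nat_lit 4392677801984) rg_31 (.askT (.p (.s .e)) (nat_lit 4388382834688) (.askT (.s (.n (.s .e))) (nat_lit 4394825285632) (.ret (nat_lit 216)) (.ret (nat_lit 144))) (.askT (.p (.s .e)) (nat_lit 4394825285632) rg_42 (.askT (.p (.s .e)) (nat_lit 4395899027456) rg_38 (.ret (nat_lit 144)))))))) (.askT (.s .e) (nat_lit 4394825285632) (.askT (.p (.s .e)) (nat_lit 4362613030912) rg_44 (.askT (.p (.s .e)) (nat_lit 4379792900096) rg_43 (.askT (.p (.s .e)) (nat_lit 4388382834688) rg_42 (.askT (.p (.s .e)) (nat_lit 4395899027456) rg_19 (.ret (nat_lit 144)))))) (.askT (.s .e) (nat_lit 4395899027456) (.askT (.p (.s .e)) (nat_lit 4362613030912) rg_41 (.askT (.p (.s .e)) (nat_lit 4379792900096) rg_40 (.askT (.p (.s .e)) (nat_lit 4392677801984) rg_39 (.askT (.p (.s .e)) (nat_lit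 4388382834688) rg_38 (.askT (.p (.s .e)) (nat_lit 4394825285632) rg_19 (.ret (nat_lit 144))))))) (.ret (nat_lit 144)))))))) (.askT (.s .e) (nat_lit 4395899027456) (.askT (.p (.s .e)) (nat_lit 4395899027456) (.askT (.s (.n (.s .e))) (nat_lit 4395899027456) (.askT (.p (.s (.p (.s .e)))) (nat_lit 4395899027456) (.ret (nat_lit 216)) (.ret (nat_lit 144))) (.ret (nat_lit 144))) (.askT (.p (.s .e)) (nat_lit 4394825285632) rg_16 (.ret (nat_lit 144)))) (.askT (.s .e) (nat_lit 4394825285632) rg_17 (.ret (nat_lit 144)))))) (.askT .e (nat_lit 4362613030912) (.askF .e (nat_lit 13194139533312) (.ret (nat_lit 72)) (.askF .e (nat_lit 26388279066624) (.askT (.s .e) (nat_lit 4362613030912) (.askT (.p (.s .e)) (nat_lit 4395899027456) rg_29 (.askT (.p (.s .e)) (nat_lit 4390530318336) rg_31 rg_37)) (.askT (.s .e) (nat_lit 4379792900096) (.askT (.p (.s .e)) (nat_lit 4392677801984) rg_36 (.askT (.p (.s .e)) (nat_lit 4388382834688) rg_35 (.askT (.p (.s .e))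 (nat_lit 4394825285632) rg_33 (.askT (.p (.s .e)) (nat_lit 4395899027456) rg_28 (.askT (.p (.s .e)) (nat_lit 4379792900096) rg_31 (.askT (.p (.s .e)) (nat_lit 4362613030912) rg_23 (.ret (nat_lit 144)))))))) (.askT (.s .e) (nat_lit 4392677801984) (.askT (.p (.s .e)) (nat_lit 4379792900096) rg_36 (.askT (.p (.s .e)) (nat_lit 4395899027456) rg_27 (.askT (.p (.s .e)) (nat_lit 4354023096320) rg_31 (.ret (nat_lit 144))))) (.askT (.s .e) (nat_lit 4388382834688) (.askT (.p (.s .e)) (nat_lit 4379792900096) rg_35 (.askT (.p (.s .e)) (nat_lit 4394825285632) rg_32 (.askT (.p (.s .e)) (nat_lit 4395899027456) rg_25 (.askT (.p (.s .e)) (nat_lit 4392677801984) rg_31 (.ret (nat_lit 144)))))) (.askT (.s .e) (nat_lit 4394825285632) (.askT (.p (.s .e)) (nat_lit 4379792900096) rg_33 (.askT (.p (.s .e)) (nat_lit 4388382834688) rg_32 (.askT (.p (.s .e)) (nat_lit 4395899027456) rg_24 (.askT (.p (.s .e)) (nat_lit 4362613030912) rg_31 (.ret (nat_lit 144))))))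 (.askT (.s .e) (nat_lit 4395899027456) (.askT (.p (.s .e)) (nat_lit 4362613030912) rg_29 (.askT (.p (.s .e)) (nat_lit 4379792900096) rg_28 (.askT (.p (.s .e)) (nat_lit 4392677801984) rg_27 (.askT (.p (.s .e)) (nat_lit 4388382834688) rg_25 (.askT (.p (.s .e)) (nat_lit 4394825285632) rg_24 (.askT (.p (.s .e)) (nat_lit 4395899027456) (.askT (.s (.n (.s .e))) (nat_lit 67645734912) (.ret (nat_lit 216)) (.ret (nat_lit 144))) (.ret (nat_lit 144)))))))) (.ret (nat_lit 144)))))))) (.ret (nat_lit 144)))) (.askF .e (nat_lit 13194139533312) (.ret (nat_lit 72)) (.askF .e (nat_lit 26388279066624) (.askT (.s .e) (nat_lit 4362613030912) (.askT (.p (.s .e)) (nat_lit 4379792900096) rg_23 (.askT (.p (.s .e)) (nat_lit 4395899027456) rg_22 (.ret (nat_lit 144)))) (.askT (.s .e) (nat_lit 4379792900096) (.askT (.p (.s .e)) (nat_lit 4362613030912) rg_23 (.askT (.p (.s .e)) (nat_lit 4395899027456) rg_20 (.ret (nat_lit 144)))) (.askT (.s .e) (nat_lit 4388382834688)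 (.askT (.p (.s .e)) (nat_lit 4395899027456) rg_18 (.ret (nat_lit 144))) (.askT (.s .e) (nat_lit 4395899027456) (.askT (.p (.s .e)) (nat_lit 4362613030912) rg_22 (.askT (.p (.s .e)) (nat_lit 4379792900096) rg_20 (.askT (.p (.s .e)) (nat_lit 4388382834688) rg_18 (.ret (nat_lit 144))))) (.ret (nat_lit 144)))))) (.askT (.s .e) (nat_lit 4394825285632) rg_17 (.askT (.s .e) (nat_lit 4395899027456) (.askT (.p (.s .e)) (nat_lit 4394825285632) rg_16 (.askT (.p (.s .e)) (nat_lit 4395899027456) (.askT (.s (.n (.s .e))) (nat_lit 4336843227136) rg_15 (.askT (.s (.n (.s .e))) (nat_lit 4395899027456) (.askT (.p (.s (.p (.s .e)))) (nat_lit 4395899027456) (.ret (nat_lit 216)) (.askT (.p (.s (.p (.s .e)))) (nat_lit 4336843227136) (.ret (nat_lit 180)) (.ret (nat_lit 144)))) (.ret (nat_lit 144)))) (.ret (nat_lit 144)))) (.ret (nat_lit 144))))))))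
def rg_48 : Prog := (.askT (.n (.p (.s (.p (.s .e))))) (nat_lit 4395899027456) (.ret (nat_lit 432)) (.ret (nat_lit 0)))
def rg_47 : Prog := (.askT (.n (.s .e)) (nat_lit 4395899027456) (.askT (.n (.s (.n (.s .e)))) (nat_lit 4395899027456) (.askT (.n (.p (.s (.p (.s .e))))) (nat_lit 4336843227136) (.ret (nat_lit 396)) rg_48) (.ret (nat_lit 0))) (.ret (nat_lit 0)))
def rg_50 : Prog := (.askT (.n (.p (.s (.p (.s .e))))) (nat_lit 4395899027456) (.ret (nat_lit 396)) (.ret (nat_lit 0)))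
def rg_49 : Prog := (.askT (.n (.s .e)) (nat_lit 4395899027456) (.askT (.n (.s (.n (.s .e)))) (nat_lit 4395899027456) (.askT (.n (.p (.s (.p (.s .e))))) (nat_lit 4336843227136) (.ret (nat_lit 360)) rg_50) (.ret (nat_lit 0))) (.ret (nat_lit 0)))
def rg_52 : Prog := (.askT (.n (.s (.n (.s .e)))) (nat_lit 4371202965504) (.ret (nat_lit 396)) (.ret (nat_lit 0)))
def rg_51 : Prog := (.askT (.n (.s (.n (.s .e)))) (nat_lit 4362613030912) (.ret (nat_lit 378)) rg_52)
def rg_53 : Prog := (.askT (.n (.s (.n (.s .e)))) (nat_lit 4362613030912) (.ret (nat_lit 366)) rg_52)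
def rg_54 : Prog := (.askT (.n (.s (.n (.s .e)))) (nat_lit 4388382834688) (.ret (nat_lit 432)) (.ret (nat_lit 0)))
def rg_57 : Prog := (.askT (.n (.s (.n (.s .e)))) (nat_lit 4371202965504) (.ret (nat_lit 360)) (.ret (nat_lit 0)))
def rg_56 : Prog := (.askT (.n (.s (.n (.s .e)))) (nat_lit 4362613030912) (.ret (nat_lit 342)) rg_57)
def rg_58 : Prog := (.askT (.n (.s (.n (.s .e)))) (nat_lit 4362613030912) (.ret (nat_lit 330)) rg_57)
def rg_55 : Prog := (.askT (.n (.s .e)) (nat_lit 4362613030912) rg_58 (.askT (.n (.s .e)) (nat_lit 4379792900096) rg_56 (.askT (.n (.s .e)) (nat_lit 4388382834688) (.askT (.n (.s (.n (.s .e)))) (nat_lit 4362613030912) (.ret (nat_lit 360)) rg_52) (.ret (nat_lit 0)))))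
def rg_60 : Prog := (.askT (.n (.s (.n (.s .e)))) (nat_lit 4388382834688) (.ret (nat_lit 396)) (.ret (nat_lit 0)))
def rg_59 : Prog := (.askT (.n (.s .e)) (nat_lit 4388382834688) (.askT (.n (.s (.n (.s .e)))) (nat_lit 4345433161728) (.ret (nat_lit 360)) rg_60) (.askT (.n (.s .e)) (nat_lit 4362613030912) rg_58 (.askT (.n (.s .e)) (nat_lit 4379792900096) rg_56 (.ret (nat_lit 0)))))
def rg_61 : Prog := (.askT (.n (.p (.s (.p (.s .e))))) (nat_lit 4395899027456) (.ret (nat_lit 378)) (.ret (nat_lit 0)))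
def rg_62 : Prog := (.askT (.n (.p (.s (.p (.s .e))))) (nat_lit 4395899027456) (.ret (nat_lit 366)) (.ret (nat_lit 0)))
def rg_64 : Prog := (.askT (.n (.s (.n (.s .e)))) (nat_lit 4371202965504) (.ret (nat_lit 342)) (.ret (nat_lit 0)))
def rg_63 : Prog := (.askT (.n (.s (.n (.s .e)))) (nat_lit 4362613030912) (.ret (nat_lit 324)) rg_64)
def rg_65 : Prog := (.askT (.n (.s (.n (.s .e)))) (nat_lit 4371202965504) (.ret (nat_lit 330)) (.ret (nat_lit 0)))
def rg_66 : Prog := (.askT (.n (.s (.n (.s .e)))) (nat_lit 4362613030912) (.ret (nat_lit 300)) rg_65)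
def rg_67 : Prog := (.askT (.n (.s (.n (.s .e)))) (nat_lit 4345433161728) (.ret (nat_lit 360)) (.ret (nat_lit 0)))
def rg_68 : Prog := (.askT (.n (.s (.n (.s .e)))) (nat_lit 4362613030912) (.ret (nat_lit 330)) (.ret (nat_lit 0)))
def rg_69 : Prog := (.askT (.n (.s (.n (.s .e)))) (nat_lit 4395899027456) (.ret (nat_lit 336)) (.ret (nat_lit 0)))
def rg_70 : Prog := (.askT (.n (.s (.n (.s .e)))) (nat_lit 4395899027456) (.ret (nat_lit 348)) (.ret (nat_lit 0)))
def rg_71 : Prog := (.askT (.n (.s (.n (.s .e)))) (nat_lit 4395899027456) (.ret (nat_lit 330)) (.ret (nat_lit 0)))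
def rg_72 : Prog := (.askT (.n (.s .e)) (nat_lit 4379792900096) rg_69 (.ret (nat_lit 0)))
def rg_73 : Prog := (.askT (.n (.s (.n (.s .e)))) (nat_lit 4395899027456) (.ret (nat_lit 318)) (.ret (nat_lit 0)))
def rg_76 : Prog := (.askT (.n (.s (.n (.s .e)))) (nat_lit 4394825285632) (.ret (nat_lit 432)) (.ret (nat_lit 0)))
def rg_75 : Prog := (.askT (.n (.s (.n (.s .e)))) (nat_lit 4392677801984) (.ret (nat_lit 396)) rg_76)
def rg_74 : Prog := (.askT (.n (.s .e)) (nat_lit 4388382834688) rg_75 (.ret (nat_lit 0)))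
def rg_77 : Prog := (.askT (.n (.s (.n (.s .e)))) (nat_lit 4379792900096) (.ret (nat_lit 396)) (.ret (nat_lit 0)))
def rg_78 : Prog := (.askT (.n (.s (.n (.s .e)))) (nat_lit 4379792900096) (.ret (nat_lit 384)) (.ret (nat_lit 0)))
def rg_80 : Prog := (.askT (.n (.s (.n (.s .e)))) (nat_lit 4394825285632) (.ret (nat_lit 378)) (.ret (nat_lit 0)))
def rg_79 : Prog := (.askT (.n (.s (.n (.s .e)))) (nat_lit 4392677801984) (.ret (nat_lit 402)) (.askT (.n (.s (.n (.s .e)))) (nat_lit 4379792900096) (.ret (nat_lit 384)) rg_80))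
def rg_82 : Prog := (.askT (.n (.s (.n (.s .e)))) (nat_lit 4394825285632) (.ret (nat_lit 396)) (.ret (nat_lit 0)))
def rg_81 : Prog := (.askT (.n (.s (.n (.s .e)))) (nat_lit 4375497932800) (.ret (nat_lit 390)) rg_82)
def rg_83 : Prog := (.askT (.n (.s (.n (.s .e)))) (nat_lit 4379792900096) (.ret (nat_lit 330)) (.ret (nat_lit 0)))
def rg_84 : Prog := (.askT (.n (.s (.n (.s .e)))) (nat_lit 4379792900096) (.ret (nat_lit 342)) (.ret (nat_lit 0)))
def rg_85 : Prog := (.askT (.n (.s (.n (.s .e)))) (nat_lit 4394825285632) (.ret (nat_lit 342)) (.ret (nat_lit 0)))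
def rg_87 : Prog := (.askT (.n (.s (.n (.s .e)))) (nat_lit 67645734912) (.ret (nat_lit 396)) (.ret (nat_lit 0)))
def rg_88 : Prog := (.askT (.n (.s (.n (.s .e)))) (nat_lit 4379792900096) (.ret (nat_lit 360)) (.ret (nat_lit 0)))
def rg_89 : Prog := (.askT (.n (.s (.n (.s .e)))) (nat_lit 4379792900096) (.ret (nat_lit 348)) (.ret (nat_lit 0)))
def rg_91 : Prog := (.askT (.n (.s (.n (.s .e)))) (nat_lit 4392677801984) (.ret (nat_lit 366)) (.ret (nat_lit 0)))
def rg_90 : Prog := (.askT (.n (.s (.n (.s .e)))) (nat_lit 4379792900096) (.ret (nat_lit 348)) (.askT (.n (.s (.n (.s .e)))) (nat_lit 4394825285632) (.ret (nat_lit 342)) rg_91))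
def rg_93 : Prog := (.askT (.n (.s (.n (.s .e)))) (nat_lit 4394825285632) (.ret (nat_lit 360)) (.ret (nat_lit 0)))
def rg_92 : Prog := (.askT (.n (.s (.n (.s .e)))) (nat_lit 4375497932800) (.ret (nat_lit 354)) rg_93)
def rg_86 : Prog := (.askT (.n (.s .e)) (nat_lit 4362613030912) rg_92 (.askT (.n (.s .e)) (nat_lit 4379792900096) rg_90 (.askT (.n (.s .e)) (nat_lit 4392677801984) rg_89 (.askT (.n (.s .e)) (nat_lit 4388382834688) (.askT (.n (.s (.n (.s .e)))) (nat_lit 4392677801984) (.ret (nat_lit 360)) rg_82) (.askT (.n (.s .e)) (nat_lit 4394825285632) rg_88 (.askT (.n (.s .e)) (nat_lit 4395899027456) rg_87 (.ret (nat_lit 0))))))))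
def rg_94 : Prog := (.askT (.n (.s (.n (.s .e)))) (nat_lit 4379792900096) (.ret (nat_lit 366)) (.ret (nat_lit 0)))
def rg_95 : Prog := (.askT (.n (.s (.n (.s .e)))) (nat_lit 4379792900096) (.ret (nat_lit 354)) (.ret (nat_lit 0)))
def rg_97 : Prog := (.askT (.n (.s (.n (.s .e)))) (nat_lit 4394825285632) (.ret (nat_lit 348)) (.ret (nat_lit 0)))
def rg_96 : Prog := (.askT (.n (.s (.n (.s .e)))) (nat_lit 4379792900096) (.ret (nat_lit 354)) (.askT (.n (.s (.n (.s .e)))) (nat_lit 4392677801984) (.ret (nat_lit 372)) rg_97))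
def rg_100 : Prog := (.askT (.n (.s (.n (.s .e)))) (nat_lit 4392677801984) (.ret (nat_lit 360)) (.ret (nat_lit 0)))
def rg_99 : Prog := (.askT (.n (.s (.n (.s .e)))) (nat_lit 4394825285632) (.ret (nat_lit 336)) (.askT (.n (.s (.n (.s .e)))) (nat_lit 4379792900096) (.ret (nat_lit 342)) rg_100))
def rg_102 : Prog := (.askT (.n (.s (.n (.s .e)))) (nat_lit 4375497932800) (.ret (nat_lit 348)) (.ret (nat_lit 0)))
def rg_101 : Prog := (.askT (.n (.s (.n (.s .e)))) (nat_lit 4394825285632) (.ret (nat_lit 354)) rg_102)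
def rg_98 : Prog := (.askT (.n (.s .e)) (nat_lit 4362613030912) rg_101 (.askT (.n (.s .e)) (nat_lit 4379792900096) rg_99 (.askT (.n (.s .e)) (nat_lit 4388382834688) (.askT (.n (.s (.n (.s .e)))) (nat_lit 4392677801984) (.ret (nat_lit 354)) (.askT (.n (.s (.n (.s .e)))) (nat_lit 4394825285632) (.ret (nat_lit 390)) (.ret (nat_lit 0)))) (.askT (.n (.s .e)) (nat_lit 4395899027456) (.askT (.n (.s (.n (.s .e)))) (nat_lit 67645734912) (.ret (nat_lit 390)) (.ret (nat_lit 0))) (.askT (.n (.s .e)) (nat_lit 4394825285632) rg_95 (.askT (.n (.s .e)) (nat_lit 4392677801984) rg_84 (.ret (nat_lit 0))))))))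
def rg_103 : Prog := (.askT (.n (.s (.n (.s .e)))) (nat_lit 4379792900096) (.ret (nat_lit 336)) (.ret (nat_lit 0)))
def rg_105 : Prog := (.askT (.n (.s (.n (.s .e)))) (nat_lit 4394825285632) (.ret (nat_lit 330)) (.ret (nat_lit 0)))
def rg_104 : Prog := (.askT (.n (.s (.n (.s .e)))) (nat_lit 4392677801984) (.ret (nat_lit 354)) (.askT (.n (.s (.n (.s .e)))) (nat_lit 4379792900096) (.ret (nat_lit 336)) rg_105))
def rg_106 : Prog := (.askT (.n (.s (.n (.s .e)))) (nat_lit 4394825285632) (.ret (nat_lit 348)) (.askT (.n (.s (.n (.s .e)))) (nat_lit 4375497932800) (.ret (nat_lit 342)) (.ret (nat_lit 0))))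
def rg_107 : Prog := (.askT (.n (.s (.n (.s .e)))) (nat_lit 4379792900096) (.ret (nat_lit 372)) (.ret (nat_lit 0)))
def rg_109 : Prog := (.askT (.n (.s (.n (.s .e)))) (nat_lit 4395899027456) (.ret (nat_lit 396)) (.ret (nat_lit 0)))
def rg_108 : Prog := (.askT (.n (.s .e)) (nat_lit 4388382834688) rg_109 (.ret (nat_lit 0)))
def rg_110 : Prog := (.askT (.n (.s (.n (.s .e)))) (nat_lit 4395899027456) (.ret (nat_lit 360)) (.ret (nat_lit 0)))
def rg_111 : Prog := (.askT (.n (.s (.n (.s .e)))) (nat_lit 4395899027456) (.ret (nat_lit 372)) (.ret (nat_lit 0)))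
def rg_112 : Prog := (.askT (.n (.s .e)) (nat_lit 4392677801984) rg_110 (.ret (nat_lit 0)))
def rg_113 : Prog := (.askT (.n (.s (.n (.s .e)))) (nat_lit 4395899027456) (.ret (nat_lit 366)) (.ret (nat_lit 0)))
def rg_114 : Prog := (.askT (.n (.s (.n (.s .e)))) (nat_lit 4395899027456) (.ret (nat_lit 354)) (.ret (nat_lit 0)))
def rg_115 : Prog := (.askT (.n (.s .e)) (nat_lit 4379792900096) rg_70 (.ret (nat_lit 0)))
def rg_116 : Prog := (.askT (.n (.s (.n (.s .e)))) (nat_lit 4395899027456) (.ret (nat_lit 342)) (.ret (nat_lit 0)))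
def rg_117 : Prog := (.askT (.n (.s (.n (.s .e)))) (nat_lit 4395899027456) (.ret (nat_lit 378)) (.ret (nat_lit 0)))
def rg_118 : Prog := (.askT (.n (.s .e)) (nat_lit 4392677801984) rg_70 (.ret (nat_lit 0)))
def rg_119 : Prog := (.askT (.n (.s (.n (.s .e)))) (nat_lit 4388382834688) (.ret (nat_lit 360)) (.ret (nat_lit 0)))
def rg_120 : Prog := (.askT (.n (.s .e)) (nat_lit 4392677801984) rg_69 (.ret (nat_lit 0)))
def rg_121 : Prog := (.askT (.n (.s (.n (.s .e)))) (nat_lit 4388382834688) (.ret (nat_lit 342)) (.ret (nat_lit 0)))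
def rg_122 : Prog := (.askT (.n (.s .e)) (nat_lit 4379792900096) rg_110 (.ret (nat_lit 0)))
def rg_123 : Prog := (.askT (.n (.s .e)) (nat_lit 4379792900096) rg_70 (.askT (.n (.s .e)) (nat_lit 4362613030912) rg_69 (.ret (nat_lit 0))))
def rg_124 : Prog := (.askT (.n (.s .e)) (nat_lit 4395899027456) rg_92 (.askT (.n (.s .e)) (nat_lit 4390530318336) rg_110 rg_115))
def rg_125 : Prog := (.askT (.n (.s (.n (.s .e)))) (nat_lit 4394825285632) (.ret (nat_lit 384)) (.askT (.n (.s (.n (.s .e)))) (nat_lit 4392677801984) (.ret (nat_lit 366)) (.askT (.n (.s (.n (.s .e)))) (nat_lit 4379792900096) (.ret (nat_lit 378)) (.ret (nat_lit 0)))))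
def rg_126 : Prog := (.askT (.n (.s (.n (.s .e)))) (nat_lit 4379792900096) (.ret (nat_lit 378)) rg_82)
def rg_128 : Prog := (.askT (.n (.s (.n (.s .e)))) (nat_lit 4362613030912) (.ret (nat_lit 360)) (.ret (nat_lit 0)))
def rg_127 : Prog := (.askT (.n (.s .e)) (nat_lit 4395899027456) rg_128 (.ret (nat_lit 0)))
def rg_129 : Prog := (.askT (.n (.s .e)) (nat_lit 4395899027456) (.askT (.n (.s (.n (.s .e)))) (nat_lit 4395899027456) rg_50 (.ret (nat_lit 0))) (.ret (nat_lit 0)))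
def rg_130 : Prog := (.askT (.p (.s .e)) (nat_lit 4388382834688) rg_129 (.ret (nat_lit 0)))
def rg_131 : Prog := (.askT (.n (.s (.n (.s .e)))) (nat_lit 4358318063616) (.ret (nat_lit 372)) (.askT (.n (.s (.n (.s .e)))) (nat_lit 4379792900096) (.ret (nat_lit 378)) (.askT (.n (.s (.n (.s .e)))) (nat_lit 4386235351040) (.ret (nat_lit 396)) (.ret (nat_lit 0)))))
def rg_133 : Prog := (.askT (.n (.s .e)) (nat_lit 4394825285632) rg_128 (.ret (nat_lit 0)))
def rg_134 : Prog := (.askT (.n (.s (.n (.s .e)))) (nat_lit 4375497932800) (.ret (nat_lit 360)) (.askT (.n (.s (.n (.s .e)))) (nat_lit 4351875612672) (.ret (nat_lit 396)) (.ret (nat_lit 0))))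
def rg_135 : Prog := (.askT (.n (.s (.n (.s .e)))) (nat_lit 4362613030912) (.ret (nat_lit 348)) (.ret (nat_lit 0)))
def rg_136 : Prog := (.askT (.n (.s (.n (.s .e)))) (nat_lit 4358318063616) (.ret (nat_lit 336)) (.askT (.n (.s (.n (.s .e)))) (nat_lit 4379792900096) (.ret (nat_lit 342)) (.askT (.n (.s (.n (.s .e)))) (nat_lit 4386235351040) (.ret (nat_lit 360)) (.ret (nat_lit 0)))))
def rg_137 : Prog := (.askT (.n (.s (.n (.s .e)))) (nat_lit 4388382834688) (.ret (nat_lit 354)) (.askT (.n (.s (.n (.s .e)))) (nat_lit 4394825285632) (.ret (nat_lit 348)) (.askT (.n (.s (.n (.s .e)))) (nat_lit 4392677801984) (.ret (nat_lit 330)) (.askT (.n (.s (.n (.s .e)))) (nat_lit 4345433161728) (.ret (nat_lit 342)) (.ret (nat_lit 0))))))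
def rg_132 : Prog := (.askT (.n (.s .e)) (nat_lit 4362613030912) rg_137 (.askT (.n (.s .e)) (nat_lit 4379792900096) rg_136 (.askT (.n (.s .e)) (nat_lit 4392677801984) rg_135 (.askT (.n (.s .e)) (nat_lit 4388382834688) rg_134 rg_133))))
def rg_138 : Prog := (.askT (.n (.s .e)) (nat_lit 4394825285632) rg_135 (.ret (nat_lit 0)))
def rg_139 : Prog := (.askT (.n (.s (.n (.s .e)))) (nat_lit 4362613030912) (.ret (nat_lit 336)) (.ret (nat_lit 0)))
def rg_140 : Prog := (.askT (.n (.s (.n (.s .e)))) (nat_lit 4386235351040) (.ret (nat_lit 348)) (.askT (.n (.s (.n (.s .e)))) (nat_lit 4358318063616) (.ret (nat_lit 324)) rg_83))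
def rg_141 : Prog := (.askT (.n (.s (.n (.s .e)))) (nat_lit 4345433161728) (.ret (nat_lit 330)) rg_121)
def rg_142 : Prog := (.askT (.n (.s (.n (.s .e)))) (nat_lit 4379792900096) (.ret (nat_lit 414)) rg_75)
def rg_143 : Prog := (.askT (.n (.s .e)) (nat_lit 4379792900096) rg_136 (.askT (.n (.s .e)) (nat_lit 4392677801984) rg_135 rg_133))
def rg_144 : Prog := (.askT (.n (.s (.n (.s .e)))) (nat_lit 4392677801984) (.ret (nat_lit 360)) (.askT (.n (.s (.n (.s .e)))) (nat_lit 4379792900096) (.ret (nat_lit 378)) (.askT (.n (.s (.n (.s .e)))) (nat_lit 4360465547264) (.ret (nat_lit 396)) (.ret (nat_lit 0)))))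
def rg_145 : Prog := (.askT (.n (.s (.n (.s .e)))) (nat_lit 4379792900096) (.ret (nat_lit 336)) (.askT (.n (.s (.n (.s .e)))) (nat_lit 4392677801984) (.ret (nat_lit 324)) rg_85))
def rg_146 : Prog := (.askT (.n (.s .e)) (nat_lit 4394825285632) rg_139 (.ret (nat_lit 0)))
def rg_147 : Prog := (.askT (.n (.s (.n (.s .e)))) (nat_lit 4362613030912) (.ret (nat_lit 324)) (.ret (nat_lit 0)))
def rg_148 : Prog := (.askT (.n (.s (.n (.s .e)))) (nat_lit 4379792900096) (.ret (nat_lit 318)) (.askT (.n (.s (.n (.s .e)))) (nat_lit 4386235351040) (.ret (nat_lit 336)) (.askT (.n (.s (.n (.s .e)))) (nat_lit 4358318063616) (.ret (nat_lit 312)) (.ret (nat_lit 0)))))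
def rg_150 : Prog := (.askT (.n (.s (.n (.s .e)))) (nat_lit 4388382834688) (.ret (nat_lit 330)) (.ret (nat_lit 0)))
def rg_149 : Prog := (.askT (.n (.s (.n (.s .e)))) (nat_lit 4392677801984) (.ret (nat_lit 306)) (.askT (.n (.s (.n (.s .e)))) (nat_lit 4345433161728) (.ret (nat_lit 318)) (.askT (.n (.s (.n (.s .e)))) (nat_lit 4394825285632) (.ret (nat_lit 324)) rg_150)))
def rg_151 : Prog := (.askT (.n (.s (.n (.s .e)))) (nat_lit 4394825285632) (.ret (nat_lit 318)) (.askT (.n (.s (.n (.s .e)))) (nat_lit 4392677801984) (.ret (nat_lit 300)) (.askT (.n (.s (.n (.s .e)))) (nat_lit 4345433161728) (.ret (nat_lit 312)) (.askT (.n (.s (.n (.s .e)))) (nat_lit 4388382834688) (.ret (nat_lit 324)) (.ret (nat_lit 0))))))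
def rg_152 : Prog := (.askT (.n (.s (.n (.s .e)))) (nat_lit 4358318063616) (.ret (nat_lit 318)) (.askT (.n (.s (.n (.s .e)))) (nat_lit 4379792900096) (.ret (nat_lit 324)) (.askT (.n (.s (.n (.s .e)))) (nat_lit 4386235351040) (.ret (nat_lit 342)) (.ret (nat_lit 0)))))
def rg_153 : Prog := (.askT (.n (.s (.n (.s .e)))) (nat_lit 4388382834688) (.ret (nat_lit 336)) (.askT (.n (.s (.n (.s .e)))) (nat_lit 4392677801984) (.ret (nat_lit 312)) (.askT (.n (.s (.n (.s .e)))) (nat_lit 4345433161728) (.ret (nat_lit 324)) rg_105)))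
def rg_155 : Prog := (.askT (.n (.s (.n (.s .e)))) (nat_lit 4392677801984) (.ret (nat_lit 330)) rg_84)
def rg_154 : Prog := (.askT (.n (.s (.n (.s .e)))) (nat_lit 4394825285632) (.ret (nat_lit 348)) rg_155)
def rg_156 : Prog := (.askT (.n (.s (.n (.s .e)))) (nat_lit 4392677801984) (.ret (nat_lit 312)) (.askT (.n (.s (.n (.s .e)))) (nat_lit 4379792900096) (.ret (nat_lit 324)) rg_105))
def rg_157 : Prog := (.askT (.n (.s .e)) (nat_lit 4379792900096) rg_109 (.ret (nat_lit 0)))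
def rg_159 : Prog := (.askT (.n (.s (.n (.s .e)))) (nat_lit 4375497932800) (.ret (nat_lit 396)) (.ret (nat_lit 0)))
def rg_158 : Prog := (.askT (.n (.s .e)) (nat_lit 4395899027456) rg_159 (.ret (nat_lit 0)))
def rg_160 : Prog := (.askT (.n (.s (.n (.s .e)))) (nat_lit 4393751543808) (.ret (nat_lit 360)) (.ret (nat_lit 0)))
def rg_161 : Prog := (.askT (.n (.s (.n (.s .e)))) (nat_lit 4379792900096) (.ret (nat_lit 414)) (.askT (.n (.s (.n (.s .e)))) (nat_lit 4392677801984) (.ret (nat_lit 396)) (.ret (nat_lit 0))))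
def rg_162 : Prog := (.askT (.n (.s .e)) (nat_lit 4395899027456) rg_159 rg_157)
def rg_163 : Prog := (.askT (.n (.s (.n (.s .e)))) (nat_lit 4387309092864) (.ret (nat_lit 396)) (.ret (nat_lit 0)))
def rg_165 : Prog := (.askT (.n (.s (.n (.s .e)))) (nat_lit 4395899027456) (.ret (nat_lit 324)) (.ret (nat_lit 0)))
def rg_164 : Prog := (.askT (.n (.s .e)) (nat_lit 4362613030912) rg_165 (.askT (.n (.s .e)) (nat_lit 4395899027456) rg_139 (.askT (.n (.s .e)) (nat_lit 4388382834688) rg_70 rg_72)))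
def rg_166 : Prog := (.askT (.n (.s .e)) (nat_lit 4394825285632) (.askT (.n (.s (.n (.s .e)))) (nat_lit 4387309092864) (.ret (nat_lit 360)) (.ret (nat_lit 0))) (.askT (.n (.s .e)) (nat_lit 4388382834688) rg_160 (.askT (.n (.s .e)) (nat_lit 4345433161728) rg_110 (.askT (.n (.s .e)) (nat_lit 4395899027456) rg_136 rg_118))))
def rg_167 : Prog := (.askT (.n (.s .e)) (nat_lit 4392677801984) rg_71 (.ret (nat_lit 0)))
def rg_168 : Prog := (.askT (.n (.s .e)) (nat_lit 4392677801984) rg_73 (.ret (nat_lit 0)))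
def PAIRP : Prog := (.askT .e (nat_lit 4379792900096) (.askF .e (nat_lit 13194139533312) (.ret (nat_lit 0)) (.askF (.n .e) (nat_lit 13194139533312) (.ret (nat_lit 0)) (.askF .e (nat_lit 26388279066624) (.askF (.n .e) (nat_lit 26388279066624) (.askT (.s .e) (nat_lit 4362613030912) (.askT (.s (.n (.s .e))) (nat_lit 4362613030912) (.askT (.p (.s .e)) (nat_lit 4395899027456) (.askT (.n (.s .e)) (nat_lit 4379792900096) rg_116 (.askT (.n (.s .e)) (nat_lit 4394825285632) rg_110 (.askT (.n (.s .e)) (nat_lit 4395899027456) rg_156 rg_168))) (.ret (nat_lit 0))) (.askT (.s (.n (.s .e))) (nat_lit 4379792900096) (.askT (.p (.s .e)) (nat_lit 4395899027456) (.askT (.n (.s .e)) (nat_lit 4394825285632) (.askT (.n (.s (.n (.s .e)))) (nat_lit 4388382834688) (.ret (nat_lit 342)) rg_110) (.askT (.n (.s .e)) (nat_lit 4379792900096) rg_116 (.askT (.n (.s .e)) (nat_lit 4395899027456) rg_153 (.askT (.n (.s .e)) (nat_lit 4388382834688) rg_85 rg_168)))) (.ret (nat_lit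 0))) (.askT (.s (.n (.s .e))) (nat_lit 4392677801984) (.askT (.p (.s .e)) (nat_lit 4395899027456) (.askT (.n (.s .e)) (nat_lit 4392677801984) (.askT (.n (.s (.n (.s .e)))) (nat_lit 4395899027456) (.ret (nat_lit 306)) (.ret (nat_lit 0))) (.askT (.n (.s .e)) (nat_lit 4394825285632) (.askT (.n (.s (.n (.s .e)))) (nat_lit 4395899027456) (.ret (nat_lit 348)) rg_150) (.askT (.n (.s .e)) (nat_lit 4388382834688) rg_105 (.askT (.n (.s .e)) (nat_lit 4395899027456) rg_151 (.askT (.n (.s .e)) (nat_lit 4379792900096) rg_71 (.ret (nat_lit 0))))))) (.ret (nat_lit 0))) (.askT (.s (.n (.s .e))) (nat_lit 4388382834688) (.askT (.p (.s .e)) (nat_lit 4394825285632) (.askT (.n (.s .e)) (nat_lit 4379792900096) rg_110 (.askT (.n (.s .e)) (nat_lit 4395899027456) rg_155 (.ret (nat_lit 0)))) (.askT (.p (.s .e)) (nat_lit 4395899027456) (.askT (.n (.s .e)) (nat_lit 4379792900096) rg_114 (.askT (.n (.s .e)) (nat_lit 4394825285632) rg_111 (.askT (.n (.s .e)) (nat_lit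 4395899027456) rg_145 rg_167))) (.ret (nat_lit 0)))) (.askT (.s (.n (.s .e))) (nat_lit 4394825285632) (.askT (.p (.s .e)) (nat_lit 4388382834688) (.askT (.n (.s .e)) (nat_lit 4394825285632) rg_117 (.askT (.n (.s .e)) (nat_lit 4379792900096) rg_110 (.askT (.n (.s .e)) (nat_lit 4395899027456) rg_154 rg_120))) (.askT (.p (.s .e)) (nat_lit 4395899027456) (.askT (.n (.s .e)) (nat_lit 4388382834688) rg_97 (.askT (.n (.s .e)) (nat_lit 4395899027456) (.askT (.n (.s (.n (.s .e)))) (nat_lit 4392677801984) (.ret (nat_lit 318)) rg_141) rg_115)) (.ret (nat_lit 0)))) (.askT (.s (.n (.s .e))) (nat_lit 4395899027456) (.askT (.p (.s .e)) (nat_lit 4379792900096) (.askT (.n (.s .e)) (nat_lit 4394825285632) (.askT (.n (.s (.n (.s .e)))) (nat_lit 4388382834688) (.ret (nat_lit 360)) rg_117) (.askT (.n (.s .e)) (nat_lit 4388382834688) rg_93 (.askT (.n (.s .e)) (nat_lit 4379792900096) rg_110 (.askT (.n (.s .e)) (nat_lit 4395899027456) rg_137 rg_120)))) (.askT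 (.p (.s .e)) (nat_lit 4392677801984) (.askT (.n (.s .e)) (nat_lit 4388382834688) (.askT (.n (.s (.n (.s .e)))) (nat_lit 4394825285632) (.ret (nat_lit 336)) (.ret (nat_lit 0))) (.askT (.n (.s .e)) (nat_lit 4395899027456) (.askT (.n (.s (.n (.s .e)))) (nat_lit 4392677801984) (.ret (nat_lit 306)) (.askT (.n (.s (.n (.s .e)))) (nat_lit 4345433161728) (.ret (nat_lit 318)) rg_150)) rg_72)) (.askT (.p (.s .e)) (nat_lit 4394825285632) (.askT (.n (.s .e)) (nat_lit 4395899027456) (.askT (.n (.s (.n (.s .e)))) (nat_lit 4388382834688) (.ret (nat_lit 372)) (.askT (.n (.s (.n (.s .e)))) (nat_lit 4392677801984) (.ret (nat_lit 348)) rg_67)) (.askT (.n (.s .e)) (nat_lit 4379792900096) rg_117 (.askT (.n (.s .e)) (nat_lit 4388382834688) rg_80 (.ret (nat_lit 0))))) (.ret (nat_lit 0))))) (.ret (nat_lit 0)))))))) (.askT (.s .e) (nat_lit 4379792900096) (.askT (.s (.n (.s .e))) (nat_lit 4379792900096) (.askT (.p (.s .e)) (nat_lit 4395899027456) (.askT (.n (.s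 .e)) (nat_lit 4345433161728) rg_116 (.askT (.n (.s .e)) (nat_lit 4388382834688) (.askT (.n (.s (.n (.s .e)))) (nat_lit 4393751543808) (.ret (nat_lit 342)) (.ret (nat_lit 0))) (.askT (.n (.s .e)) (nat_lit 4394825285632) (.askT (.n (.s (.n (.s .e)))) (nat_lit 4387309092864) (.ret (nat_lit 342)) (.ret (nat_lit 0))) (.askT (.n (.s .e)) (nat_lit 4395899027456) rg_152 rg_167)))) (.ret (nat_lit 0))) (.askT (.s (.n (.s .e))) (nat_lit 4358318063616) (.askT (.p (.s .e)) (nat_lit 4395899027456) (.askT (.n (.s .e)) (nat_lit 4388382834688) (.askT (.n (.s (.n (.s .e)))) (nat_lit 4393751543808) (.ret (nat_lit 336)) (.ret (nat_lit 0))) (.askT (.n (.s .e)) (nat_lit 4394825285632) (.askT (.n (.s (.n (.s .e)))) (nat_lit 4387309092864) (.ret (nat_lit 336)) (.ret (nat_lit 0))) (.askT (.n (.s .e)) (nat_lit 4392677801984) rg_165 (.askT (.n (.s .e)) (nat_lit 4395899027456) rg_148 (.askT (.n (.s .e)) (nat_lit 4345433161728) rg_69 (.ret (nat_lit 0))))))) (.ret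 (nat_lit 0))) (.askT (.s (.n (.s .e))) (nat_lit 4388382834688) (.askT (.p (.s .e)) (nat_lit 4393751543808) rg_166 (.ret (nat_lit 0))) (.askT (.s (.n (.s .e))) (nat_lit 4394825285632) (.askT (.p (.s .e)) (nat_lit 4387309092864) rg_166 (.ret (nat_lit 0))) (.askT (.s (.n (.s .e))) (nat_lit 4395899027456) (.askT (.p (.s .e)) (nat_lit 4392677801984) (.askT (.n (.s .e)) (nat_lit 4388382834688) (.askT (.n (.s (.n (.s .e)))) (nat_lit 4393751543808) (.ret (nat_lit 348)) (.ret (nat_lit 0))) (.askT (.n (.s .e)) (nat_lit 4394825285632) (.askT (.n (.s (.n (.s .e)))) (nat_lit 4387309092864) (.ret (nat_lit 348)) (.ret (nat_lit 0))) (.askT (.n (.s .e)) (nat_lit 4395899027456) rg_140 (.askT (.n (.s .e)) (nat_lit 4345433161728) rg_70 rg_120)))) (.askT (.p (.s .e)) (nat_lit 4334695743488) rg_166 (.ret (nat_lit 0)))) (.ret (nat_lit 0))))))) (.askT (.s .e) (nat_lit 4392677801984) (.askT (.s (.n (.s .e))) (nat_lit 4362613030912) (.askT (.p (.s .e)) (nat_lit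 4395899027456) rg_164 (.ret (nat_lit 0))) (.askT (.s (.n (.s .e))) (nat_lit 4395899027456) (.askT (.p (.s .e)) (nat_lit 4362613030912) (.askT (.n (.s .e)) (nat_lit 4362613030912) (.askT (.n (.s (.n (.s .e)))) (nat_lit 4395899027456) (.ret (nat_lit 312)) (.ret (nat_lit 0))) (.askT (.n (.s .e)) (nat_lit 4379792900096) rg_165 (.askT (.n (.s .e)) (nat_lit 4395899027456) rg_147 (.askT (.n (.s .e)) (nat_lit 4388382834688) rg_69 (.ret (nat_lit 0)))))) (.askT (.p (.s .e)) (nat_lit 4379792900096) rg_164 (.askT (.p (.s .e)) (nat_lit 4388382834688) (.askT (.n (.s .e)) (nat_lit 4388382834688) rg_110 (.askT (.n (.s .e)) (nat_lit 4395899027456) rg_135 rg_123)) (.ret (nat_lit 0))))) (.ret (nat_lit 0)))) (.askT (.s .e) (nat_lit 4388382834688) (.askT (.s (.n (.s .e))) (nat_lit 4362613030912) (.askT (.p (.s .e)) (nat_lit 4395899027456) rg_162 (.ret (nat_lit 0))) (.askT (.s (.n (.s .e))) (nat_lit 4379792900096) (.askT (.p (.s .e)) (nat_lit 4395899027456)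 (.askT (.n (.s .e)) (nat_lit 4388382834688) (.askT (.n (.s (.n (.s .e)))) (nat_lit 4394825285632) (.ret (nat_lit 414)) (.ret (nat_lit 0))) (.askT (.n (.s .e)) (nat_lit 4395899027456) (.askT (.n (.s (.n (.s .e)))) (nat_lit 4388382834688) (.ret (nat_lit 414)) rg_144) (.askT (.n (.s .e)) (nat_lit 4394825285632) rg_163 (.askT (.n (.s .e)) (nat_lit 4379792900096) rg_117 rg_112)))) (.ret (nat_lit 0))) (.askT (.s (.n (.s .e))) (nat_lit 4392677801984) (.askT (.p (.s .e)) (nat_lit 4395899027456) (.askT (.n (.s .e)) (nat_lit 4394825285632) rg_163 (.askT (.n (.s .e)) (nat_lit 4362613030912) rg_93 (.askT (.n (.s .e)) (nat_lit 4379792900096) rg_160 (.askT (.n (.s .e)) (nat_lit 4392677801984) rg_110 (.askT (.n (.s .e)) (nat_lit 4388382834688) rg_82 (.askT (.n (.s .e)) (nat_lit 4395899027456) rg_134 (.ret (nat_lit 0)))))))) (.ret (nat_lit 0))) (.askT (.s (.n (.s .e))) (nat_lit 4388382834688) (.askT (.p (.s .e)) (nat_lit 4394825285632) rg_162 (.askT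 (.p (.s .e)) (nat_lit 4395899027456) (.askT (.n (.s .e)) (nat_lit 4395899027456) rg_161 rg_157) (.ret (nat_lit 0)))) (.askT (.s (.n (.s .e))) (nat_lit 4394825285632) (.askT (.p (.s .e)) (nat_lit 4362613030912) (.askT (.n (.s .e)) (nat_lit 4395899027456) rg_100 rg_122) (.askT (.p (.s .e)) (nat_lit 4379792900096) (.askT (.n (.s .e)) (nat_lit 4395899027456) rg_100 (.askT (.n (.s .e)) (nat_lit 4379792900096) rg_110 (.askT (.n (.s .e)) (nat_lit 4388382834688) rg_82 (.ret (nat_lit 0))))) (.askT (.p (.s .e)) (nat_lit 4388382834688) (.askT (.n (.s .e)) (nat_lit 4379792900096) (.askT (.n (.s (.n (.s .e)))) (nat_lit 4393751543808) (.ret (nat_lit 396)) (.ret (nat_lit 0))) (.askT (.n (.s .e)) (nat_lit 4395899027456) rg_161 (.ret (nat_lit 0)))) (.askT (.p (.s .e)) (nat_lit 4395899027456) rg_158 (.ret (nat_lit 0)))))) (.askT (.s (.n (.s .e))) (nat_lit 4395899027456) (.askT (.p (.s .e)) (nat_lit 4379792900096) (.askT (.n (.s .e)) (nat_lit 4362613030912)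 rg_93 (.askT (.n (.s .e)) (nat_lit 4379792900096) rg_160 (.askT (.n (.s .e)) (nat_lit 4395899027456) (.askT (.n (.s (.n (.s .e)))) (nat_lit 4392677801984) (.ret (nat_lit 360)) (.askT (.n (.s (.n (.s .e)))) (nat_lit 4379792900096) (.ret (nat_lit 378)) (.askT (.n (.s (.n (.s .e)))) (nat_lit 4354023096320) (.ret (nat_lit 396)) (.ret (nat_lit 0))))) (.askT (.n (.s .e)) (nat_lit 4388382834688) rg_82 (.askT (.n (.s .e)) (nat_lit 4394825285632) rg_60 (.ret (nat_lit 0))))))) (.askT (.p (.s .e)) (nat_lit 4392677801984) (.askT (.n (.s .e)) (nat_lit 4395899027456) (.askT (.n (.s (.n (.s .e)))) (nat_lit 4375497932800) (.ret (nat_lit 360)) (.ret (nat_lit 0))) (.ret (nat_lit 0))) (.askT (.p (.s .e)) (nat_lit 4394825285632) rg_158 (.ret (nat_lit 0))))) (.ret (nat_lit 0)))))))) (.askT (.s .e) (nat_lit 4394825285632) (.askT (.s (.n (.s .e))) (nat_lit 4362613030912) (.askT (.p (.s .e)) (nat_lit 4395899027456) (.askT (.n (.s .e)) (nat_lit 4379792900096)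 rg_119 rg_127) (.ret (nat_lit 0))) (.askT (.s (.n (.s .e))) (nat_lit 4388382834688) (.askT (.p (.s .e)) (nat_lit 4379792900096) rg_127 (.ret (nat_lit 0))) (.askT (.s (.n (.s .e))) (nat_lit 4395899027456) (.askT (.p (.s .e)) (nat_lit 4362613030912) (.askT (.n (.s .e)) (nat_lit 4379792900096) rg_117 (.askT (.n (.s .e)) (nat_lit 4362613030912) rg_109 (.ret (nat_lit 0)))) (.askT (.p (.s .e)) (nat_lit 4379792900096) (.askT (.n (.s .e)) (nat_lit 4362613030912) rg_117 (.askT (.n (.s .e)) (nat_lit 4379792900096) rg_110 rg_108)) (.askT (.p (.s .e)) (nat_lit 4388382834688) rg_157 (.ret (nat_lit 0))))) (.ret (nat_lit 0))))) (.askT (.s .e) (nat_lit 4395899027456) (.askT (.s (.n (.s .e))) (nat_lit 4362613030912) (.askT (.p (.s .e)) (nat_lit 4362613030912) (.askT (.n (.s .e)) (nat_lit 4362613030912) rg_156 (.askT (.n (.s .e)) (nat_lit 4388382834688) (.askT (.n (.s (.n (.s .e)))) (nat_lit 4392677801984) (.ret (nat_lit 342)) (.askT (.n (.s (.n (.s .e))))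 (nat_lit 4379792900096) (.ret (nat_lit 360)) rg_80)) (.askT (.n (.s .e)) (nat_lit 4379792900096) rg_152 (.ret (nat_lit 0))))) (.askT (.p (.s .e)) (nat_lit 4379792900096) (.askT (.n (.s .e)) (nat_lit 4388382834688) (.askT (.n (.s (.n (.s .e)))) (nat_lit 4379792900096) (.ret (nat_lit 354)) (.askT (.n (.s (.n (.s .e)))) (nat_lit 4351875612672) (.ret (nat_lit 372)) (.askT (.n (.s (.n (.s .e)))) (nat_lit 4392677801984) (.ret (nat_lit 336)) (.ret (nat_lit 0))))) (.askT (.n (.s .e)) (nat_lit 4362613030912) rg_149 (.askT (.n (.s .e)) (nat_lit 4379792900096) rg_148 (.askT (.n (.s .e)) (nat_lit 4392677801984) rg_147 rg_146)))) (.askT (.p (.s .e)) (nat_lit 4392677801984) (.askT (.n (.s .e)) (nat_lit 4362613030912) (.askT (.n (.s (.n (.s .e)))) (nat_lit 4392677801984) (.ret (nat_lit 318)) (.askT (.n (.s (.n (.s .e)))) (nat_lit 4394825285632) (.ret (nat_lit 336)) rg_83)) (.askT (.n (.s .e)) (nat_lit 4388382834688) (.askT (.n (.s (.n (.s .e)))) (nat_lit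 4394825285632) (.ret (nat_lit 384)) (.askT (.n (.s (.n (.s .e)))) (nat_lit 4392677801984) (.ret (nat_lit 348)) rg_94)) (.askT (.n (.s .e)) (nat_lit 4379792900096) rg_140 (.askT (.n (.s .e)) (nat_lit 4392677801984) rg_139 rg_138)))) (.askT (.p (.s .e)) (nat_lit 4388382834688) (.askT (.n (.s .e)) (nat_lit 4362613030912) rg_125 (.askT (.n (.s .e)) (nat_lit 4388382834688) rg_142 (.askT (.n (.s .e)) (nat_lit 4379792900096) rg_131 (.ret (nat_lit 0))))) (.askT (.p (.s .e)) (nat_lit 4394825285632) (.askT (.n (.s .e)) (nat_lit 4362613030912) rg_154 (.askT (.n (.s .e)) (nat_lit 4388382834688) (.askT (.n (.s (.n (.s .e)))) (nat_lit 4392677801984) (.ret (nat_lit 360)) rg_126) rg_143)) (.ret (nat_lit 0))))))) (.askT (.s (.n (.s .e))) (nat_lit 4379792900096) (.askT (.p (.s .e)) (nat_lit 4345433161728) (.askT (.n (.s .e)) (nat_lit 4362613030912) rg_153 (.askT (.n (.s .e)) (nat_lit 4379792900096) rg_152 (.askT (.n (.s .e)) (nat_lit 4388382834688) (.askT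 (.n (.s (.n (.s .e)))) (nat_lit 4375497932800) (.ret (nat_lit 342)) (.askT (.n (.s (.n (.s .e)))) (nat_lit 4351875612672) (.ret (nat_lit 378)) (.ret (nat_lit 0)))) (.askT (.n (.s .e)) (nat_lit 4394825285632) (.askT (.n (.s (.n (.s .e)))) (nat_lit 4362613030912) (.ret (nat_lit 342)) (.ret (nat_lit 0))) (.askT (.n (.s .e)) (nat_lit 4392677801984) rg_68 (.ret (nat_lit 0))))))) (.askT (.p (.s .e)) (nat_lit 4388382834688) (.askT (.n (.s .e)) (nat_lit 4362613030912) (.askT (.n (.s (.n (.s .e)))) (nat_lit 4388382834688) (.ret (nat_lit 372)) (.askT (.n (.s (.n (.s .e)))) (nat_lit 4394825285632) (.ret (nat_lit 348)) (.askT (.n (.s (.n (.s .e)))) (nat_lit 4392677801984) (.ret (nat_lit 330)) (.askT (.n (.s (.n (.s .e)))) (nat_lit 4379792900096) (.ret (nat_lit 342)) rg_128)))) (.askT (.n (.s .e)) (nat_lit 4379792900096) (.askT (.n (.s (.n (.s .e)))) (nat_lit 4362613030912) (.ret (nat_lit 354)) (.askT (.n (.s (.n (.s .e)))) (nat_lit 4392677801984)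 (.ret (nat_lit 336)) (.askT (.n (.s (.n (.s .e)))) (nat_lit 4379792900096) (.ret (nat_lit 342)) (.askT (.n (.s (.n (.s .e)))) (nat_lit 4394825285632) (.ret (nat_lit 360)) (.askT (.n (.s (.n (.s .e)))) (nat_lit 4388382834688) (.ret (nat_lit 378)) (.ret (nat_lit 0))))))) (.askT (.n (.s .e)) (nat_lit 4392677801984) (.askT (.n (.s (.n (.s .e)))) (nat_lit 4362613030912) (.ret (nat_lit 366)) (.ret (nat_lit 0))) (.askT (.n (.s .e)) (nat_lit 4388382834688) (.askT (.n (.s (.n (.s .e)))) (nat_lit 4354023096320) (.ret (nat_lit 414)) (.askT (.n (.s (.n (.s .e)))) (nat_lit 4375497932800) (.ret (nat_lit 360)) rg_82)) (.askT (.n (.s .e)) (nat_lit 4394825285632) (.askT (.n (.s (.n (.s .e)))) (nat_lit 4362613030912) (.ret (nat_lit 378)) (.ret (nat_lit 0))) (.ret (nat_lit 0))))))) (.ret (nat_lit 0)))) (.askT (.s (.n (.s .e))) (nat_lit 4392677801984) (.askT (.p (.s .e)) (nat_lit 4362613030912) (.askT (.n (.s .e)) (nat_lit 4362613030912) rg_151 (.askT (.n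 (.s .e)) (nat_lit 4379792900096) (.askT (.n (.s (.n (.s .e)))) (nat_lit 4358318063616) (.ret (nat_lit 306)) (.askT (.n (.s (.n (.s .e)))) (nat_lit 4379792900096) (.ret (nat_lit 312)) (.askT (.n (.s (.n (.s .e)))) (nat_lit 4386235351040) (.ret (nat_lit 330)) (.ret (nat_lit 0))))) (.askT (.n (.s .e)) (nat_lit 4392677801984) (.askT (.n (.s (.n (.s .e)))) (nat_lit 4362613030912) (.ret (nat_lit 318)) (.ret (nat_lit 0))) (.askT (.n (.s .e)) (nat_lit 4388382834688) (.askT (.n (.s (.n (.s .e)))) (nat_lit 4375497932800) (.ret (nat_lit 330)) (.askT (.n (.s (.n (.s .e)))) (nat_lit 4351875612672) (.ret (nat_lit 366)) (.ret (nat_lit 0)))) (.askT (.n (.s .e)) (nat_lit 4394825285632) rg_68 (.ret (nat_lit 0))))))) (.askT (.p (.s .e)) (nat_lit 4379792900096) (.askT (.n (.s .e)) (nat_lit 4362613030912) rg_149 (.askT (.n (.s .e)) (nat_lit 4379792900096) rg_148 (.askT (.n (.s .e)) (nat_lit 4392677801984) rg_147 (.askT (.n (.s .e)) (nat_lit 4388382834688)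 (.askT (.n (.s (.n (.s .e)))) (nat_lit 4351875612672) (.ret (nat_lit 372)) (.askT (.n (.s (.n (.s .e)))) (nat_lit 4375497932800) (.ret (nat_lit 336)) (.ret (nat_lit 0)))) rg_146)))) (.askT (.p (.s .e)) (nat_lit 4388382834688) rg_132 (.ret (nat_lit 0))))) (.askT (.s (.n (.s .e))) (nat_lit 4388382834688) (.askT (.p (.s .e)) (nat_lit 4362613030912) (.askT (.n (.s .e)) (nat_lit 4362613030912) rg_145 (.askT (.n (.s .e)) (nat_lit 4379792900096) (.askT (.n (.s (.n (.s .e)))) (nat_lit 4386235351040) (.ret (nat_lit 354)) (.askT (.n (.s (.n (.s .e)))) (nat_lit 4379792900096) (.ret (nat_lit 336)) (.askT (.n (.s (.n (.s .e)))) (nat_lit 4358318063616) (.ret (nat_lit 330)) (.ret (nat_lit 0))))) (.askT (.n (.s .e)) (nat_lit 4388382834688) (.askT (.n (.s (.n (.s .e)))) (nat_lit 4392677801984) (.ret (nat_lit 354)) (.askT (.n (.s (.n (.s .e)))) (nat_lit 4394825285632) (.ret (nat_lit 390)) rg_107)) (.ret (nat_lit 0))))) (.askT (.p (.s .e)) (nat_lit 4379792900096)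 (.askT (.n (.s .e)) (nat_lit 4388382834688) rg_144 (.askT (.n (.s .e)) (nat_lit 4362613030912) rg_137 rg_143)) (.askT (.p (.s .e)) (nat_lit 4388382834688) (.askT (.n (.s .e)) (nat_lit 4362613030912) rg_125 (.askT (.n (.s .e)) (nat_lit 4379792900096) (.askT (.n (.s (.n (.s .e)))) (nat_lit 4358318063616) (.ret (nat_lit 372)) rg_126) (.askT (.n (.s .e)) (nat_lit 4388382834688) rg_142 (.ret (nat_lit 0))))) (.ret (nat_lit 0))))) (.askT (.s (.n (.s .e))) (nat_lit 4394825285632) (.askT (.p (.s .e)) (nat_lit 4362613030912) (.askT (.n (.s .e)) (nat_lit 4362613030912) (.askT (.n (.s (.n (.s .e)))) (nat_lit 4392677801984) (.ret (nat_lit 318)) (.askT (.n (.s (.n (.s .e)))) (nat_lit 4394825285632) (.ret (nat_lit 336)) rg_141)) (.askT (.n (.s .e)) (nat_lit 4379792900096) rg_140 (.askT (.n (.s .e)) (nat_lit 4392677801984) rg_139 (.askT (.n (.s .e)) (nat_lit 4388382834688) (.askT (.n (.s (.n (.s .e)))) (nat_lit 4351875612672) (.ret (nat_lit 384)) rg_102)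 rg_138)))) (.askT (.p (.s .e)) (nat_lit 4379792900096) rg_132 (.askT (.p (.s .e)) (nat_lit 4388382834688) (.askT (.n (.s .e)) (nat_lit 4362613030912) (.askT (.n (.s (.n (.s .e)))) (nat_lit 4388382834688) (.ret (nat_lit 390)) (.askT (.n (.s (.n (.s .e)))) (nat_lit 4394825285632) (.ret (nat_lit 384)) (.askT (.n (.s (.n (.s .e)))) (nat_lit 4392677801984) (.ret (nat_lit 366)) (.askT (.n (.s (.n (.s .e)))) (nat_lit 4345433161728) (.ret (nat_lit 378)) (.ret (nat_lit 0)))))) (.askT (.n (.s .e)) (nat_lit 4379792900096) rg_131 (.askT (.n (.s .e)) (nat_lit 4392677801984) (.askT (.n (.s (.n (.s .e)))) (nat_lit 4362613030912) (.ret (nat_lit 384)) (.ret (nat_lit 0))) (.askT (.n (.s .e)) (nat_lit 4388382834688) (.askT (.n (.s (.n (.s .e)))) (nat_lit 4375497932800) (.ret (nat_lit 396)) (.askT (.n (.s (.n (.s .e)))) (nat_lit 4351875612672) (.ret (nat_lit 432)) (.ret (nat_lit 0)))) (.askT (.n (.s .e)) (nat_lit 4394825285632) (.askT (.n (.s (.n (.s .e))))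 (nat_lit 4362613030912) (.ret (nat_lit 396)) (.ret (nat_lit 0))) (.ret (nat_lit 0))))))) (.ret (nat_lit 0))))) (.ret (nat_lit 0))))))) (.ret (nat_lit 0)))))))) (.askT (.s .e) (nat_lit 4394825285632) (.askT (.s (.n (.s .e))) (nat_lit 4362613030912) (.askT (.p (.s .e)) (nat_lit 4395899027456) (.askT (.n (.s .e)) (nat_lit 4395899027456) (.askT (.n (.s (.n (.s .e)))) (nat_lit 4395899027456) (.askT (.n (.p (.s (.p (.s .e))))) (nat_lit 4388382834688) (.ret (nat_lit 360)) (.ret (nat_lit 0))) (.ret (nat_lit 0))) (.ret (nat_lit 0))) (.ret (nat_lit 0))) (.ret (nat_lit 0))) (.askT (.s .e) (nat_lit 4395899027456) (.askT (.s (.n (.s .e))) (nat_lit 4379792900096) (.askT (.p (.s .e)) (nat_lit 4345433161728) (.askT (.n (.s .e)) (nat_lit 4395899027456) (.askT (.n (.s (.n (.s .e)))) (nat_lit 4395899027456) rg_61 (.ret (nat_lit 0))) (.ret (nat_lit 0))) rg_130) (.askT (.s (.n (.s .e))) (nat_lit 4392677801984) (.askT (.p (.s .e)) (nat_lit 4362613030912)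 (.askT (.n (.s .e)) (nat_lit 4395899027456) (.askT (.n (.s (.n (.s .e)))) (nat_lit 4395899027456) rg_62 (.ret (nat_lit 0))) (.ret (nat_lit 0))) (.askT (.p (.s .e)) (nat_lit 4379792900096) (.askT (.n (.s .e)) (nat_lit 4395899027456) (.askT (.n (.s (.n (.s .e)))) (nat_lit 4395899027456) (.askT (.n (.p (.s (.p (.s .e))))) (nat_lit 4395899027456) (.ret (nat_lit 372)) (.ret (nat_lit 0))) (.ret (nat_lit 0))) (.ret (nat_lit 0))) rg_130)) (.askT (.s (.n (.s .e))) (nat_lit 4394825285632) (.askT (.p (.s .e)) (nat_lit 4362613030912) (.askT (.n (.s .e)) (nat_lit 4395899027456) (.askT (.n (.s (.n (.s .e)))) (nat_lit 4395899027456) (.askT (.n (.p (.s (.p (.s .e))))) (nat_lit 4395899027456) (.ret (nat_lit 384)) (.ret (nat_lit 0))) (.ret (nat_lit 0))) (.ret (nat_lit 0))) (.askT (.p (.s .e)) (nat_lit 4379792900096) rg_129 (.askT (.p (.s .e)) (nat_lit 4388382834688) (.askT (.n (.s .e)) (nat_lit 4395899027456) (.askT (.n (.s (.n (.s .e)))) (nat_lit 4395899027456)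 rg_48 (.ret (nat_lit 0))) (.ret (nat_lit 0))) (.ret (nat_lit 0))))) (.ret (nat_lit 0))))) (.ret (nat_lit 0))))) (.askF (.n .e) (nat_lit 26388279066624) (.askT (.s .e) (nat_lit 4394825285632) (.askT (.s (.n (.s .e))) (nat_lit 4388382834688) (.askT (.p (.s (.p (.s .e)))) (nat_lit 4395899027456) (.askT (.p (.s .e)) (nat_lit 4395899027456) rg_127 (.ret (nat_lit 0))) (.ret (nat_lit 0))) (.ret (nat_lit 0))) (.askT (.s .e) (nat_lit 4395899027456) (.askT (.s (.n (.s .e))) (nat_lit 4395899027456) (.askT (.p (.s (.p (.s .e)))) (nat_lit 4395899027456) (.askT (.p (.s .e)) (nat_lit 4395899027456) (.askT (.n (.s .e)) (nat_lit 4379792900096) (.askT (.n (.s (.n (.s .e)))) (nat_lit 4392677801984) (.ret (nat_lit 372)) rg_126) (.askT (.n (.s .e)) (nat_lit 4388382834688) (.askT (.n (.s (.n (.s .e)))) (nat_lit 4375497932800) (.ret (nat_lit 396)) rg_76) (.askT (.n (.s .e)) (nat_lit 4362613030912) rg_125 (.ret (nat_lit 0))))) (.ret (nat_lit 0))) (.ret (nat_lit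 0))) (.ret (nat_lit 0))) (.ret (nat_lit 0)))) (.ret (nat_lit 0)))))) (.askT .e (nat_lit 4362613030912) (.askF .e (nat_lit 13194139533312) (.ret (nat_lit 0)) (.askF (.n .e) (nat_lit 13194139533312) (.ret (nat_lit 0)) (.askF .e (nat_lit 26388279066624) (.askF (.n .e) (nat_lit 26388279066624) (.askT (.s .e) (nat_lit 4362613030912) (.askT (.s (.n (.s .e))) (nat_lit 4375497932800) (.askT (.p (.s .e)) (nat_lit 4395899027456) (.askT (.n (.s .e)) (nat_lit 4395899027456) rg_101 (.askT (.n (.s .e)) (nat_lit 4390530318336) rg_114 (.askT (.n (.s .e)) (nat_lit 4379792900096) rg_116 (.ret (nat_lit 0))))) (.ret (nat_lit 0))) (.askT (.s (.n (.s .e))) (nat_lit 4394825285632) (.askT (.p (.s .e)) (nat_lit 4395899027456) rg_124 (.ret (nat_lit 0))) (.askT (.s (.n (.s .e))) (nat_lit 4395899027456) (.askT (.p (.s .e)) (nat_lit 4379792900096) (.askT (.n (.s .e)) (nat_lit 4395899027456) rg_106 (.askT (.n (.s .e)) (nat_lit 4390530318336) rg_70 rg_72)) (.askT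 (.p (.s .e)) (nat_lit 4390530318336) rg_124 (.ret (nat_lit 0)))) (.ret (nat_lit 0))))) (.askT (.s .e) (nat_lit 4379792900096) (.askT (.s (.n (.s .e))) (nat_lit 4379792900096) (.askT (.p (.s .e)) (nat_lit 4395899027456) (.askT (.n (.s .e)) (nat_lit 4388382834688) (.askT (.n (.s (.n (.s .e)))) (nat_lit 4395899027456) (.ret (nat_lit 354)) rg_97) (.askT (.n (.s .e)) (nat_lit 4394825285632) (.askT (.n (.s (.n (.s .e)))) (nat_lit 4388382834688) (.ret (nat_lit 348)) rg_110) (.askT (.n (.s .e)) (nat_lit 4395899027456) rg_104 (.askT (.n (.s .e)) (nat_lit 4392677801984) rg_116 rg_123)))) (.ret (nat_lit 0))) (.askT (.s (.n (.s .e))) (nat_lit 4392677801984) (.askT (.p (.s .e)) (nat_lit 4395899027456) (.askT (.n (.s .e)) (nat_lit 4394825285632) (.askT (.n (.s (.n (.s .e)))) (nat_lit 4388382834688) (.ret (nat_lit 366)) (.ret (nat_lit 0))) (.askT (.n (.s .e)) (nat_lit 4379792900096) rg_113 (.askT (.n (.s .e)) (nat_lit 4395899027456) rg_95 (.askT (.n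 (.s .e)) (nat_lit 4362613030912) rg_114 (.askT (.n (.s .e)) (nat_lit 4388382834688) rg_111 rg_112))))) (.ret (nat_lit 0))) (.askT (.s (.n (.s .e))) (nat_lit 4388382834688) (.askT (.p (.s .e)) (nat_lit 4394825285632) (.askT (.n (.s .e)) (nat_lit 4395899027456) rg_90 (.askT (.n (.s .e)) (nat_lit 4392677801984) rg_114 (.askT (.n (.s .e)) (nat_lit 4394825285632) rg_111 rg_122))) (.ret (nat_lit 0))) (.askT (.s (.n (.s .e))) (nat_lit 4394825285632) (.askT (.p (.s .e)) (nat_lit 4388382834688) (.askT (.n (.s .e)) (nat_lit 4395899027456) rg_89 (.askT (.n (.s .e)) (nat_lit 4392677801984) rg_114 rg_122)) (.askT (.p (.s .e)) (nat_lit 4395899027456) (.askT (.n (.s .e)) (nat_lit 4379792900096) rg_116 (.askT (.n (.s .e)) (nat_lit 4394825285632) rg_121 (.askT (.n (.s .e)) (nat_lit 4395899027456) rg_83 (.askT (.n (.s .e)) (nat_lit 4362613030912) rg_71 (.askT (.n (.s .e)) (nat_lit 4388382834688) rg_70 rg_120))))) (.ret (nat_lit 0)))) (.askT (.s (.n (.s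 .e))) (nat_lit 4395899027456) (.askT (.p (.s .e)) (nat_lit 4362613030912) (.askT (.n (.s .e)) (nat_lit 4395899027456) rg_104 (.askT (.n (.s .e)) (nat_lit 4392677801984) rg_116 (.askT (.n (.s .e)) (nat_lit 4394825285632) rg_110 rg_115))) (.askT (.p (.s .e)) (nat_lit 4379792900096) (.askT (.n (.s .e)) (nat_lit 4388382834688) (.askT (.n (.s (.n (.s .e)))) (nat_lit 4394825285632) (.ret (nat_lit 360)) rg_113) (.askT (.n (.s .e)) (nat_lit 4394825285632) (.askT (.n (.s (.n (.s .e)))) (nat_lit 4395899027456) (.ret (nat_lit 372)) rg_119) (.askT (.n (.s .e)) (nat_lit 4395899027456) rg_90 (.askT (.n (.s .e)) (nat_lit 4392677801984) rg_114 (.askT (.n (.s .e)) (nat_lit 4379792900096) rg_110 (.askT (.n (.s .e)) (nat_lit 4362613030912) rg_70 (.ret (nat_lit 0)))))))) (.askT (.p (.s .e)) (nat_lit 4392677801984) (.askT (.n (.s .e)) (nat_lit 4388382834688) (.askT (.n (.s (.n (.s .e)))) (nat_lit 4394825285632) (.ret (nat_lit 354)) rg_110) (.askT (.n (.s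 .e)) (nat_lit 4394825285632) (.askT (.n (.s (.n (.s .e)))) (nat_lit 4388382834688) (.ret (nat_lit 354)) rg_113) (.askT (.n (.s .e)) (nat_lit 4395899027456) rg_99 (.askT (.n (.s .e)) (nat_lit 4379792900096) rg_114 (.askT (.n (.s .e)) (nat_lit 4362613030912) rg_116 rg_118))))) (.askT (.p (.s .e)) (nat_lit 4388382834688) (.askT (.n (.s .e)) (nat_lit 4379792900096) rg_113 (.askT (.n (.s .e)) (nat_lit 4395899027456) rg_96 (.askT (.n (.s .e)) (nat_lit 4394825285632) rg_117 rg_112))) (.askT (.p (.s .e)) (nat_lit 4394825285632) (.askT (.n (.s .e)) (nat_lit 4394825285632) (.askT (.n (.s (.n (.s .e)))) (nat_lit 4388382834688) (.ret (nat_lit 372)) (.ret (nat_lit 0))) (.askT (.n (.s .e)) (nat_lit 4392677801984) rg_113 (.askT (.n (.s .e)) (nat_lit 4395899027456) rg_88 (.askT (.n (.s .e)) (nat_lit 4379792900096) rg_111 (.askT (.n (.s .e)) (nat_lit 4388382834688) rg_117 (.askT (.n (.s .e)) (nat_lit 4362613030912) rg_110 (.ret (nat_lit 0)))))))) (.ret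 (nat_lit 0))))))) (.ret (nat_lit 0))))))) (.askT (.s .e) (nat_lit 4392677801984) (.askT (.s (.n (.s .e))) (nat_lit 4379792900096) (.askT (.p (.s .e)) (nat_lit 4395899027456) (.askT (.n (.s .e)) (nat_lit 4395899027456) rg_103 (.askT (.n (.s .e)) (nat_lit 4379792900096) rg_116 (.askT (.n (.s .e)) (nat_lit 4354023096320) rg_70 (.ret (nat_lit 0))))) (.ret (nat_lit 0))) (.askT (.s (.n (.s .e))) (nat_lit 4395899027456) (.askT (.p (.s .e)) (nat_lit 4379792900096) (.askT (.n (.s .e)) (nat_lit 4354023096320) rg_114 (.askT (.n (.s .e)) (nat_lit 4395899027456) rg_84 rg_115)) (.askT (.p (.s .e)) (nat_lit 4354023096320) (.askT (.n (.s .e)) (nat_lit 4395899027456) rg_89 (.askT (.n (.s .e)) (nat_lit 4379792900096) rg_114 (.askT (.n (.s .e)) (nat_lit 4354023096320) rg_110 (.ret (nat_lit 0))))) (.ret (nat_lit 0)))) (.ret (nat_lit 0)))) (.askT (.s .e) (nat_lit 4388382834688) (.askT (.s (.n (.s .e))) (nat_lit 4392677801984) (.askT (.p (.s .e)) (nat_lit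 4395899027456) (.askT (.n (.s .e)) (nat_lit 4379792900096) rg_113 rg_112) (.ret (nat_lit 0))) (.askT (.s (.n (.s .e))) (nat_lit 4395899027456) (.askT (.p (.s .e)) (nat_lit 4379792900096) (.askT (.n (.s .e)) (nat_lit 4395899027456) rg_91 (.ret (nat_lit 0))) (.askT (.p (.s .e)) (nat_lit 4392677801984) (.askT (.n (.s .e)) (nat_lit 4395899027456) rg_100 (.ret (nat_lit 0))) (.ret (nat_lit 0)))) (.ret (nat_lit 0)))) (.askT (.s .e) (nat_lit 4394825285632) (.askT (.s (.n (.s .e))) (nat_lit 4379792900096) (.askT (.p (.s .e)) (nat_lit 4395899027456) (.askT (.n (.s .e)) (nat_lit 4395899027456) rg_88 (.askT (.n (.s .e)) (nat_lit 4379792900096) rg_111 (.askT (.n (.s .e)) (nat_lit 4362613030912) rg_110 rg_108))) (.ret (nat_lit 0))) (.askT (.s (.n (.s .e))) (nat_lit 4395899027456) (.askT (.p (.s .e)) (nat_lit 4362613030912) (.askT (.n (.s .e)) (nat_lit 4395899027456) rg_88 (.ret (nat_lit 0))) (.askT (.p (.s .e)) (nat_lit 4379792900096) (.askT (.n (.s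 .e)) (nat_lit 4379792900096) (.askT (.n (.s (.n (.s .e)))) (nat_lit 4395899027456) (.ret (nat_lit 384)) (.ret (nat_lit 0))) (.askT (.n (.s .e)) (nat_lit 4395899027456) rg_107 (.ret (nat_lit 0)))) (.askT (.p (.s .e)) (nat_lit 4388382834688) (.askT (.n (.s .e)) (nat_lit 4395899027456) rg_77 (.ret (nat_lit 0))) (.ret (nat_lit 0))))) (.ret (nat_lit 0)))) (.askT (.s .e) (nat_lit 4395899027456) (.askT (.s (.n (.s .e))) (nat_lit 67645734912) (.askT (.p (.s .e)) (nat_lit 4395899027456) (.askT (.n (.s .e)) (nat_lit 4395899027456) rg_87 (.askT (.n (.s .e)) (nat_lit 4362613030912) rg_81 (.askT (.n (.s .e)) (nat_lit 4379792900096) rg_79 (.askT (.n (.s .e)) (nat_lit 4392677801984) rg_78 (.askT (.n (.s .e)) (nat_lit 4394825285632) rg_77 rg_74))))) (.ret (nat_lit 0))) (.askT (.s (.n (.s .e))) (nat_lit 4379792900096) (.askT (.p (.s .e)) (nat_lit 4375497932800) (.askT (.n (.s .e)) (nat_lit 4362613030912) rg_106 (.askT (.n (.s .e)) (nat_lit 4379792900096)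 rg_104 (.askT (.n (.s .e)) (nat_lit 4392677801984) rg_103 (.askT (.n (.s .e)) (nat_lit 4388382834688) (.askT (.n (.s (.n (.s .e)))) (nat_lit 4394825285632) (.ret (nat_lit 384)) (.askT (.n (.s (.n (.s .e)))) (nat_lit 4392677801984) (.ret (nat_lit 348)) (.ret (nat_lit 0)))) (.askT (.n (.s .e)) (nat_lit 4395899027456) (.askT (.n (.s (.n (.s .e)))) (nat_lit 67645734912) (.ret (nat_lit 384)) (.ret (nat_lit 0))) (.askT (.n (.s .e)) (nat_lit 4394825285632) rg_89 (.ret (nat_lit 0)))))))) (.askT (.p (.s .e)) (nat_lit 4362613030912) rg_98 (.askT (.p (.s .e)) (nat_lit 4394825285632) rg_86 (.ret (nat_lit 0))))) (.askT (.s (.n (.s .e))) (nat_lit 4392677801984) (.askT (.p (.s .e)) (nat_lit 4362613030912) rg_98 (.askT (.p (.s .e)) (nat_lit 4379792900096) (.askT (.n (.s .e)) (nat_lit 4362613030912) (.askT (.n (.s (.n (.s .e)))) (nat_lit 4375497932800) (.ret (nat_lit 360)) (.askT (.n (.s (.n (.s .e)))) (nat_lit 4394825285632) (.ret (nat_lit 366)) (.ret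 (nat_lit 0)))) (.askT (.n (.s .e)) (nat_lit 4379792900096) rg_96 (.askT (.n (.s .e)) (nat_lit 4392677801984) rg_95 (.askT (.n (.s .e)) (nat_lit 4388382834688) (.askT (.n (.s (.n (.s .e)))) (nat_lit 4394825285632) (.ret (nat_lit 402)) rg_91) (.askT (.n (.s .e)) (nat_lit 4395899027456) (.askT (.n (.s (.n (.s .e)))) (nat_lit 67645734912) (.ret (nat_lit 402)) (.ret (nat_lit 0))) (.askT (.n (.s .e)) (nat_lit 4394825285632) rg_94 (.ret (nat_lit 0)))))))) (.askT (.p (.s .e)) (nat_lit 4388382834688) rg_86 (.ret (nat_lit 0))))) (.askT (.s (.n (.s .e))) (nat_lit 4394825285632) (.askT (.p (.s .e)) (nat_lit 4362613030912) rg_86 (.askT (.p (.s .e)) (nat_lit 4379792900096) (.askT (.n (.s .e)) (nat_lit 4362613030912) (.askT (.n (.s (.n (.s .e)))) (nat_lit 4375497932800) (.ret (nat_lit 336)) rg_85) (.askT (.n (.s .e)) (nat_lit 4379792900096) (.askT (.n (.s (.n (.s .e)))) (nat_lit 4392677801984) (.ret (nat_lit 348)) (.askT (.n (.s (.n (.s .e)))) (nat_lit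 4394825285632) (.ret (nat_lit 324)) rg_83)) (.askT (.n (.s .e)) (nat_lit 4388382834688) (.askT (.n (.s (.n (.s .e)))) (nat_lit 4392677801984) (.ret (nat_lit 342)) rg_80) (.askT (.n (.s .e)) (nat_lit 4395899027456) (.askT (.n (.s (.n (.s .e)))) (nat_lit 67645734912) (.ret (nat_lit 378)) (.ret (nat_lit 0))) (.askT (.n (.s .e)) (nat_lit 4394825285632) rg_84 (.askT (.n (.s .e)) (nat_lit 4392677801984) rg_83 (.ret (nat_lit 0)))))))) (.askT (.p (.s .e)) (nat_lit 4388382834688) (.askT (.n (.s .e)) (nat_lit 4362613030912) rg_81 (.askT (.n (.s .e)) (nat_lit 4379792900096) rg_79 (.askT (.n (.s .e)) (nat_lit 4392677801984) rg_78 (.askT (.n (.s .e)) (nat_lit 4394825285632) rg_77 (.askT (.n (.s .e)) (nat_lit 4395899027456) (.askT (.n (.s (.n (.s .e)))) (nat_lit 67645734912) (.ret (nat_lit 432)) (.ret (nat_lit 0))) rg_74))))) (.ret (nat_lit 0))))) (.ret (nat_lit 0)))))) (.ret (nat_lit 0)))))))) (.ret (nat_lit 0))) (.ret (nat_lit 0))))) (.askF .e (nat_lit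 13194139533312) (.ret (nat_lit 0)) (.askF (.n .e) (nat_lit 13194139533312) (.ret (nat_lit 0)) (.askF .e (nat_lit 26388279066624) (.askF (.n .e) (nat_lit 26388279066624) (.askT (.s .e) (nat_lit 4362613030912) (.askT (.s (.n (.s .e))) (nat_lit 4362613030912) (.askT (.p (.s .e)) (nat_lit 4395899027456) (.askT (.n (.s .e)) (nat_lit 4379792900096) rg_73 (.askT (.n (.s .e)) (nat_lit 4395899027456) rg_66 (.ret (nat_lit 0)))) (.ret (nat_lit 0))) (.askT (.s (.n (.s .e))) (nat_lit 4371202965504) (.askT (.p (.s .e)) (nat_lit 4395899027456) (.askT (.n (.s .e)) (nat_lit 4379792900096) rg_70 (.askT (.n (.s .e)) (nat_lit 4395899027456) rg_58 (.ret (nat_lit 0)))) (.ret (nat_lit 0))) (.askT (.s (.n (.s .e))) (nat_lit 4395899027456) (.askT (.p (.s .e)) (nat_lit 4379792900096) (.askT (.n (.s .e)) (nat_lit 4395899027456) (.askT (.n (.s (.n (.s .e)))) (nat_lit 4362613030912) (.ret (nat_lit 318)) (.askT (.n (.s (.n (.s .e)))) (nat_lit 4371202965504) (.ret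 (nat_lit 348)) (.ret (nat_lit 0)))) rg_72) (.ret (nat_lit 0))) (.ret (nat_lit 0))))) (.askT (.s .e) (nat_lit 4379792900096) (.askT (.s (.n (.s .e))) (nat_lit 4362613030912) (.askT (.p (.s .e)) (nat_lit 4395899027456) (.askT (.n (.s .e)) (nat_lit 4362613030912) rg_71 (.askT (.n (.s .e)) (nat_lit 4395899027456) rg_63 (.ret (nat_lit 0)))) (.ret (nat_lit 0))) (.askT (.s (.n (.s .e))) (nat_lit 4371202965504) (.askT (.p (.s .e)) (nat_lit 4395899027456) (.askT (.n (.s .e)) (nat_lit 4362613030912) rg_70 (.askT (.n (.s .e)) (nat_lit 4395899027456) rg_56 (.ret (nat_lit 0)))) (.ret (nat_lit 0))) (.askT (.s (.n (.s .e))) (nat_lit 4395899027456) (.askT (.p (.s .e)) (nat_lit 4362613030912) (.askT (.n (.s .e)) (nat_lit 4362613030912) rg_69 (.askT (.n (.s .e)) (nat_lit 4395899027456) (.askT (.n (.s (.n (.s .e)))) (nat_lit 4371202965504) (.ret (nat_lit 348)) rg_68) (.ret (nat_lit 0)))) (.ret (nat_lit 0))) (.ret (nat_lit 0))))) (.askT (.s .e) (nat_lit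 4388382834688) (.askT (.s (.n (.s .e))) (nat_lit 4345433161728) (.askT (.p (.s .e)) (nat_lit 4395899027456) (.askT (.n (.s .e)) (nat_lit 4395899027456) rg_67 (.ret (nat_lit 0))) (.ret (nat_lit 0))) (.ret (nat_lit 0))) (.askT (.s .e) (nat_lit 4395899027456) (.askT (.s (.n (.s .e))) (nat_lit 4362613030912) (.askT (.p (.s .e)) (nat_lit 4362613030912) (.askT (.n (.s .e)) (nat_lit 4362613030912) rg_66 (.askT (.n (.s .e)) (nat_lit 4379792900096) (.askT (.n (.s (.n (.s .e)))) (nat_lit 4362613030912) (.ret (nat_lit 312)) rg_65) (.askT (.n (.s .e)) (nat_lit 4388382834688) (.askT (.n (.s (.n (.s .e)))) (nat_lit 4362613030912) (.ret (nat_lit 330)) (.askT (.n (.s (.n (.s .e)))) (nat_lit 4371202965504) (.ret (nat_lit 366)) (.ret (nat_lit 0)))) (.ret (nat_lit 0))))) (.askT (.p (.s .e)) (nat_lit 4379792900096) (.askT (.n (.s .e)) (nat_lit 4362613030912) (.askT (.n (.s (.n (.s .e)))) (nat_lit 4362613030912) (.ret (nat_lit 312)) rg_64) (.askT (.n (.s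 .e)) (nat_lit 4379792900096) rg_63 (.askT (.n (.s .e)) (nat_lit 4388382834688) (.askT (.n (.s (.n (.s .e)))) (nat_lit 4362613030912) (.ret (nat_lit 342)) (.askT (.n (.s (.n (.s .e)))) (nat_lit 4371202965504) (.ret (nat_lit 378)) (.ret (nat_lit 0)))) (.ret (nat_lit 0))))) (.askT (.p (.s .e)) (nat_lit 4388382834688) rg_55 (.ret (nat_lit 0))))) (.askT (.s (.n (.s .e))) (nat_lit 4379792900096) (.askT (.p (.s .e)) (nat_lit 4345433161728) rg_59 (.askT (.p (.s .e)) (nat_lit 4388382834688) (.askT (.n (.s .e)) (nat_lit 4362613030912) (.askT (.n (.s (.n (.s .e)))) (nat_lit 4379792900096) (.ret (nat_lit 360)) (.askT (.n (.s (.n (.s .e)))) (nat_lit 4362613030912) (.ret (nat_lit 366)) rg_60)) (.askT (.n (.s .e)) (nat_lit 4379792900096) (.askT (.n (.s (.n (.s .e)))) (nat_lit 4379792900096) (.ret (nat_lit 360)) (.askT (.n (.s (.n (.s .e)))) (nat_lit 4362613030912) (.ret (nat_lit 378)) rg_60)) (.askT (.n (.s .e)) (nat_lit 4388382834688) (.askT (.n (.s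 (.n (.s .e)))) (nat_lit 4379792900096) (.ret (nat_lit 360)) (.askT (.n (.s (.n (.s .e)))) (nat_lit 4362613030912) (.ret (nat_lit 396)) rg_54)) (.ret (nat_lit 0))))) (.ret (nat_lit 0)))) (.askT (.s (.n (.s .e))) (nat_lit 4388382834688) (.askT (.p (.s .e)) (nat_lit 4345433161728) rg_55 (.askT (.p (.s .e)) (nat_lit 4388382834688) (.askT (.n (.s .e)) (nat_lit 4362613030912) rg_53 (.askT (.n (.s .e)) (nat_lit 4379792900096) rg_51 (.askT (.n (.s .e)) (nat_lit 4388382834688) (.askT (.n (.s (.n (.s .e)))) (nat_lit 4362613030912) (.ret (nat_lit 396)) (.askT (.n (.s (.n (.s .e)))) (nat_lit 4371202965504) (.ret (nat_lit 432)) (.ret (nat_lit 0)))) (.ret (nat_lit 0))))) (.ret (nat_lit 0)))) (.ret (nat_lit 0))))) (.ret (nat_lit 0)))))) (.askT (.s .e) (nat_lit 4395899027456) (.askT (.s (.n (.s .e))) (nat_lit 4362613030912) (.askT (.p (.s .e)) (nat_lit 4362613030912) (.askT (.n (.s .e)) (nat_lit 4395899027456) (.askT (.n (.s (.n (.s .e)))) (nat_lit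 4395899027456) (.askT (.n (.p (.s (.p (.s .e))))) (nat_lit 4336843227136) (.ret (nat_lit 330)) rg_62) (.ret (nat_lit 0))) (.ret (nat_lit 0))) (.askT (.p (.s .e)) (nat_lit 4379792900096) (.askT (.n (.s .e)) (nat_lit 4395899027456) (.askT (.n (.s (.n (.s .e)))) (nat_lit 4395899027456) (.askT (.n (.p (.s (.p (.s .e))))) (nat_lit 4336843227136) (.ret (nat_lit 342)) rg_61) (.ret (nat_lit 0))) (.ret (nat_lit 0))) (.askT (.p (.s .e)) (nat_lit 4388382834688) rg_49 (.ret (nat_lit 0))))) (.askT (.s (.n (.s .e))) (nat_lit 4379792900096) (.askT (.p (.s .e)) (nat_lit 4388382834688) (.askT (.n (.s .e)) (nat_lit 4395899027456) (.askT (.n (.s (.n (.s .e)))) (nat_lit 4395899027456) (.askT (.n (.p (.s (.p (.s .e))))) (nat_lit 4379792900096) (.ret (nat_lit 360)) (.askT (.n (.p (.s (.p (.s .e))))) (nat_lit 4352949354496) (.ret (nat_lit 396)) (.ret (nat_lit 0)))) (.ret (nat_lit 0))) (.ret (nat_lit 0))) (.askT (.p (.s .e)) (nat_lit 4345433161728) rg_49 (.ret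 (nat_lit 0)))) (.askT (.s (.n (.s .e))) (nat_lit 4388382834688) (.askT (.p (.s .e)) (nat_lit 4345433161728) rg_49 (.askT (.p (.s .e)) (nat_lit 4388382834688) rg_47 (.ret (nat_lit 0)))) (.ret (nat_lit 0))))) (.ret (nat_lit 0)))) (.askF (.n .e) (nat_lit 26388279066624) (.askT (.s .e) (nat_lit 4395899027456) (.askT (.s (.n (.s .e))) (nat_lit 4379792900096) (.askT (.p (.s (.p (.s .e)))) (nat_lit 4395899027456) (.askT (.p (.s .e)) (nat_lit 4395899027456) rg_59 (.ret (nat_lit 0))) (.ret (nat_lit 0))) (.askT (.s (.n (.s .e))) (nat_lit 4354023096320) (.askT (.p (.s (.p (.s .e)))) (nat_lit 4395899027456) (.askT (.p (.s .e)) (nat_lit 4395899027456) rg_55 (.ret (nat_lit 0))) (.ret (nat_lit 0))) (.askT (.s (.n (.s .e))) (nat_lit 4395899027456) (.askT (.p (.s (.p (.s .e)))) (nat_lit 4395899027456) (.askT (.p (.s .e)) (nat_lit 4395899027456) (.askT (.n (.s .e)) (nat_lit 4388382834688) (.askT (.n (.s (.n (.s .e)))) (nat_lit 4345433161728) (.ret (nat_lit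 396)) rg_54) (.askT (.n (.s .e)) (nat_lit 4362613030912) rg_53 (.askT (.n (.s .e)) (nat_lit 4379792900096) rg_51 (.ret (nat_lit 0))))) (.ret (nat_lit 0))) (.ret (nat_lit 0))) (.ret (nat_lit 0))))) (.ret (nat_lit 0))) (.askT (.s .e) (nat_lit 4395899027456) (.askT (.s (.n (.s .e))) (nat_lit 4336843227136) (.askT (.p (.s (.p (.s .e)))) (nat_lit 4395899027456) (.askT (.p (.s .e)) (nat_lit 4395899027456) rg_49 (.ret (nat_lit 0))) (.ret (nat_lit 0))) (.askT (.s (.n (.s .e))) (nat_lit 4395899027456) (.askT (.p (.s (.p (.s .e)))) (nat_lit 4395899027456) (.askT (.p (.s .e)) (nat_lit 4395899027456) rg_47 (.ret (nat_lit 0))) (.ret (nat_lit 0))) (.ret (nat_lit 0)))) (.ret (nat_lit 0)))))))))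

end Pool.Agent.Lib.MP_bfaad3_co
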