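import Pool.Agent.Lib.MP_bfaad3_co.Hole
import Pool.Agent.Lib.MP_bfaad3_co.Far
import Pool.Agent.Lib.MP_bfaad3_co.KPat
import Pool.Agent.Lib.MP_bfaad3_co.Game2

set_option autoImplicit false

/-! Block SOL, first part: bit-level facts. -/

namespace Pool.Agent.Lib.MP_bfaad3_co

theorem sol_land63 {a : ℕ} (h : Nat.land a 63 = 0) : 64 ∣ a := by
  have h1 : a &&& (2 ^ 6 - 1) = 0 := h
  rw [Nat.and_two_pow_sub_one_eq_mod] at h1
  omega

theorem sol_vx (a : ℕ) : vx a = a / 64 := Nat.shiftRight_eq_div_pow a 6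

theorem sol_isL {n a : ℕ} (h : isL n a = true) : 64 ≤ a ∧ a ≤ n * 64 ∧ 64 ∣ a := by
  simp only [isL, cj_iff, Nat.ble_eq, Nat.beq_eq] at h
  exact ⟨h.1, h.2.1, sol_land63 h.2.2⟩

theorem sol_isC {n a : ℕ} (h : isC n a = true) : n * 64 < a ∧ a ≤ n * 128 ∧ 64 ∣ a := by
  simp only [isC, cj_iff, Nat.ble_eq, Nat.blt_eq, Nat.beq_eq] at h
  exact ⟨h.1, h.2.1, sol_land63 h.2.2⟩

theorem sol_isA {n k a : ℕ} (h : isA n k a = true) :
    n * 128 < a ∧ a ≤ n * 128 + k * 64 ∧ 64 ∣ a := by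
  simp only [isA, cj_iff, Nat.ble_eq, Nat.blt_eq, Nat.beq_eq] at h
  exact ⟨h.1, h.2.1, sol_land63 h.2.2⟩

theorem sol_vC (n a : ℕ) : vC n a = a / 64 - n := by rw [← sol_vx]; rfl

theorem sol_vA (n : ℕ) (xs : List ℕ) (a : ℕ) : vA n xs a = nth xs (a / 64 - (n * 2 + 1)) := by
  rw [← sol_vx]; rfl

theorem sol_nth {xs : List ℕ} {i : ℕ} (h : i < len xs) : nth xs i ∈ xs := by
  rw [len_eq] at h
  rw [nth_eq, List.getD_eq_getElem _ _ h]
  exact List.getElem_mem h

theorem sol_idx {xs : List ℕ} {x : ℕ} (h : x ∈ xs) : ∃ i, i < len xs ∧ nth xs i = x := by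
  obtain ⟨i, hi, rfl⟩ := List.getElem_of_mem h
  exact ⟨i, by rwa [len_eq], by rw [nth_eq, List.getD_eq_getElem _ _ hi]⟩

theorem sol_one0 : ∀ t, t < 896 → ONE0.testBit t = true → t % 64 = 0 := by decide +kernel

theorem sol_mask {x y k t : ℕ} (h : Nat.land (Nat.land x (Nat.pred (Nat.shiftLeft 1 k))) y =
    Nat.land x (Nat.pred (Nat.shiftLeft 1 k))) (ht : t < k) (hb : x.testBit t = true) :
    y.testBit t = true := by
  rw [show Nat.pred (Nat.shiftLeft 1 k) = 2 ^ k - 1 from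
    congrArg Nat.pred (Nat.one_shiftLeft k)] at h
  have h1 : (x &&& (2 ^ k - 1) &&& y).testBit t = (x &&& (2 ^ k - 1)).testBit t :=
    congrArg (fun z => Nat.testBit z t) h
  simpa only [Nat.testBit_and, Nat.testBit_two_pow_sub_one, hb, ht, decide_true, Bool.true_and]
    using h1

theorem sol_wf {n : ℕ} {S : GSol} (hn : n ≤ 50) (h : gsolOK n S = true) :
    S.WF n ∧ S.base = n * 128 + 64 ∧ S.init = initC n := by
  simp only [gsolOK, cj_iff, Nat.ble_eq, Nat.beq_eq, allL_iff, allN_iff, nt_iff, sel_eq, tb_eq,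
    Nat.mul_eq, Nat.add_eq] at h
  obtain ⟨h1, h2, h3, h4, h5⟩ := h
  refine ⟨⟨h1, by omega, by omega, by omega, fun i j hi hj => ?_, fun i hi => (h5 i hi).1,
    fun i j hi hj hij => ?_, fun i t hi ht hb => ?_, fun x hx => ?_⟩, h2, h3⟩
  · have h6 := (h5 i hi).2.2 j hj
    split_ifs at h6 with h7
    · rw [cj_iff] at h6
      rw [h7, h6.1]
    · rw [nt_iff] at h6
      rw [h6, Bool.eq_false_iff.2 h7]
  · have h6 := (h5 i hi).2.2 j hj
    rw [if_pos hij, cj_iff] at h6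
    rw [mul_comm 64 j]
    exact h6.2
  · exact Nat.dvd_of_mod_eq_zero (sol_one0 t ht (sol_mask (h5 i hi).2.1 ht
      ((Nat.testBit_shiftRight _).trans hb)))
  · obtain ⟨a1, a2, a3⟩ := sol_isL (h4 x hx).1
    obtain ⟨b1, b2, b3⟩ := sol_isL (h4 x hx).2
    exact ⟨⟨a1, by omega, a3⟩, ⟨b1, by omega, b3⟩, by omega, by omega⟩

theorem sol_init_or {O : ℕ → Finset ℕ} {st a x o : ℕ} (hs : InitOK O st) (ha : Ob a)
    (hx : ∀ j, x.testBit j = true → 42 ≤ o + j ∧ o + j < 58 ∧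
      (o + j < 50 → o + j - 42 ≤ (O a).card) ∧ (50 ≤ o + j → (O a).card ≤ o + j - 50)) :
    InitOK O (st ||| x <<< (a + o)) := by
  intro b hb
  obtain ⟨h1, h2⟩ := hs b hb
  have key : ∀ i, i < 58 → (st ||| x <<< (a + o)).testBit (b + i) = true →
      st.testBit (b + i) = true ∨ (b = a ∧ 42 ≤ i ∧
        (i < 50 → i - 42 ≤ (O a).card) ∧ (50 ≤ i → (O a).card ≤ i - 50)) := fun i hi h3 => by
    rw [Nat.testBit_or, Nat.testBit_shiftLeft, Bool.or_eq_true, Bool.and_eq_true,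
      decide_eq_true_eq] at h3
    refine h3.imp_right fun h4 => ?_
    obtain ⟨c1, c2, c3, c4⟩ := hx _ h4.2
    obtain ⟨-, -, a', rfl⟩ := ha
    obtain ⟨-, -, b', rfl⟩ := hb
    have h5 := h4.1
    have h6 : o + (64 * b' + i - (64 * a' + o)) = i := by omega
    rw [h6] at c1 c3 c4
    exact ⟨by omega, c1, c3, c4⟩
  refine ⟨fun i hi => Bool.eq_false_iff.2 fun h3 => ?_, fun k hk => ⟨fun h3 => ?_, fun h3 => ?_⟩⟩
  · rcases key i (by omega) h3 with h4 | h4
    · rw [h1 i hi] at h4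
      exact Bool.false_ne_true h4
    · omega
  · rcases key _ (by omega) h3 with h4 | ⟨rfl, -, h4, -⟩
    · exact (h2 k hk).1 h4
    · exact h4 (by omega)
  · rcases key _ (by omega) h3 with h4 | ⟨rfl, -, -, h4⟩
    · exact (h2 k hk).2 h4
    · exact h4 (by omega)

theorem sol_init {O : ℕ → Finset ℕ} {n : ℕ} (hn : n ≤ 50)
    (h : ∀ u, 1 ≤ u → u ≤ n → (O ((n + u) * 64)).card = 1) : InitOK O (initC n) := by
  have key : ∀ k, k ≤ n → InitOK O (Nat.rec 0 (fun i ih => frc ih fun st =>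
      setU (setL' st (oC n (Nat.succ i)) 1) (oC n (Nat.succ i)) 1) k) := by
    intro k hk
    induction k with
    | zero => exact fun a _ => ⟨fun i _ => Nat.zero_testBit _, fun k _ =>
        ⟨fun h => by simp at h, fun h => by simp at h⟩⟩
    | succ k ih =>
      have hb : Ob ((n + (k + 1)) * 64) := ⟨by omega, by omega, Dvd.intro_left _ rfl⟩
      have h1 := h (k + 1) (by omega) hk
      have h2 := sol_init_or (x := 3) (o := 42) (ih (by omega)) hb fun j hj => by
        have : j < 2 := by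
          by_contra h3
          rw [Nat.testBit_lt_two_pow (lt_of_lt_of_le (by norm_num : 3 < 2 ^ 2)
            (Nat.pow_le_pow_right (by norm_num) (not_lt.1 h3)))] at hj
          exact Bool.false_ne_true hj
        omega
      have h3 := sol_init_or (x := 254) (o := 50) h2 hb fun j hj => by
        have : j < 8 := by
          by_contra h3
          rw [Nat.testBit_lt_two_pow (lt_of_lt_of_le (by norm_num : 254 < 2 ^ 8)
            (Nat.pow_le_pow_right (by norm_num) (not_lt.1 h3)))] at hj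
          exact Bool.false_ne_true hj
        have : j ≠ 0 := by
          rintro rfl
          simp at hj
        omega
      show InitOK O (frc _ _)
      rw [frc_eq]
      exact h3
  exact key n le_rfl

theorem sol_hasC {cs : List (ℕ × ℕ × Bool)} {u v : ℕ} {b : Bool} (h : hasC cs u v b = true) :
    ∃ x ∈ cs, x.1 = u * 64 ∧ x.2.1 = v * 64 ∧ (b = true ∨ x.2.2 = false) := by
  simpa only [hasC, anyL_iff, cj_iff, dj_iff, Nat.beq_eq, nt_iff, Nat.mul_eq] using h

theorem sol_sim {ia ib u v : ℕ} (h : sim ia ib u v = true) {α : Type} {g : ℕ → α}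
    (hg : g ia = g ib) : g u = g v := by
  simp only [sim, cj_iff, dj_iff, Nat.beq_eq] at h
  rcases h with rfl | ⟨rfl | rfl, rfl | rfl⟩ <;> first | rfl | exact hg | exact hg.symm

end Pool.Agent.Lib.MP_bfaad3_co
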