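import Pool.Agent.Lib.MP_bfaad3_co.GameDef
import Pool.Agent.Lib.MP_bfaad3_co.Ring

set_option autoImplicit false

/-! Checking the structure of reductions on a packed map. -/

namespace Pool.Agent.Lib.MP_bfaad3_co

open Equiv

noncomputable section

def allL {α : Type} (l : List α) (p : α → Bool) : Bool :=
  List.rec true (fun x _ ih => cj (p x) ih) l
def anyL {α : Type} (l : List α) (p : α → Bool) : Bool :=
  List.rec false (fun x _ ih => dj (p x) ih) l
def memL (l : List ℕ) (a : ℕ) : Bool := anyL l fun x => Nat.beq x a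
def allN (n : ℕ) (p : ℕ → Bool) : Bool := Nat.rec true (fun i ih => cj (p i) ih) n
def nt (b : Bool) : Bool := sel b false true
def nth (l : List ℕ) : ℕ → ℕ :=
  List.rec (fun _ => 0) (fun x _ ih i => Nat.rec x (fun j _ => ih j) i) l
def len {α : Type} (l : List α) : ℕ := List.rec 0 (fun _ _ ih => Nat.succ ih) l
def foldL {α : Type} (l : List α) (f : ℕ → α → ℕ) : ℕ → ℕ :=
  List.rec (fun a => a) (fun x _ ih a => frc (f a x) ih) l

/-! Names of vertices: vertex `i + 1` is the tail of the dart `nth ss i`. -/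

/-- the name of the tail of `d`, or 0 -/
def gl (tl d : ℕ) : ℕ :=
  sel (Nat.beq (Nat.land d 63) 0) (Nat.land (Nat.shiftRight tl d) 63) 0

def lab1 (m i s : ℕ) : ℕ → ℕ → ℕ → ℕ := fun fuel =>
  Nat.rec (fun _ tl => tl) (fun _ ih cur tl => sel (Nat.beq (gl tl cur) 0)
    (frc (Nat.lor tl (Nat.shiftLeft i cur)) fun tl' => frc (nx m cur) fun x =>
      sel (Nat.beq x 0) tl' (ih x tl')) tl) fuel

def okD (nd d : ℕ) : Bool :=
  cj (Nat.ble 128 d) (cj (Nat.blt d nd) (Nat.beq (Nat.land d 63) 0))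

def mkTl (m : ℕ) (ss : List ℕ) : ℕ → ℕ → ℕ :=
  List.rec (fun _ tl => tl) (fun s _ ih i tl => frc (lab1 m i s 12 s tl) fun tl' =>
    frc (Nat.succ i) fun i' => ih i' tl') ss

/-- adjacency matrix of named vertices; `k` is the number of cells -/
def mkAdj (tl k : ℕ) : ℕ :=
  Nat.rec 0 (fun i ih => frc ih fun acc => frc (Nat.shiftLeft i 6) fun d =>
    frc (gl tl d) fun u => frc (gl tl (sy d)) fun v =>
      sel (dj (Nat.beq u 0) (Nat.beq v 0)) acc
        (Nat.lor acc (Nat.shiftLeft 1 (Nat.add (Nat.mul u 64) v)))) k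

def adj (ad u v : ℕ) : Bool := cj (Nat.blt v 64) (tb ad (Nat.add (Nat.mul u 64) v))

/-! Facts on walks -/

def has (m d a : ℕ) : Bool := sb a (Nat.shiftRight m d)
def intr (m d : ℕ) : Bool := has m d 1649267441664
/-- lower bound of the degree, minus one -/
def dmin (m a : ℕ) : ℕ :=
  sel (has m a 1716913176576) 5 (sel (has m a 1661078601728) 4 (sel (has m a 1650341183488) 3 2))
def reachV (m b k : ℕ) : ℕ → Bool :=
  Nat.rec (fun _ => false) (fun _ ih a => frc (nx m a) fun x => dj (Nat.beq x b) (ih x)) k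
/-- the two darts are different -/
def ds (m a b : ℕ) : Bool :=
  cj (Nat.ble 128 a) (cj (Nat.ble 128 b)
    (dj (reachV m b (dmin m a) a) (reachV m a (dmin m b) b)))
def C4 : ℕ := 4398046511104
def C5 : ℕ := 8796093022208
def C6 : ℕ := 17592186044416
/-- `n` does not follow `p` in a face of class `cl`, at an interior vertex -/
def refute (m cl p n : ℕ) : Bool :=
  cj (intr m p) (dj (has m n cl) (dj (ds m (nx m p) n) (ds m (pv m n) p)))
/-- a face that is not a 4-face in the arc from `p` to `n` -/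
def loud (m n : ℕ) : ℕ → ℕ → Bool := fun fuel =>
  Nat.rec (fun _ => false) (fun _ ih cur => frc (nx m cur) fun x =>
    cj (Nat.ble 128 x) (dj (has m x C4) (cj (ds m x n) (ih x)))) fuel

/-- the corners of a path that starts with `d` and continues with `l` -/
def junc (l : List ℕ) : ℕ → List (ℕ × ℕ) :=
  List.rec (fun _ => []) (fun x _ ih d => (sy d, x) :: ih x) l
def lastD (l : List ℕ) : ℕ → ℕ := List.rec (fun d => d) (fun x _ ih _ => ih x) l

def fidx (u v k : ℕ) : ℕ := Nat.add (Nat.mul (Nat.add (Nat.mul u 64) v) 4) k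

/-- no walk of length `k` -/
def far (ft xm u v k : ℕ) : Bool :=
  cj (Nat.blt v 64) (cj (Nat.blt k 4) (dj (tb ft (fidx u v k))
    (cj (Nat.ble 1 k) (dj (Nat.beq u v) (dj (tb xm u) (tb xm v))))))

inductive FarC : Type
  | ty (a b : ℕ) : FarC
  | pth (k d : ℕ) (l : List ℕ) : FarC

def both (m cl : ℕ) (js : List (ℕ × ℕ)) : Bool :=
  cj (anyL js fun x => refute m cl x.1 x.2) (anyL js fun x => refute m cl x.2 x.1)

def sixOK (m d e j : ℕ) (js : List (ℕ × ℕ)) : Bool :=
  cj (Nat.ble 3 j) (cj (allL js fun x => intr m x.1) (cj (both m C6 js)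
    (cj (anyL js fun x => loud m x.2 6 x.1) (cj (anyL js fun x => loud m x.1 6 x.2)
      (dj (Nat.ble 4 j) (dj (intr m d) (dj (intr m (sy e))
        (cj (dj (anyL js fun x => refute m C5 x.1 x.2)
            (cj (Nat.ble 128 (nx m (sy e))) (intr m (sy (nx m (sy e))))))
          (dj (anyL js fun x => refute m C5 x.2 x.1)
            (cj (Nat.ble 128 (nx m d)) (intr m (sy (nx m d)))))))))))))

/-- the path `d :: l` cannot be closed up by a walk of length `k` -/
def pthOK (m tl xm ft k d : ℕ) (l : List ℕ) : Bool :=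
  (fun js : List (ℕ × ℕ) => frc (lastD l d) fun e => frc (Nat.succ (len l)) fun j =>
    frc (Nat.add j k) fun n =>
    cj (Nat.blt k 4) (cj (Nat.blt 0 (gl tl d)) (cj (Nat.blt 0 (gl tl (sy e)))
      (cj (allL js fun x => cj (Nat.blt 0 (gl tl x.2)) (Nat.beq (gl tl x.1) (gl tl x.2)))
        (dj (Nat.beq n 1) (dj (Nat.beq n 3)
          (dj (cj (Nat.beq n 5) (both m C5 js))
            (cj (allL js fun x => ds m x.1 x.2)
              (dj (cj (Nat.beq j 2) (Nat.beq k 0))
                (cj (sel (Nat.beq k 0) (far ft xm (gl tl (sy d)) (gl tl e) 0)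
                    (cj (tb xm (gl tl (sy d))) (tb xm (gl tl e))))
                  (dj (cj (Nat.beq n 4) (both m C4 js))
                    (cj (Nat.beq n 6) (sixOK m d e j js))))))))))))) (junc l d)

def addF (ft u v k : ℕ) : ℕ :=
  Nat.lor ft (Nat.lor (Nat.shiftLeft 1 (fidx u v k)) (Nat.shiftLeft 1 (fidx v u k)))

def farStep (m tl xm ft : ℕ) (c : FarC) : ℕ :=
  FarC.rec
    (fun a b => sel (cj (Nat.blt 0 (gl tl a)) (cj (Nat.blt 0 (gl tl b))
      (sb TM (Nat.lor (Nat.shiftRight m a) (Nat.shiftRight m b)))))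
      (addF ft (gl tl a) (gl tl b) 0) ft)
    (fun k d l => sel (pthOK m tl xm ft k d l) (addF ft (gl tl d) (gl tl (sy (lastD l d))) k) ft) c

def mkFT (m tl xm : ℕ) (cs : List FarC) : ℕ := foldL cs (farStep m tl xm) 0

/-! Degrees and list sizes from the excluded types -/

/-- the degree if it is known, else 0 -/
def dgm (m d : ℕ) : ℕ :=
  sel (has m d (degM 0)) 3 (sel (has m d (degM 1)) 4 (sel (has m d (degM 2)) 5
    (sel (has m d (degM 3)) 6 0)))
def lbm (m d : ℕ) : ℕ := sel (has m d 1888711868416) 5 (sel (has m d 625991483392) 4 3)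
def ubm (m d : ℕ) : ℕ :=
  sel (has m d 3770981285888) 3 (sel (has m d 3607772528640) 4 (sel (has m d 1374389534720) 5 8))
/-- upper bound for degree minus list size -/
def excm (m d : ℕ) : ℕ :=
  sel (has m d 4352949354496) 0 (sel (has m d 2134598746112) 1 (sel (has m d 2130303778816) 2 99))

/-- `k` darts around a vertex -/
def rotL (m k : ℕ) : ℕ → List ℕ :=
  Nat.rec (fun _ => []) (fun _ ih d => d :: frc (nx m d) ih) k
/-- all darts around the tail of `s` -/
def star (m s : ℕ) : List ℕ := rotL m (dgm m s) s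
def starOK (m s : ℕ) : Bool := cj (Nat.blt 0 (dgm m s)) (allL (star m s) fun d => Nat.ble 128 d)

/-- sizes of the lists -/
def init0 (m : ℕ) (ss : List ℕ) : ℕ → ℕ → ℕ :=
  List.rec (fun _ st => st) (fun s _ ih a st =>
    frc (setU (setL' st a (lbm m s)) a (ubm m s)) fun st' => frc (Nat.add a 64) fun a' =>
      ih a' st') ss

/-- `a` names the list of a named vertex -/
def isL (n a : ℕ) : Bool :=
  cj (Nat.ble 64 a) (cj (Nat.ble a (Nat.mul n 64)) (Nat.beq (Nat.land a 63) 0))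
def vx (a : ℕ) : ℕ := Nat.shiftRight a 6
def sd (ss : List ℕ) (u : ℕ) : ℕ := nth ss (Nat.pred u)

def fullOK (m tl n : ℕ) (ss : List ℕ) (a : ℕ) (cs : List ℕ) : Bool :=
  cj (isL n a) (cj (allL cs (isL n)) (cj (starOK m (sd ss (vx a)))
    (allL (star m (sd ss (vx a))) fun d => cj (Nat.blt 0 (gl tl (sy d)))
      (memL cs (Nat.mul (gl tl (sy d)) 64)))))

/-- relations between lists -/
def srelOK (m tl ad n : ℕ) (ss : List ℕ) (r : Rel) : Bool :=
  Rel.rec (motive := fun _ => Bool)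
    (fun a b => cj (isL n a) (Nat.beq a b))
    (fun a b => cj (isL n a) (cj (isL n b) (adj ad (vx a) (vx b))))
    (fun _ _ => false) (fun _ _ _ => false) (fun _ _ _ => false)
    (fun a b w => cj (isL n a) (cj (isL n b) (cj (Nat.beq (gl tl w) (vx a))
      (cj (has m w (lenM 0)) (cj (Nat.beq (gl tl (stepF m 2 w)) (vx b))
        (dj (intr m w) (dj (intr m (sy w)) (dj (intr m (stepF m 2 w))
          (intr m (sy (stepF m 2 w)))))))))))
    (fun a cs => cj (fullOK m tl n ss a cs) (Nat.ble 5 (lbm m (sd ss (vx a)))))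
    (fun a cs => cj (fullOK m tl n ss a cs) (Nat.ble 4 (lbm m (sd ss (vx a))))) r

/-- a reduction: delete `xs`, add `arcs`, identify `ib` with `ia`, reuse `z` as a new vertex -/
structure Sol : Type where
  g : GSol
  xs : List ℕ
  rm : ℕ
  arcs : List (ℕ × ℕ)
  ia : ℕ
  ib : ℕ
  z : ℕ
  zx : ℕ
  zy : ℕ
  fars : List FarC
  swaps : List (ℕ × ℕ × ℕ)
  lab : ℕ
  i1 : ℕ
  i2 : ℕ
  x0 : ℕ

def mask (l : List ℕ) : ℕ := foldL l (fun a x => Nat.lor a (Nat.shiftLeft 1 x)) 0

/-- same class under the identification -/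
def sim (ia ib u v : ℕ) : Bool :=
  dj (Nat.beq u v) (cj (dj (Nat.beq u ia) (Nat.beq u ib)) (dj (Nat.beq v ia) (Nat.beq v ib)))

def lk (ft xm ia ib u v k : ℕ) : Bool :=
  cj (far ft xm u v k) (dj (Nat.beq ia ib) (allN (Nat.succ k) fun i =>
    cj (dj (far ft xm u ia i) (far ft xm ib v (Nat.sub k i)))
      (dj (far ft xm u ib i) (far ft xm ia v (Nat.sub k i)))))

def both2 (l : List (ℕ × ℕ)) : List (ℕ × ℕ) :=
  List.rec [] (fun x _ ih => x :: (x.2, x.1) :: ih) l

def safeOK (ft xm ia ib : ℕ) (ar : List (ℕ × ℕ)) : Bool :=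
  cj (dj (Nat.beq ia ib) (cj (far ft xm ia ib 1) (far ft xm ia ib 3)))
    (allL ar fun x => cj (lk ft xm ia ib x.2 x.1 0) (cj (lk ft xm ia ib x.2 x.1 2)
      (allL ar fun y => dj (lk ft xm ia ib x.2 y.1 0) (dj (sim ia ib y.2 x.1)
        (cj (lk ft xm ia ib y.2 x.1 1) (allL ar fun w =>
          dj (lk ft xm ia ib y.2 w.1 0) (dj (lk ft xm ia ib w.2 x.1 0)
            (dj (sim ia ib w.2 y.1) (sim ia ib x.2 w.1)))))))))

/-- all darts with tail in `xs` -/
def xdarts (m : ℕ) (ss xs : List ℕ) : List ℕ :=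
  List.rec [] (fun x _ ih => List.rec ih (fun d _ ih2 => d :: ih2) (star m (sd ss x))) xs

def tau0 (m tl xm : ℕ) (dx : List ℕ) : ℕ :=
  foldL dx (fun t d => setN t d (sel (tb xm (gl tl (sy d))) (nx m (sy d)) (nx m d))) 0

def cyc1 (t : ℕ) (p : ℕ → Bool) : ℕ → ℕ → Bool := fun fuel =>
  Nat.rec (fun _ => false) (fun _ ih d => dj (p d) (frc (nx t d) ih)) fuel
def sameC (t x y : ℕ) : Bool := cyc1 t (fun d => Nat.beq d y) 80 x

/-- an inner dart that has not been linked -/
def free (tl xm t d : ℕ) : Bool := cj (tb xm (gl tl (sy d))) (Nat.beq (pv t d) 0)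

/-- `x = (k, a, b)`: exchange the successors of `a` and `b`.  For `k = 0` this splits a cycle, for
`k = 1` it inserts the isolated free dart `a`, otherwise it splits a cycle and links the free darts
`a` and `b` by an edge. -/
def swapStep (tl xm : ℕ) (dx : List ℕ) (t : ℕ) (x : ℕ × ℕ × ℕ) : ℕ :=
  sel (cj (memL dx x.2.1) (cj (memL dx x.2.2) (sel (Nat.beq x.1 0) (sameC t x.2.1 x.2.2)
      (cj (free tl xm t x.2.1) (sel (Nat.beq x.1 1) (Nat.beq (nx t x.2.1) x.2.1)
        (cj (free tl xm t x.2.2) (cj (nt (Nat.beq x.2.1 x.2.2)) (sameC t x.2.1 x.2.2))))))))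
    (frc (nx t x.2.1) fun a => frc (nx t x.2.2) fun b => frc (setN t x.2.1 b) fun t' =>
      frc (setN t' x.2.2 a) fun t2 => sel (Nat.ble x.1 1) t2
        (frc (setP t2 x.2.1 x.2.2) fun t3 => setP t3 x.2.2 x.2.1)) t

def holeOK (tl xm : ℕ) (S : Sol) (dx : List ℕ) (t0 : ℕ) : Bool :=
  cj (allL dx fun d => memL dx (nx t0 d)) (frc (foldL S.swaps (swapStep tl xm dx) t0) fun t =>
    cj (allL dx fun d => cj (Nat.beq (gl S.lab (nx t d)) (gl S.lab d))
      (frc (gl S.lab d) fun v => dj (Nat.beq v 0) (sel (tb xm v)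
        (allL dx fun e => dj (nt (Nat.beq (gl S.lab e) v)) (sameC t d e))
        (cj (tb S.rm v) (cyc1 t (fun e => cj (tb S.rm (gl tl (sy e)))
          (sim S.ia S.ib (gl tl (sy e)) v)) 80 d)))))
    (cj (dj (Nat.beq S.ia S.ib) (cj (memL dx S.i1) (cj (sameC t S.i1 S.i2)
        (cj (Nat.beq (gl tl (sy S.i1)) S.ia) (cj (Nat.beq (gl tl (sy S.i2)) S.ib)
          (Nat.beq (gl S.lab S.i1) S.ia))))))
      (allL S.arcs fun x => anyL dx fun d => sel (tb S.rm (gl tl (sy d)))
        (dj (cj (sim S.ia S.ib (gl S.lab d) x.1) (sim S.ia S.ib (gl tl (sy d)) x.2))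
          (cj (sim S.ia S.ib (gl S.lab d) x.2) (sim S.ia S.ib (gl tl (sy d)) x.1)))
        (cj (Nat.blt 0 (pv t d)) (cj (sim S.ia S.ib (gl S.lab d) x.1)
          (sim S.ia S.ib (gl S.lab (pv t d)) x.2))))))

def hasC (cs : List (ℕ × ℕ × Bool)) (u v : ℕ) (b : Bool) : Bool :=
  anyL cs fun x => cj (Nat.beq x.1 (Nat.mul u 64)) (cj (Nat.beq x.2.1 (Nat.mul v 64))
    (dj b (nt x.2.2)))

/-- the object for the colour of `u` -/
def oC (n u : ℕ) : ℕ := Nat.mul (Nat.add n u) 64
def isC (n a : ℕ) : Bool :=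
  cj (Nat.blt (Nat.mul n 64) a) (cj (Nat.ble a (Nat.mul n 128)) (Nat.beq (Nat.land a 63) 0))
def vC (n a : ℕ) : ℕ := Nat.sub (vx a) n
def isA (n k a : ℕ) : Bool :=
  cj (Nat.blt (Nat.mul n 128) a) (cj (Nat.ble a (Nat.add (Nat.mul n 128) (Nat.mul k 64)))
    (Nat.beq (Nat.land a 63) 0))
def vA (n : ℕ) (xs : List ℕ) (a : ℕ) : ℕ := nth xs (Nat.sub (vx a) (Nat.succ (Nat.mul n 2)))

/-- `b` is the set of available colours at the vertex whose list is `a`, and `cs` holds the colours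
of its kept neighbours -/
def covOK (m tl xm n : ℕ) (ss : List ℕ) (S : Sol) (a b : ℕ) (cs : List ℕ) : Bool :=
  cj (isA n S.g.nx b) (cj (Nat.beq a (Nat.mul (vA n S.xs b) 64))
    (allL (star m (sd ss (vx a))) fun d => dj (tb xm (gl tl (sy d)))
      (anyL cs fun c => cj (isC n c) (sim S.ia S.ib (vC n c) (gl tl (sy d))))))

def anyO (n k a : ℕ) : Bool := dj (isL n a) (dj (isC n a) (isA n k a))

def relOK (m tl ad xm n : ℕ) (ss : List ℕ) (S : Sol) (r : Rel) : Bool :=
  Rel.rec (motive := fun _ => Bool)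
    (fun a b => dj (cj (isC n a) (dj (cj (tb S.rm (vC n a)) (Nat.beq b (Nat.mul (vC n a) 64)))
        (cj (isC n b) (sim S.ia S.ib (vC n a) (vC n b)))))
      (cj (isA n S.g.nx a) (Nat.beq b (Nat.mul (vA n S.xs a) 64))))
    (fun _ _ => false)
    (fun a b => cj (isC n b) (dj
      (cj (isC n a) (dj (cj (tb S.rm (vC n a)) (cj (tb S.rm (vC n b)) (adj ad (vC n a) (vC n b))))
        (anyL S.arcs fun x => cj (Nat.beq x.1 (vC n a)) (Nat.beq x.2 (vC n b)))))
      (cj (isA n S.g.nx a) (cj (tb S.rm (vC n b)) (adj ad (vA n S.xs a) (vC n b))))))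
    (fun a b cs => cj (allL (b :: cs) (anyO n S.g.nx)) (dj
      (cj (Nat.blt 0 S.z) (cj (Nat.beq a (oC n S.z)) (cj (memL (b :: cs) (Nat.mul S.zx 64))
        (memL (b :: cs) (Nat.mul S.zy 64)))))
      (anyL (b :: cs) fun v => covOK m tl xm n ss S a v (b :: cs))))
    (fun a b cs => cj (allL cs (isC n)) (covOK m tl xm n ss S a b cs))
    (fun _ _ _ => false) (fun _ _ => false) (fun _ _ => false) r

/-- sizes of the colour objects -/
def initC (n : ℕ) : ℕ :=
  Nat.rec 0 (fun i ih => frc ih fun st => setU (setL' st (oC n (Nat.succ i)) 1)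
    (oC n (Nat.succ i)) 1) n

def nodupL (l : List ℕ) : Bool := List.rec true (fun x r ih => cj (nt (memL r x)) ih) l

def gsolOK (n : ℕ) (S : GSol) : Bool :=
  cj (Nat.ble S.nx 14) (cj (Nat.beq S.base (Nat.add (Nat.mul n 128) 64))
    (cj (Nat.beq S.init (initC n)) (cj (allL S.conds fun x => cj (isL n x.1) (isL n x.2.1))
      (allN 14 fun i => cj (nt (tb S.xa (Nat.add (Nat.mul i 14) i)))
        (cj (Nat.beq (Nat.land (Nat.land (Nat.shiftRight S.xs (Nat.mul i 896))
            (Nat.pred (Nat.shiftLeft 1 896))) ONE0)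
            (Nat.land (Nat.shiftRight S.xs (Nat.mul i 896)) (Nat.pred (Nat.shiftLeft 1 896))))
          (allN 14 fun j => sel (tb S.xa (Nat.add (Nat.mul i 14) j))
            (cj (tb S.xa (Nat.add (Nat.mul j 14) i))
              (tb S.xs (Nat.add (Nat.mul i 896) (Nat.mul j 64))))
            (nt (tb S.xa (Nat.add (Nat.mul j 14) i)))))))))

def solOK (m tl ad n : ℕ) (ss : List ℕ) (S : Sol) : Bool :=
  frc (mask S.xs) fun xm => frc (mkFT m tl xm S.fars) fun ft =>
  (fun dx : List ℕ =>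
    cj (gsolOK n S.g) (cj (Nat.beq S.g.nx (len S.xs)) (cj (nodupL S.xs)
    (cj (allL S.xs fun x => cj (Nat.ble 1 x) (cj (Nat.ble x n) (cj (starOK m (sd ss x))
      (cj (allL S.xs fun y => dj (Nat.beq x y) (far ft xm x y 0))
        (allL (star m (sd ss x)) fun d => cj (Nat.beq (gl tl d) x)
          (dj (tb S.rm (gl tl (sy d))) (tb xm (gl tl (sy d)))))))))
    (cj (allN 64 fun r => dj (nt (tb S.rm r)) (cj (Nat.ble 1 r) (cj (Nat.ble r n)
      (allL S.xs fun x => far ft xm r x 0))))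
    (cj (Nat.blt S.rm 18446744073709551616)
    (cj (allN S.g.nx fun i => allN S.g.nx fun j =>
      dj (nt (adj ad (nth S.xs i) (nth S.xs j))) (tb S.g.xa (Nat.add (Nat.mul i 14) j)))
    (cj (dj (cj (Nat.beq S.ia 0) (Nat.beq S.ib 0)) (cj (tb S.rm S.ia) (cj (tb S.rm S.ib)
      (cj (hasC S.g.conds S.ia S.ib false) (hasC S.g.conds S.ib S.ia false)))))
    (cj (dj (Nat.beq S.z 0) (cj (tb xm S.z) (cj (tb xm S.zx) (tb xm S.zy))))
    (cj (tb xm S.x0) (cj (nt (Nat.beq S.x0 S.z))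
    (cj (allL S.arcs fun x => cj (tb S.rm x.2) (dj
      (cj (tb S.rm x.1) (cj (hasC S.g.conds x.1 x.2 true) (hasC S.g.conds x.2 x.1 true)))
      (cj (Nat.blt 0 S.z) (cj (Nat.beq x.1 S.z) (dj (adj ad S.zx x.2) (adj ad S.zy x.2))))))
    (cj (safeOK ft xm S.ia S.ib (both2 S.arcs))
    (cj (frc (tau0 m tl xm dx) fun t0 => holeOK tl xm S dx t0)
      (S.g.rels.all (relOK m tl ad xm n ss S)))))))))))))))) (xdarts m ss S.xs)

def BT.map {α β : Type} (f : α → β) (t : BT α) : BT β :=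
  BT.rec (fun a => .lf (f a)) (fun k _ _ l r => .nd k l r) t

/-- kernel configurations -/
def kerOK (m tl ad n : ℕ) (ss xs : List ℕ) (bm : ℕ) (ins : List (List ℕ)) (fars : List FarC) :
    Bool :=
  frc (mkFT m tl 0 fars) fun ft =>
    cj (Nat.blt 0 (len xs)) (cj (nodupL xs)
    (allL xs fun x => cj (Nat.ble 1 x) (cj (Nat.ble x n)
      (cj (allL xs fun y => dj (Nat.beq x y) (cj (far ft 0 x y 0)
        (dj (nt (Nat.beq (Nat.land (Nat.shiftRight bm x) 1) (Nat.land (Nat.shiftRight bm y) 1)))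
          (far ft 0 x y 1))))
      (cj (nodupL (ins.getD x [])) (cj (Nat.blt (excm m (sd ss x)) (len (ins.getD x [])))
        (allL (ins.getD x []) fun u => cj (memL xs u) (cj (adj ad x u)
          (nt (memL (ins.getD u []) x))))))))))

/-- certificates for reducible configurations -/
inductive RC : Type
  | gm (ss : List ℕ) (srel : BT Rel) (sols : BT Sol) (c : ℕ) : RC
  | kr (ss xs : List ℕ) (bm : ℕ) (ins : List (List ℕ)) (fars : List FarC) : RC
  | g0 (ss : List ℕ) (srel : BT Rel) (c : ℕ) : RC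

/-- a reduction that says nothing -/
def dummy (n : ℕ) : GSol :=
  ⟨[], .lf (.sub (128 * n + 64) (128 * n + 64)), 0, 1, 128 * n + 64, 0, 0⟩

def pre (m nd : ℕ) (ss : List ℕ) (K : ℕ → ℕ → ℕ → Bool) : Bool :=
  frc (len ss) fun n => cj (Nat.ble 1 n) (cj (Nat.ble n 50) (cj (allL ss (okD nd))
    (frc (mkTl m ss 1 0) fun tl => frc (mkAdj tl (Nat.shiftRight nd 6)) fun ad => K n tl ad)))

def redC (m nd : ℕ) (r : RC) : Bool :=
  RC.rec (motive := fun _ => Bool)
    (fun ss srel sols c => pre m nd ss fun n tl ad =>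
      cj (srel.all (srelOK m tl ad n ss)) (cj (sols.all (solOK m tl ad n ss))
        (frc (init0 m ss 64 0) fun st => game srel (sols.map Sol.g) n st c)))
    (fun ss xs bm ins fars => pre m nd ss fun n tl ad => kerOK m tl ad n ss xs bm ins fars)
    (fun ss srel c => pre m nd ss fun n tl ad =>
      cj (srel.all (srelOK m tl ad n ss))
        (frc (init0 m ss 64 0) fun st => game srel (.lf (dummy n)) n st c)) r

def red (t : BT RC) (m nd c : ℕ) : Bool := redC m nd (t.get c)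

/-- `k` darts of 9 bits each -/
def decL (k : ℕ) : ℕ → List ℕ :=
  Nat.rec (fun _ => []) (fun _ ih c => frc (dart c) fun d => d :: frc (Nat.shiftRight c 9) ih) k

/-- `k` facts on walks -/
def decF (k : ℕ) : ℕ → List FarC :=
  Nat.rec (fun _ => []) (fun _ ih c => frc (Nat.land c 7) fun j => sel (Nat.beq j 0)
    (frc (dart (Nat.shiftRight c 3)) fun a => frc (dart (Nat.shiftRight c 12)) fun b =>
      FarC.ty a b :: frc (Nat.shiftRight c 21) ih)
    (frc (Nat.land (Nat.shiftRight c 3) 3) fun k => frc (dart (Nat.shiftRight c 5)) fun d =>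
      frc (Nat.land (Nat.shiftRight c 14) 35184372088831) fun l => frc (Nat.pred j) fun i =>
        FarC.pth k d (decL i l) :: frc (Nat.shiftRight c (Nat.add (Nat.mul j 9) 5)) ih)) k

/-! Semantics -/

variable {V : Type*} {G : SimpleGraph V}

/-- the vertex named `u` -/
def fv (h : ℕ → G.Dart) (ss : List ℕ) (u : ℕ) : V := (h (sd ss u)).fst

/-- correct names -/
def TlOK (nd : ℕ) (h : ℕ → G.Dart) (f : ℕ → V) (n tl : ℕ) : Prop :=
  ∀ d, gl tl d ≠ 0 → Val nd d ∧ gl tl d ≤ n ∧ (h d).fst = f (gl tl d)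

def AdOK (G : SimpleGraph V) (f : ℕ → V) (ad : ℕ) : Prop :=
  ∀ u v, adj ad u v = true → G.Adj (f u) (f v)

/-- every dart between named vertices is in the matrix -/
def AdAll (nd tl ad : ℕ) : Prop :=
  ∀ d, Val nd d → gl tl d ≠ 0 → gl tl (sy d) ≠ 0 → adj ad (gl tl d) (gl tl (sy d)) = true

def FarOK (G : SimpleGraph V) (X : Set V) (f : ℕ → V) (ft xm : ℕ) : Prop :=
  ∀ u v k, far ft xm u v k = true → ¬ Wk G X k (f u) (f v)

end

end Pool.Agent.Lib.MP_bfaad3_co
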